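import Mathlib

/-!
Sums of products of periodic functions over a complete system of residues.
-/

set_option autoImplicit false

namespace Pool.Agent.H544.BC
open Finset

/-- periodic modulo `m` -/
def Per (m : ℕ) (f : ℤ → ℝ) : Prop := ∀ a b : ℤ, (m : ℤ) ∣ a - b → f a = f b

lemma Per.mul {m : ℕ} {f g : ℤ → ℝ} (hf : Per m f) (hg : Per m g) : Per m (fun a => f a * g a) := fun a b h => by
  show f a * g a = f b * g b
  rw [hf a b h, hg a b h]

lemma Per.of_dvd {m n : ℕ} {f : ℤ → ℝ} (h : m ∣ n) (hf : Per m f) : Per n f := fun a b hab =>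
  hf a b ((Int.natCast_dvd_natCast.2 h).trans hab)

lemma sum_shift (p m : ℕ) (hp : 1 ≤ p) (hm : m.Coprime p) (f : ℤ → ℝ) (hf : Per p f) (i : ℤ) :
    ∑ j ∈ range p, f (i + m * j) = ∑ b ∈ range p, f b := by
  have hp0 : (0 : ℤ) < p := by exact_mod_cast hp
  have hpz : (p : ℤ) ≠ 0 := hp0.ne'
  have hmaps : Set.MapsTo (fun j : ℕ => ((i + m * j) % p).toNat) (range p : Set ℕ) (range p : Set ℕ) := by
    intro j _
    simp only [coe_range, Set.mem_Iio]
    have h1 := Int.emod_nonneg (i + m * j) hpz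
    have h2 := Int.emod_lt_of_pos (i + m * j) hp0
    omega
  have hinj : Set.InjOn (fun j : ℕ => ((i + m * j) % p).toNat) (range p : Set ℕ) := by
    intro j hj k hk h
    simp only [coe_range, Set.mem_Iio] at hj hk h
    have h1 := Int.emod_nonneg (i + m * j) hpz
    have h2 := Int.emod_nonneg (i + m * k) hpz
    have h3 : (i + m * j) % p = (i + m * k) % p := by omega
    have h4 : (p : ℤ) ∣ (m : ℤ) * ((j : ℤ) - k) := by
      have := Int.emod_emod_of_dvd
      have h5 := Int.emod_eq_emod_iff_emod_sub_eq_zero.1 h3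
      have h6 := Int.dvd_of_emod_eq_zero h5
      have e : i + m * (j : ℤ) - (i + m * k) = m * ((j : ℤ) - k) := by ring
      rwa [e] at h6
    have h5 : IsCoprime (p : ℤ) (m : ℤ) := Nat.isCoprime_iff_coprime.2 hm.symm
    have h6 := h5.dvd_of_dvd_mul_left h4
    have h7 : |(j : ℤ) - k| < p := by rw [abs_lt]; constructor <;> omega
    have := Int.eq_zero_of_abs_lt_dvd h6 h7
    omega
  have hsurj : Set.SurjOn (fun j : ℕ => ((i + m * j) % p).toNat) (range p : Set ℕ) (range p : Set ℕ) :=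
    surjOn_of_injOn_of_card_le _ hmaps hinj le_rfl
  apply sum_nbij (fun j : ℕ => ((i + m * j) % p).toNat)
  · intro j hj; exact hmaps hj
  · exact hinj
  · exact hsurj
  · intro j _
    apply hf
    have h1 := Int.emod_nonneg (i + m * j) hpz
    rw [Int.toNat_of_nonneg h1]
    exact Int.dvd_self_sub_emod

lemma crt_sum (m p : ℕ) (hm : 1 ≤ m) (hp : 1 ≤ p) (hc : m.Coprime p) (g f : ℤ → ℝ) (hg : Per m g) (hf : Per p f) :
    ∑ a ∈ range (m * p), g a * f a = (∑ a ∈ range m, g a) * (∑ b ∈ range p, f b) := by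
  have h1 : ∑ a ∈ range (m * p), g a * f a = ∑ x ∈ range m ×ˢ range p, g ((x.1 + m * x.2 : ℕ) : ℤ) * f ((x.1 + m * x.2 : ℕ) : ℤ) := by
    symm
    apply sum_nbij' (fun x : ℕ × ℕ => x.1 + m * x.2) (fun a => (a % m, a / m))
    · intro x hx
      simp only [mem_product, mem_range] at hx ⊢
      calc x.1 + m * x.2 < m + m * x.2 := by omega
        _ = m * (x.2 + 1) := by ring
        _ ≤ m * p := Nat.mul_le_mul_left _ (by omega)
    · intro a ha
      simp only [mem_product, mem_range] at ha ⊢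
      exact ⟨Nat.mod_lt _ (by omega), Nat.div_lt_of_lt_mul ha⟩
    · intro x hx
      simp only [mem_product, mem_range] at hx
      ext
      · simp [Nat.add_mul_mod_self_left, Nat.mod_eq_of_lt hx.1]
      · show (x.1 + m * x.2) / m = x.2
        rw [Nat.add_mul_div_left _ _ (by omega), Nat.div_eq_of_lt hx.1, zero_add]
    · intro a _
      exact Nat.mod_add_div a m
    · intro x _
      rfl
  rw [h1, sum_product, sum_mul]
  apply sum_congr rfl
  intro i _
  have h2 : ∀ j ∈ range p, g ((i + m * j : ℕ) : ℤ) * f ((i + m * j : ℕ) : ℤ) = g i * f ((i : ℤ) + m * j) := by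
    intro j _
    rw [hg ((i + m * j : ℕ) : ℤ) i ⟨j, by push_cast; ring⟩]
    congr 2
  rw [sum_congr rfl h2, ← mul_sum, sum_shift p m hp hc f hf]

lemma prod_per (S : Finset ℕ) (f : ℕ → ℤ → ℝ) (hf : ∀ p ∈ S, Per p (f p)) : Per (∏ p ∈ S, p) (fun a => ∏ p ∈ S, f p a) := by
  intro a b h
  apply prod_congr rfl
  intro p hp
  exact hf p hp a b ((Int.natCast_dvd_natCast.2 (dvd_prod_of_mem _ hp)).trans h)

theorem crt_prod (S : Finset ℕ) (hS : ∀ p ∈ S, p.Prime) (f : ℕ → ℤ → ℝ) (hf : ∀ p ∈ S, Per p (f p)) :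
    ∑ a ∈ range (∏ p ∈ S, p), ∏ p ∈ S, f p a = ∏ p ∈ S, ∑ b ∈ range p, f p b := by
  induction S using Finset.induction_on with
  | empty => simp
  | insert q S hq ih =>
    have h1 := ih (fun p hp => hS p (mem_insert_of_mem hp)) (fun p hp => hf p (mem_insert_of_mem hp))
    rw [prod_insert hq, prod_insert hq, mul_comm q]
    have h2 : ∀ a ∈ range ((∏ p ∈ S, p) * q), ∏ p ∈ insert q S, f p a = (∏ p ∈ S, f p a) * f q a := by
      intro a _
      rw [prod_insert hq, mul_comm]
    rw [sum_congr rfl h2]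
    have hqp := hS q (mem_insert_self _ _)
    have hcop : (∏ p ∈ S, p).Coprime q := by
      apply Nat.Coprime.prod_left
      intro p hp
      exact (Nat.coprime_primes (hS p (mem_insert_of_mem hp)) hqp).2 (fun h => hq (h ▸ hp))
    rw [crt_sum _ q (Finset.prod_pos fun p hp => (hS p (mem_insert_of_mem hp)).pos) hqp.pos hcop _ _
      (prod_per S f (fun p hp => hf p (mem_insert_of_mem hp))) (hf q (mem_insert_self _ _)), h1, mul_comm]

/-- the product over the prime factors of `e` of a sum over residues -/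
theorem crt_sqf (e : ℕ) (he : Squarefree e) (f : ℕ → ℤ → ℝ) (hf : ∀ p ∈ e.primeFactors, Per p (f p)) :
    ∑ a ∈ range e, ∏ p ∈ e.primeFactors, f p a = ∏ p ∈ e.primeFactors, ∑ b ∈ range p, f p b := by
  have h := crt_prod e.primeFactors (fun p hp => Nat.prime_of_mem_primeFactors hp) f hf
  rwa [Nat.prod_primeFactors_of_squarefree he] at h

end Pool.Agent.H544.BC
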