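import Mathlib
import Pool.Agent.H544.LD.Count
import Pool.Agent.H544.BC.Crt

/-!
Weyl sums along a residue class: one differencing step controls the denominator of a frequency with a large sum.
-/

set_option autoImplicit false

namespace Pool.Agent.H544.BC
open Finset Polynomial
open Pool.Agent.H807R2.Dav
open Pool.Agent.H373R2.T7 (orth)
open Pool.Agent.H544.LD (cls cls_sum)

lemma ee_sub_one (x : ℝ) : ‖ee x - 1‖ ≤ 2 * Real.pi * |x| := by
  have h := Real.norm_exp_I_mul_ofReal_sub_one_le (x := 2 * Real.pi * x)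
  have e : ee x = Complex.exp (Complex.I * ((2 * Real.pi * x : ℝ) : ℂ)) := by
    unfold ee
    congr 1
    push_cast
    ring
  rw [e]
  refine h.trans (le_of_eq ?_)
  rw [Real.norm_eq_abs, abs_mul, abs_of_pos (by positivity)]

/-- shifts of sums along a class -/
lemma shift_cls (y e a : ℕ) (he : 1 ≤ e) (ha : a < e) (g : ℕ → ℂ) (hg : ∀ n, ‖g n‖ ≤ 1) (j : ℕ) :
    ‖∑ n ∈ cls y e a, g (n + e * j) - ∑ n ∈ cls y e a, g n‖ ≤ 2 * j := by
  obtain ⟨N, a', h1, h2, h3, h4, h5⟩ := cls_sum y e a he ha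
  rw [h5, h5]
  induction j with
  | zero => simp
  | succ j ih =>
    have h6 : ∑ k ∈ range N, g (a' + e * k + e * (j + 1)) - ∑ k ∈ range N, g (a' + e * k + e * j) =
        g (a' + e * N + e * j) - g (a' + e * 0 + e * j) := by
      rw [← sum_sub_distrib]
      have h7 : ∀ k ∈ range N, g (a' + e * k + e * (j + 1)) - g (a' + e * k + e * j) =
          g (a' + e * (k + 1) + e * j) - g (a' + e * k + e * j) := by
        intro k _
        congr 2
        ring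
      rw [sum_congr rfl h7]
      exact sum_range_sub (fun k => g (a' + e * k + e * j)) N
    have h8 : ∑ k ∈ range N, g (a' + e * k + e * (j + 1)) - ∑ k ∈ range N, g (a' + e * k) =
        (∑ k ∈ range N, g (a' + e * k + e * (j + 1)) - ∑ k ∈ range N, g (a' + e * k + e * j)) +
        (∑ k ∈ range N, g (a' + e * k + e * j) - ∑ k ∈ range N, g (a' + e * k)) := by ring
    rw [h8, h6]
    refine (norm_add_le _ _).trans ?_
    have h9 := (norm_sub_le (g (a' + e * N + e * j)) (g (a' + e * 0 + e * j)))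
    have := hg (a' + e * N + e * j)
    have := hg (a' + e * 0 + e * j)
    push_cast
    linarith

/-- one differencing step -/
theorem diff_small (P : ℤ[X]) (y e a p r : ℕ) (he : Squarefree e) (ha : a < e) (hp : p.Prime) (hpe : p ∣ e)
    (hpd : ¬ (p : ℤ) ∣ P.derivative.eval (a : ℤ)) (hr : p ^ 2 ∣ r) (hr1 : 1 ≤ r) (b : ℤ) (hb : ¬ (p : ℤ) ∣ b) (β V : ℝ)
    (hV : ∀ n s : ℕ, n ∈ Icc 1 y → s ≤ r * e → |(((P.eval ((n + s : ℕ) : ℤ) : ℤ) : ℝ)) - ((P.eval (n : ℤ) : ℤ) : ℝ)| ≤ V) :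
    ‖∑ n ∈ cls y e a, ee (((b : ℝ) / r + β) * ((P.eval (n : ℤ) : ℤ) : ℝ))‖ ≤
      #(cls y e a) * (2 * Real.pi * (|β| * V)) + 2 * r := by
  have he1 : 1 ≤ e := Nat.one_le_iff_ne_zero.2 he.ne_zero
  have hp1 : 1 ≤ p := hp.pos
  have hp0 : (0 : ℝ) < p := by exact_mod_cast hp1
  have hr0 : (0 : ℝ) < r := by exact_mod_cast hr1
  obtain ⟨r2, hr2⟩ := hr
  -- s1 = e / gcd(r, e)
  obtain ⟨s1, hs1⟩ : Nat.gcd r e ∣ e := Nat.gcd_dvd_right r e
  have hpg : p ∣ Nat.gcd r e := Nat.dvd_gcd (hr2 ▸ (dvd_pow_self p (by norm_num : (2 : ℕ) ≠ 0)).mul_right r2) hpe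
  have hps1 : ¬ p ∣ s1 := by
    intro h
    have h2 : p * p ∣ e := by
      rw [hs1]
      exact Nat.mul_dvd_mul hpg h
    have h3 := he p h2
    exact hp.one_lt.ne' (Nat.isUnit_iff.1 h3)
  -- L = (r / p) s1
  obtain ⟨L, hL⟩ : ∃ L : ℕ, L = p * r2 * s1 := ⟨_, rfl⟩
  have hLp : L * p = r * s1 := by rw [hL, hr2]; ring
  have hrL : r ∣ L * L := by
    refine ⟨r2 * s1 * s1, ?_⟩
    rw [hL, hr2]; ring
  have heL : e ∣ L := by
    -- e = p * e'
    obtain ⟨e', he'⟩ := hpe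
    have hcop : Nat.Coprime e' p := by
      rw [he'] at he
      have := Nat.coprime_of_squarefree_mul he
      exact this.symm
    have h1 : e' ∣ L * p := by
      rw [hLp]
      have h2 : e ∣ r * s1 := by
        obtain ⟨w, hw⟩ := Nat.gcd_dvd_left r e
        refine ⟨w, ?_⟩
        calc r * s1 = (r.gcd e * w) * s1 := by rw [← hw]
          _ = (r.gcd e * s1) * w := by ring
          _ = e * w := by rw [← hs1]
      exact (Dvd.intro_left p he'.symm).trans h2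
    have h2 : e' ∣ L := hcop.dvd_of_dvd_mul_right h1
    have h3 : p ∣ L := ⟨r2 * s1, by rw [hL]; ring⟩
    rw [he']
    exact hcop.symm.mul_dvd_of_dvd_of_dvd h3 h2
  obtain ⟨ρ, hρ⟩ := heL
  have hLle : ∀ μ ∈ range p, L * μ ≤ r * e := by
    intro μ hμ
    rw [mem_range] at hμ
    have h1 : s1 ≤ e := Nat.le_of_dvd (by omega) (Dvd.intro_left _ hs1.symm)
    calc L * μ ≤ L * p := Nat.mul_le_mul_left _ hμ.le
      _ = r * s1 := hLp
      _ ≤ r * e := Nat.mul_le_mul_left _ h1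
  set α : ℝ := (b : ℝ) / r + β with hα
  set g : ℕ → ℂ := fun n => ee (α * ((P.eval (n : ℤ) : ℤ) : ℝ)) with hg
  have hg1 : ∀ n, ‖g n‖ ≤ 1 := fun n => (norm_ee _).le
  set w : ℤ := b * s1 * P.derivative.eval (a : ℤ) with hw
  have hpw : ¬ (p : ℤ) ∣ w := by
    have hpp : Prime (p : ℤ) := Nat.prime_iff_prime_int.1 hp
    rw [hw]
    intro h
    rcases hpp.dvd_or_dvd h with h | h
    · rcases hpp.dvd_or_dvd h with h | h
      · exact hb h
      · exact hps1 (by exact_mod_cast h)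
    · exact hpd h
  -- the key identity
  have key : ∀ n ∈ cls y e a, ∀ μ : ℕ, g (n + L * μ) = g n * ee ((μ : ℝ) * ((w : ℝ) / p)) *
      ee (β * (((P.eval ((n + L * μ : ℕ) : ℤ) : ℤ) : ℝ) - ((P.eval (n : ℤ) : ℤ) : ℝ))) := by
    intro n hn μ
    unfold cls at hn
    rw [mem_filter] at hn
    obtain ⟨Q, hQ⟩ := Polynomial.binomExpansion P (n : ℤ) ((L * μ : ℕ) : ℤ)
    have h1 : P.eval ((n + L * μ : ℕ) : ℤ) = P.eval (n : ℤ) + P.derivative.eval (n : ℤ) * ((L * μ : ℕ) : ℤ) +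
        Q * ((L * μ : ℕ) : ℤ) ^ 2 := by
      rw [← hQ]
      push_cast
      rfl
    -- derivative at n and at a
    have h2 : (p : ℤ) ∣ P.derivative.eval (n : ℤ) - P.derivative.eval (a : ℤ) := by
      have h3 : (n : ℤ) - a ∣ P.derivative.eval (n : ℤ) - P.derivative.eval (a : ℤ) := Polynomial.sub_dvd_eval_sub _ _ _
      have h4 : (e : ℤ) ∣ (n : ℤ) - a := by
        have := Nat.modEq_iff_dvd.1 (show a ≡ n [MOD e] by rw [Nat.ModEq, hn.2, Nat.mod_eq_of_lt ha])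
        exact this
      exact ((Int.natCast_dvd_natCast.2 hpe).trans h4).trans h3
    obtain ⟨v, hv⟩ := h2
    obtain ⟨k, hk⟩ := hrL
    have hLpR : (L : ℝ) / r = (s1 : ℝ) / p := by
      rw [div_eq_div_iff hr0.ne' hp0.ne']
      exact_mod_cast (by rw [hLp]; ring : L * p = s1 * r)
    have hkR : (L : ℝ) * L = r * k := by exact_mod_cast hk
    have h5 : (b : ℝ) / r * (((P.eval ((n + L * μ : ℕ) : ℤ) : ℤ) : ℝ) - ((P.eval (n : ℤ) : ℤ) : ℝ)) =
        (μ : ℝ) * ((w : ℝ) / p) + (((b * s1 * v * μ + b * k * Q * μ ^ 2 : ℤ)) : ℝ) := by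
      rw [h1]
      have h6 : ((P.derivative.eval (n : ℤ) : ℤ) : ℝ) = ((P.derivative.eval (a : ℤ) : ℤ) : ℝ) + p * v := by
        have : P.derivative.eval (n : ℤ) = P.derivative.eval (a : ℤ) + p * v := by linarith
        rw [this]; push_cast; rfl
      rw [hw]
      push_cast
      rw [h6]
      have e1 : (b : ℝ) / r * (((P.eval (n : ℤ) : ℤ) : ℝ) + (((P.derivative.eval (a : ℤ) : ℤ) : ℝ) + p * v) * (L * μ) +
          Q * (L * μ) ^ 2 - ((P.eval (n : ℤ) : ℤ) : ℝ)) =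
          (b : ℝ) * ((L : ℝ) / r) * (((P.derivative.eval (a : ℤ) : ℤ) : ℝ) + p * v) * μ +
            (b : ℝ) * Q * μ ^ 2 * ((L : ℝ) * L / r) := by field_simp; ring
      rw [e1, hLpR, hkR]
      field_simp
      ring
    have h7 : α * ((P.eval ((n + L * μ : ℕ) : ℤ) : ℤ) : ℝ) = α * ((P.eval (n : ℤ) : ℤ) : ℝ) +
        (μ : ℝ) * ((w : ℝ) / p) + (((b * s1 * v * μ + b * k * Q * μ ^ 2 : ℤ)) : ℝ) +
        β * (((P.eval ((n + L * μ : ℕ) : ℤ) : ℤ) : ℝ) - ((P.eval (n : ℤ) : ℤ) : ℝ)) := by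
      rw [hα]
      linarith
    rw [hg]
    simp only
    rw [h7, ee_add, ee_add, ee_add, ee_int, mul_one]
  -- averaging over the shifts
  have horth : ∑ μ ∈ range p, ee ((μ : ℝ) * ((w : ℝ) / p)) = 0 := by
    rw [orth p hp1 w, if_neg hpw]
  have h1 : ∀ n ∈ cls y e a, ‖∑ μ ∈ range p, g (n + L * μ)‖ ≤ p * (2 * Real.pi * (|β| * V)) := by
    intro n hn
    have h2 : ∑ μ ∈ range p, g (n + L * μ) = ∑ μ ∈ range p, g n * ee ((μ : ℝ) * ((w : ℝ) / p)) *
        (ee (β * (((P.eval ((n + L * μ : ℕ) : ℤ) : ℤ) : ℝ) - ((P.eval (n : ℤ) : ℤ) : ℝ))) - 1) := by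
      have h3 : ∑ μ ∈ range p, g n * ee ((μ : ℝ) * ((w : ℝ) / p)) = 0 := by
        rw [← mul_sum, horth, mul_zero]
      rw [← sub_zero (∑ μ ∈ range p, g (n + L * μ)), ← h3, ← sum_sub_distrib]
      apply sum_congr rfl
      intro μ _
      rw [key n hn μ]
      ring
    rw [h2]
    refine (norm_sum_le _ _).trans ?_
    have h4 : ∀ μ ∈ range p, ‖g n * ee ((μ : ℝ) * ((w : ℝ) / p)) *
        (ee (β * (((P.eval ((n + L * μ : ℕ) : ℤ) : ℤ) : ℝ) - ((P.eval (n : ℤ) : ℤ) : ℝ))) - 1)‖ ≤ 2 * Real.pi * (|β| * V) := by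
      intro μ hμ
      rw [norm_mul, norm_mul, norm_ee ((μ : ℝ) * ((w : ℝ) / p))]
      have h5 := ee_sub_one (β * (((P.eval ((n + L * μ : ℕ) : ℤ) : ℤ) : ℝ) - ((P.eval (n : ℤ) : ℤ) : ℝ)))
      have h6 := hV n (L * μ) (mem_filter.1 hn).1 (hLle μ hμ)
      rw [abs_mul] at h5
      calc ‖g n‖ * 1 * ‖ee (β * (((P.eval ((n + L * μ : ℕ) : ℤ) : ℤ) : ℝ) - ((P.eval (n : ℤ) : ℤ) : ℝ))) - 1‖ ≤
          1 * 1 * (2 * Real.pi * (|β| * V)) := by
            apply mul_le_mul (mul_le_mul_of_nonneg_right (hg1 n) zero_le_one) _ (norm_nonneg _) (by norm_num)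
            refine h5.trans ?_
            have : |β| * |((P.eval ((n + L * μ : ℕ) : ℤ) : ℤ) : ℝ) - ((P.eval (n : ℤ) : ℤ) : ℝ)| ≤ |β| * V :=
              mul_le_mul_of_nonneg_left h6 (abs_nonneg _)
            have hpi := Real.pi_pos
            nlinarith
        _ = _ := by ring
    refine (sum_le_sum h4).trans (le_of_eq ?_)
    rw [sum_const, card_range, nsmul_eq_mul]
  have h2 : (p : ℝ) * ‖∑ n ∈ cls y e a, g n‖ ≤ #(cls y e a) * (p * (2 * Real.pi * (|β| * V))) + p * (2 * r) := by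
    have h3 : (p : ℂ) * ∑ n ∈ cls y e a, g n = ∑ n ∈ cls y e a, ∑ μ ∈ range p, g (n + L * μ) -
        ∑ μ ∈ range p, (∑ n ∈ cls y e a, g (n + e * (ρ * μ)) - ∑ n ∈ cls y e a, g n) := by
      rw [sum_sub_distrib, sum_comm]
      have : ∀ μ ∈ range p, ∑ n ∈ cls y e a, g (n + L * μ) = ∑ n ∈ cls y e a, g (n + e * (ρ * μ)) := by
        intro μ _
        apply sum_congr rfl
        intro n _
        rw [hρ, mul_assoc]
      rw [sum_congr rfl this, sum_const, card_range, nsmul_eq_mul]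
      ring
    have h4 : (p : ℝ) * ‖∑ n ∈ cls y e a, g n‖ = ‖(p : ℂ) * ∑ n ∈ cls y e a, g n‖ := by
      rw [norm_mul, Complex.norm_natCast]
    rw [h4, h3]
    refine (norm_sub_le _ _).trans ?_
    apply add_le_add
    · refine (norm_sum_le _ _).trans ?_
      refine (sum_le_sum h1).trans (le_of_eq ?_)
      rw [sum_const, nsmul_eq_mul]
    · refine (norm_sum_le _ _).trans ?_
      have h5 : ∀ μ ∈ range p, ‖∑ n ∈ cls y e a, g (n + e * (ρ * μ)) - ∑ n ∈ cls y e a, g n‖ ≤ 2 * r := by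
        intro μ hμ
        refine (shift_cls y e a he1 ha g hg1 (ρ * μ)).trans ?_
        have h6 : e * (ρ * μ) ≤ e * r := by
          have := hLle μ hμ
          rw [hρ] at this
          calc e * (ρ * μ) = e * ρ * μ := by ring
            _ ≤ r * e := this
            _ = _ := by ring
        have h7 : ρ * μ ≤ r := Nat.le_of_mul_le_mul_left h6 (by omega)
        have : ((ρ * μ : ℕ) : ℝ) ≤ r := by exact_mod_cast h7
        linarith
      refine (sum_le_sum h5).trans (le_of_eq ?_)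
      rw [sum_const, card_range, nsmul_eq_mul]
  have h3 : (p : ℝ) * ‖∑ n ∈ cls y e a, g n‖ ≤ p * (#(cls y e a) * (2 * Real.pi * (|β| * V)) + 2 * r) := by
    refine h2.trans (le_of_eq ?_); ring
  exact le_of_mul_le_mul_left h3 hp0

/-- the shape of the denominator -/
lemma denom (e g K r D : ℕ) (he : Squarefree e) (hg : g ∣ e) (hr : r ∣ K * e ^ (D + 1))
    (h : ∀ p : ℕ, p.Prime → p ∣ e → ¬ p ∣ g → ¬ p ^ 2 ∣ r) (hr1 : 1 ≤ r) : r ∣ K * e * g ^ D := by
  obtain ⟨e1, he1⟩ := hg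
  have he0 : 0 < e := Nat.pos_of_ne_zero he.ne_zero
  have hg0 : 0 < g := Nat.pos_of_ne_zero (fun h => by rw [h, zero_mul] at he1; omega)
  have he10 : 0 < e1 := Nat.pos_of_ne_zero (fun h => by rw [h, mul_zero] at he1; omega)
  have hcop : Nat.Coprime g e1 := Nat.coprime_of_squarefree_mul (he1 ▸ he)
  -- r'' = r / gcd(r, K g^(D+1)) divides e1^(D+1)
  obtain ⟨G, hG⟩ : ∃ G, G = Nat.gcd r (K * g ^ (D + 1)) := ⟨_, rfl⟩
  have hG0 : 0 < G := by rw [hG]; exact Nat.gcd_pos_of_pos_left _ hr1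
  obtain ⟨r', hr'⟩ : G ∣ r := by rw [hG]; exact Nat.gcd_dvd_left _ _
  obtain ⟨k', hk'⟩ : G ∣ K * g ^ (D + 1) := by rw [hG]; exact Nat.gcd_dvd_right _ _
  have hcop' : Nat.Coprime r' k' := by
    have := Nat.coprime_div_gcd_div_gcd (m := r) (n := K * g ^ (D + 1)) (by rw [← hG]; exact hG0)
    rw [← hG] at this
    rwa [hr', hk', Nat.mul_div_cancel_left _ hG0, Nat.mul_div_cancel_left _ hG0] at this
  have h1 : r' ∣ e1 ^ (D + 1) := by
    have h2 : G * r' ∣ G * (k' * e1 ^ (D + 1)) := by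
      have : G * (k' * e1 ^ (D + 1)) = K * e ^ (D + 1) := by
        rw [he1, mul_pow]
        calc G * (k' * e1 ^ (D + 1)) = (G * k') * e1 ^ (D + 1) := by ring
          _ = _ := by rw [← hk']; ring
      rw [this, ← hr']
      exact hr
    have h3 : r' ∣ k' * e1 ^ (D + 1) := Nat.dvd_of_mul_dvd_mul_left hG0 h2
    exact hcop'.dvd_of_dvd_mul_left h3
  have hsq : Squarefree r' := by
    rw [Nat.squarefree_iff_prime_squarefree]
    intro p hp hpp
    have h2 : p ∣ e1 := hp.dvd_of_dvd_pow ((dvd_mul_right p p).trans (hpp.trans h1))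
    refine h p hp (he1 ▸ h2.mul_left g) (fun h3 => ?_) ?_
    · exact Nat.not_coprime_of_dvd_of_dvd hp.one_lt h3 h2 hcop
    · rw [sq, hr']
      exact hpp.mul_left G
  have h2 : r' ∣ e1 := (hsq.dvd_pow_iff_dvd (by omega)).1 h1
  rw [hr']
  calc G * r' ∣ (K * g ^ (D + 1)) * e1 := Nat.mul_dvd_mul ⟨k', hk'⟩ h2
    _ = K * e * g ^ D := by rw [he1]; ring

end Pool.Agent.H544.BC
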