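import Mathlib
import Pool.Agent.H544.BC.Diff

/-!
The frequencies with a large Weyl sum along a residue class.
-/

set_option autoImplicit false

namespace Pool.Agent.H544.BC
open Finset Polynomial
open Pool.Agent.H807R2.Dav
open Pool.Agent.H373R2.T7 (orth cf)
open Pool.Agent.H544.LD (cls cls_sum Sm card_cls class_inv)

/-- Lipschitz bound for the values of a polynomial -/
lemma poly_lip (P : ℤ[X]) (x n s : ℕ) (hn : n + s ≤ 2 * x) (hx : 1 ≤ x) :
    |(((P.eval ((n + s : ℕ) : ℤ) : ℤ) : ℝ)) - ((P.eval (n : ℤ) : ℤ) : ℝ)| ≤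
      s * (P.natDegree * cf P * (2 * x : ℝ) ^ (P.natDegree - 1)) := by
  have hx1 : (1 : ℝ) ≤ 2 * x := by
    have : (1 : ℝ) ≤ x := by exact_mod_cast hx
    linarith
  have h1 : (((P.eval ((n + s : ℕ) : ℤ) : ℤ) : ℝ)) - ((P.eval (n : ℤ) : ℤ) : ℝ) =
      ∑ i ∈ range (P.natDegree + 1), (P.coeff i : ℝ) * (((n + s : ℕ) : ℝ) ^ i - (n : ℝ) ^ i) := by
    rw [eval_eq_sum_range, eval_eq_sum_range]
    push_cast
    rw [← sum_sub_distrib]
    apply sum_congr rfl
    intro i _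
    ring
  rw [h1]
  refine (abs_sum_le_sum_abs _ _).trans ?_
  have h2 : ∀ i ∈ range (P.natDegree + 1), |(P.coeff i : ℝ) * (((n + s : ℕ) : ℝ) ^ i - (n : ℝ) ^ i)| ≤
      ((P.coeff i).natAbs : ℝ) * (s * (P.natDegree * (2 * x : ℝ) ^ (P.natDegree - 1))) := by
    intro i hi
    rw [mem_range] at hi
    rw [abs_mul]
    have h3 : |(P.coeff i : ℝ)| = ((P.coeff i).natAbs : ℝ) := by
      rw [Nat.cast_natAbs]; push_cast; rfl
    rw [h3]
    apply mul_le_mul_of_nonneg_left _ (Nat.cast_nonneg _)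
    have h4 := abs_pow_sub_pow_le ((n + s : ℕ) : ℝ) (n : ℝ) i
    have h5 : |((n + s : ℕ) : ℝ) - (n : ℝ)| = s := by
      push_cast
      rw [add_sub_cancel_left, abs_of_nonneg (Nat.cast_nonneg _)]
    have h6 : max |((n + s : ℕ) : ℝ)| |(n : ℝ)| ≤ 2 * x := by
      rw [abs_of_nonneg (Nat.cast_nonneg _), abs_of_nonneg (Nat.cast_nonneg _)]
      apply max_le
      · exact_mod_cast hn
      · exact_mod_cast (by omega : n ≤ 2 * x)
    rw [h5] at h4
    refine h4.trans ?_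
    rw [mul_assoc]
    apply mul_le_mul_of_nonneg_left _ (Nat.cast_nonneg _)
    have h7 : (i : ℝ) ≤ P.natDegree := by exact_mod_cast (by omega : i ≤ P.natDegree)
    have h8 : max |((n + s : ℕ) : ℝ)| |(n : ℝ)| ^ (i - 1) ≤ (2 * x : ℝ) ^ (P.natDegree - 1) :=
      (pow_le_pow_left₀ (le_max_of_le_left (abs_nonneg _)) h6 _).trans (pow_le_pow_right₀ hx1 (by omega))
    exact mul_le_mul h7 h8 (pow_nonneg (le_max_of_le_left (abs_nonneg _)) _) (Nat.cast_nonneg _)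
  refine (sum_le_sum h2).trans (le_of_eq ?_)
  rw [← sum_mul]
  unfold cf
  push_cast
  ring

/-- **The frequencies with a large Weyl sum along a residue class.** -/
theorem freq (P : ℤ[X]) (hd : 1 ≤ P.natDegree) (hl : 0 < P.leadingCoeff) : ∃ c m : ℕ, 1 ≤ c ∧ ∀ (x M y e a : ℕ) (u t : ℝ),
    Squarefree e → y ≤ x → a < e → 1 ≤ u → (c : ℝ) * (2 * u) ^ m * (e : ℝ) ^ (P.natDegree + 1) < x →
    (x : ℝ) ≤ e * u * ‖Sm (fun n => P.eval (n : ℤ)) M y e a t‖ →
    ∃ q : ℕ, 1 ≤ q ∧ (q : ℝ) ≤ c * (2 * u) ^ m * (Nat.gcd (P.derivative.eval (a : ℤ)).natAbs e : ℝ) ^ (P.natDegree - 1) ∧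
      ∃ b : ℤ, |t / M - b / ((q * e : ℕ) : ℝ)| ≤ c * (2 * u) ^ m / (x : ℝ) ^ P.natDegree := by
  obtain ⟨c1, m1, hc1, hI⟩ := class_inv P hd
  set d := P.natDegree with hdd
  obtain ⟨ℓ, hℓ⟩ : ∃ ℓ : ℕ, ℓ = P.leadingCoeff.natAbs := ⟨_, rfl⟩
  have hℓ1 : 1 ≤ ℓ := by rw [hℓ]; omega
  have hℓR : (P.leadingCoeff : ℝ) = ℓ := by
    rw [hℓ, Nat.cast_natAbs, abs_of_pos hl]
  obtain ⟨C0, hC0⟩ : ∃ C0 : ℕ, C0 = c1 * d.factorial * ℓ := ⟨_, rfl⟩
  obtain ⟨C1, hC1⟩ : ∃ C1 : ℕ, C1 = C0 * (16 * c1 * (d * cf P) * 2 ^ (d - 1) + 2) + C0 + 1 := ⟨_, rfl⟩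
  refine ⟨C1, 2 * m1 + d + 1, by omega, ?_⟩
  intro x M y e a u t he hy ha hu hsize hS
  have he1 : 1 ≤ e := Nat.one_le_iff_ne_zero.2 he.ne_zero
  have hfac : 1 ≤ d.factorial := Nat.factorial_pos d
  have hC01 : 1 ≤ C0 := by rw [hC0]; exact Nat.mul_pos (Nat.mul_pos hc1 hfac) hℓ1
  have h2u : (1 : ℝ) ≤ 2 * u := by linarith
  have h2u0 : (0 : ℝ) < 2 * u := by linarith
  have he0 : (0 : ℝ) < e := by exact_mod_cast he1
  have he1R : (1 : ℝ) ≤ e := by exact_mod_cast he1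
  have hC1R : (1 : ℝ) ≤ C1 := by exact_mod_cast (by omega : 1 ≤ C1)
  have hpow1 : (1 : ℝ) ≤ (2 * u) ^ (2 * m1 + d + 1) := one_le_pow₀ h2u
  -- e ≤ x
  have hexR : (e : ℝ) < x := by
    refine lt_of_le_of_lt ?_ hsize
    calc (e : ℝ) = 1 * 1 * (e : ℝ) ^ 1 := by ring
      _ ≤ C1 * (2 * u) ^ (2 * m1 + d + 1) * (e : ℝ) ^ (d + 1) := by
        apply mul_le_mul (mul_le_mul hC1R hpow1 zero_le_one (by linarith)) (pow_le_pow_right₀ he1R (by omega))
          (by positivity) (by positivity)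
  have hex : e ≤ x := by exact_mod_cast hexR.le
  have hx1 : 1 ≤ x := by omega
  have hx0 : (0 : ℝ) < x := by exact_mod_cast hx1
  obtain ⟨r0, hr01, hr02, b0, hb0⟩ := hI x M e y e a u t he1 hex hy le_rfl ha hu hS
  have hr00 : (0 : ℝ) < r0 := by exact_mod_cast hr01
  -- K
  obtain ⟨K, hK⟩ : ∃ K : ℕ, K = r0 * d.factorial * ℓ := ⟨_, rfl⟩
  have hK1 : 1 ≤ K := by rw [hK]; exact Nat.mul_pos (Nat.mul_pos hr01 hfac) hℓ1
  have hK1R : (1 : ℝ) ≤ K := by exact_mod_cast hK1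
  have hK0 : (0 : ℝ) < K := by linarith
  have hKle : (K : ℝ) ≤ C0 * (2 * u) ^ m1 := by
    rw [hK, hC0]
    push_cast
    calc (r0 : ℝ) * (d.factorial : ℝ) * ℓ ≤ (c1 * (2 * u) ^ m1) * (d.factorial : ℝ) * ℓ := by
          apply mul_le_mul_of_nonneg_right (mul_le_mul_of_nonneg_right hr02 (Nat.cast_nonneg _)) (Nat.cast_nonneg _)
      _ = _ := by ring
  have hKe : 1 ≤ K * e ^ d := Nat.mul_pos hK1 (Nat.pow_pos he1)
  -- reduction of b0 / (K e^d)
  obtain ⟨G, hG⟩ : ∃ G : ℕ, G = Int.gcd b0 ((K * e ^ d : ℕ) : ℤ) := ⟨_, rfl⟩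
  have hG0 : 0 < G := by
    rw [hG]
    apply Nat.pos_of_ne_zero
    intro h
    have := (Int.gcd_eq_zero_iff.1 h).2
    have : K * e ^ d = 0 := by exact_mod_cast this
    omega
  obtain ⟨b, hb⟩ : (G : ℤ) ∣ b0 := by rw [hG]; exact Int.gcd_dvd_left _ _
  obtain ⟨r, hr⟩ : G ∣ K * e ^ d := by
    have : (G : ℤ) ∣ ((K * e ^ d : ℕ) : ℤ) := by rw [hG]; exact Int.gcd_dvd_right _ _
    exact_mod_cast this
  have hr1 : 1 ≤ r := by
    apply Nat.one_le_iff_ne_zero.2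
    intro h
    rw [h, mul_zero] at hr
    omega
  have hr0R : (0 : ℝ) < r := by exact_mod_cast hr1
  have hrle : (r : ℝ) ≤ K * (e : ℝ) ^ d := by
    have : r ≤ K * e ^ d := by
      rw [hr]
      exact Nat.le_mul_of_pos_left r hG0
    exact_mod_cast this
  have hbr : ∀ p : ℕ, p.Prime → p ∣ r → ¬ (p : ℤ) ∣ b := by
    intro p hp hpr hpb
    have h1 : ((G * p : ℕ) : ℤ) ∣ b0 := by
      rw [hb]; push_cast
      exact mul_dvd_mul_left _ hpb
    have h2 : ((G * p : ℕ) : ℤ) ∣ ((K * e ^ d : ℕ) : ℤ) := by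
      rw [hr]
      exact_mod_cast Nat.mul_dvd_mul_left G hpr
    have h3 : G * p ∣ G := by
      have := Int.dvd_gcd h1 h2
      rw [← hG] at this
      exact this
    have h4 := Nat.le_of_dvd hG0 h3
    have := hp.two_le
    nlinarith
  have hG0R : (0 : ℝ) < G := by exact_mod_cast hG0
  have hfr : (b0 : ℝ) / ((K : ℝ) * (e : ℝ) ^ d) = (b : ℝ) / r := by
    have h1 : (K : ℝ) * (e : ℝ) ^ d = G * r := by exact_mod_cast hr
    have h2 : (b0 : ℝ) = G * b := by exact_mod_cast hb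
    rw [h1, h2, mul_div_mul_left _ _ hG0R.ne']
  obtain ⟨β, hβ⟩ : ∃ β : ℝ, β = t / M - b / r := ⟨_, rfl⟩
  have hβle : |β| ≤ c1 * (2 * u) ^ (m1 + d) / (x : ℝ) ^ d := by
    rw [hβ, ← hfr]
    have h1 : t / M - b0 / ((K : ℝ) * (e : ℝ) ^ d) =
        (r0 * (t / M * ((d.factorial : ℝ) * (P.leadingCoeff : ℝ))) * (e : ℝ) ^ d - b0) / ((K : ℝ) * (e : ℝ) ^ d) := by
      have h2 : (K : ℝ) = r0 * d.factorial * ℓ := by rw [hK]; push_cast; rfl
      rw [hℓR, h2]
      field_simp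
    rw [h1, abs_div, abs_of_pos (by positivity : (0 : ℝ) < K * (e : ℝ) ^ d)]
    calc _ ≤ (c1 * (2 * u) ^ m1 * (e * u / x) ^ d) / ((K : ℝ) * (e : ℝ) ^ d) :=
          div_le_div_of_nonneg_right hb0 (by positivity)
      _ = c1 * (2 * u) ^ m1 * u ^ d / (x : ℝ) ^ d / K := by
          rw [div_pow, mul_pow (e : ℝ) u d]; field_simp
      _ ≤ c1 * (2 * u) ^ m1 * u ^ d / (x : ℝ) ^ d := div_le_self (by positivity) hK1R
      _ ≤ c1 * (2 * u) ^ (m1 + d) / (x : ℝ) ^ d := by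
          apply div_le_div_of_nonneg_right _ (by positivity)
          rw [pow_add, ← mul_assoc]
          apply mul_le_mul_of_nonneg_left _ (by positivity)
          exact pow_le_pow_left₀ (by linarith) (by linarith) d
  -- the size of r e
  have hre : (r : ℝ) * e ≤ x := by
    have h1 : (r : ℝ) * e ≤ C0 * (2 * u) ^ m1 * (e : ℝ) ^ (d + 1) := by
      calc (r : ℝ) * e ≤ (K * (e : ℝ) ^ d) * e := mul_le_mul_of_nonneg_right hrle he0.le
        _ ≤ (C0 * (2 * u) ^ m1 * (e : ℝ) ^ d) * e := by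
          apply mul_le_mul_of_nonneg_right _ he0.le
          exact mul_le_mul_of_nonneg_right hKle (by positivity)
        _ = _ := by rw [pow_succ]; ring
    refine h1.trans (le_trans ?_ hsize.le)
    apply mul_le_mul_of_nonneg_right _ (by positivity)
    apply mul_le_mul _ (pow_le_pow_right₀ h2u (by omega)) (by positivity) (by positivity)
    have : C0 ≤ C1 := by rw [hC1]; exact Nat.le_succ_of_le (Nat.le_add_left _ _)
    exact_mod_cast this
  have hreN : r * e ≤ x := by exact_mod_cast hre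
  -- no square of a prime p | e, p ∤ P'(a)
  have hno : ∀ p : ℕ, p.Prime → p ∣ e → ¬ p ∣ Nat.gcd (P.derivative.eval (a : ℤ)).natAbs e → ¬ p ^ 2 ∣ r := by
    intro p hp hpe hpg hpr
    have hpd : ¬ (p : ℤ) ∣ P.derivative.eval (a : ℤ) := by
      intro h
      apply hpg
      exact Nat.dvd_gcd (Int.natCast_dvd.1 h) hpe
    obtain ⟨V, hV⟩ : ∃ V : ℝ, V = (r * e : ℝ) * (d * cf P * (2 * x : ℝ) ^ (d - 1)) := ⟨_, rfl⟩
    have hV0 : 0 ≤ V := by rw [hV]; positivity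
    have hds := diff_small P y e a p r he ha hp hpe hpd hpr hr1 b (hbr p hp ((dvd_pow_self p (by norm_num)).trans hpr)) β V (by
      intro n s hn hs
      rw [mem_Icc] at hn
      refine (poly_lip P x n s (by omega) hx1).trans ?_
      rw [hV]
      apply mul_le_mul_of_nonneg_right _ (by positivity)
      exact_mod_cast hs)
    have hSm : Sm (fun n => P.eval (n : ℤ)) M y e a t = ∑ n ∈ cls y e a, ee (((b : ℝ) / r + β) * ((P.eval (n : ℤ) : ℤ) : ℝ)) := by
      unfold Sm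
      apply sum_congr rfl
      intro n _
      congr 1
      rw [hβ]
      ring
    rw [← hSm] at hds
    have hcard := card_cls x y e a e he1 hex hy le_rfl ha
    have hpi : Real.pi ≤ 4 := Real.pi_le_four
    have hpi0 := Real.pi_pos
    have hβV : |β| * V ≤ c1 * (2 * u) ^ (m1 + d) * (r * e) * (d * cf P) * 2 ^ (d - 1) / x := by
      rw [hV]
      calc |β| * ((r * e : ℝ) * (d * cf P * (2 * x : ℝ) ^ (d - 1))) ≤
          (c1 * (2 * u) ^ (m1 + d) / (x : ℝ) ^ d) * ((r * e : ℝ) * (d * cf P * (2 * x : ℝ) ^ (d - 1))) :=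
            mul_le_mul_of_nonneg_right hβle (by positivity)
        _ = _ := by
          rw [mul_pow (2 : ℝ) (x : ℝ)]
          obtain ⟨d', hd'⟩ : ∃ d', d = d' + 1 := ⟨d - 1, by omega⟩
          rw [hd', Nat.add_sub_cancel]
          field_simp
          ring
    have hW : ‖Sm (fun n => P.eval (n : ℤ)) M y e a t‖ ≤ (16 * c1 * (d * cf P) * 2 ^ (d - 1) + 2) * (2 * u) ^ (m1 + d) * r := by
      refine hds.trans ?_
      have h1 : (#(cls y e a) : ℝ) * (2 * Real.pi * (|β| * V)) ≤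
          (2 * x / e) * (2 * 4 * (c1 * (2 * u) ^ (m1 + d) * (r * e) * (d * cf P) * 2 ^ (d - 1) / x)) := by
        apply mul_le_mul hcard _ (by positivity) (by positivity)
        apply mul_le_mul (by linarith) hβV (by positivity) (by norm_num)
      have h2 : (2 * (x : ℝ) / e) * (2 * 4 * (c1 * (2 * u) ^ (m1 + d) * (r * e) * (d * cf P) * 2 ^ (d - 1) / x)) =
          16 * c1 * (d * cf P) * 2 ^ (d - 1) * (2 * u) ^ (m1 + d) * r := by
        field_simp; ring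
      have h3 : (2 : ℝ) * r ≤ 2 * (2 * u) ^ (m1 + d) * r := by
        have : (1 : ℝ) ≤ (2 * u) ^ (m1 + d) := one_le_pow₀ h2u
        nlinarith
      rw [h2] at h1
      calc _ ≤ 16 * c1 * (d * cf P) * 2 ^ (d - 1) * (2 * u) ^ (m1 + d) * r + 2 * (2 * u) ^ (m1 + d) * r := add_le_add h1 h3
        _ = _ := by ring
    have hfin : (x : ℝ) ≤ C1 * (2 * u) ^ (2 * m1 + d + 1) * (e : ℝ) ^ (d + 1) := by
      refine hS.trans ?_
      obtain ⟨Z, hZ⟩ : ∃ Z : ℝ, Z = 16 * c1 * (d * cf P) * 2 ^ (d - 1) + 2 := ⟨_, rfl⟩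
      have hZ0 : 0 ≤ Z := by rw [hZ]; positivity
      rw [← hZ] at hW
      have hCZ : (C0 : ℝ) * Z ≤ C1 := by
        rw [hZ, hC1]
        push_cast
        nlinarith [Nat.cast_nonneg (α := ℝ) C0]
      calc (e : ℝ) * u * ‖Sm (fun n => P.eval (n : ℤ)) M y e a t‖ ≤ e * (2 * u) * (Z * (2 * u) ^ (m1 + d) * r) := by
            apply mul_le_mul _ hW (norm_nonneg _) (by positivity)
            nlinarith
        _ ≤ e * (2 * u) * (Z * (2 * u) ^ (m1 + d) * (C0 * (2 * u) ^ m1 * (e : ℝ) ^ d)) := by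
            apply mul_le_mul_of_nonneg_left _ (by positivity)
            apply mul_le_mul_of_nonneg_left _ (by positivity)
            exact hrle.trans (mul_le_mul_of_nonneg_right hKle (by positivity))
        _ = (C0 * Z) * ((2 * u) ^ (2 * m1 + d + 1) * (e : ℝ) ^ (d + 1)) := by
            rw [show 2 * m1 + d + 1 = (m1 + d) + m1 + 1 by ring, pow_add (2 * u) (m1 + d + m1) 1, pow_add (2 * u) (m1 + d) m1, pow_succ (e : ℝ) d]
            ring
        _ ≤ C1 * ((2 * u) ^ (2 * m1 + d + 1) * (e : ℝ) ^ (d + 1)) := mul_le_mul_of_nonneg_right hCZ (by positivity)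
        _ = _ := by ring
    linarith
  -- the denominator
  obtain ⟨g, hg⟩ : ∃ g : ℕ, g = Nat.gcd (P.derivative.eval (a : ℤ)).natAbs e := ⟨_, rfl⟩
  rw [← hg] at hno ⊢
  have hge : g ∣ e := by rw [hg]; exact Nat.gcd_dvd_right _ _
  have hg1 : 1 ≤ g := Nat.pos_of_dvd_of_pos hge he1
  have hrdvd : r ∣ K * e * g ^ (d - 1) := by
    apply denom e g K r (d - 1) he hge _ hno hr1
    rw [Nat.sub_add_cancel hd, hr]
    exact Dvd.intro_left _ rfl
  obtain ⟨w, hw⟩ := hrdvd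
  refine ⟨K * g ^ (d - 1), Nat.mul_pos hK1 (Nat.pow_pos hg1), ?_, b * w, ?_⟩
  · push_cast
    apply mul_le_mul_of_nonneg_right _ (by positivity)
    refine hKle.trans ?_
    apply mul_le_mul _ (pow_le_pow_right₀ h2u (by omega)) (by positivity) (by positivity)
    have : C0 ≤ C1 := by rw [hC1]; exact Nat.le_succ_of_le (Nat.le_add_left _ _)
    exact_mod_cast this
  · have h1 : (((b * w : ℤ)) : ℝ) / ((K * g ^ (d - 1) * e : ℕ) : ℝ) = (b : ℝ) / r := by
      have h2 : ((K * g ^ (d - 1) * e : ℕ) : ℝ) = r * w := by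
        have : K * g ^ (d - 1) * e = r * w := by rw [← hw]; ring
        exact_mod_cast this
      rw [h2]
      push_cast
      have hw0 : (w : ℝ) ≠ 0 := by
        intro h
        have h3 : w = 0 := by exact_mod_cast h
        rw [h3, mul_zero] at hw
        have : 0 < K * e * g ^ (d - 1) := Nat.mul_pos (Nat.mul_pos hK1 he1) (Nat.pow_pos hg1)
        omega
      rw [mul_div_mul_right _ _ hw0]
    rw [h1, ← hβ]
    refine hβle.trans ?_
    apply div_le_div_of_nonneg_right _ (by positivity)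
    apply mul_le_mul _ (pow_le_pow_right₀ h2u (by omega)) (by positivity) (by positivity)
    have : c1 ≤ C1 := by
      rw [hC1, hC0]
      have : c1 * 1 * 1 ≤ c1 * d.factorial * ℓ := Nat.mul_le_mul (Nat.mul_le_mul_left _ hfac) hℓ1
      rw [mul_one, mul_one] at this
      exact this.trans (Nat.le_succ_of_le (Nat.le_add_left _ _))
    exact_mod_cast this

end Pool.Agent.H544.BC
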