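import Mathlib
import Pool.Agent.H544.BC.Freq

/-!
Parseval in a residue class, and a pointwise bound near a rational number.
-/

set_option autoImplicit false

namespace Pool.Agent.H544.BC
open Finset Polynomial
open Pool.Agent.H807R2.Dav
open Pool.Agent.H373R2.T7 (orth cf sq_expand conj_ee fz)
open Pool.Agent.H544.LD (cls cls_sum Sm card_cls)

/-- Parseval -/
lemma pars (M : ℕ) (hM : 1 ≤ M) (I : Finset ℕ) (φ : ℕ → ℤ) (C : ℕ → ℂ)
    (hφ : ∀ i ∈ I, ∀ j ∈ I, (M : ℤ) ∣ φ i - φ j → i = j) :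
    ∑ t ∈ range M, ‖∑ i ∈ I, C i * ee ((t : ℝ) * ((φ i : ℝ) / M))‖ ^ 2 = M * ∑ i ∈ I, ‖C i‖ ^ 2 := by
  have h1 := sq_expand I C φ M hM
  have h2 : ∑ i ∈ I, ∑ j ∈ I, C i * (starRingEnd ℂ) (C j) * (if (M : ℤ) ∣ φ i - φ j then (M : ℂ) else 0) =
      ∑ i ∈ I, (M : ℂ) * ((‖C i‖ ^ 2 : ℝ) : ℂ) := by
    apply sum_congr rfl
    intro i hi
    rw [sum_eq_single i]
    · rw [sub_self, if_pos (dvd_zero _), Complex.mul_conj']
      push_cast
      ring
    · intro j hj hne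
      rw [if_neg, mul_zero]
      intro h
      exact hne (hφ i hi j hj h).symm
    · intro h; exact absurd hi h
  rw [h2, ← mul_sum] at h1
  have h3 : (((∑ t ∈ range M, ‖∑ i ∈ I, C i * ee ((t : ℝ) * ((φ i : ℝ) / M))‖ ^ 2 : ℝ)) : ℂ) = ((M * ∑ i ∈ I, ‖C i‖ ^ 2 : ℝ) : ℂ) := by
    rw [h1]; push_cast; rfl
  exact_mod_cast h3

/-- the exponential sum of `f` over a class -/
noncomputable def Th (f : ℕ → ℂ) (H M e l : ℕ) (t : ℝ) : ℂ := ∑ m ∈ cls H e l, f m * ee (t * ((m : ℝ) / M))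

/-- the sum over a class of arguments -/
noncomputable def Tc (f : ℕ → ℂ) (H : ℕ) (F : ℕ → ℤ) (y e a c : ℕ) : ℂ := ∑ n ∈ cls y e a, fz f H (c + F n)

lemma mem_cls {y e a n : ℕ} : n ∈ cls y e a ↔ (1 ≤ n ∧ n ≤ y) ∧ n % e = a := by
  unfold cls; rw [mem_filter, mem_Icc]

lemma pars_Th (f : ℕ → ℂ) (H M e l : ℕ) (hM : 1 ≤ M) (hHM : H < M) :
    ∑ t ∈ range M, ‖Th f H M e l t‖ ^ 2 = M * ∑ m ∈ cls H e l, ‖f m‖ ^ 2 := by
  unfold Th
  have h := pars M hM (cls H e l) (fun m => (m : ℤ)) f (by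
    intro i hi j hj h
    rw [mem_cls] at hi hj
    have h1 : |(i : ℤ) - j| < M := by rw [abs_lt]; constructor <;> omega
    have := Int.eq_zero_of_abs_lt_dvd h h1
    omega)
  simpa using h

/-- Parseval in a residue class -/
theorem pars_cls (f : ℕ → ℂ) (H M A y e a κ l : ℕ) (F : ℕ → ℤ) (he : 1 ≤ e) (hM1 : 1 ≤ M) (hAM : A < M)
    (hM : ∀ c ∈ Icc 1 A, ∀ n ∈ Icc 1 y, ∀ m ∈ Icc 1 H, |(c : ℤ) + F n - m| < M) (hl : l < e)
    (hF : ∀ n : ℕ, n % e = a → ∀ c : ℕ, c % e = κ → (e : ℤ) ∣ c + F n - l) :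
    ∑ c ∈ (Icc 1 A).filter (fun c => c % e = κ), ‖Tc f H F y e a c‖ ^ 2 ≤
      (1 / M) * ∑ t ∈ range M, ‖Th f H M e l t‖ ^ 2 * ‖Sm F M y e a t‖ ^ 2 := by
  have hM0 : (0 : ℝ) < M := by exact_mod_cast hM1
  set G : ℕ → ℂ := fun t => Th f H M e l t * (starRingEnd ℂ) (Sm F M y e a t) with hG
  -- the identity
  have hid : ∀ c ∈ (Icc 1 A).filter (fun c => c % e = κ), (M : ℂ) * Tc f H F y e a c =
      ∑ t ∈ range M, G t * ee ((c : ℝ) * (((-(t : ℤ) : ℤ) : ℝ) / M)) := by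
    intro c hc
    rw [mem_filter] at hc
    have h1 : ∀ t ∈ range M, G t * ee ((c : ℝ) * (((-(t : ℤ) : ℤ) : ℝ) / M)) = ∑ n ∈ cls y e a, ∑ m ∈ cls H e l,
        f m * ee ((t : ℝ) * ((((m : ℤ) - F n - c : ℤ) : ℝ) / M)) := by
      intro t _
      simp only [hG]
      unfold Th Sm
      rw [map_sum, sum_mul_sum, sum_comm, sum_mul]
      apply sum_congr rfl
      intro n _
      rw [sum_mul]
      apply sum_congr rfl
      intro m _
      rw [conj_ee]
      have h2 : ee ((t : ℝ) * ((((m : ℤ) - F n - c : ℤ) : ℝ) / M)) =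
          ee ((t : ℝ) * ((m : ℝ) / M)) * ee (-((t : ℝ) * ((F n : ℝ) / M))) * ee ((c : ℝ) * (((-(t : ℤ) : ℤ) : ℝ) / M)) := by
        rw [← ee_add, ← ee_add]
        congr 1
        push_cast
        ring
      rw [h2]
      ring
    rw [sum_congr rfl h1, sum_comm]
    unfold Tc
    rw [mul_sum]
    apply sum_congr rfl
    intro n hn
    rw [sum_comm]
    have h2 : ∀ m ∈ cls H e l, ∑ t ∈ range M, f m * ee ((t : ℝ) * ((((m : ℤ) - F n - c : ℤ) : ℝ) / M)) =
        if (m : ℤ) = c + F n then (M : ℂ) * f m else 0 := by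
      intro m hm
      rw [← mul_sum, orth M hM1]
      by_cases h3 : (m : ℤ) = c + F n
      · rw [if_pos h3, if_pos (by rw [h3]; ring_nf; exact dvd_zero _)]
        ring
      · rw [if_neg h3, if_neg, mul_zero]
        intro hd
        apply h3
        rw [mem_cls] at hn hm
        have h4 := hM c hc.1 n (mem_Icc.2 hn.1) m (mem_Icc.2 hm.1)
        have h5 : (M : ℤ) ∣ (c : ℤ) + F n - m := by
          have := (dvd_neg (α := ℤ)).2 hd
          have e1 : -((m : ℤ) - F n - c) = (c : ℤ) + F n - m := by ring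
          rwa [e1] at this
        have := Int.eq_zero_of_abs_lt_dvd h5 h4
        omega
    rw [sum_congr rfl h2]
    unfold fz
    by_cases h3 : 1 ≤ (c : ℤ) + F n ∧ (c : ℤ) + F n ≤ H
    · rw [if_pos h3, sum_eq_single ((c : ℤ) + F n).toNat]
      · rw [if_pos (by rw [Int.toNat_of_nonneg (by omega)])]
      · intro m _ hne
        rw [if_neg]
        intro h4
        apply hne
        omega
      · intro h4
        exfalso
        apply h4
        rw [mem_cls]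
        refine ⟨by omega, ?_⟩
        rw [mem_cls] at hn
        have h5 := hF n hn.2 c hc.2
        have h6 : ((((c : ℤ) + F n).toNat : ℕ) : ℤ) = c + F n := Int.toNat_of_nonneg (by omega)
        have h7 : ((((c : ℤ) + F n).toNat % e : ℕ) : ℤ) = l := by
          rw [Int.natCast_mod, h6]
          have h9 : ((c : ℤ) + F n) % e = (l : ℤ) % e := Int.emod_eq_emod_iff_emod_sub_eq_zero.2 (Int.emod_eq_zero_of_dvd h5)
          rw [h9, Int.emod_eq_of_lt (by omega) (by omega)]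
        exact_mod_cast h7
    · rw [if_neg h3, mul_zero]
      symm
      apply sum_eq_zero
      intro m hm
      rw [mem_cls] at hm
      rw [if_neg]
      omega
  -- Bessel
  have hb : ∑ c ∈ range M, ‖∑ t ∈ range M, G t * ee ((c : ℝ) * (((-(t : ℤ) : ℤ) : ℝ) / M))‖ ^ 2 = M * ∑ t ∈ range M, ‖G t‖ ^ 2 := by
    apply pars M hM1 (range M) (fun t => -(t : ℤ)) G
    intro i hi j hj h
    rw [mem_range] at hi hj
    have h1 : |(-(i : ℤ)) - -(j : ℤ)| < M := by rw [abs_lt]; constructor <;> omega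
    have := Int.eq_zero_of_abs_lt_dvd h h1
    omega
  have h1 : (M : ℝ) ^ 2 * ∑ c ∈ (Icc 1 A).filter (fun c => c % e = κ), ‖Tc f H F y e a c‖ ^ 2 ≤ M * ∑ t ∈ range M, ‖G t‖ ^ 2 := by
    rw [← hb, mul_sum]
    have h2 : ∀ c ∈ (Icc 1 A).filter (fun c => c % e = κ), (M : ℝ) ^ 2 * ‖Tc f H F y e a c‖ ^ 2 =
        ‖∑ t ∈ range M, G t * ee ((c : ℝ) * (((-(t : ℤ) : ℤ) : ℝ) / M))‖ ^ 2 := by
      intro c hc
      rw [← hid c hc, norm_mul, Complex.norm_natCast, mul_pow]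
    rw [sum_congr rfl h2]
    apply sum_le_sum_of_subset_of_nonneg
    · intro c hc
      rw [mem_filter, mem_Icc] at hc
      rw [mem_range]
      omega
    · intro _ _ _; positivity
  have h2 : ∑ t ∈ range M, ‖G t‖ ^ 2 = ∑ t ∈ range M, ‖Th f H M e l t‖ ^ 2 * ‖Sm F M y e a t‖ ^ 2 := by
    apply sum_congr rfl
    intro t _
    rw [hG]
    simp only
    rw [norm_mul, RCLike.norm_conj, mul_pow]
  rw [h2] at h1
  rw [one_div, inv_mul_eq_div, le_div_iff₀ hM0]
  have h3 : (M : ℝ) * ((∑ c ∈ (Icc 1 A).filter (fun c => c % e = κ), ‖Tc f H F y e a c‖ ^ 2) * M) ≤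
      M * ∑ t ∈ range M, ‖Th f H M e l t‖ ^ 2 * ‖Sm F M y e a t‖ ^ 2 := by
    refine le_trans (le_of_eq ?_) h1
    ring
  exact le_of_mul_le_mul_left h3 hM0

/-- partial summation -/
lemma abel (H : ℕ) (g : ℕ → ℂ) (β m : ℝ) (hg : ∀ y, y ≤ H → ‖∑ n ∈ Icc 1 y, g n‖ ≤ m) :
    ‖∑ n ∈ Icc 1 H, g n * ee (β * n)‖ ≤ (1 + 2 * Real.pi * |β| * H) * m := by
  have hm : 0 ≤ m := (norm_nonneg _).trans (hg 0 (Nat.zero_le _))
  suffices h : ∀ y, y ≤ H → ‖∑ n ∈ Icc 1 y, g n * ee (β * n) - (∑ n ∈ Icc 1 y, g n) * ee (β * y)‖ ≤ 2 * Real.pi * |β| * y * m by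
    have h1 := h H le_rfl
    have h2 := hg H le_rfl
    have h3 : ∑ n ∈ Icc 1 H, g n * ee (β * n) = (∑ n ∈ Icc 1 H, g n * ee (β * n) - (∑ n ∈ Icc 1 H, g n) * ee (β * H)) +
        (∑ n ∈ Icc 1 H, g n) * ee (β * H) := by ring
    rw [h3]
    refine (norm_add_le _ _).trans ?_
    rw [norm_mul, norm_ee, mul_one]
    linarith
  intro y
  induction y with
  | zero => intro _; simp
  | succ y ih =>
    intro hy
    have h1 := ih (by omega)
    have h2 := hg y (by omega)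
    rw [sum_Icc_succ_top (by omega), sum_Icc_succ_top (by omega)]
    have h3 : ∑ n ∈ Icc 1 y, g n * ee (β * n) + g (y + 1) * ee (β * ((y + 1 : ℕ) : ℝ)) -
        (∑ n ∈ Icc 1 y, g n + g (y + 1)) * ee (β * ((y + 1 : ℕ) : ℝ)) =
        (∑ n ∈ Icc 1 y, g n * ee (β * n) - (∑ n ∈ Icc 1 y, g n) * ee (β * y)) -
          (∑ n ∈ Icc 1 y, g n) * ee (β * y) * (ee β - 1) := by
      have h4 : ee (β * ((y + 1 : ℕ) : ℝ)) = ee (β * y) * ee β := by
        rw [← ee_add]; congr 1; push_cast; ring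
      rw [h4]; ring
    rw [h3]
    refine (norm_sub_le _ _).trans ?_
    rw [norm_mul, norm_mul, norm_ee, mul_one]
    have h5 := ee_sub_one β
    have h6 : ‖∑ n ∈ Icc 1 y, g n‖ * ‖ee β - 1‖ ≤ m * (2 * Real.pi * |β|) := mul_le_mul h2 h5 (norm_nonneg _) hm
    push_cast
    nlinarith

/-- pointwise bound near a rational number -/
theorem Th_le (f : ℕ → ℂ) (H M e l q : ℕ) (hq : 1 ≤ q) (heq : e ∣ q) (t : ℝ) (b : ℤ) (mx : ℕ → ℝ)
    (hmx : ∀ κ, κ < q → ∀ y, y ≤ H → ‖∑ m ∈ cls y q κ, f m‖ ≤ mx κ) :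
    ‖Th f H M e l t‖ ≤ (1 + 2 * Real.pi * |t / M - b / q| * H) * ∑ κ ∈ (range q).filter (fun κ => κ % e = l), mx κ := by
  have hq0 : (0 : ℝ) < q := by exact_mod_cast hq
  obtain ⟨β, hβ⟩ : ∃ β : ℝ, β = t / M - b / q := ⟨_, rfl⟩
  rw [← hβ]
  have h1 : Th f H M e l t = ∑ κ ∈ (range q).filter (fun κ => κ % e = l),
      ee (κ * ((b : ℝ) / q)) * ∑ m ∈ Icc 1 H, (if m % q = κ then f m else 0) * ee (β * m) := by
    unfold Th
    have h2 : ∀ m ∈ cls H e l, f m * ee (t * ((m : ℝ) / M)) = ∑ κ ∈ (range q).filter (fun κ => κ % e = l),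
        ee (κ * ((b : ℝ) / q)) * ((if m % q = κ then f m else 0) * ee (β * m)) := by
      intro m hm
      rw [mem_cls] at hm
      have h3 : m % q ∈ (range q).filter (fun κ => κ % e = l) := by
        rw [mem_filter, mem_range]
        refine ⟨Nat.mod_lt _ (by omega), ?_⟩
        rw [Nat.mod_mod_of_dvd _ heq, hm.2]
      rw [sum_eq_single_of_mem _ h3]
      · rw [if_pos rfl]
        have h4 : ee (t * ((m : ℝ) / M)) = ee (((m % q : ℕ) : ℝ) * ((b : ℝ) / q)) * ee (β * m) := by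
          obtain ⟨k, hk⟩ : ∃ k : ℕ, k = m / q := ⟨_, rfl⟩
          have h5 : t * ((m : ℝ) / M) = (((m % q : ℕ) : ℝ) * ((b : ℝ) / q) + β * m) + ((k : ℤ) * b : ℤ) := by
            have h6 : (m : ℝ) = ((m % q : ℕ) : ℝ) + q * (k : ℝ) := by
              have := Nat.mod_add_div m q
              rw [← hk] at this
              exact_mod_cast this.symm
            have h7 : t * ((m : ℝ) / M) = (β + b / q) * m := by rw [hβ]; ring
            rw [h7]
            have h8 : (b : ℝ) / q * m = ((m % q : ℕ) : ℝ) * ((b : ℝ) / q) + (k : ℝ) * b := by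
              conv_lhs => rw [h6]
              field_simp
            push_cast
            linarith
          rw [h5, ee_add, ee_int, mul_one, ee_add]
        rw [h4]; ring
      · intro κ _ hne
        rw [if_neg (fun h => hne h.symm)]
        ring
    rw [sum_congr rfl h2, sum_comm]
    apply sum_congr rfl
    intro κ hκ
    rw [mem_filter, mem_range] at hκ
    rw [← mul_sum]
    congr 1
    unfold cls
    rw [sum_filter]
    apply sum_congr rfl
    intro m _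
    by_cases h3 : m % q = κ
    · rw [if_pos (by rw [← Nat.mod_mod_of_dvd m heq, h3, hκ.2])]
    · rw [if_neg h3]; simp
  rw [h1]
  refine (norm_sum_le _ _).trans ?_
  rw [mul_sum]
  apply sum_le_sum
  intro κ hκ
  rw [mem_filter, mem_range] at hκ
  rw [norm_mul, norm_ee, one_mul]
  apply abel
  intro y hy
  have h2 := hmx κ hκ.1 y hy
  unfold cls at h2
  rwa [sum_filter] at h2

end Pool.Agent.H544.BC
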