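import Mathlib
import Pool.Graph.R_pool_sql_team_seeded_63374d34.N913.MT.D2
import Pool.Graph.R_pool_sql_team_seeded_63374d34.N913.MT.B7

/-!
Local factors for one-parameter families of shifts, and the moments.
-/

set_option autoImplicit false
set_option linter.unusedSectionVars false

namespace Pool.Agent.H544.BC
open Finset
open Pool.Agent.N913.MT (TT cop_TT TT_insert tot_TT expand idf cnt Ip prod_slots cnt_le idf_bd
  Ip_bd Ip_empty Yp Wb step1 swap comp TT_pos')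

/-- the character -/
noncomputable def ch (t : ℕ) (v : ℤ) : ℝ := if (t : ℤ) ∣ v then -1 else 1 / ((t : ℝ) - 1)

lemma ch_abs (t : ℕ) (ht : 3 ≤ t) (v : ℤ) : |ch t v| ≤ 1 ∧ |ch t v| ≤ 1 / ((t : ℝ) - 1) + (if (t : ℤ) ∣ v then 1 else 0) := by
  have hp3 : (3 : ℝ) ≤ t := by exact_mod_cast ht
  have h0 : 0 ≤ 1 / ((t : ℝ) - 1) := by apply div_nonneg zero_le_one; linarith
  have h1 : 1 / ((t : ℝ) - 1) ≤ 1 := by rw [div_le_one (by linarith)]; linarith
  unfold ch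
  split_ifs
  · constructor
    · simp
    · rw [abs_neg, abs_one]; linarith
  · rw [abs_of_nonneg h0]
    constructor <;> linarith

lemma ch_per (t : ℕ) (u v : ℤ) (h : (t : ℤ) ∣ u - v) : ch t u = ch t v := by
  unfold ch
  have : (t : ℤ) ∣ u ↔ (t : ℤ) ∣ v := by
    constructor
    · intro h1
      have := dvd_sub h1 h
      simpa using this
    · intro h1
      have := dvd_add h h1
      simpa using this
  rw [if_congr this rfl rfl]

section loc
variable {B J : Type} [Fintype B] [Fintype J] [DecidableEq B] [DecidableEq J]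

/-- the factor of a slot -/
noncomputable def XX (l : Option J) (j : J) (t : ℕ) (v : ℤ) : ℝ := if l = some j then 1 / ((t : ℝ) - 1) else ch t v

lemma XX_abs (l : Option J) (j : J) (t : ℕ) (ht : 3 ≤ t) (v : ℤ) :
    |XX l j t v| ≤ 1 ∧ |XX l j t v| ≤ 1 / ((t : ℝ) - 1) + (if (t : ℤ) ∣ v then 1 else 0) := by
  have hp3 : (3 : ℝ) ≤ t := by exact_mod_cast ht
  have h0 : 0 ≤ 1 / ((t : ℝ) - 1) := by apply div_nonneg zero_le_one; linarith
  have h1 : 1 / ((t : ℝ) - 1) ≤ 1 := by rw [div_le_one (by linarith)]; linarith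
  unfold XX
  by_cases h : l = some j
  · rw [if_pos h, abs_of_nonneg h0]
    refine ⟨h1, ?_⟩
    split_ifs <;> linarith
  · rw [if_neg h]
    exact ch_abs t ht v

lemma XX_per (l : Option J) (j : J) (t : ℕ) (u v : ℤ) (h : (t : ℤ) ∣ u - v) : XX l j t u = XX l j t v := by
  unfold XX
  rw [ch_per t u v h]

lemma one_root (t : ℕ) (ht : 0 < t) (a : ℤ) : #((range t).filter (fun x : ℕ => (t : ℤ) ∣ (x : ℤ) + a)) = 1 := by
  have h := Pool.Agent.N913.MT.one_b t ht (-a)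
  rw [← h]
  congr 1
  apply filter_congr
  intro x _
  constructor
  · intro h1
    have e : -a - (x : ℤ) = -((x : ℤ) + a) := by ring
    rw [e]; exact (dvd_neg).2 h1
  · intro h1
    have e : (x : ℤ) + a = -(-a - (x : ℤ)) := by ring
    rw [e]; exact (dvd_neg).2 h1

/-- the total variation -/
lemma sum_XX (l : Option J) (t : ℕ) (ht : 3 ≤ t) (a : B → J → ℤ) (A : Finset (B × Bool × J)) (hA : A.Nonempty) :
    ∑ x ∈ range t, |∏ τ ∈ A, XX l τ.2.2 t ((x : ℤ) + a τ.1 τ.2.2)| ≤ 3 := by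
  obtain ⟨τ, hτ⟩ := hA
  have hp3 : (3 : ℝ) ≤ t := by exact_mod_cast ht
  have h1 : ∀ x ∈ range t, |∏ τ ∈ A, XX l τ.2.2 t ((x : ℤ) + a τ.1 τ.2.2)| ≤
      1 / ((t : ℝ) - 1) + (if (t : ℤ) ∣ (x : ℤ) + a τ.1 τ.2.2 then 1 else 0) := by
    intro x _
    rw [abs_prod, ← mul_prod_erase A _ hτ]
    have h2 : ∏ τ ∈ A.erase τ, |XX l τ.2.2 t ((x : ℤ) + a τ.1 τ.2.2)| ≤ 1 :=
      prod_le_one (fun _ _ => abs_nonneg _) (fun τ _ => (XX_abs l _ t ht _).1)
    have h3 := (XX_abs l τ.2.2 t ht ((x : ℤ) + a τ.1 τ.2.2)).2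
    calc _ ≤ |XX l τ.2.2 t ((x : ℤ) + a τ.1 τ.2.2)| * 1 := mul_le_mul_of_nonneg_left h2 (abs_nonneg _)
      _ ≤ _ := by rw [mul_one]; exact h3
  refine (sum_le_sum h1).trans ?_
  rw [sum_add_distrib, sum_const, card_range, nsmul_eq_mul, ← sum_filter, sum_const, one_root t (by omega), one_smul,
    mul_one_div]
  have : (t : ℝ) / (t - 1) ≤ 2 := by
    rw [div_le_iff₀ (by linarith)]; linarith
  linarith

/-- the probability of the intersections -/
lemma PU1 (t : ℕ) (ht : 1 ≤ t) {Q : Type} [Fintype Q] [DecidableEq Q] (pos : Q → ℤ)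
    (hpos : ∀ q q', q ≠ q' → ¬ (t : ℤ) ∣ pos q - pos q') (U : Finset Q) :
    |(#((range t).filter (fun x : ℕ => ∀ q ∈ U, (t : ℤ) ∣ (x : ℤ) + pos q)) : ℝ) / t - (1 / (t : ℝ)) ^ U.card| ≤ (1 / (t : ℝ)) ^ 2 := by
  have hp0 : (0 : ℝ) < t := by exact_mod_cast ht
  have hp1 : 1 / (t : ℝ) ≤ 1 := by
    rw [div_le_one hp0]
    exact_mod_cast ht
  have hp1' : 0 ≤ 1 / (t : ℝ) := by positivity
  rcases Nat.lt_or_ge U.card 2 with hU | hU
  · have h30 : (0 : ℝ) ≤ (1 / (t : ℝ)) ^ 2 := by positivity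
    interval_cases h : U.card
    · rw [card_eq_zero] at h
      subst h
      simp only [notMem_empty, false_implies, implies_true, filter_true]
      rw [card_range, pow_zero, div_self hp0.ne', sub_self, abs_zero]
      exact h30
    · rw [card_eq_one] at h
      obtain ⟨q, rfl⟩ := h
      simp only [mem_singleton, forall_eq]
      rw [one_root t ht, pow_one, Nat.cast_one, sub_self, abs_zero]
      exact h30
  · have h3 : (range t).filter (fun x : ℕ => ∀ q ∈ U, (t : ℤ) ∣ (x : ℤ) + pos q) = ∅ := by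
      obtain ⟨V, hV, hVc⟩ := exists_subset_card_eq hU
      rw [card_eq_two] at hVc
      obtain ⟨a, b, hab, rfl⟩ := hVc
      ext x
      simp only [mem_filter, notMem_empty, iff_false, not_and]
      intro _ hx
      apply hpos a b hab
      have h4 := dvd_sub (hx a (hV (by simp))) (hx b (hV (by simp)))
      have e : (x : ℤ) + pos a - ((x : ℤ) + pos b) = pos a - pos b := by ring
      rwa [e] at h4
    rw [h3, card_empty]
    simp only [Nat.cast_zero, zero_div, zero_sub, abs_neg]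
    rw [abs_of_nonneg (by positivity)]
    exact pow_le_pow_of_le_one hp1' hp1 hU

/-- averages of products over distinct positions -/
lemma local_mix1 (t : ℕ) (ht : 1 ≤ t) {Q : Type} [Fintype Q] [DecidableEq Q]
    (pos : Q → ℤ) (hpos : ∀ q q', q ≠ q' → ¬ (t : ℤ) ∣ pos q - pos q') (A B : Q → ℝ) :
    |(∑ x ∈ range t, ∏ q, (if (t : ℤ) ∣ (x : ℤ) + pos q then A q + B q else A q)) / (t : ℝ) -
      ∏ q, (A q + B q / t)| ≤ (1 / (t : ℝ)) ^ 2 * ∏ q, (|A q| + |B q|) := by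
  classical
  have hp0 : (0 : ℝ) < t := by exact_mod_cast ht
  have e1 : ∀ x : ℕ, ∏ q, (if (t : ℤ) ∣ (x : ℤ) + pos q then A q + B q else A q) =
      ∑ U ∈ (univ : Finset Q).powerset, (∏ q ∈ U, B q) * (∏ q ∈ univ \ U, A q) *
        (if ∀ q ∈ U, (t : ℤ) ∣ (x : ℤ) + pos q then 1 else 0) := by
    intro x
    have h1 : ∀ q, (if (t : ℤ) ∣ (x : ℤ) + pos q then A q + B q else A q) =
        B q * (if (t : ℤ) ∣ (x : ℤ) + pos q then 1 else 0) + A q := by
      intro q; split_ifs <;> ring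
    rw [prod_congr rfl (fun q _ => h1 q), prod_add]
    refine sum_congr rfl fun U _ => ?_
    rw [prod_mul_distrib]
    have h3 : ∏ q ∈ U, (if (t : ℤ) ∣ (x : ℤ) + pos q then (1 : ℝ) else 0) =
        if ∀ q ∈ U, (t : ℤ) ∣ (x : ℤ) + pos q then 1 else 0 := by
      rw [prod_ite_zero]
      simp
    rw [h3]; ring
  have e2 : (∑ x ∈ range t, ∏ q, (if (t : ℤ) ∣ (x : ℤ) + pos q then A q + B q else A q)) / (t : ℝ) =
      ∑ U ∈ (univ : Finset Q).powerset, (∏ q ∈ U, B q) * (∏ q ∈ univ \ U, A q) *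
        ((#((range t).filter (fun x : ℕ => ∀ q ∈ U, (t : ℤ) ∣ (x : ℤ) + pos q)) : ℝ) / (t : ℝ)) := by
    rw [sum_congr rfl (fun x _ => e1 x), sum_comm, sum_div]
    refine sum_congr rfl fun U _ => ?_
    rw [← mul_sum, mul_div_assoc, card_filter]
    push_cast
    rfl
  have e3 : ∏ q, (A q + B q / t) = ∑ U ∈ (univ : Finset Q).powerset, (∏ q ∈ U, B q) *
      (∏ q ∈ univ \ U, A q) * (1 / (t : ℝ)) ^ U.card := by
    have h1 : ∀ q, A q + B q / t = B q * (1 / (t : ℝ)) + A q := by intro q; ring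
    rw [prod_congr rfl (fun q _ => h1 q), prod_add]
    refine sum_congr rfl fun U _ => ?_
    rw [prod_mul_distrib, prod_const]; ring
  have e4 : ∏ q, (|A q| + |B q|) = ∑ U ∈ (univ : Finset Q).powerset, (∏ q ∈ U, |B q|) *
      (∏ q ∈ univ \ U, |A q|) := by
    rw [← prod_add]
    exact prod_congr rfl fun q _ => add_comm _ _
  rw [e2, e3, e4, ← sum_sub_distrib, mul_sum]
  refine (abs_sum_le_sum_abs _ _).trans (sum_le_sum fun U _ => ?_)
  rw [← mul_sub, abs_mul, abs_mul, abs_prod, abs_prod, mul_comm]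
  exact mul_le_mul_of_nonneg_right (PU1 t ht pos hpos U)
    (mul_nonneg (prod_nonneg fun _ _ => abs_nonneg _) (prod_nonneg fun _ _ => abs_nonneg _))

/-- the factor of the prime slots -/
noncomputable def pf1 (t : ℕ) (l : Option J) (σ : Prop) [Decidable σ] (pos : B × J → ℤ) (x : ℤ) : ℝ :=
  ∏ q : B × J, if l = some q.2 ∧ σ then (if (t : ℤ) ∣ x + pos q then 0 else 1 + 1 / ((t : ℝ) - 1)) else 1

lemma local_good1 (t : ℕ) (ht : 3 ≤ t) (l : Option J) (σ : Prop) [Decidable σ] (pos : B × J → ℤ)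
    (hpos : ∀ q q', q ≠ q' → ¬ (t : ℤ) ∣ pos q - pos q') (A : Finset (B × Bool × J)) :
    |(∑ x ∈ range t, pf1 t l σ pos x * ∏ τ ∈ A, XX l τ.2.2 t ((x : ℤ) + pos (τ.1, τ.2.2))) / (t : ℝ) -
      Ip (1 / ((t : ℝ) - 1)) l A| ≤ (1 / (t : ℝ)) ^ 2 * 4 ^ (Fintype.card (B × J)) := by
  have hp3 : (3 : ℝ) ≤ t := by exact_mod_cast ht
  obtain ⟨ν, hν⟩ : ∃ ν, ν = 1 / ((t : ℝ) - 1) := ⟨_, rfl⟩
  have hν0 : 0 < ν := by rw [hν]; apply div_pos one_pos; linarith
  have hν1 : ν ≤ 1 / 2 := by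
    rw [hν]
    apply one_div_le_one_div_of_le <;> linarith
  have hpν : 1 / (t : ℝ) = ν / (1 + ν) := by
    rw [hν]
    have h1 : (t : ℝ) - 1 ≠ 0 := by linarith
    have h2 : (t : ℝ) ≠ 0 := by linarith
    have h4 : 1 + 1 / ((t : ℝ) - 1) = t / (t - 1) := by field_simp; ring
    rw [h4, div_div_div_cancel_right₀ h1]
  have hA := local_mix1 t (by omega) pos hpos
    (fun q => if l = some q.2 then (if σ then (1 + ν) * ν ^ cnt A q else ν ^ cnt A q) else ν ^ cnt A q)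
    (fun q => if l = some q.2 then (if σ then -((1 + ν) * ν ^ cnt A q) else 0) else (-1) ^ cnt A q - ν ^ cnt A q)
  have e1 : ∀ x : ℕ, pf1 t l σ pos x * ∏ τ ∈ A, XX l τ.2.2 t ((x : ℤ) + pos (τ.1, τ.2.2)) =
      ∏ q, (if (t : ℤ) ∣ (x : ℤ) + pos q then
        (if l = some q.2 then (if σ then (1 + ν) * ν ^ cnt A q else ν ^ cnt A q) else ν ^ cnt A q) +
        (if l = some q.2 then (if σ then -((1 + ν) * ν ^ cnt A q) else 0) else (-1) ^ cnt A q - ν ^ cnt A q)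
        else (if l = some q.2 then (if σ then (1 + ν) * ν ^ cnt A q else ν ^ cnt A q) else ν ^ cnt A q)) := by
    intro x
    rw [prod_slots A (fun q : B × J => XX l q.2 t ((x : ℤ) + pos q))]
    unfold pf1
    rw [← prod_mul_distrib]
    refine prod_congr rfl fun q _ => ?_
    unfold XX ch
    rw [← hν]
    by_cases h1 : l = some q.2
    · by_cases h2 : (t : ℤ) ∣ (x : ℤ) + pos q
      · by_cases hσ : σ
        · simp [h1, h2, hσ]
        · simp [h1, h2, hσ]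
      · by_cases hσ : σ
        · simp [h1, h2, hσ]
        · simp [h1, h2, hσ]
    · by_cases h2 : (t : ℤ) ∣ (x : ℤ) + pos q
      · simp [h1, h2]
      · simp [h1, h2]
  have e2 : Ip (1 / ((t : ℝ) - 1)) l A =
      ∏ q, ((if l = some q.2 then (if σ then (1 + ν) * ν ^ cnt A q else ν ^ cnt A q) else ν ^ cnt A q) +
        (if l = some q.2 then (if σ then -((1 + ν) * ν ^ cnt A q) else 0) else (-1) ^ cnt A q - ν ^ cnt A q) / t) := by
    unfold Ip
    rw [← hν]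
    refine prod_congr rfl fun q _ => ?_
    unfold idf
    have hc := cnt_le A q
    rw [div_eq_mul_one_div _ (t : ℝ), hpν]
    by_cases h1 : l = some q.2
    · by_cases hσ : σ
      · simp only [h1, hσ, if_true]
        field_simp
        ring
      · simp only [h1, hσ, if_true, if_false]
        ring
    · simp only [h1, if_false]
      interval_cases hc' : cnt A q
      · simp
      · simp only [one_ne_zero, if_false, if_true, pow_one]
        field_simp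
        ring
      · simp only [show (2 : ℕ) ≠ 0 by norm_num, show (2 : ℕ) ≠ 1 by norm_num, if_false]
        field_simp
        ring
  rw [sum_congr rfl (fun x _ => e1 x), e2]
  refine hA.trans ?_
  apply mul_le_mul_of_nonneg_left _ (by positivity)
  have hcard : (4 : ℝ) ^ (Fintype.card (B × J)) = ∏ _q : B × J, (4 : ℝ) := by
    rw [prod_const, card_univ]
  rw [hcard]
  apply prod_le_prod
  · intro q _
    positivity
  · intro q _
    have hn : ∀ n : ℕ, 0 ≤ ν ^ n ∧ ν ^ n ≤ 1 := fun n =>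
      ⟨pow_nonneg hν0.le n, pow_le_one₀ hν0.le (by linarith)⟩
    obtain ⟨a1, a2⟩ := hn (cnt A q)
    by_cases h1 : l = some q.2
    · by_cases hσ : σ
      · simp only [h1, hσ, if_true, abs_neg]
        rw [abs_of_nonneg (by positivity)]
        nlinarith
      · simp only [h1, hσ, if_true, if_false, abs_zero]
        rw [abs_of_nonneg a1]
        linarith
    · simp only [h1, if_false]
      have h5 : |(-1 : ℝ) ^ cnt A q| = 1 := by rw [abs_pow]; simp
      have h6 := abs_sub ((-1 : ℝ) ^ cnt A q) (ν ^ cnt A q)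
      rw [h5, abs_of_nonneg a1] at h6
      rw [abs_of_nonneg a1]
      linarith

/-- the discrepancies -/
noncomputable def DD1 (B J : Type) [Fintype B] [Fintype J] [DecidableEq B] [DecidableEq J]
    (good : Prop) [Decidable good] (t : ℕ) : ℝ :=
  2 ^ (Fintype.card (B × Bool × J)) *
    ((if good then (1 / (t : ℝ)) ^ 2 * (4 ^ (Fintype.card (B × J)) + 7) else (11 : ℝ) / t) : ℝ)

lemma DD1_bd (good : Prop) [Decidable good] (t : ℕ) (h3 : 3 ≤ t) (l : Option J) (σ : Prop) [Decidable σ]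
    (a : B → J → ℤ) (β : ℕ → ℝ) (hβ1 : ∑ x ∈ range t, β x = 1)
    (hβ : ∀ x, |β x| ≤ 3 / (t : ℝ))
    (hpos : good → ∀ q q' : B × J, q ≠ q' → ¬ (t : ℤ) ∣ a q.1 q.2 - a q'.1 q'.2)
    (hg : good → ∀ x : ℕ, |β x - pf1 t l σ (fun q : B × J => a q.1 q.2) x / t| ≤ 7 / (t : ℝ) ^ 3) :
    ∑ A : Finset (B × Bool × J), |∑ x ∈ range t, β x * ∏ τ ∈ A, XX l τ.2.2 t ((x : ℤ) + a τ.1 τ.2.2) -
      Ip (1 / ((t : ℝ) - 1)) l A| ≤ DD1 B J good t := by
  have ht3 : (3 : ℝ) ≤ t := by exact_mod_cast h3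
  have hν0 : 0 ≤ 1 / ((t : ℝ) - 1) := by apply div_nonneg zero_le_one; linarith
  have hν1 : 1 / ((t : ℝ) - 1) ≤ 1 := by rw [div_le_one (by linarith)]; linarith
  have hν2 : 1 / ((t : ℝ) - 1) ≤ 2 / t := by
    rw [div_le_div_iff₀ (by linarith) (by linarith)]; linarith
  unfold DD1
  have hcard : ((univ : Finset (Finset (B × Bool × J))).card : ℝ) =
      2 ^ (Fintype.card (B × Bool × J)) := by
    rw [card_univ, Fintype.card_finset]
    push_cast
    rfl
  rw [← hcard, ← nsmul_eq_mul]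
  apply sum_le_card_nsmul
  intro A _
  split_ifs with hgood
  · have h1 := local_good1 t h3 l σ (fun q : B × J => a q.1 q.2) (hpos hgood) A
    have h2 : |∑ x ∈ range t, β x * ∏ τ ∈ A, XX l τ.2.2 t ((x : ℤ) + a τ.1 τ.2.2) -
        (∑ x ∈ range t, pf1 t l σ (fun q : B × J => a q.1 q.2) x * ∏ τ ∈ A, XX l τ.2.2 t ((x : ℤ) + a τ.1 τ.2.2)) / (t : ℝ)| ≤ 7 / (t : ℝ) ^ 2 := by
      rw [sum_div, ← sum_sub_distrib]
      refine (abs_sum_le_sum_abs _ _).trans ?_
      have h4 : ∀ x ∈ range t, |β x * ∏ τ ∈ A, XX l τ.2.2 t ((x : ℤ) + a τ.1 τ.2.2) -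
          pf1 t l σ (fun q : B × J => a q.1 q.2) x * (∏ τ ∈ A, XX l τ.2.2 t ((x : ℤ) + a τ.1 τ.2.2)) / (t : ℝ)| ≤ 7 / (t : ℝ) ^ 3 := by
        intro x _
        have e : β x * ∏ τ ∈ A, XX l τ.2.2 t ((x : ℤ) + a τ.1 τ.2.2) -
          pf1 t l σ (fun q : B × J => a q.1 q.2) x * (∏ τ ∈ A, XX l τ.2.2 t ((x : ℤ) + a τ.1 τ.2.2)) / (t : ℝ) =
          (β x - pf1 t l σ (fun q : B × J => a q.1 q.2) x / t) * ∏ τ ∈ A, XX l τ.2.2 t ((x : ℤ) + a τ.1 τ.2.2) := by ring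
        rw [e, abs_mul, abs_prod]
        have h5 : ∏ τ ∈ A, |XX l τ.2.2 t ((x : ℤ) + a τ.1 τ.2.2)| ≤ 1 :=
          prod_le_one (fun _ _ => abs_nonneg _) (fun τ _ => (XX_abs l _ t h3 _).1)
        calc _ ≤ 7 / (t : ℝ) ^ 3 * 1 := mul_le_mul (hg hgood x) h5 (prod_nonneg fun _ _ => abs_nonneg _) (by positivity)
          _ = _ := mul_one _
      refine (sum_le_sum h4).trans (le_of_eq ?_)
      rw [sum_const, card_range, nsmul_eq_mul]
      field_simp
    rw [abs_le] at h1 h2 ⊢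
    have e3 : (1 / (t : ℝ)) ^ 2 * (4 ^ Fintype.card (B × J) + 7) = (1 / (t : ℝ)) ^ 2 * 4 ^ Fintype.card (B × J) + 7 / (t : ℝ) ^ 2 := by ring
    rw [e3]
    constructor <;> linarith [h1.1, h1.2, h2.1, h2.2]
  · by_cases hA : A.Nonempty
    · have h1 : |∑ x ∈ range t, β x * ∏ τ ∈ A, XX l τ.2.2 t ((x : ℤ) + a τ.1 τ.2.2)| ≤ 9 / t := by
        refine (abs_sum_le_sum_abs _ _).trans ?_
        have h4 : ∀ x ∈ range t, |β x * ∏ τ ∈ A, XX l τ.2.2 t ((x : ℤ) + a τ.1 τ.2.2)| ≤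
            3 / (t : ℝ) * |∏ τ ∈ A, XX l τ.2.2 t ((x : ℤ) + a τ.1 τ.2.2)| := by
          intro x _
          rw [abs_mul]
          exact mul_le_mul_of_nonneg_right (hβ x) (abs_nonneg _)
        refine (sum_le_sum h4).trans ?_
        rw [← mul_sum]
        refine (mul_le_mul_of_nonneg_left (sum_XX l t h3 a A hA) (by positivity)).trans (le_of_eq ?_)
        ring
      have h2 := Ip_bd (B := B) (1 / ((t : ℝ) - 1)) hν0 hν1 l A hA
      have h4 : (11 : ℝ) / t = 9 / t + 2 / t := by ring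
      rw [h4]
      rw [abs_le] at h1 ⊢
      constructor <;> linarith [h1.1, h1.2, h2.1, h2.2]
    · rw [not_nonempty_iff_eq_empty] at hA
      subst hA
      rw [Ip_empty]
      simp only [prod_empty, mul_one]
      rw [hβ1, sub_self, abs_zero]
      positivity

end loc

section mom
variable {S : Finset ℕ} {B J : Type} [Fintype B] [Fintype J] [DecidableEq B] [DecidableEq J]

/-- the weight -/
noncomputable def Lm (l : Option J) (y : (J → Finset S) → ℝ) (a : J → ℤ) (c : ℤ) : ℝ :=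
  ∑ f : J → Finset S, y f * ∏ j, ∏ t ∈ f j, XX l j (t : ℕ) (c + a j)

lemma Yp_bd (y : (J → Finset S) → ℝ) (hy : ∀ f, |y f| ≤ 1) (F : B × Bool × J → Finset S) : |Yp y F| ≤ 1 := by
  unfold Yp
  rw [abs_prod]
  apply prod_le_one (fun _ _ => abs_nonneg _)
  intro b _
  rw [abs_mul]
  exact mul_le_one₀ (hy _) (abs_nonneg _) (hy _)

variable (h3 : ∀ p ∈ S, 3 ≤ p)
include h3

lemma moment_aux (y : (J → Finset S) → ℝ) (hy : ∀ f, |y f| ≤ 1) (a : B → J → ℤ) (l : Option J)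
    (N : Finset ℕ) (μ : ℕ → ℝ) (β : S → ℕ → ℝ) (hβ1 : ∀ t : S, ∑ x ∈ range (t : ℕ), β t x = 1)
    (κ : ℝ) (E : Finset S → ℝ) (hE : ∀ T, 0 ≤ E T) (Adm : Finset S → Prop)
    [DecidablePred Adm] (hAdm : ∀ F : B × Bool × J → Finset S, Yp y F ≠ 0 → Adm (univ.biUnion F))
    (hc : ∀ T, Adm T → ∀ c : S → ℕ, (∀ t ∈ T, c t ∈ range (t : ℕ)) →
      |∑ n ∈ N.filter (fun n => ∀ t ∈ T, n % (t : ℕ) = c t), μ n - κ * ∏ t ∈ T, β t (c t)| ≤ E T) :
    |∑ n ∈ N, μ n * ∏ b, (Lm l y (a b) n) ^ 2 -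
      κ * ∑ F : B × Bool × J → Finset S, Yp y F * ∏ t : S, ∑ x ∈ range (t : ℕ), β t x *
        ∏ τ ∈ univ.filter (fun τ => t ∈ F τ), XX l τ.2.2 (t : ℕ) ((x : ℤ) + a τ.1 τ.2.2)| ≤
      ∑ T ∈ univ.filter (fun T => Adm T), (2 : ℝ) ^ (Fintype.card (B × Bool × J) * T.card) *
        (E T * ∏ t ∈ T, (3 : ℝ)) := by
  have h1 := step1 (α := ℕ) (ι := ℕ) (S := S) (I := B × Bool × J) (fun n t => n % (t : ℕ)) (fun t => range (t : ℕ)) N
    (fun n _ t => mem_range.2 (Nat.mod_lt _ (by have := h3 t t.2; omega))) μ β hβ1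
    (fun τ t x => XX l τ.2.2 (t : ℕ) ((x : ℤ) + a τ.1 τ.2.2)) (Yp y) (Yp_bd y hy) κ E hE
    Adm hAdm (by
      intro T hT c hcc
      have h9 := hc T hT c hcc
      convert h9) (fun t => (3 : ℝ)) (by
        intro t A hA
        exact sum_XX l (t : ℕ) (h3 t t.2) a A hA)
    (fun t => by norm_num)
  have h2 : ∀ n : ℕ, ∏ b, (Lm l y (a b) n) ^ 2 =
      ∑ F : B × Bool × J → Finset S, Yp y F * ∏ τ : B × Bool × J, ∏ t ∈ F τ,
        XX l τ.2.2 (t : ℕ) (((n % (t : ℕ) : ℕ) : ℤ) + a τ.1 τ.2.2) := by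
    intro n
    unfold Lm
    rw [expand (fun b j (A : Finset S) => ∏ t ∈ A, XX l j (t : ℕ) ((n : ℤ) + a b j)) y]
    apply sum_congr rfl
    intro F _
    congr 1
    apply prod_congr rfl
    intro τ _
    apply prod_congr rfl
    intro t _
    apply XX_per
    have e : (n : ℤ) + a τ.1 τ.2.2 - (((n % (t : ℕ) : ℕ) : ℤ) + a τ.1 τ.2.2) = (n : ℤ) - (n : ℤ) % (t : ℕ) := by
      push_cast; ring
    rw [e]
    exact Int.dvd_self_sub_emod
  rw [sum_congr rfl (fun n _ => by rw [h2 n])]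
  exact h1

/-- the moments -/
theorem moment (y : (J → Finset S) → ℝ) (hy : ∀ f, |y f| ≤ 1) (a : B → J → ℤ) (l : Option J)
    (σ : ℕ → Prop) [DecidablePred σ]
    (N : Finset ℕ) (μ : ℕ → ℝ) (β : S → ℕ → ℝ) (hβ1 : ∀ t : S, ∑ x ∈ range (t : ℕ), β t x = 1)
    (hβ : ∀ t : S, ∀ x, |β t x| ≤ 3 / ((t : ℕ) : ℝ)) (good : S → Prop) [DecidablePred good]
    (hpos : ∀ t : S, good t → ∀ q q' : B × J, q ≠ q' → ¬ ((t : ℕ) : ℤ) ∣ a q.1 q.2 - a q'.1 q'.2)
    (hg : ∀ t : S, good t → ∀ x : ℕ, |β t x - pf1 (t : ℕ) l (σ t) (fun q : B × J => a q.1 q.2) x / ((t : ℕ) : ℝ)| ≤ 7 / ((t : ℕ) : ℝ) ^ 3)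
    (κ : ℝ) (hκ : 0 ≤ κ) (E : Finset S → ℝ) (hE : ∀ T, 0 ≤ E T) (Adm : Finset S → Prop)
    [DecidablePred Adm] (hAdm : ∀ F : B × Bool × J → Finset S, Yp y F ≠ 0 → Adm (univ.biUnion F))
    (hc : ∀ T, Adm T → ∀ c : S → ℕ, (∀ t ∈ T, c t ∈ range (t : ℕ)) →
      |∑ n ∈ N.filter (fun n => ∀ t ∈ T, n % (t : ℕ) = c t), μ n - κ * ∏ t ∈ T, β t (c t)| ≤ E T) :
    |∑ n ∈ N, μ n * ∏ b, (Lm l y (a b) n) ^ 2 -
      κ * (Wb (fun t : S => 1 / (((t : ℕ) : ℝ) - 1)) l y) ^ (Fintype.card B)| ≤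
      κ * ((Wb (fun t : S => 1 / (((t : ℕ) : ℝ) - 1)) l (fun _ => 1)) ^ (Fintype.card B) *
        (Real.exp (∑ t : S, DD1 B J (good t) (t : ℕ)) - 1)) +
      ∑ T ∈ univ.filter (fun T => Adm T), (2 : ℝ) ^ (Fintype.card (B × Bool × J) * T.card) *
        (E T * ∏ t ∈ T, (3 : ℝ)) := by
  have h1 := moment_aux h3 y hy a l N μ β hβ1 κ E hE Adm hAdm hc
  have hν0 : ∀ t : S, 0 ≤ 1 / (((t : ℕ) : ℝ) - 1) := by
    intro t
    have : (3 : ℝ) ≤ (t : ℕ) := by exact_mod_cast h3 t t.2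
    apply div_nonneg zero_le_one; linarith
  have hν1 : ∀ t : S, 1 / (((t : ℕ) : ℝ) - 1) ≤ 1 := by
    intro t
    have : (3 : ℝ) ≤ (t : ℕ) := by exact_mod_cast h3 t t.2
    rw [div_le_one (by linarith)]; linarith
  have h2 := comp (B := B) (fun t : S => 1 / (((t : ℕ) : ℝ) - 1)) hν0 hν1 l y hy
    (fun t A => ∑ x ∈ range (t : ℕ), β t x * ∏ τ ∈ A, XX l τ.2.2 (t : ℕ) ((x : ℤ) + a τ.1 τ.2.2))
    (fun t => DD1 B J (good t) (t : ℕ)) (fun t => DD1_bd (good t) (t : ℕ) (h3 t t.2) l (σ t)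
      a (β t) (hβ1 t) (hβ t) (hpos t) (hg t))
  have h4 := mul_le_mul_of_nonneg_left h2 hκ
  rw [← abs_of_nonneg hκ, ← abs_mul, abs_of_nonneg hκ, mul_sub] at h4
  rw [abs_le] at h1 h4 ⊢
  constructor <;> linarith [h1.1, h1.2, h4.1, h4.2]

/-- crude bound for the diagonal -/
theorem moment_crude (y : (J → Finset S) → ℝ) (hy : ∀ f, |y f| ≤ 1) (a : B → J → ℤ) (l : Option J)
    (N : Finset ℕ) (μ : ℕ → ℝ) (β : S → ℕ → ℝ) (hβ1 : ∀ t : S, ∑ x ∈ range (t : ℕ), β t x = 1)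
    (hβ : ∀ t : S, ∀ x, |β t x| ≤ 3 / ((t : ℕ) : ℝ))
    (κ : ℝ) (hκ : 0 ≤ κ) (E : Finset S → ℝ) (hE : ∀ T, 0 ≤ E T) (Adm : Finset S → Prop)
    [DecidablePred Adm] (hAdm : ∀ F : B × Bool × J → Finset S, Yp y F ≠ 0 → Adm (univ.biUnion F))
    (hc : ∀ T, Adm T → ∀ c : S → ℕ, (∀ t ∈ T, c t ∈ range (t : ℕ)) →
      |∑ n ∈ N.filter (fun n => ∀ t ∈ T, n % (t : ℕ) = c t), μ n - κ * ∏ t ∈ T, β t (c t)| ≤ E T) :
    ∑ n ∈ N, μ n * ∏ b, (Lm l y (a b) n) ^ 2 ≤
      κ * Real.exp (∑ t : S, 2 ^ (Fintype.card (B × Bool × J)) * (9 / ((t : ℕ) : ℝ))) +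
      ∑ T ∈ univ.filter (fun T => Adm T), (2 : ℝ) ^ (Fintype.card (B × Bool × J) * T.card) *
        (E T * ∏ t ∈ T, (3 : ℝ)) := by
  have h1 := moment_aux h3 y hy a l N μ β hβ1 κ E hE Adm hAdm hc
  have h2 : ∑ F : B × Bool × J → Finset S, Yp y F * ∏ t : S, ∑ x ∈ range (t : ℕ), β t x *
        ∏ τ ∈ univ.filter (fun τ => t ∈ F τ), XX l τ.2.2 (t : ℕ) ((x : ℤ) + a τ.1 τ.2.2) ≤
      Real.exp (∑ t : S, 2 ^ (Fintype.card (B × Bool × J)) * (9 / ((t : ℕ) : ℝ))) := by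
    calc _ ≤ ∑ F : B × Bool × J → Finset S, ∏ t : S, (fun (t : S) (A : Finset (B × Bool × J)) =>
          |∑ x ∈ range (t : ℕ), β t x * ∏ τ ∈ A, XX l τ.2.2 (t : ℕ) ((x : ℤ) + a τ.1 τ.2.2)|) t
            (univ.filter (fun τ => t ∈ F τ)) := by
          apply sum_le_sum
          intro F _
          refine (le_abs_self _).trans ?_
          rw [abs_mul, abs_prod]
          have := mul_le_mul_of_nonneg_right (Yp_bd y hy F) (prod_nonneg fun t _ => abs_nonneg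
            (∑ x ∈ range (t : ℕ), β t x * ∏ τ ∈ univ.filter (fun τ => t ∈ F τ),
              XX l τ.2.2 (t : ℕ) ((x : ℤ) + a τ.1 τ.2.2)) : (0 : ℝ) ≤ ∏ t : S, |∑ x ∈ range (t : ℕ), β t x *
                ∏ τ ∈ univ.filter (fun τ => t ∈ F τ), XX l τ.2.2 (t : ℕ) ((x : ℤ) + a τ.1 τ.2.2)|)
          rw [one_mul] at this
          exact this
      _ = ∏ t : S, ∑ A : Finset (B × Bool × J),
          |∑ x ∈ range (t : ℕ), β t x * ∏ τ ∈ A, XX l τ.2.2 (t : ℕ) ((x : ℤ) + a τ.1 τ.2.2)| :=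
          swap (fun (t : S) (A : Finset (B × Bool × J)) =>
          |∑ x ∈ range (t : ℕ), β t x * ∏ τ ∈ A, XX l τ.2.2 (t : ℕ) ((x : ℤ) + a τ.1 τ.2.2)|)
      _ ≤ _ := by
          rw [Real.exp_sum]
          apply prod_le_prod
          · intro t _
            exact sum_nonneg fun _ _ => abs_nonneg _
          · intro t _
            refine le_trans ?_ (Real.add_one_le_exp _)
            rw [← add_sum_erase univ _ (mem_univ (∅ : Finset (B × Bool × J)))]
            have e1 : |∑ x ∈ range (t : ℕ), β t x * ∏ τ ∈ (∅ : Finset (B × Bool × J)),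
                XX l τ.2.2 (t : ℕ) ((x : ℤ) + a τ.1 τ.2.2)| = 1 := by
              simp only [prod_empty, mul_one]
              rw [hβ1 t, abs_one]
            rw [e1, add_comm]
            apply add_le_add _ le_rfl
            have e2 : ∀ A ∈ univ.erase (∅ : Finset (B × Bool × J)),
                |∑ x ∈ range (t : ℕ), β t x * ∏ τ ∈ A, XX l τ.2.2 (t : ℕ) ((x : ℤ) + a τ.1 τ.2.2)| ≤
                9 / ((t : ℕ) : ℝ) := by
              intro A hA
              refine (abs_sum_le_sum_abs _ _).trans ?_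
              have h4 : ∀ x ∈ range (t : ℕ), |β t x * ∏ τ ∈ A, XX l τ.2.2 (t : ℕ) ((x : ℤ) + a τ.1 τ.2.2)| ≤
                  3 / ((t : ℕ) : ℝ) * |∏ τ ∈ A, XX l τ.2.2 (t : ℕ) ((x : ℤ) + a τ.1 τ.2.2)| := by
                intro x _
                rw [abs_mul]
                exact mul_le_mul_of_nonneg_right (hβ t x) (abs_nonneg _)
              refine (sum_le_sum h4).trans ?_
              rw [← mul_sum]
              refine (mul_le_mul_of_nonneg_left (sum_XX l (t : ℕ) (h3 t t.2) a A (nonempty_iff_ne_empty.2 (ne_of_mem_erase hA))) (by positivity)).trans (le_of_eq ?_)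
              ring
            refine (sum_le_card_nsmul _ _ _ e2).trans ?_
            rw [nsmul_eq_mul]
            apply mul_le_mul_of_nonneg_right _ (by positivity)
            have hcard : ((univ : Finset (Finset (B × Bool × J))).card : ℝ) =
                2 ^ (Fintype.card (B × Bool × J)) := by
              rw [card_univ, Fintype.card_finset]
              push_cast
              rfl
            rw [← hcard]
            exact_mod_cast card_le_card (erase_subset _ _)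
  have h4 := mul_le_mul_of_nonneg_left h2 hκ
  rw [abs_le] at h1
  linarith [h1.2]

end mom

end Pool.Agent.H544.BC
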