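import Mathlib
import Pool.Agent.H544.BC.M1
import Pool.Agent.H544.BC.Four
import Pool.Agent.H544.LD.Loc
import Pool.Graph.R_seed8.TH892.SW.S2
import Pool.Graph.R_seed8.H373R2.T7.LamZ2

/-!
The fundamental lemma in residue classes, and the class sums of the sieve model.
-/

set_option autoImplicit false

namespace Pool.Agent.H544.BC
open Finset Polynomial
open Pool.Agent.W41 (JJ JJ_lt JJ_le JJ_small)
open Pool.Agent.H373R2.T7 (pz Vz mem_pz Vz_pos Vz_le_one)
open Pool.Agent.H544.LD (cls om Gz Gz_nonneg Gz_le_one fac_nn fac_le_one om_fixed om_shift om_le dvd_eval_iff)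

open Classical in
/-- the fundamental lemma in residue classes -/
theorem flcT (κ : ℕ) : ∃ C1 z0 : ℕ, 1 ≤ C1 ∧ 2 ≤ z0 ∧ ∀ b : ℕ, C1 ≤ b → ∀ z : ℕ, z0 ≤ z →
    ∀ (H : ℤ[X]) (q r y : ℕ), H.natDegree ≤ κ → 1 ≤ q → r < q → (∀ p ∈ pz z, p ∣ q → ¬ (p : ℤ) ∣ H.eval (r : ℤ)) →
    |(#((cls y q r).filter (fun n : ℕ => ∀ p ∈ pz z, ¬ (p : ℤ) ∣ H.eval (n : ℤ))) : ℝ) - (y : ℝ) / q * Gz H z q| ≤
      (1 / 2 : ℝ) ^ b * ((y : ℝ) / q) + (z : ℝ) ^ (C1 * b) := by
  obtain ⟨C0, K0, hC0, hK0, hfl⟩ := Pool.Agent.TH892.SW.fl_set κ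
  refine ⟨4 * C0 + 4, K0 + 3, by omega, by omega, fun b hb z hz H q r y hHd hq hr hg => ?_⟩
  have hz1 : (1 : ℝ) ≤ z := by exact_mod_cast (by omega : 1 ≤ z)
  have hz2 : (2 : ℝ) ≤ z := by exact_mod_cast (by omega : 2 ≤ z)
  have hqr : (0 : ℝ) < q := by exact_mod_cast hq
  have hyq : 0 ≤ (y : ℝ) / q := by positivity
  have hb0 : (0 : ℝ) < (1 / 2) ^ b := by positivity
  set P := (pz z).filter (fun p => ¬ p ∣ q) with hP
  have hPp : ∀ p ∈ P, p.Prime ∧ p ≤ z ∧ ¬ p ∣ q := by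
    intro p hp
    rw [hP, mem_filter, mem_pz] at hp
    exact ⟨hp.1.2, hp.1.1, hp.2⟩
  by_cases hfix : ∃ p ∈ P, ∀ a : ℤ, (p : ℤ) ∣ H.eval a
  · -- a fixed divisor
    obtain ⟨p, hp, hpa⟩ := hfix
    have h1 : #((cls y q r).filter (fun n : ℕ => ∀ p ∈ pz z, ¬ (p : ℤ) ∣ H.eval (n : ℤ))) = 0 := by
      rw [card_eq_zero, filter_eq_empty_iff]
      intro n _ h2
      exact h2 p (mem_filter.1 hp).1 (hpa n)
    have h2 : Gz H z q = 0 := by
      unfold Gz
      apply prod_eq_zero hp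
      have h3 : om H p = p := om_fixed H p hpa
      rw [h3, div_self, sub_self]
      exact_mod_cast (hPp p hp).1.ne_zero
    rw [h1, h2, Nat.cast_zero, mul_zero, sub_zero, abs_zero]
    positivity
  push Not at hfix
  obtain ⟨r', hr'⟩ : ∃ r' : ℕ, r' = if r = 0 then q else r := ⟨_, rfl⟩
  have hr1 : 1 ≤ r' := by rw [hr']; split_ifs <;> omega
  have hrq : r' ≤ q := by rw [hr']; split_ifs <;> omega
  have hrm : r' % q = r := by
    rw [hr']
    split_ifs with h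
    · rw [Nat.mod_self, h]
    · exact Nat.mod_eq_of_lt hr
  set A : ℤ := (r' : ℤ) - q with hA
  set T : ℕ := (y + q - r') / q with hT
  have h1 := hfl b (by omega) z (by omega) T P (fun p a => (p : ℤ) ∣ H.eval (A + q * a)) (by
    intro p hp
    refine ⟨(hPp p hp).1, (hPp p hp).2.1, ?_⟩
    have h2 := om_shift H p (hPp p hp).1 q (hPp p hp).2.2 A
    have h3 : om H p ≤ κ := by
      rcases om_le H p (hPp p hp).1 with h | h
      · obtain ⟨a, ha⟩ := hfix p hp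
        exact absurd (h a) ha
      · exact h.trans hHd
    rw [← h2] at h3
    convert h3)
  have hVe : ∏ p ∈ P, (1 - ((((range p).filter (fun a : ℕ => (p : ℤ) ∣ H.eval (A + q * a))).card : ℕ) : ℝ) / p) =
      Gz H z q := by
    unfold Gz
    apply prod_congr rfl
    intro p hp
    rw [om_shift H p (hPp p hp).1 q (hPp p hp).2.2 A]
  have hmod : ∀ n p : ℕ, ((p : ℤ) ∣ H.eval (A + q * ((n % p : ℕ) : ℤ))) ↔ ((p : ℤ) ∣ H.eval (A + q * (n : ℤ))) := by
    intro n p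
    apply dvd_eval_iff
    have e : A + q * ((n % p : ℕ) : ℤ) - (A + q * (n : ℤ)) = -(q * ((n : ℤ) - (n : ℤ) % p)) := by push_cast; ring
    rw [e, dvd_neg]
    exact Dvd.dvd.mul_left (Int.dvd_self_sub_emod) _
  set S := ((Icc 1 T).filter (fun t : ℕ => ∀ p ∈ P, ¬ (p : ℤ) ∣ H.eval (A + q * t))) with hS
  have hset : S = ((Icc 1 T).filter (fun n : ℕ => ∀ p ∈ P, ¬ (p : ℤ) ∣ H.eval (A + q * ((n % p : ℕ) : ℤ)))) := by
    apply filter_congr
    intro n _
    constructor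
    · intro h p hp hd
      exact h p hp ((hmod n p).1 hd)
    · intro h p hp hd
      exact h p hp ((hmod n p).2 hd)
  set G := Gz H z q with hG
  have h2 : |((S.card : ℕ) : ℝ) - T * G| ≤
      (1 / 2 : ℝ) ^ b * (T * G) + ((JJ z : ℝ) + 2) * ((z : ℝ) ^ (2 * (C0 * b)) * (K0 * (z : ℝ) ^ (2 * (C0 * b)))) := by
    rw [hset, ← hVe]
    convert h1 using 6 <;> congr!
  have hJ : ((JJ z : ℝ) + 2) ≤ z * z := by
    have h3 : ((JJ z : ℝ) + 2) ≤ 2 * z := by exact_mod_cast JJ_small z (by omega)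
    nlinarith
  have hK0 : (K0 : ℝ) ≤ z := by exact_mod_cast (by omega : K0 ≤ z)
  have h3 : ((JJ z : ℝ) + 2) * ((z : ℝ) ^ (2 * (C0 * b)) * (K0 * (z : ℝ) ^ (2 * (C0 * b)))) ≤
      (z : ℝ) ^ (4 * (C0 * b) + 3) := by
    calc ((JJ z : ℝ) + 2) * ((z : ℝ) ^ (2 * (C0 * b)) * (K0 * (z : ℝ) ^ (2 * (C0 * b))))
        ≤ (z * z) * ((z : ℝ) ^ (2 * (C0 * b)) * (z * (z : ℝ) ^ (2 * (C0 * b)))) := by gcongr
      _ = (z : ℝ) ^ (4 * (C0 * b) + 3) := by
          rw [show 4 * (C0 * b) + 3 = 2 * (C0 * b) + 2 * (C0 * b) + 1 + 1 + 1 by ring]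
          simp only [pow_succ, pow_add]
          ring
  -- the bijection
  have hcard : (cls y q r).filter (fun n : ℕ => ∀ p ∈ pz z, ¬ (p : ℤ) ∣ H.eval (n : ℤ)) = S.image (fun t => r' + q * (t - 1)) := by
    ext n
    unfold cls
    rw [mem_filter, mem_filter, mem_Icc, mem_image]
    constructor
    · rintro ⟨⟨⟨hn1, hny⟩, hnr⟩, hnp⟩
      have hle : r' ≤ n := by
        rw [hr']
        split_ifs with h
        · rw [h] at hnr
          exact Nat.le_of_dvd (by omega) (Nat.dvd_of_mod_eq_zero hnr)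
        · rw [← hnr]; exact Nat.mod_le _ _
      have hmod2 : (n - r') % q = 0 := Nat.sub_mod_eq_zero_of_mod_eq (by rw [hnr, hrm])
      have hdv := Nat.div_add_mod (n - r') q
      rw [hmod2, add_zero] at hdv
      refine ⟨(n - r') / q + 1, ?_, by rw [Nat.add_sub_cancel]; omega⟩
      rw [hS, mem_filter, mem_Icc]
      refine ⟨⟨Nat.le_add_left 1 _, ?_⟩, ?_⟩
      · rw [hT, Nat.le_div_iff_mul_le (by omega), add_mul, one_mul, mul_comm]
        omega
      · intro p hp hd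
        apply hnp p (mem_filter.1 hp).1
        have h4 : A + q * (((n - r') / q + 1 : ℕ) : ℤ) = (n : ℤ) := by
          rw [hA]
          have h5 : (q : ℤ) * (((n - r') / q : ℕ) : ℤ) = (n : ℤ) - r' := by
            have : ((q * ((n - r') / q) : ℕ) : ℤ) = ((n - r' : ℕ) : ℤ) := by rw [hdv]
            rw [Nat.cast_sub hle] at this
            push_cast at this
            exact this
          push_cast at h5 ⊢
          linear_combination h5
        rwa [h4] at hd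
    · rintro ⟨t, ht, rfl⟩
      rw [hS, mem_filter, mem_Icc] at ht
      obtain ⟨⟨ht1, htT⟩, htp⟩ := ht
      obtain ⟨j, rfl⟩ : ∃ j, t = j + 1 := ⟨t - 1, by omega⟩
      rw [Nat.add_sub_cancel]
      have h4 : q * (j + 1) ≤ y + q - r' := by
        rw [hT] at htT
        rw [mul_comm]
        exact (Nat.le_div_iff_mul_le (by omega)).1 htT
      have h5 : q * (j + 1) = q * j + q := by ring
      have hmr : (r' + q * j) % q = r := by rw [Nat.add_mul_mod_self_left, hrm]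
      refine ⟨⟨⟨by omega, by omega⟩, hmr⟩, ?_⟩
      intro p hp hd
      by_cases hpq : p ∣ q
      · have h6 : (p : ℤ) ∣ H.eval (r : ℤ) := by
          rw [dvd_eval_iff H p (r : ℤ) ((r' + q * j : ℕ) : ℤ)]
          · exact hd
          · have h7 : (q : ℤ) ∣ (r : ℤ) - ((r' + q * j : ℕ) : ℤ) := by
              rw [← dvd_neg, neg_sub, ← hmr]
              push_cast
              exact Int.dvd_self_sub_emod
            exact (by exact_mod_cast hpq : (p : ℤ) ∣ q).trans h7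
        exact hg p hp hpq h6
      · apply htp p (by rw [hP, mem_filter]; exact ⟨hp, hpq⟩)
        have h4 : A + q * ((j + 1 : ℕ) : ℤ) = ((r' + q * j : ℕ) : ℤ) := by
          rw [hA]; push_cast; ring
        rwa [h4]
  have hScard : #((cls y q r).filter (fun n : ℕ => ∀ p ∈ pz z, ¬ (p : ℤ) ∣ H.eval (n : ℤ))) = #S := by
    rw [hcard, card_image_of_injOn]
    intro t ht t' ht' he
    rw [mem_coe, hS, mem_filter, mem_Icc] at ht ht'
    simp only at he
    have h4 : q * (t - 1) = q * (t' - 1) := by omega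
    have h5 := Nat.eq_of_mul_eq_mul_left (by omega) h4
    omega
  rw [hScard]
  have hG0 : 0 ≤ G := Gz_nonneg H z q
  have hG1 : G ≤ 1 := Gz_le_one H z q
  have hTy : |(T : ℝ) - y / q| ≤ 1 := by
    have a1 : T * q ≤ y + q - r' := Nat.div_mul_le_self _ _
    have a2 : y + q - r' < (T + 1) * q := by
      rw [hT]
      have := Nat.lt_div_mul_add (a := y + q - r') (b := q) (by omega)
      have h7 : ((y + q - r') / q + 1) * q = (y + q - r') / q * q + q := by ring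
      omega
    have a1' : (T : ℝ) * q ≤ y + q - r' := by
      have : ((T * q : ℕ) : ℝ) ≤ ((y + q - r' : ℕ) : ℝ) := by exact_mod_cast a1
      rw [Nat.cast_sub (by omega)] at this
      push_cast at this
      exact this
    have a2' : (y : ℝ) + q - r' < (T + 1) * q := by
      have : ((y + q - r' : ℕ) : ℝ) < (((T + 1) * q : ℕ) : ℝ) := by exact_mod_cast a2
      rw [Nat.cast_sub (by omega)] at this
      push_cast at this
      exact this
    have a3 : (1 : ℝ) ≤ r' := by exact_mod_cast hr1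
    have a4 : (r' : ℝ) ≤ q := by exact_mod_cast hrq
    rw [abs_le]
    constructor
    · have : (y : ℝ) / q ≤ T + 1 := by
        rw [div_le_iff₀ hqr]; linarith
      linarith
    · have : (T : ℝ) - 1 ≤ y / q := by
        rw [le_div_iff₀ hqr]
        nlinarith
      linarith
  have hb1 : (1 / 2 : ℝ) ^ b ≤ 1 := pow_le_one₀ (by norm_num) (by norm_num)
  have hTle := (abs_le.1 hTy).2
  have hm : |((S.card : ℕ) : ℝ) - (y : ℝ) / q * G| ≤ (1 / 2 : ℝ) ^ b * ((y : ℝ) / q) + (z : ℝ) ^ (4 * (C0 * b) + 3) + 2 := by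
    have e1 : ((S.card : ℕ) : ℝ) - (y : ℝ) / q * G = (((S.card : ℕ) : ℝ) - T * G) + ((T : ℝ) - y / q) * G := by ring
    rw [e1]
    refine (abs_add_le _ _).trans ?_
    have e2 : |((T : ℝ) - y / q) * G| ≤ 1 := by
      rw [abs_mul, abs_of_nonneg hG0]
      calc _ ≤ 1 * 1 := mul_le_mul hTy hG1 hG0 (by norm_num)
        _ = 1 := one_mul 1
    have e3 : (1 / 2 : ℝ) ^ b * (T * G) ≤ (1 / 2 : ℝ) ^ b * ((y : ℝ) / q) + 1 := by
      have e4 : (T : ℝ) * G ≤ y / q + 1 := by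
        calc (T : ℝ) * G ≤ T * 1 := mul_le_mul_of_nonneg_left hG1 (Nat.cast_nonneg _)
          _ ≤ y / q + 1 := by linarith
      calc (1 / 2 : ℝ) ^ b * (T * G) ≤ (1 / 2 : ℝ) ^ b * (y / q + 1) := mul_le_mul_of_nonneg_left e4 hb0.le
        _ ≤ _ := by rw [mul_add]; linarith
    linarith [h2, h3]
  have hfin : (z : ℝ) ^ (4 * (C0 * b) + 3) + 2 ≤ (z : ℝ) ^ ((4 * C0 + 4) * b) := by
    have e1 : (2 : ℝ) ≤ (z : ℝ) ^ (4 * (C0 * b) + 3) := by
      calc (2 : ℝ) ≤ z := hz2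
        _ = (z : ℝ) ^ 1 := (pow_one _).symm
        _ ≤ _ := pow_le_pow_right₀ hz1 (by omega)
    calc (z : ℝ) ^ (4 * (C0 * b) + 3) + 2 ≤ (z : ℝ) ^ (4 * (C0 * b) + 3) * z := by nlinarith
      _ = (z : ℝ) ^ (4 * (C0 * b) + 4) := (pow_succ _ _).symm
      _ ≤ (z : ℝ) ^ ((4 * C0 + 4) * b) := by
          apply pow_le_pow_right₀ hz1
          have : 1 ≤ b := by omega
          nlinarith
  linarith

/-- the size of a residue class -/
lemma card_cls_err (y q r : ℕ) (hq : 1 ≤ q) (hr : r < q) : |(#(cls y q r) : ℝ) - (y : ℝ) / q| ≤ 1 := by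
  have hqr : (0 : ℝ) < q := by exact_mod_cast hq
  have h1 : cls y q r = (Ioc 0 y).filter (· ≡ r [MOD q]) := by
    ext n
    rw [mem_cls, mem_filter, mem_Ioc, Nat.ModEq, Nat.mod_eq_of_lt hr]
    constructor
    · rintro ⟨⟨h1, h2⟩, h3⟩; exact ⟨⟨by omega, h2⟩, h3⟩
    · rintro ⟨⟨h1, h2⟩, h3⟩; exact ⟨⟨by omega, h2⟩, h3⟩
  have h2 := Nat.Ioc_filter_modEq_card 0 y (r := q) (by omega) r
  rw [← h1] at h2
  have f1 := Int.floor_le (((y : ℚ) - r) / q)
  have f2 := Int.lt_floor_add_one (((y : ℚ) - r) / q)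
  have f3 := Int.floor_le ((((0 : ℕ) : ℚ) - r) / q)
  have f4 := Int.lt_floor_add_one ((((0 : ℕ) : ℚ) - r) / q)
  obtain ⟨u, hu⟩ : ∃ u, u = ⌊((y : ℚ) - r) / q⌋ := ⟨_, rfl⟩
  obtain ⟨v, hv⟩ : ∃ v, v = ⌊(((0 : ℕ) : ℚ) - r) / q⌋ := ⟨_, rfl⟩
  rw [← hu] at f1 f2 h2
  rw [← hv] at f3 f4 h2
  have hq' : (0 : ℚ) < q := by exact_mod_cast hq
  have e : ((y : ℚ) - r) / q - (((0 : ℕ) : ℚ) - r) / q = y / q := by push_cast; ring
  have hy0 : (0 : ℚ) ≤ (y : ℚ) / q := by positivity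
  have g1 : ((u - v : ℤ) : ℚ) < y / q + 1 := by push_cast; linarith
  have g2 : (y : ℚ) / q - 1 < ((u - v : ℤ) : ℚ) := by push_cast; linarith
  have g3 : (-1 : ℤ) < u - v := by
    have : (((-1 : ℤ)) : ℚ) < ((u - v : ℤ) : ℚ) := by push_cast at g2 ⊢; linarith
    exact_mod_cast this
  have g4 : ((#(cls y q r) : ℕ) : ℤ) = u - v := by
    rw [h2, max_eq_left (by omega)]
  have g5 : ((#(cls y q r) : ℕ) : ℚ) = ((u - v : ℤ) : ℚ) := by exact_mod_cast g4
  rw [← g5] at g1 g2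
  have g1' : (#(cls y q r) : ℝ) < y / q + 1 := by
    have := (Rat.cast_lt (K := ℝ)).2 g1
    push_cast at this
    exact this
  have g2' : (y : ℝ) / q - 1 < (#(cls y q r) : ℝ) := by
    have := (Rat.cast_lt (K := ℝ)).2 g2
    push_cast at this
    exact this
  rw [abs_le]
  constructor <;> linarith

end Pool.Agent.H544.BC
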