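import Mathlib
import Pool.Agent.H544.BC.Four
import Pool.Agent.H544.LD.Loc
import Pool.Agent.H544.LD.Main
import Pool.Graph.R_pool_sql_team_seeded_63374d34.N913.MT.E1

/-!
The primes and their sieve model in residue classes: bounds in a single class.
-/

set_option autoImplicit false

namespace Pool.Agent.H544.BC
open Finset Polynomial
open Pool.Agent.H373R2.T7 (pz mem_pz Vz Vz_pos lamz lamz_nonneg lamz_le Vz_inv_small Vz_inv_le)
open Pool.Agent.H544.LD (cls cls_sum card_cls om Gz flcS num_pf)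
open Pool.Agent.Y889.PN (PS bvmax)

/-- the primes minus their model -/
noncomputable def fp (z m : ℕ) : ℝ := (if m.Prime then Real.log m else 0) - lamz z m

lemma tot_eq (n : ℕ) : (Nat.totient n : ℝ) = n * ∏ p ∈ n.primeFactors, (1 - 1 / (p : ℝ)) := by
  have h := Nat.totient_eq_mul_prod_factors n
  have h2 : ((Nat.totient n : ℚ) : ℝ) = ((n * ∏ p ∈ n.primeFactors, (1 - (p : ℚ)⁻¹) : ℚ) : ℝ) := by rw [h]
  push_cast at h2
  rw [h2]
  simp [one_div]

/-- a lower bound for `φ` -/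
lemma tot_lower (n : ℕ) : (n : ℝ) ≤ Nat.totient n * (#(n.primeFactors) + 1) := by
  have key : ∀ S : Finset ℕ, (∀ p ∈ S, 2 ≤ p) → 1 ≤ (∏ p ∈ S, (1 - 1 / (p : ℝ))) * (#S + 1) := by
    intro S
    induction S using Finset.induction_on_max with
    | empty => simp
    | insert a S ha ih =>
      intro hS
      have haS : a ∉ S := fun h => lt_irrefl _ (ha a h)
      have h1 := ih (fun p hp => hS p (mem_insert_of_mem hp))
      rw [prod_insert haS, card_insert_of_notMem haS]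
      have h2 : #S + 2 ≤ a := by
        have h3 : S ⊆ Ico 2 a := fun p hp => mem_Ico.2 ⟨hS p (mem_insert_of_mem hp), ha p hp⟩
        have h4 := card_le_card h3
        rw [Nat.card_Ico] at h4
        have := hS a (mem_insert_self _ _)
        omega
      have h2' : (#S : ℝ) + 2 ≤ a := by exact_mod_cast h2
      have ha0 : (0 : ℝ) < a := by
        have : (0 : ℝ) ≤ #S := Nat.cast_nonneg _
        linarith
      have hP : 0 ≤ ∏ p ∈ S, (1 - 1 / (p : ℝ)) := by
        apply prod_nonneg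
        intro p hp
        have : (2 : ℝ) ≤ p := by exact_mod_cast hS p (mem_insert_of_mem hp)
        rw [sub_nonneg, div_le_one (by linarith)]
        linarith
      have h5 : ((#S : ℝ) + 1) ≤ (1 - 1 / (a : ℝ)) * (((#S + 1 : ℕ) : ℝ) + 1) := by
        push_cast
        have h6 : (1 / (a : ℝ)) * ((#S : ℝ) + 1 + 1) ≤ 1 := by
          rw [one_div, inv_mul_le_iff₀ ha0]
          linarith
        nlinarith
      calc (1 : ℝ) ≤ (∏ p ∈ S, (1 - 1 / (p : ℝ))) * (#S + 1) := h1
        _ ≤ (∏ p ∈ S, (1 - 1 / (p : ℝ))) * ((1 - 1 / (a : ℝ)) * (((#S + 1 : ℕ) : ℝ) + 1)) := mul_le_mul_of_nonneg_left h5 hP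
        _ = _ := by ring
  have h := key n.primeFactors (fun p hp => (Nat.prime_of_mem_primeFactors hp).two_le)
  rw [tot_eq]
  have hn : (0 : ℝ) ≤ n := Nat.cast_nonneg _
  nlinarith

/-- primes in a class -/
lemma prime_cls (H q : ℕ) (hH : 1 ≤ H) (Mq : ℝ)
    (hM : ∀ a : ℕ, a.Coprime q → ∀ y : ℕ, y ≤ H → |PS y q a - y / (Nat.totient q : ℝ)| ≤ Mq) (κ y : ℕ) (hκ : κ < q)
    (hc : κ.Coprime q) (hy : y ≤ H) :
    |∑ m ∈ cls y q κ, (if m.Prime then Real.log m else 0) - y / (Nat.totient q : ℝ)| ≤ Mq + 2 * √(H : ℝ) * Real.log H := by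
  have h0 := Pool.Agent.N913.MT.lam_sub_th 0 H hH
  have h1 := hM κ hc y hy
  have h2 : |∑ m ∈ cls y q κ, (if m.Prime then Real.log m else 0) - PS y q κ| ≤ 2 * √(H : ℝ) * Real.log H := by
    have e0 : PS y q κ = ∑ m ∈ cls y q κ, ArithmeticFunction.vonMangoldt m := by
      unfold PS cls
      apply sum_congr _ (fun _ _ => rfl)
      ext n
      simp only [mem_filter, Nat.ModEq, Nat.mod_eq_of_lt hκ]
    rw [e0, ← sum_sub_distrib]
    refine (abs_sum_le_sum_abs _ _).trans ?_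
    have h3 : ∑ m ∈ cls y q κ, |(if m.Prime then Real.log m else 0) - ArithmeticFunction.vonMangoldt m| ≤
        ∑ u ∈ Icc 1 H, |ArithmeticFunction.vonMangoldt u - Pool.Agent.N913.MT.th 0 u| := by
      have h4 : ∀ m ∈ cls y q κ, |(if m.Prime then Real.log m else 0) - ArithmeticFunction.vonMangoldt m| =
          |ArithmeticFunction.vonMangoldt m - Pool.Agent.N913.MT.th 0 m| := by
        intro m _
        rw [abs_sub_comm]
        congr 2
        unfold Pool.Agent.N913.MT.th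
        by_cases hp : m.Prime
        · rw [if_pos hp, if_pos ⟨hp, hp.pos⟩]
        · rw [if_neg hp, if_neg (fun h => hp h.1)]
      rw [sum_congr rfl h4]
      apply sum_le_sum_of_subset_of_nonneg
      · intro m hm
        rw [mem_cls] at hm
        rw [mem_Icc]; omega
      · intro _ _ _; exact abs_nonneg _
    refine h3.trans (h0.trans (le_of_eq ?_))
    push_cast
    ring
  have h5 := abs_le.1 h1
  have h6 := abs_le.1 h2
  rw [abs_le]
  constructor <;> linarith [h5.1, h5.2, h6.1, h6.2]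

lemma om_X (p : ℕ) (hp : 1 ≤ p) : om (X : ℤ[X]) p = 1 := by
  unfold om
  rw [card_eq_one]
  refine ⟨0, ?_⟩
  ext n
  simp only [mem_filter, mem_range, eval_X, mem_singleton]
  constructor
  · rintro ⟨h1, h2⟩
    have : p ∣ n := by exact_mod_cast h2
    exact Nat.eq_zero_of_dvd_of_lt this h1
  · rintro rfl
    exact ⟨hp, by simp⟩

/-- the model in a class -/
lemma model_one (C1 z0 : ℕ) (hfl : ∀ b : ℕ, C1 ≤ b → ∀ z : ℕ, z0 ≤ z →
    ∀ (H : ℤ[X]) (q r y : ℕ), H.natDegree ≤ 1 → 1 ≤ q → r < q → Int.gcd (H.eval (r : ℤ)) q = 1 →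
    |(#((cls y q r).filter (fun n : ℕ => ∀ p ∈ pz z, ¬ (p : ℤ) ∣ H.eval (n : ℤ))) : ℝ) - (y : ℝ) / q * Gz H z q| ≤
      (1 / 2 : ℝ) ^ b * ((y : ℝ) / q) + (z : ℝ) ^ (C1 * b))
    (b z H q κ y : ℕ) (hb : C1 ≤ b) (hz : z0 ≤ z) (hz1 : 1 ≤ z) (hq : 1 ≤ q) (hqH : q ≤ H) (hH : 3 ≤ H) (hκ : κ < q) (hc : κ.Coprime q)
    (hy : y ≤ H) : |∑ m ∈ cls y q κ, lamz z m - y / (Nat.totient q : ℝ)| ≤
      H / (Nat.totient q : ℝ) * (2 * Real.log H / z) + (Vz z)⁻¹ * ((1 / 2 : ℝ) ^ b * ((H : ℝ) / q) + (z : ℝ) ^ (C1 * b)) := by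
  have hqr : (0 : ℝ) < q := by exact_mod_cast hq
  have hzr : (0 : ℝ) < z := by exact_mod_cast hz1
  have hV := Vz_pos z
  have hVi : 0 < (Vz z)⁻¹ := inv_pos.2 hV
  have hφ : (0 : ℝ) < Nat.totient q := by exact_mod_cast Nat.totient_pos.2 hq
  have h1 := hfl b hb z hz X q κ y (natDegree_X_le) hq hκ (by
    rw [eval_X, Int.gcd_natCast_natCast]; exact hc)
  have h2 : ∑ m ∈ cls y q κ, lamz z m = (Vz z)⁻¹ * #((cls y q κ).filter (fun n : ℕ => ∀ p ∈ pz z, ¬ (p : ℤ) ∣ (X : ℤ[X]).eval (n : ℤ))) := by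
    have h3 : ∀ m ∈ cls y q κ, lamz z m = if (∀ p ∈ pz z, ¬ (p : ℤ) ∣ (X : ℤ[X]).eval (m : ℤ)) then (Vz z)⁻¹ else 0 := by
      intro m _
      unfold lamz
      congr 1
      simp only [eval_X, Int.natCast_dvd_natCast]
    rw [sum_congr rfl h3, ← sum_filter, sum_const, nsmul_eq_mul, mul_comm]
  -- the densities
  set S1 := q.primeFactors.filter (fun p => p ≤ z) with hS1
  set S2 := q.primeFactors.filter (fun p => ¬ p ≤ z) with hS2
  set T1 := ∏ p ∈ S1, (1 - 1 / (p : ℝ)) with hT1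
  set T2 := ∏ p ∈ S2, (1 - 1 / (p : ℝ)) with hT2
  have hpf : ∀ p ∈ q.primeFactors, (0 : ℝ) < 1 - 1 / (p : ℝ) ∧ 1 - 1 / (p : ℝ) ≤ 1 := by
    intro p hp
    have : (2 : ℝ) ≤ p := by exact_mod_cast (Nat.prime_of_mem_primeFactors hp).two_le
    constructor
    · rw [sub_pos, div_lt_one (by linarith)]; linarith
    · have : (0 : ℝ) ≤ 1 / p := by positivity
      linarith
  have hT1p : 0 < T1 := prod_pos fun p hp => (hpf p (mem_filter.1 hp).1).1
  have hT2p : 0 < T2 := prod_pos fun p hp => (hpf p (mem_filter.1 hp).1).1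
  have hT2l : T2 ≤ 1 := prod_le_one (fun p hp => (hpf p (mem_filter.1 hp).1).1.le) (fun p hp => (hpf p (mem_filter.1 hp).1).2)
  have hφ2 : (Nat.totient q : ℝ) = q * (T1 * T2) := by
    rw [tot_eq, hT1, hT2, prod_filter_mul_prod_filter_not]
  have hG : Vz z = T1 * Gz (X : ℤ[X]) z q := by
    unfold Vz Gz
    rw [← prod_filter_mul_prod_filter_not (pz z) (fun p => p ∣ q)]
    congr 1
    · apply prod_congr _ (fun _ _ => rfl)
      ext p
      rw [hS1, mem_filter, mem_filter, mem_pz, Nat.mem_primeFactors]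
      constructor
      · rintro ⟨⟨h3, h4⟩, h5⟩
        exact ⟨⟨h4, h5, by omega⟩, h3⟩
      · rintro ⟨⟨h3, h4, _⟩, h5⟩
        exact ⟨⟨h5, h3⟩, h4⟩
    · apply prod_congr rfl
      intro p hp
      rw [mem_filter, mem_pz] at hp
      rw [om_X p hp.1.2.pos, Nat.cast_one]
  have hGe : (Vz z)⁻¹ * Gz (X : ℤ[X]) z q = q * T2 / Nat.totient q := by
    rw [hφ2, hG]
    have hGp : Gz (X : ℤ[X]) z q ≠ 0 := by
      intro h
      rw [h, mul_zero] at hG
      rw [hG] at hV
      exact lt_irrefl _ hV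
    field_simp
  have hT2g : 1 - 2 * Real.log H / z ≤ T2 := by
    have h3 := Pool.Agent.H544.LD.prod_ge S2 (fun p => 1 - 1 / (p : ℝ)) (1 / z) (by
      rw [div_le_one hzr]; exact_mod_cast hz1) (fun p hp => by
        have h4 : ¬ p ≤ z := (mem_filter.1 hp).2
        have h5 : (z : ℝ) ≤ p := by exact_mod_cast (by omega : z ≤ p)
        have : 1 / (p : ℝ) ≤ 1 / z := one_div_le_one_div_of_le hzr h5
        linarith) (fun p hp => (hpf p (mem_filter.1 hp).1).1.le) (fun p hp => (hpf p (mem_filter.1 hp).1).2)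
    have h4 := num_pf q H hq hqH hH
    have h5 : (#S2 : ℝ) ≤ 2 * Real.log H := by
      have : #S2 ≤ #(q.primeFactors) := card_le_card (filter_subset _ _)
      have : (#S2 : ℝ) ≤ #(q.primeFactors) := by exact_mod_cast this
      linarith
    have h6 : (#S2 : ℝ) * (1 / z) ≤ 2 * Real.log H / z := by
      rw [mul_one_div]
      exact div_le_div_of_nonneg_right h5 hzr.le
    linarith
  -- assembly
  have hyH : (y : ℝ) ≤ H := by exact_mod_cast hy
  have hy0 : (0 : ℝ) ≤ y := Nat.cast_nonneg _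
  have e1 : ∑ m ∈ cls y q κ, lamz z m - y / (Nat.totient q : ℝ) =
      (Vz z)⁻¹ * (#((cls y q κ).filter (fun n : ℕ => ∀ p ∈ pz z, ¬ (p : ℤ) ∣ (X : ℤ[X]).eval (n : ℤ))) - (y : ℝ) / q * Gz (X : ℤ[X]) z q) -
        y / (Nat.totient q : ℝ) * (1 - T2) := by
    rw [h2]
    have h3 : (Vz z)⁻¹ * ((y : ℝ) / q * Gz (X : ℤ[X]) z q) = y / (Nat.totient q : ℝ) * T2 := by
      calc (Vz z)⁻¹ * ((y : ℝ) / q * Gz (X : ℤ[X]) z q) = (y : ℝ) / q * ((Vz z)⁻¹ * Gz (X : ℤ[X]) z q) := by ring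
        _ = (y : ℝ) / q * (q * T2 / Nat.totient q) := by rw [hGe]
        _ = _ := by field_simp
    rw [mul_sub, h3]
    ring
  rw [e1]
  refine (abs_sub _ _).trans ?_
  rw [add_comm]
  apply add_le_add
  · rw [abs_mul, abs_of_nonneg (by positivity : 0 ≤ (y : ℝ) / Nat.totient q), abs_of_nonneg (by linarith)]
    apply mul_le_mul (div_le_div_of_nonneg_right hyH hφ.le) (by linarith) (by linarith) (by positivity)
  · rw [abs_mul, abs_of_pos hVi]
    apply mul_le_mul_of_nonneg_left _ hVi.le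
    refine h1.trans ?_
    apply add_le_add _ le_rfl
    apply mul_le_mul_of_nonneg_left _ (by positivity)
    exact div_le_div_of_nonneg_right hyH hqr.le

/-- the classes which are not coprime to the modulus -/
lemma noncop (z H q κ y : ℕ) (hq : 1 ≤ q) (hqH : q ≤ H) (hH : 3 ≤ H) (hκ : κ < q) (hc : ¬ κ.Coprime q) (hy : y ≤ H) :
    |∑ m ∈ cls y q κ, fp z m| ≤ 2 * Real.log H ^ 2 +
      (if ∃ p ∈ q.primeFactors, z < p ∧ p ∣ κ then (Vz z)⁻¹ * (2 * H / q) else 0) := by
  have hqr : (0 : ℝ) < q := by exact_mod_cast hq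
  have hlog : 0 ≤ Real.log H := Real.log_natCast_nonneg H
  have hV := Vz_pos z
  have hVi : 0 < (Vz z)⁻¹ := inv_pos.2 hV
  unfold fp
  rw [sum_sub_distrib]
  refine (abs_sub _ _).trans ?_
  apply add_le_add
  · rw [abs_of_nonneg (sum_nonneg fun m _ => by split_ifs; exact Real.log_natCast_nonneg m; exact le_rfl)]
    have h1 : ∑ m ∈ cls y q κ, (if m.Prime then Real.log m else 0) ≤ ∑ m ∈ q.primeFactors, Real.log H := by
      rw [← sum_filter]
      have h2 : (cls y q κ).filter Nat.Prime ⊆ q.primeFactors := by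
        intro m hm
        rw [mem_filter, mem_cls] at hm
        rw [Nat.mem_primeFactors]
        refine ⟨hm.2, ?_, by omega⟩
        by_contra h3
        apply hc
        have h4 : m.Coprime q := (Nat.Prime.coprime_iff_not_dvd hm.2).2 h3
        rw [← hm.1.2]
        unfold Nat.Coprime at h4 ⊢
        rw [← h4]
        exact Nat.gcd_rec q m ▸ (Nat.gcd_comm m q ▸ rfl)
      calc ∑ m ∈ (cls y q κ).filter Nat.Prime, Real.log m ≤ ∑ m ∈ (cls y q κ).filter Nat.Prime, Real.log H := by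
            apply sum_le_sum
            intro m hm
            rw [mem_filter, mem_cls] at hm
            exact Real.log_le_log (by exact_mod_cast hm.2.pos) (by exact_mod_cast (by omega : m ≤ H))
        _ ≤ ∑ m ∈ q.primeFactors, Real.log H := sum_le_sum_of_subset_of_nonneg h2 (fun _ _ _ => hlog)
    refine h1.trans ?_
    rw [sum_const, nsmul_eq_mul, sq, ← mul_assoc]
    exact mul_le_mul_of_nonneg_right (num_pf q H hq hqH hH) hlog
  · rw [abs_of_nonneg (sum_nonneg fun m _ => lamz_nonneg z m)]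
    split_ifs with h1
    · have h2 : ∑ m ∈ cls y q κ, lamz z m ≤ ∑ m ∈ cls y q κ, (Vz z)⁻¹ := by
        apply sum_le_sum
        intro m _
        unfold lamz
        split_ifs
        · exact le_rfl
        · exact hVi.le
      refine h2.trans ?_
      rw [sum_const, nsmul_eq_mul, mul_comm]
      apply mul_le_mul_of_nonneg_left _ hVi.le
      exact card_cls H y q κ q hq hqH hy le_rfl hκ
    · apply le_of_eq
      apply sum_eq_zero
      intro m hm
      rw [mem_cls] at hm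
      -- a common prime p ≤ z
      obtain ⟨p, hp, hpκ, hpq⟩ := Nat.Prime.not_coprime_iff_dvd.1 hc
      have hpz : p ≤ z := by
        by_contra h2
        exact h1 ⟨p, Nat.mem_primeFactors.2 ⟨hp, hpq, by omega⟩, by omega, hpκ⟩
      unfold lamz
      rw [if_neg]
      intro h2
      apply h2 p (mem_pz.2 ⟨hpz, hp⟩)
      have h3 := Nat.mod_add_div m q
      rw [← h3, hm.2]
      exact dvd_add hpκ (hpq.mul_right _)

end Pool.Agent.H544.BC
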