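import Mathlib
import Pool.Agent.H544.BC.Var1

/-!
The variance of the primes in all residue classes to small moduli (from the theorem of Bombieri and Vinogradov).
-/

set_option autoImplicit false

namespace Pool.Agent.H544.BC
open Finset Polynomial
open Pool.Agent.H373R2.T7 (pz mem_pz Vz Vz_pos lamz lamz_nonneg lamz_le Vz_inv_small Vz_inv_le)
open Pool.Agent.H544.LD (cls cls_sum card_cls om Gz flcS num_pf)
open Pool.Agent.Y889.PN (PS bvmax)

/-- the largest discrepancy in a class -/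
noncomputable def mx (z H q κ : ℕ) : ℝ := (range (H + 1)).sup' ⟨0, mem_range.2 (Nat.succ_pos H)⟩ (fun y => |∑ m ∈ cls y q κ, fp z m|)

lemma le_mx (z H q κ y : ℕ) (hy : y ≤ H) : |∑ m ∈ cls y q κ, fp z m| ≤ mx z H q κ :=
  le_sup' (f := fun y => |∑ m ∈ cls y q κ, fp z m|) (mem_range.2 (by omega))

lemma mx_le (z H q κ : ℕ) (B : ℝ) (h : ∀ y, y ≤ H → |∑ m ∈ cls y q κ, fp z m| ≤ B) : mx z H q κ ≤ B :=
  sup'_le _ _ (fun y hy => h y (by rw [mem_range] at hy; omega))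

lemma mx_nonneg (z H q κ : ℕ) : 0 ≤ mx z H q κ := (abs_nonneg _).trans (le_mx z H q κ 0 (Nat.zero_le _))

/-- the total variance -/
noncomputable def vr (z H q : ℕ) : ℝ := ∑ κ ∈ range q, mx z H q κ ^ 2

lemma vr_nonneg (z H q : ℕ) : 0 ≤ vr z H q := sum_nonneg fun _ _ => sq_nonneg _

lemma fp_le (z H m : ℕ) (hH : 1 ≤ H) (hV : (Vz z)⁻¹ ≤ Real.log H) (hm : m ≤ H) : |fp z m| ≤ 2 * Real.log H := by
  unfold fp
  have hVi : 0 < (Vz z)⁻¹ := inv_pos.2 (Vz_pos z)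
  have h1 : 0 ≤ (if m.Prime then Real.log m else 0) ∧ (if m.Prime then Real.log m else 0) ≤ Real.log H := by
    split_ifs with h
    · exact ⟨Real.log_natCast_nonneg m, Real.log_le_log (by exact_mod_cast h.pos) (by exact_mod_cast hm)⟩
    · exact ⟨le_rfl, Real.log_natCast_nonneg H⟩
  have h2 : 0 ≤ lamz z m ∧ lamz z m ≤ Real.log H := by
    refine ⟨lamz_nonneg z m, ?_⟩
    unfold lamz
    split_ifs
    · exact hV
    · exact Real.log_natCast_nonneg H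
  rw [abs_le]
  constructor <;> linarith [h1.1, h1.2, h2.1, h2.2]

/-- the trivial bound -/
lemma vr_triv (z H q : ℕ) (hq : 1 ≤ q) (hqH : q ≤ H) (hV : (Vz z)⁻¹ ≤ Real.log H) :
    vr z H q ≤ 16 * H ^ 2 * Real.log H ^ 2 / q := by
  have hqr : (0 : ℝ) < q := by exact_mod_cast hq
  have hlog : 0 ≤ Real.log H := Real.log_natCast_nonneg H
  have h1 : ∀ κ ∈ range q, mx z H q κ ^ 2 ≤ (2 * H / q * (2 * Real.log H)) ^ 2 := by
    intro κ hκ
    rw [mem_range] at hκ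
    apply pow_le_pow_left₀ (mx_nonneg _ _ _ _)
    apply mx_le
    intro y hy
    refine (abs_sum_le_sum_abs _ _).trans ?_
    have h2 : ∀ m ∈ cls y q κ, |fp z m| ≤ 2 * Real.log H := by
      intro m hm
      rw [mem_cls] at hm
      exact fp_le z H m (by omega) hV (by omega)
    refine (sum_le_sum h2).trans ?_
    rw [sum_const, nsmul_eq_mul]
    exact mul_le_mul_of_nonneg_right (card_cls H y q κ q hq hqH hy le_rfl hκ) (by positivity)
  refine (sum_le_sum h1).trans (le_of_eq ?_)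
  rw [sum_const, card_range, nsmul_eq_mul]
  field_simp
  ring

/-- the number of classes with a large common prime -/
lemma card_bad (z H q : ℕ) (hz : 1 ≤ z) (hq : 1 ≤ q) (hqH : q ≤ H) (hH : 3 ≤ H) :
    (#((range q).filter (fun κ => ∃ p ∈ q.primeFactors, z < p ∧ p ∣ κ)) : ℝ) ≤ 2 * Real.log H * (q / z) := by
  have hzr : (0 : ℝ) < z := by exact_mod_cast hz
  have h1 : (range q).filter (fun κ => ∃ p ∈ q.primeFactors, z < p ∧ p ∣ κ) ⊆
      (q.primeFactors.filter (fun p => z < p)).biUnion (fun p => (range q).filter (fun κ => p ∣ κ)) := by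
    intro κ hκ
    rw [mem_filter] at hκ
    obtain ⟨h2, p, hp, hzp, hpκ⟩ := hκ
    rw [mem_biUnion]
    exact ⟨p, mem_filter.2 ⟨hp, hzp⟩, mem_filter.2 ⟨h2, hpκ⟩⟩
  have h2 : ∀ p ∈ q.primeFactors.filter (fun p => z < p), (#((range q).filter (fun κ => p ∣ κ)) : ℝ) ≤ q / z := by
    intro p hp
    rw [mem_filter] at hp
    have hpp := Nat.prime_of_mem_primeFactors hp.1
    obtain ⟨k, hk⟩ := Nat.dvd_of_mem_primeFactors hp.1
    have h3 : (range q).filter (fun κ => p ∣ κ) ⊆ (range k).image (fun j => p * j) := by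
      intro κ hκ
      rw [mem_filter, mem_range] at hκ
      obtain ⟨j, hj⟩ := hκ.2
      rw [mem_image]
      refine ⟨j, ?_, hj.symm⟩
      rw [mem_range]
      rw [hj, hk] at hκ
      exact Nat.lt_of_mul_lt_mul_left hκ.1
    have h4 : #((range q).filter (fun κ => p ∣ κ)) ≤ k := by
      calc _ ≤ #((range k).image (fun j => p * j)) := card_le_card h3
        _ ≤ #(range k) := card_image_le
        _ = k := card_range k
    have h5 : (k : ℝ) = q / p := by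
      have hp0 : (p : ℝ) ≠ 0 := by exact_mod_cast hpp.ne_zero
      rw [eq_div_iff hp0]
      exact_mod_cast (by rw [hk]; ring : k * p = q)
    calc (#((range q).filter (fun κ => p ∣ κ)) : ℝ) ≤ k := by exact_mod_cast h4
      _ = q / p := h5
      _ ≤ q / z := div_le_div_of_nonneg_left (Nat.cast_nonneg _) hzr (by exact_mod_cast hp.2.le)
  calc (#((range q).filter (fun κ => ∃ p ∈ q.primeFactors, z < p ∧ p ∣ κ)) : ℝ) ≤
      #((q.primeFactors.filter (fun p => z < p)).biUnion (fun p => (range q).filter (fun κ => p ∣ κ))) := by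
        exact_mod_cast card_le_card h1
    _ ≤ ∑ p ∈ q.primeFactors.filter (fun p => z < p), (#((range q).filter (fun κ => p ∣ κ)) : ℝ) := by
        exact_mod_cast card_biUnion_le
    _ ≤ ∑ p ∈ q.primeFactors.filter (fun p => z < p), (q : ℝ) / z := sum_le_sum h2
    _ = #(q.primeFactors.filter (fun p => z < p)) * ((q : ℝ) / z) := by rw [sum_const, nsmul_eq_mul]
    _ ≤ _ := by
        apply mul_le_mul_of_nonneg_right _ (by positivity)
        have h3 := num_pf q H hq hqH hH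
        have h4 : (#(q.primeFactors.filter (fun p => z < p)) : ℝ) ≤ #(q.primeFactors) := by
          exact_mod_cast card_le_card (filter_subset _ _)
        linarith

/-- the variance to one modulus -/
lemma vr_one (C1 z0 : ℕ) (hfl : ∀ b : ℕ, C1 ≤ b → ∀ z : ℕ, z0 ≤ z →
    ∀ (H : ℤ[X]) (q r y : ℕ), H.natDegree ≤ 1 → 1 ≤ q → r < q → Int.gcd (H.eval (r : ℤ)) q = 1 →
    |(#((cls y q r).filter (fun n : ℕ => ∀ p ∈ pz z, ¬ (p : ℤ) ∣ H.eval (n : ℤ))) : ℝ) - (y : ℝ) / q * Gz H z q| ≤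
      (1 / 2 : ℝ) ^ b * ((y : ℝ) / q) + (z : ℝ) ^ (C1 * b))
    (b z H q : ℕ) (hb : C1 ≤ b) (hz : z0 ≤ z) (hz1 : 1 ≤ z) (hq : 1 ≤ q) (hqH : q ≤ H) (hH : 3 ≤ H)
    (hV : (Vz z)⁻¹ ≤ Real.log H) (Mq : ℝ) (hM0 : 0 ≤ Mq)
    (hM : ∀ a : ℕ, a.Coprime q → ∀ y : ℕ, y ≤ H → |PS y q a - y / (Nat.totient q : ℝ)| ≤ Mq)
    (hM2 : Mq ≤ 2 * H * Real.log H / (Nat.totient q : ℝ)) :
    vr z H q ≤ 8 * H * Real.log H * Mq + 16 * q * H * Real.log H ^ 2 + 64 * H ^ 2 * Real.log H ^ 3 / (q * z) +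
      8 * Real.log H ^ 2 * (1 / 4 : ℝ) ^ b * H ^ 2 / q + 8 * Real.log H ^ 2 * q * (z : ℝ) ^ (2 * (C1 * b)) + 8 * q * Real.log H ^ 4 := by
  obtain ⟨ℓ, hℓ⟩ : ∃ ℓ, ℓ = Real.log H := ⟨_, rfl⟩
  have hH3 : (3 : ℝ) ≤ H := by exact_mod_cast hH
  have hℓ1 : 1 ≤ ℓ := by
    rw [hℓ, Real.le_log_iff_exp_le (by linarith)]
    have := Real.exp_one_lt_d9
    linarith
  have hqr : (0 : ℝ) < q := by exact_mod_cast hq
  have hq1 : (1 : ℝ) ≤ q := by exact_mod_cast hq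
  have hzr : (0 : ℝ) < z := by exact_mod_cast hz1
  have hz1r : (1 : ℝ) ≤ z := by exact_mod_cast hz1
  have hHr : (0 : ℝ) < H := by linarith
  have hφ : (0 : ℝ) < Nat.totient q := by exact_mod_cast Nat.totient_pos.2 hq
  have hφq : (Nat.totient q : ℝ) ≤ q := by exact_mod_cast Nat.totient_le q
  have hφl : (q : ℝ) ≤ Nat.totient q * (3 * ℓ) := by
    have h1 := tot_lower q
    have h2 := num_pf q H hq hqH hH
    rw [← hℓ] at h2
    refine h1.trans ?_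
    apply mul_le_mul_of_nonneg_left _ hφ.le
    linarith
  have hVi : 0 < (Vz z)⁻¹ := inv_pos.2 (Vz_pos z)
  rw [← hℓ] at hV hM2 ⊢
  obtain ⟨s, hs⟩ : ∃ s, s = 2 * √(H : ℝ) * ℓ := ⟨_, rfl⟩
  have hs0 : 0 ≤ s := by rw [hs]; positivity
  have hs2 : s ^ 2 = 4 * H * ℓ ^ 2 := by
    rw [hs, mul_pow, mul_pow, Real.sq_sqrt hHr.le]; ring
  obtain ⟨e1, he1⟩ : ∃ e1, e1 = H / (Nat.totient q : ℝ) * (2 * ℓ / z) := ⟨_, rfl⟩
  obtain ⟨e2, he2⟩ : ∃ e2, e2 = (Vz z)⁻¹ * ((1 / 2 : ℝ) ^ b * ((H : ℝ) / q) + (z : ℝ) ^ (C1 * b)) := ⟨_, rfl⟩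
  have he10 : 0 ≤ e1 := by rw [he1]; positivity
  have he20 : 0 ≤ e2 := by rw [he2]; positivity
  have hcop : ∀ κ ∈ (range q).filter (fun κ => κ.Coprime q), mx z H q κ ^ 2 ≤ 4 * (Mq ^ 2 + s ^ 2 + e1 ^ 2 + e2 ^ 2) := by
    intro κ hκ
    rw [mem_filter, mem_range] at hκ
    have h1 : mx z H q κ ≤ Mq + s + e1 + e2 := by
      apply mx_le
      intro y hy
      have h2 := prime_cls H q (by omega) Mq hM κ y hκ.1 hκ.2 hy
      have h3 := model_one C1 z0 hfl b z H q κ y hb hz hz1 hq hqH hH hκ.1 hκ.2 hy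
      rw [← hℓ] at h2 h3
      rw [← hs] at h2
      rw [← he1, ← he2] at h3
      unfold fp
      rw [sum_sub_distrib]
      have h4 := abs_le.1 h2
      have h5 := abs_le.1 h3
      rw [abs_le]
      constructor <;> linarith [h4.1, h4.2, h5.1, h5.2]
    have h2 := pow_le_pow_left₀ (mx_nonneg z H q κ) h1 2
    nlinarith [sq_nonneg (Mq - s), sq_nonneg (Mq - e1), sq_nonneg (Mq - e2), sq_nonneg (s - e1), sq_nonneg (s - e2), sq_nonneg (e1 - e2)]
  have hncop : ∀ κ ∈ (range q).filter (fun κ => ¬ κ.Coprime q), mx z H q κ ^ 2 ≤ 8 * ℓ ^ 4 +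
      (if ∃ p ∈ q.primeFactors, z < p ∧ p ∣ κ then 2 * (ℓ * (2 * H / q)) ^ 2 else 0) := by
    intro κ hκ
    rw [mem_filter, mem_range] at hκ
    have h1 : mx z H q κ ≤ 2 * ℓ ^ 2 + (if ∃ p ∈ q.primeFactors, z < p ∧ p ∣ κ then ℓ * (2 * H / q) else 0) := by
      apply mx_le
      intro y hy
      refine (noncop z H q κ y hq hqH hH hκ.1 hκ.2 hy).trans ?_
      rw [← hℓ]
      apply add_le_add le_rfl
      split_ifs
      · exact mul_le_mul_of_nonneg_right hV (by positivity)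
      · exact le_rfl
    have h2 := pow_le_pow_left₀ (mx_nonneg z H q κ) h1 2
    split_ifs at h2 ⊢
    · nlinarith [sq_nonneg (2 * ℓ ^ 2 - ℓ * (2 * H / q))]
    · nlinarith [sq_nonneg (ℓ ^ 2)]
  unfold vr
  rw [← sum_filter_add_sum_filter_not (range q) (fun κ => κ.Coprime q)]
  have h1 : ∑ κ ∈ (range q).filter (fun κ => κ.Coprime q), mx z H q κ ^ 2 ≤ Nat.totient q * (4 * (Mq ^ 2 + s ^ 2 + e1 ^ 2 + e2 ^ 2)) := by
    refine (sum_le_sum hcop).trans (le_of_eq ?_)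
    rw [sum_const, nsmul_eq_mul]
    congr 2
    rw [Nat.totient_eq_card_coprime]
    congr 1
    ext κ
    simp only [mem_filter, Nat.coprime_comm]
  have h2 : ∑ κ ∈ (range q).filter (fun κ => ¬ κ.Coprime q), mx z H q κ ^ 2 ≤ q * (8 * ℓ ^ 4) + 2 * ℓ * (q / z) * (2 * (ℓ * (2 * H / q)) ^ 2) := by
    refine (sum_le_sum hncop).trans ?_
    rw [sum_add_distrib]
    apply add_le_add
    · rw [sum_const, nsmul_eq_mul]
      apply mul_le_mul_of_nonneg_right _ (by positivity)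
      calc (#((range q).filter (fun κ => ¬ κ.Coprime q)) : ℝ) ≤ #(range q) := by exact_mod_cast card_le_card (filter_subset _ _)
        _ = q := by rw [card_range]
    · rw [← sum_filter, sum_const, nsmul_eq_mul]
      apply mul_le_mul_of_nonneg_right _ (by positivity)
      have h3 := card_bad z H q hz1 hq hqH hH
      rw [← hℓ] at h3
      refine le_trans ?_ h3
      have h4 : ((range q).filter (fun κ => ¬ κ.Coprime q)).filter (fun κ => ∃ p ∈ q.primeFactors, z < p ∧ p ∣ κ) ⊆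
          (range q).filter (fun κ => ∃ p ∈ q.primeFactors, z < p ∧ p ∣ κ) := by
        intro κ hκ
        rw [mem_filter, mem_filter] at hκ
        exact mem_filter.2 ⟨hκ.1.1, hκ.2⟩
      exact_mod_cast card_le_card h4
  refine (add_le_add h1 h2).trans ?_
  -- the four pieces
  have p1 : (Nat.totient q : ℝ) * (4 * Mq ^ 2) ≤ 8 * H * ℓ * Mq := by
    have h3 : (Nat.totient q : ℝ) * Mq ≤ 2 * H * ℓ := by
      rw [le_div_iff₀ hφ] at hM2; linarith
    nlinarith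
  have p2 : (Nat.totient q : ℝ) * (4 * s ^ 2) ≤ 16 * q * H * ℓ ^ 2 := by
    rw [hs2]
    have : (Nat.totient q : ℝ) * (H * ℓ ^ 2) ≤ q * (H * ℓ ^ 2) := mul_le_mul_of_nonneg_right hφq (by positivity)
    nlinarith
  have p3 : (Nat.totient q : ℝ) * (4 * e1 ^ 2) ≤ 48 * H ^ 2 * ℓ ^ 3 / (q * z) := by
    have h3 : (Nat.totient q : ℝ) * (4 * e1 ^ 2) = 16 * H ^ 2 * ℓ ^ 2 / (Nat.totient q * z ^ 2) := by
      rw [he1]; field_simp; ring
    rw [h3, div_le_div_iff₀ (by positivity) (by positivity)]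
    have h4 : 16 * (H : ℝ) ^ 2 * ℓ ^ 2 * (q * z) ≤ 16 * (H : ℝ) ^ 2 * ℓ ^ 2 * ((Nat.totient q * (3 * ℓ)) * z ^ 2) := by
      apply mul_le_mul_of_nonneg_left _ (by positivity)
      apply mul_le_mul hφl _ hzr.le (by positivity)
      nlinarith
    refine h4.trans (le_of_eq ?_)
    ring
  have p4 : (Nat.totient q : ℝ) * (4 * e2 ^ 2) ≤ 8 * ℓ ^ 2 * (1 / 4 : ℝ) ^ b * H ^ 2 / q + 8 * ℓ ^ 2 * q * (z : ℝ) ^ (2 * (C1 * b)) := by
    have h3 : e2 ^ 2 ≤ ℓ ^ 2 * (2 * (((1 / 2 : ℝ) ^ b * ((H : ℝ) / q)) ^ 2 + ((z : ℝ) ^ (C1 * b)) ^ 2)) := by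
      rw [he2, mul_pow]
      apply mul_le_mul (pow_le_pow_left₀ hVi.le hV 2) _ (by positivity) (by positivity)
      nlinarith [sq_nonneg ((1 / 2 : ℝ) ^ b * ((H : ℝ) / q) - (z : ℝ) ^ (C1 * b))]
    have h4 : (Nat.totient q : ℝ) * (4 * e2 ^ 2) ≤ q * (4 * (ℓ ^ 2 * (2 * (((1 / 2 : ℝ) ^ b * ((H : ℝ) / q)) ^ 2 + ((z : ℝ) ^ (C1 * b)) ^ 2)))) := by
      apply mul_le_mul hφq _ (by positivity) (by positivity)
      linarith
    refine h4.trans (le_of_eq ?_)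
    have h5 : ((1 / 2 : ℝ) ^ b) ^ 2 = (1 / 4 : ℝ) ^ b := by
      rw [← pow_mul, mul_comm b 2, pow_mul]; norm_num
    rw [mul_pow ((1 / 2 : ℝ) ^ b), h5, ← pow_mul, mul_comm (C1 * b) 2]
    field_simp
    ring
  have p5 : 2 * ℓ * ((q : ℝ) / z) * (2 * (ℓ * (2 * H / q)) ^ 2) = 16 * H ^ 2 * ℓ ^ 3 / (q * z) := by
    field_simp; ring
  rw [p5]
  have p6 : 64 * (H : ℝ) ^ 2 * ℓ ^ 3 / (q * z) = 48 * H ^ 2 * ℓ ^ 3 / (q * z) + 16 * H ^ 2 * ℓ ^ 3 / (q * z) := by ring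
  rw [p6]
  have p7 : (Nat.totient q : ℝ) * (4 * (Mq ^ 2 + s ^ 2 + e1 ^ 2 + e2 ^ 2)) =
      (Nat.totient q : ℝ) * (4 * Mq ^ 2) + (Nat.totient q : ℝ) * (4 * s ^ 2) + (Nat.totient q : ℝ) * (4 * e1 ^ 2) + (Nat.totient q : ℝ) * (4 * e2 ^ 2) := by ring
  rw [p7]
  linarith

end Pool.Agent.H544.BC
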