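import Mathlib
import Pool.Agent.H544.BC.Var2
import Pool.Graph.R_pool_sql_team_seeded_63374d34.N913.MT.E2

/-!
The variance of the primes in all residue classes to small moduli: summation.
-/

set_option autoImplicit false

namespace Pool.Agent.H544.BC
open Finset Polynomial Filter
open Pool.Agent.H373R2.T7 (pz mem_pz Vz Vz_pos lamz lamz_nonneg lamz_le Vz_inv_small Vz_inv_le)
open Pool.Agent.H544.LD (cls cls_sum card_cls om Gz flcS num_pf)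
open Pool.Agent.Y889.PN (PS bvmax)
open Pool.Agent.N913.MT (evt_log_pow evt_log_ge)

lemma sum_inv_le (Q H : ℕ) (hQ : Q ≤ H) (hH : 3 ≤ H) : ∑ q ∈ Icc 1 Q, 1 / (q : ℝ) ≤ 2 * Real.log H := by
  have hH3 : (3 : ℝ) ≤ H := by exact_mod_cast hH
  have hℓ1 : 1 ≤ Real.log H := by
    rw [Real.le_log_iff_exp_le (by linarith)]
    have := Real.exp_one_lt_d9
    linarith
  have h1 : ∑ q ∈ Icc 1 Q, 1 / (q : ℝ) ≤ ∑ q ∈ Icc 1 H, 1 / (q : ℝ) :=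
    sum_le_sum_of_subset_of_nonneg (Icc_subset_Icc_right hQ) (fun _ _ _ => by positivity)
  have h2 := harmonic_le_one_add_log H
  have h3 : ((harmonic H : ℚ) : ℝ) = ∑ q ∈ Icc 1 H, 1 / (q : ℝ) := by
    rw [harmonic_eq_sum_Icc]
    push_cast
    apply sum_congr rfl
    intro i _
    rw [one_div]
  rw [h3] at h2
  linarith

lemma evt_loglog (K : ℝ) : ∀ᶠ H : ℕ in atTop, K * Real.log (Real.log H) ^ 2 ≤ Real.log H ∧ 1 ≤ Real.log (Real.log H) := by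
  have hlim : Tendsto (fun N : ℕ => Real.log (N : ℝ)) atTop atTop :=
    Real.tendsto_log_atTop.comp (tendsto_natCast_atTop_atTop (R := ℝ))
  have h3 := (Real.isLittleO_pow_log_id_atTop (n := 2)).bound (show (0 : ℝ) < 1 / (|K| + 1) by positivity)
  have h4 := hlim.eventually h3
  have h5 := hlim.eventually (Real.tendsto_log_atTop.eventually (eventually_ge_atTop 1))
  have h6 := hlim.eventually (eventually_ge_atTop 0)
  filter_upwards [h4, h5, h6] with H g4 g5 g6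
  refine ⟨?_, g5⟩
  simp only [id] at g4
  rw [Real.norm_of_nonneg (by positivity), Real.norm_of_nonneg g6, one_div, inv_mul_eq_div, le_div_iff₀ (by positivity)] at g4
  have h7 : K ≤ |K| := le_abs_self K
  nlinarith [sq_nonneg (Real.log (Real.log (H : ℝ)))]

/-- **The variance of the primes in all classes to small moduli.** -/
theorem var_sum (V : ℕ) : ∃ E0 : ℕ, ∀ E : ℕ, ∃ H0 : ℕ, ∀ H : ℕ, H0 ≤ H → ∀ z : ℕ, Real.log H ^ E0 ≤ z → (z : ℝ) ≤ Real.log H ^ E →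
    ∀ Q : ℕ, Q ^ 8 ≤ H → ∑ q ∈ Icc 1 Q, vr z H q ≤ H ^ 2 / Real.log H ^ V := by
  obtain ⟨C1, z0, hC1, hz0, hfl⟩ := flcS 1
  obtain ⟨B, X0, hbv⟩ := bvmax (V + 2)
  refine ⟨V + 5, fun E => ?_⟩
  obtain ⟨N1, hN1⟩ := Vz_inv_small E
  obtain ⟨K, hK⟩ : ∃ K : ℝ, K = 8 * E * C1 * (V + 5 + C1) := ⟨_, rfl⟩
  obtain ⟨H0, hH0⟩ := eventually_atTop.1 ((evt_loglog K).and ((evt_log_ge (768 + z0)).and
    ((evt_log_pow (1 / 2) (by norm_num) 1 B).and ((evt_log_pow (1 / 4) (by norm_num) 1 (V + 5)).and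
      ((eventually_ge_atTop (X0 + N1 + 3)))))))
  refine ⟨H0, fun H hH z hz1 hz2 Q hQ => ?_⟩
  obtain ⟨⟨g1, g1'⟩, g2, g3, g4, g5⟩ := hH0 H hH
  have hH3 : (3 : ℝ) ≤ H := by exact_mod_cast (by omega : 3 ≤ H)
  have hH0 : (0 : ℝ) < H := by linarith
  obtain ⟨ℓ, hℓ⟩ : ∃ ℓ, ℓ = Real.log H := ⟨_, rfl⟩
  rw [← hℓ] at g1 g1' g2 g3 g4 hz1 hz2 ⊢
  have hz00 : (0 : ℝ) ≤ z0 := Nat.cast_nonneg _
  have hℓ768 : 768 ≤ ℓ := by linarith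
  have hℓ1 : 1 ≤ ℓ := by linarith
  have hℓ0 : 0 < ℓ := by linarith
  have hℓz : ℓ ≤ z := by
    refine le_trans ?_ hz1
    calc ℓ = ℓ ^ 1 := (pow_one ℓ).symm
      _ ≤ ℓ ^ (V + 5) := pow_le_pow_right₀ hℓ1 (by omega)
  have hzz : z0 ≤ z := by
    have : (z0 : ℝ) ≤ z := by linarith
    exact_mod_cast this
  have hz1' : 1 ≤ z := by omega
  have hzr : (0 : ℝ) < z := by linarith
  have hV := hN1 H (by omega) z hz1' (by rw [← hℓ]; exact hz2)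
  rw [← hℓ] at hV
  -- Q is small
  have hQH : Q ≤ H := by
    rcases Nat.eq_zero_or_pos Q with h | h
    · omega
    · calc Q = Q ^ 1 := (pow_one Q).symm
        _ ≤ Q ^ 8 := Nat.pow_le_pow_right h (by norm_num)
        _ ≤ H := hQ
  obtain ⟨s, hs⟩ : ∃ s, s = (H : ℝ) ^ (1 / 4 : ℝ) := ⟨_, rfl⟩
  have hs0 : 0 < s := by rw [hs]; positivity
  have hs4 : (H : ℝ) = s ^ 4 := by
    rw [hs, ← Real.rpow_natCast, ← Real.rpow_mul hH0.le]; norm_num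
  have hs2 : (H : ℝ) ^ (1 / 2 : ℝ) = s ^ 2 := by
    rw [hs, ← Real.rpow_natCast, ← Real.rpow_mul hH0.le]; norm_num
  have hs1 : 1 ≤ s := by rw [hs]; exact Real.one_le_rpow (by linarith) (by norm_num)
  rw [hs2, one_mul] at g3
  rw [← hs, one_mul] at g4
  have hQs : (Q : ℝ) ^ 2 ≤ s := by
    have h1 : ((Q : ℝ) ^ 2) ^ 4 ≤ s ^ 4 := by
      rw [← hs4, ← pow_mul]
      exact_mod_cast hQ
    exact le_of_pow_le_pow_left₀ (by norm_num) hs0.le h1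
  obtain ⟨M, m1, m2, m3, m4⟩ := hbv H (by omega) Q (by
    rw [← hℓ]
    calc (Q : ℝ) ^ 2 * ℓ ^ B ≤ s * s ^ 2 := mul_le_mul hQs g3 (by positivity) hs0.le
      _ ≤ H := by rw [hs4]; nlinarith [pow_pos hs0 3])
  rw [← hℓ] at m3 m4
  -- the parameter b
  obtain ⟨b, hb⟩ : ∃ b : ℕ, b = ⌈((V : ℝ) + 4) * Real.log ℓ⌉₊ + C1 := ⟨_, rfl⟩
  have hb1 : ((V : ℝ) + 4) * Real.log ℓ ≤ b := by
    rw [hb]; push_cast
    have := Nat.le_ceil (((V : ℝ) + 4) * Real.log ℓ)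
    have : (0 : ℝ) ≤ C1 := Nat.cast_nonneg _
    linarith
  have hb2 : (b : ℝ) ≤ (V + 5 + C1) * Real.log ℓ := by
    have h1 : ((⌈((V : ℝ) + 4) * Real.log ℓ⌉₊ : ℕ) : ℝ) < ((V : ℝ) + 4) * Real.log ℓ + 1 := Nat.ceil_lt_add_one (by positivity)
    rw [hb]; push_cast
    have h2 : (C1 : ℝ) * 1 ≤ C1 * Real.log ℓ := mul_le_mul_of_nonneg_left g1' (Nat.cast_nonneg _)
    nlinarith
  have hb4 : ℓ ^ (V + 4) * (1 / 4 : ℝ) ^ b ≤ 1 := by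
    have h1 : ℓ ^ (V + 4) ≤ (4 : ℝ) ^ b := by
      have h2 : ℓ ^ (V + 4) = Real.exp (((V : ℝ) + 4) * Real.log ℓ) := by
        have : ((V : ℝ) + 4) = ((V + 4 : ℕ) : ℝ) := by push_cast; ring
        rw [this, ← Real.log_pow, Real.exp_log (by positivity)]
      rw [h2]
      calc Real.exp (((V : ℝ) + 4) * Real.log ℓ) ≤ Real.exp b := Real.exp_le_exp.2 hb1
        _ = (Real.exp 1) ^ b := by rw [← Real.exp_nat_mul, mul_one]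
        _ ≤ 4 ^ b := pow_le_pow_left₀ (Real.exp_pos _).le (by have := Real.exp_one_lt_d9; linarith) b
    have h2 : (1 / 4 : ℝ) ^ b = ((4 : ℝ) ^ b)⁻¹ := by rw [one_div, inv_pow]
    rw [h2, mul_inv_le_iff₀ (by positivity), one_mul]
    exact h1
  have hzb : (z : ℝ) ^ (2 * (C1 * b)) ≤ s := by
    have h1 : (z : ℝ) ^ (2 * (C1 * b)) ≤ (ℓ ^ E) ^ (2 * (C1 * b)) := pow_le_pow_left₀ hzr.le hz2 _
    refine h1.trans ?_
    rw [← pow_mul]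
    have h2 : ℓ ^ (E * (2 * (C1 * b))) = Real.exp ((E * (2 * (C1 * b)) : ℕ) * Real.log ℓ) := by
      rw [← Real.log_pow, Real.exp_log (by positivity)]
    have h3 : s = Real.exp (ℓ / 4) := by
      rw [hs, Real.rpow_def_of_pos hH0, ← hℓ]; congr 1; ring
    rw [h2, h3]
    apply Real.exp_le_exp.2
    push_cast
    have h4 : (E : ℝ) * (2 * (C1 * b)) * Real.log ℓ ≤ (E : ℝ) * (2 * (C1 * ((V + 5 + C1) * Real.log ℓ))) * Real.log ℓ := by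
      have hl0 : 0 ≤ Real.log ℓ := by linarith
      gcongr
    have h5 : (E : ℝ) * (2 * (C1 * ((V + 5 + C1) * Real.log ℓ))) * Real.log ℓ = K * Real.log ℓ ^ 2 / 4 := by rw [hK]; ring
    linarith
  -- one modulus
  have hone : ∀ q ∈ Icc 1 Q, vr z H q ≤ 8 * H * ℓ * M q + (16 * s * H * ℓ ^ 2 + (64 * H ^ 2 * ℓ ^ 3 / z) * (1 / q) +
      (8 * ℓ ^ 2 * (1 / 4 : ℝ) ^ b * H ^ 2) * (1 / q) + 8 * ℓ ^ 2 * s * s + 8 * s * ℓ ^ 4) := by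
    intro q hq
    rw [mem_Icc] at hq
    have h1 := vr_one C1 z0 hfl b z H q (by rw [hb]; omega) hzz hz1' hq.1 (by omega) (by omega) (by rw [← hℓ]; exact hV) (M q) (m1 q)
      (m2 q hq.1) (by rw [← hℓ]; exact m3 q hq.1 (by omega))
    rw [← hℓ] at h1
    have hqr : (0 : ℝ) < q := by exact_mod_cast hq.1
    have hqs : (q : ℝ) ≤ s := by
      have h2 : (q : ℝ) ≤ Q := by exact_mod_cast hq.2
      have h3 : (1 : ℝ) ≤ q := by exact_mod_cast hq.1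
      nlinarith
    refine h1.trans ?_
    have e1 : 64 * (H : ℝ) ^ 2 * ℓ ^ 3 / (q * z) = (64 * H ^ 2 * ℓ ^ 3 / z) * (1 / q) := by field_simp
    have e2 : 8 * ℓ ^ 2 * (1 / 4 : ℝ) ^ b * (H : ℝ) ^ 2 / q = (8 * ℓ ^ 2 * (1 / 4 : ℝ) ^ b * H ^ 2) * (1 / q) := by ring
    rw [e1, e2]
    have e3 : 16 * (q : ℝ) * H * ℓ ^ 2 ≤ 16 * s * H * ℓ ^ 2 := by gcongr
    have e4 : 8 * ℓ ^ 2 * (q : ℝ) * (z : ℝ) ^ (2 * (C1 * b)) ≤ 8 * ℓ ^ 2 * s * s := by gcongr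
    have e5 : 8 * (q : ℝ) * ℓ ^ 4 ≤ 8 * s * ℓ ^ 4 := by gcongr
    linarith
  refine (sum_le_sum hone).trans ?_
  have hsum : ∀ (S : Finset ℕ) (a b c d e : ℝ), ∑ q ∈ S, (a + b * (1 / (q : ℝ)) + c * (1 / (q : ℝ)) + d + e) =
      #S * a + b * ∑ q ∈ S, (1 / (q : ℝ)) + c * ∑ q ∈ S, (1 / (q : ℝ)) + #S * d + #S * e := by
    intro S a b c d e
    simp only [sum_add_distrib, sum_const, nsmul_eq_mul, mul_sum]
  rw [sum_add_distrib, ← mul_sum, hsum, Nat.card_Icc, Nat.add_sub_cancel]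
  have hinv := sum_inv_le Q H hQH (by omega)
  rw [← hℓ] at hinv
  have hinv0 : 0 ≤ ∑ q ∈ Icc 1 Q, 1 / (q : ℝ) := sum_nonneg fun _ _ => by positivity
  have hQs' : (Q : ℝ) ≤ s := by
    rcases Nat.eq_zero_or_pos Q with h | h
    · rw [h, Nat.cast_zero]; exact hs0.le
    · have : (1 : ℝ) ≤ Q := by exact_mod_cast h
      nlinarith
  obtain ⟨T, hT⟩ : ∃ T, T = (H : ℝ) ^ 2 / ℓ ^ (V + 1) := ⟨_, rfl⟩
  have hT0 : 0 < T := by rw [hT]; positivity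
  have hTs : T * ℓ ^ (V + 1) = H ^ 2 := by rw [hT]; field_simp
  -- s^7 ≤ T as ℓ^(V+1) ≤ s
  have hT7 : s ^ 7 * ℓ ^ 4 ≤ T := by
    rw [hT, le_div_iff₀ (by positivity), hs4]
    calc s ^ 7 * ℓ ^ 4 * ℓ ^ (V + 1) = s ^ 7 * ℓ ^ (V + 5) := by rw [mul_assoc, ← pow_add]; ring_nf
      _ ≤ s ^ 7 * s := mul_le_mul_of_nonneg_left g4 (by positivity)
      _ = _ := by ring
  have t1 : 8 * H * ℓ * ∑ q ∈ Icc 1 Q, M q ≤ 8 * T := by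
    calc 8 * H * ℓ * ∑ q ∈ Icc 1 Q, M q ≤ 8 * H * ℓ * (H / ℓ ^ (V + 2)) := mul_le_mul_of_nonneg_left m4 (by positivity)
      _ = 8 * T := by rw [hT]; field_simp; ring
  have hℓ24 : ℓ ^ 2 ≤ ℓ ^ 4 := pow_le_pow_right₀ hℓ1 (by norm_num)
  have t2 : (Q : ℝ) * (16 * s * H * ℓ ^ 2) ≤ 16 * T := by
    calc (Q : ℝ) * (16 * s * H * ℓ ^ 2) ≤ s * (16 * s * H * ℓ ^ 4) := by gcongr
      _ = 16 * (s ^ 6 * ℓ ^ 4) := by rw [hs4]; ring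
      _ ≤ 16 * (s ^ 7 * ℓ ^ 4) := by
        have : s ^ 6 ≤ s ^ 7 := pow_le_pow_right₀ hs1 (by norm_num)
        gcongr
      _ ≤ 16 * T := by linarith
  have t3 : 64 * (H : ℝ) ^ 2 * ℓ ^ 3 / z * ∑ q ∈ Icc 1 Q, 1 / (q : ℝ) ≤ 128 * T := by
    calc 64 * (H : ℝ) ^ 2 * ℓ ^ 3 / z * ∑ q ∈ Icc 1 Q, 1 / (q : ℝ) ≤ 64 * (H : ℝ) ^ 2 * ℓ ^ 3 / ℓ ^ (V + 5) * (2 * ℓ) := by
          gcongr
      _ = 128 * T := by rw [hT]; field_simp; ring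
  have t4 : 8 * ℓ ^ 2 * (1 / 4 : ℝ) ^ b * (H : ℝ) ^ 2 * ∑ q ∈ Icc 1 Q, 1 / (q : ℝ) ≤ 16 * T := by
    calc 8 * ℓ ^ 2 * (1 / 4 : ℝ) ^ b * (H : ℝ) ^ 2 * ∑ q ∈ Icc 1 Q, 1 / (q : ℝ) ≤ 8 * ℓ ^ 2 * (1 / 4 : ℝ) ^ b * (H : ℝ) ^ 2 * (2 * ℓ) := by
          gcongr
      _ = 16 * T * (ℓ ^ (V + 4) * (1 / 4 : ℝ) ^ b) := by rw [← hTs]; ring
      _ ≤ 16 * T * 1 := mul_le_mul_of_nonneg_left hb4 (by positivity)
      _ = _ := by ring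
  have t5 : (Q : ℝ) * (8 * ℓ ^ 2 * s * s) ≤ 8 * T := by
    calc (Q : ℝ) * (8 * ℓ ^ 2 * s * s) ≤ s * (8 * ℓ ^ 4 * s * s) := by gcongr
      _ = 8 * (s ^ 3 * ℓ ^ 4) := by ring
      _ ≤ 8 * (s ^ 7 * ℓ ^ 4) := by
        have : s ^ 3 ≤ s ^ 7 := pow_le_pow_right₀ hs1 (by norm_num)
        gcongr
      _ ≤ 8 * T := by linarith
  have t6 : (Q : ℝ) * (8 * s * ℓ ^ 4) ≤ 8 * T := by
    calc (Q : ℝ) * (8 * s * ℓ ^ 4) ≤ s * (8 * s * ℓ ^ 4) := by gcongr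
      _ = 8 * (s ^ 2 * ℓ ^ 4) := by ring
      _ ≤ 8 * (s ^ 7 * ℓ ^ 4) := by
        have : s ^ 2 ≤ s ^ 7 := pow_le_pow_right₀ hs1 (by norm_num)
        gcongr
      _ ≤ 8 * T := by linarith
  have hfin : 768 * T ≤ (H : ℝ) ^ 2 / ℓ ^ V := by
    calc 768 * T ≤ ℓ * T := mul_le_mul_of_nonneg_right hℓ768 hT0.le
      _ = _ := by rw [hT]; field_simp; ring
  linarith

end Pool.Agent.H544.BC
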