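import Mathlib
import Pool.Agent.H544.BC.Var3

/-!
Local kernels, and the common divisors of the derivative and the modulus.
-/

set_option autoImplicit false

namespace Pool.Agent.H544.BC
open Finset Polynomial
open Pool.Agent.H544.LD (cls cls_sum card_cls om dvd_eval_zmod)

/-- a polynomial which does not vanish identically modulo `p` has few roots -/
lemma om_coef (H : ℤ[X]) (p : ℕ) (hp : p.Prime) (i : ℕ) (hi : ¬ (p : ℤ) ∣ H.coeff i) : om H p ≤ H.natDegree := by
  have : Fact p.Prime := ⟨hp⟩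
  set Hp := H.map (Int.castRingHom (ZMod p)) with hHp
  have h : Hp ≠ 0 := by
    intro h
    have h1 : Hp.coeff i = 0 := by rw [h, coeff_zero]
    rw [hHp, coeff_map] at h1
    apply hi
    exact (ZMod.intCast_zmod_eq_zero_iff_dvd _ _).1 (by simpa using h1)
  have h1 : #((range p).filter (fun n : ℕ => (p : ℤ) ∣ H.eval (n : ℤ))) ≤ #(Hp.roots.toFinset) := by
    refine card_le_card_of_injOn (fun n : ℕ => (n : ZMod p)) ?_ ?_
    · intro n hn
      rw [mem_coe, mem_filter] at hn
      have h2 := (dvd_eval_zmod H p _).1 hn.2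
      rw [mem_coe, Multiset.mem_toFinset, mem_roots h, IsRoot.def]
      push_cast at h2
      exact h2
    · intro n hn n' hn' hnn
      rw [mem_coe, mem_filter, mem_range] at hn hn'
      simp only at hnn
      have h3 := ZMod.val_cast_of_lt hn.1
      have h4 := ZMod.val_cast_of_lt hn'.1
      rw [← h3, ← h4, hnn]
  unfold om
  refine h1.trans ((Multiset.toFinset_card_le _).trans ((card_roots' Hp).trans ?_))
  exact natDegree_map_le

lemma gcd_prod (S : Finset ℕ) (hS : ∀ p ∈ S, p.Prime) (N : ℕ) : Nat.gcd N (∏ p ∈ S, p) = ∏ p ∈ S, Nat.gcd N p := by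
  induction S using Finset.induction_on with
  | empty => simp
  | insert q S hq ih =>
    have hcop : q.Coprime (∏ p ∈ S, p) := by
      apply Nat.Coprime.prod_right
      intro p hp
      exact (Nat.coprime_primes (hS q (mem_insert_self _ _)) (hS p (mem_insert_of_mem hp))).2 (fun h => hq (h ▸ hp))
    rw [prod_insert hq, prod_insert hq, Nat.Coprime.gcd_mul _ hcop, ih (fun p hp => hS p (mem_insert_of_mem hp))]

/-- the mean of the common divisors -/
lemma gsum (P : ℤ[X]) (hd : 1 ≤ P.natDegree) (hl : 0 < P.leadingCoeff)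
    (e : ℕ) (he : Squarefree e) (heD : ∀ p ∈ e.primeFactors, ¬ p ∣ P.natDegree * P.leadingCoeff.natAbs) :
    ∑ a ∈ range e, (Nat.gcd (P.derivative.eval (a : ℤ)).natAbs e : ℝ) ≤ e * (P.natDegree : ℝ) ^ #(e.primeFactors) := by
  have h1 : ∀ a ∈ range e, (Nat.gcd (P.derivative.eval (a : ℤ)).natAbs e : ℝ) =
      ∏ p ∈ e.primeFactors, (Nat.gcd (P.derivative.eval (a : ℤ)).natAbs p : ℝ) := by
    intro a _
    have h2 := gcd_prod e.primeFactors (fun p hp => Nat.prime_of_mem_primeFactors hp) (P.derivative.eval (a : ℤ)).natAbs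
    rw [Nat.prod_primeFactors_of_squarefree he] at h2
    rw [h2]
    push_cast
    rfl
  rw [sum_congr rfl h1]
  have h2 := crt_sqf e he (fun p a => (Nat.gcd (P.derivative.eval a).natAbs p : ℝ)) (by
    intro p _ a b hab
    have h3 : (p : ℤ) ∣ P.derivative.eval a - P.derivative.eval b := hab.trans (Polynomial.sub_dvd_eval_sub _ _ _)
    have h4 : Nat.gcd (P.derivative.eval a).natAbs p = Nat.gcd (P.derivative.eval b).natAbs p := by
      have h5 : Int.gcd (P.derivative.eval a) p = Int.gcd (P.derivative.eval b) p := by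
        obtain ⟨k, hk⟩ := h3
        have h6 : P.derivative.eval a = P.derivative.eval b + p * k := by linarith
        rw [h6, Int.gcd_add_mul_left_left]
      simpa [Int.gcd] using h5
    show ((Nat.gcd (P.derivative.eval a).natAbs p : ℕ) : ℝ) = _
    rw [h4])
  rw [h2]
  have h3 : ∀ p ∈ e.primeFactors, ∑ b ∈ range p, ((Nat.gcd (P.derivative.eval (b : ℤ)).natAbs p : ℕ) : ℝ) ≤ (p : ℝ) * P.natDegree := by
    intro p hp
    have hpp := Nat.prime_of_mem_primeFactors hp
    have hpD := heD p hp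
    have hom : om P.derivative p ≤ P.natDegree - 1 := by
      have h4 := om_coef P.derivative p hpp (P.natDegree - 1) (by
        rw [coeff_derivative, Nat.sub_add_cancel hd]
        intro h5
        have h6 : ((p : ℕ) : ℤ) ∣ ((P.natDegree * P.leadingCoeff.natAbs : ℕ) : ℤ) := by
          have e1 : ((P.natDegree * P.leadingCoeff.natAbs : ℕ) : ℤ) = P.coeff P.natDegree * (((P.natDegree - 1 : ℕ) : ℤ) + 1) := by
            push_cast
            rw [abs_of_pos hl]
            have : ((P.natDegree - 1 : ℕ) : ℤ) + 1 = P.natDegree := by omega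
            rw [this, coeff_natDegree]
            ring
          rw [e1]
          exact h5
        have h7 : p ∣ P.natDegree * P.leadingCoeff.natAbs := by exact_mod_cast h6
        exact hpD h7)
      exact h4.trans (natDegree_derivative_le P)
    have h4 : ∀ b ∈ range p, ((Nat.gcd (P.derivative.eval (b : ℤ)).natAbs p : ℕ) : ℝ) ≤
        1 + (if (p : ℤ) ∣ P.derivative.eval (b : ℤ) then (p : ℝ) else 0) := by
      intro b _
      split_ifs with h5
      · have : Nat.gcd (P.derivative.eval (b : ℤ)).natAbs p ≤ p := Nat.gcd_le_right _ hpp.pos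
        have : ((Nat.gcd (P.derivative.eval (b : ℤ)).natAbs p : ℕ) : ℝ) ≤ p := by exact_mod_cast this
        linarith
      · have : Nat.gcd (P.derivative.eval (b : ℤ)).natAbs p = 1 := by
          rcases (Nat.dvd_prime hpp).1 (Nat.gcd_dvd_right (P.derivative.eval (b : ℤ)).natAbs p) with h6 | h6
          · exact h6
          · exfalso
            apply h5
            have h7 := Nat.gcd_dvd_left (P.derivative.eval (b : ℤ)).natAbs p
            rw [h6] at h7
            exact Int.natCast_dvd.2 h7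
        rw [this]; simp
    refine (sum_le_sum h4).trans ?_
    rw [sum_add_distrib, ← sum_filter, sum_const, sum_const, card_range, nsmul_eq_mul, nsmul_eq_mul, mul_one]
    have h5 : (#((range p).filter (fun b : ℕ => (p : ℤ) ∣ P.derivative.eval (b : ℤ))) : ℝ) ≤ P.natDegree - 1 := by
      have : #((range p).filter (fun b : ℕ => (p : ℤ) ∣ P.derivative.eval (b : ℤ))) ≤ P.natDegree - 1 := hom
      have h6 : ((P.natDegree - 1 : ℕ) : ℝ) = P.natDegree - 1 := by
        rw [Nat.cast_sub hd]; simp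
      rw [← h6]
      exact_mod_cast this
    have hp0 : (0 : ℝ) < p := by exact_mod_cast hpp.pos
    nlinarith
  refine (prod_le_prod (fun p _ => sum_nonneg fun _ _ => Nat.cast_nonneg _) h3).trans (le_of_eq ?_)
  rw [prod_mul_distrib, prod_const]
  congr 1
  have := Nat.prod_primeFactors_of_squarefree he
  rw [← Nat.cast_prod, this]

/-- local kernels with bounded marginals -/
structure Ker (P : ℤ[X]) (C D : ℕ) (k : ℕ → ℤ → ℤ → ℝ) : Prop where
  nn : ∀ p n c, 0 ≤ k p n c
  per1 : ∀ p c, Per p (fun n => k p n c)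
  per2 : ∀ p n, Per p (fun c => k p n c)
  m1 : ∀ p, p.Prime → D < p → ∀ c : ℤ, ∑ n ∈ range p, k p n c ≤ C
  m2 : ∀ p, p.Prime → D < p → ∀ n : ℤ, ∑ c ∈ range p, k p n c ≤ C
  m3 : ∀ p, p.Prime → D < p → ∀ l : ℤ, ∑ n ∈ range p, k p n (l - P.eval (n : ℤ)) ≤ C

/-- the kernel of a squarefree modulus -/
noncomputable def KK (k : ℕ → ℤ → ℤ → ℝ) (e : ℕ) (n c : ℤ) : ℝ := ∏ p ∈ e.primeFactors, k p n c

section K
variable {P : ℤ[X]} {C D : ℕ} {k : ℕ → ℤ → ℤ → ℝ} (hk : Ker P C D k) (e : ℕ) (he : Squarefree e) (heD : ∀ p ∈ e.primeFactors, D < p)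
include hk

lemma KK_nonneg (n c : ℤ) : 0 ≤ KK k e n c := prod_nonneg fun p _ => hk.nn p n c

lemma KK_per1 (c : ℤ) : Per e (fun n => KK k e n c) := by
  intro a b hab
  apply prod_congr rfl
  intro p hp
  exact hk.per1 p c a b ((Int.natCast_dvd_natCast.2 (Nat.dvd_of_mem_primeFactors hp)).trans hab)

lemma KK_per2 (n : ℤ) : Per e (fun c => KK k e n c) := by
  intro a b hab
  apply prod_congr rfl
  intro p hp
  exact hk.per2 p n a b ((Int.natCast_dvd_natCast.2 (Nat.dvd_of_mem_primeFactors hp)).trans hab)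

include he heD

lemma KK_m1 (c : ℤ) : ∑ n ∈ range e, KK k e n c ≤ (C : ℝ) ^ #(e.primeFactors) := by
  unfold KK
  rw [crt_sqf e he (fun p n => k p n c) (fun p _ => hk.per1 p c), ← prod_const]
  apply prod_le_prod (fun p _ => sum_nonneg fun _ _ => hk.nn _ _ _)
  intro p hp
  exact hk.m1 p (Nat.prime_of_mem_primeFactors hp) (heD p hp) c

lemma KK_m2 (n : ℤ) : ∑ c ∈ range e, KK k e n c ≤ (C : ℝ) ^ #(e.primeFactors) := by
  unfold KK
  rw [crt_sqf e he (fun p c => k p n c) (fun p _ => hk.per2 p n), ← prod_const]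
  apply prod_le_prod (fun p _ => sum_nonneg fun _ _ => hk.nn _ _ _)
  intro p hp
  exact hk.m2 p (Nat.prime_of_mem_primeFactors hp) (heD p hp) n

lemma KK_m3 (l : ℤ) : ∑ n ∈ range e, KK k e n (l - P.eval (n : ℤ)) ≤ (C : ℝ) ^ #(e.primeFactors) := by
  unfold KK
  rw [crt_sqf e he (fun p n => k p n (l - P.eval n)) (fun p _ => by
    intro a b hab
    have h1 : (p : ℤ) ∣ P.eval a - P.eval b := hab.trans (Polynomial.sub_dvd_eval_sub _ _ _)
    show k p a (l - P.eval a) = k p b (l - P.eval b)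
    have h2 : k p a (l - P.eval a) = k p b (l - P.eval a) := hk.per1 p (l - P.eval a) a b hab
    rw [h2]
    apply hk.per2 p b
    have e1 : l - P.eval a - (l - P.eval b) = -(P.eval a - P.eval b) := by ring
    rw [e1]
    exact (dvd_neg).2 h1), ← prod_const]
  apply prod_le_prod (fun p _ => sum_nonneg fun _ _ => hk.nn _ _ _)
  intro p hp
  exact hk.m3 p (Nat.prime_of_mem_primeFactors hp) (heD p hp) l

end K

lemma cls_fiber (A e : ℕ) (he : 1 ≤ e) (g : ℕ → ℝ) : ∑ c ∈ Icc 1 A, g c = ∑ κ ∈ range e, ∑ c ∈ cls A e κ, g c := by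
  rw [← sum_fiberwise_of_maps_to (s := Icc 1 A) (t := range e) (g := fun c => c % e) (fun c _ => mem_range.2 (Nat.mod_lt _ (by omega)))]
  rfl

/-- sums of nonnegative periodic functions -/
lemma per_sum (A e : ℕ) (he : 1 ≤ e) (g : ℤ → ℝ) (hg : Per e g) (h0 : ∀ a, 0 ≤ g a) :
    ∑ c ∈ Icc 1 A, g c ≤ ((A : ℝ) / e + 1) * ∑ b ∈ range e, g b := by
  have he0 : (0 : ℝ) < e := by exact_mod_cast he
  rw [cls_fiber A e he (fun c => g c), mul_sum]
  apply sum_le_sum
  intro κ hκ
  rw [mem_range] at hκ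
  have h1 : ∀ c ∈ cls A e κ, g c = g κ := by
    intro c hc
    rw [mem_cls] at hc
    apply hg
    have := Nat.modEq_iff_dvd.1 (show κ ≡ c [MOD e] by rw [Nat.ModEq, hc.2, Nat.mod_eq_of_lt hκ])
    exact this
  rw [sum_congr rfl h1, sum_const, nsmul_eq_mul]
  apply mul_le_mul_of_nonneg_right _ (h0 _)
  obtain ⟨N, a', _, _, h3, h4, _⟩ := cls_sum A e κ he hκ
  rw [← h4]
  rw [div_add_one he0.ne', le_div_iff₀ he0]
  exact_mod_cast h3

/-- reindexing by the class of the value -/
lemma reidx (P : ℤ[X]) (e a : ℕ) (he : 1 ≤ e) (G : ℤ → ℝ) (hG : Per e G) (Y : ℕ → ℝ) :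
    ∑ κ ∈ range e, G κ * Y (((κ : ℤ) + P.eval (a : ℤ)) % e).toNat = ∑ l ∈ range e, G (l - P.eval (a : ℤ)) * Y l := by
  have he0 : (0 : ℤ) < e := by exact_mod_cast he
  apply sum_nbij' (fun κ : ℕ => (((κ : ℤ) + P.eval (a : ℤ)) % e).toNat) (fun l : ℕ => (((l : ℤ) - P.eval (a : ℤ)) % e).toNat)
  · intro κ _
    rw [mem_range]
    have := Int.emod_lt_of_pos ((κ : ℤ) + P.eval (a : ℤ)) he0
    have := Int.emod_nonneg ((κ : ℤ) + P.eval (a : ℤ)) he0.ne'
    omega
  · intro κ _
    rw [mem_range]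
    have := Int.emod_lt_of_pos ((κ : ℤ) - P.eval (a : ℤ)) he0
    have := Int.emod_nonneg ((κ : ℤ) - P.eval (a : ℤ)) he0.ne'
    omega
  · intro κ hκ
    rw [mem_range] at hκ
    have h1 := Int.emod_nonneg ((κ : ℤ) + P.eval (a : ℤ)) he0.ne'
    rw [Int.toNat_of_nonneg h1]
    have h2 : (((κ : ℤ) + P.eval (a : ℤ)) % e - P.eval (a : ℤ)) % e = (κ : ℤ) := by
      rw [Int.emod_sub_emod, add_sub_cancel_right, Int.emod_eq_of_lt (by omega) (by omega)]
    rw [h2, Int.toNat_natCast]
  · intro l hl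
    rw [mem_range] at hl
    have h1 := Int.emod_nonneg ((l : ℤ) - P.eval (a : ℤ)) he0.ne'
    rw [Int.toNat_of_nonneg h1]
    have h2 : (((l : ℤ) - P.eval (a : ℤ)) % e + P.eval (a : ℤ)) % e = (l : ℤ) := by
      rw [Int.emod_add_emod, sub_add_cancel, Int.emod_eq_of_lt (by omega) (by omega)]
    rw [h2, Int.toNat_natCast]
  · intro κ hκ
    have h1 := Int.emod_nonneg ((κ : ℤ) + P.eval (a : ℤ)) he0.ne'
    congr 1
    apply hG
    rw [Int.toNat_of_nonneg h1]
    have e1 : (κ : ℤ) - (((κ : ℤ) + P.eval (a : ℤ)) % e - P.eval (a : ℤ)) = ((κ : ℤ) + P.eval (a : ℤ)) - ((κ : ℤ) + P.eval (a : ℤ)) % e := by ring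
    rw [e1]
    exact Int.dvd_self_sub_emod

end Pool.Agent.H544.BC
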