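import Mathlib
import Pool.Agent.H544.BC.Lev1

/-!
The level of distribution with classes which depend on the shift: one modulus.
-/

set_option autoImplicit false

namespace Pool.Agent.H544.BC
open Finset Polynomial
open Pool.Agent.H807R2.Dav
open Pool.Agent.H373R2.T7 (pz mem_pz Vz Vz_pos lamz lamz_nonneg fz)
open Pool.Agent.H373R2.NB (card_le_of_diam)
open Pool.Agent.H544.LD (cls cls_sum card_cls Sm)

/-- the frequencies close to the fractions with denominator `q` -/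
noncomputable def Tset (M q : ℕ) (η : ℝ) : Finset ℕ := by
  classical
  exact (range M).filter (fun t : ℕ => ∃ b : ℤ, |(t : ℝ) / M - b / q| ≤ η)

lemma mem_Tset {M q t : ℕ} {η : ℝ} : t ∈ Tset M q η ↔ t < M ∧ ∃ b : ℤ, |(t : ℝ) / M - b / q| ≤ η := by
  classical
  unfold Tset
  rw [mem_filter, mem_range]

lemma card_Tset (M q : ℕ) (η : ℝ) (hM : 1 ≤ M) (hq : 1 ≤ q) (hη0 : 0 ≤ η) (hη : η ≤ 1) :
    (#(Tset M q η) : ℝ) ≤ 4 * q * (2 * η * M + 1) := by
  classical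
  have hM0 : (0 : ℝ) < M := by exact_mod_cast hM
  have hq0 : (0 : ℝ) < q := by exact_mod_cast hq
  have h1 : Tset M q η ⊆ (Icc (-(q : ℤ)) (2 * q)).biUnion (fun b => (range M).filter (fun t : ℕ => |(t : ℝ) / M - b / q| ≤ η)) := by
    intro t ht
    obtain ⟨htM, b, hb⟩ := mem_Tset.1 ht
    rw [mem_biUnion]
    refine ⟨b, ?_, mem_filter.2 ⟨mem_range.2 htM, hb⟩⟩
    have h2 : (0 : ℝ) ≤ (t : ℝ) / M := by positivity
    have h3 : (t : ℝ) / M ≤ 1 := by
      rw [div_le_one hM0]; exact_mod_cast htM.le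
    rw [abs_le] at hb
    have h4 : (b : ℝ) / q ≤ 2 := by linarith [hb.1]
    have h5 : -1 ≤ (b : ℝ) / q := by linarith [hb.2]
    rw [div_le_iff₀ hq0] at h4
    rw [le_div_iff₀ hq0] at h5
    rw [mem_Icc]
    constructor
    · have : ((-(q : ℤ) : ℤ) : ℝ) ≤ b := by push_cast; linarith
      exact_mod_cast this
    · have : (b : ℝ) ≤ ((2 * q : ℤ) : ℝ) := by push_cast; linarith
      exact_mod_cast this
  have h2 : ∀ b ∈ Icc (-(q : ℤ)) (2 * q), (#((range M).filter (fun t : ℕ => |(t : ℝ) / M - b / q| ≤ η)) : ℝ) ≤ 2 * η * M + 1 := by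
    intro b _
    have h3 : #((range M).filter (fun t : ℕ => |(t : ℝ) / M - b / q| ≤ η)) =
        #(((range M).filter (fun t : ℕ => |(t : ℝ) / M - b / q| ≤ η)).image (fun t : ℕ => (t : ℤ))) := by
      rw [card_image_of_injective _ Nat.cast_injective]
    rw [h3]
    apply card_le_of_diam _ _ (by positivity)
    intro s hs t ht
    rw [mem_image] at hs ht
    obtain ⟨s', hs', rfl⟩ := hs
    obtain ⟨t', ht', rfl⟩ := ht
    have h4 := abs_le.1 (mem_filter.1 hs').2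
    have h5 := abs_le.1 (mem_filter.1 ht').2
    have h6 : (s' : ℝ) / M - (t' : ℝ) / M ≤ 2 * η := by linarith [h4.2, h5.1]
    rw [div_sub_div_same, div_le_iff₀ hM0] at h6
    exact_mod_cast h6
  calc (#(Tset M q η) : ℝ) ≤ #((Icc (-(q : ℤ)) (2 * q)).biUnion (fun b => (range M).filter (fun t : ℕ => |(t : ℝ) / M - b / q| ≤ η))) := by
        exact_mod_cast card_le_card h1
    _ ≤ ∑ b ∈ Icc (-(q : ℤ)) (2 * q), (#((range M).filter (fun t : ℕ => |(t : ℝ) / M - b / q| ≤ η)) : ℝ) := by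
        exact_mod_cast card_biUnion_le
    _ ≤ ∑ b ∈ Icc (-(q : ℤ)) (2 * q), (2 * η * M + 1) := sum_le_sum h2
    _ = ((3 * q + 1 : ℕ) : ℝ) * (2 * η * M + 1) := by
        rw [sum_const, nsmul_eq_mul, Int.card_Icc]
        congr 2
        omega
    _ ≤ 4 * q * (2 * η * M + 1) := by
        apply mul_le_mul_of_nonneg_right _ (by positivity)
        push_cast
        have : (1 : ℝ) ≤ q := by exact_mod_cast hq
        linarith

lemma card_sub_cls (q e l : ℕ) (he : 1 ≤ e) : #((range (q * e)).filter (fun κ => κ % e = l)) ≤ q := by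
  have h1 : (range (q * e)).filter (fun κ => κ % e = l) ⊆ (range q).image (fun j => l + e * j) := by
    intro κ hκ
    rw [mem_filter, mem_range] at hκ
    rw [mem_image]
    refine ⟨κ / e, ?_, ?_⟩
    · rw [mem_range]
      exact Nat.div_lt_of_lt_mul (by rw [mul_comm]; exact hκ.1)
    · rw [← hκ.2]; exact Nat.mod_add_div κ e
  calc _ ≤ #((range q).image (fun j => l + e * j)) := card_le_card h1
    _ ≤ #(range q) := card_image_le
    _ = q := card_range q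

/-- the sum over one modulus -/
theorem one_e (P : ℤ[X]) (hd : 1 ≤ P.natDegree) (hl : 0 < P.leadingCoeff) (D : ℕ) :
    ∃ c m : ℕ, 1 ≤ c ∧ ∀ (C : ℕ) (k : ℕ → ℤ → ℤ → ℝ), Ker P C D k → ∀ (z H M A x y e : ℕ) (u Lg Γ : ℝ),
      Squarefree e → (∀ p ∈ e.primeFactors, D < p) → (∀ p ∈ e.primeFactors, ¬ p ∣ P.natDegree * P.leadingCoeff.natAbs) → y ≤ x → 1 ≤ u →
      (c : ℝ) * (2 * u) ^ m * (e : ℝ) ^ (P.natDegree + 1) < x → M = 2 * H + 1 →
      (∀ a ∈ Icc 1 A, ∀ n ∈ Icc 1 x, |(a : ℤ) + P.eval (n : ℤ)| ≤ H) → A ≤ H → e ≤ A → (Vz z)⁻¹ ≤ Real.log H → 3 ≤ H →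
      2 * (c * (2 * u) ^ m / (x : ℝ) ^ P.natDegree) * M + 1 ≤ Γ →
      1 + 2 * Real.pi * (c * (2 * u) ^ m / (x : ℝ) ^ P.natDegree) * H ≤ Γ →
      c * (2 * u) ^ m * Lg ^ (P.natDegree - 1) ≤ Γ → c * (2 * u) ^ m / (x : ℝ) ^ P.natDegree ≤ 1 → 1 ≤ Lg →
      ∑ a ∈ range e, ∑ s ∈ Icc 1 A, KK k e a s * ‖Tc (fun n => (fp z n : ℂ)) H (fun n => P.eval (n : ℤ)) y e a s‖ ^ 2 ≤
        (C : ℝ) ^ #(e.primeFactors) * (1 / e) * (32 * x ^ 2 * Real.log H ^ 2 * A * (P.natDegree : ℝ) ^ #(e.primeFactors) / (e * Lg) +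
          4 * x ^ 2 * H * Real.log H ^ 2 / (e * u ^ 2) + 16 * x ^ 2 * Γ ^ 5 / M * ∑ q ∈ Icc 1 ⌊Γ⌋₊, vr z H (q * e)) := by
  classical
  obtain ⟨c, m, hc, hfreq⟩ := freq P hd hl
  refine ⟨c, m, hc, ?_⟩
  intro C k hk z H M A x y e u Lg Γ he heD heP hy hu hsize hMe hval hAH heA hV hH3 hΓ1 hΓ2 hΓ3 hη1 hLg
  set d := P.natDegree with hdd
  set f : ℕ → ℂ := fun n => (fp z n : ℂ) with hf
  set F : ℕ → ℤ := fun n => P.eval (n : ℤ) with hF
  obtain ⟨ℓ, hℓ⟩ : ∃ ℓ, ℓ = Real.log H := ⟨_, rfl⟩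
  obtain ⟨ω, hω⟩ : ∃ ω, ω = #(e.primeFactors) := ⟨_, rfl⟩
  rw [← hω, ← hℓ]
  have hℓ0 : 0 ≤ ℓ := by rw [hℓ]; exact Real.log_natCast_nonneg H
  have he1 : 1 ≤ e := Nat.one_le_iff_ne_zero.2 he.ne_zero
  have he0 : (0 : ℝ) < e := by exact_mod_cast he1
  have he1R : (1 : ℝ) ≤ e := by exact_mod_cast he1
  have hM1 : 1 ≤ M := by omega
  have hM0 : (0 : ℝ) < M := by exact_mod_cast hM1
  have hcR : (1 : ℝ) ≤ c := by exact_mod_cast hc
  have h2u : (1 : ℝ) ≤ (2 * u) ^ m := one_le_pow₀ (by linarith)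
  have hex' : (e : ℝ) < x := by
    refine lt_of_le_of_lt ?_ hsize
    calc (e : ℝ) = 1 * 1 * (e : ℝ) ^ 1 := by ring
      _ ≤ c * (2 * u) ^ m * (e : ℝ) ^ (d + 1) :=
        mul_le_mul (mul_le_mul hcR h2u zero_le_one (by linarith)) (pow_le_pow_right₀ he1R (by omega)) (by positivity) (by positivity)
  have hex : e ≤ x := by exact_mod_cast hex'.le
  have hx0 : (0 : ℝ) < x := by linarith
  have hA1 : 1 ≤ A := by omega
  have hA0 : (0 : ℝ) < A := by exact_mod_cast hA1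
  have hu0 : 0 < u := by linarith
  have hLg0 : 0 < Lg := by linarith
  obtain ⟨η, hη⟩ : ∃ η, η = c * (2 * u) ^ m / (x : ℝ) ^ d := ⟨_, rfl⟩
  have hη0 : 0 ≤ η := by rw [hη]; positivity
  rw [← hη] at hΓ1 hΓ2 hη1
  have hΓ0 : 0 < Γ := by
    have : 0 ≤ 2 * η * M := by positivity
    linarith
  have hΓ1' : 1 ≤ Γ := by
    have : 0 ≤ 2 * η * M := by positivity
    linarith
  have hfle : ∀ n, n ≤ H → ‖f n‖ ≤ 2 * ℓ := by
    intro n hn
    rw [hf]
    simp only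
    rw [Complex.norm_real, Real.norm_eq_abs, hℓ]
    exact fp_le z H n (by omega) hV hn
  have hKn : ∀ a s : ℤ, 0 ≤ KK k e a s := fun a s => KK_nonneg hk e a s
  -- bound for the sums along a class
  have hTc : ∀ a ∈ range e, ∀ s ∈ Icc 1 A, ‖Tc f H F y e a s‖ ^ 2 ≤ 16 * x ^ 2 * ℓ ^ 2 / e ^ 2 := by
    intro a ha s hs
    rw [mem_range] at ha
    have h1 : ‖Tc f H F y e a s‖ ≤ (2 * x / e) * (2 * ℓ) := by
      unfold Tc
      refine (norm_sum_le _ _).trans ?_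
      have h2 : ∀ n ∈ cls y e a, ‖fz f H (s + F n)‖ ≤ 2 * ℓ := by
        intro n _
        unfold fz
        split_ifs with h3
        · apply hfle
          omega
        · rw [norm_zero]; positivity
      refine (sum_le_sum h2).trans ?_
      rw [sum_const, nsmul_eq_mul]
      exact mul_le_mul_of_nonneg_right (card_cls x y e a e he1 hex hy le_rfl ha) (by positivity)
    calc ‖Tc f H F y e a s‖ ^ 2 ≤ ((2 * x / e) * (2 * ℓ)) ^ 2 := pow_le_pow_left₀ (norm_nonneg _) h1 2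
      _ = _ := by field_simp; ring
  -- the two kinds of classes
  set big : Finset ℕ := (range e).filter (fun a : ℕ => Lg < (Nat.gcd (P.derivative.eval (a : ℤ)).natAbs e : ℝ)) with hbig
  have hbigc : (#(big) : ℝ) ≤ e * (d : ℝ) ^ ω / Lg := by
    rw [le_div_iff₀ hLg0]
    have h1 := gsum P hd hl e he heP
    rw [← hω] at h1
    refine le_trans ?_ h1
    calc (#(big) : ℝ) * Lg = ∑ a ∈ big, Lg := by rw [sum_const, nsmul_eq_mul]
      _ ≤ ∑ a ∈ big, (Nat.gcd (P.derivative.eval (a : ℤ)).natAbs e : ℝ) := sum_le_sum fun a ha => (mem_filter.1 ha).2.le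
      _ ≤ _ := sum_le_sum_of_subset_of_nonneg (filter_subset _ _) (fun _ _ _ => Nat.cast_nonneg _)
  rw [← sum_filter_add_sum_filter_not (range e) (fun a : ℕ => Lg < (Nat.gcd (P.derivative.eval (a : ℤ)).natAbs e : ℝ))]
  -- part one
  have part1 : ∑ a ∈ big, ∑ s ∈ Icc 1 A, KK k e a s * ‖Tc f H F y e a s‖ ^ 2 ≤
      (C : ℝ) ^ ω * (1 / e) * (32 * x ^ 2 * ℓ ^ 2 * A * (d : ℝ) ^ ω / (e * Lg)) := by
    have h1 : ∀ a ∈ big, ∑ s ∈ Icc 1 A, KK k e a s * ‖Tc f H F y e a s‖ ^ 2 ≤ (2 * A / e) * (C : ℝ) ^ ω * (16 * x ^ 2 * ℓ ^ 2 / e ^ 2) := by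
      intro a ha
      have ha' := (mem_filter.1 ha).1
      calc ∑ s ∈ Icc 1 A, KK k e a s * ‖Tc f H F y e a s‖ ^ 2 ≤ ∑ s ∈ Icc 1 A, KK k e a s * (16 * x ^ 2 * ℓ ^ 2 / e ^ 2) :=
            sum_le_sum fun s hs => mul_le_mul_of_nonneg_left (hTc a ha' s hs) (hKn _ _)
        _ = (∑ s ∈ Icc 1 A, KK k e a s) * (16 * x ^ 2 * ℓ ^ 2 / e ^ 2) := by rw [sum_mul]
        _ ≤ _ := by
          apply mul_le_mul_of_nonneg_right _ (by positivity)
          refine (per_sum A e he1 (fun s => KK k e a s) (KK_per2 hk e a) (fun s => hKn a s)).trans ?_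
          have h2 := KK_m2 hk e he heD (a : ℤ)
          rw [← hω] at h2
          apply mul_le_mul _ h2 (sum_nonneg fun _ _ => hKn _ _) (by positivity)
          rw [div_add_one he0.ne']
          apply div_le_div_of_nonneg_right _ he0.le
          have : (e : ℝ) ≤ A := by exact_mod_cast heA
          linarith
    refine (sum_le_sum h1).trans ?_
    rw [sum_const, nsmul_eq_mul]
    calc (#(big) : ℝ) * ((2 * A / e) * (C : ℝ) ^ ω * (16 * x ^ 2 * ℓ ^ 2 / e ^ 2)) ≤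
          (e * (d : ℝ) ^ ω / Lg) * ((2 * A / e) * (C : ℝ) ^ ω * (16 * x ^ 2 * ℓ ^ 2 / e ^ 2)) :=
            mul_le_mul_of_nonneg_right hbigc (by positivity)
      _ = _ := by field_simp; ring
  -- part two
  set Y : ℕ → ℝ := fun l => (x / (e * u)) ^ 2 * ∑ n ∈ cls H e l, ‖f n‖ ^ 2 +
    (2 * x / e) ^ 2 * (1 / M) * ∑ q ∈ Icc 1 ⌊Γ⌋₊, (4 * (q * e : ℕ) * Γ) * (Γ ^ 2 * (q * ∑ κ ∈ (range (q * e)).filter (fun κ => κ % e = l), mx z H (q * e) κ ^ 2)) with hY
  have hY0 : ∀ l, 0 ≤ Y l := by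
    intro l
    rw [hY]
    have h1 : 0 ≤ ∑ q ∈ Icc 1 ⌊Γ⌋₊, (4 * ((q * e : ℕ) : ℝ) * Γ) * (Γ ^ 2 * (q * ∑ κ ∈ (range (q * e)).filter (fun κ => κ % e = l), mx z H (q * e) κ ^ 2)) := by
      apply sum_nonneg
      intro q _
      have : 0 ≤ ∑ κ ∈ (range (q * e)).filter (fun κ => κ % e = l), mx z H (q * e) κ ^ 2 := sum_nonneg fun _ _ => sq_nonneg _
      positivity
    have h2 : 0 ≤ ∑ n ∈ cls H e l, ‖f n‖ ^ 2 := sum_nonneg fun _ _ => sq_nonneg _
    positivity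
  have hpt : ∀ a ∈ (range e).filter (fun a : ℕ => ¬ Lg < (Nat.gcd (P.derivative.eval (a : ℤ)).natAbs e : ℝ)), ∀ l ∈ range e,
      (1 / (M : ℝ)) * ∑ t ∈ range M, ‖Th f H M e l t‖ ^ 2 * ‖Sm F M y e a t‖ ^ 2 ≤ Y l := by
    intro a ha l hl'
    rw [mem_filter, mem_range] at ha
    rw [mem_range] at hl'
    have hg := not_lt.1 ha.2
    have h1 : ∀ t ∈ range M, ‖Th f H M e l t‖ ^ 2 * ‖Sm F M y e a t‖ ^ 2 ≤ (x / (e * u)) ^ 2 * ‖Th f H M e l t‖ ^ 2 +
        (2 * x / e) ^ 2 * ∑ q ∈ Icc 1 ⌊Γ⌋₊, (if t ∈ Tset M (q * e) η then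
          Γ ^ 2 * (∑ κ ∈ (range (q * e)).filter (fun κ => κ % e = l), mx z H (q * e) κ) ^ 2 else 0) := by
      intro t ht
      rw [mem_range] at ht
      have hsum0 : 0 ≤ ∑ q ∈ Icc 1 ⌊Γ⌋₊, (if t ∈ Tset M (q * e) η then
          Γ ^ 2 * (∑ κ ∈ (range (q * e)).filter (fun κ => κ % e = l), mx z H (q * e) κ) ^ 2 else 0) := by
        apply sum_nonneg
        intro q _
        split_ifs
        · positivity
        · exact le_rfl
      by_cases hb : (x : ℝ) ≤ e * u * ‖Sm F M y e a t‖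
      · obtain ⟨q, hq1, hq2, b, hb2⟩ := hfreq x M y e a u t he hy ha.1 hu hsize hb
        rw [← hη] at hb2
        have hqΓ : (q : ℝ) ≤ Γ := by
          refine hq2.trans (le_trans ?_ hΓ3)
          apply mul_le_mul_of_nonneg_left _ (by positivity)
          exact pow_le_pow_left₀ (Nat.cast_nonneg _) hg _
        have hq3 : q ∈ Icc 1 ⌊Γ⌋₊ := mem_Icc.2 ⟨hq1, Nat.le_floor hqΓ⟩
        have htT : t ∈ Tset M (q * e) η := mem_Tset.2 ⟨ht, b, hb2⟩
        have hTh := Th_le f H M e l (q * e) (Nat.mul_pos hq1 he1) (Dvd.intro_left _ rfl) t b (fun κ => mx z H (q * e) κ) (by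
          intro κ _ y' hy'
          have h2 := le_mx z H (q * e) κ y' hy'
          rw [hf]
          simp only
          rw [← Complex.ofReal_sum, Complex.norm_real, Real.norm_eq_abs]
          exact h2)
        have hZ : 1 + 2 * Real.pi * |(t : ℝ) / M - b / ((q * e : ℕ) : ℝ)| * H ≤ Γ := by
          refine le_trans ?_ hΓ2
          have hpi := Real.pi_pos
          gcongr
        have hmx0 : 0 ≤ ∑ κ ∈ (range (q * e)).filter (fun κ => κ % e = l), mx z H (q * e) κ := sum_nonneg fun _ _ => mx_nonneg _ _ _ _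
        have h2 : ‖Th f H M e l t‖ ^ 2 ≤ Γ ^ 2 * (∑ κ ∈ (range (q * e)).filter (fun κ => κ % e = l), mx z H (q * e) κ) ^ 2 := by
          rw [← mul_pow]
          apply pow_le_pow_left₀ (norm_nonneg _)
          exact hTh.trans (mul_le_mul_of_nonneg_right hZ hmx0)
        have h3 : Γ ^ 2 * (∑ κ ∈ (range (q * e)).filter (fun κ => κ % e = l), mx z H (q * e) κ) ^ 2 ≤ ∑ q ∈ Icc 1 ⌊Γ⌋₊, (if t ∈ Tset M (q * e) η then
          Γ ^ 2 * (∑ κ ∈ (range (q * e)).filter (fun κ => κ % e = l), mx z H (q * e) κ) ^ 2 else 0) := by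
          have h4 := single_le_sum (f := fun q => (if t ∈ Tset M (q * e) η then
            Γ ^ 2 * (∑ κ ∈ (range (q * e)).filter (fun κ => κ % e = l), mx z H (q * e) κ) ^ 2 else 0)) (fun q _ => by

              split_ifs
              · positivity
              · exact le_rfl) hq3
          simp only [if_pos htT] at h4
          exact h4
        have h4 : ‖Sm F M y e a t‖ ^ 2 ≤ (2 * x / e) ^ 2 := by
          apply pow_le_pow_left₀ (norm_nonneg _)
          unfold Sm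
          refine (norm_sum_le _ _).trans ?_
          have : ∀ n ∈ cls y e a, ‖ee ((t : ℝ) * ((F n : ℝ) / M))‖ ≤ 1 := fun n _ => (norm_ee _).le
          refine (sum_le_sum this).trans ?_
          rw [sum_const, nsmul_eq_mul, mul_one]
          exact card_cls x y e a e he1 hex hy le_rfl ha.1
        have h5 : ‖Th f H M e l t‖ ^ 2 * ‖Sm F M y e a t‖ ^ 2 ≤ (∑ q ∈ Icc 1 ⌊Γ⌋₊, (if t ∈ Tset M (q * e) η then
          Γ ^ 2 * (∑ κ ∈ (range (q * e)).filter (fun κ => κ % e = l), mx z H (q * e) κ) ^ 2 else 0)) * (2 * x / e) ^ 2 :=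
          mul_le_mul (h2.trans h3) h4 (by positivity) hsum0
        have h6 : 0 ≤ (x / (e * u)) ^ 2 * ‖Th f H M e l t‖ ^ 2 := by positivity
        linarith
      · push Not at hb
        have h2 : ‖Sm F M y e a t‖ ^ 2 ≤ (x / (e * u)) ^ 2 := by
          apply pow_le_pow_left₀ (norm_nonneg _)
          rw [le_div_iff₀ (by positivity)]
          linarith
        have h3 : ‖Th f H M e l t‖ ^ 2 * ‖Sm F M y e a t‖ ^ 2 ≤ ‖Th f H M e l t‖ ^ 2 * (x / (e * u)) ^ 2 :=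
          mul_le_mul_of_nonneg_left h2 (by positivity)
        have h4 : 0 ≤ (2 * x / e) ^ 2 * ∑ q ∈ Icc 1 ⌊Γ⌋₊, (if t ∈ Tset M (q * e) η then
          Γ ^ 2 * (∑ κ ∈ (range (q * e)).filter (fun κ => κ % e = l), mx z H (q * e) κ) ^ 2 else 0) := mul_nonneg (by positivity) hsum0
        linarith
    have h2 : ∑ t ∈ range M, ∑ q ∈ Icc 1 ⌊Γ⌋₊, (if t ∈ Tset M (q * e) η then
          Γ ^ 2 * (∑ κ ∈ (range (q * e)).filter (fun κ => κ % e = l), mx z H (q * e) κ) ^ 2 else 0) ≤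
        ∑ q ∈ Icc 1 ⌊Γ⌋₊, (4 * ((q * e : ℕ) : ℝ) * Γ) * (Γ ^ 2 * (q * ∑ κ ∈ (range (q * e)).filter (fun κ => κ % e = l), mx z H (q * e) κ ^ 2)) := by
      rw [sum_comm]
      apply sum_le_sum
      intro q hq
      rw [mem_Icc] at hq
      rw [← sum_filter, sum_const, nsmul_eq_mul]
      have h3 : (range M).filter (fun t => t ∈ Tset M (q * e) η) = Tset M (q * e) η := by
        ext t
        rw [mem_filter, mem_range]
        exact ⟨fun h => h.2, fun h => ⟨(mem_Tset.1 h).1, h⟩⟩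
      rw [h3]
      have h4 := card_Tset M (q * e) η hM1 (Nat.mul_pos hq.1 he1) hη0 hη1
      have h5 : (#(Tset M (q * e) η) : ℝ) ≤ 4 * ((q * e : ℕ) : ℝ) * Γ := by
        refine h4.trans ?_
        apply mul_le_mul_of_nonneg_left hΓ1 (by positivity)
      apply mul_le_mul h5 _ (by positivity) (by positivity)
      apply mul_le_mul_of_nonneg_left _ (by positivity)
      have h6 := sq_sum_le_card_mul_sum_sq (s := (range (q * e)).filter (fun κ => κ % e = l)) (f := fun κ => mx z H (q * e) κ)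
      refine h6.trans ?_
      apply mul_le_mul_of_nonneg_right _ (sum_nonneg fun _ _ => sq_nonneg _)
      exact_mod_cast card_sub_cls q e l he1
    have h3 := pars_Th f H M e l hM1 (by omega)
    calc (1 / (M : ℝ)) * ∑ t ∈ range M, ‖Th f H M e l t‖ ^ 2 * ‖Sm F M y e a t‖ ^ 2 ≤
        (1 / (M : ℝ)) * ∑ t ∈ range M, ((x / (e * u)) ^ 2 * ‖Th f H M e l t‖ ^ 2 +
        (2 * x / e) ^ 2 * ∑ q ∈ Icc 1 ⌊Γ⌋₊, (if t ∈ Tset M (q * e) η then
          Γ ^ 2 * (∑ κ ∈ (range (q * e)).filter (fun κ => κ % e = l), mx z H (q * e) κ) ^ 2 else 0)) :=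
          mul_le_mul_of_nonneg_left (sum_le_sum h1) (by positivity)
      _ = (x / (e * u)) ^ 2 * ∑ n ∈ cls H e l, ‖f n‖ ^ 2 + (2 * x / e) ^ 2 * (1 / M) * ∑ t ∈ range M, ∑ q ∈ Icc 1 ⌊Γ⌋₊, (if t ∈ Tset M (q * e) η then
          Γ ^ 2 * (∑ κ ∈ (range (q * e)).filter (fun κ => κ % e = l), mx z H (q * e) κ) ^ 2 else 0) := by
          rw [sum_add_distrib, ← mul_sum, ← mul_sum, h3]
          field_simp
      _ ≤ Y l := by
          rw [hY]
          simp only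
          apply add_le_add le_rfl
          exact mul_le_mul_of_nonneg_left h2 (by positivity)
  have part2 : ∑ a ∈ (range e).filter (fun a : ℕ => ¬ Lg < (Nat.gcd (P.derivative.eval (a : ℤ)).natAbs e : ℝ)),
      ∑ s ∈ Icc 1 A, KK k e a s * ‖Tc f H F y e a s‖ ^ 2 ≤ (C : ℝ) ^ ω * ∑ l ∈ range e, Y l := by
    have h1 : ∀ a ∈ (range e).filter (fun a : ℕ => ¬ Lg < (Nat.gcd (P.derivative.eval (a : ℤ)).natAbs e : ℝ)),
        ∑ s ∈ Icc 1 A, KK k e a s * ‖Tc f H F y e a s‖ ^ 2 ≤ ∑ l ∈ range e, KK k e a (l - P.eval (a : ℤ)) * Y l := by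
      intro a ha
      have ha' := (mem_filter.1 ha).1
      rw [mem_range] at ha'
      rw [← reidx P e a he1 (fun s => KK k e a s) (KK_per2 hk e a) Y,
        cls_fiber A e he1 (fun s => KK k e a s * ‖Tc f H F y e a s‖ ^ 2)]
      apply sum_le_sum
      intro κ hκ
      rw [mem_range] at hκ
      have h2 : ∀ s ∈ cls A e κ, KK k e a s * ‖Tc f H F y e a s‖ ^ 2 = KK k e a κ * ‖Tc f H F y e a s‖ ^ 2 := by
        intro s hs
        rw [mem_cls] at hs
        congr 1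
        apply KK_per2 hk e a
        have := Nat.modEq_iff_dvd.1 (show κ ≡ s [MOD e] by rw [Nat.ModEq, hs.2, Nat.mod_eq_of_lt hκ])
        exact this
      rw [sum_congr rfl h2, ← mul_sum]
      apply mul_le_mul_of_nonneg_left _ (hKn _ _)
      have hez : (0 : ℤ) < e := by exact_mod_cast he1
      obtain ⟨l, hle⟩ : ∃ l : ℕ, l = (((κ : ℤ) + P.eval (a : ℤ)) % e).toNat := ⟨_, rfl⟩
      have h3 := Int.emod_nonneg ((κ : ℤ) + P.eval (a : ℤ)) hez.ne'
      have h4 := Int.emod_lt_of_pos ((κ : ℤ) + P.eval (a : ℤ)) hez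
      have hle' : (l : ℤ) = ((κ : ℤ) + P.eval (a : ℤ)) % e := by rw [hle, Int.toNat_of_nonneg h3]
      rw [← hle]
      refine le_trans ?_ (hpt a ha l (mem_range.2 (by omega)))
      have h5 := pars_cls f H M A y e a κ l F he1 hM1 (by omega) (by
        intro s hs n hn m' hm'
        have hn' : n ∈ Icc 1 x := by rw [mem_Icc] at hn ⊢; omega
        have h6 := abs_le.1 (hval s hs n hn')
        rw [mem_Icc] at hm'
        rw [abs_lt]
        constructor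
        · show -(M : ℤ) < (s : ℤ) + P.eval (n : ℤ) - m'
          omega
        · show (s : ℤ) + P.eval (n : ℤ) - m' < M
          omega) (by omega) (by
        intro n hn s hs
        have h6 : (e : ℤ) ∣ (s : ℤ) - κ := by
          have := Nat.modEq_iff_dvd.1 (show κ ≡ s [MOD e] by rw [Nat.ModEq, hs, Nat.mod_eq_of_lt hκ])
          exact this
        have h7 : (e : ℤ) ∣ P.eval (n : ℤ) - P.eval (a : ℤ) := by
          have h8 : (e : ℤ) ∣ (n : ℤ) - a := by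
            have := Nat.modEq_iff_dvd.1 (show a ≡ n [MOD e] by rw [Nat.ModEq, hn, Nat.mod_eq_of_lt ha'])
            exact this
          exact h8.trans (Polynomial.sub_dvd_eval_sub _ _ _)
        have h8 : (e : ℤ) ∣ ((κ : ℤ) + P.eval (a : ℤ)) - l := by
          rw [hle']; exact Int.dvd_self_sub_emod
        have h9 := dvd_add (dvd_add h6 h7) h8
        have e1 : (s : ℤ) + F n - l = (s : ℤ) - κ + (P.eval (n : ℤ) - P.eval (a : ℤ)) + (((κ : ℤ) + P.eval (a : ℤ)) - l) := by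
          show (s : ℤ) + P.eval (n : ℤ) - l = _
          ring
        rw [e1]
        exact h9)
      exact h5
    refine (sum_le_sum h1).trans ?_
    calc ∑ a ∈ (range e).filter (fun a : ℕ => ¬ Lg < (Nat.gcd (P.derivative.eval (a : ℤ)).natAbs e : ℝ)), ∑ l ∈ range e, KK k e a (l - P.eval (a : ℤ)) * Y l ≤
        ∑ a ∈ range e, ∑ l ∈ range e, KK k e a (l - P.eval (a : ℤ)) * Y l :=
          sum_le_sum_of_subset_of_nonneg (filter_subset _ _) (fun _ _ _ => sum_nonneg fun _ _ => mul_nonneg (hKn _ _) (hY0 _))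
      _ = ∑ l ∈ range e, (∑ a ∈ range e, KK k e a (l - P.eval (a : ℤ))) * Y l := by
          rw [sum_comm]
          exact sum_congr rfl fun l _ => by rw [sum_mul]
      _ ≤ ∑ l ∈ range e, (C : ℝ) ^ ω * Y l := by
          apply sum_le_sum
          intro l _
          apply mul_le_mul_of_nonneg_right _ (hY0 l)
          have := KK_m3 hk e he heD (l : ℤ)
          rw [← hω] at this
          exact this
      _ = _ := by rw [mul_sum]
  have hYsum : ∑ l ∈ range e, Y l ≤ (1 / e) * (4 * x ^ 2 * H * ℓ ^ 2 / (e * u ^ 2) + 16 * x ^ 2 * Γ ^ 5 / M * ∑ q ∈ Icc 1 ⌊Γ⌋₊, vr z H (q * e)) := by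
    rw [hY]
    simp only
    rw [sum_add_distrib, ← mul_sum, ← mul_sum, sum_comm (s := range e)]
    have h1 : ∑ l ∈ range e, ∑ n ∈ cls H e l, ‖f n‖ ^ 2 ≤ H * (2 * ℓ) ^ 2 := by
      rw [← cls_fiber H e he1 (fun n => ‖f n‖ ^ 2)]
      have h2 : ∀ n ∈ Icc 1 H, ‖f n‖ ^ 2 ≤ (2 * ℓ) ^ 2 := fun n hn => pow_le_pow_left₀ (norm_nonneg _) (hfle n (mem_Icc.1 hn).2) 2
      refine (sum_le_sum h2).trans (le_of_eq ?_)
      rw [sum_const, Nat.card_Icc, Nat.add_sub_cancel, nsmul_eq_mul]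
    have h2 : ∑ q ∈ Icc 1 ⌊Γ⌋₊, ∑ l ∈ range e, (4 * ((q * e : ℕ) : ℝ) * Γ) * (Γ ^ 2 * (q * ∑ κ ∈ (range (q * e)).filter (fun κ => κ % e = l), mx z H (q * e) κ ^ 2)) ≤
        (4 * e * Γ ^ 5) * ∑ q ∈ Icc 1 ⌊Γ⌋₊, vr z H (q * e) := by
      rw [mul_sum]
      apply sum_le_sum
      intro q hq
      rw [mem_Icc] at hq
      have hqΓ : (q : ℝ) ≤ Γ := (Nat.le_floor_iff hΓ0.le).1 hq.2
      rw [← mul_sum, ← mul_sum, ← mul_sum]
      have h3 : ∑ l ∈ range e, ∑ κ ∈ (range (q * e)).filter (fun κ => κ % e = l), mx z H (q * e) κ ^ 2 = vr z H (q * e) := by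
        unfold vr
        exact sum_fiberwise_of_maps_to (fun κ _ => mem_range.2 (Nat.mod_lt _ (by omega))) _
      rw [h3]
      have hvr := vr_nonneg z H (q * e)
      push_cast
      calc 4 * ((q : ℝ) * e) * Γ * (Γ ^ 2 * (q * vr z H (q * e))) ≤ 4 * (Γ * e) * Γ * (Γ ^ 2 * (Γ * vr z H (q * e))) := by gcongr
        _ = _ := by ring
    calc _ ≤ (x / (e * u)) ^ 2 * (H * (2 * ℓ) ^ 2) + (2 * x / e) ^ 2 * (1 / M) * ((4 * e * Γ ^ 5) * ∑ q ∈ Icc 1 ⌊Γ⌋₊, vr z H (q * e)) :=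
          add_le_add (mul_le_mul_of_nonneg_left h1 (by positivity)) (mul_le_mul_of_nonneg_left h2 (by positivity))
      _ = _ := by field_simp; ring
  have h3 : (C : ℝ) ^ ω * ∑ l ∈ range e, Y l ≤ (C : ℝ) ^ ω * ((1 / e) * (4 * x ^ 2 * H * ℓ ^ 2 / (e * u ^ 2) + 16 * x ^ 2 * Γ ^ 5 / M * ∑ q ∈ Icc 1 ⌊Γ⌋₊, vr z H (q * e))) :=
    mul_le_mul_of_nonneg_left hYsum (by positivity)
  refine (add_le_add part1 (part2.trans h3)).trans (le_of_eq ?_)
  ring

end Pool.Agent.H544.BC
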