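import Mathlib
import Pool.Agent.H544.BC.Lev2
import Pool.Graph.R_seed8.H373R2.T7.Tuple2
import Pool.Graph.R_seed8.H373R2.T7.Fund

/-!
The level of distribution with classes which depend on the shift.
-/

set_option autoImplicit false

namespace Pool.Agent.H544.BC
open Finset Polynomial Filter
open Pool.Agent.H807R2.Dav
open Pool.Agent.H373R2.T7
open Pool.Agent.N913.MT (evt_log_pow evt_log_ge)
open Pool.Agent.H544.LD (cls cls_sum card_cls Sm)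

/-- primes minus the model, on the integers -/
noncomputable def fpI (z : ℕ) (m : ℤ) : ℝ := if 1 ≤ m then fp z m.toNat else 0

lemma fpI_eq (z : ℕ) (m : ℤ) : fpI z m = lamP m - lamzI z m := by
  unfold fpI fp lamP lamzI
  by_cases h : 1 ≤ m
  · rw [if_pos h, if_pos h]
  · rw [if_neg h, if_neg h]
    have : m.toNat = 0 := by omega
    rw [this, if_neg Nat.not_prime_zero, sub_zero]

/-- sums of multiplicative functions over squarefree numbers -/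
lemma omsum (K : ℕ) : ∃ W N0 : ℕ, ∀ x : ℕ, N0 ≤ x → ∀ S : Finset ℕ, (∀ e ∈ S, Squarefree e ∧ e ≤ x) →
    ∑ e ∈ S, (K : ℝ) ^ #(e.primeFactors) / e ≤ Real.log x ^ W := by
  obtain ⟨C, N0, hV⟩ := Vz_low
  refine ⟨C * K, max N0 3, fun x hx S hS => ?_⟩
  have hx1 : N0 ≤ x := (le_max_left _ _).trans hx
  have hx3 : 3 ≤ x := (le_max_right _ _).trans hx
  have hL1 : 1 ≤ Real.log x := by
    rw [Real.le_log_iff_exp_le (by positivity)]
    have := Real.exp_one_lt_d9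
    have : (3 : ℝ) ≤ x := by exact_mod_cast hx3
    linarith
  have h1 : ∑ e ∈ S, (K : ℝ) ^ #(e.primeFactors) / e ≤ ∑ T ∈ (pz x).powerset, ∏ p ∈ T, ((K : ℝ) / p) := by
    have e1 : ∀ e ∈ S, (K : ℝ) ^ #(e.primeFactors) / e = ∏ p ∈ e.primeFactors, ((K : ℝ) / p) := by
      intro e he
      rw [prod_div_distrib, prod_const]
      congr 1
      have := Nat.prod_primeFactors_of_squarefree (hS e he).1
      rw [← Nat.cast_prod, this]
    rw [sum_congr rfl e1]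
    have hinj : ∀ a ∈ S, ∀ b ∈ S, Nat.primeFactors a = Nat.primeFactors b → a = b := by
      intro a ha b hb hab
      rw [← Nat.prod_primeFactors_of_squarefree (hS a ha).1, ← Nat.prod_primeFactors_of_squarefree (hS b hb).1, hab]
    rw [← sum_image (f := fun T : Finset ℕ => ∏ p ∈ T, ((K : ℝ) / p)) (s := S) (g := Nat.primeFactors) (by
      intro a ha b hb hab
      exact hinj a ha b hb hab)]
    apply sum_le_sum_of_subset_of_nonneg
    · intro T hT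
      rw [mem_image] at hT
      obtain ⟨e, he, rfl⟩ := hT
      rw [mem_powerset]
      intro p hp
      rw [mem_pz]
      refine ⟨(Nat.le_of_dvd (Nat.pos_of_ne_zero (hS e he).1.ne_zero) (Nat.dvd_of_mem_primeFactors hp)).trans (hS e he).2, Nat.prime_of_mem_primeFactors hp⟩
    · intro T _ _
      positivity
  refine h1.trans ?_
  rw [← prod_one_add]
  have h2 : ∀ p ∈ pz x, 1 + (K : ℝ) / p ≤ ((1 - 1 / (p : ℝ))⁻¹) ^ K := by
    intro p hp
    have hp2 := (mem_pz.1 hp).2.two_le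
    have hp2' : (2 : ℝ) ≤ p := by exact_mod_cast hp2
    have h3 : 1 + (K : ℝ) / p ≤ (1 + 1 / (p : ℝ)) ^ K := by
      have h0 : (0 : ℝ) ≤ 1 / (p : ℝ) := by positivity
      have := one_add_mul_le_pow (a := 1 / (p : ℝ)) (by linarith) K
      rw [mul_one_div] at this
      exact this
    refine h3.trans (pow_le_pow_left₀ (by positivity) ?_ K)
    rw [le_inv_comm₀ (by positivity) (by
      rw [sub_pos, div_lt_one (by linarith)]; linarith)]
    rw [← sub_nonneg]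
    have : (1 + 1 / (p : ℝ))⁻¹ - (1 - 1 / (p : ℝ)) = 1 / (p * (p + 1)) := by
      field_simp
      ring
    rw [this]
    positivity
  refine (prod_le_prod (fun p _ => by positivity) h2).trans ?_
  rw [prod_pow, prod_inv_distrib, pow_mul]
  have h3 : (∏ p ∈ pz x, (1 - 1 / (p : ℝ)))⁻¹ ≤ Real.log x ^ C := by
    show (Vz x)⁻¹ ≤ _
    rw [inv_le_comm₀ (Vz_pos x) (by positivity), ← one_div]
    exact hV x hx1
  exact pow_le_pow_left₀ (inv_nonneg.2 (Vz_pos x).le) h3 K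

/-- the level of distribution -/
theorem level (P : ℤ[X]) (hd : 1 ≤ P.natDegree) (hl : 0 < P.leadingCoeff) (B : ℕ) (U : ℕ) (C D : ℕ) (hC : 1 ≤ C) :
    ∃ E0 : ℕ, ∀ E : ℕ, ∃ N0 : ℕ, ∀ x : ℕ, N0 ≤ x → ∀ A : ℕ, A ≤ B * x ^ P.natDegree → x ^ P.natDegree ≤ B * A →
    ∀ z : ℕ, Real.log x ^ E0 ≤ z → (z : ℝ) ≤ Real.log x ^ E → ∀ y ≤ x, ∀ k : ℕ → ℤ → ℤ → ℝ, Ker P C D k →
    ∀ S : Finset ℕ, (∀ e ∈ S, Squarefree e ∧ (∀ p ∈ e.primeFactors, D < p ∧ ¬ p ∣ P.natDegree * P.leadingCoeff.natAbs) ∧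
      e ^ (8 * (P.natDegree + 2)) ≤ x ∧ e ≤ A) →
    ∀ Ψ : ℕ → ℤ → ℤ → ℝ, (∀ e ∈ S, ∀ n c, |Ψ e n c| ≤ KK k e n c) → (∀ e ∈ S, ∀ c, Per e (fun n => Ψ e n c)) →
    ∑ e ∈ S, (C : ℝ) ^ #(e.primeFactors) * ∑ c ∈ Icc 1 A, |∑ n ∈ Icc 1 y, fpI z (c + P.eval (n : ℤ)) * Ψ e n c| ≤
      x * A / Real.log x ^ U := by
  classical
  obtain ⟨c, m, hc, hone⟩ := one_e P hd hl D
  set d := P.natDegree with hdd
  obtain ⟨W, N1, hW⟩ := omsum (C ^ 5 + d)
  set g : ℕ := 2 * U + 2 * W + 5 with hg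
  set γ : ℕ := g * m + g * (d - 1) + 1 with hγ
  set V : ℕ := 6 * γ + W + 2 * U + 1 with hV
  obtain ⟨E0', hvar⟩ := var_sum V
  refine ⟨E0' + 1, fun E => ?_⟩
  obtain ⟨H0, hvar⟩ := hvar (E + 1)
  obtain ⟨N2, hVi⟩ := Vz_inv_small (E + 1)
  set c2 : ℝ := B + cf P + 1 with hc2
  set c3 : ℝ := 1 + (cf P + 1) * B with hc3
  set KL : ℝ := 6 * c2 * (c * 2 ^ m) * 4 + 2 + 96 * ((d : ℝ) + 1) ^ 2 * (1 + c3) + Real.log c2 + ((d : ℝ) + 1) ^ E0' + 24 * c3 with hKL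
  obtain ⟨N3, hN3⟩ := eventually_atTop.1 ((evt_log_ge KL).and ((evt_log_pow (1 / 4) (by norm_num) (c * 2 ^ m) (g * m)).and
    ((evt_log_pow (1 / 4) (by norm_num) 1 (8 * γ)).and (eventually_ge_atTop (N1 + N2 + H0 + 3)))))
  refine ⟨N3, fun x hx A hA1 hA2 z hz1 hz2 y hy k hk S hS Ψ hΨ hΨp => ?_⟩
  obtain ⟨g1, g2, g3, g4⟩ := hN3 x hx
  obtain ⟨L, hL⟩ : ∃ L, L = Real.log x := ⟨_, rfl⟩
  rw [← hL] at g1 g2 g3 hz1 hz2 ⊢
  have hx3 : 3 ≤ x := by omega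
  have hx0 : (0 : ℝ) < x := by positivity
  have hx1 : (1 : ℝ) ≤ x := by exact_mod_cast (by omega : 1 ≤ x)
  have hcR : (1 : ℝ) ≤ c := by exact_mod_cast hc
  have hB1 : 1 ≤ B := by
    rcases Nat.eq_zero_or_pos B with h | h
    · rw [h, zero_mul] at hA2
      have : 0 < x ^ d := by positivity
      omega
    · exact h
  have hA0 : 1 ≤ A := by
    rcases Nat.eq_zero_or_pos A with h | h
    · rw [h, mul_zero] at hA2
      have : 0 < x ^ d := by positivity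
      omega
    · exact h
  have hAR : (0 : ℝ) < A := by exact_mod_cast hA0
  have hc20 : 1 ≤ c2 := by
    rw [hc2]
    have : (0 : ℝ) ≤ B := Nat.cast_nonneg _
    have : (0 : ℝ) ≤ cf P := Nat.cast_nonneg _
    linarith
  have hc30 : 1 ≤ c3 := by
    rw [hc3]
    have : (0 : ℝ) ≤ (cf P + 1) * B := by positivity
    linarith
  have hlc2 : 0 ≤ Real.log c2 := Real.log_nonneg hc20
  have h2m : (1 : ℝ) ≤ c * 2 ^ m := one_le_mul_of_one_le_of_one_le hcR (one_le_pow₀ (by norm_num))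
  have hKL1 : 6 * c2 * (c * 2 ^ m) * 4 + 2 ≤ L := by
    refine le_trans ?_ g1
    rw [hKL]
    have : 0 ≤ 96 * ((d : ℝ) + 1) ^ 2 * (1 + c3) := by positivity
    have : 0 ≤ ((d : ℝ) + 1) ^ E0' := by positivity
    linarith
  have hKL2 : 96 * ((d : ℝ) + 1) ^ 2 * (1 + c3) ≤ L := by
    refine le_trans ?_ g1
    rw [hKL]
    have : 0 ≤ 6 * c2 * (c * 2 ^ m) * 4 + 2 := by positivity
    have : 0 ≤ ((d : ℝ) + 1) ^ E0' := by positivity
    linarith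
  have hKL3 : Real.log c2 ≤ L := by
    refine le_trans ?_ g1
    rw [hKL]
    have : 0 ≤ 6 * c2 * (c * 2 ^ m) * 4 + 2 := by positivity
    have : 0 ≤ 96 * ((d : ℝ) + 1) ^ 2 * (1 + c3) := by positivity
    have : 0 ≤ ((d : ℝ) + 1) ^ E0' := by positivity
    linarith
  have hKL4 : ((d : ℝ) + 1) ^ E0' ≤ L := by
    refine le_trans ?_ g1
    rw [hKL]
    have : 0 ≤ 6 * c2 * (c * 2 ^ m) * 4 + 2 := by positivity
    have : 0 ≤ 96 * ((d : ℝ) + 1) ^ 2 * (1 + c3) := by positivity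
    linarith
  have hKL5 : 24 * c3 ≤ L := by
    refine le_trans ?_ g1
    rw [hKL]
    have : 0 ≤ 6 * c2 * (c * 2 ^ m) * 4 + 2 := by positivity
    have : 0 ≤ 96 * ((d : ℝ) + 1) ^ 2 * (1 + c3) := by positivity
    have : 0 ≤ ((d : ℝ) + 1) ^ E0' := by positivity
    linarith
  have hL24 : 24 ≤ L := by linarith
  have hL0 : 0 < L := by linarith
  have hL1 : 1 ≤ L := by linarith
  -- the length
  obtain ⟨H, hH⟩ : ∃ H : ℕ, H = A + (cf P + 1) * x ^ d := ⟨_, rfl⟩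
  have hxH : x ≤ H := by
    have h5 : x ≤ x ^ d := Nat.le_self_pow (by omega) x
    have h6 : x ^ d ≤ (cf P + 1) * x ^ d := Nat.le_mul_of_pos_left _ (by omega)
    rw [hH]
    exact (h5.trans h6).trans (Nat.le_add_left _ _)
  have hHR0 : (0 : ℝ) < H := by
    have : 0 < H := by omega
    exact_mod_cast this
  have hH1 : (H : ℝ) ≤ c2 * (x : ℝ) ^ d := by
    rw [hH, hc2]
    have : (A : ℝ) ≤ B * (x : ℝ) ^ d := by exact_mod_cast hA1
    push_cast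
    linarith
  have hH2 : (H : ℝ) ≤ c3 * A := by
    rw [hH, hc3]
    have : (x : ℝ) ^ d ≤ B * A := by exact_mod_cast hA2
    push_cast
    have h5 : ((cf P : ℝ) + 1) * (x : ℝ) ^ d ≤ (cf P + 1) * (B * A) := mul_le_mul_of_nonneg_left this (by positivity)
    linarith
  obtain ⟨ℓ, hℓ⟩ : ∃ ℓ, ℓ = Real.log H := ⟨_, rfl⟩
  have hℓ1 : L ≤ ℓ := by
    rw [hL, hℓ]
    exact Real.log_le_log hx0 (by exact_mod_cast hxH)
  have hℓ2 : ℓ ≤ (d + 1) * L := by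
    rw [hℓ]
    refine (Real.log_le_log hHR0 hH1).trans ?_
    rw [Real.log_mul (by linarith) (by positivity), Real.log_pow, ← hL]
    linarith
  have hℓ0 : 0 < ℓ := by linarith
  -- the parameters
  obtain ⟨u, hu⟩ : ∃ u, u = L ^ g := ⟨_, rfl⟩
  have hu1 : 1 ≤ u := by rw [hu]; exact one_le_pow₀ hL1
  obtain ⟨Γ, hΓ⟩ : ∃ Γ, Γ = L ^ γ := ⟨_, rfl⟩
  have hΓ1 : 1 ≤ Γ := by rw [hΓ]; exact one_le_pow₀ hL1
  have h2u : (c : ℝ) * (2 * u) ^ m = c * 2 ^ m * L ^ (g * m) := by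
    rw [mul_pow, hu, ← pow_mul]; ring
  have hxd : (0 : ℝ) < (x : ℝ) ^ d := by positivity
  have hxd1 : (x : ℝ) ≤ (x : ℝ) ^ d := by
    calc (x : ℝ) = x ^ 1 := (pow_one _).symm
      _ ≤ x ^ d := pow_le_pow_right₀ hx1 hd
  have hg2 : (c : ℝ) * 2 ^ m * L ^ (g * m) ≤ (x : ℝ) ^ (1 / 4 : ℝ) := g2
  have hx14 : (x : ℝ) ^ (1 / 4 : ℝ) ≤ x := by
    calc (x : ℝ) ^ (1 / 4 : ℝ) ≤ (x : ℝ) ^ (1 : ℝ) := Real.rpow_le_rpow_of_exponent_le hx1 (by norm_num)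
      _ = x := Real.rpow_one _
  have hgΓ : L ^ (g * m) * L ≤ Γ := by
    rw [hΓ, hγ, ← pow_succ]
    exact pow_le_pow_right₀ hL1 (by omega)
  have hη : (c : ℝ) * (2 * u) ^ m / (x : ℝ) ^ d ≤ 1 := by
    rw [div_le_one hxd, h2u]
    linarith
  have hcl : ∀ K : ℝ, 0 ≤ K → K * (c * 2 ^ m) + 1 ≤ L → K * (c * 2 ^ m * L ^ (g * m)) + 1 ≤ Γ := by
    intro K hK hKL
    refine le_trans ?_ hgΓ
    have h5 : 1 ≤ L ^ (g * m) := one_le_pow₀ hL1
    calc K * (c * 2 ^ m * L ^ (g * m)) + 1 ≤ K * (c * 2 ^ m * L ^ (g * m)) + L ^ (g * m) := by linarith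
      _ = L ^ (g * m) * (K * (c * 2 ^ m) + 1) := by ring
      _ ≤ L ^ (g * m) * L := mul_le_mul_of_nonneg_left hKL (by positivity)
  have hηH : c * (2 * u) ^ m / (x : ℝ) ^ d * H ≤ c2 * (c * 2 ^ m * L ^ (g * m)) := by
    rw [h2u, div_mul_eq_mul_div, div_le_iff₀ hxd]
    calc c * 2 ^ m * L ^ (g * m) * H ≤ c * 2 ^ m * L ^ (g * m) * (c2 * (x : ℝ) ^ d) := by gcongr
      _ = _ := by ring
  obtain ⟨M, hM⟩ : ∃ M : ℕ, M = 2 * H + 1 := ⟨_, rfl⟩
  have hMR : (M : ℝ) = 2 * H + 1 := by rw [hM]; push_cast; ring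
  have hH1R : (1 : ℝ) ≤ H := by exact_mod_cast (by omega : 1 ≤ H)
  have hMR0 : (0 : ℝ) < M := by rw [hMR]; linarith
  have hcond1 : 2 * (c * (2 * u) ^ m / (x : ℝ) ^ d) * M + 1 ≤ Γ := by
    have h5 : 2 * (c * (2 * u) ^ m / (x : ℝ) ^ d) * M ≤ 6 * (c2 * (c * 2 ^ m * L ^ (g * m))) := by
      calc 2 * (c * (2 * u) ^ m / (x : ℝ) ^ d) * M ≤ 2 * (c * (2 * u) ^ m / (x : ℝ) ^ d) * (3 * H) := by
            apply mul_le_mul_of_nonneg_left _ (by positivity)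
            rw [hMR]; linarith
        _ = 6 * (c * (2 * u) ^ m / (x : ℝ) ^ d * H) := by ring
        _ ≤ _ := by linarith
    have h6 := hcl (6 * c2) (by positivity) (by nlinarith)
    linarith
  have hcond2 : 1 + 2 * Real.pi * (c * (2 * u) ^ m / (x : ℝ) ^ d) * H ≤ Γ := by
    have h5 : 2 * Real.pi * (c * (2 * u) ^ m / (x : ℝ) ^ d) * H ≤ 8 * (c2 * (c * 2 ^ m * L ^ (g * m))) := by
      have hpi := Real.pi_lt_four
      have hpi0 := Real.pi_pos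
      calc 2 * Real.pi * (c * (2 * u) ^ m / (x : ℝ) ^ d) * H = 2 * Real.pi * (c * (2 * u) ^ m / (x : ℝ) ^ d * H) := by ring
        _ ≤ 8 * (c * (2 * u) ^ m / (x : ℝ) ^ d * H) := by
          apply mul_le_mul_of_nonneg_right _ (by positivity)
          linarith
        _ ≤ _ := by linarith
    have h6 := hcl (8 * c2) (by positivity) (by nlinarith)
    linarith
  have hcond3 : c * (2 * u) ^ m * u ^ (d - 1) ≤ Γ := by
    rw [h2u, hu, ← pow_mul]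
    have h5 : (c : ℝ) * 2 ^ m ≤ L := by nlinarith
    calc c * 2 ^ m * L ^ (g * m) * L ^ (g * (d - 1)) ≤ L * L ^ (g * m) * L ^ (g * (d - 1)) := by gcongr
      _ = L ^ γ := by rw [hγ]; ring
      _ = Γ := hΓ.symm
  -- the model
  have hzH1 : Real.log H ^ E0' ≤ z := by
    rw [← hℓ]
    calc ℓ ^ E0' ≤ ((d + 1) * L) ^ E0' := pow_le_pow_left₀ hℓ0.le hℓ2 _
      _ = (d + 1) ^ E0' * L ^ E0' := mul_pow _ _ _
      _ ≤ L * L ^ E0' := mul_le_mul_of_nonneg_right hKL4 (by positivity)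
      _ = L ^ (E0' + 1) := by ring
      _ ≤ z := hz1
  have hzH2 : (z : ℝ) ≤ Real.log H ^ (E + 1) := by
    rw [← hℓ]
    calc (z : ℝ) ≤ L ^ E := hz2
      _ ≤ L ^ (E + 1) := pow_le_pow_right₀ hL1 (by omega)
      _ ≤ ℓ ^ (E + 1) := pow_le_pow_left₀ hL0.le hℓ1 _
  have hz : 1 ≤ z := by
    have : (1 : ℝ) ≤ z := (one_le_pow₀ hL1).trans hz1
    exact_mod_cast this
  have hVinv : (Vz z)⁻¹ ≤ Real.log H := hVi H (by omega) z hz hzH2
  -- values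
  have hval : ∀ a ∈ Icc 1 A, ∀ n ∈ Icc 1 x, |(a : ℤ) + P.eval (n : ℤ)| ≤ H := by
    intro a ha n hn
    rw [mem_Icc] at ha hn
    have h5 := abs_eval_le P n hn.1
    have h6 : (cf P : ℤ) * (n : ℤ) ^ d ≤ cf P * (x : ℤ) ^ d := by
      apply mul_le_mul_of_nonneg_left _ (by positivity)
      exact_mod_cast Nat.pow_le_pow_left hn.2 d
    have h7 : (0 : ℤ) ≤ (x : ℤ) ^ d := by positivity
    rw [hH]
    push_cast
    calc |(a : ℤ) + P.eval (n : ℤ)| ≤ |(a : ℤ)| + |P.eval (n : ℤ)| := abs_add_le _ _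
      _ ≤ A + cf P * (x : ℤ) ^ d := by
        rw [abs_of_nonneg (by positivity)]
        have : (a : ℤ) ≤ A := by exact_mod_cast ha.2
        linarith
      _ ≤ _ := by linarith
  -- the inner sums
  set Y : ℕ → ℕ → ℝ := fun e s => ∑ a ∈ range e, KK k e a s * ‖Tc (fun n => (fp z n : ℂ)) H (fun n => P.eval (n : ℤ)) y e a s‖ ^ 2 with hY
  have hKn : ∀ e, ∀ a s : ℤ, 0 ≤ KK k e a s := fun e a s => KK_nonneg hk e a s
  have hY0 : ∀ e s, 0 ≤ Y e s := fun e s => sum_nonneg fun a _ => mul_nonneg (hKn _ _ _) (sq_nonneg _)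
  have hin : ∀ e ∈ S, ∀ s ∈ Icc 1 A, |∑ n ∈ Icc 1 y, fpI z (s + P.eval (n : ℤ)) * Ψ e n s| ≤ √((C : ℝ) ^ #(e.primeFactors) * Y e s) := by
    intro e he s hs
    obtain ⟨he1, he2, he3, he4⟩ := hS e he
    have hepos : 1 ≤ e := Nat.one_le_iff_ne_zero.2 he1.ne_zero
    have h5 : ∑ n ∈ Icc 1 y, fpI z (s + P.eval (n : ℤ)) * Ψ e n s = ∑ a ∈ range e, Ψ e a s * ∑ n ∈ cls y e a, fpI z (s + P.eval (n : ℤ)) := by
      rw [cls_fiber y e hepos (fun n => fpI z (s + P.eval (n : ℤ)) * Ψ e n s)]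
      apply sum_congr rfl
      intro a ha
      rw [mem_range] at ha
      rw [mul_sum]
      apply sum_congr rfl
      intro n hn
      rw [mem_cls] at hn
      have h6 : Ψ e n s = Ψ e a s := by
        apply hΨp e he s
        have := Nat.modEq_iff_dvd.1 (show a ≡ n [MOD e] by rw [Nat.ModEq, hn.2, Nat.mod_eq_of_lt ha])
        exact this
      rw [h6, mul_comm]
    have h6 : ∀ a ∈ range e, |∑ n ∈ cls y e a, fpI z (s + P.eval (n : ℤ))| = ‖Tc (fun n => (fp z n : ℂ)) H (fun n => P.eval (n : ℤ)) y e a s‖ := by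
      intro a _
      rw [← Real.norm_eq_abs, ← Complex.norm_real]
      congr 1
      unfold Tc
      push_cast
      apply sum_congr rfl
      intro n hn
      rw [mem_cls] at hn
      have h7 := abs_le.1 (hval s hs n (mem_Icc.2 ⟨hn.1.1, hn.1.2.trans hy⟩))
      unfold fpI fz
      by_cases h8 : 1 ≤ (s : ℤ) + P.eval (n : ℤ)
      · rw [if_pos h8, if_pos ⟨h8, h7.2⟩]
      · rw [if_neg h8, if_neg (fun h9 => h8 h9.1), Complex.ofReal_zero]
    rw [h5]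
    refine (abs_sum_le_sum_abs _ _).trans ?_
    have h7 : ∀ a ∈ range e, |Ψ e a s * ∑ n ∈ cls y e a, fpI z (s + P.eval (n : ℤ))| ≤
        √(KK k e a s) * (√(KK k e a s) * ‖Tc (fun n => (fp z n : ℂ)) H (fun n => P.eval (n : ℤ)) y e a s‖) := by
      intro a ha
      rw [abs_mul, h6 a ha, ← mul_assoc, Real.mul_self_sqrt (hKn _ _ _)]
      exact mul_le_mul_of_nonneg_right (hΨ e he a s) (norm_nonneg _)
    refine (sum_le_sum h7).trans ?_
    apply Real.le_sqrt_of_sq_le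
    refine (sum_mul_sq_le_sq_mul_sq _ _ _).trans ?_
    apply mul_le_mul
    · refine le_trans (le_of_eq (sum_congr rfl fun a _ => Real.sq_sqrt (hKn e a s))) ?_
      exact KK_m1 hk e he1 (fun p hp => (he2 p hp).1) s
    · apply le_of_eq
      apply sum_congr rfl
      intro a _
      rw [mul_pow, Real.sq_sqrt (hKn _ _ _)]
    · exact sum_nonneg fun _ _ => sq_nonneg _
    · positivity
  -- Cauchy
  obtain ⟨G, hG⟩ : ∃ G, G = ∑ e ∈ S, (C : ℝ) ^ #(e.primeFactors) * ∑ c ∈ Icc 1 A, |∑ n ∈ Icc 1 y, fpI z (c + P.eval (n : ℤ)) * Ψ e n c| := ⟨_, rfl⟩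
  rw [← hG]
  have hG0 : 0 ≤ G := by rw [hG]; exact sum_nonneg fun _ _ => mul_nonneg (by positivity) (sum_nonneg fun _ _ => abs_nonneg _)
  have hCR : (1 : ℝ) ≤ C := by exact_mod_cast hC
  have hGle : G ≤ ∑ i ∈ S ×ˢ Icc 1 A, √((C : ℝ) ^ (5 * #(i.1.primeFactors)) / i.1) * √(i.1 * Y i.1 i.2 / (C : ℝ) ^ #(i.1.primeFactors)) := by
    rw [hG, sum_product]
    apply sum_le_sum
    intro e he
    rw [mul_sum]
    apply sum_le_sum
    intro s hs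
    have he0 : (0 : ℝ) < e := by exact_mod_cast Nat.pos_of_ne_zero (hS e he).1.ne_zero
    obtain ⟨ω, hω⟩ : ∃ ω, ω = #(e.primeFactors) := ⟨_, rfl⟩
    have h5 := hin e he s hs
    rw [← hω] at h5 ⊢
    have hCω : 1 ≤ (C : ℝ) ^ ω := one_le_pow₀ hCR
    rw [← Real.sqrt_mul (by positivity)]
    calc (C : ℝ) ^ ω * |∑ n ∈ Icc 1 y, fpI z (s + P.eval (n : ℤ)) * Ψ e n s| ≤ (C : ℝ) ^ ω * √((C : ℝ) ^ ω * Y e s) := by gcongr
      _ = √(((C : ℝ) ^ ω) ^ 2 * ((C : ℝ) ^ ω * Y e s)) := by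
        rw [Real.sqrt_mul (x := ((C : ℝ) ^ ω) ^ 2) (by positivity), Real.sqrt_sq (by positivity)]
      _ ≤ √((C : ℝ) ^ (5 * ω) / e * (e * Y e s / (C : ℝ) ^ ω)) := by
        apply Real.sqrt_le_sqrt
        have e1 : (C : ℝ) ^ (5 * ω) / e * (e * Y e s / (C : ℝ) ^ ω) = ((C : ℝ) ^ ω) ^ 2 * ((C : ℝ) ^ ω * Y e s) * (C : ℝ) ^ ω := by
          have : (C : ℝ) ^ (5 * ω) = ((C : ℝ) ^ ω) ^ 5 := by rw [← pow_mul]; ring_nf
          rw [this]
          field_simp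
        rw [e1]
        apply le_mul_of_one_le_right _ hCω
        have := hY0 e s
        positivity
  have hG2 : G ^ 2 ≤ (∑ i ∈ S ×ˢ Icc 1 A, (C : ℝ) ^ (5 * #(i.1.primeFactors)) / i.1) * ∑ i ∈ S ×ˢ Icc 1 A, i.1 * Y i.1 i.2 / (C : ℝ) ^ #(i.1.primeFactors) := by
    refine (pow_le_pow_left₀ hG0 hGle 2).trans ?_
    refine (sum_mul_sq_le_sq_mul_sq _ _ _).trans ?_
    apply le_of_eq
    congr 1
    · apply sum_congr rfl
      intro i _
      rw [Real.sq_sqrt (by positivity)]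
    · apply sum_congr rfl
      intro i _
      rw [Real.sq_sqrt (by have := hY0 i.1 i.2; positivity)]
  have hSx : ∀ e ∈ S, Squarefree e ∧ e ≤ x := by
    intro e he
    obtain ⟨he1, he2, he3, he4⟩ := hS e he
    refine ⟨he1, le_trans (Nat.le_self_pow (by omega) e) he3⟩
  have hWs := hW x (by omega) S hSx
  rw [← hL] at hWs
  have hCd : ((C ^ 5 + d : ℕ) : ℝ) = (C : ℝ) ^ 5 + d := by push_cast; ring
  have hW1 : ∑ e ∈ S, (C : ℝ) ^ (5 * #(e.primeFactors)) / e ≤ L ^ W := by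
    refine le_trans (sum_le_sum fun e he => ?_) hWs
    apply div_le_div_of_nonneg_right _ (Nat.cast_nonneg _)
    rw [pow_mul, hCd]
    apply pow_le_pow_left₀ (by positivity)
    have : (0 : ℝ) ≤ d := Nat.cast_nonneg _
    linarith
  have hW2 : ∑ e ∈ S, (d : ℝ) ^ #(e.primeFactors) / e ≤ L ^ W := by
    refine le_trans (sum_le_sum fun e he => ?_) hWs
    apply div_le_div_of_nonneg_right _ (Nat.cast_nonneg _)
    rw [hCd]
    apply pow_le_pow_left₀ (by positivity)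
    have : (0 : ℝ) ≤ (C : ℝ) ^ 5 := by positivity
    linarith
  have hW3 : ∑ e ∈ S, 1 / (e : ℝ) ≤ L ^ W := by
    refine le_trans (sum_le_sum fun e he => ?_) hWs
    apply div_le_div_of_nonneg_right _ (Nat.cast_nonneg _)
    rw [hCd]
    apply one_le_pow₀
    have : (1 : ℝ) ≤ (C : ℝ) ^ 5 := one_le_pow₀ hCR
    have : (0 : ℝ) ≤ d := Nat.cast_nonneg _
    linarith
  have hf1 : ∑ i ∈ S ×ˢ Icc 1 A, (C : ℝ) ^ (5 * #(i.1.primeFactors)) / i.1 ≤ A * L ^ W := by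
    rw [sum_product]
    simp only [sum_const, Nat.card_Icc, Nat.add_sub_cancel, nsmul_eq_mul]
    rw [← mul_sum]
    exact mul_le_mul_of_nonneg_left hW1 hAR.le
  have hf2 : ∑ i ∈ S ×ˢ Icc 1 A, i.1 * Y i.1 i.2 / (C : ℝ) ^ #(i.1.primeFactors) ≤
      ∑ e ∈ S, (32 * x ^ 2 * ℓ ^ 2 * A * (d : ℝ) ^ #(e.primeFactors) / (e * u) +
          4 * x ^ 2 * H * ℓ ^ 2 / (e * u ^ 2) + 16 * x ^ 2 * Γ ^ 5 / M * ∑ q ∈ Icc 1 ⌊Γ⌋₊, vr z H (q * e)) := by
    rw [sum_product]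
    apply sum_le_sum
    intro e he
    obtain ⟨he1, he2, he3, he4⟩ := hS e he
    have he0 : (0 : ℝ) < e := by exact_mod_cast Nat.pos_of_ne_zero he1.ne_zero
    have hC0 : (0 : ℝ) < (C : ℝ) ^ #(e.primeFactors) := by positivity
    simp only
    rw [← sum_div, ← mul_sum, div_le_iff₀ hC0]
    have h5 := hone C k hk z H M A x y e u u Γ he1 (fun p hp => (he2 p hp).1) (fun p hp => (he2 p hp).2) hy hu1 (by
      rw [h2u]
      have h6 : (e : ℝ) ^ (d + 1) ≤ (x : ℝ) ^ (1 / 8 : ℝ) := by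
        have h7 : ((e : ℝ) ^ (d + 1)) ^ 8 ≤ x := by
          rw [← pow_mul]
          have : e ^ ((d + 1) * 8) ≤ x := le_trans (Nat.pow_le_pow_right (Nat.pos_of_ne_zero he1.ne_zero) (by omega)) he3
          exact_mod_cast this
        have h8 := Real.pow_rpow_inv_natCast (x := (e : ℝ) ^ (d + 1)) (by positivity) (show (8 : ℕ) ≠ 0 by norm_num)
        rw [← h8]
        have h9 : ((8 : ℕ) : ℝ)⁻¹ = 1 / 8 := by norm_num
        rw [h9]
        exact Real.rpow_le_rpow (by positivity) h7 (by norm_num)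
      have hx1' : (1 : ℝ) < x := by
        have : (3 : ℝ) ≤ x := by exact_mod_cast hx3
        linarith
      calc c * 2 ^ m * L ^ (g * m) * (e : ℝ) ^ (d + 1) ≤ (x : ℝ) ^ (1 / 4 : ℝ) * (x : ℝ) ^ (1 / 8 : ℝ) := by gcongr
        _ = (x : ℝ) ^ (3 / 8 : ℝ) := by rw [← Real.rpow_add hx0]; norm_num
        _ < (x : ℝ) ^ (1 : ℝ) := Real.rpow_lt_rpow_of_exponent_lt hx1' (by norm_num)
        _ = x := Real.rpow_one _) hM hval (by omega) he4 hVinv (by omega) hcond1 hcond2 hcond3 hη hu1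
    rw [← hℓ] at h5
    have h6 : (e : ℝ) * ∑ s ∈ Icc 1 A, Y e s = e * ∑ a ∈ range e, ∑ s ∈ Icc 1 A, KK k e a s * ‖Tc (fun n => (fp z n : ℂ)) H (fun n => P.eval (n : ℤ)) y e a s‖ ^ 2 := by
      rw [hY, sum_comm]
    rw [h6]
    refine (mul_le_mul_of_nonneg_left h5 he0.le).trans (le_of_eq ?_)
    field_simp
  -- the variance
  have hvs : ∑ e ∈ S, ∑ q ∈ Icc 1 ⌊Γ⌋₊, vr z H (q * e) ≤ Γ * (H ^ 2 / ℓ ^ V) := by
    rcases S.eq_empty_or_nonempty with h | hne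
    · rw [h, sum_empty]; positivity
    obtain ⟨e0, he0, hmax⟩ := exists_mem_eq_sup S hne id
    have hle : ∀ e ∈ S, e ≤ e0 := by
      intro e he
      have : id e ≤ S.sup id := le_sup (f := id) he
      rw [hmax] at this
      exact this
    have hQ : (⌊Γ⌋₊ * e0) ^ 8 ≤ H := by
      obtain ⟨he1, he2, he3, he4⟩ := hS e0 he0
      have h5 : ((e0 : ℝ) ^ 8) ^ 2 ≤ x := by
        rw [← pow_mul]
        have : e0 ^ (8 * 2) ≤ x := le_trans (Nat.pow_le_pow_right (Nat.pos_of_ne_zero he1.ne_zero) (by omega)) he3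
        exact_mod_cast this
      have h6 : (e0 : ℝ) ^ 8 ≤ √x := Real.le_sqrt_of_sq_le h5
      have h7 : (⌊Γ⌋₊ : ℝ) ^ 8 ≤ √x := by
        calc (⌊Γ⌋₊ : ℝ) ^ 8 ≤ Γ ^ 8 := pow_le_pow_left₀ (Nat.cast_nonneg _) (Nat.floor_le (by linarith)) 8
          _ = 1 * L ^ (8 * γ) := by rw [hΓ, ← pow_mul, one_mul, mul_comm]
          _ ≤ (x : ℝ) ^ (1 / 4 : ℝ) := g3
          _ ≤ (x : ℝ) ^ (1 / 2 : ℝ) := Real.rpow_le_rpow_of_exponent_le hx1 (by norm_num)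
          _ = √x := (Real.sqrt_eq_rpow _).symm
      have h8 : ((⌊Γ⌋₊ * e0 : ℕ) : ℝ) ^ 8 ≤ H := by
        push_cast
        rw [mul_pow]
        calc (⌊Γ⌋₊ : ℝ) ^ 8 * (e0 : ℝ) ^ 8 ≤ √x * √x := by gcongr
          _ = x := Real.mul_self_sqrt hx0.le
          _ ≤ H := by exact_mod_cast hxH
      exact_mod_cast h8
    have hv := hvar H (by omega) z hzH1 hzH2 (⌊Γ⌋₊ * e0) hQ
    rw [← hℓ] at hv
    rw [sum_comm]
    calc ∑ q ∈ Icc 1 ⌊Γ⌋₊, ∑ e ∈ S, vr z H (q * e) ≤ ∑ q ∈ Icc 1 ⌊Γ⌋₊, ∑ q' ∈ Icc 1 (⌊Γ⌋₊ * e0), vr z H q' := by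
          apply sum_le_sum
          intro q hq
          rw [mem_Icc] at hq
          have h5 : ∑ e ∈ S, vr z H (q * e) = ∑ q' ∈ S.image (fun e => q * e), vr z H q' := by
            rw [sum_image (fun a _ b _ hab => Nat.eq_of_mul_eq_mul_left (by omega) hab)]
          rw [h5]
          apply sum_le_sum_of_subset_of_nonneg
          · intro q' hq'
            rw [mem_image] at hq'
            obtain ⟨e, he, rfl⟩ := hq'
            rw [mem_Icc]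
            exact ⟨Nat.mul_pos hq.1 (Nat.pos_of_ne_zero (hS e he).1.ne_zero), Nat.mul_le_mul hq.2 (hle e he)⟩
          · intro _ _ _
            exact vr_nonneg _ _ _
      _ = ⌊Γ⌋₊ * ∑ q' ∈ Icc 1 (⌊Γ⌋₊ * e0), vr z H q' := by
          rw [sum_const, nsmul_eq_mul, Nat.card_Icc, Nat.add_sub_cancel]
      _ ≤ Γ * (H ^ 2 / ℓ ^ V) := by
          apply mul_le_mul (Nat.floor_le (by linarith)) hv (sum_nonneg fun _ _ => vr_nonneg _ _ _) (by linarith)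
  have hLW : (0 : ℝ) < L ^ W := by positivity
  have hf3 : ∑ i ∈ S ×ˢ Icc 1 A, i.1 * Y i.1 i.2 / (C : ℝ) ^ #(i.1.primeFactors) ≤
      32 * x ^ 2 * ℓ ^ 2 * A * L ^ W / u + 4 * x ^ 2 * H * ℓ ^ 2 * L ^ W / u ^ 2 + 16 * x ^ 2 * Γ ^ 5 / M * (Γ * (H ^ 2 / ℓ ^ V)) := by
    refine hf2.trans ?_
    rw [sum_add_distrib, sum_add_distrib, ← mul_sum]
    apply add_le_add (add_le_add _ _) (mul_le_mul_of_nonneg_left hvs (by positivity))
    · calc ∑ e ∈ S, 32 * x ^ 2 * ℓ ^ 2 * A * (d : ℝ) ^ #(e.primeFactors) / (e * u) =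
          32 * x ^ 2 * ℓ ^ 2 * A / u * ∑ e ∈ S, (d : ℝ) ^ #(e.primeFactors) / e := by
            rw [mul_sum]
            apply sum_congr rfl
            intro e _
            ring
        _ ≤ 32 * x ^ 2 * ℓ ^ 2 * A / u * L ^ W := mul_le_mul_of_nonneg_left hW2 (by positivity)
        _ = _ := by ring
    · calc ∑ e ∈ S, 4 * x ^ 2 * H * ℓ ^ 2 / (e * u ^ 2) = 4 * x ^ 2 * H * ℓ ^ 2 / u ^ 2 * ∑ e ∈ S, 1 / (e : ℝ) := by
            rw [mul_sum]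
            apply sum_congr rfl
            intro e _
            ring
        _ ≤ 4 * x ^ 2 * H * ℓ ^ 2 / u ^ 2 * L ^ W := mul_le_mul_of_nonneg_left hW3 (by positivity)
        _ = _ := by ring
  -- the three terms
  obtain ⟨T, hT⟩ : ∃ T : ℝ, T = x ^ 2 * A / (3 * L ^ W * L ^ (2 * U)) := ⟨_, rfl⟩
  have hdL : ℓ ^ 2 ≤ (d + 1) ^ 2 * L ^ 2 := by
    rw [← mul_pow]
    exact pow_le_pow_left₀ hℓ0.le hℓ2 2
  have ht1 : 32 * x ^ 2 * ℓ ^ 2 * A * L ^ W / u ≤ T := by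
    rw [hT, div_le_div_iff₀ (by rw [hu]; positivity) (by positivity), hu]
    have h5 : L ^ g = L ^ (2 * U) * L ^ W * L ^ W * L ^ 2 * L ^ 3 := by rw [hg]; ring
    rw [h5]
    have h6 : 96 * ((d : ℝ) + 1) ^ 2 ≤ L ^ 3 := by
      have h7 : 96 * ((d : ℝ) + 1) ^ 2 ≤ 96 * ((d : ℝ) + 1) ^ 2 * (1 + c3) := le_mul_of_one_le_right (by positivity) (by linarith)
      have h8 : L ^ 1 ≤ L ^ 3 := pow_le_pow_right₀ hL1 (by norm_num)
      linarith
    calc 32 * (x : ℝ) ^ 2 * ℓ ^ 2 * A * L ^ W * (3 * L ^ W * L ^ (2 * U)) ≤ 32 * (x : ℝ) ^ 2 * ((d + 1) ^ 2 * L ^ 2) * A * L ^ W * (3 * L ^ W * L ^ (2 * U)) := by gcongr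
      _ = (x : ℝ) ^ 2 * A * (L ^ (2 * U) * L ^ W * L ^ W * L ^ 2 * (96 * (d + 1) ^ 2)) := by ring
      _ ≤ _ := by gcongr
  have ht2 : 4 * x ^ 2 * H * ℓ ^ 2 * L ^ W / u ^ 2 ≤ T := by
    rw [hT, div_le_div_iff₀ (by rw [hu]; positivity) (by positivity), hu]
    have h5 : (L ^ g) ^ 2 = L ^ (2 * U) * L ^ W * L ^ W * L ^ 2 * L ^ 3 * L ^ g := by
      have : L ^ (2 * U) * L ^ W * L ^ W * L ^ 2 * L ^ 3 = L ^ g := by rw [hg]; ring
      rw [this]; ring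
    rw [h5]
    have h6 : 12 * c3 * ((d : ℝ) + 1) ^ 2 ≤ L ^ 3 * L ^ g := by
      have h7 : 12 * c3 * ((d : ℝ) + 1) ^ 2 ≤ 96 * ((d : ℝ) + 1) ^ 2 * (1 + c3) := by
        have : 0 ≤ ((d : ℝ) + 1) ^ 2 := by positivity
        nlinarith
      have h8 : L ^ 1 ≤ L ^ 3 := pow_le_pow_right₀ hL1 (by norm_num)
      have h9 : L ^ 3 ≤ L ^ 3 * L ^ g := le_mul_of_one_le_right (by positivity) (one_le_pow₀ hL1)
      linarith
    calc 4 * (x : ℝ) ^ 2 * H * ℓ ^ 2 * L ^ W * (3 * L ^ W * L ^ (2 * U)) ≤ 4 * (x : ℝ) ^ 2 * (c3 * A) * ((d + 1) ^ 2 * L ^ 2) * L ^ W * (3 * L ^ W * L ^ (2 * U)) := by gcongr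
      _ = (x : ℝ) ^ 2 * A * (L ^ (2 * U) * L ^ W * L ^ W * L ^ 2 * (12 * c3 * (d + 1) ^ 2)) := by ring
      _ ≤ (x : ℝ) ^ 2 * A * (L ^ (2 * U) * L ^ W * L ^ W * L ^ 2 * (L ^ 3 * L ^ g)) := by gcongr
      _ = _ := by ring
  have ht3 : 16 * x ^ 2 * Γ ^ 5 / M * (Γ * (H ^ 2 / ℓ ^ V)) ≤ T := by
    have h5 : 16 * (x : ℝ) ^ 2 * Γ ^ 5 / M * (Γ * (H ^ 2 / ℓ ^ V)) ≤ 8 * x ^ 2 * Γ ^ 6 * (c3 * A) / L ^ V := by
      calc 16 * (x : ℝ) ^ 2 * Γ ^ 5 / M * (Γ * (H ^ 2 / ℓ ^ V)) = 16 * x ^ 2 * Γ ^ 6 * H ^ 2 / (M * ℓ ^ V) := by field_simp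
        _ ≤ 16 * x ^ 2 * Γ ^ 6 * H ^ 2 / (2 * H * L ^ V) := by
          apply div_le_div_of_nonneg_left (by positivity) (by positivity)
          apply mul_le_mul _ (pow_le_pow_left₀ hL0.le hℓ1 _) (by positivity) hMR0.le
          rw [hMR]; linarith
        _ = 8 * x ^ 2 * Γ ^ 6 * H / L ^ V := by field_simp; ring
        _ ≤ _ := by gcongr
    refine h5.trans ?_
    rw [hT, div_le_div_iff₀ (by positivity) (by positivity), hΓ]
    have h6 : L ^ V = (L ^ γ) ^ 6 * L ^ W * L ^ (2 * U) * L := by rw [hV, ← pow_mul]; ring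
    rw [h6]
    calc 8 * (x : ℝ) ^ 2 * (L ^ γ) ^ 6 * (c3 * A) * (3 * L ^ W * L ^ (2 * U)) = x ^ 2 * A * ((L ^ γ) ^ 6 * L ^ W * L ^ (2 * U) * (24 * c3)) := by ring
      _ ≤ _ := by gcongr
  have hfin : G ^ 2 ≤ (x * A / L ^ U) ^ 2 := by
    refine hG2.trans ?_
    calc _ ≤ (A * L ^ W) * (T + T + T) := by
          apply mul_le_mul hf1 (hf3.trans (add_le_add (add_le_add ht1 ht2) ht3)) _ (by positivity)
          exact sum_nonneg fun i _ => by have := hY0 i.1 i.2; positivity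
      _ = _ := by
        rw [hT]
        have : L ^ (2 * U) = (L ^ U) ^ 2 := by rw [← pow_mul, mul_comm]
        rw [this]
        field_simp
        ring
  exact (pow_le_pow_iff_left₀ hG0 (by positivity) (by norm_num)).1 hfin

end Pool.Agent.H544.BC
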