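import Mathlib
import Pool.Agent.H544.BC.Fl
import Pool.Agent.H544.BC.Lev3

/-!
The class sums.
-/

set_option autoImplicit false
set_option linter.unusedSectionVars false

namespace Pool.Agent.H544.BC
open Finset Polynomial
open Pool.Agent.H373R2.T7
open Pool.Agent.H544.LD (cls om Gz Gz_nonneg Gz_le_one fac_nn fac_le_one om_fixed om_shift om_le dvd_eval_iff om_lt)
open Pool.Agent.N913.MT (TT cop_TT TT_insert tot_TT crtT TT_pos')

section cs
variable {S : Finset ℕ} (hS : ∀ p ∈ S, p.Prime)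
include hS

/-- the class of a system of classes -/
lemma filt (A W c0 : ℕ) (hW0 : 1 ≤ W) (hW : ∀ p ∈ S, ¬ p ∣ W) (hc0 : c0 < W) (T : Finset S) (c : S → ℕ) (hc : ∀ t ∈ T, c t ∈ range (t : ℕ)) :
    ∃ r : ℕ, r < W * TT T ∧ (cls A W c0).filter (fun n => ∀ t ∈ T, n % (t : ℕ) = c t) = cls A (W * TT T) r ∧
      r ≡ c0 [MOD W] ∧ ∀ t ∈ T, r ≡ c t [MOD (t : ℕ)] := by
  have hq : 0 < W * TT T := Nat.mul_pos hW0 (TT_pos' hS T)
  obtain ⟨a, b, hab⟩ := crtT hS W hW c0 c0 (fun t => (c t, c t)) T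
  have hb := (hab (a, b)).1 ⟨rfl, rfl⟩
  have key : ∀ n : ℕ, n ≡ a [MOD (W * TT T)] ↔ (n ≡ c0 [MOD W] ∧ ∀ t ∈ T, n ≡ c t [MOD (t : ℕ)]) := by
    intro n
    have h := hab (n, b)
    simp only at h hb
    constructor
    · intro h1
      have h2 := h.1 ⟨h1, rfl⟩
      exact ⟨h2.1, fun t ht => (h2.2.2 t ht).1⟩
    · rintro ⟨h1, h2⟩
      exact (h.2 ⟨h1, hb.2.1, fun t ht => ⟨h2 t ht, (hb.2.2 t ht).2⟩⟩).1
  refine ⟨a % (W * TT T), Nat.mod_lt _ hq, ?_, ?_⟩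
  · ext n
    rw [mem_filter, mem_cls, mem_cls]
    have h1 : n % (W * TT T) = a % (W * TT T) ↔ n ≡ a [MOD (W * TT T)] := Iff.rfl
    rw [h1, key n]
    have h2 : n % W = c0 ↔ n ≡ c0 [MOD W] := by
      unfold Nat.ModEq
      rw [Nat.mod_eq_of_lt hc0]
    rw [h2]
    have h3 : (∀ t ∈ T, n % (t : ℕ) = c t) ↔ ∀ t ∈ T, n ≡ c t [MOD (t : ℕ)] := by
      apply forall_congr'
      intro t
      apply forall_congr'
      intro ht
      unfold Nat.ModEq
      rw [Nat.mod_eq_of_lt (mem_range.1 (hc t ht))]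
    rw [h3]
    tauto
  · have h1 : a % (W * TT T) ≡ a [MOD (W * TT T)] := Nat.mod_modEq _ _
    exact (key _).1 h1

/-- the plain class sums -/
lemma cs_none (A W c0 : ℕ) (hW0 : 1 ≤ W) (hW : ∀ p ∈ S, ¬ p ∣ W) (hc0 : c0 < W) (T : Finset S) (c : S → ℕ) (hc : ∀ t ∈ T, c t ∈ range (t : ℕ)) :
    |∑ _n ∈ (cls A W c0).filter (fun n => ∀ t ∈ T, n % (t : ℕ) = c t), (1 : ℝ) - (A : ℝ) / W * ∏ t ∈ T, (1 / ((t : ℕ) : ℝ))| ≤ 1 := by
  obtain ⟨r, hr, he, _⟩ := filt hS A W c0 hW0 hW hc0 T c hc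
  rw [he, sum_const, nsmul_eq_mul, mul_one]
  have h1 := card_cls_err A (W * TT T) r (Nat.mul_pos hW0 (TT_pos' hS T)) hr
  have h2 : (A : ℝ) / W * ∏ t ∈ T, (1 / ((t : ℕ) : ℝ)) = (A : ℝ) / ((W * TT T : ℕ) : ℝ) := by
    unfold TT
    push_cast
    rw [prod_div_distrib, prod_const_one]
    field_simp
  rw [h2]
  exact h1

end cs

lemma Gz_mul (H : ℤ[X]) (z q t : ℕ) (ht : t.Prime) (hq : ¬ t ∣ q) :
    Gz H z q = Gz H z (q * t) * (if t ≤ z then 1 - (om H t : ℝ) / t else 1) := by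
  unfold Gz
  have h1 : (pz z).filter (fun p => ¬ p ∣ q * t) = ((pz z).filter (fun p => ¬ p ∣ q)).filter (fun p => p ≠ t) := by
    ext p
    simp only [mem_filter, mem_pz]
    constructor
    · rintro ⟨⟨h1, h2⟩, h3⟩
      refine ⟨⟨⟨h1, h2⟩, fun h => h3 (h.mul_right t)⟩, ?_⟩
      rintro rfl
      exact h3 (dvd_mul_left _ _)
    · rintro ⟨⟨⟨h1, h2⟩, h3⟩, h4⟩
      refine ⟨⟨h1, h2⟩, fun h => ?_⟩
      rcases (Nat.Prime.dvd_mul h2).1 h with h5 | h5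
      · exact h3 h5
      · exact h4 ((Nat.prime_dvd_prime_iff_eq h2 ht).1 h5)
  rw [h1, ← prod_filter_mul_prod_filter_not ((pz z).filter (fun p => ¬ p ∣ q)) (fun p => p ≠ t)]
  congr 1
  have h2 : ((pz z).filter (fun p => ¬ p ∣ q)).filter (fun p => ¬ p ≠ t) = if t ≤ z then {t} else ∅ := by
    ext p
    simp only [mem_filter, mem_pz, not_not]
    split_ifs with h
    · rw [mem_singleton]
      constructor
      · exact fun h => h.2
      · rintro rfl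
        exact ⟨⟨⟨h, ht⟩, hq⟩, rfl⟩
    · simp only [notMem_empty, iff_false]
      rintro ⟨⟨⟨k1, _⟩, _⟩, k2⟩
      rw [k2] at k1
      exact h k1
  rw [h2]
  split_ifs with h
  · rw [prod_singleton]
  · rw [prod_empty]

section sv
variable {B : Type} [Fintype B] [DecidableEq B]

/-- the polynomial of the sieved slots -/
noncomputable def HB (α : B → ℤ) : ℤ[X] := ∏ i, (X + C (α i))

lemma HB_eval (α : B → ℤ) (n : ℤ) : (HB α).eval n = ∏ i, (n + α i) := by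
  unfold HB
  rw [eval_prod]
  simp

lemma HB_monic (α : B → ℤ) : (HB α).Monic := monic_prod_of_monic _ _ (fun i _ => monic_X_add_C _)

lemma HB_deg (α : B → ℤ) : (HB α).natDegree = Fintype.card B := by
  unfold HB
  rw [natDegree_prod_of_monic _ _ (fun i _ => monic_X_add_C _)]
  rw [sum_congr rfl (fun i _ => natDegree_X_add_C (α i))]
  simp

lemma HB_om_le (α : B → ℤ) (p : ℕ) (hp : p.Prime) : om (HB α) p ≤ Fintype.card B := by
  rw [← HB_deg α]
  apply om_coef (HB α) p hp (HB α).natDegree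
  have h := HB_monic α
  rw [Monic, leadingCoeff] at h
  rw [h]
  intro h1
  have : p ∣ 1 := by exact_mod_cast h1
  exact hp.one_lt.ne' (Nat.dvd_one.1 this)

/-- the local densities of the sieved slots -/
noncomputable def bt (z : ℕ) (α : B → ℤ) (t : ℕ) (x : ℕ) : ℝ :=
  if t ≤ z then (if (t : ℤ) ∣ (HB α).eval (x : ℤ) then 0 else (1 / (t : ℝ)) / (1 - (om (HB α) t : ℝ) / t)) else 1 / (t : ℝ)

lemma om_small (hB : Fintype.card B ≤ 2) (α : B → ℤ) (t : ℕ) (ht : t.Prime) (ht3 : 3 ≤ t) : 1 / 3 ≤ 1 - (om (HB α) t : ℝ) / t := by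
  have h1 := (HB_om_le α t ht).trans hB
  have h2 : (om (HB α) t : ℝ) ≤ 2 := by exact_mod_cast h1
  have h3 : (3 : ℝ) ≤ t := by exact_mod_cast ht3
  have h4 : (om (HB α) t : ℝ) / t ≤ 2 / 3 := by
    rw [div_le_div_iff₀ (by linarith) (by norm_num)]
    nlinarith
  linarith

lemma bt_bd (hB : Fintype.card B ≤ 2) (z : ℕ) (α : B → ℤ) (t : ℕ) (ht : t.Prime) (ht3 : 3 ≤ t) (x : ℕ) : 0 ≤ bt z α t x ∧ |bt z α t x| ≤ 3 / (t : ℝ) := by
  have h3 : (3 : ℝ) ≤ t := by exact_mod_cast ht3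
  have h1 := om_small hB α t ht ht3
  have h0 : 0 ≤ (1 / (t : ℝ)) / (1 - (om (HB α) t : ℝ) / t) := by
    apply div_nonneg (by positivity); linarith
  have h2 : (1 / (t : ℝ)) / (1 - (om (HB α) t : ℝ) / t) ≤ 3 / t := by
    rw [div_le_iff₀ (by linarith)]
    have : 1 / (t : ℝ) = 3 / t * (1 / 3) := by ring
    rw [this]
    exact mul_le_mul_of_nonneg_left h1 (by positivity)
  have h4 : 1 / (t : ℝ) ≤ 3 / t := by apply div_le_div_of_nonneg_right (by norm_num); linarith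
  have h5 : 0 ≤ 1 / (t : ℝ) := by positivity
  unfold bt
  split_ifs
  · exact ⟨le_rfl, by rw [abs_zero]; positivity⟩
  · exact ⟨h0, by rw [abs_of_nonneg h0]; exact h2⟩
  · exact ⟨h5, by rw [abs_of_nonneg h5]; exact h4⟩

lemma bt_sum (hB : Fintype.card B ≤ 2) (z : ℕ) (α : B → ℤ) (t : ℕ) (ht : t.Prime) (ht3 : 3 ≤ t) : ∑ x ∈ range t, bt z α t x = 1 := by
  have h3 : (3 : ℝ) ≤ t := by exact_mod_cast ht3
  have h1 := om_small hB α t ht ht3
  unfold bt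
  by_cases h : t ≤ z
  · simp only [if_pos h]
    rw [← sum_filter_add_sum_filter_not (range t) (fun x : ℕ => (t : ℤ) ∣ (HB α).eval (x : ℤ))]
    have e1 : ∑ x ∈ (range t).filter (fun x : ℕ => (t : ℤ) ∣ (HB α).eval (x : ℤ)), (if (t : ℤ) ∣ (HB α).eval (x : ℤ) then (0 : ℝ) else (1 / (t : ℝ)) / (1 - (om (HB α) t : ℝ) / t)) = 0 := by
      apply sum_eq_zero
      intro x hx
      rw [if_pos (mem_filter.1 hx).2]
    have e2 : ∑ x ∈ (range t).filter (fun x : ℕ => ¬ (t : ℤ) ∣ (HB α).eval (x : ℤ)), (if (t : ℤ) ∣ (HB α).eval (x : ℤ) then (0 : ℝ) else (1 / (t : ℝ)) / (1 - (om (HB α) t : ℝ) / t)) =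
        (t - om (HB α) t) * ((1 / (t : ℝ)) / (1 - (om (HB α) t : ℝ) / t)) := by
      rw [sum_congr rfl (fun x hx => if_neg (mem_filter.1 hx).2), sum_const, nsmul_eq_mul]
      congr 1
      have h2 := card_filter_add_card_filter_not (s := range t) (fun x : ℕ => (t : ℤ) ∣ (HB α).eval (x : ℤ))
      rw [card_range] at h2
      have h4 : (#((range t).filter (fun x : ℕ => (t : ℤ) ∣ (HB α).eval (x : ℤ))) : ℝ) + #((range t).filter (fun x : ℕ => ¬ (t : ℤ) ∣ (HB α).eval (x : ℤ))) = t := by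
        exact_mod_cast h2
      have h5 : om (HB α) t = #((range t).filter (fun x : ℕ => (t : ℤ) ∣ (HB α).eval (x : ℤ))) := rfl
      rw [h5]
      linarith
    rw [e1, e2, zero_add]
    have h6 : (1 - (om (HB α) t : ℝ) / t) ≠ 0 := by linarith
    have h7 : (t : ℝ) ≠ 0 := by linarith
    have e3 : ((t : ℝ) - om (HB α) t) * (1 / (t : ℝ)) = 1 - (om (HB α) t : ℝ) / t := by
      field_simp
    rw [← mul_div_assoc, e3, div_self h6]
  · simp only [if_neg h]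
    rw [sum_const, card_range, nsmul_eq_mul]
    have h7 : (t : ℝ) ≠ 0 := by linarith
    field_simp

/-- products of the model -/
lemma prod_lamzI (z : ℕ) (α : B → ℤ) (n : ℕ) (hn : 1 ≤ n) (hα : ∀ i, 0 ≤ α i) :
    ∏ i, lamzI z (n + α i) = if (∀ p ∈ pz z, ¬ (p : ℤ) ∣ (HB α).eval (n : ℤ)) then (Vz z)⁻¹ ^ (Fintype.card B) else 0 := by
  have h1 : ∀ i, lamzI z (n + α i) = if (∀ p ∈ pz z, ¬ (p : ℤ) ∣ (n + α i)) then (Vz z)⁻¹ else 0 := by
    intro i
    have h2 : 1 ≤ (n : ℤ) + α i := by have := hα i; omega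
    unfold lamzI lamz
    rw [if_pos h2]
    congr 1
    apply propext
    apply forall_congr'
    intro p
    apply forall_congr'
    intro _
    rw [← Int.natCast_dvd_natCast, Int.toNat_of_nonneg (by omega)]
  rw [prod_congr rfl (fun i _ => h1 i)]
  split_ifs with h
  · have h3 : ∀ i ∈ (univ : Finset B), (if (∀ p ∈ pz z, ¬ (p : ℤ) ∣ (n + α i)) then (Vz z)⁻¹ else 0) = (Vz z)⁻¹ := by
      intro i _
      apply if_pos
      intro p hp hd
      apply h p hp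
      rw [HB_eval]
      exact hd.trans (dvd_prod_of_mem (fun i => (n : ℤ) + α i) (mem_univ i))
    rw [prod_congr rfl h3, prod_const, card_univ]
  · push Not at h
    obtain ⟨p, hp, hd⟩ := h
    rw [HB_eval] at hd
    have hpp : Prime (p : ℤ) := Nat.prime_iff_prime_int.1 (mem_pz.1 hp).2
    obtain ⟨i, _, hi⟩ := (Prime.dvd_finsetProd_iff hpp _).1 hd
    apply prod_eq_zero (mem_univ i)
    rw [if_neg]
    intro h3
    exact h3 p hp hi

variable {S : Finset ℕ} (hS : ∀ p ∈ S, p.Prime) (hS3 : ∀ p ∈ S, 3 ≤ p)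
include hS hS3

/-- the sieved class sums -/
theorem cs_some (hB : Fintype.card B ≤ 2) (C1 z0 : ℕ)
    (hfl : ∀ b : ℕ, C1 ≤ b → ∀ z : ℕ, z0 ≤ z →
    ∀ (H : ℤ[X]) (q r y : ℕ), H.natDegree ≤ 2 → 1 ≤ q → r < q → (∀ p ∈ pz z, p ∣ q → ¬ (p : ℤ) ∣ H.eval (r : ℤ)) →
    |(#((cls y q r).filter (fun n : ℕ => ∀ p ∈ pz z, ¬ (p : ℤ) ∣ H.eval (n : ℤ))) : ℝ) - (y : ℝ) / q * Gz H z q| ≤
      (1 / 2 : ℝ) ^ b * ((y : ℝ) / q) + (z : ℝ) ^ (C1 * b))
    (b z : ℕ) (hb : C1 ≤ b) (hz : z0 ≤ z) (α : B → ℤ) (hα : ∀ i, 0 ≤ α i)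
    (A W c0 : ℕ) (hW0 : 1 ≤ W) (hW : ∀ p ∈ S, ¬ p ∣ W) (hc0 : c0 < W) (hWc : ∀ p : ℕ, p.Prime → p ∣ W → ∀ i, ¬ (p : ℤ) ∣ (c0 : ℤ) + α i)
    (T : Finset S) (c : S → ℕ) (hc : ∀ t ∈ T, c t ∈ range (t : ℕ)) :
    |∑ n ∈ (cls A W c0).filter (fun n => ∀ t ∈ T, n % (t : ℕ) = c t), ∏ i, lamzI z (n + α i) -
      ((Vz z)⁻¹ ^ (Fintype.card B) * ((A : ℝ) / W * Gz (HB α) z W)) * ∏ t ∈ T, bt z α t (c t)| ≤
      (Vz z)⁻¹ ^ (Fintype.card B) * ((1 / 2 : ℝ) ^ b * ((A : ℝ) / ((W * TT T : ℕ) : ℝ)) + (z : ℝ) ^ (C1 * b)) := by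
  classical
  obtain ⟨r, hr, he, hr1, hr2⟩ := filt hS A W c0 hW0 hW hc0 T c hc
  have hV : 0 < (Vz z)⁻¹ := inv_pos.2 (Vz_pos z)
  have hVB : 0 < (Vz z)⁻¹ ^ (Fintype.card B) := by positivity
  have hq : 1 ≤ W * TT T := Nat.mul_pos hW0 (TT_pos' hS T)
  have hqR : (0 : ℝ) < ((W * TT T : ℕ) : ℝ) := by exact_mod_cast hq
  have hsum : ∑ n ∈ cls A (W * TT T) r, ∏ i, lamzI z (n + α i) =
      (Vz z)⁻¹ ^ (Fintype.card B) * #((cls A (W * TT T) r).filter (fun n : ℕ => ∀ p ∈ pz z, ¬ (p : ℤ) ∣ (HB α).eval (n : ℤ))) := by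
    rw [sum_congr rfl (fun n hn => prod_lamzI z α n (mem_cls.1 hn).1.1 hα), ← sum_filter, sum_const, nsmul_eq_mul, mul_comm]
  rw [he, hsum]
  have hcong : ∀ t ∈ T, ((((t : ℕ) : ℤ) ∣ (HB α).eval (r : ℤ)) ↔ ((t : ℕ) : ℤ) ∣ (HB α).eval ((c t : ℕ) : ℤ)) := by
    intro t ht
    apply dvd_eval_iff
    exact Nat.modEq_iff_dvd.1 (hr2 t ht).symm
  by_cases hbad : ∃ t ∈ T, (t : ℕ) ≤ z ∧ ((t : ℕ) : ℤ) ∣ (HB α).eval ((c t : ℕ) : ℤ)
  · obtain ⟨t, ht, htz, hd⟩ := hbad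
    have h1 : #((cls A (W * TT T) r).filter (fun n : ℕ => ∀ p ∈ pz z, ¬ (p : ℤ) ∣ (HB α).eval (n : ℤ))) = 0 := by
      rw [card_eq_zero, filter_eq_empty_iff]
      intro n hn h2
      apply h2 t (mem_pz.2 ⟨htz, hS t t.2⟩)
      have h3 : (t : ℕ) ∣ W * TT T := by
        unfold TT
        exact (dvd_prod_of_mem (fun t : S => (t : ℕ)) ht).mul_left W
      have h4 := (mem_cls.1 hn).2
      have h5 : n ≡ r [MOD (t : ℕ)] := by
        have : n ≡ r [MOD (W * TT T)] := by rw [Nat.ModEq, h4, Nat.mod_eq_of_lt hr]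
        exact this.of_dvd h3
      rw [dvd_eval_iff (HB α) t n r (Nat.modEq_iff_dvd.1 h5.symm), hcong t ht]
      exact hd
    have h2 : ∏ t ∈ T, bt z α t (c t) = 0 := by
      apply prod_eq_zero ht
      unfold bt
      rw [if_pos htz, if_pos hd]
    rw [h1, h2, Nat.cast_zero, mul_zero, mul_zero, sub_zero, abs_zero]
    positivity
  · push Not at hbad
    have h1 := hfl b hb z hz (HB α) (W * TT T) r A (by rw [HB_deg]; exact hB) hq hr (by
      intro p hp hpq hd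
      have hpp := (mem_pz.1 hp).2
      rcases (Nat.Prime.dvd_mul hpp).1 hpq with h2 | h2
      · have h3 : (p : ℤ) ∣ (HB α).eval (c0 : ℤ) := by
          rw [← dvd_eval_iff (HB α) p r c0 (Nat.modEq_iff_dvd.1 (hr1.of_dvd h2).symm)]
          exact hd
        rw [HB_eval] at h3
        obtain ⟨i, _, hi⟩ := (Prime.dvd_finsetProd_iff (Nat.prime_iff_prime_int.1 hpp) _).1 h3
        exact hWc p hpp h2 i hi
      · unfold TT at h2
        obtain ⟨t, ht, h3⟩ := (Prime.dvd_finsetProd_iff hpp.prime _).1 h2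
        have h4 := (Nat.prime_dvd_prime_iff_eq hpp (hS t t.2)).1 h3
        rw [h4] at hd
        exact hbad t ht (by rw [← h4]; exact (mem_pz.1 hp).1) ((hcong t ht).1 hd))
    have h2 : Gz (HB α) z W = Gz (HB α) z (W * TT T) * ∏ t ∈ T, (if (t : ℕ) ≤ z then 1 - (om (HB α) t : ℝ) / t else 1) := by
      clear h1 hbad hcong hsum hqR hq hr1 hr2 he hr hc
      induction T using Finset.induction_on with
      | empty => unfold TT; simp
      | insert t T ht ih =>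
        rw [prod_insert ht, TT_insert T t ht W, ih, Gz_mul (HB α) z (W * TT T) t (hS t t.2) (by
          intro h
          have := Nat.eq_one_of_dvd_coprimes (cop_TT hS W hW T t ht) h dvd_rfl
          exact (hS t t.2).one_lt.ne' this)]
        ring
    have h3 : (Vz z)⁻¹ ^ (Fintype.card B) * ((A : ℝ) / W * Gz (HB α) z W) * ∏ t ∈ T, bt z α t (c t) =
        (Vz z)⁻¹ ^ (Fintype.card B) * ((A : ℝ) / ((W * TT T : ℕ) : ℝ) * Gz (HB α) z (W * TT T)) := by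
      have h4 : (∏ t ∈ T, (if (t : ℕ) ≤ z then 1 - (om (HB α) t : ℝ) / t else 1)) * ∏ t ∈ T, bt z α t (c t) = ∏ t ∈ T, (1 / ((t : ℕ) : ℝ)) := by
        rw [← prod_mul_distrib]
        apply prod_congr rfl
        intro t ht
        have h5 := om_small hB α t (hS t t.2) (hS3 t t.2)
        unfold bt
        by_cases htz : (t : ℕ) ≤ z
        · rw [if_pos htz, if_pos htz, if_neg (hbad t ht htz)]
          have h6 : (1 - (om (HB α) t : ℝ) / t) ≠ 0 := by linarith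
          field_simp
        · rw [if_neg htz, if_neg htz, one_mul]
      have h5 : ∏ t ∈ T, (1 / ((t : ℕ) : ℝ)) = 1 / (TT T : ℝ) := by
        unfold TT
        push_cast
        rw [prod_div_distrib, prod_const_one]
      calc (Vz z)⁻¹ ^ (Fintype.card B) * ((A : ℝ) / W * Gz (HB α) z W) * ∏ t ∈ T, bt z α t (c t) =
          (Vz z)⁻¹ ^ (Fintype.card B) * ((A : ℝ) / W * Gz (HB α) z (W * TT T)) *
            ((∏ t ∈ T, (if (t : ℕ) ≤ z then 1 - (om (HB α) t : ℝ) / t else 1)) * ∏ t ∈ T, bt z α t (c t)) := by rw [h2]; ring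
        _ = _ := by
          rw [h4, h5]
          push_cast
          rw [mul_one_div, div_mul_eq_mul_div, div_mul_eq_mul_div, mul_div_assoc', mul_div_assoc', div_div]
    rw [h3, ← mul_sub, abs_mul, abs_of_pos hVB]
    exact mul_le_mul_of_nonneg_left h1 hVB.le

end sv

end Pool.Agent.H544.BC
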