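import Mathlib
import Pool.Agent.H544.BC.M2
import Pool.Graph.R_pool_sql_team_seeded_63374d34.N913.MT.F2

/-!
The local densities of the sieved slots.
-/

set_option autoImplicit false
set_option linter.unusedSectionVars false

namespace Pool.Agent.H544.BC
open Finset Polynomial
open Pool.Agent.H373R2.T7
open Pool.Agent.H544.LD (cls om Gz Gz_nonneg Gz_le_one fac_nn fac_le_one om_fixed om_shift om_le dvd_eval_iff om_lt)
open Pool.Agent.N913.MT (TT cop_TT TT_insert tot_TT crtT TT_pos' tot_prod sq_tail)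

section dens
variable {B J : Type} [Fintype B] [DecidableEq B] [Fintype J] [DecidableEq J]

lemma pf1_none (t : ℕ) (σ : Prop) [Decidable σ] (pos : B × J → ℤ) (x : ℤ) : pf1 t (none : Option J) σ pos x = 1 := by
  unfold pf1
  apply prod_eq_one
  intro q _
  rw [if_neg (by simp)]

lemma pf1_some (t : ℕ) (ht : t.Prime) (j0 : J) (σ : Prop) [Decidable σ] (a : B → J → ℤ) (x : ℤ) :
    pf1 t (some j0) σ (fun q : B × J => a q.1 q.2) x =
      if σ then (if (t : ℤ) ∣ (HB (fun i => a i j0)).eval x then 0 else (1 + 1 / ((t : ℝ) - 1)) ^ (Fintype.card B)) else 1 := by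
  unfold pf1
  rw [Fintype.prod_prod_type]
  by_cases hσ : σ
  · rw [if_pos hσ]
    have h1 : ∀ b : B, ∏ j : J, (if some j0 = some j ∧ σ then (if (t : ℤ) ∣ x + a b j then (0 : ℝ) else 1 + 1 / ((t : ℝ) - 1)) else 1) =
        if (t : ℤ) ∣ x + a b j0 then (0 : ℝ) else 1 + 1 / ((t : ℝ) - 1) := by
      intro b
      have h2 : ∀ j : J, (if some j0 = some j ∧ σ then (if (t : ℤ) ∣ x + a b j then (0 : ℝ) else 1 + 1 / ((t : ℝ) - 1)) else 1) =
          if j0 = j then (if (t : ℤ) ∣ x + a b j then (0 : ℝ) else 1 + 1 / ((t : ℝ) - 1)) else 1 := by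
        intro j
        simp [hσ]
      rw [prod_congr rfl (fun j _ => h2 j), prod_ite_eq univ j0 (fun j => (if (t : ℤ) ∣ x + a b j then (0 : ℝ) else 1 + 1 / ((t : ℝ) - 1)))]
      simp
    rw [prod_congr rfl (fun b _ => h1 b), HB_eval]
    split_ifs with h
    · obtain ⟨i, _, hi⟩ := (Prime.dvd_finsetProd_iff (Nat.prime_iff_prime_int.1 ht) _).1 h
      apply prod_eq_zero (mem_univ i)
      rw [if_pos hi]
    · have h3 : ∀ b ∈ (univ : Finset B), (if (t : ℤ) ∣ x + a b j0 then (0 : ℝ) else 1 + 1 / ((t : ℝ) - 1)) = 1 + 1 / ((t : ℝ) - 1) := by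
        intro b _
        apply if_neg
        intro hd
        exact h (hd.trans (dvd_prod_of_mem (fun i => x + a i j0) (mem_univ b)))
      rw [prod_congr rfl h3, prod_const, card_univ]
  · rw [if_neg hσ]
    apply prod_eq_one
    intro b _
    apply prod_eq_one
    intro j _
    rw [if_neg (fun h => hσ h.2)]

/-- the number of roots for distinct positions -/
lemma om_good (t : ℕ) (ht : t.Prime) (α : B → ℤ) (hα : ∀ i i', i ≠ i' → ¬ (t : ℤ) ∣ α i - α i') : om (HB α) t = Fintype.card B := by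
  unfold om
  have h1 : (range t).filter (fun n : ℕ => (t : ℤ) ∣ (HB α).eval (n : ℤ)) =
      (univ : Finset B).biUnion (fun i => (range t).filter (fun x : ℕ => (t : ℤ) ∣ (x : ℤ) + α i)) := by
    ext n
    rw [mem_filter, mem_biUnion, HB_eval]
    constructor
    · rintro ⟨h1, h2⟩
      obtain ⟨i, hi, hd⟩ := (Prime.dvd_finsetProd_iff (Nat.prime_iff_prime_int.1 ht) _).1 h2
      exact ⟨i, hi, mem_filter.2 ⟨h1, hd⟩⟩
    · rintro ⟨i, hi, h2⟩
      rw [mem_filter] at h2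
      exact ⟨h2.1, h2.2.trans (dvd_prod_of_mem (fun i => (n : ℤ) + α i) hi)⟩
  rw [h1, card_biUnion]
  · rw [sum_congr rfl (fun i _ => one_root t ht.pos (α i))]
    simp
  · intro i _ i' _ hii
    show Disjoint ((range t).filter (fun x : ℕ => (t : ℤ) ∣ (x : ℤ) + α i)) ((range t).filter (fun x : ℕ => (t : ℤ) ∣ (x : ℤ) + α i'))
    rw [Finset.disjoint_left]
    intro n hn hn'
    simp only [mem_filter] at hn hn'
    apply hα i i' hii
    have h4 := dvd_sub hn.2 hn'.2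
    have e : (n : ℤ) + α i - ((n : ℤ) + α i') = α i - α i' := by ring
    rwa [e] at h4

lemma om_pos (t : ℕ) (ht : t.Prime) (α : B → ℤ) (i : B) : 1 ≤ om (HB α) t := by
  unfold om
  have h1 : (range t).filter (fun x : ℕ => (t : ℤ) ∣ (x : ℤ) + α i) ⊆ (range t).filter (fun n : ℕ => (t : ℤ) ∣ (HB α).eval (n : ℤ)) := by
    intro n hn
    rw [mem_filter] at hn ⊢
    refine ⟨hn.1, ?_⟩
    rw [HB_eval]
    exact hn.2.trans (dvd_prod_of_mem (fun i => (n : ℤ) + α i) (mem_univ i))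
  have h2 := card_le_card h1
  rw [one_root t ht.pos] at h2
  exact h2

/-- good primes -/
lemma bt_good (hB : Fintype.card B ≤ 2) (z t : ℕ) (ht : t.Prime) (ht3 : 3 ≤ t) (j0 : J) (a : B → J → ℤ)
    (hpos : ∀ q q' : B × J, q ≠ q' → ¬ (t : ℤ) ∣ a q.1 q.2 - a q'.1 q'.2) (x : ℕ) :
    |bt z (fun i => a i j0) t x - pf1 t (some j0) (t ≤ z) (fun q : B × J => a q.1 q.2) x / t| ≤ 7 / (t : ℝ) ^ 3 := by
  have h3 : (3 : ℝ) ≤ t := by exact_mod_cast ht3
  have ht0 : (t : ℝ) ≠ 0 := by linarith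
  rw [pf1_some t ht j0 (t ≤ z) a x]
  unfold bt
  have h0 : (0 : ℝ) ≤ 7 / (t : ℝ) ^ 3 := by positivity
  by_cases hz : t ≤ z
  · rw [if_pos hz, if_pos hz]
    by_cases hd : (t : ℤ) ∣ (HB (fun i => a i j0)).eval (x : ℤ)
    · rw [if_pos hd, if_pos hd, zero_div, sub_zero, abs_zero]
      exact h0
    · rw [if_neg hd, if_neg hd]
      rw [om_good t ht (fun i => a i j0) (fun i i' hii => hpos (i, j0) (i', j0) (fun h => hii (Prod.ext_iff.1 h).1))]
      have h5 : (t : ℝ) - 1 ≠ 0 := by linarith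
      have h6 : (t : ℝ) - 2 ≠ 0 := by linarith
      interval_cases hk : Fintype.card B
      · have e : (1 / (t : ℝ)) / (1 - ((0 : ℕ) : ℝ) / t) - (1 + 1 / ((t : ℝ) - 1)) ^ 0 / t = 0 := by
          simp
        rw [e, abs_zero]
        exact h0
      · have e : (1 / (t : ℝ)) / (1 - ((1 : ℕ) : ℝ) / t) - (1 + 1 / ((t : ℝ) - 1)) ^ 1 / t = 0 := by
          push_cast
          have e1 : 1 - 1 / (t : ℝ) = (t - 1) / t := by field_simp
          have e2 : 1 + 1 / ((t : ℝ) - 1) = t / (t - 1) := by field_simp; ring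
          rw [e1, e2, pow_one]
          field_simp
          ring
        rw [e, abs_zero]
        exact h0
      · have e : (1 / (t : ℝ)) / (1 - ((2 : ℕ) : ℝ) / t) - (1 + 1 / ((t : ℝ) - 1)) ^ 2 / t = 1 / ((t - 2) * (t - 1) ^ 2) := by
          push_cast
          have e1 : 1 - 2 / (t : ℝ) = (t - 2) / t := by field_simp
          have e2 : 1 + 1 / ((t : ℝ) - 1) = t / (t - 1) := by field_simp; ring
          rw [e1, e2]
          field_simp
          ring
        rw [e, abs_of_nonneg (by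
          have : 0 < (t : ℝ) - 2 := by linarith
          positivity), div_le_div_iff₀ (by
          have : 0 < (t : ℝ) - 2 := by linarith
          have : 0 < (t : ℝ) - 1 := by linarith
          positivity) (by positivity)]
        obtain ⟨s, hs⟩ : ∃ s, s = (t : ℝ) - 3 := ⟨_, rfl⟩
        have hs0 : 0 ≤ s := by linarith
        have e3 : (t : ℝ) = s + 3 := by linarith
        rw [e3]
        nlinarith [mul_nonneg hs0 hs0, mul_nonneg (mul_nonneg hs0 hs0) hs0]
  · rw [if_neg hz, if_neg hz, sub_self, abs_zero]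
    exact h0

/-- the density of the model, one point -/
lemma kap_one (z W : ℕ) (hW0 : 1 ≤ W) (hWz : ∀ p : ℕ, p.Prime → p ∣ W → p ≤ z) (α : Fin 1 → ℤ) :
    (Vz z)⁻¹ ^ (Fintype.card (Fin 1)) * Gz (HB α) z W = (W : ℝ) / Nat.totient W := by
  have hV := Vz_pos z
  rw [Fintype.card_fin, pow_one]
  have h1 : Gz (HB α) z W = ∏ p ∈ (pz z).filter (fun p => ¬ p ∣ W), (1 - 1 / (p : ℝ)) := by
    unfold Gz
    apply prod_congr rfl
    intro p hp
    rw [mem_filter, mem_pz] at hp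
    rw [om_good p hp.1.2 α (fun i i' h => absurd (Subsingleton.elim i i') h)]
    simp
  have h2 : Vz z = (∏ p ∈ W.primeFactors, (1 - 1 / (p : ℝ))) * ∏ p ∈ (pz z).filter (fun p => ¬ p ∣ W), (1 - 1 / (p : ℝ)) := by
    unfold Vz
    rw [← prod_filter_mul_prod_filter_not (pz z) (fun p => p ∣ W)]
    congr 1
    apply prod_congr _ (fun _ _ => rfl)
    ext p
    rw [mem_filter, mem_pz, Nat.mem_primeFactors]
    constructor
    · rintro ⟨⟨_, h4⟩, h5⟩
      exact ⟨h4, h5, by omega⟩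
    · rintro ⟨h4, h5, _⟩
      exact ⟨⟨hWz p h4 h5, h4⟩, h5⟩
  have h3 := tot_prod W
  have hW : (W : ℝ) ≠ 0 := by positivity
  rw [h2] at hV ⊢
  rw [h1, h3]
  obtain ⟨u, hu⟩ : ∃ u, u = ∏ p ∈ W.primeFactors, (1 - 1 / (p : ℝ)) := ⟨_, rfl⟩
  obtain ⟨v, hv⟩ : ∃ v, v = ∏ p ∈ (pz z).filter (fun p => ¬ p ∣ W), (1 - 1 / (p : ℝ)) := ⟨_, rfl⟩
  rw [← hu, ← hv] at hV ⊢
  have hu0 : u ≠ 0 := left_ne_zero_of_mul hV.ne'
  have hv0 : v ≠ 0 := right_ne_zero_of_mul hV.ne'
  field_simp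

/-- the density of the model, two points -/
lemma kap_two (z W : ℕ) (hW0 : 1 ≤ W) (hWz : ∀ p : ℕ, p.Prime → p ∣ W → p ≤ z) (S : Finset ℕ)
    (hWS : ∀ p : ℕ, p.Prime → p ≤ z → ¬ p ∣ W → p ∈ S) (α : Fin 2 → ℤ) :
    (Vz z)⁻¹ ^ (Fintype.card (Fin 2)) * Gz (HB α) z W ≤ ((W : ℝ) / Nat.totient W) ^ 2 *
      Real.exp (∑ t ∈ S, (if (t : ℤ) ∣ α 0 - α 1 then 2 / (t : ℝ) else 0)) := by
  have hV := Vz_pos z
  have h1 := kap_one z W hW0 hWz (fun _ => 0)
  rw [Fintype.card_fin, pow_one] at h1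
  have hfac : ∀ p ∈ (pz z).filter (fun p => ¬ p ∣ W), (1 - (om (HB α) p : ℝ) / p) ≤
      (1 - 1 / (p : ℝ)) ^ 2 * Real.exp (if (p : ℤ) ∣ α 0 - α 1 then 2 / (p : ℝ) else 0) := by
    intro p hp
    rw [mem_filter, mem_pz] at hp
    have hpp := hp.1.2
    have hp2 : (2 : ℝ) ≤ p := by exact_mod_cast hpp.two_le
    have hp0 : (0 : ℝ) < p := by linarith
    split_ifs with hd
    · have h4 := om_pos p hpp α 0
      have h5 : (1 : ℝ) ≤ om (HB α) p := by exact_mod_cast h4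
      have h6 : 1 / (p : ℝ) ≤ (om (HB α) p : ℝ) / p := div_le_div_of_nonneg_right h5 hp0.le
      obtain ⟨w, hw⟩ : ∃ w, w = 1 / (p : ℝ) := ⟨_, rfl⟩
      have hw0 : 0 ≤ w := by rw [hw]; positivity
      have hw1 : w ≤ 1 / 2 := by rw [hw]; exact one_div_le_one_div_of_le (by norm_num) hp2
      have h7 : 2 / (p : ℝ) = 2 * w := by rw [hw]; ring
      rw [← hw] at h6 ⊢
      rw [h7]
      have h8 := Real.add_one_le_exp (2 * w)
      have h9 : 1 ≤ (1 - w) * Real.exp (2 * w) := by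
        calc (1 : ℝ) ≤ (1 - w) * (2 * w + 1) := by nlinarith
          _ ≤ _ := mul_le_mul_of_nonneg_left h8 (by linarith)
      calc 1 - (om (HB α) p : ℝ) / p ≤ (1 - w) * 1 := by linarith
        _ ≤ (1 - w) * ((1 - w) * Real.exp (2 * w)) := mul_le_mul_of_nonneg_left h9 (by linarith)
        _ = _ := by ring
    · rw [Real.exp_zero, mul_one]
      rw [om_good p hpp α (by
        intro i i' hii
        have : (i = 0 ∧ i' = 1) ∨ (i = 1 ∧ i' = 0) := by omega
        rcases this with ⟨rfl, rfl⟩ | ⟨rfl, rfl⟩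
        · exact hd
        · intro h
          apply hd
          have e : α 0 - α 1 = -(α 1 - α 0) := by ring
          rw [e]
          exact (dvd_neg).2 h)]
      rw [Fintype.card_fin]
      push_cast
      have : (1 - 1 / (p : ℝ)) ^ 2 = 1 - 2 / p + (1 / p) ^ 2 := by ring
      rw [this]
      have : 0 ≤ (1 / (p : ℝ)) ^ 2 := by positivity
      linarith
  have h2 : Gz (HB α) z W ≤ (∏ p ∈ (pz z).filter (fun p => ¬ p ∣ W), (1 - 1 / (p : ℝ))) ^ 2 *
      Real.exp (∑ t ∈ S, (if (t : ℤ) ∣ α 0 - α 1 then 2 / (t : ℝ) else 0)) := by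
    unfold Gz
    refine (prod_le_prod (fun p _ => fac_nn _ p) hfac).trans ?_
    rw [prod_mul_distrib, prod_pow, ← Real.exp_sum]
    apply mul_le_mul_of_nonneg_left _ (sq_nonneg _)
    apply Real.exp_le_exp.2
    apply sum_le_sum_of_subset_of_nonneg
    · intro p hp
      rw [mem_filter, mem_pz] at hp
      exact hWS p hp.1.2 hp.1.1 hp.2
    · intro p _ _
      split_ifs
      · positivity
      · exact le_rfl
  have h3 : Gz (HB (fun _ : Fin 1 => (0 : ℤ))) z W = ∏ p ∈ (pz z).filter (fun p => ¬ p ∣ W), (1 - 1 / (p : ℝ)) := by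
    unfold Gz
    apply prod_congr rfl
    intro p hp
    rw [mem_filter, mem_pz] at hp
    rw [om_good p hp.1.2 _ (fun i i' h => absurd (Subsingleton.elim i i') h)]
    simp
  rw [h3] at h1
  rw [Fintype.card_fin, ← h1]
  have hVi : 0 < (Vz z)⁻¹ := inv_pos.2 hV
  calc (Vz z)⁻¹ ^ 2 * Gz (HB α) z W ≤ (Vz z)⁻¹ ^ 2 * ((∏ p ∈ (pz z).filter (fun p => ¬ p ∣ W), (1 - 1 / (p : ℝ))) ^ 2 *
      Real.exp (∑ t ∈ S, (if (t : ℤ) ∣ α 0 - α 1 then 2 / (t : ℝ) else 0))) := mul_le_mul_of_nonneg_left h2 (by positivity)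
    _ = _ := by ring

end dens

end Pool.Agent.H544.BC
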