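import Mathlib
import Pool.Agent.H544.BC.M3

/-!
The moments of the weights in a class of shifts.
-/

set_option autoImplicit false
set_option linter.unusedSectionVars false

namespace Pool.Agent.H544.BC
open Finset Polynomial
open Pool.Agent.H373R2.T7
open Pool.Agent.R498.MT (lz)
open Pool.Agent.H544.LD (cls om Gz Gz_nonneg Gz_le_one fac_nn fac_le_one om_fixed om_shift om_le dvd_eval_iff om_lt)
open Pool.Agent.N913.MT (TT cop_TT TT_insert tot_TT crtT TT_pos' tot_prod sq_tail Wb Yp adm_of sum_pow_le)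

/-- the data -/
structure Su (J : Type) [Fintype J] [DecidableEq J] where
  S : Finset ℕ
  W : ℕ
  R : ℕ
  z : ℕ
  z0 : ℕ
  b : ℕ
  C1 : ℕ
  zf : ℕ
  A : ℕ
  c0 : ℕ
  y : (J → Finset S) → ℝ
  hS : ∀ p ∈ S, p.Prime
  hz0 : 3 ≤ z0
  hSz : S ⊆ Ico z0 R
  hSall : ∀ p : ℕ, p.Prime → p ≤ z → ¬ p ∣ W → p ∈ S
  hSc : ∀ p ∈ S, (3 * 2 ^ (4 * Fintype.card J) : ℝ) ≤ (p : ℝ)
  hW0 : 1 ≤ W
  hW : ∀ p ∈ S, ¬ p ∣ W
  hWz : ∀ p : ℕ, p.Prime → p ∣ W → p ≤ z
  hR1 : 1 ≤ R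
  hy1 : ∀ f, |y f| ≤ 1
  hys : ∀ f, y f ≠ 0 → ∑ j, lz (fun t : S => Real.log ((t : ℕ) : ℝ)) (f j) < Real.log R
  hc0 : c0 < W
  hfl : ∀ b : ℕ, C1 ≤ b → ∀ z : ℕ, zf ≤ z →
    ∀ (H : ℤ[X]) (q r y : ℕ), H.natDegree ≤ 2 → 1 ≤ q → r < q → (∀ p ∈ pz z, p ∣ q → ¬ (p : ℤ) ∣ H.eval (r : ℤ)) →
    |(#((cls y q r).filter (fun n : ℕ => ∀ p ∈ pz z, ¬ (p : ℤ) ∣ H.eval (n : ℤ))) : ℝ) - (y : ℝ) / q * Gz H z q| ≤
      (1 / 2 : ℝ) ^ b * ((y : ℝ) / q) + (z : ℝ) ^ (C1 * b)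
  hb : C1 ≤ b
  hz : zf ≤ z

/-- the model in the sieved slot -/
noncomputable def mw {J : Type} (z : ℕ) (l : Option J) (a : J → ℤ) (c : ℤ) : ℝ :=
  match l with
  | none => 1
  | some j => lamzI z (c + a j)

namespace Su
variable {J : Type} [Fintype J] [DecidableEq J] (D : Su J)

/-- the weights on the primes -/
noncomputable def ν (t : D.S) : ℝ := 1 / (((t : ℕ) : ℝ) - 1)

lemma hS3 : ∀ p ∈ D.S, 3 ≤ p := fun p hp => D.hz0.trans (mem_Ico.1 (D.hSz hp)).1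

/-- the error -/
noncomputable def Err : ℝ :=
  (Vz D.z)⁻¹ ^ 2 * ((1 / 2 : ℝ) ^ D.b * ((D.A : ℝ) / D.W) * Real.exp (∑ t : D.S, (3 * 2 ^ (4 * Fintype.card J)) / ((t : ℕ) : ℝ))) +
    ((Vz D.z)⁻¹ ^ 2 * (D.z : ℝ) ^ (D.C1 * D.b) + 1) * ((D.R : ℝ) ^ 4) ^ 2

/-- the error of one modulus -/
noncomputable def ET (T : Finset D.S) : ℝ :=
  (Vz D.z)⁻¹ ^ 2 * ((1 / 2 : ℝ) ^ D.b * ((D.A : ℝ) / ((D.W * TT T : ℕ) : ℝ)) + (D.z : ℝ) ^ (D.C1 * D.b)) + 1

lemma ET_nonneg (T : Finset D.S) : 0 ≤ D.ET T := by unfold ET; positivity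

/-- the density of the sieved slot -/
noncomputable def om (l : Option J) : ℝ :=
  match l with
  | none => 1
  | some _ => (D.W : ℝ) / Nat.totient D.W

lemma om_ge (l : Option J) : 1 ≤ D.om l := by
  unfold om
  cases l with
  | none => exact le_rfl
  | some j =>
    have h1 : (0 : ℝ) < Nat.totient D.W := by exact_mod_cast Nat.totient_pos.2 D.hW0
    show 1 ≤ (D.W : ℝ) / Nat.totient D.W
    rw [le_div_iff₀ h1, one_mul]
    exact_mod_cast Nat.totient_le D.W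

/-- density of the class -/
noncomputable def κ : ℝ := (D.A : ℝ) / D.W

lemma κ_nonneg : 0 ≤ D.κ := by unfold κ; positivity

lemma err_sum {B : Type} [Fintype B] [DecidableEq B] (hB : Fintype.card B ≤ 2) :
    ∑ T ∈ univ.filter (fun T : Finset D.S => TT T ≤ D.R ^ 4), (2 : ℝ) ^ (Fintype.card (B × Bool × J) * T.card) *
        (D.ET T * ∏ _t ∈ T, (3 : ℝ)) ≤ D.Err := by
  set Cc : ℝ := 3 * 2 ^ (4 * Fintype.card J) with hCc
  have hCc0 : 0 ≤ Cc := by positivity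
  have hV : 0 < (Vz D.z)⁻¹ := inv_pos.2 (Vz_pos D.z)
  have h1 : ∀ T ∈ univ.filter (fun T : Finset D.S => TT T ≤ D.R ^ 4), (2 : ℝ) ^ (Fintype.card (B × Bool × J) * T.card) *
        (D.ET T * ∏ _t ∈ T, (3 : ℝ)) ≤
      (Vz D.z)⁻¹ ^ 2 * ((1 / 2 : ℝ) ^ D.b * ((D.A : ℝ) / D.W)) * ∏ t ∈ T, (Cc / ((t : ℕ) : ℝ)) + ((Vz D.z)⁻¹ ^ 2 * (D.z : ℝ) ^ (D.C1 * D.b) + 1) * Cc ^ T.card := by
    intro T _
    have h2 : (2 : ℝ) ^ (Fintype.card (B × Bool × J) * T.card) * ∏ _t ∈ T, (3 : ℝ) ≤ Cc ^ T.card := by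
      rw [prod_const, pow_mul, ← mul_pow]
      apply pow_le_pow_left₀ (by positivity)
      rw [hCc, mul_comm]
      apply mul_le_mul_of_nonneg_left _ (by norm_num)
      apply pow_le_pow_right₀ (by norm_num)
      rw [Fintype.card_prod, Fintype.card_prod, Fintype.card_bool]
      nlinarith
    have h3 : ∏ t ∈ T, (Cc / ((t : ℕ) : ℝ)) = Cc ^ T.card / TT T := by
      unfold TT
      push_cast
      rw [prod_div_distrib, prod_const]
    have hTT : (0 : ℝ) < TT T := by exact_mod_cast TT_pos' D.hS T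
    have hW : (0 : ℝ) < D.W := by exact_mod_cast D.hW0
    calc (2 : ℝ) ^ (Fintype.card (B × Bool × J) * T.card) * (D.ET T * ∏ _t ∈ T, (3 : ℝ)) =
          D.ET T * ((2 : ℝ) ^ (Fintype.card (B × Bool × J) * T.card) * ∏ _t ∈ T, (3 : ℝ)) := by ring
      _ ≤ D.ET T * Cc ^ T.card := mul_le_mul_of_nonneg_left h2 (D.ET_nonneg T)
      _ = _ := by
        rw [h3]
        unfold ET
        push_cast
        field_simp
        ring
  refine (sum_le_sum h1).trans ?_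
  rw [sum_add_distrib, ← mul_sum, ← mul_sum]
  unfold Err
  apply add_le_add
  · refine le_trans ?_ (le_of_eq (mul_assoc _ _ _))
    apply mul_le_mul_of_nonneg_left _ (by positivity)
    have h2 : ∑ T ∈ univ.filter (fun T : Finset D.S => TT T ≤ D.R ^ 4), ∏ t ∈ T, (Cc / ((t : ℕ) : ℝ)) ≤
        ∑ T ∈ (univ : Finset D.S).powerset, ∏ t ∈ T, (Cc / ((t : ℕ) : ℝ)) := by
      apply sum_le_sum_of_subset_of_nonneg
      · intro T _
        rw [mem_powerset]
        exact subset_univ T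
      · intro T _ _
        exact prod_nonneg fun t _ => by positivity
    refine h2.trans ?_
    rw [← prod_one_add, Real.exp_sum]
    apply prod_le_prod
    · intro t _
      positivity
    · intro t _
      have := Real.add_one_le_exp (Cc / ((t : ℕ) : ℝ))
      linarith
  · apply mul_le_mul_of_nonneg_left _ (by positivity)
    have := sum_pow_le D.hS Cc hCc0 (fun p hp => D.hSc p hp) (D.R ^ 4)
    push_cast at this
    exact this

lemma hAdm {B : Type} [Fintype B] [DecidableEq B] (hB : Fintype.card B ≤ 2)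
    (F : B × Bool × J → Finset D.S) (hF : Yp D.y F ≠ 0) : TT (univ.biUnion F) ≤ D.R ^ 4 := by
  refine (adm_of D.hS D.R D.hR1 D.y D.hys F hF).trans ?_
  exact Nat.pow_le_pow_right D.hR1 (by omega)

/-- the densities in the classes -/
noncomputable def bet {B : Type} [Fintype B] [DecidableEq B] (l : Option J) (a : B → J → ℤ) (t : D.S) (x : ℕ) : ℝ :=
  match l with
  | none => 1 / ((t : ℕ) : ℝ)
  | some j => bt D.z (fun i => a i j) t x

/-- the main term -/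
noncomputable def kp {B : Type} [Fintype B] [DecidableEq B] (l : Option J) (a : B → J → ℤ) : ℝ :=
  match l with
  | none => (D.A : ℝ) / D.W
  | some j => (Vz D.z)⁻¹ ^ (Fintype.card B) * ((D.A : ℝ) / D.W * Gz (HB (fun i => a i j)) D.z D.W)

variable {B : Type} [Fintype B] [DecidableEq B]

lemma kp_nonneg (l : Option J) (a : B → J → ℤ) : 0 ≤ D.kp l a := by
  have hV : 0 < (Vz D.z)⁻¹ := inv_pos.2 (Vz_pos D.z)
  unfold kp
  cases l with
  | none => positivity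
  | some j =>
    have := Gz_nonneg (HB (fun i => a i j)) D.z D.W
    positivity

/-- good primes for a system of positions -/
def gd (a : B → J → ℤ) (t : ℕ) : Prop := ∀ q q' : B × J, q ≠ q' → ¬ (t : ℤ) ∣ a q.1 q.2 - a q'.1 q'.2

lemma class_sum (hB : Fintype.card B ≤ 2) (hB1 : 1 ≤ Fintype.card B) (l : Option J) (a : B → J → ℤ) (ha : ∀ i j, 0 ≤ a i j)
    (hcop : ∀ p : ℕ, p.Prime → p ∣ D.W → ∀ i j, ¬ (p : ℤ) ∣ (D.c0 : ℤ) + a i j) (T : Finset D.S) (c : D.S → ℕ)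
    (hc : ∀ t ∈ T, c t ∈ range (t : ℕ)) :
    |∑ n ∈ (cls D.A D.W D.c0).filter (fun n => ∀ t ∈ T, n % (t : ℕ) = c t), ∏ i, mw D.z l (a i) n -
      D.kp l a * ∏ t ∈ T, D.bet l a t (c t)| ≤ D.ET T := by
  have hV : 0 < (Vz D.z)⁻¹ := inv_pos.2 (Vz_pos D.z)
  have hV1 : 1 ≤ (Vz D.z)⁻¹ := (one_le_inv₀ (Vz_pos D.z)).2 (Vz_le_one D.z)
  cases l with
  | none =>
    have h1 := cs_none D.hS D.A D.W D.c0 D.hW0 D.hW D.hc0 T c hc
    have h2 : ∀ n : ℕ, ∏ i : B, mw D.z (none : Option J) (a i) n = 1 := by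
      intro n
      unfold mw
      simp
    simp only [h2]
    unfold kp bet
    refine h1.trans ?_
    unfold ET
    have : 0 ≤ (Vz D.z)⁻¹ ^ 2 * ((1 / 2 : ℝ) ^ D.b * ((D.A : ℝ) / ((D.W * TT T : ℕ) : ℝ)) + (D.z : ℝ) ^ (D.C1 * D.b)) := by positivity
    linarith
  | some j =>
    have h1 := cs_some D.hS D.hS3 hB D.C1 D.zf D.hfl D.b D.z D.hb D.hz (fun i => a i j) (fun i => ha i j) D.A D.W D.c0
      D.hW0 D.hW D.hc0 (fun p hp hpW i => hcop p hp hpW i j) T c hc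
    unfold mw kp bet
    refine h1.trans ?_
    unfold ET
    have h2 : (Vz D.z)⁻¹ ^ (Fintype.card B) ≤ (Vz D.z)⁻¹ ^ 2 := pow_le_pow_right₀ hV1 hB
    have h3 : 0 ≤ ((1 / 2 : ℝ) ^ D.b * ((D.A : ℝ) / ((D.W * TT T : ℕ) : ℝ)) + (D.z : ℝ) ^ (D.C1 * D.b)) := by positivity
    have h4 := mul_le_mul_of_nonneg_right h2 h3
    linarith

open Classical in
/-- the moments -/
theorem mom (hB : Fintype.card B ≤ 2) (hB1 : 1 ≤ Fintype.card B) (l : Option J) (a : B → J → ℤ) (ha : ∀ i j, 0 ≤ a i j)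
    (hcop : ∀ p : ℕ, p.Prime → p ∣ D.W → ∀ i j, ¬ (p : ℤ) ∣ (D.c0 : ℤ) + a i j) :
    |∑ c ∈ cls D.A D.W D.c0, (∏ i, mw D.z l (a i) c) * ∏ i, (Lm l D.y (a i) c) ^ 2 -
      D.kp l a * (Wb D.ν l D.y) ^ (Fintype.card B)| ≤
      D.kp l a * ((Wb D.ν l (fun _ => 1)) ^ (Fintype.card B) *
        (Real.exp (∑ t : D.S, DD1 B J (gd a t) (t : ℕ)) - 1)) + D.Err := by
  have h1 := moment (B := B) (J := J) D.hS3 D.y D.hy1 a l (fun t => t ≤ D.z) (cls D.A D.W D.c0) (fun c => ∏ i, mw D.z l (a i) c)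
    (D.bet l a) (by
      intro t
      unfold bet
      cases l with
      | none =>
        simp only
        rw [sum_const, card_range, nsmul_eq_mul]
        have : (3 : ℝ) ≤ (t : ℕ) := by exact_mod_cast D.hS3 t t.2
        have h7 : ((t : ℕ) : ℝ) ≠ 0 := by linarith
        field_simp
      | some j => exact bt_sum hB D.z _ t (D.hS t t.2) (D.hS3 t t.2)) (by
      intro t x
      unfold bet
      cases l with
      | none =>
        simp only
        have : (3 : ℝ) ≤ (t : ℕ) := by exact_mod_cast D.hS3 t t.2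
        rw [abs_of_nonneg (by positivity)]
        apply div_le_div_of_nonneg_right (by norm_num); linarith
      | some j => exact (bt_bd hB D.z _ t (D.hS t t.2) (D.hS3 t t.2) x).2) (fun t => gd a t)
    (fun t ht => ht) (by
      intro t ht x
      unfold bet
      cases l with
      | none =>
        simp only
        rw [pf1_none, sub_self, abs_zero]
        positivity
      | some j => exact bt_good hB D.z t (D.hS t t.2) (D.hS3 t t.2) j a ht x)
    (D.kp l a) (D.kp_nonneg l a) D.ET D.ET_nonneg (fun T => TT T ≤ D.R ^ 4) (D.hAdm hB)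
    (fun T _ c hc => D.class_sum hB hB1 l a ha hcop T c hc)
  refine h1.trans ?_
  exact add_le_add le_rfl (D.err_sum hB)

/-- crude bound for the diagonal -/
theorem crude (l : Option J) (a : J → ℤ) :
    ∑ c ∈ cls D.A D.W D.c0, (Lm l D.y a c) ^ 4 ≤
      D.κ * Real.exp (∑ t : D.S, 2 ^ (4 * Fintype.card J) * (9 / ((t : ℕ) : ℝ))) + D.Err := by
  have h1 := moment_crude (B := Fin 2) (J := J) D.hS3 D.y D.hy1 (fun _ => a) l (cls D.A D.W D.c0) (fun _ => 1)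
    (fun t _ => 1 / ((t : ℕ) : ℝ)) (by
      intro t
      rw [sum_const, card_range, nsmul_eq_mul]
      have : (3 : ℝ) ≤ (t : ℕ) := by exact_mod_cast D.hS3 t t.2
      have h7 : ((t : ℕ) : ℝ) ≠ 0 := by linarith
      field_simp) (by
      intro t x
      have : (3 : ℝ) ≤ (t : ℕ) := by exact_mod_cast D.hS3 t t.2
      rw [abs_of_nonneg (by positivity)]
      apply div_le_div_of_nonneg_right (by norm_num); linarith)
    D.κ D.κ_nonneg D.ET D.ET_nonneg (fun T => TT T ≤ D.R ^ 4) (D.hAdm (by simp)) (by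
      intro T _ c hc
      have h1 := cs_none D.hS D.A D.W D.c0 D.hW0 D.hW D.hc0 T c hc
      refine h1.trans ?_
      unfold ET
      have hV : 0 < (Vz D.z)⁻¹ := inv_pos.2 (Vz_pos D.z)
      have : 0 ≤ (Vz D.z)⁻¹ ^ 2 * ((1 / 2 : ℝ) ^ D.b * ((D.A : ℝ) / ((D.W * TT T : ℕ) : ℝ)) + (D.z : ℝ) ^ (D.C1 * D.b)) := by positivity
      linarith)
  have h2 := D.err_sum (B := Fin 2) (by simp)
  have e1 : Fintype.card (Fin 2 × Bool × J) = 4 * Fintype.card J := by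
    rw [Fintype.card_prod, Fintype.card_prod, Fintype.card_fin, Fintype.card_bool]; ring
  have e2 : ∀ c : ℕ, (1 : ℝ) * ∏ _b : Fin 2, (Lm l D.y a c) ^ 2 = (Lm l D.y a c) ^ 4 := by
    intro c
    rw [Fin.prod_univ_two]; ring
  rw [sum_congr rfl (fun c _ => e2 c)] at h1
  rw [e1] at h1 h2
  linarith

end Su

end Pool.Agent.H544.BC
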