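import Mathlib
import Pool.Agent.H544.BC.M4

/-!
Averages over pairs of arguments.
-/

set_option autoImplicit false
set_option linter.unusedSectionVars false

namespace Pool.Agent.H544.BC
open Finset Polynomial
open Pool.Agent.N913.MT (few sq_tail)
open Pool.Agent.H544.LD (om dvd_eval_iff)

lemma avg2 (M : ℕ) (T : Finset ℕ) (hT : ∀ p ∈ T, p.Prime) (hm : ∏ p ∈ T, p ≤ M) (φ : ℕ → ℤ → ℤ → ℝ)
    (h0 : ∀ p n n', 0 ≤ φ p n n') (hp1 : ∀ p ∈ T, ∀ n', Per p (fun n => φ p n n')) (hp2 : ∀ p ∈ T, ∀ n, Per p (fun n' => φ p n n'))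
    (Cb : ℝ) (hcount : ∀ p ∈ T, ∑ n ∈ range p, ∑ n' ∈ range p, φ p n n' ≤ Cb * p) :
    ∑ n ∈ Icc 1 M, ∑ n' ∈ Icc 1 M, ∏ p ∈ T, φ p n n' ≤ 4 * (M : ℝ) ^ 2 * ∏ p ∈ T, (Cb / (p : ℝ)) := by
  obtain ⟨m, hmd⟩ : ∃ m, m = ∏ p ∈ T, p := ⟨_, rfl⟩
  have hm1 : 1 ≤ m := by rw [hmd]; exact Finset.prod_pos fun p hp => (hT p hp).pos
  have hm0 : (0 : ℝ) < m := by exact_mod_cast hm1
  have hmM : (m : ℝ) ≤ M := by rw [hmd]; exact_mod_cast hm
  have hin : ∀ n : ℤ, ∑ n' ∈ Icc 1 M, ∏ p ∈ T, φ p n n' ≤ ((M : ℝ) / m + 1) * ∏ p ∈ T, ∑ b ∈ range p, φ p n b := by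
    intro n
    have h1 := per_sum M m hm1 (fun n' => ∏ p ∈ T, φ p n n') (by
      rw [hmd]
      exact prod_per T (fun p n' => φ p n n') (fun p hp => hp2 p hp n)) (fun n' => prod_nonneg fun p _ => h0 p n n')
    rw [hmd, crt_prod T hT (fun p n' => φ p n n') (fun p hp => hp2 p hp n), ← hmd] at h1
    exact h1
  have hMm : 0 ≤ (M : ℝ) / m + 1 := by positivity
  calc ∑ n ∈ Icc 1 M, ∑ n' ∈ Icc 1 M, ∏ p ∈ T, φ p n n' ≤ ∑ n ∈ Icc 1 M, ((M : ℝ) / m + 1) * ∏ p ∈ T, ∑ b ∈ range p, φ p n b :=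
        sum_le_sum fun n _ => hin n
    _ = ((M : ℝ) / m + 1) * ∑ n ∈ Icc 1 M, ∏ p ∈ T, ∑ b ∈ range p, φ p n b := by rw [mul_sum]
    _ ≤ ((M : ℝ) / m + 1) * (((M : ℝ) / m + 1) * ∏ p ∈ T, (Cb * p)) := by
        apply mul_le_mul_of_nonneg_left _ hMm
        have hper : ∀ p ∈ T, Per p (fun n => ∑ b ∈ range p, φ p n b) := by
          intro p hp a b hab
          apply sum_congr rfl
          intro x _
          exact hp1 p hp x a b hab
        have h1 := per_sum M m hm1 (fun n => ∏ p ∈ T, ∑ b ∈ range p, φ p n b) (by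
          rw [hmd]
          exact prod_per T (fun p n => ∑ b ∈ range p, φ p n b) hper) (fun n => prod_nonneg fun p _ => sum_nonneg fun _ _ => h0 p n _)
        refine h1.trans (mul_le_mul_of_nonneg_left ?_ hMm)
        rw [hmd, crt_prod T hT (fun p n => ∑ b ∈ range p, φ p n b) hper]
        apply prod_le_prod (fun p _ => sum_nonneg fun _ _ => sum_nonneg fun _ _ => h0 p _ _)
        intro p hp
        exact hcount p hp
    _ ≤ (2 * M / m) * ((2 * M / m) * ∏ p ∈ T, (Cb * p)) := by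
        have h2 : (M : ℝ) / m + 1 ≤ 2 * M / m := by
          rw [div_add_one hm0.ne', div_le_div_iff_of_pos_right hm0]; linarith
        have h3 : 0 ≤ ∏ p ∈ T, (Cb * p) := prod_nonneg fun p hp =>
          (sum_nonneg fun _ _ => sum_nonneg fun _ _ => h0 p _ _).trans (hcount p hp)
        gcongr
    _ = _ := by
        have e1 : ∏ p ∈ T, (Cb * (p : ℝ)) = Cb ^ (#T) * m := by
          rw [prod_mul_distrib, prod_const, hmd]
          push_cast
          rfl
        have e2 : ∏ p ∈ T, (Cb / (p : ℝ)) = Cb ^ (#T) / m := by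
          rw [prod_div_distrib, prod_const, hmd]
          push_cast
          rfl
        rw [e1, e2]
        field_simp
        ring

open Classical in
lemma avg_exp (M : ℕ) (Ss : Finset ℕ) (hT : ∀ p ∈ Ss, p.Prime) (hm : ∏ p ∈ Ss, p ≤ M) (bad : ℕ → ℤ → ℤ → Prop)
    (hp1 : ∀ p ∈ Ss, ∀ n' a b : ℤ, (p : ℤ) ∣ a - b → (bad p a n' ↔ bad p b n'))
    (hp2 : ∀ p ∈ Ss, ∀ n a b : ℤ, (p : ℤ) ∣ a - b → (bad p n a ↔ bad p n b))
    (Cb : ℝ) (hCb : 0 ≤ Cb) (hcount : ∀ p ∈ Ss, ∑ n ∈ range p, ∑ n' ∈ range p, (if bad p n n' then (1 : ℝ) else 0) ≤ Cb * p)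
    (lam : ℝ) (hlam : 0 ≤ lam) (hl : ∀ p ∈ Ss, lam ≤ p) :
    ∑ n ∈ Icc 1 M, ∑ n' ∈ Icc 1 M, (∏ p ∈ Ss, (if bad p n n' then Real.exp (lam / p) else 1) - 1) ≤
      4 * (M : ℝ) ^ 2 * (Real.exp (∑ p ∈ Ss, 2 * lam * Cb / (p : ℝ) ^ 2) - 1) := by
  set φ : ℕ → ℤ → ℤ → ℝ := fun p n n' => if bad p n n' then (1 : ℝ) else 0 with hφ
  have hφ0 : ∀ p n n', 0 ≤ φ p n n' := by
    intro p n n'
    rw [hφ]
    simp only
    split_ifs <;> norm_num
  set w : ℕ → ℝ := fun p => Real.exp (lam / p) - 1 with hw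
  have hw0 : ∀ p, 0 ≤ w p := by
    intro p
    rw [hw]
    simp only
    have : 1 ≤ Real.exp (lam / p) := Real.one_le_exp (by positivity)
    linarith
  have hw1 : ∀ p ∈ Ss, w p ≤ 2 * lam / p := by
    intro p hp
    have hp0 : (0 : ℝ) < p := by exact_mod_cast (hT p hp).pos
    have h1 : |lam / p| ≤ 1 := by
      rw [abs_of_nonneg (by positivity), div_le_one hp0]
      exact hl p hp
    have h2 := Real.abs_exp_sub_one_le h1
    rw [hw]
    simp only
    rw [abs_of_nonneg (by positivity : 0 ≤ lam / (p : ℝ))] at h2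
    have h3 := le_abs_self (Real.exp (lam / p) - 1)
    have e : 2 * lam / (p : ℝ) = 2 * (lam / p) := by ring
    rw [e]
    linarith
  have hexp : ∀ n n' : ℤ, ∏ p ∈ Ss, (if bad p n n' then Real.exp (lam / p) else 1) - 1 =
      ∑ T ∈ Ss.powerset.erase ∅, (∏ p ∈ T, w p) * ∏ p ∈ T, φ p n n' := by
    intro n n'
    have h1 : ∀ p ∈ Ss, (if bad p n n' then Real.exp (lam / p) else 1) = 1 + w p * φ p n n' := by
      intro p _
      rw [hφ, hw]
      simp only
      split_ifs <;> ring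
    rw [prod_congr rfl h1, prod_one_add, ← add_sum_erase _ _ (empty_mem_powerset Ss), prod_empty, add_sub_cancel_left]
    apply sum_congr rfl
    intro T _
    rw [prod_mul_distrib]
  have h1 : ∑ n ∈ Icc 1 M, ∑ n' ∈ Icc 1 M, (∏ p ∈ Ss, (if bad p n n' then Real.exp (lam / p) else 1) - 1) =
      ∑ T ∈ Ss.powerset.erase ∅, (∏ p ∈ T, w p) * ∑ n ∈ Icc 1 M, ∑ n' ∈ Icc 1 M, ∏ p ∈ T, φ p n n' := by
    calc _ = ∑ n ∈ Icc 1 M, ∑ n' ∈ Icc 1 M, ∑ T ∈ Ss.powerset.erase ∅, (∏ p ∈ T, w p) * ∏ p ∈ T, φ p n n' := by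
          apply sum_congr rfl
          intro n _
          apply sum_congr rfl
          intro n' _
          exact hexp n n'
      _ = ∑ n ∈ Icc 1 M, ∑ T ∈ Ss.powerset.erase ∅, ∑ n' ∈ Icc 1 M, (∏ p ∈ T, w p) * ∏ p ∈ T, φ p n n' := by
          apply sum_congr rfl
          intro n _
          rw [sum_comm]
      _ = ∑ T ∈ Ss.powerset.erase ∅, ∑ n ∈ Icc 1 M, ∑ n' ∈ Icc 1 M, (∏ p ∈ T, w p) * ∏ p ∈ T, φ p n n' := by
          rw [sum_comm]
      _ = _ := by
          apply sum_congr rfl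
          intro T _
          rw [mul_sum]
          apply sum_congr rfl
          intro n _
          rw [mul_sum]
  rw [h1]
  have h2 : ∀ T ∈ Ss.powerset.erase ∅, (∏ p ∈ T, w p) * ∑ n ∈ Icc 1 M, ∑ n' ∈ Icc 1 M, ∏ p ∈ T, φ p n n' ≤
      4 * (M : ℝ) ^ 2 * ∏ p ∈ T, (2 * lam * Cb / (p : ℝ) ^ 2) := by
    intro T hTm
    have hTS := mem_powerset.1 (mem_erase.1 hTm).2
    have h3 := avg2 M T (fun p hp => hT p (hTS hp)) (le_trans (Nat.le_of_dvd (Finset.prod_pos fun p hp => (hT p hp).pos)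
      (prod_dvd_prod_of_subset _ _ _ hTS)) hm) φ hφ0 (by
        intro p hp n' a b hab
        show (if bad p a n' then (1 : ℝ) else 0) = if bad p b n' then (1 : ℝ) else 0
        rw [if_congr (hp1 p (hTS hp) n' a b hab) rfl rfl]) (by
        intro p hp n a b hab
        show (if bad p n a then (1 : ℝ) else 0) = if bad p n b then (1 : ℝ) else 0
        rw [if_congr (hp2 p (hTS hp) n a b hab) rfl rfl]) Cb (fun p hp => hcount p (hTS hp))
    calc _ ≤ (∏ p ∈ T, (2 * lam / (p : ℝ))) * (4 * (M : ℝ) ^ 2 * ∏ p ∈ T, (Cb / (p : ℝ))) := by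
          apply mul_le_mul _ h3 (sum_nonneg fun _ _ => sum_nonneg fun _ _ => prod_nonneg fun _ _ => hφ0 _ _ _)
            (prod_nonneg fun p _ => by positivity)
          apply prod_le_prod (fun p _ => hw0 p)
          intro p hp
          exact hw1 p (hTS hp)
      _ = 4 * (M : ℝ) ^ 2 * ((∏ p ∈ T, (2 * lam / (p : ℝ))) * ∏ p ∈ T, (Cb / (p : ℝ))) := by ring
      _ = _ := by
          rw [← prod_mul_distrib]
          congr 1
          apply prod_congr rfl
          intro p _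
          ring
  refine (sum_le_sum h2).trans ?_
  rw [← mul_sum]
  apply mul_le_mul_of_nonneg_left _ (by positivity)
  have h3 : ∑ T ∈ Ss.powerset.erase ∅, ∏ p ∈ T, (2 * lam * Cb / (p : ℝ) ^ 2) = ∏ p ∈ Ss, (1 + 2 * lam * Cb / (p : ℝ) ^ 2) - 1 := by
    rw [prod_one_add, ← add_sum_erase _ _ (empty_mem_powerset Ss), prod_empty, add_sub_cancel_left]
  rw [h3]
  apply sub_le_sub_right
  rw [Real.exp_sum]
  apply prod_le_prod
  · intro p _
    positivity
  · intro p _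
    have := Real.add_one_le_exp (2 * lam * Cb / (p : ℝ) ^ 2)
    linarith

section pos
variable {J : Type} [Fintype J] [DecidableEq J]

/-- positions -/
def pos1 (g : J → ℤ[X]) (n : ℤ) : J → ℤ := fun j => (g j).eval n

/-- two systems of positions -/
def pos2 (g : J → ℤ[X]) (n n' : ℤ) : Fin 2 → J → ℤ := fun i => if i = 0 then pos1 g n else pos1 g n'

/-- the hypotheses on the polynomials -/
structure Gp (g : J → ℤ[X]) (d : ℕ) (S : Finset ℕ) : Prop where
  r1 : ∀ t ∈ S, ∀ j, ∀ c : ℤ, #((range t).filter (fun n : ℕ => (t : ℤ) ∣ (g j).eval (n : ℤ) + c)) ≤ d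
  r2 : ∀ t ∈ S, ∀ j j', j ≠ j' → ∀ c : ℤ, #((range t).filter (fun n : ℕ => (t : ℤ) ∣ (g j).eval (n : ℤ) - (g j').eval (n : ℤ) + c)) ≤ d

lemma gd_per1 (g : J → ℤ[X]) (p : ℕ) (n' a b : ℤ) (hab : (p : ℤ) ∣ a - b) : Su.gd (pos2 g a n') p → Su.gd (pos2 g b n') p := by
  intro h q q' hqq hd
  apply h q q' hqq
  have key : ∀ (i : Fin 2) (j : J), (p : ℤ) ∣ pos2 g a n' i j - pos2 g b n' i j := by
    intro i j
    unfold pos2 pos1
    split_ifs
    · exact hab.trans (Polynomial.sub_dvd_eval_sub _ _ _)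
    · simp
  have e : pos2 g a n' q.1 q.2 - pos2 g a n' q'.1 q'.2 = (pos2 g b n' q.1 q.2 - pos2 g b n' q'.1 q'.2) +
      (pos2 g a n' q.1 q.2 - pos2 g b n' q.1 q.2) - (pos2 g a n' q'.1 q'.2 - pos2 g b n' q'.1 q'.2) := by ring
  rw [e]
  exact dvd_sub (dvd_add hd (key _ _)) (key _ _)

lemma gd_per2 (g : J → ℤ[X]) (p : ℕ) (n a b : ℤ) (hab : (p : ℤ) ∣ a - b) : Su.gd (pos2 g n a) p → Su.gd (pos2 g n b) p := by
  intro h q q' hqq hd
  apply h q q' hqq
  have key : ∀ (i : Fin 2) (j : J), (p : ℤ) ∣ pos2 g n a i j - pos2 g n b i j := by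
    intro i j
    unfold pos2 pos1
    split_ifs
    · simp
    · exact hab.trans (Polynomial.sub_dvd_eval_sub _ _ _)
  have e : pos2 g n a q.1 q.2 - pos2 g n a q'.1 q'.2 = (pos2 g n b q.1 q.2 - pos2 g n b q'.1 q'.2) +
      (pos2 g n a q.1 q.2 - pos2 g n b q.1 q.2) - (pos2 g n a q'.1 q'.2 - pos2 g n b q'.1 q'.2) := by ring
  rw [e]
  exact dvd_sub (dvd_add hd (key _ _)) (key _ _)

open Classical in
/-- the number of bad pairs of classes -/
lemma bad_count (g : J → ℤ[X]) (d : ℕ) (S : Finset ℕ) (hg : Gp g d S) (t : ℕ) (ht : t ∈ S) :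
    ∑ n ∈ range t, ∑ n' ∈ range t, (if ¬ Su.gd (pos2 g n n') t then (1 : ℝ) else 0) ≤ (4 * (Fintype.card J : ℝ) ^ 2 * d) * t := by
  have h1 : ∀ n n' : ℕ, (if ¬ Su.gd (pos2 g n n') t then (1 : ℝ) else 0) ≤
      ∑ x : (Fin 2 × J) × (Fin 2 × J), (if x.1 ≠ x.2 ∧ (t : ℤ) ∣ pos2 g n n' x.1.1 x.1.2 - pos2 g n n' x.2.1 x.2.2 then (1 : ℝ) else 0) := by
    intro n n'
    by_cases h : Su.gd (pos2 g n n') t
    swap
    · rw [if_pos h]
      unfold Su.gd at h
      push Not at h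
      obtain ⟨q, q', h2, h3⟩ := h
      have h4 := single_le_sum (f := fun x : (Fin 2 × J) × (Fin 2 × J) => (if x.1 ≠ x.2 ∧ (t : ℤ) ∣ pos2 g n n' x.1.1 x.1.2 - pos2 g n n' x.2.1 x.2.2 then (1 : ℝ) else 0))
        (fun x _ => by split_ifs <;> norm_num) (mem_univ (q, q'))
      simp only [ne_eq, h2, not_false_eq_true, h3, and_self, if_true] at h4
      exact h4
    · rw [if_neg (not_not.2 h)]
      exact sum_nonneg (fun x _ => by split_ifs <;> norm_num)
  refine (sum_le_sum fun n _ => sum_le_sum fun n' _ => h1 n n').trans ?_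
  have h2 : ∑ n ∈ range t, ∑ n' ∈ range t, ∑ x : (Fin 2 × J) × (Fin 2 × J), (if x.1 ≠ x.2 ∧ (t : ℤ) ∣ pos2 g n n' x.1.1 x.1.2 - pos2 g n n' x.2.1 x.2.2 then (1 : ℝ) else 0) =
      ∑ x : (Fin 2 × J) × (Fin 2 × J), ∑ n ∈ range t, ∑ n' ∈ range t, (if x.1 ≠ x.2 ∧ (t : ℤ) ∣ pos2 g n n' x.1.1 x.1.2 - pos2 g n n' x.2.1 x.2.2 then (1 : ℝ) else 0) := by
    rw [sum_comm]
    calc _ = ∑ n' ∈ range t, ∑ x : (Fin 2 × J) × (Fin 2 × J), ∑ n ∈ range t, (if x.1 ≠ x.2 ∧ (t : ℤ) ∣ pos2 g n n' x.1.1 x.1.2 - pos2 g n n' x.2.1 x.2.2 then (1 : ℝ) else 0) := by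
          apply sum_congr rfl
          intro n' _
          rw [sum_comm]
      _ = ∑ x : (Fin 2 × J) × (Fin 2 × J), ∑ n' ∈ range t, ∑ n ∈ range t, (if x.1 ≠ x.2 ∧ (t : ℤ) ∣ pos2 g n n' x.1.1 x.1.2 - pos2 g n n' x.2.1 x.2.2 then (1 : ℝ) else 0) := by
          rw [sum_comm]
      _ = _ := by
          apply sum_congr rfl
          intro x _
          rw [sum_comm]
  rw [h2]
  have h3 : ∀ x : (Fin 2 × J) × (Fin 2 × J), ∑ n ∈ range t, ∑ n' ∈ range t, (if x.1 ≠ x.2 ∧ (t : ℤ) ∣ pos2 g n n' x.1.1 x.1.2 - pos2 g n n' x.2.1 x.2.2 then (1 : ℝ) else 0) ≤ d * t := by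
    rintro ⟨⟨b, j⟩, ⟨b', j'⟩⟩
    by_cases hx : ((b, j) : Fin 2 × J) = (b', j')
    · have : ∀ n n' : ℕ, (if ((b, j) : Fin 2 × J) ≠ (b', j') ∧ (t : ℤ) ∣ pos2 g n n' b j - pos2 g n n' b' j' then (1 : ℝ) else 0) = 0 := by
        intro n n'
        rw [if_neg (fun h => h.1 hx)]
      simp only [this, sum_const_zero]
      positivity
    · by_cases hb : b = b'
      · subst hb
        have hj : j ≠ j' := fun h => hx (by rw [h])
        have hb2 : b = 0 ∨ b = 1 := by omega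
        rcases hb2 with rfl | rfl
        · -- depends on n only
          have h4 : ∀ n ∈ range t, ∑ n' ∈ range t, (if ((0, j) : Fin 2 × J) ≠ (0, j') ∧ (t : ℤ) ∣ pos2 g n n' 0 j - pos2 g n n' 0 j' then (1 : ℝ) else 0) =
              t * (if (t : ℤ) ∣ (g j).eval (n : ℤ) - (g j').eval (n : ℤ) + 0 then (1 : ℝ) else 0) := by
            intro n _
            have h5 : ∀ n' ∈ range t, (if ((0, j) : Fin 2 × J) ≠ (0, j') ∧ (t : ℤ) ∣ pos2 g n n' 0 j - pos2 g n n' 0 j' then (1 : ℝ) else 0) =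
                (if (t : ℤ) ∣ (g j).eval (n : ℤ) - (g j').eval (n : ℤ) + 0 then (1 : ℝ) else 0) := by
              intro n' _
              unfold pos2 pos1
              simp only [if_true, add_zero]
              by_cases h6 : (t : ℤ) ∣ (g j).eval (n : ℤ) - (g j').eval (n : ℤ)
              · rw [if_pos ⟨hx, h6⟩, if_pos h6]
              · rw [if_neg (fun h => h6 h.2), if_neg h6]
            rw [sum_congr rfl h5, sum_const, card_range, nsmul_eq_mul]
          rw [sum_congr rfl h4, ← mul_sum, ← sum_filter, sum_const, nsmul_eq_mul, mul_one, mul_comm]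
          apply mul_le_mul_of_nonneg_right _ (Nat.cast_nonneg _)
          exact_mod_cast hg.r2 t ht j j' hj 0
        · have h4 : ∀ n ∈ range t, ∑ n' ∈ range t, (if ((1, j) : Fin 2 × J) ≠ (1, j') ∧ (t : ℤ) ∣ pos2 g n n' 1 j - pos2 g n n' 1 j' then (1 : ℝ) else 0) ≤ d := by
            intro n _
            have h5 : ∀ n' ∈ range t, (if ((1, j) : Fin 2 × J) ≠ (1, j') ∧ (t : ℤ) ∣ pos2 g n n' 1 j - pos2 g n n' 1 j' then (1 : ℝ) else 0) =
                (if (t : ℤ) ∣ (g j).eval (n' : ℤ) - (g j').eval (n' : ℤ) + 0 then (1 : ℝ) else 0) := by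
              intro n' _
              unfold pos2 pos1
              simp only [one_ne_zero, if_false, add_zero]
              by_cases h6 : (t : ℤ) ∣ (g j).eval (n' : ℤ) - (g j').eval (n' : ℤ)
              · rw [if_pos ⟨hx, h6⟩, if_pos h6]
              · rw [if_neg (fun h => h6 h.2), if_neg h6]
            rw [sum_congr rfl h5, ← sum_filter, sum_const, nsmul_eq_mul, mul_one]
            exact_mod_cast hg.r2 t ht j j' hj 0
          refine (sum_le_sum h4).trans (le_of_eq ?_)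
          rw [sum_const, card_range, nsmul_eq_mul, mul_comm]
      · have hb2 : (b = 0 ∧ b' = 1) ∨ (b = 1 ∧ b' = 0) := by omega
        rcases hb2 with ⟨rfl, rfl⟩ | ⟨rfl, rfl⟩
        · have h4 : ∀ n ∈ range t, ∑ n' ∈ range t, (if ((0, j) : Fin 2 × J) ≠ (1, j') ∧ (t : ℤ) ∣ pos2 g n n' 0 j - pos2 g n n' 1 j' then (1 : ℝ) else 0) ≤ d := by
            intro n _
            have h5 : ∀ n' ∈ range t, (if ((0, j) : Fin 2 × J) ≠ (1, j') ∧ (t : ℤ) ∣ pos2 g n n' 0 j - pos2 g n n' 1 j' then (1 : ℝ) else 0) =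
                (if (t : ℤ) ∣ (g j').eval (n' : ℤ) + (-(g j).eval (n : ℤ)) then (1 : ℝ) else 0) := by
              intro n' _
              unfold pos2 pos1
              simp only [if_true, one_ne_zero, if_false]
              have e : (t : ℤ) ∣ (g j).eval (n : ℤ) - (g j').eval (n' : ℤ) ↔ (t : ℤ) ∣ ((g j').eval (n' : ℤ) + (-(g j).eval (n : ℤ))) := by
                have : (g j).eval (n : ℤ) - (g j').eval (n' : ℤ) = -((g j').eval (n' : ℤ) + (-(g j).eval (n : ℤ))) := by ring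
                rw [this, dvd_neg]
              by_cases h6 : (t : ℤ) ∣ (g j').eval (n' : ℤ) + (-(g j).eval (n : ℤ))
              · rw [if_pos ⟨hx, e.2 h6⟩, if_pos h6]
              · rw [if_neg (fun h => h6 (e.1 h.2)), if_neg h6]
            rw [sum_congr rfl h5, ← sum_filter, sum_const, nsmul_eq_mul, mul_one]
            exact_mod_cast hg.r1 t ht j' _
          refine (sum_le_sum h4).trans (le_of_eq ?_)
          rw [sum_const, card_range, nsmul_eq_mul, mul_comm]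
        · have h4 : ∀ n ∈ range t, ∑ n' ∈ range t, (if ((1, j) : Fin 2 × J) ≠ (0, j') ∧ (t : ℤ) ∣ pos2 g n n' 1 j - pos2 g n n' 0 j' then (1 : ℝ) else 0) ≤ d := by
            intro n _
            have h5 : ∀ n' ∈ range t, (if ((1, j) : Fin 2 × J) ≠ (0, j') ∧ (t : ℤ) ∣ pos2 g n n' 1 j - pos2 g n n' 0 j' then (1 : ℝ) else 0) =
                (if (t : ℤ) ∣ (g j).eval (n' : ℤ) + (-(g j').eval (n : ℤ)) then (1 : ℝ) else 0) := by
              intro n' _
              unfold pos2 pos1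
              simp only [if_true, one_ne_zero, if_false]
              have e : (g j).eval (n' : ℤ) - (g j').eval (n : ℤ) = ((g j).eval (n' : ℤ) + (-(g j').eval (n : ℤ))) := by ring
              rw [e]
              by_cases h6 : (t : ℤ) ∣ (g j).eval (n' : ℤ) + (-(g j').eval (n : ℤ))
              · rw [if_pos ⟨hx, h6⟩, if_pos h6]
              · rw [if_neg (fun h => h6 h.2), if_neg h6]
            rw [sum_congr rfl h5, ← sum_filter, sum_const, nsmul_eq_mul, mul_one]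
            exact_mod_cast hg.r1 t ht j _
          refine (sum_le_sum h4).trans (le_of_eq ?_)
          rw [sum_const, card_range, nsmul_eq_mul, mul_comm]
  refine (sum_le_sum fun x _ => h3 x).trans (le_of_eq ?_)
  rw [sum_const, card_univ, Fintype.card_prod, Fintype.card_prod, Fintype.card_fin, nsmul_eq_mul]
  push_cast
  ring

end pos

end Pool.Agent.H544.BC
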