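import Mathlib
import Pool.Agent.H544.BC.M5

/-!
The sums of the discrepancies over pairs of arguments.
-/

set_option autoImplicit false
set_option linter.unusedSectionVars false

namespace Pool.Agent.H544.BC
open Finset Polynomial
open Pool.Agent.N913.MT (few sq_tail)
open Pool.Agent.H544.LD (om dvd_eval_iff)

section rho
variable {J : Type} [Fintype J] [DecidableEq J]

open Classical in
/-- the sum over the bad primes -/
noncomputable def rho {B : Type} [Fintype B] (S : Finset ℕ) (a : B → J → ℤ) : ℝ := ∑ t ∈ S, (if Su.gd a t then 0 else 1 / (t : ℝ))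

lemma rho_nonneg {B : Type} [Fintype B] (S : Finset ℕ) (a : B → J → ℤ) : 0 ≤ rho S a := by
  classical
  unfold rho
  apply sum_nonneg
  intro t _
  split_ifs
  · exact le_rfl
  · positivity

/-- constant -/
noncomputable def e1 (J : Type) [Fintype J] (z0 : ℕ) : ℝ := 2 ^ (4 * Fintype.card J) * ((4 ^ (2 * Fintype.card J) + 7) * (2 / (z0 : ℝ)))

/-- constant -/
noncomputable def lam0 (J : Type) [Fintype J] : ℝ := 11 * 2 ^ (4 * Fintype.card J)

open Classical in
lemma DDsum {B : Type} [Fintype B] [DecidableEq B] (hB : Fintype.card B ≤ 2) (z0 R : ℕ) (hz : 3 ≤ z0) (S : Finset ℕ) (hS : S ⊆ Ico z0 R) (a : B → J → ℤ) :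
    ∑ t : S, DD1 B J (Su.gd a t) (t : ℕ) ≤ e1 J z0 + lam0 J * rho S a := by
  have hz3 : (3 : ℝ) ≤ z0 := by exact_mod_cast hz
  have h1 : (2 : ℝ) ^ (Fintype.card (B × Bool × J)) ≤ 2 ^ (4 * Fintype.card J) := by
    apply pow_le_pow_right₀ (by norm_num)
    rw [Fintype.card_prod, Fintype.card_prod, Fintype.card_bool]
    nlinarith
  have h2 : (4 : ℝ) ^ (Fintype.card (B × J)) ≤ 4 ^ (2 * Fintype.card J) := by
    apply pow_le_pow_right₀ (by norm_num)
    rw [Fintype.card_prod]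
    nlinarith
  have h3 : ∀ t : S, DD1 B J (Su.gd a t) (t : ℕ) ≤ 2 ^ (4 * Fintype.card J) * (4 ^ (2 * Fintype.card J) + 7) * (1 / ((t : ℕ) : ℝ) ^ 2) +
      lam0 J * (if Su.gd a t then 0 else 1 / ((t : ℕ) : ℝ)) := by
    intro t
    unfold DD1 lam0
    by_cases hg : Su.gd a (t : ℕ)
    · rw [if_pos hg, if_pos hg, mul_zero, add_zero]
      calc (2 : ℝ) ^ (Fintype.card (B × Bool × J)) * ((1 / ((t : ℕ) : ℝ)) ^ 2 * (4 ^ (Fintype.card (B × J)) + 7)) ≤
            2 ^ (4 * Fintype.card J) * ((1 / ((t : ℕ) : ℝ)) ^ 2 * (4 ^ (2 * Fintype.card J) + 7)) := by gcongr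
        _ = _ := by rw [one_div, one_div, inv_pow]; ring
    · rw [if_neg hg, if_neg hg]
      have h5 : (0 : ℝ) ≤ 2 ^ (4 * Fintype.card J) * (4 ^ (2 * Fintype.card J) + 7) * (1 / ((t : ℕ) : ℝ) ^ 2) := by positivity
      calc (2 : ℝ) ^ (Fintype.card (B × Bool × J)) * (11 / ((t : ℕ) : ℝ)) ≤ 2 ^ (4 * Fintype.card J) * (11 / ((t : ℕ) : ℝ)) := by gcongr
        _ = 11 * 2 ^ (4 * Fintype.card J) * (1 / ((t : ℕ) : ℝ)) := by ring
        _ ≤ _ := by linarith
  refine (sum_le_sum fun t _ => h3 t).trans ?_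
  rw [sum_add_distrib, ← mul_sum, ← mul_sum]
  unfold e1 rho
  apply add_le_add
  · rw [mul_assoc]
    apply mul_le_mul_of_nonneg_left _ (by positivity)
    apply mul_le_mul_of_nonneg_left _ (by positivity)
    exact sq_tail z0 R (by omega) S hS
  · apply mul_le_mul_of_nonneg_left _ (by unfold lam0; positivity)
    rw [Finset.sum_coe_sort S (fun t => (if Su.gd a t then 0 else 1 / (t : ℝ)))]

/-- all positions are distinct -/
def dist {B : Type} (a : B → J → ℤ) : Prop := ∀ q q' : B × J, q ≠ q' → a q.1 q.2 ≠ a q'.1 q'.2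

open Classical in
/-- large bad primes -/
lemma rho_large {B : Type} [Fintype B] [DecidableEq B] (hB : Fintype.card B ≤ 2) (S : Finset ℕ) (hSp : ∀ p ∈ S, p.Prime) (y0 Hm : ℕ) (hy0 : 3 ≤ y0) (hHm : 1 ≤ Hm) (a : B → J → ℤ)
    (hd : dist a) (ha : ∀ i j, 0 ≤ a i j ∧ a i j ≤ Hm) :
    ∑ t ∈ S.filter (fun t => y0 ≤ t), (if Su.gd a t then 0 else 1 / (t : ℝ)) ≤
      4 * (Fintype.card J : ℝ) ^ 2 * (Real.log Hm / Real.log y0) / y0 := by
  have hy3 : (3 : ℝ) ≤ y0 := by exact_mod_cast hy0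
  have hly : 0 < Real.log y0 := Real.log_pos (by linarith)
  have hlH : 0 ≤ Real.log Hm := Real.log_natCast_nonneg Hm
  have h1 : ∀ t ∈ S.filter (fun t => y0 ≤ t), (if Su.gd a t then 0 else 1 / (t : ℝ)) ≤
      ∑ x : (B × J) × (B × J), (if x.1 ≠ x.2 ∧ (t : ℤ) ∣ a x.1.1 x.1.2 - a x.2.1 x.2.2 then 1 / (y0 : ℝ) else 0) := by
    intro t ht
    have hty : (y0 : ℝ) ≤ t := by exact_mod_cast (mem_filter.1 ht).2
    by_cases h : Su.gd a t
    · rw [if_pos h]
      exact sum_nonneg (fun x _ => by split_ifs <;> positivity)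
    · rw [if_neg h]
      unfold Su.gd at h
      push Not at h
      obtain ⟨q, q', h2, h3⟩ := h
      have h4 := single_le_sum (f := fun x : (B × J) × (B × J) => (if x.1 ≠ x.2 ∧ (t : ℤ) ∣ a x.1.1 x.1.2 - a x.2.1 x.2.2 then 1 / (y0 : ℝ) else 0))
        (fun x _ => by split_ifs <;> positivity) (mem_univ (q, q'))
      simp only [ne_eq, h2, not_false_eq_true, h3, and_self, if_true] at h4
      refine le_trans ?_ h4
      exact one_div_le_one_div_of_le (by linarith) hty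
  refine (sum_le_sum h1).trans ?_
  rw [sum_comm]
  have h2 : ∀ x : (B × J) × (B × J), ∑ t ∈ S.filter (fun t => y0 ≤ t), (if x.1 ≠ x.2 ∧ (t : ℤ) ∣ a x.1.1 x.1.2 - a x.2.1 x.2.2 then 1 / (y0 : ℝ) else 0) ≤
      (Real.log Hm / Real.log y0) / y0 := by
    intro x
    by_cases hx : x.1 = x.2
    · have : ∀ t ∈ S.filter (fun t => y0 ≤ t), (if x.1 ≠ x.2 ∧ (t : ℤ) ∣ a x.1.1 x.1.2 - a x.2.1 x.2.2 then 1 / (y0 : ℝ) else 0) = 0 := by
        intro t _
        rw [if_neg (fun h => h.1 hx)]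
      rw [sum_congr rfl this, sum_const_zero]
      positivity
    · rw [← sum_filter, sum_const, nsmul_eq_mul, mul_one_div]
      apply div_le_div_of_nonneg_right _ (by linarith)
      rw [le_div_iff₀ hly]
      have h5 := hd x.1 x.2 hx
      have hd0 : 1 ≤ (a x.1.1 x.1.2 - a x.2.1 x.2.2).natAbs := by
        apply Nat.one_le_iff_ne_zero.2
        rw [Int.natAbs_ne_zero]
        exact sub_ne_zero.2 h5
      refine (few y0 _ (by omega) hd0 _ ?_).trans ?_
      · intro p hp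
        rw [mem_filter, mem_filter] at hp
        exact ⟨hSp p hp.1.1, hp.1.2, Int.natCast_dvd.1 hp.2.2⟩
      · apply Real.log_le_log (by exact_mod_cast hd0)
        have h8 := ha x.1.1 x.1.2
        have h9 := ha x.2.1 x.2.2
        have : (a x.1.1 x.1.2 - a x.2.1 x.2.2).natAbs ≤ Hm := by omega
        exact_mod_cast this
  refine (sum_le_sum fun x _ => h2 x).trans ?_
  rw [sum_const, card_univ, Fintype.card_prod, Fintype.card_prod, nsmul_eq_mul]
  have h3 : ((Fintype.card B * Fintype.card J * (Fintype.card B * Fintype.card J) : ℕ) : ℝ) ≤ 4 * (Fintype.card J : ℝ) ^ 2 := by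
    have : (Fintype.card B : ℝ) ≤ 2 := by exact_mod_cast hB
    have hb0 : (0 : ℝ) ≤ Fintype.card B := Nat.cast_nonneg _
    push_cast
    calc (Fintype.card B : ℝ) * Fintype.card J * (Fintype.card B * Fintype.card J) = (Fintype.card B : ℝ) ^ 2 * (Fintype.card J : ℝ) ^ 2 := by ring
      _ ≤ 2 ^ 2 * (Fintype.card J : ℝ) ^ 2 := by gcongr
      _ = _ := by norm_num
  calc _ ≤ (4 * (Fintype.card J : ℝ) ^ 2) * (Real.log Hm / Real.log y0 / y0) := mul_le_mul_of_nonneg_right h3 (by positivity)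
    _ = _ := by ring

/-- the error for pairs -/
noncomputable def Tht (J : Type) [Fintype J] (d z0 y0 Hm : ℕ) (lam : ℝ) : ℝ :=
  Real.exp (e1 J z0 + lam * (4 * (Fintype.card J : ℝ) ^ 2 * (Real.log Hm / Real.log y0) / y0)) *
    (4 * (Real.exp (4 * lam * (4 * (Fintype.card J : ℝ) ^ 2 * d) / z0) - 1)) +
  (Real.exp (e1 J z0 + lam * (4 * (Fintype.card J : ℝ) ^ 2 * (Real.log Hm / Real.log y0) / y0)) - 1)

open Classical in
/-- the product over the small bad primes -/
noncomputable def Pi2 (g : J → ℤ[X]) (S : Finset ℕ) (y0 : ℕ) (lam : ℝ) (n n' : ℤ) : ℝ :=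
  ∏ p ∈ S.filter (fun t => ¬ y0 ≤ t), (if ¬ Su.gd (pos2 g n n') p then Real.exp (lam / p) else 1)

lemma Pi2_ge (g : J → ℤ[X]) (S : Finset ℕ) (y0 : ℕ) (lam : ℝ) (hl : 0 ≤ lam) (n n' : ℤ) : 1 ≤ Pi2 g S y0 lam n n' := by
  classical
  unfold Pi2
  apply Finset.one_le_prod
  intro p _
  split_ifs <;> first | exact le_rfl | exact Real.one_le_exp (by positivity)

open Classical in
/-- the pointwise bound -/
lemma exp_rho {B : Type} [Fintype B] [DecidableEq B] (hB : Fintype.card B ≤ 2) (g : J → ℤ[X]) (S : Finset ℕ) (hSp : ∀ p ∈ S, p.Prime) (z0 y0 Hm : ℕ) (hy0 : 3 ≤ y0) (hHm : 1 ≤ Hm) (a : B → J → ℤ)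
    (hd : dist a) (ha : ∀ i j, 0 ≤ a i j ∧ a i j ≤ Hm) (lam : ℝ) (hl : 0 ≤ lam) (n n' : ℤ)
    (hgd : ∀ t, Su.gd (pos2 g n n') t → Su.gd a t) :
    Real.exp (e1 J z0 + lam * rho S a) - 1 ≤
      Real.exp (e1 J z0 + lam * (4 * (Fintype.card J : ℝ) ^ 2 * (Real.log Hm / Real.log y0) / y0)) * (Pi2 g S y0 lam n n' - 1) +
      (Real.exp (e1 J z0 + lam * (4 * (Fintype.card J : ℝ) ^ 2 * (Real.log Hm / Real.log y0) / y0)) - 1) := by
  have h1 := rho_large hB S hSp y0 Hm hy0 hHm a hd ha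
  set E := 4 * (Fintype.card J : ℝ) ^ 2 * (Real.log Hm / Real.log y0) / y0 with hE
  have h2 : rho S a ≤ E + ∑ t ∈ S.filter (fun t => ¬ y0 ≤ t), (if ¬ Su.gd (pos2 g n n') t then 1 / (t : ℝ) else 0) := by
    unfold rho
    rw [← sum_filter_add_sum_filter_not S (fun t => y0 ≤ t)]
    apply add_le_add h1
    apply sum_le_sum
    intro t _
    by_cases hg : Su.gd a t
    · rw [if_pos hg]
      split_ifs <;> positivity
    · rw [if_neg hg, if_pos (fun h => hg (hgd t h))]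
  have h3 : Real.exp (lam * ∑ t ∈ S.filter (fun t => ¬ y0 ≤ t), (if ¬ Su.gd (pos2 g n n') t then 1 / (t : ℝ) else 0)) = Pi2 g S y0 lam n n' := by
    unfold Pi2
    rw [mul_sum, Real.exp_sum]
    apply prod_congr rfl
    intro t _
    by_cases hg : Su.gd (pos2 g n n') t
    · rw [if_neg (not_not.2 hg), if_neg (not_not.2 hg), mul_zero, Real.exp_zero]
    · rw [if_pos hg, if_pos hg, mul_one_div]
  have h4 : Real.exp (e1 J z0 + lam * rho S a) ≤ Real.exp (e1 J z0 + lam * E) * Pi2 g S y0 lam n n' := by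
    rw [← h3, ← Real.exp_add]
    apply Real.exp_le_exp.2
    have := mul_le_mul_of_nonneg_left h2 hl
    linarith
  linarith

/-- the average of the product over pairs -/
lemma Pi2_avg (g : J → ℤ[X]) (d : ℕ) (S : Finset ℕ) (hg : Gp g d S) (hSp : ∀ p ∈ S, p.Prime) (z0 R y0 M : ℕ) (hz : 3 ≤ z0) (hS : S ⊆ Ico z0 R)
    (hM : 4 ^ y0 ≤ M) (lam : ℝ) (hl : 0 ≤ lam) (hlz : lam ≤ z0) :
    ∑ n ∈ Icc 1 M, ∑ n' ∈ Icc 1 M, (Pi2 g S y0 lam n n' - 1) ≤
      4 * (M : ℝ) ^ 2 * (Real.exp (4 * lam * (4 * (Fintype.card J : ℝ) ^ 2 * d) / z0) - 1) := by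
  classical
  have hz3 : (3 : ℝ) ≤ z0 := by exact_mod_cast hz
  have h1 := avg_exp M (S.filter (fun t => ¬ y0 ≤ t)) (fun p hp => hSp p (mem_filter.1 hp).1) (by
      refine le_trans ?_ ((primorial_le_four_pow y0).trans hM)
      unfold primorial
      apply Finset.prod_le_prod_of_subset_of_one_le'
      · intro p hp
        rw [mem_filter] at hp ⊢
        rw [mem_range]
        exact ⟨by omega, hSp p hp.1⟩
      · intro p hp _
        exact (mem_filter.1 hp).2.one_lt.le) (fun p n n' => ¬ Su.gd (pos2 g n n') p)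
    (fun p _ n' a b hab => not_congr ⟨gd_per1 g p n' a b hab, gd_per1 g p n' b a (by
      have e : b - a = -(a - b) := by ring
      rw [e]; exact (dvd_neg).2 hab)⟩)
    (fun p _ n a b hab => not_congr ⟨gd_per2 g p n a b hab, gd_per2 g p n b a (by
      have e : b - a = -(a - b) := by ring
      rw [e]; exact (dvd_neg).2 hab)⟩)
    (4 * (Fintype.card J : ℝ) ^ 2 * d) (by positivity)
    (fun p hp => by
      have h := bad_count g d S hg p (mem_filter.1 hp).1
      convert h) lam hl (fun p hp => by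
      have : (z0 : ℝ) ≤ p := by exact_mod_cast (mem_Ico.1 (hS (mem_filter.1 hp).1)).1
      linarith)
  refine le_trans ?_ (h1.trans ?_)
  · apply le_of_eq
    apply sum_congr rfl
    intro n _
    apply sum_congr rfl
    intro n' _
    unfold Pi2
    congr 1
    apply prod_congr rfl
    intro p _
    congr 1
  · apply mul_le_mul_of_nonneg_left _ (by positivity)
    apply sub_le_sub_right
    apply Real.exp_le_exp.2
    have h2 : ∑ p ∈ S.filter (fun t => ¬ y0 ≤ t), 2 * lam * (4 * (Fintype.card J : ℝ) ^ 2 * d) / (p : ℝ) ^ 2 =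
        2 * lam * (4 * (Fintype.card J : ℝ) ^ 2 * d) * ∑ p ∈ S.filter (fun t => ¬ y0 ≤ t), 1 / (p : ℝ) ^ 2 := by
      rw [mul_sum]
      apply sum_congr rfl
      intro p _
      ring
    rw [h2]
    have h3 := sq_tail z0 R (by omega) (S.filter (fun t => ¬ y0 ≤ t)) ((filter_subset _ _).trans hS)
    rw [Finset.sum_coe_sort (S.filter (fun t => ¬ y0 ≤ t)) (fun t => 1 / (t : ℝ) ^ 2)] at h3
    calc _ ≤ 2 * lam * (4 * (Fintype.card J : ℝ) ^ 2 * d) * (2 / z0) := mul_le_mul_of_nonneg_left h3 (by positivity)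
      _ = _ := by ring

end rho

end Pool.Agent.H544.BC
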