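import Mathlib
import Pool.Agent.H544.BC.M6
import Pool.Graph.R_pool_sql_team_seeded_63374d34.N913.MT.F6

/-!
Concentration of the sums over the arguments.
-/

set_option autoImplicit false
set_option linter.unusedSectionVars false

namespace Pool.Agent.H544.BC
open Finset Polynomial
open Pool.Agent.H373R2.T7
open Pool.Agent.H544.LD (cls)
open Pool.Agent.N913.MT (Wb Wb_one_ge)

lemma root_count (f : ℤ[X]) (hf : f ≠ 0) (M : ℕ) : #((Icc 1 M).filter (fun n : ℕ => f.eval (n : ℤ) = 0)) ≤ f.natDegree := by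
  have h1 : #((Icc 1 M).filter (fun n : ℕ => f.eval (n : ℤ) = 0)) ≤ #(f.roots.toFinset) := by
    refine card_le_card_of_injOn (fun n : ℕ => (n : ℤ)) ?_ ?_
    · intro n hn
      rw [mem_coe, mem_filter] at hn
      rw [mem_coe, Multiset.mem_toFinset, mem_roots hf, IsRoot.def]
      exact hn.2
    · intro n _ n' _ h
      exact Nat.cast_injective (R := ℤ) h
  exact h1.trans ((Multiset.toFinset_card_le _).trans (card_roots' f))

/-- the full data -/
structure Sv (J : Type) [Fintype J] [DecidableEq J] extends Su J where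
  g : J → ℤ[X]
  d : ℕ
  hg : Gp g d S
  M : ℕ
  N : Finset ℕ
  y0 : ℕ
  Hm : ℕ
  C2 : ℝ
  θ : ℝ
  hN : N ⊆ Icc 1 M
  hMN : (M : ℝ) ≤ 4 * #N
  hval : ∀ n ∈ N, ∀ j, 0 ≤ (g j).eval (n : ℤ) ∧ (g j).eval (n : ℤ) ≤ Hm
  hcop : ∀ n ∈ N, ∀ p : ℕ, p.Prime → p ∣ W → ∀ j, ¬ (p : ℤ) ∣ (c0 : ℤ) + (g j).eval (n : ℤ)
  hy0 : 3 ≤ y0
  hHm : 1 ≤ Hm
  hMy : 4 ^ y0 ≤ M
  hdeg1 : ∀ j, 1 ≤ (g j).natDegree
  hdeg : ∀ j, (g j).natDegree ≤ d
  hne : ∀ j j', j ≠ j' → g j ≠ g j'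
  hC2 : ∀ i : Option J, Wb (fun t : S => 1 / (((t : ℕ) : ℝ) - 1)) i (fun _ => 1) ≤
    C2 * Wb (fun t : S => 1 / (((t : ℕ) : ℝ) - 1)) i y
  hC21 : 1 ≤ C2
  hlz : lam0 J + 2 ≤ z0
  hθ0 : 0 < θ
  hθ : θ ≤ 1 / 2
  hΘ : 16 * C2 ^ 2 * Tht J d z0 y0 Hm (lam0 J + 2) ≤ θ
  hErr : C2 ^ 2 * toSu.Err ≤ θ * toSu.κ
  hcr : C2 ^ 2 * ((4 * (Fintype.card J : ℝ) ^ 2 * d * M) * ((Vz z)⁻¹ ^ 2 *
    (toSu.κ * Real.exp (∑ t : S, 2 ^ (4 * Fintype.card J) * (9 / ((t : ℕ) : ℝ))) + toSu.Err))) ≤ θ * toSu.κ * (#N : ℝ) ^ 2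
  hd1 : (Fintype.card J : ℝ) ^ 2 * d ≤ θ * #N
  hκ1 : 1 ≤ θ * toSu.κ

namespace Sv
variable {J : Type} [Fintype J] [DecidableEq J] (D : Sv J)

/-- one term -/
noncomputable def Z (l : Option J) (n c : ℕ) : ℝ := mw D.z l (pos1 D.g n) c * (Lm l D.y (pos1 D.g n) c) ^ 2

/-- the sum over the arguments -/
noncomputable def SZ (l : Option J) (c : ℕ) : ℝ := ∑ n ∈ D.N, D.Z l n c

noncomputable def MM (l : Option J) : ℝ := Wb D.ν l D.y

lemma ν_nonneg (t : D.S) : 0 ≤ D.ν t := by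
  have : (3 : ℝ) ≤ (t : ℕ) := by exact_mod_cast D.hS3 t t.2
  unfold Su.ν
  apply div_nonneg zero_le_one; linarith

lemma MM_ge (l : Option J) : 1 / D.C2 ≤ D.MM l := by
  have h1 := Wb_one_ge D.ν D.ν_nonneg l
  have h2 := D.hC2 l
  have h3 : 0 < D.C2 := by linarith [D.hC21]
  rw [div_le_iff₀ h3, mul_comm]
  exact h1.trans h2

lemma MM_pos (l : Option J) : 0 < D.MM l := lt_of_lt_of_le (div_pos one_pos (by linarith [D.hC21])) (D.MM_ge l)

lemma mw_nonneg (z : ℕ) (l : Option J) (a : J → ℤ) (c : ℤ) : 0 ≤ mw z l a c := by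
  unfold mw
  cases l with
  | none => exact zero_le_one
  | some j => exact lamzI_nonneg z _

lemma mw_le (z : ℕ) (l : Option J) (a : J → ℤ) (c : ℤ) : mw z l a c ≤ (Vz z)⁻¹ := by
  have h1 : 1 ≤ (Vz z)⁻¹ := (one_le_inv₀ (Vz_pos z)).2 (Vz_le_one z)
  unfold mw
  cases l with
  | none => exact h1
  | some j =>
    show lamzI z (c + a j) ≤ _
    unfold lamzI lamz
    split_ifs <;> linarith

lemma Z_nonneg (l : Option J) (n c : ℕ) : 0 ≤ D.Z l n c := mul_nonneg (mw_nonneg _ _ _ _) (sq_nonneg _)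

open Classical in
/-- non-distinct positions, one argument -/
lemma nd1 : (#(D.N.filter (fun n : ℕ => ¬ dist (fun _ : Fin 1 => pos1 D.g n))) : ℝ) ≤ (Fintype.card J : ℝ) ^ 2 * D.d := by
  have h1 : D.N.filter (fun n : ℕ => ¬ dist (fun _ : Fin 1 => pos1 D.g n)) ⊆
      (univ : Finset (J × J)).biUnion (fun x => if x.1 = x.2 then ∅ else (Icc 1 D.M).filter (fun n : ℕ => (D.g x.1 - D.g x.2).eval (n : ℤ) = 0)) := by
    intro n hn
    rw [mem_filter] at hn
    obtain ⟨hn1, hn2⟩ := hn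
    unfold dist at hn2
    push Not at hn2
    obtain ⟨q, q', h2, h3⟩ := hn2
    have hj : q.2 ≠ q'.2 := by
      intro h
      exact h2 (Prod.ext_iff.2 ⟨Subsingleton.elim _ _, h⟩)
    rw [mem_biUnion]
    refine ⟨(q.2, q'.2), mem_univ _, ?_⟩
    simp only
    rw [if_neg hj, mem_filter, eval_sub]
    refine ⟨D.hN hn1, ?_⟩
    unfold pos1 at h3
    exact sub_eq_zero.2 h3
  have h2 := (card_le_card h1).trans card_biUnion_le
  have h3 : ∀ x ∈ (univ : Finset (J × J)), #(if x.1 = x.2 then ∅ else (Icc 1 D.M).filter (fun n : ℕ => (D.g x.1 - D.g x.2).eval (n : ℤ) = 0)) ≤ D.d := by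
    intro x _
    split_ifs with h
    · simp
    · refine (root_count _ (sub_ne_zero.2 (D.hne _ _ h)) D.M).trans ?_
      exact (natDegree_sub_le _ _).trans (max_le (D.hdeg _) (D.hdeg _))
  have h4 := h2.trans (sum_le_card_nsmul _ _ _ h3)
  rw [card_univ, Fintype.card_prod, smul_eq_mul] at h4
  have h5 : (#(D.N.filter (fun n : ℕ => ¬ dist (fun _ : Fin 1 => pos1 D.g n))) : ℝ) ≤ ((Fintype.card J * Fintype.card J * D.d : ℕ) : ℝ) := by exact_mod_cast h4
  refine h5.trans (le_of_eq ?_)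
  push_cast
  ring

lemma cnt_eq (j : J) (v : ℤ) (M : ℕ) : #((Icc 1 M).filter (fun n : ℕ => (D.g j).eval (n : ℤ) = v)) ≤ D.d := by
  have h1 : (D.g j) - C v ≠ 0 := by
    intro h
    have h2 := D.hdeg1 j
    rw [sub_eq_zero.1 h, natDegree_C] at h2
    omega
  have h2 := root_count _ h1 M
  rw [natDegree_sub_C] at h2
  refine le_trans (le_of_eq ?_) (h2.trans (D.hdeg j))
  congr 1
  apply filter_congr
  intro n _
  rw [eval_sub, eval_C, sub_eq_zero]

open Classical in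
/-- non-distinct positions, two arguments -/
lemma nd2 : (#((D.N ×ˢ D.N).filter (fun x : ℕ × ℕ => ¬ dist (pos2 D.g x.1 x.2))) : ℝ) ≤ 4 * (Fintype.card J : ℝ) ^ 2 * D.d * D.M := by
  have h1 : (#((D.N ×ˢ D.N).filter (fun x : ℕ × ℕ => ¬ dist (pos2 D.g x.1 x.2))) : ℝ) ≤
      ∑ x ∈ Icc 1 D.M ×ˢ Icc 1 D.M, ∑ y : (Fin 2 × J) × (Fin 2 × J), (if y.1 ≠ y.2 ∧ pos2 D.g (x.1 : ℤ) (x.2 : ℤ) y.1.1 y.1.2 = pos2 D.g (x.1 : ℤ) (x.2 : ℤ) y.2.1 y.2.2 then (1 : ℝ) else 0) := by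
    rw [card_filter]
    push_cast
    have h2 : ∀ x ∈ D.N ×ˢ D.N, (if ¬ dist (pos2 D.g (x.1 : ℤ) (x.2 : ℤ)) then (1 : ℝ) else 0) ≤
        ∑ y : (Fin 2 × J) × (Fin 2 × J), (if y.1 ≠ y.2 ∧ pos2 D.g (x.1 : ℤ) (x.2 : ℤ) y.1.1 y.1.2 = pos2 D.g (x.1 : ℤ) (x.2 : ℤ) y.2.1 y.2.2 then (1 : ℝ) else 0) := by
      intro x _
      by_cases h : dist (pos2 D.g (x.1 : ℤ) (x.2 : ℤ))
      · rw [if_neg (not_not.2 h)]
        exact sum_nonneg (fun y _ => by split_ifs <;> norm_num)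
      · rw [if_pos h]
        unfold dist at h
        push Not at h
        obtain ⟨q, q', h2, h3⟩ := h
        have h4 := single_le_sum (f := fun y : (Fin 2 × J) × (Fin 2 × J) => (if y.1 ≠ y.2 ∧ pos2 D.g (x.1 : ℤ) (x.2 : ℤ) y.1.1 y.1.2 = pos2 D.g (x.1 : ℤ) (x.2 : ℤ) y.2.1 y.2.2 then (1 : ℝ) else 0))
          (fun y _ => by split_ifs <;> norm_num) (mem_univ (q, q'))
        simp only [ne_eq, h2, not_false_eq_true, h3, and_self, if_true] at h4
        exact h4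
    refine (sum_le_sum h2).trans ?_
    apply sum_le_sum_of_subset_of_nonneg (product_subset_product D.hN D.hN)
    intro x _ _
    exact sum_nonneg (fun y _ => by split_ifs <;> norm_num)
  refine h1.trans ?_
  rw [sum_comm]
  have h3 : ∀ y : (Fin 2 × J) × (Fin 2 × J), ∑ x ∈ Icc 1 D.M ×ˢ Icc 1 D.M, (if y.1 ≠ y.2 ∧ pos2 D.g (x.1 : ℤ) (x.2 : ℤ) y.1.1 y.1.2 = pos2 D.g (x.1 : ℤ) (x.2 : ℤ) y.2.1 y.2.2 then (1 : ℝ) else 0) ≤ D.d * D.M := by
    rintro ⟨⟨b, j⟩, ⟨b', j'⟩⟩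
    rw [sum_product]
    simp only
    have hdM : (0 : ℝ) ≤ D.d * D.M := by positivity
    by_cases hx : ((b, j) : Fin 2 × J) = (b', j')
    · have : ∀ n n' : ℕ, (if ((b, j) : Fin 2 × J) ≠ (b', j') ∧ pos2 D.g (n : ℤ) (n' : ℤ) b j = pos2 D.g (n : ℤ) (n' : ℤ) b' j' then (1 : ℝ) else 0) = 0 := by
        intro n n'
        rw [if_neg (fun h => h.1 hx)]
      simp only [this, sum_const_zero]
      exact hdM
    · have hconst : ∑ _n ∈ Icc 1 D.M, (D.d : ℝ) = D.d * D.M := by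
        rw [sum_const, Nat.card_Icc, Nat.add_sub_cancel, nsmul_eq_mul, mul_comm]
      by_cases hb : b = b'
      · subst hb
        have hj : j ≠ j' := fun h => hx (by rw [h])
        have hroot : (#((Icc 1 D.M).filter (fun n : ℕ => (D.g j - D.g j').eval (n : ℤ) = 0)) : ℝ) ≤ D.d := by
          have := (root_count _ (sub_ne_zero.2 (D.hne _ _ hj)) D.M).trans ((natDegree_sub_le _ _).trans (max_le (D.hdeg _) (D.hdeg _)))
          exact_mod_cast this
        have hb2 : b = 0 ∨ b = 1 := by omega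
        rcases hb2 with rfl | rfl
        · have h4 : ∀ n ∈ Icc 1 D.M, ∑ n' ∈ Icc 1 D.M, (if ((0, j) : Fin 2 × J) ≠ (0, j') ∧ pos2 D.g (n : ℤ) (n' : ℤ) 0 j = pos2 D.g (n : ℤ) (n' : ℤ) 0 j' then (1 : ℝ) else 0) =
              D.M * (if (D.g j - D.g j').eval (n : ℤ) = 0 then (1 : ℝ) else 0) := by
            intro n _
            have h5 : ∀ n' ∈ Icc 1 D.M, (if ((0, j) : Fin 2 × J) ≠ (0, j') ∧ pos2 D.g (n : ℤ) (n' : ℤ) 0 j = pos2 D.g (n : ℤ) (n' : ℤ) 0 j' then (1 : ℝ) else 0) =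
                (if (D.g j - D.g j').eval (n : ℤ) = 0 then (1 : ℝ) else 0) := by
              intro n' _
              unfold pos2 pos1
              simp only [if_true, eval_sub]
              by_cases h6 : (D.g j).eval (n : ℤ) = (D.g j').eval (n : ℤ)
              · rw [if_pos ⟨hx, h6⟩, if_pos (sub_eq_zero.2 h6)]
              · rw [if_neg (fun h => h6 h.2), if_neg (fun h => h6 (sub_eq_zero.1 h))]
            rw [sum_congr rfl h5, sum_const, Nat.card_Icc, Nat.add_sub_cancel, nsmul_eq_mul]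
          rw [sum_congr rfl h4, ← mul_sum, ← sum_filter, sum_const, nsmul_eq_mul, mul_one, mul_comm]
          exact mul_le_mul_of_nonneg_right hroot (Nat.cast_nonneg _)
        · rw [← hconst]
          apply sum_le_sum
          intro n _
          have h5 : ∀ n' ∈ Icc 1 D.M, (if ((1, j) : Fin 2 × J) ≠ (1, j') ∧ pos2 D.g (n : ℤ) (n' : ℤ) 1 j = pos2 D.g (n : ℤ) (n' : ℤ) 1 j' then (1 : ℝ) else 0) =
              (if (D.g j - D.g j').eval (n' : ℤ) = 0 then (1 : ℝ) else 0) := by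
            intro n' _
            unfold pos2 pos1
            simp only [one_ne_zero, if_false, eval_sub]
            by_cases h6 : (D.g j).eval (n' : ℤ) = (D.g j').eval (n' : ℤ)
            · rw [if_pos ⟨hx, h6⟩, if_pos (sub_eq_zero.2 h6)]
            · rw [if_neg (fun h => h6 h.2), if_neg (fun h => h6 (sub_eq_zero.1 h))]
          rw [sum_congr rfl h5, ← sum_filter, sum_const, nsmul_eq_mul, mul_one]
          exact hroot
      · rw [← hconst]
        apply sum_le_sum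
        intro n _
        have hb2 : (b = 0 ∧ b' = 1) ∨ (b = 1 ∧ b' = 0) := by omega
        rcases hb2 with ⟨rfl, rfl⟩ | ⟨rfl, rfl⟩
        · have h5 : ∀ n' ∈ Icc 1 D.M, (if ((0, j) : Fin 2 × J) ≠ (1, j') ∧ pos2 D.g (n : ℤ) (n' : ℤ) 0 j = pos2 D.g (n : ℤ) (n' : ℤ) 1 j' then (1 : ℝ) else 0) =
              (if (D.g j').eval (n' : ℤ) = (D.g j).eval (n : ℤ) then (1 : ℝ) else 0) := by
            intro n' _
            unfold pos2 pos1
            simp only [if_true, one_ne_zero, if_false]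
            by_cases h6 : (D.g j).eval (n : ℤ) = (D.g j').eval (n' : ℤ)
            · rw [if_pos ⟨hx, h6⟩, if_pos h6.symm]
            · rw [if_neg (fun h => h6 h.2), if_neg (fun h => h6 h.symm)]
          rw [sum_congr rfl h5, ← sum_filter, sum_const, nsmul_eq_mul, mul_one]
          exact_mod_cast D.cnt_eq j' _ D.M
        · have h5 : ∀ n' ∈ Icc 1 D.M, (if ((1, j) : Fin 2 × J) ≠ (0, j') ∧ pos2 D.g (n : ℤ) (n' : ℤ) 1 j = pos2 D.g (n : ℤ) (n' : ℤ) 0 j' then (1 : ℝ) else 0) =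
              (if (D.g j).eval (n' : ℤ) = (D.g j').eval (n : ℤ) then (1 : ℝ) else 0) := by
            intro n' _
            unfold pos2 pos1
            simp only [if_true, one_ne_zero, if_false]
            by_cases h6 : (D.g j).eval (n' : ℤ) = (D.g j').eval (n : ℤ)
            · rw [if_pos ⟨hx, h6⟩, if_pos h6]
            · rw [if_neg (fun h => h6 h.2), if_neg h6]
          rw [sum_congr rfl h5, ← sum_filter, sum_const, nsmul_eq_mul, mul_one]
          exact_mod_cast D.cnt_eq j _ D.M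
  refine (sum_le_sum fun y _ => h3 y).trans (le_of_eq ?_)
  rw [sum_const, card_univ, Fintype.card_prod, Fintype.card_prod, Fintype.card_fin, nsmul_eq_mul]
  push_cast
  ring

end Sv

end Pool.Agent.H544.BC
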