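import Mathlib
import Pool.Agent.H544.BC.M7

/-!
Concentration of the sums over the arguments: the two moments.
-/

set_option autoImplicit false
set_option linter.unusedSectionVars false

namespace Pool.Agent.H544.BC
open Finset Polynomial
open Pool.Agent.H373R2.T7
open Pool.Agent.H544.LD (cls Gz)
open Pool.Agent.N913.MT (Wb Wb_one_ge)

namespace Sv
variable {J : Type} [Fintype J] [DecidableEq J] (D : Sv J)

lemma Err_nonneg : 0 ≤ D.Err := by
  have hV : 0 < (Vz D.z)⁻¹ := inv_pos.2 (Vz_pos D.z)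
  unfold Su.Err
  positivity

/-- one argument -/
lemma single (l : Option J) (n : ℕ) (hn : n ∈ D.N) :
    D.κ * D.om l * D.MM l * (1 - D.C2 * (Real.exp (e1 J D.z0 + (lam0 J + 2) * rho D.S (fun _ : Fin 1 => pos1 D.g n)) - 1)) - D.Err ≤
      ∑ c ∈ cls D.A D.W D.c0, D.Z l n c := by
  classical
  have h1 := D.mom (B := Fin 1) (by simp) (by simp) l (fun _ => pos1 D.g n) (fun _ j => (D.hval n hn j).1)
    (fun p hp hpW _ j => D.hcop n hn p hp hpW j)
  simp only [univ_unique, prod_singleton, Fintype.card_fin, pow_one] at h1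
  have h2 := DDsum (B := Fin 1) (by simp) D.z0 D.R D.hz0 D.S D.hSz (fun _ => pos1 D.g n)
  have hr := rho_nonneg D.S (fun _ : Fin 1 => pos1 D.g n)
  have h3 : Real.exp (∑ t : D.S, DD1 (Fin 1) J (Su.gd (fun _ : Fin 1 => pos1 D.g n) t) (t : ℕ)) ≤
      Real.exp (e1 J D.z0 + (lam0 J + 2) * rho D.S (fun _ : Fin 1 => pos1 D.g n)) := by
    apply Real.exp_le_exp.2
    linarith
  have hkp : D.kp l (fun _ : Fin 1 => pos1 D.g n) = D.κ * D.om l := by
    unfold Su.kp Su.κ Su.om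
    cases l with
    | none => simp only [mul_one]
    | some j =>
      simp only
      have h4 := kap_one D.z D.W D.hW0 D.hWz (fun _ : Fin 1 => pos1 D.g n j)
      rw [← h4]
      ring
  rw [hkp] at h1
  have hκ := D.κ_nonneg
  have hom := D.om_ge l
  have hM := D.MM_pos l
  have hκo : 0 ≤ D.κ * D.om l := mul_nonneg hκ (by linarith)
  set X := Real.exp (∑ t : D.S, DD1 (Fin 1) J (Su.gd (fun _ : Fin 1 => pos1 D.g n) t) (t : ℕ)) with hX
  set X' := Real.exp (e1 J D.z0 + (lam0 J + 2) * rho D.S (fun _ : Fin 1 => pos1 D.g n)) with hX'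
  have hX1 : 0 ≤ X' - 1 := by
    have : 1 ≤ X' := by
      rw [hX']
      apply Real.one_le_exp
      have : 0 ≤ e1 J D.z0 := by unfold e1; positivity
      have : 0 ≤ lam0 J := by unfold lam0; positivity
      positivity
    linarith
  have h4 : D.κ * D.om l * (Wb D.ν l (fun _ => 1) * (X - 1)) ≤ D.κ * D.om l * (D.C2 * D.MM l * (X' - 1)) := by
    apply mul_le_mul_of_nonneg_left _ hκo
    have h5 := D.hC2 l
    have h6 := Wb_one_ge D.ν D.ν_nonneg l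
    calc Wb D.ν l (fun _ => 1) * (X - 1) ≤ Wb D.ν l (fun _ => 1) * (X' - 1) :=
          mul_le_mul_of_nonneg_left (by linarith) (by linarith)
      _ ≤ _ := mul_le_mul_of_nonneg_right h5 hX1
  have h5 := (abs_le.1 h1).1
  have h6 : D.MM l = Wb D.ν l D.y := rfl
  have h7 : ∑ c ∈ cls D.A D.W D.c0, D.Z l n c = ∑ c ∈ cls D.A D.W D.c0, mw D.z l (pos1 D.g n) c * Lm l D.y (pos1 D.g n) c ^ 2 := rfl
  rw [h7]
  rw [← h6] at h5
  have e : D.κ * D.om l * D.MM l * (1 - D.C2 * (X' - 1)) = D.κ * D.om l * D.MM l - D.κ * D.om l * (D.C2 * D.MM l * (X' - 1)) := by ring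
  rw [e]
  linarith

/-- two arguments -/
lemma pair (l : Option J) (n n' : ℕ) (hn : n ∈ D.N) (hn' : n' ∈ D.N) :
    ∑ c ∈ cls D.A D.W D.c0, D.Z l n c * D.Z l n' c ≤
      D.κ * (D.om l * D.MM l) ^ 2 * (1 + D.C2 ^ 2 * (Real.exp (e1 J D.z0 + (lam0 J + 2) * rho D.S (pos2 D.g n n')) - 1)) + D.Err := by
  classical
  have hpos : ∀ (i : Fin 2) (j : J), 0 ≤ pos2 D.g n n' i j := by
    intro i j
    unfold pos2
    split_ifs
    · exact (D.hval n hn j).1
    · exact (D.hval n' hn' j).1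
  have h1 := D.mom (B := Fin 2) (by simp) (by simp) l (pos2 D.g n n') hpos
    (fun p hp hpW i j => by
      unfold pos2
      split_ifs
      · exact D.hcop n hn p hp hpW j
      · exact D.hcop n' hn' p hp hpW j)
  simp only [Fin.prod_univ_two, Fintype.card_fin] at h1
  have h2 := DDsum (B := Fin 2) (by simp) D.z0 D.R D.hz0 D.S D.hSz (pos2 D.g n n')
  have hr := rho_nonneg D.S (pos2 D.g (n : ℤ) (n' : ℤ))
  set ρ := rho D.S (pos2 D.g (n : ℤ) (n' : ℤ)) with hρ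
  set X := Real.exp (∑ t : D.S, DD1 (Fin 2) J (Su.gd (pos2 D.g n n') t) (t : ℕ)) with hX
  have hXle : X ≤ Real.exp (e1 J D.z0 + lam0 J * ρ) := by
    rw [hX]
    exact Real.exp_le_exp.2 h2
  have hκ := D.κ_nonneg
  have hom := D.om_ge l
  have hM := D.MM_pos l
  have hkp : D.kp l (pos2 D.g n n') ≤ D.κ * (D.om l) ^ 2 * Real.exp (2 * ρ) := by
    unfold Su.kp Su.om
    cases l with
    | none =>
      simp only
      rw [one_pow, mul_one]
      have : 1 ≤ Real.exp (2 * ρ) := Real.one_le_exp (by positivity)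
      exact le_mul_of_one_le_right D.κ_nonneg this
    | some j =>
      simp only
      have h4 := kap_two D.z D.W D.hW0 D.hWz D.S D.hSall (fun i : Fin 2 => pos2 D.g n n' i j)
      have h5 : ∑ t ∈ D.S, (if (t : ℤ) ∣ pos2 D.g n n' 0 j - pos2 D.g n n' 1 j then 2 / (t : ℝ) else 0) ≤ 2 * ρ := by
        rw [hρ]
        unfold rho
        rw [mul_sum]
        apply sum_le_sum
        intro t _
        by_cases hd : (t : ℤ) ∣ pos2 D.g n n' 0 j - pos2 D.g n n' 1 j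
        · have hbad : ¬ Su.gd (pos2 D.g (n : ℤ) (n' : ℤ)) t := fun h => h (0, j) (1, j) (by simp) hd
          rw [if_pos hd, if_neg hbad]
          apply le_of_eq
          ring
        · rw [if_neg hd]
          split_ifs <;> positivity
      calc (Vz D.z)⁻¹ ^ (Fintype.card (Fin 2)) * ((D.A : ℝ) / D.W * Gz (HB (fun i => pos2 D.g n n' i j)) D.z D.W) =
            (D.A : ℝ) / D.W * ((Vz D.z)⁻¹ ^ (Fintype.card (Fin 2)) * Gz (HB (fun i => pos2 D.g n n' i j)) D.z D.W) := by ring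
        _ ≤ (D.A : ℝ) / D.W * (((D.W : ℝ) / Nat.totient D.W) ^ 2 * Real.exp (2 * ρ)) := by
            apply mul_le_mul_of_nonneg_left _ (by positivity)
            refine h4.trans (mul_le_mul_of_nonneg_left (Real.exp_le_exp.2 h5) (by positivity))
        _ = _ := by unfold Su.κ; ring
  have hkp0 := D.kp_nonneg l (pos2 D.g (n : ℤ) (n' : ℤ))
  have h5 := (abs_le.1 h1).2
  have h6 : D.MM l = Wb D.ν l D.y := rfl
  rw [← h6] at h5
  have h7 : Wb D.ν l (fun _ => 1) ^ 2 ≤ D.C2 ^ 2 * D.MM l ^ 2 := by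
    rw [← mul_pow]
    have h6' := Wb_one_ge D.ν D.ν_nonneg l
    exact pow_le_pow_left₀ (le_trans zero_le_one h6') (D.hC2 l) 2
  have he1 : 0 ≤ e1 J D.z0 := by unfold e1; positivity
  have hlam : 0 ≤ lam0 J := by unfold lam0; positivity
  have hX1 : 0 ≤ Real.exp (e1 J D.z0 + lam0 J * ρ) - 1 := by
    have : 1 ≤ Real.exp (e1 J D.z0 + lam0 J * ρ) := Real.one_le_exp (by positivity)
    linarith
  have h8 : D.kp l (pos2 D.g (n : ℤ) (n' : ℤ)) * (D.MM l ^ 2 + Wb D.ν l (fun _ => 1) ^ 2 * (X - 1)) ≤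
      D.κ * (D.om l * D.MM l) ^ 2 * (1 + D.C2 ^ 2 * (Real.exp (e1 J D.z0 + (lam0 J + 2) * ρ) - 1)) := by
    have h9 : D.MM l ^ 2 + Wb D.ν l (fun _ => 1) ^ 2 * (X - 1) ≤ D.MM l ^ 2 * (1 + D.C2 ^ 2 * (Real.exp (e1 J D.z0 + lam0 J * ρ) - 1)) := by
      have h10 : Wb D.ν l (fun _ => 1) ^ 2 * (X - 1) ≤ (D.C2 ^ 2 * D.MM l ^ 2) * (Real.exp (e1 J D.z0 + lam0 J * ρ) - 1) := by
        calc Wb D.ν l (fun _ => 1) ^ 2 * (X - 1) ≤ Wb D.ν l (fun _ => 1) ^ 2 * (Real.exp (e1 J D.z0 + lam0 J * ρ) - 1) :=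
              mul_le_mul_of_nonneg_left (by linarith) (sq_nonneg _)
          _ ≤ _ := mul_le_mul_of_nonneg_right h7 hX1
      linarith
    have h11 : Real.exp (2 * ρ) * (1 + D.C2 ^ 2 * (Real.exp (e1 J D.z0 + lam0 J * ρ) - 1)) ≤
        1 + D.C2 ^ 2 * (Real.exp (e1 J D.z0 + (lam0 J + 2) * ρ) - 1) := by
      have e2 : Real.exp (e1 J D.z0 + (lam0 J + 2) * ρ) = Real.exp (2 * ρ) * Real.exp (e1 J D.z0 + lam0 J * ρ) := by
        rw [← Real.exp_add]; congr 1; ring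
      rw [e2]
      have h12 : 1 ≤ Real.exp (2 * ρ) := Real.one_le_exp (by positivity)
      have h13 : 1 ≤ D.C2 ^ 2 := one_le_pow₀ D.hC21
      nlinarith
    have h14 : 0 ≤ 1 + D.C2 ^ 2 * (Real.exp (e1 J D.z0 + lam0 J * ρ) - 1) := by positivity
    calc _ ≤ D.kp l (pos2 D.g (n : ℤ) (n' : ℤ)) * (D.MM l ^ 2 * (1 + D.C2 ^ 2 * (Real.exp (e1 J D.z0 + lam0 J * ρ) - 1))) :=
          mul_le_mul_of_nonneg_left h9 hkp0
      _ ≤ (D.κ * (D.om l) ^ 2 * Real.exp (2 * ρ)) * (D.MM l ^ 2 * (1 + D.C2 ^ 2 * (Real.exp (e1 J D.z0 + lam0 J * ρ) - 1))) :=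
          mul_le_mul_of_nonneg_right hkp (by positivity)
      _ = D.κ * (D.om l * D.MM l) ^ 2 * (Real.exp (2 * ρ) * (1 + D.C2 ^ 2 * (Real.exp (e1 J D.z0 + lam0 J * ρ) - 1))) := by ring
      _ ≤ _ := mul_le_mul_of_nonneg_left h11 (by positivity)
  have h15 : ∑ c ∈ cls D.A D.W D.c0, D.Z l n c * D.Z l n' c =
      ∑ c ∈ cls D.A D.W D.c0, mw D.z l (pos2 D.g n n' 0) c * mw D.z l (pos2 D.g n n' 1) c * (Lm l D.y (pos2 D.g n n' 0) c ^ 2 * Lm l D.y (pos2 D.g n n' 1) c ^ 2) := by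
    apply sum_congr rfl
    intro c _
    have a0 : pos2 D.g (n : ℤ) (n' : ℤ) 0 = pos1 D.g n := by unfold pos2; simp
    have a1 : pos2 D.g (n : ℤ) (n' : ℤ) 1 = pos1 D.g n' := by unfold pos2; simp
    rw [a0, a1]
    unfold Z
    ring
  rw [h15]
  linarith

/-- crude bound for two arguments -/
lemma pair_crude (l : Option J) (n n' : ℕ) :
    ∑ c ∈ cls D.A D.W D.c0, D.Z l n c * D.Z l n' c ≤
      (Vz D.z)⁻¹ ^ 2 * (D.κ * Real.exp (∑ t : D.S, 2 ^ (4 * Fintype.card J) * (9 / ((t : ℕ) : ℝ))) + D.Err) := by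
  have hV : 0 < (Vz D.z)⁻¹ := inv_pos.2 (Vz_pos D.z)
  have h1 := D.crude l (pos1 D.g n)
  have h2 := D.crude l (pos1 D.g n')
  have h3 : ∀ c ∈ cls D.A D.W D.c0, D.Z l n c * D.Z l n' c ≤ (Vz D.z)⁻¹ ^ 2 * ((Lm l D.y (pos1 D.g n) c ^ 4 + Lm l D.y (pos1 D.g n') c ^ 4) / 2) := by
    intro c _
    unfold Z
    have a1 := mw_le D.z l (pos1 D.g n) c
    have a2 := mw_le D.z l (pos1 D.g n') c
    have b1 := mw_nonneg D.z l (pos1 D.g n) c
    have b2 := mw_nonneg D.z l (pos1 D.g n') c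
    obtain ⟨u, hu⟩ : ∃ u, u = Lm l D.y (pos1 D.g n) c ^ 2 := ⟨_, rfl⟩
    obtain ⟨v, hv⟩ : ∃ v, v = Lm l D.y (pos1 D.g n') c ^ 2 := ⟨_, rfl⟩
    have hu4 : Lm l D.y (pos1 D.g n) c ^ 4 = u ^ 2 := by rw [hu]; ring
    have hv4 : Lm l D.y (pos1 D.g n') c ^ 4 = v ^ 2 := by rw [hv]; ring
    have hu0 : 0 ≤ u := by rw [hu]; positivity
    have hv0 : 0 ≤ v := by rw [hv]; positivity
    rw [hu4, hv4, ← hu, ← hv]
    calc _ = (mw D.z l (pos1 D.g n) c * mw D.z l (pos1 D.g n') c) * (u * v) := by ring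
      _ ≤ ((Vz D.z)⁻¹ * (Vz D.z)⁻¹) * (u * v) := by gcongr
      _ ≤ ((Vz D.z)⁻¹ * (Vz D.z)⁻¹) * ((u ^ 2 + v ^ 2) / 2) := by
          apply mul_le_mul_of_nonneg_left _ (by positivity)
          nlinarith [sq_nonneg (u - v)]
      _ = _ := by ring
  refine (sum_le_sum h3).trans ?_
  rw [← mul_sum]
  apply mul_le_mul_of_nonneg_left _ (by positivity)
  rw [← sum_div, sum_add_distrib]
  linarith

end Sv

end Pool.Agent.H544.BC
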