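import Mathlib
import Pool.Agent.H544.BC.M8

/-!
Concentration of the sums over the arguments.
-/

set_option autoImplicit false
set_option linter.unusedSectionVars false

namespace Pool.Agent.H544.BC
open Finset Polynomial
open Pool.Agent.H373R2.T7
open Pool.Agent.H544.LD (cls Gz)
open Pool.Agent.N913.MT (Wb Wb_one_ge)

namespace Sv
variable {J : Type} [Fintype J] [DecidableEq J] (D : Sv J)

/-- the number of arguments -/
noncomputable def NR : ℝ := (#D.N : ℝ)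

/-- the mean -/
noncomputable def XM (l : Option J) : ℝ := D.NR * (D.om l * D.MM l)

lemma M_pos : (0 : ℝ) < D.M := by
  have h1 := D.hMy
  have h2 : 0 < 4 ^ D.y0 := by positivity
  have : 0 < D.M := by omega
  exact_mod_cast this

lemma NR_pos : 0 < D.NR := by
  have h1 := D.hMN
  have h2 := D.M_pos
  unfold NR
  linarith

lemma XM_pos (l : Option J) : 0 < D.XM l := mul_pos D.NR_pos (mul_pos (by linarith [D.om_ge l]) (D.MM_pos l))

lemma lam_nonneg : 0 ≤ lam0 J + 2 := by unfold lam0; positivity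

/-- the average over pairs -/
lemma avg_all : ∑ n ∈ Icc 1 D.M, ∑ n' ∈ Icc 1 D.M,
    (Real.exp (e1 J D.z0 + (lam0 J + 2) * (4 * (Fintype.card J : ℝ) ^ 2 * (Real.log D.Hm / Real.log D.y0) / D.y0)) * (Pi2 D.g D.S D.y0 (lam0 J + 2) n n' - 1) +
      (Real.exp (e1 J D.z0 + (lam0 J + 2) * (4 * (Fintype.card J : ℝ) ^ 2 * (Real.log D.Hm / Real.log D.y0) / D.y0)) - 1)) ≤
    (D.M : ℝ) ^ 2 * Tht J D.d D.z0 D.y0 D.Hm (lam0 J + 2) := by
  have h1 := Pi2_avg D.g D.d D.S D.hg D.hS D.z0 D.R D.y0 D.M D.hz0 D.hSz D.hMy (lam0 J + 2) lam_nonneg D.hlz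
  set K0 := Real.exp (e1 J D.z0 + (lam0 J + 2) * (4 * (Fintype.card J : ℝ) ^ 2 * (Real.log D.Hm / Real.log D.y0) / D.y0)) with hK0
  have hK : 0 < K0 := Real.exp_pos _
  simp only [sum_add_distrib, ← mul_sum, sum_const, Nat.card_Icc, Nat.add_sub_cancel, nsmul_eq_mul]
  unfold Tht
  rw [← hK0]
  have h2 := mul_le_mul_of_nonneg_left h1 hK.le
  calc _ ≤ K0 * (4 * (D.M : ℝ) ^ 2 * (Real.exp (4 * (lam0 J + 2) * (4 * (Fintype.card J : ℝ) ^ 2 * D.d) / D.z0) - 1)) + D.M * (D.M * (K0 - 1)) := by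
        linarith
    _ = _ := by ring

open Classical in
/-- the first moment -/
lemma first (l : Option J) : D.κ * D.XM l * (1 - 3 * D.θ) ≤ ∑ c ∈ cls D.A D.W D.c0, D.SZ l c := by
  have hκ := D.κ_nonneg
  have hom := D.om_ge l
  have hM := D.MM_pos l
  have hMM := D.MM_ge l
  have hC := D.hC21
  have hErr := D.Err_nonneg
  have hMp := D.M_pos
  set P1 := D.N.filter (fun n : ℕ => dist (fun _ : Fin 1 => pos1 D.g n)) with hP1
  set K0 := Real.exp (e1 J D.z0 + (lam0 J + 2) * (4 * (Fintype.card J : ℝ) ^ 2 * (Real.log D.Hm / Real.log D.y0) / D.y0)) with hK0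
  have hK01 : 1 ≤ K0 := by
    apply Real.one_le_exp
    have : 0 ≤ e1 J D.z0 := by unfold e1; positivity
    have := lam_nonneg (J := J)
    have : 0 ≤ Real.log D.Hm := Real.log_natCast_nonneg _
    have : 0 ≤ Real.log D.y0 := Real.log_natCast_nonneg _
    positivity
  have h1 : ∑ n ∈ P1, (Real.exp (e1 J D.z0 + (lam0 J + 2) * rho D.S (fun _ : Fin 1 => pos1 D.g n)) - 1) ≤ D.M * Tht J D.d D.z0 D.y0 D.Hm (lam0 J + 2) := by
    have h2 : ∀ n ∈ P1, (D.M : ℝ) * (Real.exp (e1 J D.z0 + (lam0 J + 2) * rho D.S (fun _ : Fin 1 => pos1 D.g n)) - 1) ≤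
        ∑ n' ∈ Icc 1 D.M, (K0 * (Pi2 D.g D.S D.y0 (lam0 J + 2) n n' - 1) + (K0 - 1)) := by
      intro n hn
      rw [hP1, mem_filter] at hn
      have h3 : (D.M : ℝ) * (Real.exp (e1 J D.z0 + (lam0 J + 2) * rho D.S (fun _ : Fin 1 => pos1 D.g n)) - 1) =
          ∑ _n' ∈ Icc 1 D.M, (Real.exp (e1 J D.z0 + (lam0 J + 2) * rho D.S (fun _ : Fin 1 => pos1 D.g n)) - 1) := by
        rw [sum_const, Nat.card_Icc, Nat.add_sub_cancel, nsmul_eq_mul]
      rw [h3]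
      apply sum_le_sum
      intro n' _
      exact exp_rho (B := Fin 1) (by simp) D.g D.S D.hS D.z0 D.y0 D.Hm D.hy0 D.hHm (fun _ => pos1 D.g n) hn.2
        (fun _ j => D.hval n hn.1 j) (lam0 J + 2) lam_nonneg n n' (by
          intro t ht q q' hqq hd
          apply ht (0, q.2) (0, q'.2)
          · intro h
            apply hqq
            exact Prod.ext_iff.2 ⟨Subsingleton.elim _ _, (Prod.ext_iff.1 h).2⟩
          · unfold pos2
            simpa using hd)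
    have h3 : (D.M : ℝ) * ∑ n ∈ P1, (Real.exp (e1 J D.z0 + (lam0 J + 2) * rho D.S (fun _ : Fin 1 => pos1 D.g n)) - 1) ≤
        (D.M : ℝ) * (D.M * Tht J D.d D.z0 D.y0 D.Hm (lam0 J + 2)) := by
      rw [mul_sum]
      refine (sum_le_sum h2).trans ?_
      have h4 : ∑ n ∈ P1, ∑ n' ∈ Icc 1 D.M, (K0 * (Pi2 D.g D.S D.y0 (lam0 J + 2) n n' - 1) + (K0 - 1)) ≤
          ∑ n ∈ Icc 1 D.M, ∑ n' ∈ Icc 1 D.M, (K0 * (Pi2 D.g D.S D.y0 (lam0 J + 2) n n' - 1) + (K0 - 1)) := by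
        apply sum_le_sum_of_subset_of_nonneg
        · exact (filter_subset _ _).trans D.hN
        · intro n _ _
          apply sum_nonneg
          intro n' _
          have := Pi2_ge D.g D.S D.y0 (lam0 J + 2) lam_nonneg n n'
          have : 0 ≤ K0 * (Pi2 D.g D.S D.y0 (lam0 J + 2) n n' - 1) := mul_nonneg (by linarith) (by linarith)
          linarith
      refine h4.trans (D.avg_all.trans (le_of_eq (by ring)))
    exact le_of_mul_le_mul_left h3 hMp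
  have h2 : ∑ c ∈ cls D.A D.W D.c0, D.SZ l c = ∑ n ∈ D.N, ∑ c ∈ cls D.A D.W D.c0, D.Z l n c := by
    unfold SZ
    rw [sum_comm]
  rw [h2]
  have h3 : ∑ n ∈ P1, (D.κ * D.om l * D.MM l * (1 - D.C2 * (Real.exp (e1 J D.z0 + (lam0 J + 2) * rho D.S (fun _ : Fin 1 => pos1 D.g n)) - 1)) - D.Err) ≤
      ∑ n ∈ D.N, ∑ c ∈ cls D.A D.W D.c0, D.Z l n c := by
    calc _ ≤ ∑ n ∈ P1, ∑ c ∈ cls D.A D.W D.c0, D.Z l n c := sum_le_sum fun n hn => D.single l n (mem_filter.1 hn).1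
      _ ≤ _ := sum_le_sum_of_subset_of_nonneg (filter_subset _ _) (fun n _ _ => sum_nonneg fun c _ => D.Z_nonneg l n c)
  refine le_trans ?_ h3
  rw [sum_sub_distrib, ← mul_sum, sum_sub_distrib, ← mul_sum, sum_const, sum_const, nsmul_eq_mul, nsmul_eq_mul, mul_one]
  have h4 : D.NR - (Fintype.card J : ℝ) ^ 2 * D.d ≤ (#P1 : ℝ) := by
    have h5 := D.nd1
    have h6 := card_filter_add_card_filter_not (s := D.N) (fun n : ℕ => dist (fun _ : Fin 1 => pos1 D.g n))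
    have h7 : (#P1 : ℝ) + (#(D.N.filter (fun n : ℕ => ¬ dist (fun _ : Fin 1 => pos1 D.g n))) : ℝ) = D.NR := by
      unfold NR
      rw [hP1]
      exact_mod_cast h6
    linarith
  have h5 : (#P1 : ℝ) ≤ D.NR := by
    unfold NR
    exact_mod_cast card_le_card (filter_subset _ _)
  have hd1 : (Fintype.card J : ℝ) ^ 2 * D.d ≤ D.θ * D.NR := D.hd1
  have hMN : (D.M : ℝ) ≤ 4 * D.NR := D.hMN
  have hNR := D.NR_pos
  have hT0 : 0 ≤ Tht J D.d D.z0 D.y0 D.Hm (lam0 J + 2) := by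
    unfold Tht
    rw [← hK0]
    have := lam_nonneg (J := J)
    have h8 : 1 ≤ Real.exp (4 * (lam0 J + 2) * (4 * (Fintype.card J : ℝ) ^ 2 * D.d) / D.z0) := Real.one_le_exp (by positivity)
    have : 0 ≤ K0 * (4 * (Real.exp (4 * (lam0 J + 2) * (4 * (Fintype.card J : ℝ) ^ 2 * D.d) / D.z0) - 1)) :=
      mul_nonneg (by linarith) (by linarith)
    linarith
  have hΘ := D.hΘ
  -- the terms
  have t1 : D.C2 * (D.M * Tht J D.d D.z0 D.y0 D.Hm (lam0 J + 2)) ≤ D.θ / 4 * D.NR := by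
    calc D.C2 * (D.M * Tht J D.d D.z0 D.y0 D.Hm (lam0 J + 2)) ≤ D.C2 ^ 2 * (4 * D.NR * Tht J D.d D.z0 D.y0 D.Hm (lam0 J + 2)) := by
          have : D.C2 ≤ D.C2 ^ 2 := by nlinarith
          gcongr
      _ = (16 * D.C2 ^ 2 * Tht J D.d D.z0 D.y0 D.Hm (lam0 J + 2)) * D.NR / 4 := by ring
      _ ≤ D.θ * D.NR / 4 := by gcongr
      _ = _ := by ring
  have t2 : D.NR * D.Err ≤ D.κ * (D.NR * (D.om l * D.MM l)) * D.θ := by
    have h8 := D.hErr
    have h9 : D.Err ≤ D.θ * D.κ * (D.om l * D.MM l) := by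
      have h10 : D.C2 * D.MM l ≥ 1 := by
        have := mul_le_mul_of_nonneg_left hMM (by linarith : 0 ≤ D.C2)
        rw [mul_one_div, div_self (by linarith)] at this
        exact this
      have h11 : 1 ≤ D.om l * (D.C2 * D.MM l) := by nlinarith
      have hθκ : 0 ≤ D.θ * D.κ := mul_nonneg D.hθ0.le hκ
      have h12 : D.C2 * D.Err ≤ D.θ * D.κ := by
        have : D.C2 * D.Err ≤ D.C2 ^ 2 * D.Err := by
          apply mul_le_mul_of_nonneg_right _ hErr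
          nlinarith
        linarith
      have h13 : D.C2 * D.Err ≤ D.C2 * (D.θ * D.κ * (D.om l * D.MM l)) := by
        calc D.C2 * D.Err ≤ D.θ * D.κ * 1 := by rw [mul_one]; exact h12
          _ ≤ D.θ * D.κ * (D.om l * (D.C2 * D.MM l)) := mul_le_mul_of_nonneg_left h11 hθκ
          _ = _ := by ring
      exact le_of_mul_le_mul_left h13 (by linarith)
    calc D.NR * D.Err ≤ D.NR * (D.θ * D.κ * (D.om l * D.MM l)) := mul_le_mul_of_nonneg_left h9 hNR.le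
      _ = _ := by ring
  have hκX : 0 ≤ D.κ * D.om l * D.MM l := by positivity
  have t3 : (#P1 : ℝ) * D.Err ≤ D.NR * D.Err := mul_le_mul_of_nonneg_right h5 hErr
  have t4 : D.κ * D.om l * D.MM l * (D.NR - D.θ * D.NR - D.θ / 4 * D.NR) ≤
      D.κ * D.om l * D.MM l * (#P1 - D.C2 * ∑ n ∈ P1, (Real.exp (e1 J D.z0 + (lam0 J + 2) * rho D.S (fun _ : Fin 1 => pos1 D.g n)) - 1)) := by
    apply mul_le_mul_of_nonneg_left _ hκX
    have := mul_le_mul_of_nonneg_left h1 (by linarith : 0 ≤ D.C2)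
    linarith
  have t5 : D.κ * D.XM l * (1 - 3 * D.θ) = D.κ * D.om l * D.MM l * (D.NR - D.θ * D.NR - D.θ / 4 * D.NR) - D.κ * (D.NR * (D.om l * D.MM l)) * D.θ -
      D.κ * D.om l * D.MM l * (3 / 4 * D.θ * D.NR) := by
    unfold XM
    ring
  have t6 : 0 ≤ D.κ * D.om l * D.MM l * (3 / 4 * D.θ * D.NR) := mul_nonneg hκX (by have := D.hθ0; positivity)
  rw [t5]
  linarith

open Classical in
/-- the second moment -/
lemma second (l : Option J) : ∑ c ∈ cls D.A D.W D.c0, (D.SZ l c) ^ 2 ≤ D.κ * (D.XM l) ^ 2 * (1 + 3 * D.θ) := by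
  have hκ := D.κ_nonneg
  have hom := D.om_ge l
  have hM := D.MM_pos l
  have hMM := D.MM_ge l
  have hC := D.hC21
  have hErr := D.Err_nonneg
  have hMp := D.M_pos
  have hNR := D.NR_pos
  have hMN : (D.M : ℝ) ≤ 4 * D.NR := D.hMN
  set P2 := (D.N ×ˢ D.N).filter (fun x : ℕ × ℕ => dist (pos2 D.g x.1 x.2)) with hP2
  set K0 := Real.exp (e1 J D.z0 + (lam0 J + 2) * (4 * (Fintype.card J : ℝ) ^ 2 * (Real.log D.Hm / Real.log D.y0) / D.y0)) with hK0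
  have hK01 : 1 ≤ K0 := by
    apply Real.one_le_exp
    have : 0 ≤ e1 J D.z0 := by unfold e1; positivity
    have := lam_nonneg (J := J)
    have : 0 ≤ Real.log D.Hm := Real.log_natCast_nonneg _
    have : 0 ≤ Real.log D.y0 := Real.log_natCast_nonneg _
    positivity
  have h1 : ∑ x ∈ P2, (Real.exp (e1 J D.z0 + (lam0 J + 2) * rho D.S (pos2 D.g x.1 x.2)) - 1) ≤ (D.M : ℝ) ^ 2 * Tht J D.d D.z0 D.y0 D.Hm (lam0 J + 2) := by
    have h2 : ∀ x ∈ P2, (Real.exp (e1 J D.z0 + (lam0 J + 2) * rho D.S (pos2 D.g x.1 x.2)) - 1) ≤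
        K0 * (Pi2 D.g D.S D.y0 (lam0 J + 2) x.1 x.2 - 1) + (K0 - 1) := by
      intro x hx
      rw [hP2, mem_filter, mem_product] at hx
      exact exp_rho (B := Fin 2) (by simp) D.g D.S D.hS D.z0 D.y0 D.Hm D.hy0 D.hHm (pos2 D.g x.1 x.2) hx.2
        (fun i j => by
          unfold pos2
          split_ifs
          · exact D.hval x.1 hx.1.1 j
          · exact D.hval x.2 hx.1.2 j) (lam0 J + 2) lam_nonneg x.1 x.2 (fun t ht => ht)
    refine (sum_le_sum h2).trans ?_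
    refine le_trans ?_ D.avg_all
    rw [← sum_product']
    apply sum_le_sum_of_subset_of_nonneg
    · exact (filter_subset _ _).trans (product_subset_product D.hN D.hN)
    · intro x _ _
      have := Pi2_ge D.g D.S D.y0 (lam0 J + 2) lam_nonneg x.1 x.2
      have : 0 ≤ K0 * (Pi2 D.g D.S D.y0 (lam0 J + 2) x.1 x.2 - 1) := mul_nonneg (by linarith) (by linarith)
      linarith
  have h2 : ∑ c ∈ cls D.A D.W D.c0, (D.SZ l c) ^ 2 = ∑ x ∈ D.N ×ˢ D.N, ∑ c ∈ cls D.A D.W D.c0, D.Z l x.1 c * D.Z l x.2 c := by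
    rw [sum_comm]
    apply sum_congr rfl
    intro c _
    unfold SZ
    rw [sq, sum_mul_sum, sum_product]
  rw [h2, ← sum_filter_add_sum_filter_not (D.N ×ˢ D.N) (fun x : ℕ × ℕ => dist (pos2 D.g x.1 x.2)), ← hP2]
  have h3 : ∑ x ∈ P2, ∑ c ∈ cls D.A D.W D.c0, D.Z l x.1 c * D.Z l x.2 c ≤
      D.κ * (D.om l * D.MM l) ^ 2 * (D.NR ^ 2 + D.C2 ^ 2 * ((D.M : ℝ) ^ 2 * Tht J D.d D.z0 D.y0 D.Hm (lam0 J + 2))) + D.NR ^ 2 * D.Err := by
    calc _ ≤ ∑ x ∈ P2, (D.κ * (D.om l * D.MM l) ^ 2 * (1 + D.C2 ^ 2 * (Real.exp (e1 J D.z0 + (lam0 J + 2) * rho D.S (pos2 D.g x.1 x.2)) - 1)) + D.Err) := by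
          apply sum_le_sum
          intro x hx
          rw [hP2, mem_filter, mem_product] at hx
          exact D.pair l x.1 x.2 hx.1.1 hx.1.2
      _ = D.κ * (D.om l * D.MM l) ^ 2 * (#P2 + D.C2 ^ 2 * ∑ x ∈ P2, (Real.exp (e1 J D.z0 + (lam0 J + 2) * rho D.S (pos2 D.g x.1 x.2)) - 1)) + #P2 * D.Err := by
          rw [sum_add_distrib, ← mul_sum, sum_add_distrib, ← mul_sum, sum_const, sum_const, nsmul_eq_mul, nsmul_eq_mul, mul_one]
      _ ≤ _ := by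
          have h4 : (#P2 : ℝ) ≤ D.NR ^ 2 := by
            have : #P2 ≤ #(D.N ×ˢ D.N) := card_le_card (filter_subset _ _)
            rw [card_product] at this
            unfold NR
            rw [sq]
            exact_mod_cast this
          gcongr
  have h4 : ∑ x ∈ (D.N ×ˢ D.N).filter (fun x : ℕ × ℕ => ¬ dist (pos2 D.g x.1 x.2)), ∑ c ∈ cls D.A D.W D.c0, D.Z l x.1 c * D.Z l x.2 c ≤
      (4 * (Fintype.card J : ℝ) ^ 2 * D.d * D.M) * ((Vz D.z)⁻¹ ^ 2 * (D.κ * Real.exp (∑ t : D.S, 2 ^ (4 * Fintype.card J) * (9 / ((t : ℕ) : ℝ))) + D.Err)) := by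
    have hV : 0 < (Vz D.z)⁻¹ := inv_pos.2 (Vz_pos D.z)
    calc _ ≤ ∑ _x ∈ (D.N ×ˢ D.N).filter (fun x : ℕ × ℕ => ¬ dist (pos2 D.g x.1 x.2)), ((Vz D.z)⁻¹ ^ 2 * (D.κ * Real.exp (∑ t : D.S, 2 ^ (4 * Fintype.card J) * (9 / ((t : ℕ) : ℝ))) + D.Err)) :=
          sum_le_sum fun x _ => D.pair_crude l x.1 x.2
      _ = #((D.N ×ˢ D.N).filter (fun x : ℕ × ℕ => ¬ dist (pos2 D.g x.1 x.2))) * ((Vz D.z)⁻¹ ^ 2 * (D.κ * Real.exp (∑ t : D.S, 2 ^ (4 * Fintype.card J) * (9 / ((t : ℕ) : ℝ))) + D.Err)) := by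
          rw [sum_const, nsmul_eq_mul]
      _ ≤ _ := mul_le_mul_of_nonneg_right D.nd2 (by positivity)
  have hcr := D.hcr
  have hΘ := D.hΘ
  have hN2 : (#D.N : ℝ) = D.NR := rfl
  rw [hN2] at hcr
  have hCC : 1 ≤ D.C2 ^ 2 := one_le_pow₀ hC
  have hXle : 1 ≤ D.C2 ^ 2 * (D.om l * D.MM l) ^ 2 := by
    rw [← mul_pow]
    apply one_le_pow₀
    have h10 : 1 ≤ D.C2 * D.MM l := by
      have := mul_le_mul_of_nonneg_left hMM (by linarith : 0 ≤ D.C2)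
      rw [mul_one_div, div_self (by linarith)] at this
      exact this
    nlinarith
  have t1 : D.C2 ^ 2 * ((D.M : ℝ) ^ 2 * Tht J D.d D.z0 D.y0 D.Hm (lam0 J + 2)) ≤ D.θ * D.NR ^ 2 := by
    have hT0 : 0 ≤ Tht J D.d D.z0 D.y0 D.Hm (lam0 J + 2) := by
      unfold Tht
      rw [← hK0]
      have := lam_nonneg (J := J)
      have h8 : 1 ≤ Real.exp (4 * (lam0 J + 2) * (4 * (Fintype.card J : ℝ) ^ 2 * D.d) / D.z0) := Real.one_le_exp (by positivity)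
      have : 0 ≤ K0 * (4 * (Real.exp (4 * (lam0 J + 2) * (4 * (Fintype.card J : ℝ) ^ 2 * D.d) / D.z0) - 1)) :=
        mul_nonneg (by linarith) (by linarith)
      linarith
    calc D.C2 ^ 2 * ((D.M : ℝ) ^ 2 * Tht J D.d D.z0 D.y0 D.Hm (lam0 J + 2)) ≤ D.C2 ^ 2 * ((4 * D.NR) ^ 2 * Tht J D.d D.z0 D.y0 D.Hm (lam0 J + 2)) := by gcongr
      _ = (16 * D.C2 ^ 2 * Tht J D.d D.z0 D.y0 D.Hm (lam0 J + 2)) * D.NR ^ 2 := by ring
      _ ≤ _ := mul_le_mul_of_nonneg_right hΘ (by positivity)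
  have t2 : D.Err ≤ D.θ * D.κ * (D.om l * D.MM l) ^ 2 := by
    have hθκ : 0 ≤ D.θ * D.κ := mul_nonneg D.hθ0.le hκ
    have h12 : D.C2 ^ 2 * D.Err ≤ D.C2 ^ 2 * (D.θ * D.κ * (D.om l * D.MM l) ^ 2) := by
      calc D.C2 ^ 2 * D.Err ≤ D.θ * D.κ * 1 := by rw [mul_one]; exact D.hErr
        _ ≤ D.θ * D.κ * (D.C2 ^ 2 * (D.om l * D.MM l) ^ 2) := mul_le_mul_of_nonneg_left hXle hθκ
        _ = _ := by ring
    exact le_of_mul_le_mul_left h12 (by positivity)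
  have t3 : (4 * (Fintype.card J : ℝ) ^ 2 * D.d * D.M) * ((Vz D.z)⁻¹ ^ 2 * (D.κ * Real.exp (∑ t : D.S, 2 ^ (4 * Fintype.card J) * (9 / ((t : ℕ) : ℝ))) + D.Err)) ≤
      D.θ * D.κ * D.NR ^ 2 * (D.om l * D.MM l) ^ 2 := by
    have hθκ : 0 ≤ D.θ * D.κ * D.NR ^ 2 := mul_nonneg (mul_nonneg D.hθ0.le hκ) (sq_nonneg _)
    have h12 : D.C2 ^ 2 * ((4 * (Fintype.card J : ℝ) ^ 2 * D.d * D.M) * ((Vz D.z)⁻¹ ^ 2 * (D.κ * Real.exp (∑ t : D.S, 2 ^ (4 * Fintype.card J) * (9 / ((t : ℕ) : ℝ))) + D.Err))) ≤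
        D.C2 ^ 2 * (D.θ * D.κ * D.NR ^ 2 * (D.om l * D.MM l) ^ 2) := by
      calc _ ≤ D.θ * D.κ * D.NR ^ 2 * 1 := by rw [mul_one]; exact hcr
        _ ≤ D.θ * D.κ * D.NR ^ 2 * (D.C2 ^ 2 * (D.om l * D.MM l) ^ 2) := mul_le_mul_of_nonneg_left hXle hθκ
        _ = _ := by ring
    exact le_of_mul_le_mul_left h12 (by positivity)
  have t4 : D.κ * (D.om l * D.MM l) ^ 2 * (D.NR ^ 2 + D.C2 ^ 2 * ((D.M : ℝ) ^ 2 * Tht J D.d D.z0 D.y0 D.Hm (lam0 J + 2))) ≤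
      D.κ * (D.om l * D.MM l) ^ 2 * (D.NR ^ 2 + D.θ * D.NR ^ 2) := by
    apply mul_le_mul_of_nonneg_left _ (by positivity)
    linarith
  have t5 : D.NR ^ 2 * D.Err ≤ D.NR ^ 2 * (D.θ * D.κ * (D.om l * D.MM l) ^ 2) := mul_le_mul_of_nonneg_left t2 (sq_nonneg _)
  have t6 : D.κ * (D.XM l) ^ 2 * (1 + 3 * D.θ) = D.κ * (D.om l * D.MM l) ^ 2 * (D.NR ^ 2 + D.θ * D.NR ^ 2) + D.NR ^ 2 * (D.θ * D.κ * (D.om l * D.MM l) ^ 2) +
      D.θ * D.κ * D.NR ^ 2 * (D.om l * D.MM l) ^ 2 := by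
    unfold XM
    ring
  rw [t6]
  linarith

open Classical in
/-- concentration -/
theorem conc (l : Option J) :
    (#((cls D.A D.W D.c0).filter (fun c => D.XM l / 2 ≤ |D.SZ l c - D.XM l|)) : ℝ) ≤ 40 * D.θ * D.κ := by
  have hκ := D.κ_nonneg
  have hX := D.XM_pos l
  have h1 := D.first l
  have h2 := D.second l
  have h3 : (#(cls D.A D.W D.c0) : ℝ) ≤ D.κ * (1 + D.θ) := by
    have h4 := (abs_le.1 (card_cls_err D.A D.W D.c0 D.hW0 D.hc0)).2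
    have h5 := D.hκ1
    have h6 : D.κ = (D.A : ℝ) / D.W := rfl
    rw [← h6] at h4
    linarith
  have h4 : ∑ c ∈ cls D.A D.W D.c0, (D.SZ l c - D.XM l) ^ 2 ≤ 10 * D.θ * D.κ * (D.XM l) ^ 2 := by
    have e : ∑ c ∈ cls D.A D.W D.c0, (D.SZ l c - D.XM l) ^ 2 = ∑ c ∈ cls D.A D.W D.c0, (D.SZ l c) ^ 2 -
        2 * D.XM l * ∑ c ∈ cls D.A D.W D.c0, D.SZ l c + #(cls D.A D.W D.c0) * (D.XM l) ^ 2 := by
      rw [mul_sum, ← sum_sub_distrib, ← nsmul_eq_mul, ← sum_const, ← sum_add_distrib]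
      apply sum_congr rfl
      intro c _
      ring
    rw [e]
    have h5 := mul_le_mul_of_nonneg_left h1 (by linarith : 0 ≤ 2 * D.XM l)
    have h6 := mul_le_mul_of_nonneg_right h3 (sq_nonneg (D.XM l))
    calc _ ≤ D.κ * (D.XM l) ^ 2 * (1 + 3 * D.θ) - 2 * D.XM l * (D.κ * D.XM l * (1 - 3 * D.θ)) + D.κ * (1 + D.θ) * D.XM l ^ 2 := by linarith
      _ = _ := by ring
  have h5 : (#((cls D.A D.W D.c0).filter (fun c => D.XM l / 2 ≤ |D.SZ l c - D.XM l|)) : ℝ) * (D.XM l / 2) ^ 2 ≤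
      10 * D.θ * D.κ * (D.XM l) ^ 2 := by
    refine le_trans ?_ h4
    calc _ = ∑ c ∈ (cls D.A D.W D.c0).filter (fun c => D.XM l / 2 ≤ |D.SZ l c - D.XM l|), (D.XM l / 2) ^ 2 := by
          rw [sum_const, nsmul_eq_mul]
      _ ≤ ∑ c ∈ (cls D.A D.W D.c0).filter (fun c => D.XM l / 2 ≤ |D.SZ l c - D.XM l|), (D.SZ l c - D.XM l) ^ 2 := by
          apply sum_le_sum
          intro c hc
          rw [← sq_abs (D.SZ l c - D.XM l)]
          exact pow_le_pow_left₀ (by linarith) (mem_filter.1 hc).2 2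
      _ ≤ _ := sum_le_sum_of_subset_of_nonneg (filter_subset _ _) (fun _ _ _ => sq_nonneg _)
  have h6 : (#((cls D.A D.W D.c0).filter (fun c => D.XM l / 2 ≤ |D.SZ l c - D.XM l|)) : ℝ) * (D.XM l / 2) ^ 2 ≤
      (40 * D.θ * D.κ) * (D.XM l / 2) ^ 2 := by
    refine h5.trans (le_of_eq ?_)
    ring
  exact le_of_mul_le_mul_right h6 (by positivity)

end Sv

end Pool.Agent.H544.BC
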