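import Mathlib
import Pool.Agent.H544.BC.M9

/-!
Replacing the primes by the model in one slot.
-/

set_option autoImplicit false
set_option linter.unusedSectionVars false

namespace Pool.Agent.H544.BC
open Finset Polynomial
open Pool.Agent.H373R2.T7
open Pool.Agent.R498.MT (lz)
open Pool.Agent.H544.LD (cls Gz)
open Pool.Agent.N913.MT (Wb Wb_one_ge Yp expand TT TT_pos' TT_inj adm_of)

section sw
variable {J : Type} [Fintype J] [DecidableEq J]

/-- the local kernel -/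
noncomputable def kk (S : Finset ℕ) (g : J → ℤ[X]) (j0 : J) (p : ℕ) (n c : ℤ) : ℝ :=
  if p ∈ S then ∑ j ∈ univ.filter (fun j => j ≠ j0), |ch p (c + (g j).eval n)| else 0

lemma ch_sum_le (p : ℕ) (hp : 3 ≤ p) (d : ℕ) (v : ℕ → ℤ) (h : #((range p).filter (fun n : ℕ => (p : ℤ) ∣ v n)) ≤ d) :
    ∑ n ∈ range p, |ch p (v n)| ≤ (d : ℝ) + 2 := by
  have hp3 : (3 : ℝ) ≤ p := by exact_mod_cast hp
  refine (sum_le_sum fun n _ => (ch_abs p hp (v n)).2).trans ?_
  rw [sum_add_distrib, sum_const, card_range, nsmul_eq_mul, ← sum_filter, sum_const, nsmul_eq_mul, mul_one, mul_one_div]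
  have h1 : (p : ℝ) / (p - 1) ≤ 2 := by
    rw [div_le_iff₀ (by linarith)]; linarith
  have h2 : (#((range p).filter (fun n : ℕ => (p : ℤ) ∣ v n)) : ℝ) ≤ d := by exact_mod_cast h
  linarith

lemma kk_ker (S : Finset ℕ) (hS3 : ∀ p ∈ S, 3 ≤ p) (g : J → ℤ[X]) (d : ℕ) (hd : 1 ≤ d) (hg : Gp g d S) (j0 : J) (Cc Dd : ℕ) (hC : Fintype.card J * (d + 2) ≤ Cc) :
    Ker (g j0) Cc Dd (kk S g j0) := by
  have hC' : (Fintype.card J : ℝ) * ((d : ℝ) + 2) ≤ Cc := by exact_mod_cast hC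
  have hcard : ∀ (f : J → ℝ), (∀ j, j ≠ j0 → f j ≤ (d : ℝ) + 2) → ∑ j ∈ univ.filter (fun j => j ≠ j0), f j ≤ Cc := by
    intro f hf
    refine (sum_le_card_nsmul _ _ _ (fun j hj => hf j (mem_filter.1 hj).2)).trans ?_
    rw [nsmul_eq_mul]
    refine le_trans (mul_le_mul_of_nonneg_right ?_ (by positivity)) hC'
    have : #(univ.filter (fun j : J => j ≠ j0)) ≤ Fintype.card J := card_le_univ _
    exact_mod_cast this
  refine ⟨?_, ?_, ?_, ?_, ?_, ?_⟩
  · intro p n c
    unfold kk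
    split_ifs
    · exact sum_nonneg fun _ _ => abs_nonneg _
    · exact le_rfl
  · intro p c a b hab
    show kk S g j0 p a c = kk S g j0 p b c
    unfold kk
    split_ifs
    · apply sum_congr rfl
      intro j _
      rw [ch_per p (c + (g j).eval a) (c + (g j).eval b)]
      have e : c + (g j).eval a - (c + (g j).eval b) = (g j).eval a - (g j).eval b := by ring
      rw [e]
      exact hab.trans (Polynomial.sub_dvd_eval_sub _ _ _)
    · rfl
  · intro p n a b hab
    show kk S g j0 p n a = kk S g j0 p n b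
    unfold kk
    split_ifs
    · apply sum_congr rfl
      intro j _
      rw [ch_per p (a + (g j).eval n) (b + (g j).eval n)]
      have e : a + (g j).eval n - (b + (g j).eval n) = a - b := by ring
      rw [e]
      exact hab
    · rfl
  · intro p hp _ c
    unfold kk
    by_cases hpS : p ∈ S
    · simp only [if_pos hpS]
      rw [sum_comm]
      apply hcard
      intro j _
      apply ch_sum_le p (hS3 p hpS)
      have h1 := hg.r1 p hpS j c
      refine le_trans (le_of_eq ?_) h1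
      congr 1
      apply filter_congr
      intro n _
      rw [add_comm]
    · simp only [if_neg hpS, sum_const_zero]
      positivity
  · intro p hp _ n
    unfold kk
    by_cases hpS : p ∈ S
    · simp only [if_pos hpS]
      rw [sum_comm]
      apply hcard
      intro j _
      apply ch_sum_le p (hS3 p hpS)
      rw [one_root p hp.pos]
      exact hd
    · simp only [if_neg hpS, sum_const_zero]
      positivity
  · intro p hp _ l
    unfold kk
    by_cases hpS : p ∈ S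
    · simp only [if_pos hpS]
      rw [sum_comm]
      apply hcard
      intro j hj
      apply ch_sum_le p (hS3 p hpS)
      have h1 := hg.r2 p hpS j j0 hj l
      refine le_trans (le_of_eq ?_) h1
      congr 1
      apply filter_congr
      intro n _
      have e : l - (g j0).eval (n : ℤ) + (g j).eval (n : ℤ) = (g j).eval (n : ℤ) - (g j0).eval (n : ℤ) + l := by ring
      rw [e]
    · simp only [if_neg hpS, sum_const_zero]
      positivity

variable {S : Finset ℕ}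

/-- the primes in the other slots -/
def UF (j0 : J) (F : Fin 1 × Bool × J → Finset S) : Finset S := (univ.filter (fun τ : Fin 1 × Bool × J => τ.2.2 ≠ j0)).biUnion F

/-- the mass of the prime slot -/
noncomputable def mass (S : Finset ℕ) : ℝ := ∏ t : S, (1 + 1 / (((t : ℕ) : ℝ) - 1))

/-- the term of a system of sets -/
noncomputable def term (y : (J → Finset S) → ℝ) (g : J → ℤ[X]) (j0 : J) (F : Fin 1 × Bool × J → Finset S) (n c : ℤ) : ℝ :=
  Yp y F * ∏ τ : Fin 1 × Bool × J, ∏ t ∈ F τ, XX (some j0) τ.2.2 (t : ℕ) (c + (g τ.2.2).eval n)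

lemma Lm_sq (y : (J → Finset S) → ℝ) (g : J → ℤ[X]) (j0 : J) (n c : ℤ) :
    (Lm (some j0) y (pos1 g n) c) ^ 2 = ∑ F : Fin 1 × Bool × J → Finset S, term y g j0 F n c := by
  have h1 := expand (B := Fin 1) (fun _ j (A : Finset S) => ∏ t ∈ A, XX (some j0) j (t : ℕ) (c + (g j).eval n)) y
  simp only [univ_unique, prod_singleton] at h1
  unfold Lm pos1 term
  exact h1

/-- the function of one modulus -/
noncomputable def Ps (y : (J → Finset S) → ℝ) (g : J → ℤ[X]) (j0 : J) (T : Finset S) (n c : ℤ) : ℝ :=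
  (∑ F ∈ univ.filter (fun F : Fin 1 × Bool × J → Finset S => UF j0 F = T), term y g j0 F n c) /
    (mass S ^ 2 * ((4 : ℝ) ^ Fintype.card J) ^ (#T))

variable (hS3 : ∀ p ∈ S, 3 ≤ p)
include hS3

lemma nu_bd (t : S) : 0 ≤ 1 / (((t : ℕ) : ℝ) - 1) ∧ 1 / (((t : ℕ) : ℝ) - 1) ≤ 1 := by
  have : (3 : ℝ) ≤ (t : ℕ) := by exact_mod_cast hS3 t t.2
  constructor
  · apply div_nonneg zero_le_one; linarith
  · rw [div_le_one (by linarith)]; linarith

lemma mass_pos : 1 ≤ mass S := by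
  unfold mass
  apply Finset.one_le_prod
  intro t _
  have := (nu_bd hS3 t).1
  linarith

/-- the number of systems of sets -/
lemma Fsum (j0 : J) (T : Finset S) :
    ∑ F ∈ univ.filter (fun F : Fin 1 × Bool × J → Finset S => UF j0 F = T),
      ∏ τ : Fin 1 × Bool × J, (if τ.2.2 = j0 then ∏ t ∈ F τ, (1 / (((t : ℕ) : ℝ) - 1)) else 1) ≤ mass S ^ 2 * ((4 : ℝ) ^ Fintype.card J) ^ (#T) := by
  have h1 : ∀ F ∈ univ.filter (fun F : Fin 1 × Bool × J → Finset S => UF j0 F = T),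
      ∏ τ : Fin 1 × Bool × J, (if τ.2.2 = j0 then ∏ t ∈ F τ, (1 / (((t : ℕ) : ℝ) - 1)) else 1) ≤
      ∏ τ : Fin 1 × Bool × J, (fun (τ : Fin 1 × Bool × J) (A : Finset S) => (if τ.2.2 = j0 then ∏ t ∈ A, (1 / (((t : ℕ) : ℝ) - 1)) else (if A ⊆ T then (1 : ℝ) else 0))) τ (F τ) := by
    intro F hF
    have hF' := (mem_filter.1 hF).2
    apply le_of_eq
    apply prod_congr rfl
    intro τ _
    simp only
    split_ifs with h1 h2
    · rfl
    · rfl
    · exfalso
      apply h2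
      rw [← hF']
      unfold UF
      exact subset_biUnion_of_mem F (mem_filter.2 ⟨mem_univ _, h1⟩)
  have hnn : ∀ (τ : Fin 1 × Bool × J) (A : Finset S), 0 ≤ (if τ.2.2 = j0 then ∏ t ∈ A, (1 / (((t : ℕ) : ℝ) - 1)) else (if A ⊆ T then (1 : ℝ) else 0)) := by
    intro τ A
    split_ifs
    · exact prod_nonneg fun t _ => (nu_bd hS3 t).1
    · exact zero_le_one
    · exact le_rfl
  refine (sum_le_sum h1).trans ?_
  have h2 : ∑ F ∈ univ.filter (fun F : Fin 1 × Bool × J → Finset S => UF j0 F = T),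
      ∏ τ : Fin 1 × Bool × J, (fun (τ : Fin 1 × Bool × J) (A : Finset S) => (if τ.2.2 = j0 then ∏ t ∈ A, (1 / (((t : ℕ) : ℝ) - 1)) else (if A ⊆ T then (1 : ℝ) else 0))) τ (F τ) ≤
      ∑ F : Fin 1 × Bool × J → Finset S,
      ∏ τ : Fin 1 × Bool × J, (fun (τ : Fin 1 × Bool × J) (A : Finset S) => (if τ.2.2 = j0 then ∏ t ∈ A, (1 / (((t : ℕ) : ℝ) - 1)) else (if A ⊆ T then (1 : ℝ) else 0))) τ (F τ) := by
    apply sum_le_sum_of_subset_of_nonneg (filter_subset _ _)
    intro F _ _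
    exact prod_nonneg fun τ _ => hnn τ (F τ)
  refine h2.trans ?_
  have h3 : ∑ F : Fin 1 × Bool × J → Finset S,
      ∏ τ : Fin 1 × Bool × J, (fun (τ : Fin 1 × Bool × J) (A : Finset S) => (if τ.2.2 = j0 then ∏ t ∈ A, (1 / (((t : ℕ) : ℝ) - 1)) else (if A ⊆ T then (1 : ℝ) else 0))) τ (F τ) =
      ∏ τ : Fin 1 × Bool × J, ∑ A : Finset S, (if τ.2.2 = j0 then ∏ t ∈ A, (1 / (((t : ℕ) : ℝ) - 1)) else (if A ⊆ T then (1 : ℝ) else 0)) := by
    rw [Finset.prod_univ_sum, Fintype.piFinset_univ]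
  rw [h3]
  have h4 : ∀ τ : Fin 1 × Bool × J, ∑ A : Finset S, (if τ.2.2 = j0 then ∏ t ∈ A, (1 / (((t : ℕ) : ℝ) - 1)) else (if A ⊆ T then (1 : ℝ) else 0)) =
      (if τ.2.2 = j0 then mass S else 2 ^ (#T)) := by
    intro τ
    split_ifs with h
    · unfold mass
      rw [prod_one_add, powerset_univ]
    · rw [← sum_filter, sum_const, nsmul_eq_mul, mul_one]
      have : univ.filter (fun A : Finset S => A ⊆ T) = T.powerset := by
        ext A
        simp
      rw [this, card_powerset]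
      push_cast
      rfl
  rw [prod_congr rfl (fun τ _ => h4 τ)]
  rw [Fintype.prod_prod_type]
  simp only [univ_unique, prod_singleton]
  rw [Fintype.prod_prod_type, Fintype.prod_bool]
  have h5 : ∏ j : J, (if j = j0 then mass S else (2 : ℝ) ^ (#T)) ≤ mass S * ((2 : ℝ) ^ Fintype.card J) ^ (#T) := by
    have h6 : ∀ j : J, (if j = j0 then mass S else (2 : ℝ) ^ (#T)) ≤ (if j = j0 then mass S else 1) * 2 ^ (#T) := by
      intro j
      split_ifs
      · exact le_mul_of_one_le_right (by linarith [mass_pos hS3]) (one_le_pow₀ (by norm_num))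
      · rw [one_mul]
    have h7 : ∀ j ∈ (univ : Finset J), 0 ≤ (if j = j0 then mass S else (2 : ℝ) ^ (#T)) := by
      intro j _
      split_ifs
      · linarith [mass_pos hS3]
      · positivity
    refine (prod_le_prod h7 (fun j _ => h6 j)).trans (le_of_eq ?_)
    rw [prod_mul_distrib, prod_const, card_univ, ← pow_mul, ← pow_mul, mul_comm (#T)]
    congr 1
    rw [prod_ite_eq']
    simp
  have h8 : 0 ≤ ∏ j : J, (if j = j0 then mass S else (2 : ℝ) ^ (#T)) := by
    apply prod_nonneg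
    intro j _
    split_ifs
    · linarith [mass_pos hS3]
    · positivity
  calc _ ≤ (mass S * ((2 : ℝ) ^ Fintype.card J) ^ (#T)) * (mass S * ((2 : ℝ) ^ Fintype.card J) ^ (#T)) :=
        mul_le_mul h5 h5 h8 (by have := mass_pos hS3; positivity)
    _ = _ := by
      rw [show (4 : ℝ) = 2 * 2 by norm_num, mul_pow, mul_pow]
      ring

/-- the bound for a term -/
lemma term_le (y : (J → Finset S) → ℝ) (hy : ∀ f, |y f| ≤ 1) (g : J → ℤ[X]) (j0 : J) (F : Fin 1 × Bool × J → Finset S) (T : Finset S) (hF : UF j0 F = T) (n c : ℤ) :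
    |term y g j0 F n c| ≤ (∏ τ : Fin 1 × Bool × J, (if τ.2.2 = j0 then ∏ t ∈ F τ, (1 / (((t : ℕ) : ℝ) - 1)) else 1)) *
      ∏ t ∈ T, kk S g j0 (t : ℕ) n c := by
  unfold term
  rw [abs_mul, abs_prod]
  have h1 := Yp_bd y hy F
  have h2 : ∏ τ : Fin 1 × Bool × J, |∏ t ∈ F τ, XX (some j0) τ.2.2 (t : ℕ) (c + (g τ.2.2).eval n)| =
      (∏ τ : Fin 1 × Bool × J, (if τ.2.2 = j0 then ∏ t ∈ F τ, (1 / (((t : ℕ) : ℝ) - 1)) else 1)) *
      ∏ t ∈ T, ∏ τ ∈ univ.filter (fun τ : Fin 1 × Bool × J => τ.2.2 ≠ j0 ∧ t ∈ F τ), |ch (t : ℕ) (c + (g τ.2.2).eval n)| := by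
    have h3 : ∀ τ : Fin 1 × Bool × J, |∏ t ∈ F τ, XX (some j0) τ.2.2 (t : ℕ) (c + (g τ.2.2).eval n)| =
        (if τ.2.2 = j0 then ∏ t ∈ F τ, (1 / (((t : ℕ) : ℝ) - 1)) else 1) *
        ∏ t ∈ T, (if τ.2.2 ≠ j0 ∧ t ∈ F τ then |ch (t : ℕ) (c + (g τ.2.2).eval n)| else 1) := by
      intro τ
      rw [abs_prod]
      by_cases h : τ.2.2 = j0
      · rw [if_pos h]
        have h4 : ∏ t ∈ T, (if τ.2.2 ≠ j0 ∧ t ∈ F τ then |ch (t : ℕ) (c + (g τ.2.2).eval n)| else 1) = 1 := by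
          apply prod_eq_one
          intro t _
          rw [if_neg (fun h5 => h5.1 h)]
        rw [h4, mul_one]
        apply prod_congr rfl
        intro t _
        unfold XX
        rw [if_pos (by rw [h]), abs_of_nonneg (nu_bd hS3 t).1]
      · rw [if_neg h, one_mul]
        have hsub : F τ ⊆ T := by
          rw [← hF]
          unfold UF
          exact subset_biUnion_of_mem F (mem_filter.2 ⟨mem_univ _, h⟩)
        have h4 : ∏ t ∈ T, (if τ.2.2 ≠ j0 ∧ t ∈ F τ then |ch (t : ℕ) (c + (g τ.2.2).eval n)| else 1) =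
            ∏ t ∈ T, (if t ∈ F τ then |ch (t : ℕ) (c + (g τ.2.2).eval n)| else 1) := by
          apply prod_congr rfl
          intro t _
          simp [h]
        rw [h4, prod_ite_mem, inter_eq_right.2 hsub]
        apply prod_congr rfl
        intro t _
        unfold XX
        rw [if_neg (fun h5 => h (Option.some.inj h5).symm)]
    rw [prod_congr rfl (fun τ _ => h3 τ), prod_mul_distrib]
    congr 1
    rw [prod_comm]
    apply prod_congr rfl
    intro t _
    rw [prod_filter]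
  rw [h2]
  have h5 : ∏ t ∈ T, ∏ τ ∈ univ.filter (fun τ : Fin 1 × Bool × J => τ.2.2 ≠ j0 ∧ t ∈ F τ), |ch (t : ℕ) (c + (g τ.2.2).eval n)| ≤
      ∏ t ∈ T, kk S g j0 (t : ℕ) n c := by
    apply prod_le_prod
    · intro t _
      exact prod_nonneg fun _ _ => abs_nonneg _
    · intro t ht
      rw [← hF] at ht
      unfold UF at ht
      obtain ⟨τ, hτ, hτt⟩ := mem_biUnion.1 ht
      have hτ' := (mem_filter.1 hτ).2
      have hmem : τ ∈ univ.filter (fun τ : Fin 1 × Bool × J => τ.2.2 ≠ j0 ∧ t ∈ F τ) := mem_filter.2 ⟨mem_univ _, hτ', hτt⟩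
      rw [← mul_prod_erase _ _ hmem]
      have h6 : ∏ τ ∈ (univ.filter (fun τ : Fin 1 × Bool × J => τ.2.2 ≠ j0 ∧ t ∈ F τ)).erase τ, |ch (t : ℕ) (c + (g τ.2.2).eval n)| ≤ 1 :=
        prod_le_one (fun _ _ => abs_nonneg _) (fun τ _ => (ch_abs (t : ℕ) (hS3 t t.2) _).1)
      have h7 : |ch (t : ℕ) (c + (g τ.2.2).eval n)| ≤ kk S g j0 (t : ℕ) n c := by
        unfold kk
        rw [if_pos t.2]
        exact single_le_sum (f := fun j => |ch (t : ℕ) (c + (g j).eval n)|) (fun _ _ => abs_nonneg _) (mem_filter.2 ⟨mem_univ _, hτ'⟩)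
      calc _ ≤ |ch (t : ℕ) (c + (g τ.2.2).eval n)| * 1 := mul_le_mul_of_nonneg_left h6 (abs_nonneg _)
        _ ≤ _ := by rw [mul_one]; exact h7
  have h8 : 0 ≤ ∏ τ : Fin 1 × Bool × J, (if τ.2.2 = j0 then ∏ t ∈ F τ, (1 / (((t : ℕ) : ℝ) - 1)) else 1) := by
    apply prod_nonneg
    intro τ _
    split_ifs
    · exact prod_nonneg fun t _ => (nu_bd hS3 t).1
    · exact zero_le_one
  have h9 : 0 ≤ ∏ t ∈ T, ∏ τ ∈ univ.filter (fun τ : Fin 1 × Bool × J => τ.2.2 ≠ j0 ∧ t ∈ F τ), |ch (t : ℕ) (c + (g τ.2.2).eval n)| :=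
    prod_nonneg fun t _ => prod_nonneg fun _ _ => abs_nonneg _
  calc _ ≤ 1 * ((∏ τ : Fin 1 × Bool × J, (if τ.2.2 = j0 then ∏ t ∈ F τ, (1 / (((t : ℕ) : ℝ) - 1)) else 1)) *
      ∏ t ∈ T, ∏ τ ∈ univ.filter (fun τ : Fin 1 × Bool × J => τ.2.2 ≠ j0 ∧ t ∈ F τ), |ch (t : ℕ) (c + (g τ.2.2).eval n)|) :=
        mul_le_mul_of_nonneg_right h1 (by positivity)
    _ ≤ _ := by
        rw [one_mul]
        exact mul_le_mul_of_nonneg_left h5 h8

lemma Ps_le (y : (J → Finset S) → ℝ) (hy : ∀ f, |y f| ≤ 1) (g : J → ℤ[X]) (j0 : J) (T : Finset S) (n c : ℤ) :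
    |Ps y g j0 T n c| ≤ ∏ t ∈ T, kk S g j0 (t : ℕ) n c := by
  have hm := mass_pos hS3
  have hden : 0 < mass S ^ 2 * ((4 : ℝ) ^ Fintype.card J) ^ (#T) := by positivity
  have hkk : 0 ≤ ∏ t ∈ T, kk S g j0 (t : ℕ) n c := by
    apply prod_nonneg
    intro t _
    unfold kk
    split_ifs
    · exact sum_nonneg fun _ _ => abs_nonneg _
    · exact le_rfl
  unfold Ps
  rw [abs_div, abs_of_pos hden, div_le_iff₀ hden, mul_comm]
  refine (abs_sum_le_sum_abs _ _).trans ?_
  refine (sum_le_sum fun F hF => term_le hS3 y hy g j0 F T (mem_filter.1 hF).2 n c).trans ?_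
  rw [← sum_mul]
  exact mul_le_mul_of_nonneg_right (Fsum hS3 j0 T) hkk

end sw

end Pool.Agent.H544.BC
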