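import Mathlib
import Pool.Agent.H544.BC.M10

/-!
Replacing the primes by the model in one slot: the sum over the shifts.
-/

set_option autoImplicit false
set_option linter.unusedSectionVars false

namespace Pool.Agent.H544.BC
open Finset Polynomial
open Pool.Agent.H373R2.T7
open Pool.Agent.R498.MT (lz)
open Pool.Agent.H544.LD (cls Gz)
open Pool.Agent.N913.MT (Wb Wb_one_ge Yp expand TT TT_pos' TT_inj adm_of cop_TT TT_insert)

section sw
variable {J : Type} [Fintype J] [DecidableEq J] {S : Finset ℕ} (hS : ∀ p ∈ S, p.Prime)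
include hS

lemma TT_dvd (T : Finset S) (t : S) : (t : ℕ) ∣ TT T ↔ t ∈ T := by
  constructor
  · intro h1
    unfold TT at h1
    obtain ⟨s, hs, h2⟩ := (Prime.dvd_finsetProd_iff (hS t t.2).prime _).1 h1
    have h3 := (Nat.prime_dvd_prime_iff_eq (hS t t.2) (hS s s.2)).1 h2
    rwa [Subtype.ext h3]
  · intro h1
    unfold TT
    exact dvd_prod_of_mem (fun t : S => (t : ℕ)) h1

lemma TT_sqf (T : Finset S) : Squarefree (TT T) := by
  induction T using Finset.induction_on with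
  | empty => unfold TT; simp
  | insert t T ht ih =>
    have h1 := TT_insert T t ht 1
    rw [one_mul, one_mul] at h1
    rw [h1]
    have h2 := cop_TT hS 1 (fun p hp h => (hS p hp).one_lt.ne' (Nat.dvd_one.1 h)) T t ht
    rw [one_mul] at h2
    exact (Nat.squarefree_mul h2).2 ⟨ih, (hS t t.2).prime.squarefree⟩

lemma TT_pf (T : Finset S) : (TT T).primeFactors = T.image (fun t : S => (t : ℕ)) := by
  ext p
  rw [Nat.mem_primeFactors, mem_image]
  constructor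
  · rintro ⟨hp, hd, _⟩
    unfold TT at hd
    obtain ⟨s, hs, h2⟩ := (Prime.dvd_finsetProd_iff hp.prime _).1 hd
    exact ⟨s, hs, ((Nat.prime_dvd_prime_iff_eq hp (hS s s.2)).1 h2).symm⟩
  · rintro ⟨s, hs, rfl⟩
    exact ⟨hS s s.2, (TT_dvd hS T s).2 hs, by have := TT_pos' hS T; omega⟩

/-- the set of a modulus -/
def Tof (S : Finset ℕ) (e : ℕ) : Finset S := univ.filter (fun t : S => (t : ℕ) ∣ e)

lemma Tof_TT (T : Finset S) : Tof S (TT T) = T := by
  ext t
  unfold Tof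
  rw [mem_filter]
  constructor
  · rintro ⟨_, h⟩; exact (TT_dvd hS T t).1 h
  · intro h; exact ⟨mem_univ _, (TT_dvd hS T t).2 h⟩

lemma KK_TT (g : J → ℤ[X]) (j0 : J) (T : Finset S) (n c : ℤ) :
    KK (kk S g j0) (TT T) n c = ∏ t ∈ T, kk S g j0 (t : ℕ) n c := by
  unfold KK
  rw [TT_pf hS T, prod_image (fun a _ b _ h => Subtype.ext h)]

lemma Ps_per (y : (J → Finset S) → ℝ) (g : J → ℤ[X]) (j0 : J) (T : Finset S) (c : ℤ) : Per (TT T) (fun n => Ps y g j0 T n c) := by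
  intro a b hab
  show Ps y g j0 T a c = Ps y g j0 T b c
  unfold Ps
  congr 1
  apply sum_congr rfl
  intro F hF
  have hF' := (mem_filter.1 hF).2
  unfold term
  congr 1
  apply prod_congr rfl
  intro τ _
  apply prod_congr rfl
  intro t ht
  by_cases h : τ.2.2 = j0
  · unfold XX
    rw [if_pos (by rw [h]), if_pos (by rw [h])]
  · apply XX_per
    have h1 : t ∈ T := by
      rw [← hF']
      unfold UF
      exact mem_biUnion.2 ⟨τ, mem_filter.2 ⟨mem_univ _, h⟩, ht⟩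
    have h2 : ((t : ℕ) : ℤ) ∣ a - b := (Int.natCast_dvd_natCast.2 ((TT_dvd hS T t).2 h1)).trans hab
    have e : c + (g τ.2.2).eval a - (c + (g τ.2.2).eval b) = (g τ.2.2).eval a - (g τ.2.2).eval b := by ring
    rw [e]
    exact h2.trans (Polynomial.sub_dvd_eval_sub _ _ _)

/-- the expansion over the moduli -/
lemma Lm_Ps (hS3 : ∀ p ∈ S, 3 ≤ p) (R : ℕ) (hR : 1 ≤ R) (y : (J → Finset S) → ℝ)
    (hys : ∀ f, y f ≠ 0 → ∑ j, lz (fun t : S => Real.log ((t : ℕ) : ℝ)) (f j) < Real.log R) (g : J → ℤ[X]) (j0 : J) (n c : ℤ) :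
    (Lm (some j0) y (pos1 g n) c) ^ 2 = ∑ T ∈ univ.filter (fun T : Finset S => TT T ≤ R ^ 2),
      mass S ^ 2 * ((4 : ℝ) ^ Fintype.card J) ^ (#T) * Ps y g j0 T n c := by
  have hm := mass_pos hS3
  rw [Lm_sq]
  rw [← sum_fiberwise_of_maps_to (s := univ) (t := univ) (g := fun F : Fin 1 × Bool × J → Finset S => UF j0 F) (fun _ _ => mem_univ _)]
  have h1 : ∀ T : Finset S, mass S ^ 2 * ((4 : ℝ) ^ Fintype.card J) ^ (#T) * Ps y g j0 T n c =
      ∑ F ∈ univ.filter (fun F : Fin 1 × Bool × J → Finset S => UF j0 F = T), term y g j0 F n c := by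
    intro T
    unfold Ps
    have : mass S ^ 2 * ((4 : ℝ) ^ Fintype.card J) ^ (#T) ≠ 0 := by positivity
    field_simp
  rw [sum_congr rfl (fun T _ => h1 T), sum_filter]
  apply sum_congr rfl
  intro T _
  split_ifs with hT
  · rfl
  · apply sum_eq_zero
    intro F hF
    have hF' := (mem_filter.1 hF).2
    unfold term
    have h2 : Yp y F = 0 := by
      by_contra h3
      apply hT
      have h4 := adm_of (B := Fin 1) hS R hR y hys F h3
      simp only [Fintype.card_fin, mul_one] at h4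
      refine le_trans ?_ h4
      unfold TT
      apply Finset.prod_le_prod_of_subset_of_one_le'
      · rw [← hF']
        unfold UF
        exact biUnion_subset_biUnion_of_subset_left _ (filter_subset _ _)
      · intro t _ _
        exact (hS t t.2).one_lt.le
    rw [h2, zero_mul]

/-- primes against the model, weighted -/
theorem swapT (hS3 : ∀ p ∈ S, 3 ≤ p) (R : ℕ) (hR : 1 ≤ R) (y : (J → Finset S) → ℝ) (hy : ∀ f, |y f| ≤ 1)
    (hys : ∀ f, y f ≠ 0 → ∑ j, lz (fun t : S => Real.log ((t : ℕ) : ℝ)) (f j) < Real.log R) (g : J → ℤ[X]) (d : ℕ) (hd : 1 ≤ d) (hg : Gp g d S) (j0 : J)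
    (Cc Dd M A z y' : ℕ) (Δ : ℝ) (hCc1 : Fintype.card J * (d + 2) ≤ Cc) (hCc2 : 4 ^ Fintype.card J ≤ Cc)
    (hSD : ∀ p ∈ S, Dd < p ∧ ¬ p ∣ (g j0).natDegree * (g j0).leadingCoeff.natAbs)
    (hRM : (R ^ 2) ^ (8 * ((g j0).natDegree + 2)) ≤ M) (hRA : R ^ 2 ≤ A)
    (hL : ∀ k : ℕ → ℤ → ℤ → ℝ, Ker (g j0) Cc Dd k → ∀ 𝒮 : Finset ℕ, (∀ e ∈ 𝒮, Squarefree e ∧ (∀ p ∈ e.primeFactors, Dd < p ∧ ¬ p ∣ (g j0).natDegree * (g j0).leadingCoeff.natAbs) ∧
      e ^ (8 * ((g j0).natDegree + 2)) ≤ M ∧ e ≤ A) →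
      ∀ Ψ : ℕ → ℤ → ℤ → ℝ, (∀ e ∈ 𝒮, ∀ n c, |Ψ e n c| ≤ KK k e n c) → (∀ e ∈ 𝒮, ∀ c, Per e (fun n => Ψ e n c)) →
      ∑ e ∈ 𝒮, (Cc : ℝ) ^ #(e.primeFactors) * ∑ c ∈ Icc 1 A, |∑ n ∈ Icc 1 y', fpI z (c + (g j0).eval (n : ℤ)) * Ψ e n c| ≤ Δ) :
    ∑ c ∈ Icc 1 A, |∑ n ∈ Icc 1 y', fpI z (c + (g j0).eval (n : ℤ)) * (Lm (some j0) y (pos1 g n) c) ^ 2| ≤ mass S ^ 2 * Δ := by
  have hm := mass_pos hS3
  set 𝒯 := univ.filter (fun T : Finset S => TT T ≤ R ^ 2) with h𝒯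
  have h1 : ∀ c ∈ Icc 1 A, |∑ n ∈ Icc 1 y', fpI z (c + (g j0).eval (n : ℤ)) * (Lm (some j0) y (pos1 g n) c) ^ 2| ≤
      ∑ T ∈ 𝒯, mass S ^ 2 * ((Cc : ℝ) ^ (#T) * |∑ n ∈ Icc 1 y', fpI z (c + (g j0).eval (n : ℤ)) * Ps y g j0 T n c|) := by
    intro c _
    have h2 : ∑ n ∈ Icc 1 y', fpI z (c + (g j0).eval (n : ℤ)) * (Lm (some j0) y (pos1 g n) c) ^ 2 =
        ∑ T ∈ 𝒯, mass S ^ 2 * ((4 : ℝ) ^ Fintype.card J) ^ (#T) * ∑ n ∈ Icc 1 y', fpI z (c + (g j0).eval (n : ℤ)) * Ps y g j0 T n c := by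
      calc _ = ∑ n ∈ Icc 1 y', ∑ T ∈ 𝒯, fpI z (c + (g j0).eval (n : ℤ)) * (mass S ^ 2 * ((4 : ℝ) ^ Fintype.card J) ^ (#T) * Ps y g j0 T n c) := by
            apply sum_congr rfl
            intro n _
            rw [Lm_Ps hS hS3 R hR y hys g j0 n c, mul_sum]
        _ = ∑ T ∈ 𝒯, ∑ n ∈ Icc 1 y', fpI z (c + (g j0).eval (n : ℤ)) * (mass S ^ 2 * ((4 : ℝ) ^ Fintype.card J) ^ (#T) * Ps y g j0 T n c) := by
            rw [sum_comm]
        _ = _ := by
            apply sum_congr rfl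
            intro T _
            rw [mul_sum]
            apply sum_congr rfl
            intro n _
            ring
    rw [h2]
    refine (abs_sum_le_sum_abs _ _).trans ?_
    apply sum_le_sum
    intro T _
    rw [abs_mul, abs_of_nonneg (by positivity), mul_assoc]
    apply mul_le_mul_of_nonneg_left _ (by positivity)
    apply mul_le_mul_of_nonneg_right _ (abs_nonneg _)
    apply pow_le_pow_left₀ (by positivity)
    exact_mod_cast hCc2
  refine (sum_le_sum h1).trans ?_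
  rw [sum_comm]
  have h3 := hL (kk S g j0) (kk_ker S hS3 g d hd hg j0 Cc Dd hCc1) (𝒯.image (fun T => TT T)) (by
      intro e he
      rw [mem_image] at he
      obtain ⟨T, hT, rfl⟩ := he
      have hT' := (mem_filter.1 hT).2
      refine ⟨TT_sqf hS T, ?_, ?_, hT'.trans hRA⟩
      · intro p hp
        rw [TT_pf hS T, mem_image] at hp
        obtain ⟨t, _, rfl⟩ := hp
        exact hSD t t.2
      · exact (Nat.pow_le_pow_left hT' _).trans hRM) (fun e n c => Ps y g j0 (Tof S e) n c) (by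
      intro e he n c
      rw [mem_image] at he
      obtain ⟨T, hT, rfl⟩ := he
      rw [Tof_TT hS T, KK_TT hS g j0 T]
      exact Ps_le hS3 y hy g j0 T n c) (by
      intro e he c
      rw [mem_image] at he
      obtain ⟨T, hT, rfl⟩ := he
      rw [Tof_TT hS T]
      exact Ps_per hS y g j0 T c)
  rw [sum_image (fun T _ T' _ h => TT_inj hS h)] at h3
  calc _ = mass S ^ 2 * ∑ T ∈ 𝒯, (Cc : ℝ) ^ #((TT T).primeFactors) * ∑ c ∈ Icc 1 A, |∑ n ∈ Icc 1 y', fpI z (c + (g j0).eval (n : ℤ)) * Ps y g j0 (Tof S (TT T)) n c| := by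
        rw [mul_sum]
        apply sum_congr rfl
        intro T _
        rw [← mul_sum, ← mul_sum, Tof_TT hS T, TT_pf hS T, card_image_of_injective _ Subtype.val_injective]
    _ ≤ _ := mul_le_mul_of_nonneg_left h3 (by positivity)

end sw

end Pool.Agent.H544.BC
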