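import Mathlib
import Pool.Agent.H544.BC.M11

/-!
From the model to the primes, and the clusters.
-/

set_option autoImplicit false
set_option linter.unusedSectionVars false

namespace Pool.Agent.H544.BC
open Finset Polynomial
open Pool.Agent.H373R2.T7
open Pool.Agent.R498.MT (lz)
open Pool.Agent.H544.LD (cls Gz)
open Pool.Agent.N913.MT (Wb Wb_one_ge Yp expand TT TT_pos' TT_inj adm_of cop_TT TT_insert)

section lm
variable {J : Type} [Fintype J] [DecidableEq J] {S : Finset ℕ} (hS : ∀ p ∈ S, p.Prime) (hS3 : ∀ p ∈ S, 3 ≤ p)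
include hS hS3

/-- a crude bound for the weights -/
lemma Lm_bd (R : ℕ) (hR : 1 ≤ R) (y : (J → Finset S) → ℝ) (hy : ∀ f, |y f| ≤ 1)
    (hys : ∀ f, y f ≠ 0 → ∑ j, lz (fun t : S => Real.log ((t : ℕ) : ℝ)) (f j) < Real.log R) (l : Option J) (a : J → ℤ) (c : ℤ) :
    |Lm l y a c| ≤ R * mass S ^ Fintype.card J := by
  have hR0 : (0 : ℝ) < R := by exact_mod_cast hR
  have hν : ∀ t : S, 0 ≤ 1 / (((t : ℕ) : ℝ) - 1) := fun t => (nu_bd hS3 t).1
  have h1 : ∀ f : J → Finset S, |y f * ∏ j, ∏ t ∈ f j, XX l j (t : ℕ) (c + a j)| ≤ R * ∏ j, ∏ t ∈ f j, (1 / (((t : ℕ) : ℝ) - 1)) := by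
    intro f
    have hpr : 0 ≤ ∏ j, ∏ t ∈ f j, (1 / (((t : ℕ) : ℝ) - 1)) := prod_nonneg fun j _ => prod_nonneg fun t _ => hν t
    by_cases h : y f = 0
    · rw [h, zero_mul, abs_zero]
      positivity
    · have h2 := hys f h
      have h3 : |y f * ∏ j, ∏ t ∈ f j, XX l j (t : ℕ) (c + a j)| ≤ 1 := by
        rw [abs_mul, abs_prod]
        have h4 : ∏ j, |∏ t ∈ f j, XX l j (t : ℕ) (c + a j)| ≤ 1 := by
          apply prod_le_one (fun _ _ => abs_nonneg _)
          intro j _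
          rw [abs_prod]
          exact prod_le_one (fun _ _ => abs_nonneg _) (fun t _ => (XX_abs l j (t : ℕ) (hS3 t t.2) _).1)
        have h5 : 0 ≤ ∏ j, |∏ t ∈ f j, XX l j (t : ℕ) (c + a j)| := prod_nonneg fun _ _ => abs_nonneg _
        calc _ ≤ 1 * 1 := mul_le_mul (hy f) h4 h5 zero_le_one
          _ = 1 := one_mul 1
      refine h3.trans ?_
      have h6 : ∑ j, lz (fun t : S => Real.log ((t : ℕ) : ℝ)) (f j) = Real.log (∏ j, ∏ t ∈ f j, ((t : ℕ) : ℝ)) := by
        rw [Real.log_prod]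
        · apply sum_congr rfl
          intro j _
          rw [Real.log_prod]
          · rfl
          · intro t _
            have := (hS t t.2).pos
            positivity
        · intro j _
          apply (prod_pos _).ne'
          intro t _
          have := (hS t t.2).pos
          positivity
      rw [h6] at h2
      have h7 : 0 < ∏ j, ∏ t ∈ f j, ((t : ℕ) : ℝ) := by
        apply prod_pos
        intro j _
        apply prod_pos
        intro t _
        have := (hS t t.2).pos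
        positivity
      have h8 := (Real.log_lt_log_iff h7 hR0).1 h2
      have h9 : (∏ j, ∏ t ∈ f j, ((t : ℕ) : ℝ)) * ∏ j, ∏ t ∈ f j, (1 / (((t : ℕ) : ℝ) - 1)) ≥ 1 := by
        rw [← prod_mul_distrib]
        apply Finset.one_le_prod
        intro j _
        rw [← prod_mul_distrib]
        apply Finset.one_le_prod
        intro t _
        have ht : (3 : ℝ) ≤ (t : ℕ) := by exact_mod_cast hS3 t t.2
        rw [mul_one_div, le_div_iff₀ (by linarith)]
        linarith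
      calc (1 : ℝ) ≤ (∏ j, ∏ t ∈ f j, ((t : ℕ) : ℝ)) * ∏ j, ∏ t ∈ f j, (1 / (((t : ℕ) : ℝ) - 1)) := h9
        _ ≤ _ := mul_le_mul_of_nonneg_right h8.le hpr
  unfold Lm
  refine (abs_sum_le_sum_abs _ _).trans ((sum_le_sum fun f _ => h1 f).trans ?_)
  rw [← mul_sum]
  apply mul_le_mul_of_nonneg_left _ hR0.le
  apply le_of_eq
  have h2 : ∑ f : J → Finset S, ∏ j, ∏ t ∈ f j, (1 / (((t : ℕ) : ℝ) - 1)) = ∏ _j : J, ∑ A : Finset S, ∏ t ∈ A, (1 / (((t : ℕ) : ℝ) - 1)) := by
    rw [Finset.prod_univ_sum, Fintype.piFinset_univ]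
  rw [h2, prod_const, card_univ]
  congr 1
  unfold mass
  rw [prod_one_add, powerset_univ]

omit hS3 in
/-- at a large prime the slot is free -/
lemma Lm_prime (R : ℕ) (hSR : ∀ p ∈ S, p < R) (y : (J → Finset S) → ℝ) (g : J → ℤ[X]) (j0 : J) (n c : ℤ)
    (hp : (c + (g j0).eval n).toNat.Prime) (hR : (R : ℤ) ≤ c + (g j0).eval n) :
    Lm none y (pos1 g n) c = Lm (some j0) y (pos1 g n) c := by
  unfold Lm
  apply sum_congr rfl
  intro f _
  congr 1
  apply prod_congr rfl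
  intro j _
  apply prod_congr rfl
  intro t _
  unfold XX
  rw [if_neg (by simp)]
  by_cases hj : some j0 = some j
  · rw [if_pos hj]
    have hj' : j0 = j := Option.some.inj hj
    subst hj'
    unfold ch pos1
    rw [if_neg]
    intro h
    have h1 : 0 ≤ c + (g j0).eval n := by
      have : (0 : ℤ) ≤ R := by positivity
      linarith
    have h2 : (t : ℕ) ∣ (c + (g j0).eval n).toNat := by
      have h3 : (((c + (g j0).eval n).toNat : ℕ) : ℤ) = c + (g j0).eval n := Int.toNat_of_nonneg h1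
      rw [← h3] at h
      exact_mod_cast h
    rcases (Nat.dvd_prime hp).1 h2 with h3 | h3
    · exact (hS t t.2).one_lt.ne' h3
    · have h4 := hSR t t.2
      rw [h3] at h4
      omega
  · rw [if_neg hj]

end lm

/-- the primes in one slot -/
noncomputable def Sj {J : Type} [Fintype J] [DecidableEq J] (D : Sv J) (j : J) (c : ℕ) : ℝ :=
  ∑ n ∈ D.N, lamP (c + (D.g j).eval (n : ℤ)) * (Lm none D.y (pos1 D.g n) c) ^ 2

lemma lamP_nonneg (k : ℤ) : 0 ≤ lamP k := by
  unfold lamP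
  split_ifs
  · exact Real.log_natCast_nonneg _
  · exact le_rfl

section sv
variable {J : Type} [Fintype J] [DecidableEq J] (D : Sv J) (M1 : ℕ) (hM1 : M1 ≤ D.M) (hNM : D.N = Icc 1 D.M \ Icc 1 M1)
  (hRg : ∀ n ∈ D.N, ∀ j, (D.R : ℤ) ≤ (D.g j).eval (n : ℤ))

include hRg in
lemma Sj_eq (j : J) (c : ℕ) : Sj D j c - D.SZ (some j) c = ∑ n ∈ D.N, fpI D.z (c + (D.g j).eval (n : ℤ)) * (Lm (some j) D.y (pos1 D.g n) c) ^ 2 := by
  unfold Sj Sv.SZ Sv.Z
  rw [← sum_sub_distrib]
  apply sum_congr rfl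
  intro n hn
  rw [fpI_eq]
  have h1 : lamP (c + (D.g j).eval (n : ℤ)) * (Lm none D.y (pos1 D.g n) c) ^ 2 = lamP (c + (D.g j).eval (n : ℤ)) * (Lm (some j) D.y (pos1 D.g n) c) ^ 2 := by
    by_cases hp : ((c : ℤ) + (D.g j).eval (n : ℤ)).toNat.Prime
    · rw [Lm_prime D.hS D.R (fun p hp => (mem_Ico.1 (D.hSz hp)).2) D.y D.g j n c hp (by
        have := hRg n hn j
        have h0 : (0 : ℤ) ≤ c := by positivity
        linarith)]
    · unfold lamP
      rw [if_neg hp, zero_mul, zero_mul]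
  rw [h1]
  show _ - lamzI D.z (c + pos1 D.g n j) * _ = _
  unfold pos1
  ring

include hM1 hNM hRg in
/-- few shifts with a large difference -/
lemma swap_bad (j : J) (Δ : ℝ) (h : ∀ y' ∈ ({M1, D.M} : Finset ℕ), ∑ c ∈ Icc 1 D.A, |∑ n ∈ Icc 1 y', fpI D.z (c + (D.g j).eval (n : ℤ)) * (Lm (some j) D.y (pos1 D.g n) c) ^ 2| ≤ Δ)
    (hsw : 32 * D.C2 * Δ ≤ D.θ * D.κ * D.M) :
    (#((cls D.A D.W D.c0).filter (fun c => D.XM (some j) / 4 ≤ |Sj D j c - D.SZ (some j) c|)) : ℝ) ≤ D.θ * D.κ := by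
  have hX := D.XM_pos (some j)
  have hC := D.hC21
  have hMp := D.M_pos
  have h1 : ∑ c ∈ Icc 1 D.A, |Sj D j c - D.SZ (some j) c| ≤ 2 * Δ := by
    have h2 : ∀ c ∈ Icc 1 D.A, |Sj D j c - D.SZ (some j) c| ≤
        |∑ n ∈ Icc 1 D.M, fpI D.z (c + (D.g j).eval (n : ℤ)) * (Lm (some j) D.y (pos1 D.g n) c) ^ 2| +
        |∑ n ∈ Icc 1 M1, fpI D.z (c + (D.g j).eval (n : ℤ)) * (Lm (some j) D.y (pos1 D.g n) c) ^ 2| := by
      intro c _
      rw [Sj_eq D hRg j c, hNM]
      have h3 := sum_sdiff (f := fun n : ℕ => fpI D.z (c + (D.g j).eval (n : ℤ)) * (Lm (some j) D.y (pos1 D.g n) c) ^ 2) (Icc_subset_Icc_right (a := 1) hM1)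
      have h4 : ∑ n ∈ Icc 1 D.M \ Icc 1 M1, fpI D.z (c + (D.g j).eval (n : ℤ)) * (Lm (some j) D.y (pos1 D.g n) c) ^ 2 =
        ∑ n ∈ Icc 1 D.M, fpI D.z (c + (D.g j).eval (n : ℤ)) * (Lm (some j) D.y (pos1 D.g n) c) ^ 2 -
        ∑ n ∈ Icc 1 M1, fpI D.z (c + (D.g j).eval (n : ℤ)) * (Lm (some j) D.y (pos1 D.g n) c) ^ 2 := by linarith
      rw [h4]
      exact abs_sub _ _
    refine (sum_le_sum h2).trans ?_
    rw [sum_add_distrib]
    have h3 := h D.M (by simp)
    have h4 := h M1 (by simp)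
    linarith
  have h2 : (#((cls D.A D.W D.c0).filter (fun c => D.XM (some j) / 4 ≤ |Sj D j c - D.SZ (some j) c|)) : ℝ) * (D.XM (some j) / 4) ≤ 2 * Δ := by
    refine le_trans ?_ h1
    rw [← nsmul_eq_mul]
    refine (card_nsmul_le_sum _ (fun c : ℕ => |Sj D j c - D.SZ (some j) c|) _ (fun c hc => (mem_filter.1 hc).2)).trans ?_
    apply sum_le_sum_of_subset_of_nonneg
    · intro c hc
      have := (mem_filter.1 hc).1
      unfold cls at this
      exact (mem_filter.1 this).1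
    · intro _ _ _
      exact abs_nonneg _
  have h3 : (D.M : ℝ) ≤ 4 * D.C2 * D.XM (some j) := by
    have h4 := D.MM_ge (some j)
    have h5 := D.om_ge (some j)
    have h6 := D.hMN
    have h7 : 1 ≤ D.C2 * (D.om (some j) * D.MM (some j)) := by
      have h10 : 1 ≤ D.C2 * D.MM (some j) := by
        have := mul_le_mul_of_nonneg_left h4 (by linarith : 0 ≤ D.C2)
        rw [mul_one_div, div_self (by linarith)] at this
        exact this
      nlinarith
    have h8 : (D.M : ℝ) ≤ 4 * D.NR := h6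
    have h9 := D.NR_pos
    calc (D.M : ℝ) ≤ 4 * D.NR * 1 := by linarith
      _ ≤ 4 * D.NR * (D.C2 * (D.om (some j) * D.MM (some j))) := mul_le_mul_of_nonneg_left h7 (by positivity)
      _ = _ := by unfold Sv.XM; ring
  have hκ := D.κ_nonneg
  have hθ := D.hθ0
  have h4 : (#((cls D.A D.W D.c0).filter (fun c => D.XM (some j) / 4 ≤ |Sj D j c - D.SZ (some j) c|)) : ℝ) * D.XM (some j) ≤ D.θ * D.κ * D.XM (some j) := by
    have h5 : D.θ * D.κ * D.M ≤ D.θ * D.κ * (4 * D.C2 * D.XM (some j)) := mul_le_mul_of_nonneg_left h3 (by positivity)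
    have h6 : 4 * D.C2 * (8 * Δ) ≤ 4 * D.C2 * (D.θ * D.κ * D.XM (some j)) := by
      calc _ = 32 * D.C2 * Δ := by ring
        _ ≤ _ := hsw
        _ ≤ _ := h5
        _ = _ := by ring
    have h7 := le_of_mul_le_mul_left h6 (by linarith)
    linarith
  exact le_of_mul_le_mul_right h4 hX

/-- the shifts without exceptional behaviour -/
theorem good_shifts (hbad : ∀ j, (#((cls D.A D.W D.c0).filter (fun c => D.XM (some j) / 4 ≤ |Sj D j c - D.SZ (some j) c|)) : ℝ) ≤ D.θ * D.κ) :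
    ∃ B ⊆ cls D.A D.W D.c0, (#B : ℝ) ≤ 41 * (Fintype.card J + 1) * D.θ * D.κ ∧ ∀ c ∈ cls D.A D.W D.c0, c ∉ B →
      D.SZ none c ≤ 3 / 2 * D.XM none ∧ ∀ j, D.XM (some j) / 4 ≤ Sj D j c := by
  classical
  set B1 : Option J → Finset ℕ := fun l => (cls D.A D.W D.c0).filter (fun c => D.XM l / 2 ≤ |D.SZ l c - D.XM l|) with hB1
  set B2 : J → Finset ℕ := fun j => (cls D.A D.W D.c0).filter (fun c => D.XM (some j) / 4 ≤ |Sj D j c - D.SZ (some j) c|) with hB2
  refine ⟨univ.biUnion B1 ∪ univ.biUnion B2, ?_, ?_, ?_⟩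
  · apply union_subset
    · rw [biUnion_subset]
      intro l _
      exact filter_subset _ _
    · rw [biUnion_subset]
      intro l _
      exact filter_subset _ _
  · have h1 : (#(univ.biUnion B1) : ℝ) ≤ (Fintype.card J + 1) * (40 * D.θ * D.κ) := by
      have h2 : (#(univ.biUnion B1) : ℝ) ≤ ∑ l, (#(B1 l) : ℝ) := by exact_mod_cast card_biUnion_le
      refine h2.trans ((sum_le_sum fun l _ => D.conc l).trans ?_)
      rw [sum_const, card_univ, Fintype.card_option, nsmul_eq_mul]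
      push_cast
      exact le_rfl
    have h2 : (#(univ.biUnion B2) : ℝ) ≤ (Fintype.card J) * (D.θ * D.κ) := by
      have h2 : (#(univ.biUnion B2) : ℝ) ≤ ∑ l, (#(B2 l) : ℝ) := by exact_mod_cast card_biUnion_le
      refine h2.trans ((sum_le_sum fun l _ => hbad l).trans ?_)
      rw [sum_const, card_univ, nsmul_eq_mul]
    have h3 : (#(univ.biUnion B1 ∪ univ.biUnion B2) : ℝ) ≤ #(univ.biUnion B1) + #(univ.biUnion B2) := by exact_mod_cast card_union_le _ _
    have h4 : 0 ≤ D.θ * D.κ := mul_nonneg D.hθ0.le D.κ_nonneg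
    nlinarith
  · intro c hc hcB
    rw [mem_union, not_or] at hcB
    have h1 : ∀ l, |D.SZ l c - D.XM l| < D.XM l / 2 := by
      intro l
      by_contra h
      apply hcB.1
      rw [mem_biUnion]
      exact ⟨l, mem_univ _, mem_filter.2 ⟨hc, not_lt.1 h⟩⟩
    have h2 : ∀ j, |Sj D j c - D.SZ (some j) c| < D.XM (some j) / 4 := by
      intro j
      by_contra h
      apply hcB.2
      rw [mem_biUnion]
      exact ⟨j, mem_univ _, mem_filter.2 ⟨hc, not_lt.1 h⟩⟩
    constructor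
    · have := (abs_lt.1 (h1 none)).2
      linarith
    · intro j
      have h3 := (abs_lt.1 (h1 (some j))).1
      have h4 := (abs_lt.1 (h2 j)).1
      linarith

/-- the good arguments -/
def GG (g : J → ℤ[X]) (N : Finset ℕ) (m : ℕ) (c : ℕ) : Finset ℕ :=
  N.filter (fun n : ℕ => m ≤ #(univ.filter (fun j => ((c : ℤ) + (g j).eval (n : ℤ)).toNat.Prime)))

/-- many arguments -/
theorem cluster (m : ℕ) (hm : 1 ≤ m) (c : ℕ) (LH : ℝ) (hLH0 : 0 < LH) (hLH : ∀ n ∈ D.N, ∀ j, Real.log (((c : ℤ) + (D.g j).eval (n : ℤ)).toNat) ≤ LH)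
    (hcond : 12 * m * LH * D.MM none ≤ (D.W : ℝ) / Nat.totient D.W * ∑ j, D.MM (some j))
    (h1 : D.SZ none c ≤ 3 / 2 * D.XM none) (h2 : ∀ j, D.XM (some j) / 4 ≤ Sj D j c) (hJ : 1 ≤ Fintype.card J) :
    (D.M : ℝ) ≤ 4 * D.C2 * Fintype.card J * ((D.R : ℝ) ^ 2 * mass D.S ^ (2 * Fintype.card J)) * #(GG D.g D.N m c) := by
  classical
  have hC := D.hC21
  have hNR := D.NR_pos
  have hMM := D.MM_pos none
  have hmass := mass_pos (S := D.S) D.hS3
  have hm1 : (1 : ℝ) ≤ m := by exact_mod_cast hm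
  have hJ1 : (1 : ℝ) ≤ Fintype.card J := by exact_mod_cast hJ
  set Q : ℕ → ℝ := fun n => (Lm none D.y (pos1 D.g n) c) ^ 2 with hQ
  have hQ0 : ∀ n, 0 ≤ Q n := fun n => sq_nonneg _
  have hQ1 : ∀ n, Q n ≤ (D.R : ℝ) ^ 2 * mass D.S ^ (2 * Fintype.card J) := by
    intro n
    have h3 := Lm_bd D.hS D.hS3 D.R D.hR1 D.y D.hy1 D.hys none (pos1 D.g n) c
    rw [hQ]
    simp only
    rw [← sq_abs]
    calc _ ≤ (D.R * mass D.S ^ Fintype.card J) ^ 2 := pow_le_pow_left₀ (abs_nonneg _) h3 2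
      _ = _ := by rw [mul_pow, ← pow_mul, mul_comm 2]
  have hs1 : D.SZ none c = ∑ n ∈ D.N, Q n := by
    unfold Sv.SZ Sv.Z mw
    apply sum_congr rfl
    intro n _
    rw [one_mul]
  have hs2 : ∑ j, Sj D j c = ∑ n ∈ D.N, (∑ j, lamP (c + (D.g j).eval (n : ℤ))) * Q n := by
    unfold Sj
    rw [sum_comm]
    apply sum_congr rfl
    intro n _
    rw [sum_mul]
  have hlam : ∀ n ∈ D.N, ∑ j, lamP ((c : ℤ) + (D.g j).eval (n : ℤ)) ≤ #(univ.filter (fun j => ((c : ℤ) + (D.g j).eval (n : ℤ)).toNat.Prime)) * LH := by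
    intro n hn
    have h3 : ∑ j, lamP ((c : ℤ) + (D.g j).eval (n : ℤ)) = ∑ j ∈ univ.filter (fun j => ((c : ℤ) + (D.g j).eval (n : ℤ)).toNat.Prime), Real.log (((c : ℤ) + (D.g j).eval (n : ℤ)).toNat) := by
      rw [sum_filter]
      rfl
    rw [h3, ← nsmul_eq_mul]
    exact sum_le_card_nsmul _ _ _ (fun j _ => hLH n hn j)
  have hup : ∑ j, Sj D j c ≤ m * LH * D.SZ none c + Fintype.card J * LH * ∑ n ∈ GG D.g D.N m c, Q n := by
    rw [hs2, hs1]
    have h3 : ∑ n ∈ D.N, (∑ j, lamP ((c : ℤ) + (D.g j).eval (n : ℤ))) * Q n ≤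
        ∑ n ∈ D.N, (m * LH * Q n + (if n ∈ GG D.g D.N m c then Fintype.card J * LH * Q n else 0)) := by
      apply sum_le_sum
      intro n hn
      have h4 := hlam n hn
      split_ifs with h5
      · have h6 : (#(univ.filter (fun j => ((c : ℤ) + (D.g j).eval (n : ℤ)).toNat.Prime)) : ℝ) ≤ Fintype.card J := by
          exact_mod_cast card_le_univ _
        have h7 : ∑ j, lamP ((c : ℤ) + (D.g j).eval (n : ℤ)) ≤ Fintype.card J * LH := h4.trans (mul_le_mul_of_nonneg_right h6 hLH0.le)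
        have h8 := mul_le_mul_of_nonneg_right h7 (hQ0 n)
        have h9 : 0 ≤ m * LH * Q n := mul_nonneg (by positivity) (hQ0 n)
        linarith
      · have h6 : #(univ.filter (fun j => ((c : ℤ) + (D.g j).eval (n : ℤ)).toNat.Prime)) ≤ m := by
          by_contra h7
          apply h5
          unfold GG
          rw [mem_filter]
          exact ⟨hn, by omega⟩
        have h7 : (#(univ.filter (fun j => ((c : ℤ) + (D.g j).eval (n : ℤ)).toNat.Prime)) : ℝ) ≤ m := by exact_mod_cast h6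
        have h8 : ∑ j, lamP ((c : ℤ) + (D.g j).eval (n : ℤ)) ≤ m * LH := h4.trans (mul_le_mul_of_nonneg_right h7 hLH0.le)
        have h9 := mul_le_mul_of_nonneg_right h8 (hQ0 n)
        linarith
    refine h3.trans (le_of_eq ?_)
    rw [sum_add_distrib, ← mul_sum, mul_sum (GG D.g D.N m c)]
    congr 1
    rw [← sum_filter]
    congr 1
    ext n
    rw [mem_filter]
    constructor
    · exact fun h => h.2
    · exact fun h => ⟨(mem_filter.1 h).1, h⟩
  have hlow : 3 * m * LH * D.XM none ≤ ∑ j, Sj D j c := by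
    have h3 : ∑ j, D.XM (some j) / 4 ≤ ∑ j, Sj D j c := sum_le_sum fun j _ => h2 j
    refine le_trans ?_ h3
    have h4 : ∑ j, D.XM (some j) / 4 = D.NR / 4 * ((D.W : ℝ) / Nat.totient D.W * ∑ j, D.MM (some j)) := by
      rw [mul_sum, mul_sum]
      apply sum_congr rfl
      intro j _
      unfold Sv.XM
      show D.NR * ((D.W : ℝ) / Nat.totient D.W * D.MM (some j)) / 4 = _
      ring
    rw [h4]
    calc 3 * m * LH * D.XM none = D.NR / 4 * (12 * m * LH * D.MM none) := by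
          unfold Sv.XM
          show 3 * m * LH * (D.NR * (1 * D.MM none)) = _
          ring
      _ ≤ _ := mul_le_mul_of_nonneg_left hcond (by positivity)
  have hXn : D.NR ≤ D.C2 * D.XM none := by
    have h4 := D.MM_ge none
    have h10 : 1 ≤ D.C2 * D.MM none := by
      have := mul_le_mul_of_nonneg_left h4 (by linarith : 0 ≤ D.C2)
      rw [mul_one_div, div_self (by linarith)] at this
      exact this
    calc D.NR = D.NR * 1 := by ring
      _ ≤ D.NR * (D.C2 * D.MM none) := mul_le_mul_of_nonneg_left h10 hNR.le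
      _ = _ := by
        unfold Sv.XM
        show _ = D.C2 * (D.NR * (1 * D.MM none))
        ring
  have hfin : D.XM none ≤ Fintype.card J * ∑ n ∈ GG D.g D.N m c, Q n := by
    have h3 : m * LH * D.SZ none c ≤ m * LH * (3 / 2 * D.XM none) := mul_le_mul_of_nonneg_left h1 (by positivity)
    have h4 : 3 / 2 * m * LH * D.XM none ≤ Fintype.card J * LH * ∑ n ∈ GG D.g D.N m c, Q n := by linarith
    have h5 : LH * D.XM none ≤ LH * (Fintype.card J * ∑ n ∈ GG D.g D.N m c, Q n) := by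
      have h6 : LH * D.XM none ≤ 3 / 2 * m * LH * D.XM none := by
        have h7 : 0 ≤ LH * D.XM none := by have := D.XM_pos none; positivity
        nlinarith
      linarith
    exact le_of_mul_le_mul_left h5 hLH0
  have hQs : ∑ n ∈ GG D.g D.N m c, Q n ≤ ((D.R : ℝ) ^ 2 * mass D.S ^ (2 * Fintype.card J)) * #(GG D.g D.N m c) := by
    refine (sum_le_card_nsmul _ _ _ (fun n _ => hQ1 n)).trans (le_of_eq ?_)
    rw [nsmul_eq_mul, mul_comm]
  have hMN : (D.M : ℝ) ≤ 4 * D.NR := D.hMN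
  calc (D.M : ℝ) ≤ 4 * D.NR := hMN
    _ ≤ 4 * (D.C2 * D.XM none) := by linarith
    _ ≤ 4 * (D.C2 * (Fintype.card J * (((D.R : ℝ) ^ 2 * mass D.S ^ (2 * Fintype.card J)) * #(GG D.g D.N m c)))) := by
        have : D.XM none ≤ Fintype.card J * (((D.R : ℝ) ^ 2 * mass D.S ^ (2 * Fintype.card J)) * #(GG D.g D.N m c)) :=
          hfin.trans (mul_le_mul_of_nonneg_left hQs (by positivity))
        have := mul_le_mul_of_nonneg_left this (by linarith : 0 ≤ D.C2)
        linarith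
    _ = _ := by ring

end sv

end Pool.Agent.H544.BC
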