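import Mathlib
import Pool.Agent.H544.BC.M12
import Pool.Graph.R_pool_sql_team_seeded_63374d34.N913.MT.F10

/-!
Choice of parameters: auxiliary estimates.
-/

set_option autoImplicit false
set_option linter.unusedSectionVars false

namespace Pool.Agent.H544.BC
open Finset Polynomial
open Pool.Agent.H373R2.T7
open Pool.Agent.R498.MT (lz)
open Pool.Agent.H544.LD (cls Gz)
open Pool.Agent.N913.MT (evt_log_ge evt_log_pow)

/-- the sieve parameter -/
lemma bch (C1 E W : ℕ) (a : ℝ) (ha : 0 < a) : ∃ N0 : ℕ, ∀ N : ℕ, N0 ≤ N → ∃ b : ℕ, C1 ≤ b ∧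
    (1 / 2 : ℝ) ^ b ≤ 1 / Real.log N ^ W ∧ ∀ z : ℕ, (z : ℝ) ≤ Real.log N ^ E → (z : ℝ) ^ (C1 * b) ≤ (N : ℝ) ^ a := by
  obtain ⟨Dd, hDd⟩ : ∃ Dd : ℝ, Dd = (E : ℝ) * C1 * (C1 + 2 * W + 1) := ⟨_, rfl⟩
  have hD0 : 0 ≤ Dd := by rw [hDd]; positivity
  have hlim : Filter.Tendsto (fun N : ℕ => Real.log (N : ℝ)) Filter.atTop Filter.atTop :=
    Real.tendsto_log_atTop.comp (tendsto_natCast_atTop_atTop (R := ℝ))
  have h2 : ∀ᶠ N : ℕ in Filter.atTop, Dd * Real.log (Real.log N) ^ 2 ≤ a * Real.log N := by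
    have h3 := (Real.isLittleO_pow_log_id_atTop (n := 2)).bound (show (0 : ℝ) < a / (Dd + 1) by positivity)
    have h4 := hlim.eventually h3
    filter_upwards [h4, hlim.eventually_ge_atTop 1] with N h5 h6
    simp only [Function.comp, id] at h5
    rw [Real.norm_eq_abs, Real.norm_eq_abs, abs_of_nonneg (sq_nonneg _), abs_of_nonneg (by linarith : (0 : ℝ) ≤ Real.log N)] at h5
    calc Dd * Real.log (Real.log N) ^ 2 ≤ (Dd + 1) * Real.log (Real.log N) ^ 2 := by
          have := sq_nonneg (Real.log (Real.log N))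
          nlinarith
      _ ≤ (Dd + 1) * (a / (Dd + 1) * Real.log N) := mul_le_mul_of_nonneg_left h5 (by positivity)
      _ = _ := by field_simp
  obtain ⟨N0, hN0⟩ := Filter.eventually_atTop.1 (h2.and (hlim.eventually_ge_atTop (Real.exp 1)))
  refine ⟨max N0 1, fun N hN => ?_⟩
  obtain ⟨g1, g2⟩ := hN0 N ((le_max_left _ _).trans hN)
  have hN1 : (0 : ℝ) < N := by exact_mod_cast (by omega : 0 < N)
  set L := Real.log N with hL
  set ℓ := Real.log L with hℓ
  have he := Real.exp_one_gt_d9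
  have hL0 : 0 < L := by linarith
  have hL1 : 1 ≤ L := by linarith
  have hℓ1 : 1 ≤ ℓ := by
    rw [hℓ, Real.le_log_iff_exp_le hL0]; exact g2
  have hLe : ∀ n : ℕ, L ^ n = Real.exp (n * ℓ) := by
    intro n
    rw [mul_comm, Real.exp_mul, Real.exp_log hL0, Real.rpow_natCast]
  obtain ⟨b, hb⟩ : ∃ b : ℕ, b = C1 + ⌈2 * W * ℓ⌉₊ := ⟨_, rfl⟩
  have hbC : C1 ≤ b := by omega
  have hceil := Nat.ceil_lt_add_one (by positivity : 0 ≤ 2 * (W : ℝ) * ℓ)
  have hbup : (b : ℝ) ≤ (C1 + 2 * W + 1) * ℓ := by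
    rw [hb]
    push_cast
    have h6 : (C1 : ℝ) ≤ C1 * ℓ := le_mul_of_one_le_right (Nat.cast_nonneg _) hℓ1
    nlinarith
  have hblow : 2 * (W : ℝ) * ℓ ≤ b := by
    rw [hb]
    push_cast
    have := Nat.le_ceil (2 * (W : ℝ) * ℓ)
    have h6 : (0 : ℝ) ≤ C1 := Nat.cast_nonneg _
    linarith
  refine ⟨b, hbC, ?_, ?_⟩
  · rw [one_div_pow]
    apply one_div_le_one_div_of_le (by positivity)
    rw [hLe, show (2 : ℝ) ^ b = Real.exp (b * Real.log 2) by
      rw [mul_comm, Real.exp_mul, Real.exp_log (by norm_num), Real.rpow_natCast]]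
    apply Real.exp_le_exp.2
    have h6 := Real.log_two_gt_d9
    have h7 : (0 : ℝ) ≤ b := Nat.cast_nonneg _
    nlinarith
  · intro z hz
    calc (z : ℝ) ^ (C1 * b) ≤ (L ^ E) ^ (C1 * b) := pow_le_pow_left₀ (Nat.cast_nonneg _) hz _
      _ = Real.exp ((E * (C1 * b) : ℕ) * ℓ) := by rw [← pow_mul, hLe]
      _ ≤ Real.exp (a * L) := by
          apply Real.exp_le_exp.2
          push_cast
          have h7 : (E : ℝ) * C1 * ℓ * b ≤ E * C1 * ℓ * ((C1 + 2 * W + 1) * ℓ) := mul_le_mul_of_nonneg_left hbup (by positivity)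
          calc (E : ℝ) * (C1 * b) * ℓ = E * C1 * ℓ * b := by ring
            _ ≤ _ := h7
            _ = Dd * ℓ ^ 2 := by rw [hDd]; ring
            _ ≤ _ := g1
      _ = (N : ℝ) ^ a := by
          rw [Real.rpow_def_of_pos hN1, mul_comm]

/-- the error of the pairs is small -/
lemma tht_small (J : Type) [Fintype J] (d : ℕ) (lam τ : ℝ) (hlam : 0 ≤ lam) (hτ : 0 < τ) : ∃ z1 : ℕ, 1 ≤ z1 ∧ ∀ z0 : ℕ, z1 ≤ z0 → ∀ y0 Hm : ℕ,
    lam * (4 * (Fintype.card J : ℝ) ^ 2 * (Real.log Hm / Real.log y0) / y0) ≤ 1 / (z0 : ℝ) → Tht J d z0 y0 Hm lam ≤ τ := by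
  obtain ⟨a1, ha1⟩ : ∃ a1 : ℝ, a1 = 2 ^ (4 * Fintype.card J) * ((4 ^ (2 * Fintype.card J) + 7) * 2) + 1 := ⟨_, rfl⟩
  obtain ⟨b1, hb1⟩ : ∃ b1 : ℝ, b1 = 4 * lam * (4 * (Fintype.card J : ℝ) ^ 2 * d) := ⟨_, rfl⟩
  have ha0 : 0 ≤ a1 := by rw [ha1]; positivity
  have hb0 : 0 ≤ b1 := by rw [hb1]; positivity
  obtain ⟨z1, hz1⟩ := exists_nat_ge (a1 + b1 + (24 * b1 + 2 * a1) / τ + 1)
  have hq : 0 ≤ (24 * b1 + 2 * a1) / τ := by positivity
  refine ⟨z1, ?_, fun z0 hz0 y0 Hm h => ?_⟩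
  · have : (1 : ℝ) ≤ z1 := by linarith
    exact_mod_cast this
  · have hz : (z1 : ℝ) ≤ z0 := by exact_mod_cast hz0
    have hz0p : (0 : ℝ) < z0 := by linarith
    have h1 : a1 / z0 ≤ 1 := by rw [div_le_one hz0p]; linarith
    have h2 : b1 / z0 ≤ 1 := by rw [div_le_one hz0p]; linarith
    have h1' : 0 ≤ a1 / z0 := by positivity
    have h2' : 0 ≤ b1 / z0 := by positivity
    have hexp : ∀ t : ℝ, 0 ≤ t → t ≤ 1 → Real.exp t - 1 ≤ 2 * t := by
      intro t ht0 ht1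
      have h3 := Real.abs_exp_sub_one_le (x := t) (by rw [abs_of_nonneg ht0]; exact ht1)
      rw [abs_of_nonneg ht0] at h3
      exact (le_abs_self _).trans h3
    have h3 : e1 J z0 + lam * (4 * (Fintype.card J : ℝ) ^ 2 * (Real.log Hm / Real.log y0) / y0) ≤ a1 / z0 := by
      have h4 : a1 / z0 = e1 J z0 + 1 / z0 := by
        rw [ha1]
        unfold e1
        ring
      rw [h4]
      linarith
    have h5 := Real.exp_le_exp.2 h3
    have h6 := hexp _ h1' h1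
    have h7 := hexp _ h2' h2
    have h8 : 4 * lam * (4 * (Fintype.card J : ℝ) ^ 2 * d) / z0 = b1 / z0 := by rw [hb1]
    unfold Tht
    rw [h8]
    have h9 : 0 ≤ Real.exp (b1 / z0) - 1 := by
      have := Real.one_le_exp h2'
      linarith
    have h10 : Real.exp (e1 J z0 + lam * (4 * (Fintype.card J : ℝ) ^ 2 * (Real.log Hm / Real.log y0) / y0)) ≤ 3 := by linarith
    calc _ ≤ 3 * (4 * (2 * (b1 / z0))) + 2 * (a1 / z0) := by
          have h11 : Real.exp (e1 J z0 + lam * (4 * (Fintype.card J : ℝ) ^ 2 * (Real.log Hm / Real.log y0) / y0)) * (4 * (Real.exp (b1 / z0) - 1)) ≤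
              3 * (4 * (2 * (b1 / z0))) := mul_le_mul h10 (by linarith) (by linarith) (by norm_num)
          linarith
      _ = (24 * b1 + 2 * a1) / z0 := by ring
      _ ≤ τ := by
          rw [div_le_iff₀ hz0p]
          have h12 : (24 * b1 + 2 * a1) / τ ≤ z0 := by linarith
          rw [div_le_iff₀ hτ] at h12
          linarith

/-- roots modulo a prime -/
lemma roots_mod (H : ℤ[X]) (p : ℕ) (hp : p.Prime) (i : ℕ) (hi : ¬ (p : ℤ) ∣ H.coeff i) :
    #((range p).filter (fun n : ℕ => (p : ℤ) ∣ H.eval (n : ℤ))) ≤ H.natDegree := by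
  have : Fact p.Prime := ⟨hp⟩
  set Hp := H.map (Int.castRingHom (ZMod p)) with hHp
  have h : Hp ≠ 0 := by
    intro h
    apply hi
    have h1 : Hp.coeff i = 0 := by rw [h, coeff_zero]
    rw [hHp, coeff_map] at h1
    exact (ZMod.intCast_zmod_eq_zero_iff_dvd _ p).1 (by simpa using h1)
  have h1 : #((range p).filter (fun n : ℕ => (p : ℤ) ∣ H.eval (n : ℤ))) ≤ #(Hp.roots.toFinset) := by
    refine card_le_card_of_injOn (fun n : ℕ => (n : ZMod p)) ?_ ?_
    · intro n hn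
      rw [mem_coe, mem_filter] at hn
      have h2 := (Pool.Agent.H544.LD.dvd_eval_zmod H p _).1 hn.2
      rw [mem_coe, Multiset.mem_toFinset, mem_roots h, IsRoot.def]
      push_cast at h2
      exact h2
    · intro n hn n' hn' hnn
      rw [mem_coe, mem_filter, mem_range] at hn hn'
      simp only at hnn
      have h3 := ZMod.val_cast_of_lt hn.1
      have h4 := ZMod.val_cast_of_lt hn'.1
      rw [← h3, ← h4, hnn]
  refine h1.trans ((Multiset.toFinset_card_le _).trans ((card_roots' Hp).trans ?_))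
  exact natDegree_map_le

section gp
variable {J : Type} [Fintype J] [DecidableEq J]

/-- the conditions on the system -/
structure Gd (g : J → ℤ[X]) (d z0 : ℕ) : Prop where
  deg : ∀ j, (g j).natDegree = d
  ld : ∀ j, 0 < (g j).leadingCoeff
  pl : ∀ j, ∀ p : ℕ, p.Prime → z0 ≤ p → ¬ (p : ℤ) ∣ (g j).leadingCoeff
  df : ∀ j j', j ≠ j' → 1 ≤ (g j - g j').natDegree
  dl : ∀ j j', j ≠ j' → ∀ p : ℕ, p.Prime → z0 ≤ p → ¬ (p : ℤ) ∣ (g j - g j').leadingCoeff

lemma Gd.gp {g : J → ℤ[X]} {d z0 : ℕ} (h : Gd g d z0) (hd : 1 ≤ d) (S : Finset ℕ) (hS : ∀ p ∈ S, p.Prime ∧ z0 ≤ p) : Gp g d S := by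
  constructor
  · intro t ht j c
    obtain ⟨h1, h2⟩ := hS t ht
    have h3 := roots_mod (g j + C c) t h1 d (by
      rw [coeff_add, coeff_C, if_neg (by omega), add_zero]
      have := h.pl j t h1 h2
      rw [leadingCoeff, h.deg j] at this
      exact this)
    refine le_trans (le_of_eq ?_) (h3.trans ?_)
    · congr 1
      apply filter_congr
      intro n _
      rw [eval_add, eval_C]
    · rw [natDegree_add_C, h.deg j]
  · intro t ht j j' hj c
    obtain ⟨h1, h2⟩ := hS t ht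
    have h4 := h.df j j' hj
    have h3 := roots_mod (g j - g j' + C c) t h1 (g j - g j').natDegree (by
      rw [coeff_add, coeff_C, if_neg (by omega), add_zero]
      exact h.dl j j' hj t h1 h2)
    refine le_trans (le_of_eq ?_) (h3.trans ?_)
    · congr 1
      apply filter_congr
      intro n _
      rw [eval_add, eval_C, eval_sub]
    · rw [natDegree_add_C]
      refine (natDegree_sub_le _ _).trans ?_
      rw [h.deg j, h.deg j', max_self]

/-- the values are large -/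
lemma val_ge (f : ℤ[X]) (hd : 1 ≤ f.natDegree) (hl : 0 < f.leadingCoeff) : ∃ n1 : ℕ, ∀ n : ℕ, n1 ≤ n → (n : ℤ) ≤ 2 * f.eval (n : ℤ) := by
  refine ⟨2 * cf f.eraseLead + 1, fun n hn => ?_⟩
  have hn1 : 1 ≤ n := by omega
  have h1 : f.eval (n : ℤ) = f.eraseLead.eval (n : ℤ) + f.leadingCoeff * (n : ℤ) ^ f.natDegree := by
    conv_lhs => rw [← f.eraseLead_add_C_mul_X_pow]
    rw [eval_add, eval_mul, eval_C, eval_pow, eval_X]
  have h2 := abs_eval_le f.eraseLead n hn1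
  have h3 : (n : ℤ) ^ f.eraseLead.natDegree ≤ (n : ℤ) ^ (f.natDegree - 1) :=
    pow_le_pow_right₀ (by exact_mod_cast hn1) (eraseLead_natDegree_le f)
  have h4 : |f.eraseLead.eval (n : ℤ)| ≤ (cf f.eraseLead : ℤ) * (n : ℤ) ^ (f.natDegree - 1) :=
    h2.trans (mul_le_mul_of_nonneg_left h3 (by positivity))
  have h5 : (n : ℤ) ^ f.natDegree = n * (n : ℤ) ^ (f.natDegree - 1) := by
    rw [← pow_succ']
    congr 1
    omega
  have h6 : (1 : ℤ) ≤ (n : ℤ) ^ (f.natDegree - 1) := one_le_pow₀ (by exact_mod_cast hn1)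
  have h7 : (2 * cf f.eraseLead + 1 : ℤ) ≤ n := by exact_mod_cast hn
  have h8 : (n : ℤ) ^ f.natDegree ≤ f.leadingCoeff * (n : ℤ) ^ f.natDegree :=
    le_mul_of_one_le_left (by positivity) hl
  have h9 := (abs_le.1 h4).1
  rw [h1]
  have h10 : (0 : ℤ) ≤ cf f.eraseLead := by positivity
  nlinarith

end gp

end Pool.Agent.H544.BC
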