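import Mathlib
import Pool.Agent.H544.BC.M13

/-!
The choice of the parameters in a class.
-/

set_option autoImplicit false
set_option linter.unusedSectionVars false

namespace Pool.Agent.H544.BC
open Finset Polynomial
open Pool.Agent.H373R2.T7
open Pool.Agent.R498.MT (lz MerS gp)
open Pool.Agent.H544.LD (cls Gz)
open Pool.Agent.N913.MT (evt_log_ge evt_log_pow Wz Wz_pos dvd_Wz Pz mers mer_sum yy yy_bd yy_supp ratio Wb)

section es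
variable {S : Finset ℕ} (hS3 : ∀ p ∈ S, 3 ≤ p) (L : ℝ) (hL : 1 ≤ L) (h : ∑ t : S, 1 / (((t : ℕ) : ℝ) - 1) ≤ Real.log L + 1)
include hS3 hL h

lemma exp_sum (C : ℕ) : Real.exp (∑ t : S, (C : ℝ) / ((t : ℕ) : ℝ)) ≤ Real.exp C * L ^ C := by
  have h1 : ∑ t : S, (C : ℝ) / ((t : ℕ) : ℝ) ≤ C * (Real.log L + 1) := by
    calc _ ≤ ∑ t : S, (C : ℝ) * (1 / (((t : ℕ) : ℝ) - 1)) := by
          apply sum_le_sum
          intro t _
          have ht3 : (3 : ℝ) ≤ (t : ℕ) := by exact_mod_cast hS3 t t.2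
          rw [mul_one_div]
          apply div_le_div_of_nonneg_left (Nat.cast_nonneg _) (by linarith) (by linarith)
      _ ≤ _ := by
        rw [← mul_sum]
        exact mul_le_mul_of_nonneg_left h (Nat.cast_nonneg _)
  refine (Real.exp_le_exp.2 h1).trans (le_of_eq ?_)
  rw [mul_add, mul_one, Real.exp_add, mul_comm]
  congr 1
  rw [mul_comm, Real.exp_mul, Real.exp_log (by linarith), Real.rpow_natCast]

lemma mass_le : mass S ≤ 3 * L := by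
  unfold mass
  have h1 : ∏ t : S, (1 + 1 / (((t : ℕ) : ℝ) - 1)) ≤ Real.exp (∑ t : S, 1 / (((t : ℕ) : ℝ) - 1)) := by
    rw [Real.exp_sum]
    apply prod_le_prod
    · intro t _
      have := (nu_bd hS3 t).1
      linarith
    · intro t _
      have := Real.add_one_le_exp (1 / (((t : ℕ) : ℝ) - 1))
      linarith
  refine h1.trans ((Real.exp_le_exp.2 h).trans ?_)
  rw [Real.exp_add, Real.exp_log (by linarith), mul_comm]
  have := Real.exp_one_lt_d9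
  nlinarith

end es

section pr
variable {J : Type} [Fintype J] [DecidableEq J]

/-- the error of the fundamental lemma is small -/
lemma Err_small (D : Su J) (L M θ C2 : ℝ) (B : ℕ) (hL : 1 ≤ L) (hM1 : 1 ≤ M) (hθ0 : 0 < θ) (hC2 : 1 ≤ C2) (hV : (Vz D.z)⁻¹ ≤ L)
    (hhalf : (1 / 2 : ℝ) ^ D.b ≤ 1 / L ^ (3 * 2 ^ (4 * Fintype.card J) + 3))
    (hsum : ∑ t : D.S, 1 / (((t : ℕ) : ℝ) - 1) ≤ Real.log L + 1)
    (hzb : (D.z : ℝ) ^ (D.C1 * D.b) ≤ M ^ (1 / 8 : ℝ)) (hR : (D.R : ℝ) ^ 8 ≤ M ^ (1 / 6 : ℝ))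
    (hκ : M ≤ B * D.W * D.κ)
    (h1 : 2 * C2 ^ 2 * Real.exp (3 * 2 ^ (4 * Fintype.card J) : ℕ) / θ ≤ L)
    (h2 : (4 * C2 ^ 2 * B * D.W / θ) * L ^ 2 ≤ M ^ (1 / 2 : ℝ)) : C2 ^ 2 * D.Err ≤ θ * D.κ := by
  obtain ⟨c3, hc3⟩ : ∃ c3 : ℕ, c3 = 3 * 2 ^ (4 * Fintype.card J) := ⟨_, rfl⟩
  rw [← hc3] at hhalf h1
  have hκ0 := D.κ_nonneg
  have hV0 : 0 < (Vz D.z)⁻¹ := inv_pos.2 (Vz_pos D.z)
  have hM0 : 0 < M := by linarith
  have hW1 : (1 : ℝ) ≤ D.W := by exact_mod_cast D.hW0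
  have he : Real.exp (∑ t : D.S, (3 * 2 ^ (4 * Fintype.card J)) / ((t : ℕ) : ℝ)) ≤ Real.exp c3 * L ^ c3 := by
    have h3 := exp_sum D.hS3 L hL hsum c3
    refine le_trans (le_of_eq ?_) h3
    rw [hc3]
    push_cast
    rfl
  have hBW : 0 < (B : ℝ) * D.W := by
    by_contra hcon
    have h4 : (B : ℝ) * D.W * D.κ ≤ 0 := mul_nonpos_of_nonpos_of_nonneg (not_lt.1 hcon) hκ0
    linarith
  have p1 : C2 ^ 2 * ((Vz D.z)⁻¹ ^ 2 * ((1 / 2 : ℝ) ^ D.b * ((D.A : ℝ) / D.W) * Real.exp (∑ t : D.S, (3 * 2 ^ (4 * Fintype.card J)) / ((t : ℕ) : ℝ)))) ≤ θ * D.κ / 2 := by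
    have h3 : (Vz D.z)⁻¹ ^ 2 * ((1 / 2 : ℝ) ^ D.b * ((D.A : ℝ) / D.W) * Real.exp (∑ t : D.S, (3 * 2 ^ (4 * Fintype.card J)) / ((t : ℕ) : ℝ))) ≤
        L ^ 2 * ((1 / L ^ (c3 + 3)) * D.κ * (Real.exp c3 * L ^ c3)) := by
      apply mul_le_mul (pow_le_pow_left₀ hV0.le hV 2) _ (by unfold Su.κ at hκ0; positivity) (by positivity)
      apply mul_le_mul _ he (Real.exp_pos _).le (by positivity)
      exact mul_le_mul_of_nonneg_right hhalf hκ0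
    have h4 : L ^ 2 * ((1 / L ^ (c3 + 3)) * D.κ * (Real.exp c3 * L ^ c3)) = D.κ * Real.exp c3 / L := by
      have : L ≠ 0 := by linarith
      rw [pow_add]
      field_simp
    rw [h4] at h3
    calc _ ≤ C2 ^ 2 * (D.κ * Real.exp c3 / L) := mul_le_mul_of_nonneg_left h3 (by positivity)
      _ ≤ θ * D.κ / 2 := by
        rw [mul_div_assoc', div_le_iff₀ (by linarith)]
        have h5 := mul_le_mul_of_nonneg_left h1 (by positivity : 0 ≤ θ * D.κ / 2)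
        refine le_trans (le_of_eq ?_) h5
        field_simp
  have p2 : C2 ^ 2 * (((Vz D.z)⁻¹ ^ 2 * (D.z : ℝ) ^ (D.C1 * D.b) + 1) * ((D.R : ℝ) ^ 4) ^ 2) ≤ θ * D.κ / 2 := by
    have hM8 : 1 ≤ M ^ (1 / 8 : ℝ) := Real.one_le_rpow hM1 (by norm_num)
    have h3 : (Vz D.z)⁻¹ ^ 2 * (D.z : ℝ) ^ (D.C1 * D.b) + 1 ≤ 2 * L ^ 2 * M ^ (1 / 8 : ℝ) := by
      have h4 : (Vz D.z)⁻¹ ^ 2 * (D.z : ℝ) ^ (D.C1 * D.b) ≤ L ^ 2 * M ^ (1 / 8 : ℝ) :=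
        mul_le_mul (pow_le_pow_left₀ hV0.le hV 2) hzb (by positivity) (by positivity)
      have h5 : 1 ≤ L ^ 2 * M ^ (1 / 8 : ℝ) := one_le_mul_of_one_le_of_one_le (one_le_pow₀ hL) hM8
      linarith
    have h6 : ((D.R : ℝ) ^ 4) ^ 2 ≤ M ^ (1 / 6 : ℝ) := by
      rw [← pow_mul]
      exact hR
    have h7 : ((Vz D.z)⁻¹ ^ 2 * (D.z : ℝ) ^ (D.C1 * D.b) + 1) * ((D.R : ℝ) ^ 4) ^ 2 ≤ 2 * L ^ 2 * M ^ (1 / 8 : ℝ) * M ^ (1 / 6 : ℝ) :=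
      mul_le_mul h3 h6 (by positivity) (by positivity)
    have h8 : M ^ (1 / 8 : ℝ) * M ^ (1 / 6 : ℝ) * M ^ (1 / 2 : ℝ) ≤ M := by
      rw [← Real.rpow_add hM0, ← Real.rpow_add hM0]
      conv_rhs => rw [← Real.rpow_one M]
      exact Real.rpow_le_rpow_of_exponent_le hM1 (by norm_num)
    have h9 : M ^ (1 / 8 : ℝ) * M ^ (1 / 6 : ℝ) * ((4 * C2 ^ 2 * B * D.W / θ) * L ^ 2) ≤ B * D.W * D.κ :=
      le_trans (mul_le_mul_of_nonneg_left h2 (by positivity)) (h8.trans hκ)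
    have h10 : (B * D.W) * (C2 ^ 2 * (2 * L ^ 2 * M ^ (1 / 8 : ℝ) * M ^ (1 / 6 : ℝ))) ≤ (B * D.W) * (θ * D.κ / 2) := by
      have h11 := mul_le_mul_of_nonneg_left h9 (by positivity : 0 ≤ θ / 2)
      refine le_trans (le_of_eq ?_) (h11.trans (le_of_eq ?_))
      · field_simp
        ring
      · ring
    have h11 := le_of_mul_le_mul_left h10 hBW
    exact (mul_le_mul_of_nonneg_left h7 (by positivity)).trans h11
  unfold Su.Err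
  rw [mul_add]
  linarith

/-- the crude term -/
lemma cr_small (D : Su J) (L M N θ C2 : ℝ) (d : ℕ) (hL : 1 ≤ L) (hM1 : 1 ≤ M) (hθ0 : 0 < θ) (hθ1 : θ ≤ 1) (hC2 : 1 ≤ C2) (hV : (Vz D.z)⁻¹ ≤ L)
    (hsum : ∑ t : D.S, 1 / (((t : ℕ) : ℝ) - 1) ≤ Real.log L + 1) (hErr : C2 ^ 2 * D.Err ≤ θ * D.κ) (hErr0 : 0 ≤ D.Err)
    (hN : M ≤ 4 * N)
    (h2 : (128 * C2 ^ 2 * (Fintype.card J : ℝ) ^ 2 * d * Real.exp (9 * 2 ^ (4 * Fintype.card J) : ℕ) / θ) * L ^ (9 * 2 ^ (4 * Fintype.card J) + 2) ≤ M ^ (1 / 2 : ℝ)) :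
    C2 ^ 2 * ((4 * (Fintype.card J : ℝ) ^ 2 * d * M) * ((Vz D.z)⁻¹ ^ 2 *
    (D.κ * Real.exp (∑ t : D.S, 2 ^ (4 * Fintype.card J) * (9 / ((t : ℕ) : ℝ))) + D.Err))) ≤ θ * D.κ * N ^ 2 := by
  obtain ⟨c4, hc4⟩ : ∃ c4 : ℕ, c4 = 9 * 2 ^ (4 * Fintype.card J) := ⟨_, rfl⟩
  rw [← hc4] at h2
  have hκ0 := D.κ_nonneg
  have hV0 : 0 < (Vz D.z)⁻¹ := inv_pos.2 (Vz_pos D.z)
  have hM0 : 0 < M := by linarith
  have he : Real.exp (∑ t : D.S, 2 ^ (4 * Fintype.card J) * (9 / ((t : ℕ) : ℝ))) ≤ Real.exp c4 * L ^ c4 := by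
    have h3 := exp_sum D.hS3 L hL hsum c4
    refine le_trans (le_of_eq ?_) h3
    congr 1
    apply sum_congr rfl
    intro t _
    rw [hc4]
    push_cast
    ring
  have hE1 : D.Err ≤ D.κ := by
    have h3 : 1 * D.Err ≤ C2 ^ 2 * D.Err := mul_le_mul_of_nonneg_right (one_le_pow₀ hC2) hErr0
    have h4 : θ * D.κ ≤ 1 * D.κ := mul_le_mul_of_nonneg_right hθ1 hκ0
    linarith
  have he1 : 1 ≤ Real.exp c4 * L ^ c4 := one_le_mul_of_one_le_of_one_le (Real.one_le_exp (Nat.cast_nonneg _)) (one_le_pow₀ hL)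
  have h5 : D.κ * Real.exp (∑ t : D.S, 2 ^ (4 * Fintype.card J) * (9 / ((t : ℕ) : ℝ))) + D.Err ≤ D.κ * (2 * (Real.exp c4 * L ^ c4)) := by
    have h6 : D.κ * Real.exp (∑ t : D.S, 2 ^ (4 * Fintype.card J) * (9 / ((t : ℕ) : ℝ))) ≤ D.κ * (Real.exp c4 * L ^ c4) := mul_le_mul_of_nonneg_left he hκ0
    have h7 : D.κ * 1 ≤ D.κ * (Real.exp c4 * L ^ c4) := mul_le_mul_of_nonneg_left he1 hκ0
    linarith
  have h6 : (Vz D.z)⁻¹ ^ 2 * (D.κ * Real.exp (∑ t : D.S, 2 ^ (4 * Fintype.card J) * (9 / ((t : ℕ) : ℝ))) + D.Err) ≤ L ^ 2 * (D.κ * (2 * (Real.exp c4 * L ^ c4))) :=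
    mul_le_mul (pow_le_pow_left₀ hV0.le hV 2) h5 (by positivity) (by positivity)
  have hMr : M ^ (1 / 2 : ℝ) ≤ M := by
    conv_rhs => rw [← Real.rpow_one M]
    exact Real.rpow_le_rpow_of_exponent_le hM1 (by norm_num)
  have hN0 : 0 ≤ N := by linarith
  calc _ ≤ C2 ^ 2 * ((4 * (Fintype.card J : ℝ) ^ 2 * d * M) * (L ^ 2 * (D.κ * (2 * (Real.exp c4 * L ^ c4))))) := by
        apply mul_le_mul_of_nonneg_left _ (by positivity)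
        exact mul_le_mul_of_nonneg_left h6 (by positivity)
    _ = (θ * D.κ * M / 16) * ((128 * C2 ^ 2 * (Fintype.card J : ℝ) ^ 2 * d * Real.exp c4 / θ) * L ^ (c4 + 2)) := by
        rw [pow_add]
        field_simp
        ring
    _ ≤ (θ * D.κ * M / 16) * M := mul_le_mul_of_nonneg_left (h2.trans hMr) (by positivity)
    _ = θ * D.κ * (M ^ 2 / 16) := by ring
    _ ≤ θ * D.κ * N ^ 2 := by
        apply mul_le_mul_of_nonneg_left _ (by positivity)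
        have h7 : M ^ 2 ≤ (4 * N) ^ 2 := pow_le_pow_left₀ hM0.le hN 2
        rw [mul_pow] at h7
        linarith

end pr

end Pool.Agent.H544.BC
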