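import Mathlib
import Pool.Agent.H544.BC.M14

/-!
The conclusion from the data.
-/

set_option autoImplicit false
set_option linter.unusedSectionVars false

namespace Pool.Agent.H544.BC
open Finset Polynomial
open Pool.Agent.H373R2.T7
open Pool.Agent.R498.MT (lz MerS gp)
open Pool.Agent.H544.LD (cls Gz)
open Pool.Agent.N913.MT (evt_log_ge evt_log_pow Wz Wz_pos dvd_Wz Pz mers mer_sum yy yy_bd yy_supp ratio Wb)

section fin
variable {J : Type} [Fintype J] [DecidableEq J]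

/-- the conclusion -/
theorem fin_sv (D : Sv J) (K m q d Cc M1 : ℕ) (L T c0 : ℝ) (hJ : Fintype.card J = 2 ^ K) (hm : 1 ≤ m) (hd : 1 ≤ d)
    (hq0 : (0 : ℝ) < q) (hc0 : 0 < c0) (hWφ : c0 * Real.log D.z0 ≤ (D.W : ℝ) / Nat.totient D.W)
    (hK : 2304000 * (m : ℝ) * (d + 1) * q ≤ c0 * (K + 1)) (hg : Gd D.g d D.z0) (hL : L = Real.log D.M) (l1 : 1 ≤ L) (hT1 : 1 ≤ T)
    (hM1 : M1 ≤ D.M) (hNM : D.N = Icc 1 D.M \ Icc 1 M1) (hRg : ∀ n ∈ D.N, ∀ j, (D.R : ℤ) ≤ (D.g j).eval (n : ℤ))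
    (hlz1 : 1 ≤ Real.log D.z0) (hlogR : L / (2 * q) ≤ Real.log D.R) (hmass : mass D.S ≤ 3 * L)
    (hlc : 288 * D.C2 * D.W / D.θ ≤ L)
    (hrt : ∀ i : J, ((K : ℝ) + 1) * (Real.log D.R / Real.log D.z0) / (96000 * 2 ^ K) * D.MM none ≤ D.MM (some i))
    (hCc1 : Fintype.card J * (d + 2) ≤ Cc) (hCc2 : 4 ^ Fintype.card J ≤ Cc)
    (hlev : ∀ j, ∀ y' ≤ D.M, ∀ k : ℕ → ℤ → ℤ → ℝ, Ker (D.g j) Cc 0 k → ∀ 𝒮 : Finset ℕ, (∀ e ∈ 𝒮, Squarefree e ∧ (∀ p ∈ e.primeFactors, 0 < p ∧ ¬ p ∣ (D.g j).natDegree * (D.g j).leadingCoeff.natAbs) ∧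
      e ^ (8 * ((D.g j).natDegree + 2)) ≤ D.M ∧ e ≤ D.A) →
      ∀ Ψ : ℕ → ℤ → ℤ → ℝ, (∀ e ∈ 𝒮, ∀ n c, |Ψ e n c| ≤ KK k e n c) → (∀ e ∈ 𝒮, ∀ c, Per e (fun n => Ψ e n c)) →
      ∑ e ∈ 𝒮, (Cc : ℝ) ^ #(e.primeFactors) * ∑ c ∈ Icc 1 D.A, |∑ n ∈ Icc 1 y', fpI D.z (c + (D.g j).eval (n : ℤ)) * Ψ e n c| ≤ D.M * D.A / L ^ 3)
    (hRA : D.R ^ 2 ≤ D.A) (hRM : (D.R ^ 2) ^ (8 * (d + 2)) ≤ D.M) (hRT : (D.R : ℝ) ≤ T)
    (hAH : D.A + D.Hm ≤ D.M ^ (d + 1)) (hSd : ∀ p ∈ D.S, d < p ∧ D.z0 ≤ p)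
    (gP4 : 4 * D.C2 * Fintype.card J * 3 ^ (2 * Fintype.card J) * L ^ (2 * Fintype.card J) ≤ T) :
    ∃ Bad ⊆ cls D.A D.W D.c0, (#Bad : ℝ) ≤ 41 * (2 ^ K + 1) * D.θ * D.κ ∧
    ∀ c ∈ cls D.A D.W D.c0, c ∉ Bad → (D.M : ℝ) ≤ T ^ 3 * #(GG D.g (Icc 1 D.M) m c) := by
  classical
  have hmass1 := mass_pos (S := D.S) D.hS3
  have hθ0 := D.hθ0
  have hC21 := D.hC21
  have hκ0 := D.κ_nonneg
  have hW1r : (1 : ℝ) ≤ D.W := by exact_mod_cast D.hW0
  have hκeq : D.κ = (D.A : ℝ) / D.W := rfl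
  -- swapping
  have hswap : ∀ j, (#((cls D.A D.W D.c0).filter (fun c => D.XM (some j) / 4 ≤ |Sj D j c - D.SZ (some j) c|)) : ℝ) ≤ D.θ * D.κ := by
    intro j
    apply swap_bad D M1 hM1 hNM hRg j (mass D.S ^ 2 * (D.M * D.A / L ^ 3))
    · intro y' hy'
      have hy'M : y' ≤ D.M := by
        rw [mem_insert, mem_singleton] at hy'
        rcases hy' with h | h
        · omega
        · rw [h]
      refine swapT (S := D.S) D.hS D.hS3 D.R D.hR1 D.y D.hy1 D.hys D.g d hd (hg.gp hd D.S (fun p hp => ⟨D.hS p hp, (hSd p hp).2⟩)) j Cc 0 D.M D.A D.z y' _ hCc1 hCc2 ?_ ?_ hRA (hlev j y' hy'M)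
      · intro p hp
        refine ⟨(D.hS p hp).pos, fun h => ?_⟩
        rw [hg.deg j] at h
        rcases (D.hS p hp).dvd_mul.1 h with h1 | h1
        · have h2 := Nat.le_of_dvd hd h1
          have h3 := (hSd p hp).1
          omega
        · apply hg.pl j p (D.hS p hp) (hSd p hp).2
          exact Int.natCast_dvd.2 h1
      · rw [hg.deg j]
        exact hRM
    · have h1 : mass D.S ^ 2 ≤ (3 * L) ^ 2 := pow_le_pow_left₀ (by linarith) hmass 2
      have h2 : 288 * D.C2 * D.W ≤ L * D.θ := by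
        rw [div_le_iff₀ hθ0] at hlc
        exact hlc
      have hL0 : 0 < L := by linarith
      calc 32 * D.C2 * (mass D.S ^ 2 * (D.M * D.A / L ^ 3)) ≤ 32 * D.C2 * ((3 * L) ^ 2 * (D.M * D.A / L ^ 3)) := by gcongr
        _ = (288 * D.C2 * D.W) * (D.κ * D.M) / L := by
          rw [hκeq]
          field_simp
          ring
        _ ≤ (L * D.θ) * (D.κ * D.M) / L := by gcongr
        _ = _ := by field_simp
  obtain ⟨Bad, hBad1, hBad2, hBad3⟩ := good_shifts D hswap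
  have hlogpow : Real.log ((D.M ^ (d + 1) : ℕ) : ℝ) = (d + 1) * L := by
    push_cast
    rw [Real.log_pow, ← hL]
    push_cast
    ring
  refine ⟨Bad, hBad1, ?_, ?_⟩
  · refine hBad2.trans (le_of_eq ?_)
    rw [hJ]
    push_cast
    rfl
  · intro c hc hcB
    obtain ⟨h1, h2⟩ := hBad3 c hc hcB
    have hcA : c ≤ D.A := by
      have : c ∈ Icc 1 D.A := by
        unfold cls at hc
        exact (mem_filter.1 hc).1
      exact (mem_Icc.1 this).2
    have hLH : ∀ n ∈ D.N, ∀ j, Real.log (((c : ℤ) + (D.g j).eval (n : ℤ)).toNat) ≤ (d + 1) * L := by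
      intro n hn j
      rw [← hlogpow]
      have h3 := hRg n hn j
      have h4 := (D.hval n hn j).2
      have h5 : ((c : ℤ) + (D.g j).eval (n : ℤ)).toNat ≤ D.M ^ (d + 1) := by
        have h6 : (c : ℤ) + (D.g j).eval (n : ℤ) ≤ ((D.A + D.Hm : ℕ) : ℤ) := by
          push_cast
          have : (c : ℤ) ≤ D.A := by exact_mod_cast hcA
          linarith
        have h7 := Int.toNat_le_toNat h6
        rw [Int.toNat_natCast] at h7
        exact h7.trans hAH
      have h8 : 1 ≤ ((c : ℤ) + (D.g j).eval (n : ℤ)).toNat := by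
        have : (1 : ℤ) ≤ (c : ℤ) + (D.g j).eval (n : ℤ) := by
          have h9 : (1 : ℤ) ≤ D.R := by exact_mod_cast D.hR1
          have h10 : (0 : ℤ) ≤ c := by positivity
          linarith
        omega
      apply Real.log_le_log (by exact_mod_cast h8)
      exact_mod_cast h5
    have hcond : 12 * m * ((d + 1) * L) * D.MM none ≤ (D.W : ℝ) / Nat.totient D.W * ∑ j, D.MM (some j) := by
      have a1 : 0 < D.MM none := D.MM_pos none
      have a4 : ((K : ℝ) + 1) * (Real.log D.R / Real.log D.z0) / 96000 * D.MM none ≤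
          ∑ l, D.MM (some l) := by
        have := card_nsmul_le_sum (univ : Finset J) (fun l => D.MM (some l)) _ (fun l _ => hrt l)
        rw [card_univ, hJ, nsmul_eq_mul] at this
        refine le_trans (le_of_eq ?_) this
        push_cast
        field_simp
      have a6 : 0 ≤ ((K : ℝ) + 1) * (Real.log D.R / Real.log D.z0) / 96000 * D.MM none := by
        have : 0 < Real.log D.z0 := by linarith
        have : 0 ≤ Real.log D.R := Real.log_natCast_nonneg _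
        positivity
      have a7 : 0 ≤ (D.W : ℝ) / Nat.totient D.W := by positivity
      calc 12 * (m : ℝ) * ((d + 1) * L) * D.MM none = (2304000 * (m : ℝ) * (d + 1) * q) * ((L / (2 * q)) / 96000 * D.MM none) := by
            field_simp
            ring
        _ ≤ (c0 * (K + 1)) * ((L / (2 * q)) / 96000 * D.MM none) := by
            apply mul_le_mul_of_nonneg_right hK
            positivity
        _ ≤ (c0 * (K + 1)) * (Real.log D.R / 96000 * D.MM none) := by gcongr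
        _ = (c0 * Real.log D.z0) * (((K : ℝ) + 1) * (Real.log D.R / Real.log D.z0) / 96000 * D.MM none) := by
            have : Real.log D.z0 ≠ 0 := by linarith
            field_simp
        _ ≤ (D.W : ℝ) / Nat.totient D.W * (((K : ℝ) + 1) * (Real.log D.R / Real.log D.z0) / 96000 * D.MM none) :=
            mul_le_mul_of_nonneg_right hWφ a6
        _ ≤ _ := mul_le_mul_of_nonneg_left a4 a7
    have hcl := cluster D m hm c ((d + 1) * L) (by positivity) hLH hcond h1 h2 (by rw [hJ]; exact Nat.one_le_two_pow)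
    have hGG : (#(GG D.g D.N m c) : ℝ) ≤ #(GG D.g (Icc 1 D.M) m c) := by
      have : GG D.g D.N m c ⊆ GG D.g (Icc 1 D.M) m c := by
        unfold GG
        apply filter_subset_filter
        exact D.hN
      exact_mod_cast card_le_card this
    have h3 : 4 * D.C2 * Fintype.card J * ((D.R : ℝ) ^ 2 * mass D.S ^ (2 * Fintype.card J)) ≤ T ^ 3 := by
      have h4 : mass D.S ^ (2 * Fintype.card J) ≤ (3 * L) ^ (2 * Fintype.card J) := pow_le_pow_left₀ (by linarith) hmass _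
      calc 4 * D.C2 * Fintype.card J * ((D.R : ℝ) ^ 2 * mass D.S ^ (2 * Fintype.card J)) ≤ 4 * D.C2 * Fintype.card J * (T ^ 2 * (3 * L) ^ (2 * Fintype.card J)) := by gcongr
        _ = T ^ 2 * (4 * D.C2 * Fintype.card J * 3 ^ (2 * Fintype.card J) * L ^ (2 * Fintype.card J)) := by rw [mul_pow]; ring
        _ ≤ T ^ 2 * T := mul_le_mul_of_nonneg_left gP4 (by positivity)
        _ = _ := by ring
    calc (D.M : ℝ) ≤ 4 * D.C2 * Fintype.card J * ((D.R : ℝ) ^ 2 * mass D.S ^ (2 * Fintype.card J)) * #(GG D.g D.N m c) := hcl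
      _ ≤ T ^ 3 * #(GG D.g (Icc 1 D.M) m c) := mul_le_mul h3 hGG (Nat.cast_nonneg _) (by positivity)

end fin

end Pool.Agent.H544.BC
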