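import Mathlib
import Pool.Agent.H544.BC.M15

/-!
Existence of the data.
-/

set_option autoImplicit false
set_option linter.unusedSectionVars false

namespace Pool.Agent.H544.BC
open Finset Polynomial
open Pool.Agent.H373R2.T7
open Pool.Agent.R498.MT (lz MerS gp)
open Pool.Agent.H544.LD (cls Gz)
open Pool.Agent.N913.MT (evt_log_ge evt_log_pow Wz Wz_pos dvd_Wz Pz mers mer_sum yy yy_bd yy_supp ratio Wb)

section ex
variable {J : Type} [Fintype J] [DecidableEq J]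

/-- existence of the weights -/
theorem exSu (K : ℕ) (hJ : Fintype.card J = 2 ^ K) (C1f zf : ℕ)
    (hfl : ∀ b : ℕ, C1f ≤ b → ∀ z : ℕ, zf ≤ z →
      ∀ (H : ℤ[X]) (q r y : ℕ), H.natDegree ≤ 2 → 1 ≤ q → r < q → (∀ p ∈ pz z, p ∣ q → ¬ (p : ℤ) ∣ H.eval (r : ℤ)) →
      |(#((cls y q r).filter (fun n : ℕ => ∀ p ∈ pz z, ¬ (p : ℤ) ∣ H.eval (n : ℤ))) : ℝ) - (y : ℝ) / q * Gz H z q| ≤
        (1 / 2 : ℝ) ^ b * ((y : ℝ) / q) + (z : ℝ) ^ (C1f * b))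
    (z0 R M z b A cc : ℕ) (hz3 : 3 ≤ z0) (hz0R : z0 ≤ R) (hRM : R ≤ M) (hzR : z < R) (hz0z : z0 ≤ z) (hzf : zf ≤ z) (hb : C1f ≤ b)
    (hcc : cc < Wz z0) (hz3c : 3 * 2 ^ (4 * Fintype.card J) ≤ z0)
    (hmer : MerS (fun t : Pz z0 R => Real.log ((t : ℕ) : ℝ)) (fun t : Pz z0 R => 1 / (((t : ℕ) : ℝ) - 1))
      (Real.log z0) (Real.log R) (1 / 20))
    (hmsq : ∑ t : Pz z0 R, (1 / (((t : ℕ) : ℝ) - 1)) ^ 2 ≤ 1 / 20)
    (hbig : 4 * Real.log z0 ≤ Real.log R / (50 * 2 ^ K * (K + 1))) :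
    ∃ D : Su J, D.W = Wz z0 ∧ D.R = R ∧ D.z = z ∧ D.z0 = z0 ∧ D.b = b ∧ D.C1 = C1f ∧ D.A = A ∧ D.c0 = cc ∧
      (∀ p ∈ D.S, z0 ≤ p ∧ p < R) ∧ ∑ t : D.S, 1 / (((t : ℕ) : ℝ) - 1) ≤ Real.log (Real.log M) + 1 ∧
      (∀ i : J, ((K : ℝ) + 1) * (Real.log R / Real.log z0) / (96000 * 2 ^ K) * Wb D.ν (none : Option J) D.y ≤ Wb D.ν (some i) D.y) ∧
      (∀ i : Option J, Wb D.ν i (fun _ => 1) ≤ 2 * (600 * 2 ^ K * (K + 1)) ^ (2 ^ K + 1) * Wb D.ν i D.y) := by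
  have hSp : ∀ p ∈ Pz z0 R, p.Prime := fun p hp => (mem_filter.1 hp).2
  have hSz : ∀ p ∈ Pz z0 R, z0 ≤ p ∧ p < R := fun p hp => mem_Ico.1 (mem_filter.1 hp).1
  have hS3 : ∀ p ∈ Pz z0 R, 3 ≤ p := fun p hp => hz3.trans (hSz p hp).1
  have hsum := mer_sum z0 R M hz3 hz0R hRM hmer
  have hz3r : (3 : ℝ) ≤ z0 := by exact_mod_cast hz3
  have hlz1 : 1 ≤ Real.log z0 := by
    rw [Real.le_log_iff_exp_le (by linarith)]
    have := Real.exp_one_lt_d9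
    linarith
  obtain ⟨u, hu⟩ : ∃ u, u = Real.log R / (50 * 2 ^ K * (K + 1)) := ⟨_, rfl⟩
  have hKpos : (0 : ℝ) < 50 * 2 ^ K * ((K : ℝ) + 1) := by positivity
  have huw : Real.log R = 50 * 2 ^ K * (K + 1) * u := by
    rw [hu]; field_simp
  rw [← hu] at hbig
  have hratio := ratio (J := J) K hJ (fun t : Pz z0 R => Real.log ((t : ℕ) : ℝ))
    (fun t : Pz z0 R => 1 / (((t : ℕ) : ℝ) - 1)) (fun t => by
      have : (3 : ℝ) ≤ (t : ℕ) := by exact_mod_cast hS3 t t.2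
      apply div_nonneg zero_le_one; linarith) (Real.log z0) (Real.log R) (1 / 20) u (by linarith)
    (fun t => by
      have : (z0 : ℝ) ≤ (t : ℕ) := by exact_mod_cast (hSz t t.2).1
      exact Real.log_le_log (by linarith) this)
    (fun t => by
      have h1 : (3 : ℝ) ≤ (t : ℕ) := by exact_mod_cast hS3 t t.2
      have : ((t : ℕ) : ℝ) < R := by exact_mod_cast (hSz t t.2).2
      exact Real.log_lt_log (by linarith) this) le_rfl hmer hmsq huw hbig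
  obtain ⟨hr1, hr2, hr3⟩ := hratio
  have hWd : ∀ p : ℕ, p.Prime → (p ∣ Wz z0 ↔ p < z0) := fun p hp => dvd_Wz z0 p hp
  refine ⟨{
    S := Pz z0 R
    W := Wz z0
    R := R
    z := z
    z0 := z0
    b := b
    C1 := C1f
    zf := zf
    A := A
    c0 := cc
    y := yy (fun t : Pz z0 R => Real.log ((t : ℕ) : ℝ)) K u (Real.log R)
    hS := hSp
    hz0 := hz3
    hSz := filter_subset _ _
    hSall := fun p hp hpz hpW => by
      rw [hWd p hp] at hpW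
      unfold Pz
      rw [mem_filter, mem_Ico]
      exact ⟨⟨by omega, by omega⟩, hp⟩
    hSc := fun p hp => by
      have : 3 * 2 ^ (4 * Fintype.card J) ≤ p := hz3c.trans (hSz p hp).1
      exact_mod_cast this
    hW0 := Wz_pos z0
    hW := fun p hp hd => by
      rw [hWd p (hSp p hp)] at hd
      have := (hSz p hp).1
      omega
    hWz := fun p hp hd => by
      rw [hWd p hp] at hd
      omega
    hR1 := by omega
    hy1 := fun f => by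
      have h1 := yy_bd (fun t : Pz z0 R => Real.log ((t : ℕ) : ℝ)) K u (Real.log R) f
      rw [abs_of_nonneg h1.1]
      exact h1.2.2
    hys := fun f hf => yy_supp _ K u (Real.log R) f hf
    hc0 := hcc
    hfl := hfl
    hb := hb
    hz := hzf }, rfl, rfl, rfl, rfl, rfl, rfl, rfl, rfl, hSz, hsum, hr2, hr3⟩

/-- existence of the full data -/
theorem exSv (D0 : Su J) (K d B Cg M N1 : ℕ) (L θ C2 : ℝ) (g : J → ℤ[X])
    (hg : Gd g d D0.z0) (hd : 1 ≤ d) (hSd : ∀ p ∈ D0.S, D0.z0 ≤ p) (hL : L = Real.log M) (l8 : 8 ≤ L) (hM16 : 16 ≤ M)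
    (hMA : (M : ℝ) ≤ B * D0.A)
    (hC21 : 1 ≤ C2) (hr3 : ∀ i : Option J, Wb D0.ν i (fun _ => 1) ≤ C2 * Wb D0.ν i D0.y)
    (hθ0 : 0 < θ) (hθ : θ ≤ 1 / 2) (hlz : lam0 J + 2 ≤ D0.z0)
    (hzt : ∀ y0 Hm : ℕ, (lam0 J + 2) * (4 * (Fintype.card J : ℝ) ^ 2 * (Real.log Hm / Real.log y0) / y0) ≤ 1 / (D0.z0 : ℝ) → Tht J d D0.z0 y0 Hm (lam0 J + 2) ≤ θ / (16 * C2 ^ 2))
    (hVz : (Vz D0.z)⁻¹ ≤ L)
    (hhalf : (1 / 2 : ℝ) ^ D0.b ≤ 1 / L ^ (3 * 2 ^ (4 * Fintype.card J) + 3))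
    (hsum : ∑ t : D0.S, 1 / (((t : ℕ) : ℝ) - 1) ≤ Real.log L + 1)
    (hzb : (D0.z : ℝ) ^ (D0.C1 * D0.b) ≤ (M : ℝ) ^ (1 / 8 : ℝ)) (hR8 : (D0.R : ℝ) ^ 8 ≤ (M : ℝ) ^ (1 / 6 : ℝ))
    (lE : 2 * C2 ^ 2 * Real.exp (3 * 2 ^ (4 * Fintype.card J) : ℕ) / θ ≤ L)
    (gP2 : (4 * C2 ^ 2 * B * D0.W / θ) * L ^ 2 ≤ (M : ℝ) ^ (1 / 2 : ℝ))
    (gP3 : (128 * C2 ^ 2 * (Fintype.card J : ℝ) ^ 2 * d * Real.exp (9 * 2 ^ (4 * Fintype.card J) : ℕ) / θ) * L ^ (9 * 2 ^ (4 * Fintype.card J) + 2) ≤ (M : ℝ) ^ (1 / 2 : ℝ))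
    (lT : 3 * Real.exp (3 * (d + 1) * ((lam0 J + 2) * (4 * (Fintype.card J : ℝ) ^ 2)) * D0.z0) ≤ L)
    (hMθ : 4 * (Fintype.card J : ℝ) ^ 2 * d / θ + B * D0.W / θ ≤ M)
    (hN1 : ∀ n : ℕ, N1 ≤ n → ∀ j, (n : ℤ) ≤ 2 * (g j).eval (n : ℤ)) (hMN1 : 2 * N1 + 2 ≤ M) (hR4 : D0.R * 4 ≤ M)
    (hCg : ∀ j, cf (g j) ≤ Cg) (hCg1 : 1 ≤ Cg) (hCgM : Cg ≤ M)
    (hcop : ∀ n : ℤ, ∀ p : ℕ, p.Prime → p ∣ D0.W → ∀ j, ¬ (p : ℤ) ∣ (D0.c0 : ℤ) + (g j).eval n) :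
    ∃ D : Sv J, D.toSu = D0 ∧ D.g = g ∧ D.M = M ∧ D.N = Icc 1 M \ Icc 1 (M / 2) ∧ D.Hm = Cg * M ^ d ∧ D.C2 = C2 ∧ D.θ = θ ∧
      (∀ n ∈ D.N, ∀ j, (D.R : ℤ) ≤ (g j).eval (n : ℤ)) := by
  have hMr : (1 : ℝ) ≤ M := by exact_mod_cast (by omega : 1 ≤ M)
  have hM0r : (0 : ℝ) < M := by linarith
  have l1 : 1 ≤ L := by linarith
  have hκeq : D0.κ = (D0.A : ℝ) / D0.W := rfl
  have hW1r : (1 : ℝ) ≤ D0.W := by exact_mod_cast D0.hW0
  have hWκ : (D0.W : ℝ) * D0.κ = D0.A := by rw [hκeq]; field_simp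
  have hκ0 : 0 ≤ D0.κ := D0.κ_nonneg
  have hErr : C2 ^ 2 * D0.Err ≤ θ * D0.κ := by
    apply Err_small D0 L M θ C2 B l1 hMr hθ0 hC21 hVz hhalf hsum hzb hR8 _ lE gP2
    rw [mul_assoc, hWκ]
    exact hMA
  have hErr0 : 0 ≤ D0.Err := by
    unfold Su.Err
    have := D0.κ_nonneg
    positivity
  obtain ⟨M1, hM1⟩ : ∃ M1, M1 = M / 2 := ⟨_, rfl⟩
  rw [← hM1]
  obtain ⟨N, hN⟩ : ∃ N, N = Icc 1 M \ Icc 1 M1 := ⟨_, rfl⟩
  have hNmem : ∀ n ∈ N, M1 < n ∧ n ≤ M := by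
    intro n hn
    rw [hN, mem_sdiff, mem_Icc, mem_Icc] at hn
    omega
  have hNcard : #N = M - M1 := by
    rw [hN, card_sdiff_of_subset (Icc_subset_Icc_right (by omega)), Nat.card_Icc, Nat.card_Icc]
    omega
  have hNge : (M : ℝ) ≤ 4 * #N := by
    have : M ≤ 4 * #N := by rw [hNcard]; omega
    exact_mod_cast this
  have hval1 : ∀ n ∈ N, ∀ j, (D0.R : ℤ) ≤ (g j).eval (n : ℤ) := by
    intro n hn j
    have h1 := hNmem n hn
    have h3 := hN1 n (by omega) j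
    have h5 : (D0.R : ℤ) * 4 ≤ M := by exact_mod_cast hR4
    have h6 : (M : ℤ) ≤ 2 * n := by
      have : M ≤ 2 * n := by omega
      exact_mod_cast this
    linarith
  have hval2 : ∀ n ∈ N, ∀ j, (g j).eval (n : ℤ) ≤ ((Cg * M ^ d : ℕ) : ℤ) := by
    intro n hn j
    have h1 := hNmem n hn
    have h2 := (abs_le.1 (abs_eval_le (g j) n (by omega))).2
    rw [hg.deg j] at h2
    refine h2.trans ?_
    have h3 : cf (g j) * n ^ d ≤ Cg * M ^ d := Nat.mul_le_mul (hCg j) (Nat.pow_le_pow_left h1.2 d)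
    exact_mod_cast h3
  have hHm1 : 1 ≤ Cg * M ^ d := by
    have h1 : 1 ≤ M ^ d := Nat.one_le_pow _ _ (by omega)
    nlinarith
  have hHmM : Cg * M ^ d ≤ M ^ (d + 1) := by
    rw [pow_succ, mul_comm]
    exact Nat.mul_le_mul_left _ hCgM
  have hlogpow : Real.log ((M ^ (d + 1) : ℕ) : ℝ) = (d + 1) * L := by
    push_cast
    rw [Real.log_pow, ← hL]
    push_cast
    ring
  have hlam0 : 0 ≤ lam0 J + 2 := Sv.lam_nonneg
  have hz3r : (3 : ℝ) ≤ D0.z0 := by exact_mod_cast D0.hz0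
  obtain ⟨kJ, hkJ⟩ : ∃ kJ : ℝ, kJ = Fintype.card J := ⟨_, rfl⟩
  have hkJ0 : 0 ≤ kJ := by rw [hkJ]; exact Nat.cast_nonneg _
  -- y0
  obtain ⟨y0, hy0⟩ : ∃ y0 : ℕ, y0 = ⌊L / 2⌋₊ := ⟨_, rfl⟩
  have hy0le : (y0 : ℝ) ≤ L / 2 := by rw [hy0]; exact Nat.floor_le (by linarith)
  have hy0lt : L / 2 < y0 + 1 := by rw [hy0]; exact Nat.lt_floor_add_one _
  have hy0ge : L / 3 ≤ y0 := by linarith
  have hy03 : 3 ≤ y0 := by
    have : (2 : ℝ) < y0 := by linarith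
    have : 2 < y0 := by exact_mod_cast this
    omega
  have hMy : 4 ^ y0 ≤ M := by
    have h1 : ((4 ^ y0 : ℕ) : ℝ) ≤ M := by
      push_cast
      rw [show (4 : ℝ) ^ y0 = Real.exp (y0 * Real.log 4) by
        rw [mul_comm, Real.exp_mul, Real.exp_log (by norm_num), Real.rpow_natCast]]
      have h2 : Real.log 4 ≤ 2 := by
        have h3 : (4 : ℝ) = 2 ^ 2 := by norm_num
        rw [h3, Real.log_pow]
        have := Real.log_two_lt_d9
        push_cast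
        linarith
      have h4 : (y0 : ℝ) * Real.log 4 ≤ L := by
        calc (y0 : ℝ) * Real.log 4 ≤ (L / 2) * 2 := mul_le_mul hy0le h2 (Real.log_nonneg (by norm_num)) (by linarith)
          _ = L := by ring
      calc _ ≤ Real.exp L := Real.exp_le_exp.2 h4
        _ = M := by rw [hL, Real.exp_log hM0r]
    exact_mod_cast h1
  have hΘ : 16 * C2 ^ 2 * Tht J d D0.z0 y0 (Cg * M ^ d) (lam0 J + 2) ≤ θ := by
    have h1 : (lam0 J + 2) * (4 * (Fintype.card J : ℝ) ^ 2 * (Real.log ((Cg * M ^ d : ℕ) : ℝ) / Real.log y0) / y0) ≤ 1 / (D0.z0 : ℝ) := by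
      rw [← hkJ] at lT ⊢
      have h2 : Real.log ((Cg * M ^ d : ℕ) : ℝ) ≤ (d + 1) * L := by
        rw [← hlogpow]
        apply Real.log_le_log (by exact_mod_cast hHm1)
        exact_mod_cast hHmM
      have h3 : 3 * (d + 1) * ((lam0 J + 2) * (4 * kJ ^ 2)) * D0.z0 ≤ Real.log y0 := by
        rw [Real.le_log_iff_exp_le (by linarith)]
        linarith
      have h4 : 0 < Real.log y0 := Real.log_pos (by linarith)
      have hz0p : (0 : ℝ) < D0.z0 := by linarith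
      have hy0p : (0 : ℝ) < y0 := by linarith
      calc (lam0 J + 2) * (4 * kJ ^ 2 * (Real.log ((Cg * M ^ d : ℕ) : ℝ) / Real.log y0) / y0) ≤
            (lam0 J + 2) * (4 * kJ ^ 2 * (((d + 1) * (3 * y0)) / Real.log y0) / y0) := by
              gcongr
              refine h2.trans ?_
              apply mul_le_mul_of_nonneg_left _ (by positivity)
              linarith
        _ = (3 * (d + 1) * ((lam0 J + 2) * (4 * kJ ^ 2))) / Real.log y0 := by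
              field_simp
        _ ≤ 1 / D0.z0 := by
              rw [div_le_div_iff₀ h4 hz0p]
              linarith
    have h2 := hzt y0 (Cg * M ^ d) h1
    calc 16 * C2 ^ 2 * Tht J d D0.z0 y0 (Cg * M ^ d) (lam0 J + 2) ≤ 16 * C2 ^ 2 * (θ / (16 * C2 ^ 2)) := mul_le_mul_of_nonneg_left h2 (by positivity)
      _ = θ := by field_simp
  have hp1 : 0 ≤ 4 * (Fintype.card J : ℝ) ^ 2 * d / θ := by positivity
  have hp2 : 0 ≤ B * D0.W / θ := by positivity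
  have hcr := cr_small D0 L M (#N) θ C2 d l1 hMr hθ0 (by linarith) hC21 hVz hsum hErr hErr0 hNge gP3
  have hd1 : (Fintype.card J : ℝ) ^ 2 * d ≤ θ * #N := by
    have h1 : 4 * (Fintype.card J : ℝ) ^ 2 * d / θ ≤ M := by linarith
    rw [div_le_iff₀ hθ0] at h1
    nlinarith
  have hB0 : 1 ≤ B := by
    rcases Nat.eq_zero_or_pos B with h | h
    · exfalso
      rw [h] at hMA
      push_cast at hMA
      linarith
    · exact h
  have hB0r : (1 : ℝ) ≤ B := by exact_mod_cast hB0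
  have hκ1 : 1 ≤ θ * D0.κ := by
    have h1 : B * D0.W / θ ≤ M := by linarith
    rw [div_le_iff₀ hθ0] at h1
    have h2 : (B : ℝ) * D0.W ≤ B * D0.W * (θ * D0.κ) := by
      calc (B : ℝ) * D0.W ≤ M * θ := h1
        _ ≤ (B * D0.A) * θ := mul_le_mul_of_nonneg_right hMA hθ0.le
        _ = B * (D0.W * D0.κ) * θ := by rw [hWκ]
        _ = _ := by ring
    have h3 : (B : ℝ) * D0.W * 1 ≤ B * D0.W * (θ * D0.κ) := by rw [mul_one]; exact h2
    exact le_of_mul_le_mul_left h3 (by positivity)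
  refine ⟨{
    toSu := D0
    g := g
    d := d
    hg := hg.gp hd D0.S (fun p hp => ⟨D0.hS p hp, hSd p hp⟩)
    M := M
    N := N
    y0 := y0
    Hm := Cg * M ^ d
    C2 := C2
    θ := θ
    hN := by rw [hN]; exact sdiff_subset
    hMN := hNge
    hval := fun n hn j => ⟨by
      have := hval1 n hn j
      have h0 : (0 : ℤ) ≤ D0.R := by positivity
      linarith, hval2 n hn j⟩
    hcop := fun n _ p hp hpW j => hcop n p hp hpW j
    hy0 := hy03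
    hHm := hHm1
    hMy := hMy
    hdeg1 := fun j => by rw [hg.deg j]; exact hd
    hdeg := fun j => (hg.deg j).le
    hne := fun j j' hj h => by
      have := hg.df j j' hj
      rw [h, sub_self, natDegree_zero] at this
      omega
    hC2 := hr3
    hC21 := hC21
    hlz := hlz
    hθ0 := hθ0
    hθ := hθ
    hΘ := hΘ
    hErr := hErr
    hcr := hcr
    hd1 := hd1
    hκ1 := hκ1 }, rfl, rfl, rfl, hN, rfl, rfl, rfl, hval1⟩

end ex

end Pool.Agent.H544.BC
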