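import Mathlib
import Pool.Agent.H544.BC.M16

/-!
The theorem for one class of arguments and shifts.
-/

set_option autoImplicit false
set_option linter.unusedSectionVars false

namespace Pool.Agent.H544.BC
open Finset Polynomial
open Pool.Agent.H373R2.T7
open Pool.Agent.R498.MT (lz MerS gp)
open Pool.Agent.H544.LD (cls Gz)
open Pool.Agent.N913.MT (evt_log_ge evt_log_pow Wz Wz_pos dvd_Wz Pz mers mer_sum yy yy_bd yy_supp ratio Wb)

/-- one class -/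
theorem class_thm {J : Type} [Fintype J] [DecidableEq J] (K m q d : ℕ) (hJ : Fintype.card J = 2 ^ K) (hm : 1 ≤ m) (hd : 1 ≤ d)
    (hq : 16 * (d + 2) ≤ q)
    (c0 : ℝ) (hc0 : 0 < c0) (zc : ℕ) (hzc : ∀ z0, zc ≤ z0 → c0 * Real.log z0 ≤ (Wz z0 : ℝ) / Nat.totient (Wz z0))
    (hK : 2304000 * (m : ℝ) * (d + 1) * q ≤ c0 * (K + 1)) (θ : ℝ) (hθ0 : 0 < θ) (hθ : θ ≤ 1 / 2) :
    ∃ z1 : ℕ, ∀ z0 : ℕ, z1 ≤ z0 → ∀ g : J → ℤ[X], Gd g d z0 → ∀ B : ℕ, ∃ M0 : ℕ, ∀ M : ℕ, M0 ≤ M → ∀ A : ℕ, A ≤ B * M ^ d → M ^ d ≤ B * A →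
    ∀ cc < Wz z0, (∀ n : ℤ, ∀ p : ℕ, p.Prime → p ∣ Wz z0 → ∀ j, ¬ (p : ℤ) ∣ (cc : ℤ) + (g j).eval n) →
    ∃ Bad ⊆ cls A (Wz z0) cc, (#Bad : ℝ) ≤ 41 * (2 ^ K + 1) * θ * ((A : ℝ) / Wz z0) ∧
    ∀ c ∈ cls A (Wz z0) cc, c ∉ Bad → (M : ℝ) ≤ ((M : ℝ) ^ (1 / (q : ℝ))) ^ 3 * #(GG g (Icc 1 M) m c) := by
  classical
  obtain ⟨zm, hzm⟩ := mers
  obtain ⟨C1f, zf, hC1f, hzf, hfl⟩ := flcT 2
  obtain ⟨C2, hC2d⟩ : ∃ C2 : ℝ, C2 = 2 * (600 * 2 ^ K * (K + 1)) ^ (2 ^ K + 1) := ⟨_, rfl⟩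
  have hC21 : 1 ≤ C2 := by
    rw [hC2d]
    have h2K : (1 : ℝ) ≤ 2 ^ K := one_le_pow₀ (by norm_num)
    have hK0 : (0 : ℝ) ≤ K := Nat.cast_nonneg K
    have h1 : (1 : ℝ) ≤ 600 * 2 ^ K * (K + 1) := by nlinarith
    have h2 : (1 : ℝ) ≤ (600 * 2 ^ K * (K + 1)) ^ (2 ^ K + 1) := one_le_pow₀ h1
    linarith
  have hC22 : 1 ≤ C2 ^ 2 := one_le_pow₀ hC21
  have hlam0 : 0 ≤ lam0 J + 2 := Sv.lam_nonneg
  obtain ⟨zt, hzt1, hzt⟩ := tht_small J d (lam0 J + 2) (θ / (16 * C2 ^ 2)) hlam0 (by positivity)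
  obtain ⟨zl, hzl⟩ := exists_nat_ge (lam0 J + 2)
  refine ⟨zm + zc + zt + zl + d + 3 * 2 ^ (4 * Fintype.card J) + 3, fun z0 hz0 g hg B => ?_⟩
  have z_m : zm ≤ z0 := by omega
  have z_c : zc ≤ z0 := by omega
  have z_t : zt ≤ z0 := by omega
  have z_l : zl ≤ z0 := by omega
  have z_cc : 3 * 2 ^ (4 * Fintype.card J) ≤ z0 := by omega
  have z_3 : 3 ≤ z0 := by omega
  have z_d : d < z0 := by omega
  obtain ⟨W, hW⟩ : ∃ W, W = Wz z0 := ⟨_, rfl⟩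
  rw [← hW]
  have hW1 : 1 ≤ W := by rw [hW]; exact Wz_pos z0
  have hW1r : (1 : ℝ) ≤ W := by exact_mod_cast hW1
  obtain ⟨Cc, hCc⟩ : ∃ Cc, Cc = Fintype.card J * (d + 2) + 4 ^ Fintype.card J := ⟨_, rfl⟩
  have hCc1 : 1 ≤ Cc := by
    have : 1 ≤ 4 ^ Fintype.card J := Nat.one_le_pow _ _ (by norm_num)
    omega
  have hlev := fun j => level (g j) (by rw [hg.deg j]; exact hd) (hg.ld j) B 3 Cc 0 hCc1
  choose E0 hE0 using hlev
  obtain ⟨E1, hE1⟩ : ∃ E1, E1 = univ.sup E0 + 1 := ⟨_, rfl⟩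
  have hE1j : ∀ j, E0 j ≤ E1 := fun j => by
    have := le_sup (f := E0) (mem_univ j)
    omega
  choose N0 hN0 using fun j => hE0 j (E1 + 1)
  choose n1 hn1 using fun j => val_ge (g j) (by rw [hg.deg j]; exact hd) (hg.ld j)
  have hsup : ∀ (f : J → ℕ) (j : J), f j ≤ ∑ j, f j := fun f j => single_le_sum (fun _ _ => Nat.zero_le _) (mem_univ j)
  obtain ⟨Cg, hCg⟩ : ∃ Cg, Cg = ∑ j, cf (g j) + 1 := ⟨_, rfl⟩
  have hCgj : ∀ j, cf (g j) ≤ Cg := fun j => by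
    have := hsup (fun j => cf (g j)) j
    omega
  obtain ⟨c3, hc3⟩ : ∃ c3 : ℕ, c3 = 3 * 2 ^ (4 * Fintype.card J) := ⟨_, rfl⟩
  obtain ⟨c4, hc4⟩ : ∃ c4 : ℕ, c4 = 9 * 2 ^ (4 * Fintype.card J) := ⟨_, rfl⟩
  obtain ⟨Nb, hNb⟩ := bch C1f (E1 + 1) (c3 + 3) (1 / 8) (by norm_num)
  obtain ⟨NV, hNV⟩ := Vz_inv_small (E1 + 1)
  obtain ⟨kJ, hkJ⟩ : ∃ kJ : ℝ, kJ = Fintype.card J := ⟨_, rfl⟩
  have hkJ0 : 0 ≤ kJ := by rw [hkJ]; exact Nat.cast_nonneg _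
  have hq48 : 48 ≤ q := by omega
  have hq48r : (48 : ℝ) ≤ q := by exact_mod_cast hq48
  have hq0 : (0 : ℝ) < q := by linarith
  have hqa : (0 : ℝ) < 1 / (q : ℝ) := by positivity
  -- the constants
  obtain ⟨KL, hKL⟩ : ∃ KL : ℝ, KL = 2 * C2 ^ 2 * Real.exp c3 / θ + 3 * Real.exp (3 * (d + 1) * ((lam0 J + 2) * (4 * kJ ^ 2)) * z0) +
      288 * C2 * W / θ + 400 * q * (2 ^ K * (K + 1)) * z0 + 2 * q + z0 + zf + 8 := ⟨_, rfl⟩
  have k0 : 0 ≤ 2 * C2 ^ 2 * Real.exp c3 / θ := by positivity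
  have k1 : 0 ≤ 3 * Real.exp (3 * (d + 1) * ((lam0 J + 2) * (4 * kJ ^ 2)) * z0) := by positivity
  have k2 : 0 ≤ 288 * C2 * W / θ := by positivity
  have k3 : (0 : ℝ) ≤ 400 * q * (2 ^ K * (K + 1)) * z0 := by positivity
  have k4 : (0 : ℝ) ≤ 2 * q := by positivity
  have k5 : (0 : ℝ) ≤ z0 := by positivity
  have k6 : (0 : ℝ) ≤ zf := by positivity
  obtain ⟨Mθ, hMθ⟩ := exists_nat_ge (4 * kJ ^ 2 * d / θ + B * W / θ)
  obtain ⟨M0, hM0⟩ := Filter.eventually_atTop.1 ((evt_log_ge KL).and ((evt_log_pow (1 / (q : ℝ)) hqa 4 (E1 + 1)).and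
    ((evt_log_pow (1 / 2) (by norm_num) (4 * C2 ^ 2 * B * W / θ) 2).and
    ((evt_log_pow (1 / 2) (by norm_num) (128 * C2 ^ 2 * kJ ^ 2 * d * Real.exp c4 / θ) (c4 + 2)).and
    (evt_log_pow (1 / (q : ℝ)) hqa (4 * C2 * kJ * 3 ^ (2 * Fintype.card J)) (2 * Fintype.card J))))))
  refine ⟨M0 + (∑ j, N0 j + 2 * ∑ j, n1 j + Nb + NV + Mθ + B + Cg + 16), fun M hM A hA1 hA2 cc hcc hcop => ?_⟩
  obtain ⟨gL, gP1, gP2, gP3, gP4⟩ := hM0 M (by omega)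
  have hMN0 : ∀ j, N0 j ≤ M := fun j => by
    have := hsup N0 j
    omega
  have hMn1 : 2 * (∑ j, n1 j) + 2 ≤ M := by omega
  have hM16 : 16 ≤ M := by omega
  obtain ⟨L, hL⟩ : ∃ L, L = Real.log M := ⟨_, rfl⟩
  have hVz := hNV M (by omega)
  obtain ⟨b, hb1, hb2, hb3⟩ := hNb M (by omega)
  rw [← hL] at gL gP1 gP2 gP3 gP4 hVz hb2 hb3
  have hMr : (1 : ℝ) ≤ M := by exact_mod_cast (by omega : 1 ≤ M)
  have hM0r : (0 : ℝ) < M := by linarith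
  have l8 : 8 ≤ L := by linarith
  have l1 : 1 ≤ L := by linarith
  have lq : 2 * q ≤ L := by linarith
  have lz0 : (z0 : ℝ) ≤ L := by linarith
  have lzf : (zf : ℝ) ≤ L := by linarith
  have lC : 288 * C2 * W / θ ≤ L := by linarith
  have lE : 2 * C2 ^ 2 * Real.exp c3 / θ ≤ L := by linarith
  have lK : 400 * q * (2 ^ K * (K + 1)) * z0 ≤ L := by linarith
  have lT : 3 * Real.exp (3 * (d + 1) * ((lam0 J + 2) * (4 * kJ ^ 2)) * z0) ≤ L := by linarith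
  -- z
  obtain ⟨z, hz⟩ : ∃ z : ℕ, z = ⌈L ^ E1⌉₊ := ⟨_, rfl⟩
  have hzge : L ^ E1 ≤ z := by rw [hz]; exact Nat.le_ceil _
  have hE1' : L ≤ L ^ E1 := by
    have : E1 = (E1 - 1) + 1 := by omega
    rw [this, pow_succ]
    exact le_mul_of_one_le_left (by linarith) (one_le_pow₀ l1)
  have hzle : (z : ℝ) ≤ L ^ (E1 + 1) := by
    have h1 := Nat.ceil_lt_add_one (by positivity : 0 ≤ L ^ E1)
    rw [← hz] at h1
    rw [pow_succ]
    have h2 : L ^ E1 * 2 ≤ L ^ E1 * L := mul_le_mul_of_nonneg_left (by linarith) (by positivity)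
    have h3 : 1 ≤ L ^ E1 := one_le_pow₀ l1
    linarith
  have hz0z : z0 ≤ z := by
    have : (z0 : ℝ) ≤ z := by linarith
    exact_mod_cast this
  have hzfz : zf ≤ z := by
    have : (zf : ℝ) ≤ z := by linarith
    exact_mod_cast this
  have hVz' := hVz z (by omega) hzle
  have hzb := hb3 z hzle
  -- T and R
  obtain ⟨T, hT⟩ : ∃ T : ℝ, T = (M : ℝ) ^ (1 / (q : ℝ)) := ⟨_, rfl⟩
  rw [← hT] at gP1 gP4 ⊢
  have hTq : T ^ q = M := by
    rw [hT, ← Real.rpow_natCast, ← Real.rpow_mul hM0r.le, one_div_mul_cancel hq0.ne', Real.rpow_one]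
  have hT1 : 1 ≤ T := by rw [hT]; exact Real.one_le_rpow hMr hqa.le
  have hT4 : 4 ≤ T := by
    have : (1 : ℝ) ≤ L ^ (E1 + 1) := one_le_pow₀ l1
    linarith
  have hTp : ∀ n : ℕ, ∀ a : ℝ, (n : ℝ) ≤ a * q → T ^ n ≤ (M : ℝ) ^ a := by
    intro n a hna
    rw [hT, ← Real.rpow_natCast, ← Real.rpow_mul hM0r.le]
    apply Real.rpow_le_rpow_of_exponent_le hMr
    rw [one_div, inv_mul_le_iff₀ hq0, mul_comm]
    exact hna
  obtain ⟨R, hR⟩ : ∃ R : ℕ, R = ⌊T⌋₊ := ⟨_, rfl⟩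
  have hRle : (R : ℝ) ≤ T := by rw [hR]; exact Nat.floor_le (by linarith)
  have hRge : T < R + 1 := by rw [hR]; exact Nat.lt_floor_add_one T
  have hR1 : 1 ≤ R := by
    have : (1 : ℝ) ≤ R := by linarith
    exact_mod_cast this
  have hzR : z < R := by
    have h1 : (z : ℝ) ≤ T / 4 := by linarith
    have h2 : (z : ℝ) < R := by linarith
    exact_mod_cast h2
  have hz0R : z0 ≤ R := by omega
  have hRp : ∀ n : ℕ, n ≤ q → R ^ n ≤ M := by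
    intro n hn
    have h1 : (R : ℝ) ^ n ≤ M := by
      calc (R : ℝ) ^ n ≤ T ^ n := pow_le_pow_left₀ (Nat.cast_nonneg _) hRle n
        _ ≤ T ^ q := pow_le_pow_right₀ hT1 hn
        _ = M := hTq
    exact_mod_cast h1
  have hRM : R ≤ M := by
    have := hRp 1 (by omega)
    rwa [pow_one] at this
  have hR8 : (R : ℝ) ^ 8 ≤ (M : ℝ) ^ (1 / 6 : ℝ) :=
    (pow_le_pow_left₀ (Nat.cast_nonneg _) hRle 8).trans (hTp 8 (1 / 6) (by push_cast; linarith))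
  have hlogR : L / (2 * q) ≤ Real.log R := by
    have h1 : T / 2 ≤ R := by linarith
    have h2 := Real.log_le_log (by linarith : 0 < T / 2) h1
    rw [Real.log_div (by linarith) (by norm_num)] at h2
    have h3 : Real.log T = L / q := by
      rw [hT, Real.log_rpow hM0r, ← hL]; ring
    have h4 := Real.log_two_lt_d9
    have h5 : 1 ≤ L / (2 * q) := by rw [one_le_div (by positivity)]; exact lq
    have h6 : L / q = L / (2 * q) + L / (2 * q) := by field_simp; ring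
    linarith
  -- the powers
  have hMd : (M : ℝ) ≤ (M : ℝ) ^ d := by
    calc (M : ℝ) = (M : ℝ) ^ 1 := (pow_one _).symm
      _ ≤ _ := pow_le_pow_right₀ hMr hd
  have hA2r : (M : ℝ) ^ d ≤ B * A := by exact_mod_cast hA2
  have hMA : (M : ℝ) ≤ B * A := hMd.trans hA2r
  have hB0 : 1 ≤ B := by
    rcases Nat.eq_zero_or_pos B with h | h
    · exfalso
      rw [h] at hMA
      push_cast at hMA
      linarith
    · exact h
  have hB0r : (1 : ℝ) ≤ B := by exact_mod_cast hB0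
  have hRA : R ^ 2 ≤ A := by
    have h1 : (B : ℝ) ≤ (M : ℝ) ^ (1 / 2 : ℝ) := by
      refine le_trans ?_ gP2
      have h3 : 1 ≤ 4 * C2 ^ 2 * W / θ * L ^ 2 := by
        apply one_le_mul_of_one_le_of_one_le _ (one_le_pow₀ l1)
        rw [one_le_div hθ0]
        have h4 : 1 * 1 ≤ C2 ^ 2 * W := mul_le_mul hC22 hW1r zero_le_one (by positivity)
        linarith
      calc (B : ℝ) = B * 1 := by ring
        _ ≤ B * (4 * C2 ^ 2 * W / θ * L ^ 2) := mul_le_mul_of_nonneg_left h3 (by linarith)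
        _ = _ := by ring
    have h2 : (R : ℝ) ^ 2 ≤ (M : ℝ) ^ (1 / 2 : ℝ) :=
      (pow_le_pow_left₀ (Nat.cast_nonneg _) hRle 2).trans (hTp 2 (1 / 2) (by push_cast; linarith))
    have h3 : (B : ℝ) * (R : ℝ) ^ 2 ≤ B * A := by
      calc (B : ℝ) * (R : ℝ) ^ 2 ≤ (M : ℝ) ^ (1 / 2 : ℝ) * (M : ℝ) ^ (1 / 2 : ℝ) := mul_le_mul h1 h2 (by positivity) (by positivity)
        _ = M := by rw [← Real.rpow_add hM0r]; norm_num
        _ ≤ _ := hMA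
    have h4 := le_of_mul_le_mul_left h3 (by linarith)
    exact_mod_cast h4
  obtain ⟨hmer, hmsq⟩ := hzm z0 z_m R
  have hz3r : (3 : ℝ) ≤ z0 := by exact_mod_cast z_3
  have hlz1 : 1 ≤ Real.log z0 := by
    rw [Real.le_log_iff_exp_le (by linarith)]
    have := Real.exp_one_lt_d9
    linarith
  have hbig : 4 * Real.log z0 ≤ Real.log R / (50 * 2 ^ K * (K + 1)) := by
    have hKpos : (0 : ℝ) < 50 * 2 ^ K * ((K : ℝ) + 1) := by positivity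
    have h1 : Real.log z0 ≤ z0 := by
      have := Real.log_le_sub_one_of_pos (show (0 : ℝ) < z0 by linarith)
      linarith
    rw [le_div_iff₀ hKpos]
    refine le_trans ?_ hlogR
    rw [le_div_iff₀ (by positivity)]
    calc 4 * Real.log z0 * (50 * 2 ^ K * (K + 1)) * (2 * q) ≤ 4 * z0 * (50 * 2 ^ K * (K + 1)) * (2 * q) := by gcongr
      _ = 400 * q * (2 ^ K * (K + 1)) * z0 := by ring
      _ ≤ L := lK
  have hR4 : R * 4 ≤ M := by
    have h5 := hRp 2 (by omega)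
    have h6 : 4 ≤ R := by omega
    calc R * 4 ≤ R * R := Nat.mul_le_mul_left _ h6
      _ = R ^ 2 := (sq R).symm
      _ ≤ M := h5
  -- the data
  obtain ⟨D0, e1, e2, e3, e4, e5, e6, e7, e8, hS0, hsum, hr2, hr3⟩ := exSu (J := J) K hJ C1f zf hfl z0 R M z b A cc z_3 hz0R hRM hzR hz0z hzfz hb1
    (by rw [← hW]; exact hcc) z_cc hmer hmsq hbig
  rw [← hL] at hsum
  rw [← hC2d] at hr3
  rw [← hW] at e1
  subst e1 e2 e3 e4 e5 e7 e8
  obtain ⟨D, f1, f2, f3, f4, f5, f6, f7, hRg⟩ := exSv D0 K d B Cg M (∑ j, n1 j) L θ C2 g hg hd (fun p hp => (hS0 p hp).1) hL l8 hM16 hMA hC21 hr3 hθ0 hθ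
    (by
      have : (zl : ℝ) ≤ D0.z0 := by exact_mod_cast z_l
      linarith) (hzt D0.z0 z_t) hVz' (by rw [← hc3]; exact hb2) hsum (by rw [e6]; exact hzb) hR8 (by rw [← hc3]; exact lE) gP2 (by rw [← hc4, ← hkJ]; exact gP3)
    (by rw [← hkJ]; exact lT) (by
      rw [← hkJ]
      refine hMθ.trans ?_
      exact_mod_cast (by omega : Mθ ≤ M)) (fun n hn j => hn1 j n ((hsup n1 j).trans hn)) hMn1 hR4 hCgj (by omega) (by omega)
    (fun n p hp hpW j => hcop n p hp hpW j)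
  have hfin := fin_sv D K m q d Cc (M / 2) L T c0 hJ hm hd hq0 hc0 (by rw [f1, hW]; exact hzc D0.z0 z_c) hK (by rw [f2, f1]; exact hg)
    (by rw [f3]; exact hL) l1 hT1 (by rw [f3]; omega) (by rw [f4, f3]) (by rw [f2]; exact hRg) (by rw [f1]; exact hlz1) (by rw [f1]; exact hlogR)
    (by rw [f1]; exact mass_le D0.hS3 L l1 hsum) (by rw [f6, f7, f1]; exact lC)
    (by
      unfold Sv.MM
      rw [f1]
      exact hr2) (by rw [hCc]; exact Nat.le_add_right _ _) (by rw [hCc]; exact Nat.le_add_left _ _) (by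
      intro j y' hy' k hk 𝒮 h𝒮 Ψ hΨ hΨp
      rw [f3] at hy' h𝒮 ⊢
      rw [f2] at hk h𝒮 ⊢
      rw [f1] at h𝒮 ⊢
      have h1 := hN0 j M (hMN0 j) D0.A (by rw [hg.deg j]; exact hA1) (by rw [hg.deg j]; exact hA2) D0.z (by
        rw [← hL]
        refine le_trans ?_ hzge
        exact pow_le_pow_right₀ l1 (hE1j j)) (by rw [← hL]; exact hzle) y' hy' k hk 𝒮 h𝒮 Ψ hΨ hΨp
      rw [← hL] at h1
      exact h1) (by rw [f1]; exact hRA) (by
      rw [f1, f3, ← pow_mul]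
      exact hRp _ (by omega)) (by rw [f1]; exact hRle) (by
      rw [f1, f3, f5]
      have h1 : D0.A + Cg * M ^ d ≤ (B + Cg) * M ^ d := by
        rw [add_mul]; omega
      refine h1.trans ?_
      rw [pow_succ, mul_comm]
      exact Nat.mul_le_mul_left _ (by omega)) (by
      rw [f1]
      intro p hp
      have := (hS0 p hp).1
      exact ⟨by omega, this⟩) (by rw [f6, ← hkJ]; exact gP4)
  rw [f1, f3, f2, f7] at hfin
  exact hfin

end Pool.Agent.H544.BC
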