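import Mathlib
import Pool.Agent.H544.BC.M17

/-!
The theorem for systems of polynomials.
-/

set_option autoImplicit false
set_option linter.unusedSectionVars false

namespace Pool.Agent.H544.BC
open Finset Polynomial
open Pool.Agent.H544.LD (cls)
open Pool.Agent.N913.MT (evt_log_ge evt_log_pow Wz Wz_pos dvd_Wz Wphi)

/-- no prime divides a value of the system at every argument -/
def Adm {J : Type} (f : J → ℤ[X]) (c : ℕ) : Prop := ∀ p : ℕ, p.Prime → ∃ n : ℤ, ∀ j, ¬ (p : ℤ) ∣ (c : ℤ) + (f j).eval n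

lemma dvd_shift (f : ℤ[X]) (p : ℕ) (a b : ℤ) (c c' : ℤ) (h : (p : ℤ) ∣ a - b) (h' : (p : ℤ) ∣ c - c') : (p : ℤ) ∣ c + f.eval a ↔ (p : ℤ) ∣ c' + f.eval b := by
  have h1 : (p : ℤ) ∣ f.eval a - f.eval b := h.trans (Polynomial.sub_dvd_eval_sub _ _ _)
  have h2 : (p : ℤ) ∣ (c + f.eval a) - (c' + f.eval b) := by
    have e : (c + f.eval a) - (c' + f.eval b) = (c - c') + (f.eval a - f.eval b) := by ring
    rw [e]
    exact dvd_add h' h1
  constructor
  · intro h3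
    have := dvd_sub h3 h2
    simpa using this
  · intro h3
    have := dvd_add h3 h2
    simpa using this

lemma crt_W (z0 : ℕ) (v : ℕ → ℤ) : ∃ n0 : ℕ, n0 < Wz z0 ∧ ∀ p : ℕ, p.Prime → p < z0 → (p : ℤ) ∣ (n0 : ℤ) - v p := by
  classical
  have hpp : Set.Pairwise (((range z0).filter Nat.Prime : Finset ℕ) : Set ℕ) (Function.onFun Nat.Coprime (fun p : ℕ => p)) := by
    intro p hp p' hp' hne
    rw [mem_coe, mem_filter] at hp hp'
    exact (Nat.coprime_primes hp.2 hp'.2).2 hne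
  have hs : ∀ i ∈ (range z0).filter Nat.Prime, (fun p : ℕ => p) i ≠ 0 := fun i hi => (mem_filter.1 hi).2.ne_zero
  refine ⟨(Nat.chineseRemainderOfFinset (fun p : ℕ => ((v p) % (p : ℤ)).toNat) (fun p : ℕ => p) ((range z0).filter Nat.Prime) hs hpp : ℕ), ?_, ?_⟩
  · unfold Wz
    exact Nat.chineseRemainderOfFinset_lt_prod _ _ hs hpp
  · intro p hp hpz
    have h1 := (Nat.chineseRemainderOfFinset (fun p : ℕ => ((v p) % (p : ℤ)).toNat) (fun p : ℕ => p) ((range z0).filter Nat.Prime) hs hpp).2 p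
      (mem_filter.2 ⟨mem_range.2 hpz, hp⟩)
    have h2 := (Int.natCast_modEq_iff.2 h1)
    have h3 : (((v p) % (p : ℤ)).toNat : ℤ) = (v p) % (p : ℤ) := Int.toNat_of_nonneg (Int.emod_nonneg _ (by exact_mod_cast hp.ne_zero))
    rw [h3] at h2
    have h4 := h2.trans (Int.mod_modEq _ _)
    exact (Int.modEq_iff_dvd.1 h4.symm)

/-- the system for arithmetic progressions -/
theorem Gd_comp {J : Type} (f : J → ℤ[X]) (d z0 n0 : ℕ) (hdeg : ∀ j, (f j).natDegree = d) (hl : ∀ j, 0 < (f j).leadingCoeff)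
    (hdf : ∀ i j, i ≠ j → 1 ≤ (f i - f j).natDegree) (h1 : ∀ j, (f j).leadingCoeff.natAbs < z0) (h2 : ∀ i j, (f i - f j).leadingCoeff.natAbs < z0) :
    Gd (fun j => (f j).comp (C (Wz z0 : ℤ) * X + C (n0 : ℤ))) d z0 := by
  have hW : (Wz z0 : ℤ) ≠ 0 := by
    have := Wz_pos z0
    exact_mod_cast (by omega : Wz z0 ≠ 0)
  have hW0 : (0 : ℤ) < Wz z0 := by exact_mod_cast Wz_pos z0
  have hn : (C (Wz z0 : ℤ) * X + C (n0 : ℤ)).natDegree = 1 := natDegree_linear hW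
  have hlc : (C (Wz z0 : ℤ) * X + C (n0 : ℤ)).leadingCoeff = (Wz z0 : ℤ) := leadingCoeff_linear hW
  have key : ∀ (F : ℤ[X]), F ≠ 0 → F.leadingCoeff.natAbs < z0 → ∀ p : ℕ, p.Prime → z0 ≤ p → ¬ (p : ℤ) ∣ (F.comp (C (Wz z0 : ℤ) * X + C (n0 : ℤ))).leadingCoeff := by
    intro F hF hFz p hp hpz hd
    rw [leadingCoeff_comp (by rw [hn]; norm_num), hlc] at hd
    rcases (Nat.prime_iff_prime_int.1 hp).dvd_or_dvd hd with h | h
    · have h3 := Int.natAbs_dvd_natAbs.2 h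
      rw [Int.natAbs_natCast] at h3
      have h4 := Nat.le_of_dvd (Int.natAbs_pos.2 (leadingCoeff_ne_zero.2 hF)) h3
      omega
    · have h3 := (Nat.prime_iff_prime_int.1 hp).dvd_of_dvd_pow h
      have h4 : p ∣ Wz z0 := by exact_mod_cast h3
      rw [dvd_Wz z0 p hp] at h4
      omega
  refine ⟨?_, ?_, ?_, ?_, ?_⟩
  · intro j
    rw [natDegree_comp, hn, hdeg j, mul_one]
  · intro j
    rw [leadingCoeff_comp (by rw [hn]; norm_num), hlc]
    have := hl j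
    positivity
  · intro j p hp hpz
    exact key (f j) (fun h => by have := hl j; rw [h] at this; simp at this) (h1 j) p hp hpz
  · intro j j' hj
    rw [← sub_comp, natDegree_comp, hn, mul_one]
    exact hdf j j' hj
  · intro j j' hj p hp hpz
    rw [← sub_comp]
    exact key (f j - f j') (fun h => by have := hdf j j' hj; rw [h] at this; simp at this) (h2 j j') p hp hpz

/-- systems with a power of two members -/
theorem sys_thm {J : Type} [Fintype J] [DecidableEq J] (K m q d : ℕ) (hJ : Fintype.card J = 2 ^ K) (hm : 1 ≤ m) (hd : 1 ≤ d)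
    (hq : 16 * (d + 2) ≤ q)
    (c0 : ℝ) (hc0 : 0 < c0) (zc : ℕ) (hzc : ∀ z0, zc ≤ z0 → c0 * Real.log z0 ≤ (Wz z0 : ℝ) / Nat.totient (Wz z0))
    (hK : 2304000 * (m : ℝ) * (d + 1) * q ≤ c0 * (K + 1)) (f : J → ℤ[X]) (hdeg : ∀ j, (f j).natDegree = d) (hl : ∀ j, 0 < (f j).leadingCoeff)
    (hdf : ∀ i j, i ≠ j → 1 ≤ (f i - f j).natDegree) (B : ℕ) (ε : ℝ) (hε : 0 < ε) :
    ∃ x0 : ℕ, ∀ x : ℕ, x0 ≤ x → ∀ A : ℕ, A ≤ B * x ^ d → x ^ d ≤ B * A →
    ∃ Bad : Finset ℕ, (#Bad : ℝ) ≤ ε * A ∧ ∀ c ∈ Icc 1 A, c ∉ Bad → Adm f c → (x : ℝ) ^ (1 - 4 / (q : ℝ)) ≤ #(GG f (Icc 1 x) m c) := by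
  classical
  obtain ⟨θ, hθd⟩ : ∃ θ : ℝ, θ = min (1 / 2) (ε / (41 * (2 ^ K + 1))) := ⟨_, rfl⟩
  have hθ0 : 0 < θ := by rw [hθd]; exact lt_min (by norm_num) (by positivity)
  have hθ : θ ≤ 1 / 2 := by rw [hθd]; exact min_le_left _ _
  have hθε : 41 * (2 ^ K + 1) * θ ≤ ε := by
    have h1 : θ ≤ ε / (41 * (2 ^ K + 1)) := by rw [hθd]; exact min_le_right _ _
    rw [le_div_iff₀ (by positivity)] at h1
    linarith
  obtain ⟨z1, hz1⟩ := class_thm (J := J) K m q d hJ hm hd hq c0 hc0 zc hzc hK θ hθ0 hθ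
  obtain ⟨z0, hz0⟩ : ∃ z0, z0 = z1 + ∑ j, (f j).leadingCoeff.natAbs + ∑ i, ∑ j, (f i - f j).leadingCoeff.natAbs + 1 := ⟨_, rfl⟩
  have hlead1 : ∀ j, (f j).leadingCoeff.natAbs < z0 := by
    intro j
    have := single_le_sum (f := fun j => (f j).leadingCoeff.natAbs) (fun _ _ => Nat.zero_le _) (mem_univ j)
    omega
  have hlead2 : ∀ i j, (f i - f j).leadingCoeff.natAbs < z0 := by
    intro i j
    have h1 := single_le_sum (f := fun j => (f i - f j).leadingCoeff.natAbs) (fun _ _ => Nat.zero_le _) (mem_univ j)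
    have h2 := single_le_sum (f := fun i => ∑ j, (f i - f j).leadingCoeff.natAbs) (fun _ _ => Nat.zero_le _) (mem_univ i)
    omega
  obtain ⟨W, hW⟩ : ∃ W, W = Wz z0 := ⟨_, rfl⟩
  have hW1 : 1 ≤ W := by rw [hW]; exact Wz_pos z0
  have hW1r : (1 : ℝ) ≤ W := by exact_mod_cast hW1
  choose M0 hM0 using fun n0 : ℕ => hz1 z0 (by omega) (fun j => (f j).comp (C (Wz z0 : ℤ) * X + C (n0 : ℤ)))
    (Gd_comp f d z0 n0 hdeg hl hdf hlead1 hlead2) (B * (3 * W) ^ d)
  have hq48 : 48 ≤ q := by omega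
  have hq48r : (48 : ℝ) ≤ q := by exact_mod_cast hq48
  have hq0 : (0 : ℝ) < q := by linarith
  have hqa : (0 : ℝ) < 1 / (q : ℝ) := by positivity
  obtain ⟨Ms, hMs⟩ : ∃ Ms, Ms = ∑ n0 ∈ range W, M0 n0 := ⟨_, rfl⟩
  have hMs' : ∀ n0 < W, M0 n0 ≤ Ms := fun n0 hn0 => by
    rw [hMs]
    exact single_le_sum (fun _ _ => Nat.zero_le _) (mem_range.2 hn0)
  obtain ⟨x1, hx1⟩ := Filter.eventually_atTop.1 (evt_log_pow (1 / (q : ℝ)) hqa (3 * W) 0)
  refine ⟨x1 + W * (Ms + 2), fun x hx A hA1 hA2 => ?_⟩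
  have gx := hx1 x (by omega)
  rw [pow_zero, mul_one] at gx
  obtain ⟨M, hM⟩ : ∃ M, M = x / W - 1 := ⟨_, rfl⟩
  have hxW : Ms + 2 ≤ x / W := by
    rw [Nat.le_div_iff_mul_le (by omega), mul_comm]
    omega
  have hMMs : Ms + 1 ≤ M := by omega
  have hMx : W * (M + 1) ≤ x := by
    have : M + 1 = x / W := by omega
    rw [this]
    exact Nat.mul_div_le x W
  have hxM : x ≤ 3 * W * M := by
    have h1 : x < W * (x / W + 1) := Nat.lt_mul_div_succ x (by omega)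
    have h2 : x / W + 1 = M + 2 := by omega
    rw [h2] at h1
    have h3 : W * (M + 2) ≤ W * (3 * M) := Nat.mul_le_mul_left _ (by omega)
    have h4 : W * (3 * M) = 3 * W * M := by ring
    omega
  have hMlx : M ≤ x := by
    have : M + 1 ≤ W * (M + 1) := Nat.le_mul_of_pos_left _ (by omega)
    omega
  have hA1' : A ≤ B * (3 * W) ^ d * M ^ d := by
    refine hA1.trans ?_
    rw [mul_assoc, ← mul_pow]
    exact Nat.mul_le_mul_left _ (Nat.pow_le_pow_left hxM d)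
  have hA2' : M ^ d ≤ B * (3 * W) ^ d * A := by
    refine (Nat.pow_le_pow_left hMlx d).trans (hA2.trans ?_)
    have : 1 ≤ (3 * W) ^ d := Nat.one_le_pow _ _ (by omega)
    nlinarith [Nat.zero_le (B * A), Nat.mul_le_mul_left (B * A) this]
  -- the classes
  obtain ⟨gd, hgd⟩ : ∃ gd : ℕ → ℕ → Prop, gd = fun (cc n0 : ℕ) => n0 < W ∧ ∀ p : ℕ, p.Prime → p < z0 → ∀ j, ¬ (p : ℤ) ∣ (cc : ℤ) + (f j).eval (n0 : ℤ) := ⟨_, rfl⟩
  have hcl : ∀ cc < W, ∀ n0, gd cc n0 → ∃ Bad ⊆ cls A W cc, (#Bad : ℝ) ≤ ε * ((A : ℝ) / W) ∧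
      ∀ c ∈ cls A W cc, c ∉ Bad → (M : ℝ) ≤ ((M : ℝ) ^ (1 / (q : ℝ))) ^ 3 * #(GG (fun j => (f j).comp (C (Wz z0 : ℤ) * X + C (n0 : ℤ))) (Icc 1 M) m c) := by
    intro cc hcc n0 hgn
    rw [hgd] at hgn
    obtain ⟨hn0, hg2⟩ := hgn
    have h1 := hM0 n0 M (by have := hMs' n0 hn0; omega) A hA1' hA2' cc (by rw [← hW]; exact hcc) (by
      intro n p hp hpW j
      rw [dvd_Wz z0 p hp] at hpW
      have e : ((f j).comp (C (Wz z0 : ℤ) * X + C (n0 : ℤ))).eval n = (f j).eval ((Wz z0 : ℤ) * n + n0) := by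
        rw [eval_comp]; simp
      rw [e, dvd_shift (f j) p ((Wz z0 : ℤ) * n + n0) n0 cc cc (by
        rw [add_sub_cancel_right]
        apply Dvd.dvd.mul_right
        exact_mod_cast (dvd_Wz z0 p hp).2 hpW) (by simp)]
      exact hg2 p hp hpW j)
    rw [← hW] at h1
    obtain ⟨Bad, hb1, hb2, hb3⟩ := h1
    refine ⟨Bad, hb1, hb2.trans ?_, ?_⟩
    · apply mul_le_mul_of_nonneg_right hθε (by positivity)
    · rw [← hW]; exact hb3
  choose! n0f hn0f using fun (cc : ℕ) (h : ∃ n0, gd cc n0) => h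
  have hcl2 : ∀ cc : ℕ, ∃ Bad : Finset ℕ, cc < W → (∃ n0, gd cc n0) → (#Bad : ℝ) ≤ ε * ((A : ℝ) / W) ∧
      ∀ c ∈ cls A W cc, c ∉ Bad → (M : ℝ) ≤ ((M : ℝ) ^ (1 / (q : ℝ))) ^ 3 * #(GG (fun j => (f j).comp (C (Wz z0 : ℤ) * X + C (n0f cc : ℤ))) (Icc 1 M) m c) := by
    intro cc
    by_cases h : cc < W ∧ ∃ n0, gd cc n0
    · obtain ⟨Bad, _, h2, h3⟩ := hcl cc h.1 (n0f cc) (hn0f cc h.2)
      exact ⟨Bad, fun _ _ => ⟨h2, h3⟩⟩
    · exact ⟨∅, fun h1 h2 => absurd ⟨h1, h2⟩ h⟩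
  choose Bf hBf using hcl2
  refine ⟨((range W).filter (fun cc => ∃ n0, gd cc n0)).biUnion Bf, ?_, ?_⟩
  · have h1 : (#(((range W).filter (fun cc => ∃ n0, gd cc n0)).biUnion Bf) : ℝ) ≤ ∑ cc ∈ (range W).filter (fun cc => ∃ n0, gd cc n0), (#(Bf cc) : ℝ) := by
      exact_mod_cast card_biUnion_le
    refine h1.trans ?_
    have h2 : ∑ cc ∈ (range W).filter (fun cc => ∃ n0, gd cc n0), (#(Bf cc) : ℝ) ≤ ∑ cc ∈ (range W).filter (fun cc => ∃ n0, gd cc n0), ε * ((A : ℝ) / W) := by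
      apply sum_le_sum
      intro cc hcc
      rw [mem_filter, mem_range] at hcc
      exact (hBf cc hcc.1 hcc.2).1
    refine h2.trans ?_
    rw [sum_const, nsmul_eq_mul]
    have h3 : (#((range W).filter (fun cc => ∃ n0, gd cc n0)) : ℝ) ≤ W := by
      have := card_filter_le (range W) (fun cc => ∃ n0, gd cc n0)
      rw [card_range] at this
      exact_mod_cast this
    calc _ ≤ (W : ℝ) * (ε * ((A : ℝ) / W)) := mul_le_mul_of_nonneg_right h3 (by positivity)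
      _ = ε * A := by field_simp
  · intro c hc hcB hadm
    have hcc : c % W < W := Nat.mod_lt _ (by omega)
    have hcmod : (W : ℤ) ∣ (c : ℤ) - ((c % W : ℕ) : ℤ) := by
      have := Nat.div_add_mod c W
      refine ⟨((c / W : ℕ) : ℤ), ?_⟩
      have h2 : (c : ℤ) = W * ((c / W : ℕ) : ℤ) + ((c % W : ℕ) : ℤ) := by exact_mod_cast this.symm
      linarith
    -- an admissible class of arguments
    have hex : ∃ n0, gd (c % W) n0 := by
      choose! v hv using hadm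
      obtain ⟨n0, hn1, hn2⟩ := crt_W z0 v
      refine ⟨n0, ?_⟩
      rw [hgd]
      refine ⟨by rw [hW]; exact hn1, fun p hp hpz j => ?_⟩
      have hpW : (p : ℤ) ∣ (W : ℤ) := by
        rw [hW]
        exact_mod_cast (dvd_Wz z0 p hp).2 hpz
      rw [← dvd_shift (f j) p (v p) n0 c ((c % W : ℕ) : ℤ) (by
        have := hn2 p hp hpz
        rw [← Int.dvd_neg, neg_sub]
        exact this) (hpW.trans hcmod)]
      exact hv p hp j
    have hcB' : c ∉ Bf (c % W) := by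
      intro h
      apply hcB
      rw [mem_biUnion]
      exact ⟨c % W, mem_filter.2 ⟨mem_range.2 hcc, hex⟩, h⟩
    have h1 := (hBf (c % W) hcc hex).2 c (by
      unfold cls
      rw [mem_filter]
      exact ⟨hc, rfl⟩) hcB'
    -- transfer
    set n0 := n0f (c % W) with hn0
    have hn0W : n0 < W := by
      have := hn0f (c % W) hex
      rw [hgd] at this
      exact this.1
    have h2 : #(GG (fun j => (f j).comp (C (Wz z0 : ℤ) * X + C (n0 : ℤ))) (Icc 1 M) m c) ≤ #(GG f (Icc 1 x) m c) := by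
      apply card_le_card_of_injOn (fun n : ℕ => W * n + n0)
      · intro n hn
        rw [mem_coe] at hn ⊢
        unfold GG at hn ⊢
        rw [mem_filter, mem_Icc] at hn ⊢
        refine ⟨⟨?_, ?_⟩, ?_⟩
        · show 1 ≤ W * n + n0
          have : 1 * 1 ≤ W * n := Nat.mul_le_mul hW1 hn.1.1
          omega
        · show W * n + n0 ≤ x
          have h3 : W * n ≤ W * M := Nat.mul_le_mul_left _ hn.1.2
          have h4 : W * (M + 1) = W * M + W := by ring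
          omega
        · refine hn.2.trans (le_of_eq ?_)
          congr 1
          apply filter_congr
          intro j _
          have e : ((f j).comp (C (Wz z0 : ℤ) * X + C (n0 : ℤ))).eval (n : ℤ) = (f j).eval (((W * n + n0 : ℕ) : ℤ)) := by
            rw [eval_comp, hW]; simp
          rw [e]
      · intro a _ b _ hab
        simp only at hab
        have : W * a = W * b := by omega
        exact Nat.eq_of_mul_eq_mul_left (by omega) this
    -- the number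
    have hx1' : (1 : ℝ) ≤ x := by
      have : 1 ≤ x := by omega
      exact_mod_cast this
    have hx0 : (0 : ℝ) < x := by linarith
    obtain ⟨T, hT⟩ : ∃ T : ℝ, T = (x : ℝ) ^ (1 / (q : ℝ)) := ⟨_, rfl⟩
    rw [← hT] at gx
    have hT0 : 0 < T := by rw [hT]; positivity
    have h3 : (M : ℝ) ^ (1 / (q : ℝ)) ≤ T := by
      rw [hT]
      exact Real.rpow_le_rpow (Nat.cast_nonneg _) (by exact_mod_cast hMlx) hqa.le
    have h4 : (x : ℝ) ≤ T ^ 4 * #(GG f (Icc 1 x) m c) := by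
      have h5 : (x : ℝ) ≤ 3 * W * M := by exact_mod_cast hxM
      have h6 : ((M : ℝ) ^ (1 / (q : ℝ))) ^ 3 ≤ T ^ 3 := pow_le_pow_left₀ (by positivity) h3 3
      have h7 : (#(GG (fun j => (f j).comp (C (Wz z0 : ℤ) * X + C (n0 : ℤ))) (Icc 1 M) m c) : ℝ) ≤ #(GG f (Icc 1 x) m c) := by exact_mod_cast h2
      calc (x : ℝ) ≤ 3 * W * M := h5
        _ ≤ T * (T ^ 3 * #(GG f (Icc 1 x) m c)) := by
          apply mul_le_mul gx _ (Nat.cast_nonneg _) hT0.le
          refine h1.trans ?_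
          apply mul_le_mul h6 h7 (Nat.cast_nonneg _) (by positivity)
        _ = _ := by ring
    have h5 : T ^ 4 = (x : ℝ) ^ (4 / (q : ℝ)) := by
      rw [hT, ← Real.rpow_natCast, ← Real.rpow_mul hx0.le]
      congr 1
      push_cast
      ring
    rw [h5] at h4
    rw [Real.rpow_sub hx0, Real.rpow_one, div_le_iff₀ (by positivity), mul_comm]
    exact h4

end Pool.Agent.H544.BC
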