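import Mathlib
import Pool.Agent.H544.BC.M18

/-!
Families of any size; translates of one polynomial.
-/

set_option autoImplicit false
set_option linter.unusedSectionVars false

namespace Pool.Agent.H544.BC
open Finset Polynomial
open Pool.Agent.H544.LD (cls om om_le)
open Pool.Agent.N913.MT (evt_log_ge evt_log_pow Wz Wz_pos dvd_Wz Wphi)

/-- the parameters -/
theorem params : ∃ c0 : ℝ, 0 < c0 ∧ ∃ zc : ℕ, (∀ z0, zc ≤ z0 → c0 * Real.log z0 ≤ (Wz z0 : ℝ) / Nat.totient (Wz z0)) ∧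
    ∀ (d m : ℕ) (η : ℝ), 0 < η → ∃ q K : ℕ, 16 * (d + 2) ≤ q ∧ 4 / (q : ℝ) ≤ η ∧ 2304000 * ((max m 1 : ℕ) : ℝ) * (d + 1) * q ≤ c0 * (K + 1) := by
  obtain ⟨c0, hc0, zc, hzc⟩ := Wphi
  refine ⟨c0, hc0, zc, hzc, fun d m η hη => ?_⟩
  obtain ⟨q1, hq1⟩ := exists_nat_ge (4 / η)
  obtain ⟨K, hK⟩ := exists_nat_ge (2304000 * ((max m 1 : ℕ) : ℝ) * (d + 1) * ((16 * (d + 2) + q1 : ℕ) : ℝ) / c0)
  refine ⟨16 * (d + 2) + q1, K, by omega, ?_, ?_⟩
  · have h1 : (q1 : ℝ) ≤ ((16 * (d + 2) + q1 : ℕ) : ℝ) := by exact_mod_cast (by omega : q1 ≤ 16 * (d + 2) + q1)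
    have h2 : (0 : ℝ) < ((16 * (d + 2) + q1 : ℕ) : ℝ) := by exact_mod_cast (by omega : 0 < 16 * (d + 2) + q1)
    rw [div_le_iff₀ h2]
    rw [div_le_iff₀ hη] at hq1
    nlinarith
  · rw [div_le_iff₀ hc0] at hK
    nlinarith

/-- the values that are prime -/
lemma toNat_prime (v : ℤ) : v.toNat.Prime ↔ ∃ p : ℕ, p.Prime ∧ v = p := by
  constructor
  · intro h
    refine ⟨v.toNat, h, ?_⟩
    have h1 : 0 < v.toNat := h.pos
    omega
  · rintro ⟨p, hp, rfl⟩
    rwa [Int.toNat_natCast]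

/-- general families -/
theorem fam_thm (d m : ℕ) (hd : 1 ≤ d) (η : ℝ) (hη : 0 < η) : ∃ K : ℕ, ∀ (J : Type) [Fintype J] [DecidableEq J], Fintype.card J = 2 ^ K →
    ∀ f : J → ℤ[X], (∀ j, (f j).natDegree = d) → (∀ j, 0 < (f j).leadingCoeff) → (∀ i j, i ≠ j → 1 ≤ (f i - f j).natDegree) →
    ∀ (B : ℕ) (ε : ℝ), 0 < ε → ∃ x0 : ℕ, ∀ x : ℕ, x0 ≤ x → ∀ A : ℕ, A ≤ B * x ^ d → x ^ d ≤ B * A →
    ∃ Bad : Finset ℕ, (#Bad : ℝ) ≤ ε * A ∧ ∀ c ∈ Icc 1 A, c ∉ Bad → Adm f c → (x : ℝ) ^ (1 - η) ≤ #(GG f (Icc 1 x) m c) := by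
  obtain ⟨c0, hc0, zc, hzc, hpar⟩ := params
  obtain ⟨q, K, hq, hqη, hK⟩ := hpar d m η hη
  refine ⟨K, fun J _ _ hJ f hdeg hl hdf B ε hε => ?_⟩
  obtain ⟨x0, hx0⟩ := sys_thm K (max m 1) q d hJ (le_max_right _ _) hd hq c0 hc0 zc hzc hK f hdeg hl hdf B ε hε
  refine ⟨x0 + 1, fun x hx A hA1 hA2 => ?_⟩
  obtain ⟨Bad, hB1, hB2⟩ := hx0 x (by omega) A hA1 hA2
  refine ⟨Bad, hB1, fun c hc hcB hadm => ?_⟩
  have h1 := hB2 c hc hcB hadm
  have hx1 : (1 : ℝ) ≤ x := by exact_mod_cast (by omega : 1 ≤ x)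
  have h2 : (x : ℝ) ^ (1 - η) ≤ (x : ℝ) ^ (1 - 4 / (q : ℝ)) := Real.rpow_le_rpow_of_exponent_le hx1 (by linarith)
  refine h2.trans (h1.trans ?_)
  have h3 : GG f (Icc 1 x) (max m 1) c ⊆ GG f (Icc 1 x) m c := by
    unfold GG
    intro n hn
    rw [mem_filter] at hn ⊢
    exact ⟨hn.1, (le_max_left _ _).trans hn.2⟩
  exact_mod_cast card_le_card h3

/-- the difference of two translates -/
lemma transl_deg (P : ℤ[X]) (hd : 2 ≤ P.natDegree) (a b : ℤ) (hab : a ≠ b) :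
    1 ≤ (P.comp (X + C a) - P.comp (X + C b)).natDegree := by
  have hco : ∀ r : ℤ, (P.comp (X + C r)).coeff (P.natDegree - 1) = P.coeff (P.natDegree - 1) + (P.natDegree : ℤ) * P.leadingCoeff * r := by
    intro r
    have h1 : P.comp (X + C r) = taylor r P := rfl
    rw [h1, taylor_coeff]
    have h2 : (hasseDeriv (P.natDegree - 1) P).natDegree < 2 := by
      have := natDegree_hasseDeriv_le P (P.natDegree - 1)
      omega
    rw [eval_eq_sum_range' h2, sum_range_succ, sum_range_one, hasseDeriv_coeff, hasseDeriv_coeff]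
    have h3 : 1 + (P.natDegree - 1) = P.natDegree := by omega
    rw [h3, zero_add, Nat.choose_self]
    have h4 : P.natDegree.choose (P.natDegree - 1) = P.natDegree := by
      rw [Nat.choose_symm_of_eq_add (by omega : P.natDegree = (P.natDegree - 1) + 1), Nat.choose_one_right]
    rw [h4, pow_zero, pow_one, mul_one, Nat.cast_one, one_mul, coeff_natDegree]
  have hne : (P.comp (X + C a) - P.comp (X + C b)).coeff (P.natDegree - 1) ≠ 0 := by
    rw [coeff_sub, hco a, hco b]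
    have e : P.coeff (P.natDegree - 1) + (P.natDegree : ℤ) * P.leadingCoeff * a - (P.coeff (P.natDegree - 1) + (P.natDegree : ℤ) * P.leadingCoeff * b) =
        (P.natDegree : ℤ) * P.leadingCoeff * (a - b) := by ring
    rw [e]
    have hP : P ≠ 0 := by
      intro h
      rw [h, natDegree_zero] at hd
      omega
    refine mul_ne_zero (mul_ne_zero ?_ (leadingCoeff_ne_zero.2 hP)) (sub_ne_zero.2 hab)
    exact_mod_cast (by omega : P.natDegree ≠ 0)
  have := le_natDegree_of_ne_zero hne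
  omega

/-- translates of one polynomial -/
theorem transl_thm (d m : ℕ) (hd : 2 ≤ d) (η : ℝ) (hη : 0 < η) : ∃ k0 : ℕ, ∀ (J : Type) [Fintype J] [DecidableEq J], k0 ≤ Fintype.card J →
    ∀ P : ℤ[X], P.natDegree = d → 0 < P.leadingCoeff → ∀ h : J → ℤ, Function.Injective h →
    ∀ (B : ℕ) (ε : ℝ), 0 < ε → ∃ x0 : ℕ, ∀ x : ℕ, x0 ≤ x → ∀ A : ℕ, A ≤ B * x ^ d → x ^ d ≤ B * A →
    ∃ Bad : Finset ℕ, (#Bad : ℝ) ≤ ε * A ∧ ∀ c ∈ Icc 1 A, c ∉ Bad → (∀ p : ℕ, p.Prime → ∃ n : ℤ, ¬ (p : ℤ) ∣ (c : ℤ) + P.eval n) →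
      (x : ℝ) ^ (1 - η) ≤ #(GG (fun j => P.comp (X + C (h j))) (Icc 1 x) m c) := by
  classical
  obtain ⟨K, hK⟩ := fam_thm d m (by omega) η hη
  obtain ⟨Q, hQ⟩ : ∃ Q, Q = Wz (2 ^ K * d + 1) := ⟨_, rfl⟩
  have hQ1 : 1 ≤ Q := by rw [hQ]; exact Wz_pos _
  have hQ0 : (0 : ℤ) < Q := by exact_mod_cast hQ1
  refine ⟨Q * 2 ^ K, fun J _ _ hk P hdeg hl h hinj B ε hε => ?_⟩
  -- the pigeonhole principle
  obtain ⟨r, hr, hcard⟩ := Finset.exists_le_card_fiber_of_mul_le_card_of_maps_to (s := (univ : Finset J)) (t := range Q)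
    (f := fun j => (h j % (Q : ℤ)).toNat) (n := 2 ^ K) (by
      intro j _
      rw [mem_range]
      have h1 := Int.emod_nonneg (h j) hQ0.ne'
      have h2 := Int.emod_lt_of_pos (h j) hQ0
      omega) ⟨0, mem_range.2 hQ1⟩ (by rw [card_range, card_univ]; exact hk)
  obtain ⟨t, ht1, ht2⟩ := exists_subset_card_eq hcard
  have htr : ∀ j ∈ t, (Q : ℤ) ∣ h j - r := by
    intro j hj
    have h1 := (mem_filter.1 (ht1 hj)).2
    have h2 := Int.emod_nonneg (h j) hQ0.ne'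
    have h3 : h j % (Q : ℤ) = r := by
      rw [← h1]
      exact (Int.toNat_of_nonneg h2).symm
    have h4 := Int.emod_add_mul_ediv (h j) Q
    refine ⟨h j / Q, ?_⟩
    linarith
  have hcomp : ∀ a : ℤ, (X + C a : ℤ[X]).natDegree = 1 := fun a => natDegree_X_add_C a
  obtain ⟨x0, hx0⟩ := hK t (by rw [Fintype.card_coe]; exact ht2) (fun j => P.comp (X + C (h j))) (fun j => by
      rw [natDegree_comp, hcomp, mul_one]; exact hdeg) (fun j => by
      rw [leadingCoeff_comp (by rw [hcomp]; norm_num), leadingCoeff_X_add_C, one_pow, mul_one]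
      exact hl) (fun i j hij => transl_deg P (by omega) _ _ (fun he => hij (Subtype.ext (hinj he)))) B ε hε
  refine ⟨x0, fun x hx A hA1 hA2 => ?_⟩
  obtain ⟨Bad, hB1, hB2⟩ := hx0 x hx A hA1 hA2
  refine ⟨Bad, hB1, fun c hc hcB hfix => ?_⟩
  have hev : ∀ (a n : ℤ), (P.comp (X + C a)).eval n = P.eval (n + a) := by
    intro a n
    rw [eval_comp]; simp
  have hadm : Adm (fun j : t => P.comp (X + C (h j))) c := by
    intro p hp
    obtain ⟨v, hv⟩ := hfix p hp
    rcases Nat.lt_or_ge p (2 ^ K * d + 1) with hpq | hpq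
    · refine ⟨v - r, fun j => ?_⟩
      rw [hev]
      have hpQ : (p : ℤ) ∣ (Q : ℤ) := by
        rw [hQ]
        exact_mod_cast (dvd_Wz _ p hp).2 hpq
      rw [dvd_shift P p (v - r + h j) v c c (by
        have e : v - r + h j - v = h j - r := by ring
        rw [e]
        exact hpQ.trans (htr j j.2)) (by simp)]
      exact hv
    · -- few roots
      have h1 : ∀ j : t, #((range p).filter (fun n : ℕ => (p : ℤ) ∣ (c : ℤ) + P.eval ((n : ℤ) + h j))) ≤ d := by
        intro j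
        rcases om_le (P.comp (X + C (h j)) + C (c : ℤ)) p hp with h2 | h2
        · exfalso
          apply hv
          have h3 := h2 (v - h j)
          rw [eval_add, eval_C, hev] at h3
          have e : v - h j + h j = v := by ring
          rw [e, add_comm] at h3
          exact h3
        · unfold om at h2
          refine le_trans (le_of_eq ?_) (h2.trans ?_)
          · congr 1
            apply filter_congr
            intro n _
            rw [eval_add, eval_C, hev, add_comm]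
          · rw [natDegree_add_C, natDegree_comp, hcomp, mul_one, hdeg]
      have h2 : #((univ : Finset t).biUnion (fun j => (range p).filter (fun n : ℕ => (p : ℤ) ∣ (c : ℤ) + P.eval ((n : ℤ) + h j)))) < #(range p) := by
        rw [card_range]
        refine lt_of_le_of_lt (card_biUnion_le.trans (sum_le_card_nsmul _ _ _ (fun j _ => h1 j))) ?_
        rw [card_univ, Fintype.card_coe, ht2, smul_eq_mul]
        omega
      obtain ⟨n, hn1, hn2⟩ := exists_mem_notMem_of_card_lt_card h2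
      refine ⟨(n : ℤ), fun j hj => ?_⟩
      apply hn2
      rw [mem_biUnion]
      refine ⟨j, mem_univ _, mem_filter.2 ⟨hn1, ?_⟩⟩
      rw [hev] at hj
      exact hj
  refine (hB2 c hc hcB hadm).trans ?_
  have h3 : GG (fun j : t => P.comp (X + C (h j))) (Icc 1 x) m c ⊆ GG (fun j => P.comp (X + C (h j))) (Icc 1 x) m c := by
    unfold GG
    intro n hn
    rw [mem_filter] at hn ⊢
    refine ⟨hn.1, hn.2.trans ?_⟩
    apply card_le_card_of_injOn (fun j : t => (j : J))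
    · intro j hj
      rw [mem_coe, mem_filter] at hj ⊢
      exact ⟨mem_univ _, hj.2⟩
    · intro a _ b _ hab
      exact Subtype.ext hab
  exact_mod_cast card_le_card h3

/-- large families -/
theorem fam2 (d m : ℕ) (hd : 1 ≤ d) (η : ℝ) (hη : 0 < η) : ∃ k0 : ℕ, ∀ (J : Type) [Fintype J] [DecidableEq J], k0 ≤ Fintype.card J →
    ∀ f : J → ℤ[X], (∀ j, (f j).natDegree = d) → (∀ j, 0 < (f j).leadingCoeff) → (∀ i j, i ≠ j → 1 ≤ (f i - f j).natDegree) →
    ∀ (B : ℕ) (ε : ℝ), 0 < ε → ∃ x0 : ℕ, ∀ x : ℕ, x0 ≤ x → ∀ A : ℕ, A ≤ B * x ^ d → x ^ d ≤ B * A →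
    ∃ Bad : Finset ℕ, (#Bad : ℝ) ≤ ε * A ∧ ∀ c ∈ Icc 1 A, c ∉ Bad → Adm f c → (x : ℝ) ^ (1 - η) ≤ #(GG f (Icc 1 x) m c) := by
  classical
  obtain ⟨K, hK⟩ := fam_thm d m hd η hη
  refine ⟨2 ^ K, fun J _ _ hk f hdeg hl hdf B ε hε => ?_⟩
  obtain ⟨t, ht1, ht2⟩ := exists_subset_card_eq (s := (univ : Finset J)) (n := 2 ^ K) (by rw [card_univ]; exact hk)
  obtain ⟨x0, hx0⟩ := hK t (by rw [Fintype.card_coe]; exact ht2) (fun j => f j) (fun j => hdeg j) (fun j => hl j)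
    (fun i j hij => hdf i j (fun h => hij (Subtype.ext h))) B ε hε
  refine ⟨x0, fun x hx A hA1 hA2 => ?_⟩
  obtain ⟨Bad, hB1, hB2⟩ := hx0 x hx A hA1 hA2
  refine ⟨Bad, hB1, fun c hc hcB hfix => ?_⟩
  have hadm : Adm (fun j : t => f j) c := by
    intro p hp
    obtain ⟨v, hv⟩ := hfix p hp
    exact ⟨v, fun j => hv j⟩
  refine (hB2 c hc hcB hadm).trans ?_
  have h3 : GG (fun j : t => f j) (Icc 1 x) m c ⊆ GG f (Icc 1 x) m c := by
    unfold GG
    intro n hn
    rw [mem_filter] at hn ⊢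
    refine ⟨hn.1, hn.2.trans ?_⟩
    apply card_le_card_of_injOn (fun j : t => (j : J))
    · intro j hj
      rw [mem_coe, mem_filter] at hj ⊢
      exact ⟨mem_univ _, hj.2⟩
    · intro a _ b _ hab
      exact Subtype.ext hab
  exact_mod_cast card_le_card h3

/-- from one tuple in each large set to a positive proportion -/
lemma prop_count {k : ℕ} (k0 m : ℕ) (hm : m ≤ k0) (hk : k0 ≤ k) (𝒯 : Finset (Finset (Fin k))) (h𝒯 : ∀ T ∈ 𝒯, #T = m)
    (h : ∀ H : Finset (Fin k), #H = k0 → ∃ T ∈ 𝒯, T ⊆ H) : k.choose m ≤ k0.choose m * #𝒯 := by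
  classical
  have h1 : powersetCard k0 (univ : Finset (Fin k)) ⊆ 𝒯.biUnion (fun T => (powersetCard k0 (univ : Finset (Fin k))).filter (fun H => T ⊆ H)) := by
    intro H hH
    obtain ⟨T, hT, hTH⟩ := h H (mem_powersetCard.1 hH).2
    rw [mem_biUnion]
    exact ⟨T, hT, mem_filter.2 ⟨hH, hTH⟩⟩
  have h2 : ∀ T ∈ 𝒯, #((powersetCard k0 (univ : Finset (Fin k))).filter (fun H => T ⊆ H)) ≤ (k - m).choose (k0 - m) := by
    intro T hT
    have h3 : #((powersetCard k0 (univ : Finset (Fin k))).filter (fun H => T ⊆ H)) ≤ #(powersetCard (k0 - m) (univ \ T)) := by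
      apply card_le_card_of_injOn (fun H => H \ T)
      · intro H hH
        rw [mem_coe, mem_filter, mem_powersetCard] at hH
        rw [mem_coe, mem_powersetCard]
        refine ⟨sdiff_subset_sdiff (subset_univ _) le_rfl, ?_⟩
        rw [card_sdiff_of_subset hH.2, hH.1.2, h𝒯 T hT]
      · intro H hH H' hH' hHH
        rw [mem_coe, mem_filter] at hH hH'
        simp only at hHH
        rw [← sdiff_union_of_subset hH.2, ← sdiff_union_of_subset hH'.2, hHH]
    rw [card_powersetCard, card_sdiff_of_subset (subset_univ _), card_univ, Fintype.card_fin, h𝒯 T hT] at h3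
    exact h3
  have h3 := (card_le_card h1).trans (card_biUnion_le.trans (sum_le_card_nsmul _ _ _ h2))
  rw [card_powersetCard, card_univ, Fintype.card_fin, smul_eq_mul] at h3
  have h4 := Nat.choose_mul (n := k) hm
  have h5 : 0 < (k - m).choose (k0 - m) := Nat.choose_pos (by omega)
  have h6 : k.choose m * (k - m).choose (k0 - m) ≤ (k0.choose m * #𝒯) * (k - m).choose (k0 - m) := by
    rw [← h4]
    calc k.choose k0 * k0.choose m ≤ (#𝒯 * (k - m).choose (k0 - m)) * k0.choose m := Nat.mul_le_mul_right _ h3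
      _ = _ := by ring
  exact Nat.le_of_mul_le_mul_right h6 h5

/-- one tuple -/
lemma pig {J : Type} [DecidableEq J] (H : Finset J) (m : ℕ) (hm : m ≤ #H) (N : Finset ℕ) (E : J → ℕ → Prop) [∀ j n, Decidable (E j n)] (Y : ℝ)
    (h : Y * (#H).choose m ≤ #(N.filter (fun n => m ≤ #(H.filter (fun j => E j n))))) :
    ∃ T ⊆ H, #T = m ∧ Y ≤ #(N.filter (fun n => ∀ j ∈ T, E j n)) := by
  classical
  by_contra hcon
  push Not at hcon
  have h1 : N.filter (fun n => m ≤ #(H.filter (fun j => E j n))) ⊆ (powersetCard m H).biUnion (fun T => N.filter (fun n => ∀ j ∈ T, E j n)) := by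
    intro n hn
    rw [mem_filter] at hn
    obtain ⟨T, hT1, hT2⟩ := exists_subset_card_eq hn.2
    rw [mem_biUnion]
    refine ⟨T, mem_powersetCard.2 ⟨hT1.trans (filter_subset _ _), hT2⟩, mem_filter.2 ⟨hn.1, fun j hj => ?_⟩⟩
    exact (mem_filter.1 (hT1 hj)).2
  have h2 : (#(N.filter (fun n => m ≤ #(H.filter (fun j => E j n)))) : ℝ) ≤ ∑ T ∈ powersetCard m H, (#(N.filter (fun n => ∀ j ∈ T, E j n)) : ℝ) := by
    exact_mod_cast (card_le_card h1).trans card_biUnion_le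
  have h3 : ∑ T ∈ powersetCard m H, (#(N.filter (fun n => ∀ j ∈ T, E j n)) : ℝ) < ∑ _T ∈ powersetCard m H, Y := by
    apply sum_lt_sum_of_nonempty
    · rw [powersetCard_nonempty]; exact hm
    · intro T hT
      rw [mem_powersetCard] at hT
      exact hcon T hT.1 hT.2
  rw [sum_const, card_powersetCard, nsmul_eq_mul] at h3
  linarith

end Pool.Agent.H544.BC
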