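import Mathlib
import Pool.Agent.H544.BC.Lev3

/-!
The level of distribution with an additional fixed modulus.
-/

set_option autoImplicit false

namespace Pool.Agent.H544.BC
open Finset Polynomial Filter
open Pool.Agent.H807R2.Dav
open Pool.Agent.H373R2.T7
open Pool.Agent.N913.MT (evt_log_pow evt_log_ge)

/-- splitting of the arguments modulo `K` -/
lemma split_K (K y : ℕ) (hK : 1 ≤ K) (F : ℤ → ℝ) :
    ∑ n ∈ Icc 1 y, F (n : ℤ) = ∑ t ∈ range K, ∑ m ∈ Icc 1 ((y + t) / K), F (-(t : ℤ) + K * m) := by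
  rw [sum_sigma']
  symm
  apply sum_nbij' (fun x : (_ : ℕ) × ℕ => K * x.2 - x.1) (fun n => (⟨K * ((n + K - 1) / K) - n, (n + K - 1) / K⟩ : (_ : ℕ) × ℕ))
  · rintro ⟨t, m⟩ hx
    simp only [mem_sigma, mem_range, mem_Icc] at hx ⊢
    obtain ⟨h1, h2, h3⟩ := hx
    rw [Nat.le_div_iff_mul_le (by omega), mul_comm] at h3
    have h4 : K * 1 ≤ K * m := Nat.mul_le_mul_left _ h2
    omega
  · intro n hn
    simp only [mem_sigma, mem_range, mem_Icc] at hn ⊢
    have h1 : K * ((n + K - 1) / K) ≤ n + K - 1 := Nat.mul_div_le _ _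
    have h2 : n + K - 1 < K * ((n + K - 1) / K + 1) := Nat.lt_mul_div_succ _ (by omega)
    have h3 : K * ((n + K - 1) / K + 1) = K * ((n + K - 1) / K) + K := by ring
    refine ⟨by omega, ?_, ?_⟩
    · rw [Nat.le_div_iff_mul_le (by omega)]
      omega
    · rw [Nat.le_div_iff_mul_le (by omega), mul_comm]
      omega
  · rintro ⟨t, m⟩ hx
    simp only [mem_sigma, mem_range, mem_Icc] at hx
    obtain ⟨h1, h2, h3⟩ := hx
    have h4 : K * 1 ≤ K * m := Nat.mul_le_mul_left _ h2
    have h5 : (K * m - t + K - 1) / K = m := by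
      rw [Nat.div_eq_iff (by omega)]
      have e : m * K = K * m := mul_comm _ _
      constructor <;> omega
    simp only [h5]
    have h6 : K * m - (K * m - t) = t := by omega
    rw [h6]
  · intro n hn
    simp only [mem_Icc] at hn
    have h1 : K * ((n + K - 1) / K) ≤ n + K - 1 := Nat.mul_div_le _ _
    have h2 : n + K - 1 < K * ((n + K - 1) / K + 1) := Nat.lt_mul_div_succ _ (by omega)
    have h3 : K * ((n + K - 1) / K + 1) = K * ((n + K - 1) / K) + K := by ring
    show K * ((n + K - 1) / K) - (K * ((n + K - 1) / K) - n) = n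
    omega
  · rintro ⟨t, m⟩ hx
    simp only [mem_sigma, mem_range, mem_Icc] at hx
    obtain ⟨h1, h2, h3⟩ := hx
    have h4 : K * 1 ≤ K * m := Nat.mul_le_mul_left _ h2
    congr 1
    simp only
    have h5 : t ≤ K * m := by omega
    push_cast [Nat.cast_sub h5]
    ring

/-- the level of distribution, with an additional fixed modulus -/
theorem levelK (P : ℤ[X]) (hd : 1 ≤ P.natDegree) (hl : 0 < P.leadingCoeff) (B : ℕ) (U : ℕ) (C D K : ℕ) (hC : 1 ≤ C) (hK : 1 ≤ K)
    (hKD : ∀ p : ℕ, p.Prime → D < p → ¬ p ∣ K) (hPD : ∀ p : ℕ, p.Prime → D < p → ¬ p ∣ P.natDegree * P.leadingCoeff.natAbs) :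
    ∃ E0 : ℕ, ∀ E : ℕ, ∃ N0 : ℕ, ∀ x : ℕ, N0 ≤ x → ∀ A : ℕ, A ≤ B * x ^ P.natDegree → x ^ P.natDegree ≤ B * A →
    ∀ z : ℕ, Real.log x ^ E0 ≤ z → (z : ℝ) ≤ Real.log x ^ E → ∀ y ≤ x, ∀ k : ℕ → ℤ → ℤ → ℝ, Ker P C D k →
    ∀ S : Finset ℕ, (∀ e ∈ S, Squarefree e ∧ (∀ p ∈ e.primeFactors, D < p) ∧
      e ^ (8 * (P.natDegree + 2)) ≤ x ∧ e ≤ A) →
    ∀ Ψ : ℕ → ℤ → ℤ → ℝ, (∀ e ∈ S, ∀ n c, |Ψ e n c| ≤ KK k e n c) → (∀ e ∈ S, ∀ c, Per (K * e) (fun n => Ψ e n c)) →
    ∑ e ∈ S, (C : ℝ) ^ #(e.primeFactors) * ∑ c ∈ Icc 1 A, |∑ n ∈ Icc 1 y, fpI z (c + P.eval (n : ℤ)) * Ψ e n c| ≤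
      K * (x * A / Real.log x ^ U) := by
  classical
  have hKz : (K : ℤ) ≠ 0 := by exact_mod_cast (by omega : K ≠ 0)
  have hK0 : (0 : ℤ) < K := by exact_mod_cast hK
  obtain ⟨Pt, hPt⟩ : ∃ Pt : ℕ → ℤ[X], Pt = fun t : ℕ => P.comp (Polynomial.C (K : ℤ) * X + Polynomial.C (-(t : ℤ))) := ⟨_, rfl⟩
  have hev : ∀ t : ℕ, ∀ n : ℤ, (Pt t).eval n = P.eval (-(t : ℤ) + K * n) := by
    intro t n
    rw [hPt]
    simp only [eval_comp, eval_add, eval_mul, eval_C, eval_X]
    rw [add_comm]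
  have hn : ∀ t : ℕ, (Polynomial.C (K : ℤ) * X + Polynomial.C (-(t : ℤ))).natDegree = 1 := fun t => natDegree_linear hKz
  have hlc : ∀ t : ℕ, (Polynomial.C (K : ℤ) * X + Polynomial.C (-(t : ℤ))).leadingCoeff = (K : ℤ) := fun t => leadingCoeff_linear hKz
  have hdeg : ∀ t, (Pt t).natDegree = P.natDegree := by
    intro t
    rw [hPt]
    simp only
    rw [natDegree_comp, hn, mul_one]
  have hlt : ∀ t, (Pt t).leadingCoeff = P.leadingCoeff * K ^ P.natDegree := by
    intro t
    rw [hPt]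
    simp only
    rw [leadingCoeff_comp (by rw [hn]; norm_num), hlc]
  have hl0 : ∀ t, 0 < (Pt t).leadingCoeff := by
    intro t
    rw [hlt]
    positivity
  choose E0 hE0 using fun t : ℕ => level (Pt t) (by rw [hdeg]; exact hd) (hl0 t) B U C D hC
  refine ⟨∑ t ∈ range K, E0 t, fun E => ?_⟩
  choose N0 hN0 using fun t : ℕ => hE0 t E
  obtain ⟨N1, hN1⟩ := eventually_atTop.1 (evt_log_ge 1)
  refine ⟨∑ t ∈ range K, N0 t + N1, fun x hx A hA1 hA2 z hz1 hz2 y hy k hk S hS Ψ hΨ hΨp => ?_⟩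
  have hlog := hN1 x (by omega)
  have key : ∀ t ∈ range K, ∑ e ∈ S, (C : ℝ) ^ #(e.primeFactors) * ∑ c ∈ Icc 1 A,
      |∑ m ∈ Icc 1 ((y + t) / K), fpI z (c + P.eval (-(t : ℤ) + K * m)) * Ψ e (-(t : ℤ) + K * m) c| ≤ x * A / Real.log x ^ U := by
    intro t ht
    have h1 : N0 t ≤ ∑ t ∈ range K, N0 t := single_le_sum (f := N0) (fun _ _ => Nat.zero_le _) ht
    have h2 : E0 t ≤ ∑ t ∈ range K, E0 t := single_le_sum (f := E0) (fun _ _ => Nat.zero_le _) ht
    have ht' := mem_range.1 ht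
    have hyt : (y + t) / K ≤ x := by
      have h3 : (y + t) / K < y + 1 := by
        rw [Nat.div_lt_iff_lt_mul (by omega)]
        have : y * 1 ≤ y * K := Nat.mul_le_mul_left _ hK
        have e : (y + 1) * K = y * K + K := by ring
        omega
      omega
    have h3 := hN0 t x (by omega) A (by rw [hdeg]; exact hA1) (by rw [hdeg]; exact hA2) z
      ((pow_le_pow_right₀ hlog h2).trans hz1) hz2 ((y + t) / K) hyt (fun p n c => k p (-(t : ℤ) + K * n) c) (by
        refine ⟨fun p n c => hk.nn _ _ _, ?_, ?_, ?_, ?_, ?_⟩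
        · intro p c a b hab
          apply hk.per1 p c
          have e : -(t : ℤ) + K * a - (-(t : ℤ) + K * b) = K * (a - b) := by ring
          rw [e]
          exact hab.mul_left _
        · intro p n a b hab
          exact hk.per2 p (-(t : ℤ) + K * n) a b hab
        · intro p hp hD c
          have h4 := sum_shift p K hp.one_le ((hp.coprime_iff_not_dvd.2 (hKD p hp hD)).symm) (fun n => k p n c) (hk.per1 p c) (-(t : ℤ))
          rw [h4]
          exact hk.m1 p hp hD c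
        · intro p hp hD n
          exact hk.m2 p hp hD (-(t : ℤ) + K * n)
        · intro p hp hD l
          have hper : Per p (fun n => k p n (l - P.eval n)) := by
            intro a b hab
            have h1 : (p : ℤ) ∣ P.eval a - P.eval b := hab.trans (Polynomial.sub_dvd_eval_sub _ _ _)
            show k p a (l - P.eval a) = k p b (l - P.eval b)
            have h2 : k p a (l - P.eval a) = k p b (l - P.eval a) := hk.per1 p (l - P.eval a) a b hab
            rw [h2]
            apply hk.per2 p b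
            have e1 : l - P.eval a - (l - P.eval b) = -(P.eval a - P.eval b) := by ring
            rw [e1]
            exact (dvd_neg).2 h1
          have h4 := sum_shift p K hp.one_le ((hp.coprime_iff_not_dvd.2 (hKD p hp hD)).symm) (fun n => k p n (l - P.eval n)) hper (-(t : ℤ))
          refine le_of_eq_of_le ?_ (hk.m3 p hp hD l)
          rw [← h4]
          apply sum_congr rfl
          intro n _
          show k p (-(t : ℤ) + K * n) (l - (Pt t).eval (n : ℤ)) = _
          rw [hev])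
      S (by
        intro e he
        obtain ⟨h4, h5, h6, h7⟩ := hS e he
        refine ⟨h4, fun p hp => ⟨h5 p hp, ?_⟩, by rw [hdeg]; exact h6, h7⟩
        have hpp := Nat.prime_of_mem_primeFactors hp
        rw [hdeg, hlt, Int.natAbs_mul, Int.natAbs_pow, Int.natAbs_natCast, ← mul_assoc]
        intro h8
        rcases hpp.dvd_mul.1 h8 with h9 | h9
        · exact hPD p hpp (h5 p hp) h9
        · exact hKD p hpp (h5 p hp) (hpp.dvd_of_dvd_pow h9))
      (fun e n c => Ψ e (-(t : ℤ) + K * n) c) (fun e he n c => hΨ e he _ c) (by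
        intro e he c a b hab
        apply hΨp e he c
        have e : -(t : ℤ) + K * a - (-(t : ℤ) + K * b) = K * (a - b) := by ring
        rw [e]
        push_cast
        exact mul_dvd_mul_left _ hab)
    refine le_of_eq_of_le ?_ h3
    apply sum_congr rfl
    intro e _
    congr 1
    apply sum_congr rfl
    intro c _
    congr 1
    apply sum_congr rfl
    intro m _
    rw [hev]
  calc ∑ e ∈ S, (C : ℝ) ^ #(e.primeFactors) * ∑ c ∈ Icc 1 A, |∑ n ∈ Icc 1 y, fpI z (c + P.eval (n : ℤ)) * Ψ e n c|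
      ≤ ∑ e ∈ S, (C : ℝ) ^ #(e.primeFactors) * ∑ c ∈ Icc 1 A, ∑ t ∈ range K,
        |∑ m ∈ Icc 1 ((y + t) / K), fpI z (c + P.eval (-(t : ℤ) + K * m)) * Ψ e (-(t : ℤ) + K * m) c| := by
        apply sum_le_sum
        intro e _
        apply mul_le_mul_of_nonneg_left _ (by positivity)
        apply sum_le_sum
        intro c _
        rw [split_K K y hK (fun n => fpI z (c + P.eval n) * Ψ e n c)]
        exact abs_sum_le_sum_abs _ _
    _ = ∑ t ∈ range K, ∑ e ∈ S, (C : ℝ) ^ #(e.primeFactors) * ∑ c ∈ Icc 1 A,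
        |∑ m ∈ Icc 1 ((y + t) / K), fpI z (c + P.eval (-(t : ℤ) + K * m)) * Ψ e (-(t : ℤ) + K * m) c| := by
        rw [sum_comm]
        apply sum_congr rfl
        intro e _
        rw [← mul_sum, sum_comm]
    _ ≤ ∑ t ∈ range K, x * A / Real.log x ^ U := sum_le_sum key
    _ = _ := by rw [sum_const, card_range, nsmul_eq_mul]

end Pool.Agent.H544.BC
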