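import Mathlib
import Pool.Agent.H544.BC.Fl
import Pool.Agent.H544.BC.Crt
import Pool.Agent.H544.BC.Lev1
import Pool.Graph.R_seed8.H373R2.T7.BilLam

/-!
The sieve model along sifted arguments.
-/

set_option autoImplicit false

namespace Pool.Agent.H544.BC
open Finset Polynomial
open Pool.Agent.H373R2.T7 (pz Vz mem_pz Vz_pos Vz_le_one lamzI lamz)
open Pool.Agent.H544.LD (cls om Gz Gz_nonneg Gz_le_one fac_nn fac_le_one om_fixed om_shift om_le dvd_eval_iff)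

/-- the number of classes modulo `p` in which `H` vanishes and `G` does not, as far as `p ≤ z` -/
noncomputable def r1 (G H : ℤ[X]) (z p : ℕ) : ℕ :=
  #((range p).filter (fun r : ℕ => (p : ℤ) ∣ H.eval (r : ℤ) ∧ (p ≤ z → ¬ (p : ℤ) ∣ G.eval (r : ℤ))))

lemma om_mul (G H : ℤ[X]) (z p : ℕ) (hp : p.Prime) (hz : p ≤ z) : om (G * H) p = om G p + r1 G H z p := by
  classical
  unfold om r1
  rw [← card_union_of_disjoint]
  · congr 1
    ext r
    simp only [mem_filter, mem_union, eval_mul]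
    constructor
    · rintro ⟨h1, h2⟩
      by_cases h3 : (p : ℤ) ∣ G.eval (r : ℤ)
      · exact Or.inl ⟨h1, h3⟩
      · exact Or.inr ⟨h1, ((Nat.prime_iff_prime_int.1 hp).dvd_or_dvd h2).resolve_left h3, fun _ => h3⟩
    · rintro (⟨h1, h2⟩ | ⟨h1, h2, _⟩)
      · exact ⟨h1, h2.mul_right _⟩
      · exact ⟨h1, h2.mul_left _⟩
  · rw [disjoint_left]
    intro r h1 h2
    rw [mem_filter] at h1 h2
    exact h2.2.2 hz h1.2

lemma r1_big (G H : ℤ[X]) (z p : ℕ) (hz : z < p) : r1 G H z p = om H p := by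
  unfold om r1
  congr 1
  apply filter_congr
  intro r _
  constructor
  · exact fun h => h.1
  · exact fun h => ⟨h, fun h' => by omega⟩

lemma r1_le (G H : ℤ[X]) (z p : ℕ) : r1 G H z p ≤ om H p := by
  unfold om r1
  apply card_le_card
  intro r hr
  rw [mem_filter] at hr ⊢
  exact ⟨hr.1, hr.2.1⟩

lemma lamzI_eq (z : ℕ) (m : ℤ) (hm : 1 ≤ m) : lamzI z m = if ∀ p ∈ pz z, ¬ (p : ℤ) ∣ m then (Vz z)⁻¹ else 0 := by
  unfold lamzI lamz
  rw [if_pos hm]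
  congr 1
  apply propext
  apply forall_congr'
  intro p
  apply imp_congr_right
  intro _
  rw [not_iff_not]
  constructor
  · intro h
    have := Int.natCast_dvd_natCast.2 h
    rwa [Int.toNat_of_nonneg (by omega)] at this
  · intro h
    apply Int.natCast_dvd_natCast.1
    rwa [Int.toNat_of_nonneg (by omega)]

open Classical in
/-- the model along sifted arguments -/
theorem mod_cls (κ : ℕ) : ∃ C1 z1 : ℕ, 1 ≤ C1 ∧ 2 ≤ z1 ∧ ∀ b : ℕ, C1 ≤ b → ∀ z : ℕ, z1 ≤ z →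
    ∀ (G H : ℤ[X]) (n1 : ℕ), G.natDegree ≤ κ → (∀ n : ℕ, n1 ≤ n → 1 ≤ G.eval (n : ℤ)) →
    ∀ z0 : ℕ, z0 ≤ z → ∀ T : Finset ℕ, (∀ p ∈ T, p.Prime ∧ z0 < p) → ∀ x : ℕ,
    |∑ n ∈ (Icc 1 x).filter (fun n : ℕ => (∀ p ∈ pz z0, ¬ (p : ℤ) ∣ H.eval (n : ℤ)) ∧ ∀ p ∈ T, (p : ℤ) ∣ H.eval (n : ℤ)),
        lamzI z (G.eval (n : ℤ)) -
      (Vz z)⁻¹ * x * (∏ p ∈ pz z0, (1 - (om (G * H) p : ℝ) / p)) * (∏ p ∈ T, (r1 G H z p : ℝ) / p) *
        ∏ p ∈ (pz z).filter (fun p => z0 < p ∧ p ∉ T), (1 - (om G p : ℝ) / p)| ≤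
      (Vz z)⁻¹ * ((∏ p ∈ pz z0, (p : ℝ)) * (∏ p ∈ T, (r1 G H z p : ℝ)) *
        ((1 / 2 : ℝ) ^ b * ((x : ℝ) / ∏ p ∈ T, (p : ℝ)) + (z : ℝ) ^ (C1 * b)) + n1) := by
  obtain ⟨C1, z1, hC1, hz1, hfl⟩ := flcT κ
  refine ⟨C1, z1, hC1, hz1, fun b hb z hz G H n1 hG hn1 z0 hz0 T hT x => ?_⟩
  have hV0 : 0 < (Vz z)⁻¹ := inv_pos.2 (Vz_pos z)
  obtain ⟨U, hU⟩ : ∃ U : Finset ℕ, U = pz z0 ∪ T := ⟨_, rfl⟩
  have hdis : Disjoint (pz z0) T := by
    rw [disjoint_left]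
    intro p h1 h2
    have := (mem_pz.1 h1).1
    have := (hT p h2).2
    omega
  have hUp : ∀ p ∈ U, p.Prime := by
    intro p hp
    rw [hU, mem_union] at hp
    rcases hp with h | h
    · exact (mem_pz.1 h).2
    · exact (hT p h).1
  obtain ⟨q, hq⟩ : ∃ q : ℕ, q = ∏ p ∈ U, p := ⟨_, rfl⟩
  have hq1 : 1 ≤ q := by
    rw [hq]
    exact Finset.prod_pos fun p hp => (hUp p hp).pos
  have hpq : ∀ p : ℕ, p.Prime → (p ∣ q ↔ p ∈ U) := by
    intro p hp
    rw [hq, hp.prime.dvd_finsetProd_iff]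
    constructor
    · rintro ⟨p', h1, h2⟩
      rw [(Nat.prime_dvd_prime_iff_eq hp (hUp p' h1)).1 h2]
      exact h1
    · intro h
      exact ⟨p, h, dvd_rfl⟩
  -- the local conditions
  obtain ⟨φ, hφ⟩ : ∃ φ : ℕ → ℤ → Prop, φ = fun p a => if p ≤ z0 then ¬ (p : ℤ) ∣ (G * H).eval a else
    ((p : ℤ) ∣ H.eval a ∧ (p ≤ z → ¬ (p : ℤ) ∣ G.eval a)) := ⟨_, rfl⟩
  have hφp : ∀ p : ℕ, ∀ a b : ℤ, (p : ℤ) ∣ a - b → (φ p a ↔ φ p b) := by
    intro p a b hab
    rw [hφ]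
    simp only
    rw [dvd_eval_iff (G * H) p a b hab, dvd_eval_iff H p a b hab, dvd_eval_iff G p a b hab]
  have hmodp : ∀ p ∈ U, ∀ n r : ℕ, n % q = r → (p : ℤ) ∣ (n : ℤ) - r := by
    intro p hp n r hnr
    have h1 : (p : ℤ) ∣ (q : ℤ) := Int.natCast_dvd_natCast.2 ((hpq p (hUp p hp)).2 hp)
    refine h1.trans ?_
    have := Nat.div_add_mod n q
    refine ⟨((n / q : ℕ) : ℤ), ?_⟩
    have h2 : (n : ℤ) = q * ((n / q : ℕ) : ℤ) + ((n % q : ℕ) : ℤ) := by exact_mod_cast this.symm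
    rw [hnr] at h2
    linarith
  obtain ⟨R, hR⟩ : ∃ R : Finset ℕ, R = (range q).filter (fun r : ℕ => ∀ p ∈ U, φ p r) := ⟨_, rfl⟩
  -- the number of good classes
  have hRc : (#R : ℝ) = (∏ p ∈ pz z0, ((p : ℝ) - om (G * H) p)) * ∏ p ∈ T, (r1 G H z p : ℝ) := by
    have h1 := crt_prod U hUp (fun p a => if φ p a then (1 : ℝ) else 0) (fun p _ => by
      intro a b hab
      simp only [hφp p a b hab])
    rw [← hq] at h1
    have h2 : (#R : ℝ) = ∑ a ∈ range q, ∏ p ∈ U, (if φ p a then (1 : ℝ) else 0) := by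
      rw [hR, card_filter]
      push_cast
      apply sum_congr rfl
      intro a _
      by_cases h : ∀ p ∈ U, φ p a
      · rw [if_pos h]
        symm
        apply prod_eq_one
        intro p hp
        rw [if_pos (h p hp)]
      · rw [if_neg h]
        push Not at h
        obtain ⟨p, hp, hp'⟩ := h
        symm
        apply prod_eq_zero hp
        rw [if_neg hp']
    rw [h2, h1, hU, prod_union hdis]
    congr 1
    · apply prod_congr rfl
      intro p hp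
      have hpz := (mem_pz.1 hp).1
      have h3 : om (G * H) p + #((range p).filter (fun r : ℕ => ¬ (p : ℤ) ∣ (G * H).eval (r : ℤ))) = p := by
        unfold om
        rw [card_filter_add_card_filter_not, card_range]
      have h4 : (om (G * H) p : ℝ) + #((range p).filter (fun r : ℕ => ¬ (p : ℤ) ∣ (G * H).eval (r : ℤ))) = p := by exact_mod_cast h3
      rw [← sum_filter, sum_const, nsmul_eq_mul, mul_one]
      have h5 : (range p).filter (fun r : ℕ => φ p r) = (range p).filter (fun r : ℕ => ¬ (p : ℤ) ∣ (G * H).eval (r : ℤ)) := by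
        apply filter_congr
        intro r _
        rw [hφ]
        simp only [if_pos hpz]
      rw [h5]
      linarith
    · apply prod_congr rfl
      intro p hp
      have hpz := (hT p hp).2
      rw [← sum_filter, sum_const, nsmul_eq_mul, mul_one]
      unfold r1
      congr 2
      apply filter_congr
      intro r _
      rw [hφ]
      simp only [if_neg (by omega : ¬ p ≤ z0)]
  -- the product of the densities
  have hGz : Gz G z q = ∏ p ∈ (pz z).filter (fun p => z0 < p ∧ p ∉ T), (1 - (om G p : ℝ) / p) := by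
    unfold Gz
    congr 1
    apply filter_congr
    intro p hp
    have hp' := mem_pz.1 hp
    rw [hpq p hp'.2, hU, mem_union, mem_pz]
    constructor
    · intro h
      push Not at h
      exact ⟨by by_contra h'; exact h.1 (by omega) hp'.2, h.2⟩
    · rintro ⟨h1, h2⟩ (h3 | h3)
      · omega
      · exact h2 h3
  have hqT : (q : ℝ) = (∏ p ∈ pz z0, (p : ℝ)) * ∏ p ∈ T, (p : ℝ) := by
    rw [hq, hU, prod_union hdis]
    push_cast
    rfl
  have hq0 : (0 : ℝ) < q := by exact_mod_cast hq1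
  have hK1 : (1 : ℝ) ≤ ∏ p ∈ pz z0, (p : ℝ) := by
    have h0 : 1 ≤ ∏ p ∈ pz z0, p := Finset.prod_pos fun p hp => (mem_pz.1 hp).2.pos
    have h : ((1 : ℕ) : ℝ) ≤ ((∏ p ∈ pz z0, p : ℕ) : ℝ) := Nat.cast_le.2 h0
    push_cast at h
    exact h
  have hT0 : (0 : ℝ) < ∏ p ∈ T, (p : ℝ) := Finset.prod_pos fun p hp => by exact_mod_cast (hT p hp).1.pos
  have hmain : (#R : ℝ) / q = (∏ p ∈ pz z0, (1 - (om (G * H) p : ℝ) / p)) * (∏ p ∈ T, (r1 G H z p : ℝ) / p) := by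
    rw [hRc, hqT, mul_div_mul_comm, prod_div_distrib, ← prod_div_distrib]
    congr 1
    apply prod_congr rfl
    intro p hp
    have : (p : ℝ) ≠ 0 := by exact_mod_cast (mem_pz.1 hp).2.ne_zero
    field_simp
  have hRle : (#R : ℝ) ≤ (∏ p ∈ pz z0, (p : ℝ)) * (∏ p ∈ T, (r1 G H z p : ℝ)) := by
    rw [hRc]
    apply mul_le_mul_of_nonneg_right _ (prod_nonneg fun _ _ => Nat.cast_nonneg _)
    apply prod_le_prod
    · intro p _
      have : (om (G * H) p : ℝ) ≤ p := by exact_mod_cast Pool.Agent.H544.LD.om_le_self (G * H) p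
      linarith
    · intro p _
      have : (0 : ℝ) ≤ om (G * H) p := Nat.cast_nonneg _
      linarith
  -- the conditions
  obtain ⟨cd, hcd⟩ : ∃ cd : ℕ → Prop, cd = fun n : ℕ => (∀ p ∈ pz z0, ¬ (p : ℤ) ∣ H.eval (n : ℤ)) ∧ ∀ p ∈ T, (p : ℤ) ∣ H.eval (n : ℤ) := ⟨_, rfl⟩
  obtain ⟨a, ha⟩ : ∃ a : ℕ → ℝ, a = fun n : ℕ => if cd n then lamzI z (G.eval (n : ℤ)) else 0 := ⟨_, rfl⟩
  obtain ⟨β, hβ⟩ : ∃ β : ℕ → ℝ, β = fun n : ℕ => if cd n ∧ ∀ p ∈ pz z, ¬ (p : ℤ) ∣ G.eval (n : ℤ) then (Vz z)⁻¹ else 0 := ⟨_, rfl⟩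
  have hab : ∀ n, n1 ≤ n → a n = β n := by
    intro n hn
    rw [ha, hβ]
    simp only
    rw [lamzI_eq z _ (hn1 n hn)]
    by_cases h1 : cd n
    · by_cases h2 : ∀ p ∈ pz z, ¬ (p : ℤ) ∣ G.eval (n : ℤ)
      · rw [if_pos h1, if_pos h2, if_pos ⟨h1, h2⟩]
      · rw [if_pos h1, if_neg h2, if_neg (fun h => h2 h.2)]
    · rw [if_neg h1, if_neg (fun h => h1 h.1)]
  have hab2 : ∀ n, |a n - β n| ≤ (Vz z)⁻¹ := by
    intro n
    have h1 : 0 ≤ a n ∧ a n ≤ (Vz z)⁻¹ := by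
      rw [ha]
      simp only
      split_ifs with h
      · unfold lamzI lamz
        split_ifs
        · exact ⟨hV0.le, le_rfl⟩
        · exact ⟨le_rfl, hV0.le⟩
        · exact ⟨le_rfl, hV0.le⟩
      · exact ⟨le_rfl, hV0.le⟩
    have h2 : 0 ≤ β n ∧ β n ≤ (Vz z)⁻¹ := by
      rw [hβ]
      simp only
      split_ifs
      · exact ⟨hV0.le, le_rfl⟩
      · exact ⟨le_rfl, hV0.le⟩
    rw [abs_le]
    constructor <;> linarith [h1.1, h1.2, h2.1, h2.2]
  have hs1 : |∑ n ∈ Icc 1 x, a n - ∑ n ∈ Icc 1 x, β n| ≤ (Vz z)⁻¹ * n1 := by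
    rw [← sum_sub_distrib]
    have h1 : ∑ n ∈ Icc 1 x, (a n - β n) = ∑ n ∈ (Icc 1 x).filter (fun n => n < n1), (a n - β n) := by
      symm
      apply sum_subset (filter_subset _ _)
      intro n hn hn'
      rw [mem_filter, not_and] at hn'
      rw [hab n (by have := hn' hn; omega), sub_self]
    rw [h1]
    calc |∑ n ∈ (Icc 1 x).filter (fun n => n < n1), (a n - β n)| ≤ ∑ n ∈ (Icc 1 x).filter (fun n => n < n1), |a n - β n| := abs_sum_le_sum_abs _ _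
      _ ≤ ∑ n ∈ (Icc 1 x).filter (fun n => n < n1), (Vz z)⁻¹ := sum_le_sum fun n _ => hab2 n
      _ = #((Icc 1 x).filter (fun n => n < n1)) * (Vz z)⁻¹ := by rw [sum_const, nsmul_eq_mul]
      _ ≤ n1 * (Vz z)⁻¹ := by
          apply mul_le_mul_of_nonneg_right _ hV0.le
          have h2 : (Icc 1 x).filter (fun n => n < n1) ⊆ range n1 := by
            intro n hn
            rw [mem_filter] at hn
            exact mem_range.2 hn.2
          have := card_le_card h2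
          rw [card_range] at this
          exact_mod_cast this
      _ = _ := mul_comm _ _
  -- the classes
  have hgood : ∀ r ∈ range q, ∀ n ∈ cls x q r, (cd n ∧ ∀ p ∈ pz z, ¬ (p : ℤ) ∣ G.eval (n : ℤ)) ↔
      ((∀ p ∈ U, φ p r) ∧ ∀ p ∈ pz z, ¬ (p : ℤ) ∣ G.eval (n : ℤ)) := by
    intro r _ n hn
    have hnr : n % q = r := by
      unfold cls at hn
      exact (mem_filter.1 hn).2
    constructor
    · rintro ⟨h1, h2⟩
      refine ⟨fun p hp => ?_, h2⟩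
      rw [← hφp p n r (hmodp p hp n r hnr), hφ]
      simp only
      rw [hcd] at h1
      rw [hU, mem_union] at hp
      rcases hp with h | h
      · rw [if_pos (mem_pz.1 h).1, eval_mul]
        intro h3
        rcases (Nat.prime_iff_prime_int.1 (mem_pz.1 h).2).dvd_or_dvd h3 with h4 | h4
        · exact h2 p (mem_pz.2 ⟨(mem_pz.1 h).1.trans hz0, (mem_pz.1 h).2⟩) h4
        · exact h1.1 p h h4
      · rw [if_neg (by have := (hT p h).2; omega)]
        exact ⟨h1.2 p h, fun h3 => h2 p (mem_pz.2 ⟨h3, (hT p h).1⟩)⟩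
    · rintro ⟨h1, h2⟩
      refine ⟨?_, h2⟩
      rw [hcd]
      simp only
      constructor
      · intro p hp
        have h3 := h1 p (by rw [hU]; exact mem_union_left _ hp)
        rw [← hφp p n r (hmodp p (by rw [hU]; exact mem_union_left _ hp) n r hnr), hφ] at h3
        simp only [if_pos (mem_pz.1 hp).1, eval_mul] at h3
        exact fun h4 => h3 (h4.mul_left _)
      · intro p hp
        have h3 := h1 p (by rw [hU]; exact mem_union_right _ hp)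
        rw [← hφp p n r (hmodp p (by rw [hU]; exact mem_union_right _ hp) n r hnr), hφ] at h3
        simp only [if_neg (by have := (hT p hp).2; omega : ¬ p ≤ z0)] at h3
        exact h3.1
  have hs2 : ∑ n ∈ Icc 1 x, β n = (Vz z)⁻¹ * ∑ r ∈ R, (#((cls x q r).filter (fun n : ℕ => ∀ p ∈ pz z, ¬ (p : ℤ) ∣ G.eval (n : ℤ))) : ℝ) := by
    rw [cls_fiber x q hq1 β, mul_sum, hR, sum_filter]
    apply sum_congr rfl
    intro r hr
    by_cases h : ∀ p ∈ U, φ p r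
    · rw [if_pos h]
      have h1 : ∀ n ∈ cls x q r, β n = if ∀ p ∈ pz z, ¬ (p : ℤ) ∣ G.eval (n : ℤ) then (Vz z)⁻¹ else 0 := by
        intro n hn
        rw [hβ]
        simp only [hgood r hr n hn]
        congr 1
        apply propext
        exact ⟨fun h => h.2, fun h' => ⟨h, h'⟩⟩
      rw [sum_congr rfl h1, ← sum_filter, sum_const, nsmul_eq_mul, mul_comm]
    · rw [if_neg h]
      apply sum_eq_zero
      intro n hn
      rw [hβ]
      simp only [hgood r hr n hn]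
      rw [if_neg (fun h' => h h'.1)]
  have hs3 : |∑ r ∈ R, (#((cls x q r).filter (fun n : ℕ => ∀ p ∈ pz z, ¬ (p : ℤ) ∣ G.eval (n : ℤ))) : ℝ) - #R * ((x : ℝ) / q * Gz G z q)| ≤
      #R * ((1 / 2 : ℝ) ^ b * ((x : ℝ) / q) + (z : ℝ) ^ (C1 * b)) := by
    have e1 : (#R : ℝ) * ((x : ℝ) / q * Gz G z q) = ∑ r ∈ R, ((x : ℝ) / q * Gz G z q) := by rw [sum_const, nsmul_eq_mul]
    rw [e1, ← sum_sub_distrib]
    refine (abs_sum_le_sum_abs _ _).trans ?_
    have e2 : (#R : ℝ) * ((1 / 2 : ℝ) ^ b * ((x : ℝ) / q) + (z : ℝ) ^ (C1 * b)) = ∑ r ∈ R, ((1 / 2 : ℝ) ^ b * ((x : ℝ) / q) + (z : ℝ) ^ (C1 * b)) := by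
      rw [sum_const, nsmul_eq_mul]
    rw [e2]
    apply sum_le_sum
    intro r hr
    rw [hR, mem_filter, mem_range] at hr
    apply hfl b hb z hz G q r x hG hq1 hr.1
    intro p hp hpq'
    have hp' := mem_pz.1 hp
    have hpU := (hpq p hp'.2).1 hpq'
    have h3 := hr.2 p hpU
    rw [hφ] at h3
    split_ifs at h3 with h4
    · rw [eval_mul] at h3
      exact fun h5 => h3 (h5.mul_right _)
    · exact h3.2 hp'.1
  have hsa : ∑ n ∈ (Icc 1 x).filter (fun n : ℕ => (∀ p ∈ pz z0, ¬ (p : ℤ) ∣ H.eval (n : ℤ)) ∧ ∀ p ∈ T, (p : ℤ) ∣ H.eval (n : ℤ)),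
        lamzI z (G.eval (n : ℤ)) = ∑ n ∈ Icc 1 x, a n := by
    rw [sum_filter, ha, hcd]
    apply sum_congr rfl
    intro n _
    congr 1
  rw [hsa, ← hGz]
  have e3 : (Vz z)⁻¹ * x * (∏ p ∈ pz z0, (1 - (om (G * H) p : ℝ) / p)) * (∏ p ∈ T, (r1 G H z p : ℝ) / p) * Gz G z q =
      (Vz z)⁻¹ * (#R * ((x : ℝ) / q * Gz G z q)) := by
    rw [mul_assoc ((Vz z)⁻¹ * (x : ℝ)), ← hmain]
    ring
  rw [e3]
  rw [hs2] at hs1
  obtain ⟨Sg, hSg⟩ : ∃ s : ℝ, s = ∑ r ∈ R, (#((cls x q r).filter (fun n : ℕ => ∀ p ∈ pz z, ¬ (p : ℤ) ∣ G.eval (n : ℤ))) : ℝ) := ⟨_, rfl⟩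
  rw [← hSg] at hs1 hs3
  have h4 : |(Vz z)⁻¹ * Sg - (Vz z)⁻¹ * (#R * ((x : ℝ) / q * Gz G z q))| ≤ (Vz z)⁻¹ * (#R * ((1 / 2 : ℝ) ^ b * ((x : ℝ) / q) + (z : ℝ) ^ (C1 * b))) := by
    rw [← mul_sub, abs_mul, abs_of_pos hV0]
    exact mul_le_mul_of_nonneg_left hs3 hV0.le
  have h5 := abs_sub_le (∑ n ∈ Icc 1 x, a n) ((Vz z)⁻¹ * Sg) ((Vz z)⁻¹ * (#R * ((x : ℝ) / q * Gz G z q)))
  refine h5.trans ((add_le_add hs1 h4).trans ?_)
  rw [← mul_add]
  apply mul_le_mul_of_nonneg_left _ hV0.le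
  rw [add_comm]
  apply add_le_add _ le_rfl
  have h6 : (x : ℝ) / q ≤ x / ∏ p ∈ T, (p : ℝ) := by
    apply div_le_div_of_nonneg_left (Nat.cast_nonneg _) hT0
    rw [hqT]
    exact le_mul_of_one_le_left hT0.le hK1
  have h7 : (0 : ℝ) ≤ (z : ℝ) ^ (C1 * b) := by positivity
  apply mul_le_mul hRle _ (by positivity) (by
    apply mul_nonneg (by linarith) (prod_nonneg fun _ _ => Nat.cast_nonneg _))
  have h8 : (1 / 2 : ℝ) ^ b * ((x : ℝ) / q) ≤ (1 / 2 : ℝ) ^ b * (x / ∏ p ∈ T, (p : ℝ)) := mul_le_mul_of_nonneg_left h6 (by positivity)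
  linarith

end Pool.Agent.H544.BC
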