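import Mathlib
import Pool.Agent.H544.BC.R2
import Pool.Graph.R_seed8.H373R2.T7.Tuple2
import Pool.Graph.R_seed8.H373R2.T7.Fund
import Pool.Graph.R_seed8.H20R2.EN.FLem

/-!
The fundamental lemma for prime values along sifted arguments.
-/

set_option autoImplicit false

namespace Pool.Agent.H544.BC
open Finset Polynomial
open Pool.Agent.H373R2.T7 (pz Vz mem_pz Vz_pos Vz_le_one lamzI lamz lamP lamP_nonneg JJ JJ_lt JJ_le)
open Pool.Agent.H544.LD (cls om Gz Gz_nonneg Gz_le_one fac_nn fac_le_one om_fixed om_shift om_le dvd_eval_iff)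

/-- the singular series: primes up to `z` for all the values, primes between `z` and `y` for the companions -/
noncomputable def SS (G H : ℤ[X]) (z y : ℕ) : ℝ := (Vz z)⁻¹ * (∏ p ∈ pz z, (1 - (om (G * H) p : ℝ) / p)) *
  ∏ p ∈ (pz y).filter (fun p => z < p), (1 - (om H p : ℝ) / p)

lemma SS_nonneg (G H : ℤ[X]) (z y : ℕ) : 0 ≤ SS G H z y :=
  mul_nonneg (mul_nonneg (inv_nonneg.2 (Vz_pos z).le) (prod_nonneg fun p _ => fac_nn _ p)) (prod_nonneg fun p _ => fac_nn _ p)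

/-- the weighted count -/
noncomputable def SP (G H : ℤ[X]) (y x : ℕ) : ℝ := by
  classical
  exact ∑ n ∈ (Icc 1 x).filter (fun n : ℕ => ∀ p ∈ pz y, ¬ (p : ℤ) ∣ H.eval (n : ℤ)), lamP (G.eval (n : ℤ))

/-- the difference of primes and the model, along sifted arguments -/
noncomputable def DT (G H : ℤ[X]) (z0 z x : ℕ) (T : Finset ℕ) : ℝ := by
  classical
  exact |∑ n ∈ (Icc 1 x).filter (fun n : ℕ => (∀ p ∈ pz z0, ¬ (p : ℤ) ∣ H.eval (n : ℤ)) ∧ ∀ p ∈ T, (p : ℤ) ∣ H.eval (n : ℤ)),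
    (lamP (G.eval (n : ℤ)) - lamzI z (G.eval (n : ℤ)))|

theorem sift (κ : ℕ) : ∃ C0 C1 z1 : ℕ, 1 ≤ C0 ∧ 1 ≤ C1 ∧ 2 ≤ z1 ∧ ∀ (G H : ℤ[X]) (n1 z0 : ℕ), G.natDegree ≤ κ →
    (∀ n : ℕ, n1 ≤ n → 1 ≤ G.eval (n : ℤ)) → C0 ≤ z0 → (∀ p : ℕ, p.Prime → z0 < p → om G p ≤ κ ∧ om H p ≤ κ) →
    ∀ z y : ℕ, z1 ≤ z → z0 ≤ z → z ≤ y → ∀ b b1 : ℕ, C0 ≤ b → C1 ≤ b1 → ∀ x : ℕ,
    |SP G H y x - x * SS G H z y| ≤ (1 / 2 : ℝ) ^ b * (x * SS G H z y) + ((JJ y : ℝ) + 2) *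
      ∑ T ∈ ((pz y).filter (fun p => z0 < p)).powerset.filter (fun T : Finset ℕ => ∏ p ∈ T, p ≤ (y ^ 2) ^ (C0 * b)),
        (DT G H z0 z x T + (Vz z)⁻¹ * ((∏ p ∈ pz z0, (p : ℝ)) * (κ : ℝ) ^ #T *
          ((1 / 2 : ℝ) ^ b1 * ((x : ℝ) / ∏ p ∈ T, (p : ℝ)) + (z : ℝ) ^ (C1 * b1)) + n1)) := by
  classical
  obtain ⟨C0, hC0, hFL⟩ := Pool.Agent.H20R2.fLem (2 * κ)
  obtain ⟨C1, z1, hC1, hz1, hmod⟩ := mod_cls κ
  refine ⟨C0 + 2 * κ, C1, z1, by omega, hC1, hz1, fun G H n1 z0 hG hn1 hz0 hom z y hz hz0z hzy b b1 hb hb1 x => ?_⟩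
  have hV0 : 0 < (Vz z)⁻¹ := inv_pos.2 (Vz_pos z)
  have hy2 : 2 ≤ y := by omega
  have hb1' : 1 ≤ b := by omega
  -- the sets of primes
  obtain ⟨W, hW⟩ : ∃ W, W = (pz z).filter (fun p => z0 < p) := ⟨_, rfl⟩
  obtain ⟨P, hP⟩ : ∃ P, P = (pz y).filter (fun p => z0 < p) := ⟨_, rfl⟩
  rw [← hP]
  have hPp : ∀ p ∈ P, p.Prime ∧ z0 < p ∧ p ≤ y := by
    intro p hp
    rw [hP, mem_filter, mem_pz] at hp
    exact ⟨hp.1.2, hp.2, hp.1.1⟩
  obtain ⟨A0, hA0⟩ : ∃ A0, A0 = ∏ p ∈ pz z0, (1 - (om (G * H) p : ℝ) / p) := ⟨_, rfl⟩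
  obtain ⟨A, hA⟩ : ∃ A, A = (Vz z)⁻¹ * x * A0 * ∏ p ∈ W, (1 - (om G p : ℝ) / p) := ⟨_, rfl⟩
  have hA00 : 0 ≤ A0 := by rw [hA0]; exact prod_nonneg fun p _ => fac_nn _ p
  have hAn : 0 ≤ A := by
    rw [hA]
    exact mul_nonneg (mul_nonneg (mul_nonneg hV0.le (Nat.cast_nonneg _)) hA00) (prod_nonneg fun p _ => fac_nn _ p)
  obtain ⟨g, hg⟩ : ∃ g : ℕ → ℝ, g = fun p : ℕ => if p ≤ z then (r1 G H z p : ℝ) / ((p : ℝ) - om G p) else (om H p : ℝ) / p := ⟨_, rfl⟩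
  -- the denominators
  have hden : ∀ p : ℕ, p.Prime → z0 < p → ((p : ℝ) - 1) / 2 ≤ (p : ℝ) - om G p := by
    intro p hp hpz
    have h1 : (om G p : ℝ) ≤ κ := by exact_mod_cast (hom p hp hpz).1
    have h2 : (2 * κ : ℝ) ≤ p := by exact_mod_cast (by omega : 2 * κ ≤ p)
    linarith
  have hden0 : ∀ p : ℕ, p.Prime → z0 < p → (0 : ℝ) < (p : ℝ) - om G p := by
    intro p hp hpz
    have h1 := hden p hp hpz
    have h2 : (1 : ℝ) < p := by exact_mod_cast hp.one_lt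
    linarith
  have hgb : ∀ p ∈ P, 0 ≤ g p ∧ g p ≤ ((2 * κ : ℕ) : ℝ) / ((p : ℝ) - 1) := by
    intro p hp
    obtain ⟨h1, h2, _⟩ := hPp p hp
    have h3 : (1 : ℝ) < p := by exact_mod_cast h1.one_lt
    have h4 : (om H p : ℝ) ≤ κ := by exact_mod_cast (hom p h1 h2).2
    have h5 : (r1 G H z p : ℝ) ≤ κ := by
      have := r1_le G H z p
      exact_mod_cast this.trans (hom p h1 h2).2
    rw [hg]
    simp only
    split_ifs with h6
    · refine ⟨div_nonneg (Nat.cast_nonneg _) (hden0 p h1 h2).le, ?_⟩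
      rw [div_le_div_iff₀ (hden0 p h1 h2) (by linarith)]
      push_cast
      have h7 := hden p h1 h2
      have hκ : (0 : ℝ) ≤ κ := Nat.cast_nonneg _
      calc (r1 G H z p : ℝ) * (p - 1) ≤ κ * (p - 1) := mul_le_mul_of_nonneg_right h5 (by linarith)
        _ = 2 * κ * ((p - 1) / 2) := by ring
        _ ≤ 2 * κ * (p - om G p) := mul_le_mul_of_nonneg_left h7 (by positivity)
    · refine ⟨div_nonneg (Nat.cast_nonneg _) (by linarith), ?_⟩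
      push_cast
      apply div_le_div₀ (by positivity) _ (by linarith) (by linarith)
      linarith [Nat.cast_nonneg (α := ℝ) κ]
  -- the level
  have hY : 2 ^ 2 ^ JJ y ≤ y ^ 2 := JJ_le y hy2
  have hprodT : ∀ T ⊆ P, A * ∏ p ∈ T, g p = (Vz z)⁻¹ * x * A0 * (∏ p ∈ T, (r1 G H z p : ℝ) / p) *
        ∏ p ∈ (pz z).filter (fun p => z0 < p ∧ p ∉ T), (1 - (om G p : ℝ) / p) := by
    intro T hT
    have e1 : ∏ p ∈ W, (1 - (om G p : ℝ) / p) = (∏ p ∈ W.filter (fun p => p ∈ T), (1 - (om G p : ℝ) / p)) *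
        ∏ p ∈ (pz z).filter (fun p => z0 < p ∧ p ∉ T), (1 - (om G p : ℝ) / p) := by
      rw [← prod_filter_mul_prod_filter_not W (fun p => p ∈ T)]
      congr 2
      rw [hW, filter_filter]
    have e2 : ∏ p ∈ T, g p = (∏ p ∈ T.filter (fun p => p ≤ z), g p) * ∏ p ∈ T.filter (fun p => ¬ p ≤ z), g p :=
      (prod_filter_mul_prod_filter_not T (fun p => p ≤ z) g).symm
    have e3 : ∏ p ∈ T, (r1 G H z p : ℝ) / p = (∏ p ∈ T.filter (fun p => p ≤ z), (r1 G H z p : ℝ) / p) * ∏ p ∈ T.filter (fun p => ¬ p ≤ z), (r1 G H z p : ℝ) / p :=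
      (prod_filter_mul_prod_filter_not T (fun p => p ≤ z) _).symm
    have e4 : W.filter (fun p => p ∈ T) = T.filter (fun p => p ≤ z) := by
      ext p
      rw [mem_filter, mem_filter, hW, mem_filter, mem_pz]
      constructor
      · rintro ⟨⟨⟨h1, _⟩, _⟩, h2⟩
        exact ⟨h2, h1⟩
      · rintro ⟨h1, h2⟩
        obtain ⟨h3, h4, _⟩ := hPp p (hT h1)
        exact ⟨⟨⟨h2, h3⟩, h4⟩, h1⟩
    have e5 : (∏ p ∈ T.filter (fun p => p ≤ z), (1 - (om G p : ℝ) / p)) * ∏ p ∈ T.filter (fun p => p ≤ z), g p =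
        ∏ p ∈ T.filter (fun p => p ≤ z), (r1 G H z p : ℝ) / p := by
      rw [← prod_mul_distrib]
      apply prod_congr rfl
      intro p hp
      rw [mem_filter] at hp
      obtain ⟨h3, h4, _⟩ := hPp p (hT hp.1)
      rw [hg]
      simp only [if_pos hp.2]
      have h5 : (p : ℝ) ≠ 0 := by exact_mod_cast h3.ne_zero
      have h6 := (hden0 p h3 h4).ne'
      field_simp
    have e6 : ∏ p ∈ T.filter (fun p => ¬ p ≤ z), g p = ∏ p ∈ T.filter (fun p => ¬ p ≤ z), (r1 G H z p : ℝ) / p := by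
      apply prod_congr rfl
      intro p hp
      rw [mem_filter] at hp
      rw [hg]
      simp only [if_neg hp.2]
      rw [r1_big G H z p (by omega)]
    rw [hA, e1, e2, e3, e4, e6, ← e5]
    ring
  have key := hFL b (JJ y) z0 P g (by omega) (by omega) (fun p hp => by
      obtain ⟨h1, h2, h3⟩ := hPp p hp
      exact ⟨h1, h2, (h3.trans_lt (JJ_lt y)).le⟩) hgb
    ((Icc 1 x).filter (fun n : ℕ => ∀ p ∈ pz z0, ¬ (p : ℤ) ∣ H.eval (n : ℤ))) (fun n => lamP (G.eval (n : ℤ)))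
    (fun p n => (p : ℤ) ∣ H.eval (n : ℤ)) A
    (fun T => DT G H z0 z x T + (Vz z)⁻¹ * ((∏ p ∈ pz z0, (p : ℝ)) * (κ : ℝ) ^ #T *
          ((1 / 2 : ℝ) ^ b1 * ((x : ℝ) / ∏ p ∈ T, (p : ℝ)) + (z : ℝ) ^ (C1 * b1)) + n1))
    (fun n _ => lamP_nonneg _) hAn (by
      intro T hT _
      obtain ⟨F, hF⟩ : ∃ F, F = (Icc 1 x).filter (fun n : ℕ => (∀ p ∈ pz z0, ¬ (p : ℤ) ∣ H.eval (n : ℤ)) ∧ ∀ p ∈ T, (p : ℤ) ∣ H.eval (n : ℤ)) := ⟨_, rfl⟩
      have hset : ∀ (D1 : DecidablePred (fun m : ℕ => ∀ p ∈ T, (p : ℤ) ∣ H.eval (m : ℤ))),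
          @Finset.filter ℕ (fun m : ℕ => ∀ p ∈ T, (p : ℤ) ∣ H.eval (m : ℤ)) D1 ((Icc 1 x).filter (fun n : ℕ => ∀ p ∈ pz z0, ¬ (p : ℤ) ∣ H.eval (n : ℤ))) = F := by
        intro D1
        rw [hF]
        ext n
        simp only [mem_filter, and_assoc]
      rw [hset, hprodT T hT, hF]
      have h1 := hmod b1 hb1 z hz G H n1 hG hn1 z0 hz0z T (fun p hp => ⟨(hPp p (hT hp)).1, (hPp p (hT hp)).2.1⟩) x
      rw [← hA0] at h1
      obtain ⟨M, hM⟩ : ∃ M, M = (Vz z)⁻¹ * x * A0 * (∏ p ∈ T, (r1 G H z p : ℝ) / p) *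
        ∏ p ∈ (pz z).filter (fun p => z0 < p ∧ p ∉ T), (1 - (om G p : ℝ) / p) := ⟨_, rfl⟩
      rw [← hM] at h1 ⊢
      have h2 : ∏ p ∈ T, (r1 G H z p : ℝ) ≤ (κ : ℝ) ^ #T := by
        rw [← prod_const]
        apply prod_le_prod (fun _ _ => Nat.cast_nonneg _)
        intro p hp
        have := r1_le G H z p
        exact_mod_cast this.trans (hom p (hPp p (hT hp)).1 (hPp p (hT hp)).2.1).2
      have h3 : (Vz z)⁻¹ * ((∏ p ∈ pz z0, (p : ℝ)) * (∏ p ∈ T, (r1 G H z p : ℝ)) *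
        ((1 / 2 : ℝ) ^ b1 * ((x : ℝ) / ∏ p ∈ T, (p : ℝ)) + (z : ℝ) ^ (C1 * b1)) + n1) ≤
        (Vz z)⁻¹ * ((∏ p ∈ pz z0, (p : ℝ)) * (κ : ℝ) ^ #T *
        ((1 / 2 : ℝ) ^ b1 * ((x : ℝ) / ∏ p ∈ T, (p : ℝ)) + (z : ℝ) ^ (C1 * b1)) + n1) := by
        apply mul_le_mul_of_nonneg_left _ hV0.le
        apply add_le_add _ le_rfl
        apply mul_le_mul_of_nonneg_right
        · exact mul_le_mul_of_nonneg_left h2 (prod_nonneg fun _ _ => Nat.cast_nonneg _)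
        · have : 0 ≤ ∏ p ∈ T, (p : ℝ) := prod_nonneg fun _ _ => Nat.cast_nonneg _
          positivity
      have h4 := abs_sub_le (∑ n ∈ (Icc 1 x).filter (fun n : ℕ => (∀ p ∈ pz z0, ¬ (p : ℤ) ∣ H.eval (n : ℤ)) ∧ ∀ p ∈ T, (p : ℤ) ∣ H.eval (n : ℤ)),
        lamP (G.eval (n : ℤ))) (∑ n ∈ (Icc 1 x).filter (fun n : ℕ => (∀ p ∈ pz z0, ¬ (p : ℤ) ∣ H.eval (n : ℤ)) ∧ ∀ p ∈ T, (p : ℤ) ∣ H.eval (n : ℤ)),
        lamzI z (G.eval (n : ℤ))) M
      refine h4.trans ?_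
      refine add_le_add (le_of_eq ?_) (h1.trans h3)
      unfold DT
      rw [sum_sub_distrib])
  -- the result
  have f1 : ∀ (D1 : DecidablePred (fun m : ℕ => ∀ p ∈ P, ¬ (p : ℤ) ∣ H.eval (m : ℤ))),
      ∑ m ∈ @Finset.filter ℕ (fun m : ℕ => ∀ p ∈ P, ¬ (p : ℤ) ∣ H.eval (m : ℤ)) D1 ((Icc 1 x).filter (fun n : ℕ => ∀ p ∈ pz z0, ¬ (p : ℤ) ∣ H.eval (n : ℤ))),
      lamP (G.eval (m : ℤ)) = SP G H y x := by
    intro D1
    unfold SP
    apply sum_congr _ (fun _ _ => rfl)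
    ext n
    rw [mem_filter, mem_filter, mem_filter, and_assoc]
    apply and_congr_right
    intro _
    constructor
    · rintro ⟨h1, h2⟩ p hp
      rcases Nat.lt_or_ge z0 p with h | h
      · exact h2 p (by rw [hP, mem_filter]; exact ⟨hp, h⟩)
      · exact h1 p (mem_pz.2 ⟨h, (mem_pz.1 hp).2⟩)
    · intro h
      refine ⟨fun p hp => h p (mem_pz.2 ⟨(mem_pz.1 hp).1.trans (by omega), (mem_pz.1 hp).2⟩), fun p hp => ?_⟩
      rw [hP, mem_filter] at hp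
      exact h p hp.1
  have f2 : A * ∏ p ∈ P, (1 - g p) = x * SS G H z y := by
    have e1 : ∏ p ∈ P, (1 - g p) = (∏ p ∈ P.filter (fun p => p ≤ z), (1 - g p)) * ∏ p ∈ P.filter (fun p => ¬ p ≤ z), (1 - g p) :=
      (prod_filter_mul_prod_filter_not P (fun p => p ≤ z) _).symm
    have e2 : P.filter (fun p => p ≤ z) = W := by
      ext p
      rw [mem_filter, hP, hW, mem_filter, mem_filter, mem_pz, mem_pz]
      constructor
      · rintro ⟨⟨⟨_, h1⟩, h2⟩, h3⟩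
        exact ⟨⟨h3, h1⟩, h2⟩
      · rintro ⟨⟨h1, h2⟩, h3⟩
        exact ⟨⟨⟨by omega, h2⟩, h3⟩, h1⟩
    have e3 : P.filter (fun p => ¬ p ≤ z) = (pz y).filter (fun p => z < p) := by
      rw [hP, filter_filter]
      apply filter_congr
      intro p _
      constructor
      · rintro ⟨_, h2⟩; omega
      · intro h; exact ⟨by omega, by omega⟩
    have e4 : (∏ p ∈ W, (1 - (om G p : ℝ) / p)) * ∏ p ∈ W, (1 - g p) = ∏ p ∈ W, (1 - (om (G * H) p : ℝ) / p) := by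
      rw [← prod_mul_distrib]
      apply prod_congr rfl
      intro p hp
      rw [hW, mem_filter, mem_pz] at hp
      obtain ⟨⟨h1, h2⟩, h3⟩ := hp
      rw [hg]
      simp only [if_pos h1]
      have h5 : (p : ℝ) ≠ 0 := by exact_mod_cast h2.ne_zero
      have h6 := (hden0 p h2 h3).ne'
      rw [om_mul G H z p h2 h1]
      push_cast
      field_simp
      ring
    have e5 : ∏ p ∈ (pz y).filter (fun p => z < p), (1 - g p) = ∏ p ∈ (pz y).filter (fun p => z < p), (1 - (om H p : ℝ) / p) := by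
      apply prod_congr rfl
      intro p hp
      rw [mem_filter] at hp
      rw [hg]
      simp only [if_neg (by omega : ¬ p ≤ z)]
    have e6 : ∏ p ∈ pz z, (1 - (om (G * H) p : ℝ) / p) = A0 * ∏ p ∈ W, (1 - (om (G * H) p : ℝ) / p) := by
      rw [hA0, hW, ← prod_filter_mul_prod_filter_not (pz z) (fun p => p ≤ z0)]
      congr 1
      · apply prod_congr _ (fun _ _ => rfl)
        ext p
        rw [mem_filter, mem_pz, mem_pz]
        constructor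
        · rintro ⟨⟨_, h1⟩, h2⟩; exact ⟨h2, h1⟩
        · rintro ⟨h1, h2⟩; exact ⟨⟨by omega, h2⟩, h1⟩
      · apply prod_congr _ (fun _ _ => rfl)
        apply filter_congr
        intro p _
        omega
    unfold SS
    rw [hA, e1, e2, e3, e5, e6, ← e4]
    ring
  rw [f1, f2] at key
  refine key.trans (add_le_add ?_ ?_)
  · exact le_rfl
  · apply mul_le_mul_of_nonneg_left _ (by positivity)
    apply sum_le_sum_of_subset_of_nonneg
    · intro T hT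
      rw [mem_filter] at hT ⊢
      refine ⟨hT.1, hT.2.trans ?_⟩
      calc (2 ^ 2 ^ JJ y) ^ (C0 * b) ≤ (y ^ 2) ^ (C0 * b) := Nat.pow_le_pow_left hY _
        _ ≤ (y ^ 2) ^ ((C0 + 2 * κ) * b) := Nat.pow_le_pow_right (by positivity) (Nat.mul_le_mul_right _ (by omega))
    · intro T _ _
      have h1 : 0 ≤ DT G H z0 z x T := by unfold DT; exact abs_nonneg _
      have h2 : 0 ≤ ∏ p ∈ T, (p : ℝ) := prod_nonneg fun _ _ => Nat.cast_nonneg _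
      have h3 : 0 ≤ ∏ p ∈ pz z0, (p : ℝ) := prod_nonneg fun _ _ => Nat.cast_nonneg _
      positivity

end Pool.Agent.H544.BC
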