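import Mathlib
import Pool.Agent.H544.BC.R1
import Pool.Agent.H544.BC.R3
import Pool.Agent.H544.BC.M13

/-!
Auxiliary bounds: the singular series from below, kernels, sums over sets of primes.
-/

set_option autoImplicit false

namespace Pool.Agent.H544.BC
open Finset Polynomial
open Pool.Agent.H373R2.T7 (pz Vz mem_pz Vz_pos Vz_le_one lamzI lamz lamP lamP_nonneg JJ JJ_lt JJ_le JJ_pow Vz_low)
open Pool.Agent.H544.LD (cls om Gz Gz_nonneg Gz_le_one fac_nn fac_le_one om_fixed om_shift om_le dvd_eval_iff)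
open Pool.Agent.N913.MT (evt_log_pow evt_log_ge)

lemma pw_low (κ p : ℕ) (hp : 1 ≤ p) (h : 4 * κ ≤ p) : (1 - 1 / (p : ℝ)) ^ (4 * κ) ≤ 1 - (2 * κ : ℝ) / p := by
  have hp0 : (0 : ℝ) < p := by exact_mod_cast hp
  have h1 : 1 - 1 / (p : ℝ) ≤ Real.exp (-(1 / (p : ℝ))) := by
    have := Real.add_one_le_exp (-(1 / (p : ℝ)))
    linarith
  have h0 : 0 ≤ 1 - 1 / (p : ℝ) := by
    rw [sub_nonneg, div_le_one hp0]
    exact_mod_cast hp
  have h2 : (1 - 1 / (p : ℝ)) ^ (4 * κ) ≤ Real.exp (-(4 * κ / (p : ℝ))) := by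
    refine (pow_le_pow_left₀ h0 h1 _).trans (le_of_eq ?_)
    rw [← Real.exp_nat_mul]
    congr 1
    push_cast
    ring
  refine h2.trans ?_
  obtain ⟨s, hs⟩ : ∃ s : ℝ, s = 4 * κ / (p : ℝ) := ⟨_, rfl⟩
  have hs0 : 0 ≤ s := by rw [hs]; positivity
  have hs1 : s ≤ 1 := by
    rw [hs, div_le_one hp0]
    exact_mod_cast h
  have e : (2 * κ : ℝ) / p = s / 2 := by rw [hs]; ring
  rw [← hs, e]
  have h3 := Real.add_one_le_exp s
  rw [Real.exp_neg, inv_le_comm₀ (Real.exp_pos _) (by linarith)]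
  refine le_trans ?_ h3
  rw [inv_le_iff_one_le_mul₀ (by linarith)]
  nlinarith

/-- the singular series from below -/
lemma SS_low (κ z0 : ℕ) (h : 4 * κ ≤ z0) : ∃ V0 N0 : ℕ, ∀ x : ℕ, N0 ≤ x → ∀ (G H : ℤ[X]) (z y : ℕ), z0 ≤ z → z ≤ y → y ≤ x →
    (∀ p : ℕ, p.Prime → z0 < p → om G p ≤ κ ∧ om H p ≤ κ) → (∀ p : ℕ, p.Prime → om (G * H) p < p) →
    1 / Real.log x ^ V0 ≤ SS G H z y := by
  obtain ⟨C, N0, hV⟩ := Vz_low
  obtain ⟨N1, hN1⟩ := Filter.eventually_atTop.1 (evt_log_ge ((∏ p ∈ pz z0, p : ℕ) + 1))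
  refine ⟨C * (4 * κ) + 1, N0 + N1, fun x hx G H z y hz hzy hyx hom hadm => ?_⟩
  have hL := hN1 x (by omega)
  have hK0 : (0 : ℝ) < ((∏ p ∈ pz z0, p : ℕ) : ℝ) := by
    have : 0 < ∏ p ∈ pz z0, p := Finset.prod_pos fun p hp => (mem_pz.1 hp).2.pos
    exact_mod_cast this
  have hL0 : 0 < Real.log x := by linarith
  have hfac : ∀ p ∈ pz x, (0 : ℝ) ≤ 1 - 1 / (p : ℝ) := by
    intro p hp
    have hp' := (mem_pz.1 hp).2
    rw [sub_nonneg, div_le_one (by exact_mod_cast hp'.pos)]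
    exact_mod_cast hp'.one_le
  have h1 : 1 / Real.log x ^ (C * (4 * κ)) ≤ ∏ p ∈ (pz y).filter (fun p => z0 < p), (1 - 1 / (p : ℝ)) ^ (4 * κ) := by
    rw [prod_pow, pow_mul, ← one_div_pow]
    apply pow_le_pow_left₀ (by positivity)
    refine (hV x (by omega)).trans ?_
    unfold Vz
    apply prod_le_prod_of_subset_of_le_one
    · intro p hp
      rw [mem_filter, mem_pz] at hp
      exact mem_pz.2 ⟨hp.1.1.trans hyx, hp.1.2⟩
    · intro p hp
      exact hfac p hp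
    · intro p hp _
      have : (0 : ℝ) ≤ 1 / (p : ℝ) := by positivity
      linarith
  have h2 : ∏ p ∈ (pz y).filter (fun p => z0 < p), (1 - 1 / (p : ℝ)) ^ (4 * κ) =
      (∏ p ∈ (pz z).filter (fun p => z0 < p), (1 - 1 / (p : ℝ)) ^ (4 * κ)) * ∏ p ∈ (pz y).filter (fun p => z < p), (1 - 1 / (p : ℝ)) ^ (4 * κ) := by
    rw [← prod_filter_mul_prod_filter_not ((pz y).filter (fun p => z0 < p)) (fun p => p ≤ z)]
    congr 1
    · apply prod_congr _ (fun _ _ => rfl)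
      ext p
      rw [mem_filter, mem_filter, mem_filter, mem_pz, mem_pz]
      constructor
      · rintro ⟨⟨⟨_, h1⟩, h2⟩, h3⟩
        exact ⟨⟨h3, h1⟩, h2⟩
      · rintro ⟨⟨h1, h2⟩, h3⟩
        exact ⟨⟨⟨by omega, h2⟩, h3⟩, h1⟩
    · apply prod_congr _ (fun _ _ => rfl)
      rw [filter_filter]
      apply filter_congr
      intro p _
      constructor
      · rintro ⟨_, h2⟩; omega
      · intro h; exact ⟨by omega, by omega⟩
  have hpos : ∀ p : ℕ, p.Prime → (0 : ℝ) ≤ 1 - 1 / (p : ℝ) := by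
    intro p hp'
    rw [sub_nonneg, div_le_one (by exact_mod_cast hp'.pos)]
    exact_mod_cast hp'.one_le
  have h3 : ∏ p ∈ (pz z).filter (fun p => z0 < p), (1 - 1 / (p : ℝ)) ^ (4 * κ) ≤ ∏ p ∈ (pz z).filter (fun p => z0 < p), (1 - (om (G * H) p : ℝ) / p) := by
    apply prod_le_prod
    · intro p hp
      rw [mem_filter, mem_pz] at hp
      exact pow_nonneg (hpos p hp.1.2) _
    · intro p hp
      rw [mem_filter, mem_pz] at hp
      refine (pw_low κ p hp.1.2.one_le (by omega)).trans ?_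
      apply sub_le_sub_left
      apply div_le_div_of_nonneg_right _ (Nat.cast_nonneg _)
      have h4 := om_mul G H z p hp.1.2 hp.1.1
      have h5 := r1_le G H z p
      have h6 := hom p hp.1.2 hp.2
      have h7 : om (G * H) p ≤ 2 * κ := by omega
      exact_mod_cast h7
  have h4 : ∏ p ∈ (pz y).filter (fun p => z < p), (1 - 1 / (p : ℝ)) ^ (4 * κ) ≤ ∏ p ∈ (pz y).filter (fun p => z < p), (1 - (om H p : ℝ) / p) := by
    apply prod_le_prod
    · intro p hp
      rw [mem_filter, mem_pz] at hp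
      exact pow_nonneg (hpos p hp.1.2) _
    · intro p hp
      rw [mem_filter, mem_pz] at hp
      refine (pw_low κ p hp.1.2.one_le (by omega)).trans ?_
      apply sub_le_sub_left
      apply div_le_div_of_nonneg_right _ (Nat.cast_nonneg _)
      have h6 := hom p hp.1.2 (by omega)
      have h7 : om H p ≤ 2 * κ := by omega
      exact_mod_cast h7
  have h5 : (((∏ p ∈ pz z0, p : ℕ) : ℝ))⁻¹ ≤ ∏ p ∈ pz z0, (1 - (om (G * H) p : ℝ) / p) := by
    push_cast
    rw [← prod_inv_distrib]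
    apply prod_le_prod
    · intro p _
      positivity
    · intro p hp
      have hp' := (mem_pz.1 hp).2
      have hp0 : (0 : ℝ) < p := by exact_mod_cast hp'.pos
      have h6 : (om (G * H) p : ℝ) + 1 ≤ p := by exact_mod_cast hadm p hp'
      rw [inv_eq_one_div, le_sub_iff_add_le, ← add_div, div_le_one hp0]
      linarith
  have h6 : ∏ p ∈ pz z, (1 - (om (G * H) p : ℝ) / p) = (∏ p ∈ pz z0, (1 - (om (G * H) p : ℝ) / p)) * ∏ p ∈ (pz z).filter (fun p => z0 < p), (1 - (om (G * H) p : ℝ) / p) := by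
    rw [← prod_filter_mul_prod_filter_not (pz z) (fun p => p ≤ z0)]
    congr 1
    · apply prod_congr _ (fun _ _ => rfl)
      ext p
      rw [mem_filter, mem_pz, mem_pz]
      constructor
      · rintro ⟨⟨_, h1⟩, h2⟩; exact ⟨h2, h1⟩
      · rintro ⟨h1, h2⟩; exact ⟨⟨by omega, h2⟩, h1⟩
    · apply prod_congr _ (fun _ _ => rfl)
      apply filter_congr
      intro p _
      omega
  have hVi : 1 ≤ (Vz z)⁻¹ := (one_le_inv₀ (Vz_pos z)).2 (Vz_le_one z)
  have hL' : (((∏ p ∈ pz z0, p : ℕ) : ℝ)) ≤ Real.log x := by linarith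
  unfold SS
  rw [h6]
  have n1 : (0 : ℝ) ≤ ∏ p ∈ (pz z).filter (fun p => z0 < p), (1 - 1 / (p : ℝ)) ^ (4 * κ) := prod_nonneg fun p hp => by
    rw [mem_filter, mem_pz] at hp
    exact pow_nonneg (hpos p hp.1.2) _
  have n2 : (0 : ℝ) ≤ ∏ p ∈ (pz y).filter (fun p => z < p), (1 - 1 / (p : ℝ)) ^ (4 * κ) := prod_nonneg fun p hp => by
    rw [mem_filter, mem_pz] at hp
    exact pow_nonneg (hpos p hp.1.2) _
  calc 1 / Real.log x ^ (C * (4 * κ) + 1) = (Real.log x)⁻¹ * (1 / Real.log x ^ (C * (4 * κ))) := by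
        rw [pow_succ]
        field_simp
    _ ≤ (((∏ p ∈ pz z0, p : ℕ) : ℝ))⁻¹ * ((∏ p ∈ (pz z).filter (fun p => z0 < p), (1 - 1 / (p : ℝ)) ^ (4 * κ)) *
        ∏ p ∈ (pz y).filter (fun p => z < p), (1 - 1 / (p : ℝ)) ^ (4 * κ)) := by
        rw [← h2]
        apply mul_le_mul (inv_anti₀ hK0 hL') h1 (by positivity) (by positivity)
    _ = 1 * ((((∏ p ∈ pz z0, p : ℕ) : ℝ))⁻¹ * (∏ p ∈ (pz z).filter (fun p => z0 < p), (1 - 1 / (p : ℝ)) ^ (4 * κ))) *
        ∏ p ∈ (pz y).filter (fun p => z < p), (1 - 1 / (p : ℝ)) ^ (4 * κ) := by ring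
    _ ≤ _ := by
        apply mul_le_mul _ h4 n2 (by
          apply mul_nonneg (by linarith)
          apply mul_nonneg
          · exact prod_nonneg fun p _ => fac_nn _ p
          · exact prod_nonneg fun p _ => fac_nn _ p)
        apply mul_le_mul hVi _ (by positivity) (by linarith)
        apply mul_le_mul h5 h3 n1
        exact prod_nonneg fun p _ => fac_nn _ p

/-- the union bound for the classes of a product -/
lemma un_bd {k : ℕ} (p : ℕ) (hp : p.Prime) (v : Fin k → ℕ → ℤ) :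
    #((range p).filter (fun n : ℕ => (p : ℤ) ∣ ∏ i, v i n)) ≤ ∑ i, #((range p).filter (fun n : ℕ => (p : ℤ) ∣ v i n)) := by
  classical
  have h1 : (range p).filter (fun n : ℕ => (p : ℤ) ∣ ∏ i, v i n) ⊆ univ.biUnion (fun i => (range p).filter (fun n : ℕ => (p : ℤ) ∣ v i n)) := by
    intro n hn
    rw [mem_filter] at hn
    rw [mem_biUnion]
    obtain ⟨i, _, hi⟩ := (Nat.prime_iff_prime_int.1 hp).exists_mem_finset_dvd hn.2
    exact ⟨i, mem_univ _, mem_filter.2 ⟨hn.1, hi⟩⟩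
  exact (card_le_card h1).trans card_biUnion_le

/-- sums over sets of primes -/
lemma pow_sum (D z0 : ℕ) (P : Finset ℕ) (hP : ∀ p ∈ P, p.Prime ∧ z0 < p) (S : Finset ℕ)
    (hS : ∀ e : ℕ, Squarefree e → (∀ p ∈ e.primeFactors, z0 < p) → e ≤ D → e ∈ S) (F : ℕ → ℝ) (hF : ∀ e ∈ S, 0 ≤ F e) :
    ∑ T ∈ P.powerset.filter (fun T : Finset ℕ => ∏ p ∈ T, p ≤ D), F (∏ p ∈ T, p) ≤ ∑ e ∈ S, F e := by
  classical
  have hpf : ∀ T : Finset ℕ, T ⊆ P → (∏ p ∈ T, p).primeFactors = T := by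
    intro T hT
    exact Nat.primeFactors_prod fun p hp => (hP p (hT hp)).1
  have hinj : Set.InjOn (fun T : Finset ℕ => ∏ p ∈ T, p) (P.powerset.filter (fun T : Finset ℕ => ∏ p ∈ T, p ≤ D) : Finset (Finset ℕ)) := by
    intro T hT T' hT' h
    rw [mem_coe, mem_filter, mem_powerset] at hT hT'
    simp only at h
    rw [← hpf T hT.1, ← hpf T' hT'.1, h]
  rw [← sum_image (f := F) hinj]
  apply sum_le_sum_of_subset_of_nonneg
  · intro e he
    rw [mem_image] at he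
    obtain ⟨T, hT, rfl⟩ := he
    rw [mem_filter, mem_powerset] at hT
    apply hS _ _ _ hT.2
    · rw [Nat.squarefree_iff_prime_squarefree]
      intro p hp hpd
      have h1 : ∏ q ∈ T, q ≠ 0 := prod_ne_zero_iff.2 fun q hq => (hP q (hT.1 hq)).1.ne_zero
      have h2 : p ∈ T := by
        rw [← hpf T hT.1, Nat.mem_primeFactors]
        exact ⟨hp, (dvd_mul_right p p).trans hpd, h1⟩
      rw [← mul_prod_erase T (fun q => q) h2] at hpd
      have h3 := Nat.dvd_of_mul_dvd_mul_left hp.pos hpd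
      rw [hp.prime.dvd_finsetProd_iff] at h3
      obtain ⟨q, hq, hpq⟩ := h3
      rw [mem_erase] at hq
      exact hq.1 ((Nat.prime_dvd_prime_iff_eq hp (hP q (hT.1 hq.2)).1).1 hpq).symm
    · intro p hp
      rw [hpf T hT.1] at hp
      exact (hP p (hT.1 hp)).2
  · intro e he _
    exact hF e he

end Pool.Agent.H544.BC
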