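import Mathlib
import Pool.Agent.H544.BC.R4
import Pool.Agent.H544.LD.Fin

/-!
Prime values with almost prime companions, for almost all shifts.
-/

set_option autoImplicit false

namespace Pool.Agent.H544.BC
open Finset Polynomial
open Pool.Agent.H373R2.T7 (pz Vz mem_pz Vz_pos Vz_le_one lamzI lamz lamP lamP_nonneg JJ JJ_lt JJ_le JJ_pow Vz_low Vz_inv_small)
open Pool.Agent.H544.LD (cls om Gz Gz_nonneg Gz_le_one fac_nn fac_le_one om_fixed om_shift om_le dvd_eval_iff markov om_lt)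
open Pool.Agent.N913.MT (evt_log_pow evt_log_ge)

/-- the value polynomial -/
noncomputable def Gp0 (f0 : ℤ[X]) (c : ℤ) : ℤ[X] := C c + f0

/-- the product of the companions -/
noncomputable def Hp0 {k : ℕ} (f : Fin k → ℤ[X]) (c : ℤ) : ℤ[X] := ∏ i, (C c + f i)

lemma Gp0_eval (f0 : ℤ[X]) (c n : ℤ) : (Gp0 f0 c).eval n = c + f0.eval n := by
  unfold Gp0
  rw [eval_add, eval_C]

lemma Hp0_eval {k : ℕ} (f : Fin k → ℤ[X]) (c n : ℤ) : (Hp0 f c).eval n = ∏ i, (c + (f i).eval n) := by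
  unfold Hp0
  rw [eval_prod]
  apply prod_congr rfl
  intro i _
  rw [eval_add, eval_C]

open Classical in
/-- the kernel of the companions -/
noncomputable def kc {k : ℕ} (f : Fin k → ℤ[X]) (p : ℕ) (n c : ℤ) : ℝ := if (p : ℤ) ∣ (Hp0 f c).eval n then 1 else 0

lemma kc_dvd {k : ℕ} (f : Fin k → ℤ[X]) (p : ℕ) (n n' c c' : ℤ) (h : (p : ℤ) ∣ n - n') (h' : (p : ℤ) ∣ c - c') :
    (p : ℤ) ∣ (Hp0 f c).eval n ↔ (p : ℤ) ∣ (Hp0 f c').eval n' := by
  rw [Hp0_eval, Hp0_eval]
  have h1 : (p : ℤ) ∣ ∏ i, (c + (f i).eval n) - ∏ i, (c' + (f i).eval n') := by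
    apply Int.ModEq.dvd
    apply Int.ModEq.symm
    apply Int.ModEq.prod
    intro i _
    apply Int.ModEq.symm
    apply Int.modEq_of_dvd
    have h2 : (p : ℤ) ∣ (f i).eval n - (f i).eval n' := h.trans (Polynomial.sub_dvd_eval_sub _ _ _)
    have e : c + (f i).eval n - (c' + (f i).eval n') = (c - c') + ((f i).eval n - (f i).eval n') := by ring
    rw [e]
    exact dvd_add h' h2
  constructor
  · intro h3
    have := dvd_sub h3 h1
    simpa using this
  · intro h3
    have := dvd_add h3 h1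
    simpa using this

/-- the data of the system -/
structure Sy {k : ℕ} (f0 : ℤ[X]) (f : Fin k → ℤ[X]) (κ z0 : ℕ) : Prop where
  hd : 1 ≤ f0.natDegree
  hl : 0 < f0.leadingCoeff
  hf : ∀ i, 1 ≤ (f i).natDegree
  hdf : ∀ i, 1 ≤ (f i - f0).natDegree
  b0 : f0.natDegree ≤ κ
  b1 : ∑ i, (f i).natDegree ≤ κ
  b2 : k ≤ κ
  b3 : ∑ i, (f i - f0).natDegree ≤ κ
  p0 : ∀ p : ℕ, p.Prime → z0 < p → ¬ p ∣ f0.natDegree * f0.leadingCoeff.natAbs
  p1 : ∀ p : ℕ, p.Prime → z0 < p → ∀ i, ¬ (p : ℤ) ∣ (f i).leadingCoeff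
  p2 : ∀ p : ℕ, p.Prime → z0 < p → ∀ i, ¬ (p : ℤ) ∣ (f i - f0).leadingCoeff

variable {k : ℕ} {f0 : ℤ[X]} {f : Fin k → ℤ[X]} {κ z0 : ℕ}

lemma Sy.omG (h : Sy f0 f κ z0) (c : ℤ) (p : ℕ) (hp : p.Prime) (hz : z0 < p) : om (Gp0 f0 c) p ≤ κ := by
  unfold om Gp0
  refine (roots_mod (C c + f0) p hp f0.natDegree ?_).trans ?_
  · have h1 := h.hd
    rw [coeff_add, coeff_C, if_neg (by omega), zero_add]
    intro h2
    apply h.p0 p hp hz
    apply Dvd.dvd.mul_left
    rw [leadingCoeff]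
    exact Int.natCast_dvd.1 h2
  · rw [natDegree_C_add]
    exact h.b0

lemma Sy.omH (h : Sy f0 f κ z0) (c : ℤ) (p : ℕ) (hp : p.Prime) (hz : z0 < p) : om (Hp0 f c) p ≤ κ := by
  unfold om
  have h1 : (range p).filter (fun n : ℕ => (p : ℤ) ∣ (Hp0 f c).eval (n : ℤ)) = (range p).filter (fun n : ℕ => (p : ℤ) ∣ ∏ i, (c + (f i).eval (n : ℤ))) := by
    apply filter_congr
    intro n _
    rw [Hp0_eval]
  rw [h1]
  refine (un_bd p hp (fun i n => c + (f i).eval (n : ℤ))).trans (le_trans ?_ h.b1)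
  apply sum_le_sum
  intro i _
  have h2 := roots_mod (C c + f i) p hp (f i).natDegree (by
    have h1 := h.hf i
    rw [coeff_add, coeff_C, if_neg (by omega), zero_add]
    exact h.p1 p hp hz i)
  rw [natDegree_C_add] at h2
  refine le_trans (le_of_eq ?_) h2
  congr 1
  apply filter_congr
  intro n _
  rw [eval_add, eval_C]

lemma Sy.ker (h : Sy f0 f κ z0) : Ker f0 κ z0 (kc f) := by
  classical
  have hsum : ∀ (p : ℕ) (u v : ℕ → ℤ), ∑ n ∈ range p, kc f p (u n) (v n) = (#((range p).filter (fun n : ℕ => (p : ℤ) ∣ ∏ i, (v n + (f i).eval (u n)))) : ℝ) := by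
    intro p u v
    unfold kc
    rw [← sum_filter, sum_const, nsmul_eq_mul, mul_one]
    congr 2
    apply filter_congr
    intro n _
    rw [Hp0_eval]
  refine ⟨?_, ?_, ?_, ?_, ?_, ?_⟩
  · intro p n c
    unfold kc
    split_ifs <;> norm_num
  · intro p c a b hab
    unfold kc
    simp only [kc_dvd f p a b c c hab (by simp)]
  · intro p n a b hab
    unfold kc
    simp only [kc_dvd f p n n a b (by simp) hab]
  · intro p hp hz c
    have h1 := h.omH c p hp hz
    unfold om at h1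
    rw [hsum p (fun n => (n : ℤ)) (fun _ => c)]
    have h2 : (range p).filter (fun n : ℕ => (p : ℤ) ∣ (Hp0 f c).eval (n : ℤ)) = (range p).filter (fun n : ℕ => (p : ℤ) ∣ ∏ i, (c + (f i).eval (n : ℤ))) := by
      apply filter_congr
      intro n _
      rw [Hp0_eval]
    rw [h2] at h1
    exact_mod_cast h1
  · intro p hp hz n
    rw [hsum p (fun _ => n) (fun c => (c : ℤ))]
    have h1 := un_bd p hp (fun i c => (c : ℤ) + (f i).eval n)
    have h2 : ∑ i, #((range p).filter (fun c : ℕ => (p : ℤ) ∣ (c : ℤ) + (f i).eval n)) ≤ ∑ _i : Fin k, 1 := by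
      apply sum_le_sum
      intro i _
      have h3 := roots_mod (X + C ((f i).eval n)) p hp 1 (by
        simp only [coeff_add, coeff_X_one, coeff_C, if_neg one_ne_zero, add_zero]
        intro h4
        exact hp.one_lt.ne' (by exact_mod_cast Int.eq_one_of_dvd_one (by positivity) h4))
      rw [natDegree_X_add_C] at h3
      refine le_trans (le_of_eq ?_) h3
      congr 1
      apply filter_congr
      intro m _
      rw [eval_add, eval_C, eval_X]
    rw [sum_const, card_univ, Fintype.card_fin, smul_eq_mul, mul_one] at h2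
    exact_mod_cast h1.trans (h2.trans h.b2)
  · intro p hp hz l
    rw [hsum p (fun n => (n : ℤ)) (fun n => l - f0.eval (n : ℤ))]
    have h1 := un_bd p hp (fun i n => l - f0.eval (n : ℤ) + (f i).eval (n : ℤ))
    have h2 : ∑ i, #((range p).filter (fun n : ℕ => (p : ℤ) ∣ l - f0.eval (n : ℤ) + (f i).eval (n : ℤ))) ≤ ∑ i, (f i - f0).natDegree := by
      apply sum_le_sum
      intro i _
      have h3 := roots_mod (C l + (f i - f0)) p hp (f i - f0).natDegree (by
        have h1 := h.hdf i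
        rw [coeff_add, coeff_C, if_neg (by omega), zero_add]
        exact h.p2 p hp hz i)
      rw [natDegree_C_add] at h3
      refine le_trans (le_of_eq ?_) h3
      congr 1
      apply filter_congr
      intro m _
      rw [eval_add, eval_C, eval_sub]
      have e : l - f0.eval (m : ℤ) + (f i).eval (m : ℤ) = l + ((f i).eval (m : ℤ) - f0.eval (m : ℤ)) := by ring
      rw [e]
    exact_mod_cast h1.trans (h2.trans h.b3)

open Classical in
/-- the weights of the moduli -/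
noncomputable def psi (f : Fin k → ℤ[X]) (z0 e : ℕ) (n c : ℤ) : ℝ :=
  if ∀ p ∈ pz z0, ¬ (p : ℤ) ∣ (Hp0 f c).eval n then KK (kc f) e n c else 0

lemma psi_le (f : Fin k → ℤ[X]) (z0 e : ℕ) (n c : ℤ) : |psi f z0 e n c| ≤ KK (kc f) e n c := by
  have h0 : 0 ≤ KK (kc f) e n c := prod_nonneg fun p _ => by unfold kc; split_ifs <;> norm_num
  unfold psi
  split_ifs
  · rw [abs_of_nonneg h0]
  · rw [abs_zero]; exact h0

lemma psi_per (f : Fin k → ℤ[X]) (z0 e : ℕ) (c : ℤ) : Per ((∏ p ∈ pz z0, p) * e) (fun n => psi f z0 e n c) := by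
  intro a b hab
  have h1 : ∀ p ∈ pz z0, (p : ℤ) ∣ a - b := by
    intro p hp
    refine dvd_trans ?_ hab
    apply Int.natCast_dvd_natCast.2
    exact (dvd_prod_of_mem _ hp).mul_right _
  have h2 : ∀ p ∈ e.primeFactors, (p : ℤ) ∣ a - b := by
    intro p hp
    refine dvd_trans ?_ hab
    apply Int.natCast_dvd_natCast.2
    exact (Nat.dvd_of_mem_primeFactors hp).mul_left _
  have h3 : KK (kc f) e a c = KK (kc f) e b c := by
    unfold KK
    apply prod_congr rfl
    intro p hp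
    unfold kc
    simp only [kc_dvd f p a b c c (h2 p hp) (by simp)]
  have h4 : (∀ p ∈ pz z0, ¬ (p : ℤ) ∣ (Hp0 f c).eval a) ↔ (∀ p ∈ pz z0, ¬ (p : ℤ) ∣ (Hp0 f c).eval b) := by
    constructor
    · intro h p hp h5
      exact h p hp ((kc_dvd f p a b c c (h1 p hp) (by simp)).2 h5)
    · intro h p hp h5
      exact h p hp ((kc_dvd f p a b c c (h1 p hp) (by simp)).1 h5)
  show psi f z0 e a c = psi f z0 e b c
  unfold psi
  simp only [h3, h4]

/-- the differences, as sums with periodic weights -/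
lemma DT_eq (f0 : ℤ[X]) (f : Fin k → ℤ[X]) (z0 z x : ℕ) (T : Finset ℕ) (hT : ∀ p ∈ T, p.Prime) (c : ℤ) :
    DT (Gp0 f0 c) (Hp0 f c) z0 z x T = |∑ n ∈ Icc 1 x, fpI z (c + f0.eval (n : ℤ)) * psi f z0 (∏ p ∈ T, p) n c| := by
  classical
  unfold DT
  rw [sum_filter]
  congr 1
  apply sum_congr rfl
  intro n _
  rw [Gp0_eval, ← fpI_eq]
  unfold psi KK
  rw [Nat.primeFactors_prod hT]
  by_cases h1 : ∀ p ∈ pz z0, ¬ (p : ℤ) ∣ (Hp0 f c).eval (n : ℤ)
  · rw [if_pos h1]
    by_cases h2 : ∀ p ∈ T, (p : ℤ) ∣ (Hp0 f c).eval (n : ℤ)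
    · rw [if_pos ⟨h1, h2⟩]
      have : ∏ p ∈ T, kc f p n c = 1 := by
        apply prod_eq_one
        intro p hp
        unfold kc
        rw [if_pos (h2 p hp)]
      rw [this, mul_one]
    · rw [if_neg (fun h => h2 h.2)]
      push Not at h2
      obtain ⟨p, hp, hp'⟩ := h2
      have : ∏ p ∈ T, kc f p n c = 0 := by
        apply prod_eq_zero hp
        unfold kc
        rw [if_neg hp']
      rw [this, mul_zero]
  · rw [if_neg h1, if_neg (fun h => h1 h.1), mul_zero]

end Pool.Agent.H544.BC
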