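import Mathlib
import Pool.Agent.H544.BC.R5

/-!
Prime values with almost prime companions, for almost all shifts: the theorem.
-/

set_option autoImplicit false

namespace Pool.Agent.H544.BC
open Finset Polynomial
open Pool.Agent.H373R2.T7 (pz Vz mem_pz Vz_pos Vz_le_one lamzI lamz lamP lamP_nonneg JJ JJ_lt JJ_le JJ_pow Vz_low Vz_inv_small)
open Pool.Agent.H544.LD (cls om Gz Gz_nonneg Gz_le_one fac_nn fac_le_one om_fixed om_shift om_le dvd_eval_iff markov om_lt)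
open Pool.Agent.N913.MT (evt_log_pow evt_log_ge)

variable {k : ℕ} {f0 : ℤ[X]} {f : Fin k → ℤ[X]} {κ z0 : ℕ}

lemma JJ_log (y x : ℕ) (hy : 2 ≤ y) (hyx : y ≤ x) (hx : 1 ≤ Real.log x) : ((JJ y : ℝ) + 2) ≤ 6 * Real.log x := by
  have h1 : JJ y < 2 ^ JJ y := Nat.lt_two_pow_self
  have h2 := JJ_pow y hy
  have h3 : (JJ y : ℝ) ≤ 2 * Nat.log 2 y := by exact_mod_cast (h1.le.trans h2)
  have hy0 : (0 : ℝ) < y := by exact_mod_cast (by omega : 0 < y)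
  have h4 : (Nat.log 2 y : ℝ) * Real.log 2 ≤ Real.log y := by
    have h5 : (2 : ℝ) ^ Nat.log 2 y ≤ y := by
      exact_mod_cast Nat.pow_log_le_self 2 (by omega : y ≠ 0)
    have h6 := Real.log_le_log (by positivity) h5
    rwa [Real.log_pow] at h6
  have h5 : Real.log y ≤ Real.log x := Real.log_le_log hy0 (by exact_mod_cast hyx)
  have h6 : (1 / 2 : ℝ) ≤ Real.log 2 := by have := Real.log_two_gt_d9; linarith
  have h7 : (0 : ℝ) ≤ Nat.log 2 y := Nat.cast_nonneg _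
  nlinarith

/-- the sum over the moduli -/
noncomputable def ES (f0 : ℤ[X]) (f : Fin k → ℤ[X]) (z0 z x : ℕ) (S : Finset ℕ) (c : ℕ) : ℝ :=
  ∑ e ∈ S, |∑ n ∈ Icc 1 x, fpI z (c + f0.eval (n : ℤ)) * psi f z0 e n c|

lemma ES_nonneg (f0 : ℤ[X]) (f : Fin k → ℤ[X]) (z0 z x : ℕ) (S : Finset ℕ) (c : ℕ) : 0 ≤ ES f0 f z0 z x S c :=
  sum_nonneg fun _ _ => abs_nonneg _

/-- the exceptional set -/
theorem ex_set (h : Sy f0 f κ z0) (hκ : 1 ≤ κ) (B U V : ℕ) :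
    ∃ E0 : ℕ, ∀ E : ℕ, ∃ N0 : ℕ, ∀ x : ℕ, N0 ≤ x → ∀ A : ℕ, A ≤ B * x ^ f0.natDegree → x ^ f0.natDegree ≤ B * A →
    ∀ z : ℕ, Real.log x ^ E0 ≤ z → (z : ℝ) ≤ Real.log x ^ E →
    ∀ S : Finset ℕ, (∀ e ∈ S, Squarefree e ∧ (∀ p ∈ e.primeFactors, z0 < p) ∧ e ^ (8 * (f0.natDegree + 2)) ≤ x ∧ e ≤ A) →
    ∃ Bad ⊆ Icc 1 A, (#Bad : ℝ) ≤ A / Real.log x ^ U ∧ ∀ c ∈ Icc 1 A, c ∉ Bad → ES f0 f z0 z x S c ≤ x / Real.log x ^ V := by
  classical
  obtain ⟨K, hK⟩ : ∃ K, K = ∏ p ∈ pz z0, p := ⟨_, rfl⟩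
  have hK1 : 1 ≤ K := by
    rw [hK]
    exact Finset.prod_pos fun p hp => (mem_pz.1 hp).2.pos
  obtain ⟨E0, hE0⟩ := levelK f0 h.hd h.hl B (U + V + 1) κ z0 K hκ hK1 (by
    intro p hp hz hd
    rw [hK, hp.prime.dvd_finsetProd_iff] at hd
    obtain ⟨q, hq, hpq⟩ := hd
    have := (Nat.prime_dvd_prime_iff_eq hp (mem_pz.1 hq).2).1 hpq
    have := (mem_pz.1 hq).1
    omega) h.p0
  refine ⟨E0, fun E => ?_⟩
  obtain ⟨N0, hN0⟩ := hE0 E
  obtain ⟨N1, hN1⟩ := Filter.eventually_atTop.1 (evt_log_ge ((K : ℝ) + 1))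
  refine ⟨N0 + N1 + 1, fun x hx A hA1 hA2 z hz1 hz2 S hS => ?_⟩
  have hL := hN1 x (by omega)
  have hx0 : (0 : ℝ) < x := by exact_mod_cast (by omega : 0 < x)
  have hKr : (1 : ℝ) ≤ K := by exact_mod_cast hK1
  obtain ⟨L, hLd⟩ : ∃ L, L = Real.log x := ⟨_, rfl⟩
  rw [← hLd] at hL
  have hL1 : 1 ≤ L := by linarith
  have hL0 : 0 < L := by linarith
  have h1 := hN0 x (by omega) A hA1 hA2 z hz1 hz2 x le_rfl (kc f) h.ker S hS (psi f z0) (fun e _ n c => psi_le f z0 e n c)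
    (fun e _ c => by rw [hK]; exact psi_per f z0 e c)
  rw [← hLd] at h1 ⊢
  have h2 : ∑ c ∈ Icc 1 A, ES f0 f z0 z x S c ≤ K * (x * A / L ^ (U + V + 1)) := by
    refine le_trans ?_ h1
    unfold ES
    rw [sum_comm]
    apply sum_le_sum
    intro e _
    apply le_mul_of_one_le_left (sum_nonneg fun _ _ => abs_nonneg _)
    apply one_le_pow₀
    exact_mod_cast hκ
  have h3 := markov (Icc 1 A) (fun c => ES f0 f z0 z x S c) (fun c => ES_nonneg f0 f z0 z x S c) _ (x / L ^ V) (by positivity) h2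
  refine ⟨_, filter_subset _ _, h3.trans ?_, ?_⟩
  · rw [div_le_div_iff₀ (by positivity) (by positivity)]
    have h4 : (K : ℝ) * (x * A / L ^ (U + V + 1)) * L ^ U = x * A / L ^ V * (K / L) := by
      rw [pow_add, pow_add, pow_one]
      field_simp
    rw [h4]
    have h5 : (K : ℝ) / L ≤ 1 := by
      rw [div_le_one hL0]
      linarith
    calc (x : ℝ) * A / L ^ V * (K / L) ≤ x * A / L ^ V * 1 := mul_le_mul_of_nonneg_left h5 (by positivity)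
      _ = A * (x / L ^ V) := by ring
  · intro c hc hcB
    rw [mem_filter, not_and] at hcB
    exact not_lt.1 (hcB hc)

end Pool.Agent.H544.BC
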