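import Mathlib
import Pool.Agent.H544.BC.R6

/-!
Prime values with almost prime companions, for almost all shifts: the theorem.
-/

set_option autoImplicit false

namespace Pool.Agent.H544.BC
open Finset Polynomial
open Pool.Agent.H373R2.T7 (pz Vz mem_pz Vz_pos Vz_le_one lamzI lamz lamP lamP_nonneg JJ JJ_lt JJ_le JJ_pow Vz_low Vz_inv_small)
open Pool.Agent.H544.LD (cls om Gz Gz_nonneg Gz_le_one fac_nn fac_le_one om_fixed om_shift om_le dvd_eval_iff markov om_lt)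
open Pool.Agent.N913.MT (evt_log_pow evt_log_ge)

/-- the sum of the errors -/
lemma tot_err (S : Finset ℕ) (x κ K n1 W V b1 Z : ℕ) (hκ : 1 ≤ κ) (L Vi X8 Es Jt : ℝ) (hL : 7 + 6 * (K : ℝ) ≤ L)
    (hV0 : 0 ≤ Vi) (hV : Vi ≤ L) (hE0 : 0 ≤ Es) (hE : Es ≤ x / L ^ (V + 2)) (hb1 : (1 / 2 : ℝ) ^ b1 ≤ 1 / L ^ (V + W + 3)) (hZ : (Z : ℝ) ≤ X8)
    (hX8 : 1 ≤ X8) (he : ∀ e ∈ S, 1 ≤ e ∧ (e : ℝ) ≤ X8) (hW : ∑ e ∈ S, (κ : ℝ) ^ #(e.primeFactors) / e ≤ L ^ W)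
    (hJ0 : 0 ≤ Jt) (hJ : Jt ≤ 6 * L) (hX : 6 * ((K : ℝ) + n1) * L ^ (V + W + 3) * X8 ^ 2 ≤ x) :
    Jt * (Es + ∑ e ∈ S, Vi * (K * (κ : ℝ) ^ #(e.primeFactors) * ((1 / 2 : ℝ) ^ b1 * ((x : ℝ) / e) + Z) + n1)) ≤ x / L ^ V := by
  have hK0 : (0 : ℝ) ≤ K := Nat.cast_nonneg _
  have hn0 : (0 : ℝ) ≤ n1 := Nat.cast_nonneg _
  have hx0 : (0 : ℝ) ≤ x := Nat.cast_nonneg _
  have hκr : (1 : ℝ) ≤ κ := by exact_mod_cast hκ
  have hL1 : 1 ≤ L := by linarith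
  have hL0 : 0 < L := by linarith
  have hZ0 : (0 : ℝ) ≤ Z := Nat.cast_nonneg _
  have h1 : ∑ e ∈ S, (κ : ℝ) ^ #(e.primeFactors) ≤ X8 * L ^ W := by
    calc ∑ e ∈ S, (κ : ℝ) ^ #(e.primeFactors) ≤ ∑ e ∈ S, X8 * ((κ : ℝ) ^ #(e.primeFactors) / e) := by
          apply sum_le_sum
          intro e he'
          obtain ⟨h2, h3⟩ := he e he'
          have h4 : (0 : ℝ) < e := by exact_mod_cast h2
          rw [← mul_div_assoc, le_div_iff₀ h4, mul_comm]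
          exact mul_le_mul_of_nonneg_right h3 (by positivity)
      _ = X8 * ∑ e ∈ S, (κ : ℝ) ^ #(e.primeFactors) / e := (mul_sum _ _ _).symm
      _ ≤ _ := mul_le_mul_of_nonneg_left hW (by linarith)
  have h2 : (#S : ℝ) ≤ X8 * L ^ W := by
    refine le_trans ?_ h1
    have : (#S : ℝ) = ∑ e ∈ S, (1 : ℝ) := by rw [sum_const, nsmul_eq_mul, mul_one]
    rw [this]
    exact sum_le_sum fun e _ => one_le_pow₀ hκr
  have h3 : ∑ e ∈ S, Vi * (K * (κ : ℝ) ^ #(e.primeFactors) * ((1 / 2 : ℝ) ^ b1 * ((x : ℝ) / e) + Z) + n1) =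
      Vi * (K * (1 / 2 : ℝ) ^ b1 * x * (∑ e ∈ S, (κ : ℝ) ^ #(e.primeFactors) / e) + K * Z * (∑ e ∈ S, (κ : ℝ) ^ #(e.primeFactors)) + n1 * #S) := by
    have e1 : (n1 : ℝ) * #S = ∑ e ∈ S, (n1 : ℝ) := by rw [sum_const, nsmul_eq_mul, mul_comm]
    rw [e1, mul_sum, mul_sum, ← sum_add_distrib, ← sum_add_distrib, mul_sum]
    apply sum_congr rfl
    intro e _
    ring
  rw [h3]
  have h4 : K * (1 / 2 : ℝ) ^ b1 * x * (∑ e ∈ S, (κ : ℝ) ^ #(e.primeFactors) / e) ≤ K * x / L ^ (V + 3) := by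
    have hs0 : 0 ≤ ∑ e ∈ S, (κ : ℝ) ^ #(e.primeFactors) / (e : ℝ) := sum_nonneg fun _ _ => by positivity
    calc K * (1 / 2 : ℝ) ^ b1 * x * (∑ e ∈ S, (κ : ℝ) ^ #(e.primeFactors) / e) ≤ K * (1 / L ^ (V + W + 3)) * x * L ^ W := by gcongr
      _ = K * x / L ^ (V + 3) := by
        have e : L ^ (V + W + 3) = L ^ (V + 3) * L ^ W := by rw [← pow_add]; congr 1; omega
        rw [e]
        field_simp
  have h5 : K * Z * (∑ e ∈ S, (κ : ℝ) ^ #(e.primeFactors)) + n1 * #S ≤ (K + n1) * X8 ^ 2 * L ^ W := by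
    have h6 : K * Z * (∑ e ∈ S, (κ : ℝ) ^ #(e.primeFactors)) ≤ K * X8 * (X8 * L ^ W) := by
      apply mul_le_mul (mul_le_mul_of_nonneg_left hZ hK0) h1 (sum_nonneg fun _ _ => by positivity) (by positivity)
    have h7 : (n1 : ℝ) * #S ≤ n1 * (X8 * (X8 * L ^ W)) := by
      apply mul_le_mul_of_nonneg_left _ hn0
      refine h2.trans ?_
      exact le_mul_of_one_le_left (by positivity) hX8
    calc _ ≤ K * X8 * (X8 * L ^ W) + n1 * (X8 * (X8 * L ^ W)) := add_le_add h6 h7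
      _ = _ := by ring
  have hn2 : 0 ≤ K * (1 / 2 : ℝ) ^ b1 * x * (∑ e ∈ S, (κ : ℝ) ^ #(e.primeFactors) / (e : ℝ)) + K * Z * (∑ e ∈ S, (κ : ℝ) ^ #(e.primeFactors)) + n1 * #S := by
    have hs0 : 0 ≤ ∑ e ∈ S, (κ : ℝ) ^ #(e.primeFactors) / (e : ℝ) := sum_nonneg fun _ _ => by positivity
    have hs1 : 0 ≤ ∑ e ∈ S, (κ : ℝ) ^ #(e.primeFactors) := sum_nonneg fun _ _ => by positivity
    positivity
  have h8 : (K + n1) * X8 ^ 2 * L ^ W ≤ x / (6 * L ^ (V + 3)) := by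
    rw [le_div_iff₀ (by positivity)]
    have e : L ^ (V + W + 3) = L ^ (V + 3) * L ^ W := by rw [← pow_add]; congr 1; omega
    rw [e] at hX
    linarith
  calc Jt * (Es + Vi * (K * (1 / 2 : ℝ) ^ b1 * x * (∑ e ∈ S, (κ : ℝ) ^ #(e.primeFactors) / e) + K * Z * (∑ e ∈ S, (κ : ℝ) ^ #(e.primeFactors)) + n1 * #S))
      ≤ (6 * L) * (x / L ^ (V + 2) + L * (K * x / L ^ (V + 3) + x / (6 * L ^ (V + 3)))) := by
        apply mul_le_mul hJ _ (by positivity) (by positivity)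
        apply add_le_add hE
        apply mul_le_mul hV _ hn2 hL0.le
        rw [add_assoc]
        exact add_le_add h4 (h5.trans h8)
    _ = (7 + 6 * K) * (x / L ^ (V + 1)) := by
        have e1 : L ^ (V + 2) = L ^ (V + 1) * L := by rw [← pow_succ]
        have e2 : L ^ (V + 3) = L ^ (V + 1) * L ^ 2 := by rw [← pow_add]
        rw [e1, e2]
        field_simp
        ring
    _ ≤ L * (x / L ^ (V + 1)) := mul_le_mul_of_nonneg_right hL (by positivity)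
    _ = x / L ^ V := by
        rw [pow_succ]
        field_simp

theorem main_as {k : ℕ} (f0 : ℤ[X]) (f : Fin k → ℤ[X]) (hd : 1 ≤ f0.natDegree) (hl : 0 < f0.leadingCoeff)
    (hf : ∀ i, 1 ≤ (f i).natDegree) (hdf : ∀ i, 1 ≤ (f i - f0).natDegree) :
    ∃ C : ℕ, 1 ≤ C ∧ ∀ B U : ℕ, ∃ E0 : ℕ, ∀ E : ℕ, ∃ x0 : ℕ, ∀ x : ℕ, x0 ≤ x → ∀ A : ℕ,
    A ≤ B * x ^ f0.natDegree → x ^ f0.natDegree ≤ B * A →
    ∀ z : ℕ, Real.log x ^ E0 ≤ z → (z : ℝ) ≤ Real.log x ^ E →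
    ∃ Bad ⊆ Icc 1 A, (#Bad : ℝ) ≤ A / Real.log x ^ U ∧ ∀ c ∈ Icc 1 A, c ∉ Bad →
      (∀ p : ℕ, p.Prime → om (Gp0 f0 c * Hp0 f c) p < p) → ∀ b y : ℕ, 1 ≤ b → z ≤ y → y ^ (C * b) ≤ x →
      |SP (Gp0 f0 c) (Hp0 f c) y x - x * SS (Gp0 f0 c) (Hp0 f c) z y| ≤
        ((1 / 2 : ℝ) ^ b + 1 / Real.log x ^ U) * (x * SS (Gp0 f0 c) (Hp0 f c) z y) := by
  classical
  obtain ⟨d, hdd⟩ : ∃ d, d = f0.natDegree := ⟨_, rfl⟩
  obtain ⟨κ, hκ⟩ : ∃ κ, κ = d + ∑ i, (f i).natDegree + k + ∑ i, (f i - f0).natDegree + 1 := ⟨_, rfl⟩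
  obtain ⟨C0, C1, z1, hC0, hC1, hz1, hsift⟩ := sift κ
  obtain ⟨z0, hz0⟩ : ∃ z0, z0 = C0 + 4 * κ + d * f0.leadingCoeff.natAbs + ∑ i, (f i).leadingCoeff.natAbs + ∑ i, (f i - f0).leadingCoeff.natAbs := ⟨_, rfl⟩
  have hnd : ∀ (F : ℤ[X]), 1 ≤ F.natDegree → F.leadingCoeff.natAbs ≤ z0 → ∀ p : ℕ, p.Prime → z0 < p → ¬ (p : ℤ) ∣ F.leadingCoeff := by
    intro F hF hFz p hp hpz hdv
    have h1 := Int.natCast_dvd.1 hdv
    have h2 : F.leadingCoeff.natAbs ≠ 0 := by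
      rw [Int.natAbs_ne_zero, leadingCoeff_ne_zero]
      intro h
      rw [h, natDegree_zero] at hF
      omega
    have := Nat.le_of_dvd (Nat.pos_of_ne_zero h2) h1
    omega
  have hsy : Sy f0 f κ z0 := by
    refine ⟨hd, hl, hf, hdf, by omega, by omega, by omega, by omega, ?_, ?_, ?_⟩
    · intro p hp hpz hdv
      rw [← hdd] at hdv
      have h2 : f0.leadingCoeff.natAbs ≠ 0 := by
        rw [Int.natAbs_ne_zero]
        exact hl.ne'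
      have h3 : 0 < d * f0.leadingCoeff.natAbs := Nat.mul_pos (by omega) (Nat.pos_of_ne_zero h2)
      have := Nat.le_of_dvd h3 hdv
      omega
    · intro p hp hpz i
      apply hnd (f i) (hf i) _ p hp hpz
      have := single_le_sum (f := fun i => (f i).leadingCoeff.natAbs) (fun _ _ => Nat.zero_le _) (mem_univ i)
      omega
    · intro p hp hpz i
      apply hnd (f i - f0) (hdf i) _ p hp hpz
      have := single_le_sum (f := fun i => (f i - f0).leadingCoeff.natAbs) (fun _ _ => Nat.zero_le _) (mem_univ i)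
      omega
  obtain ⟨V0, Nl, hlow⟩ := SS_low κ z0 (by omega)
  obtain ⟨W, No, hom⟩ := omsum κ
  obtain ⟨n1, hn1⟩ := val_ge f0 hd hl
  obtain ⟨Λ, hΛ⟩ : ∃ Λ, Λ = 8 * (d + 2) := ⟨_, rfl⟩
  obtain ⟨K, hK⟩ : ∃ K, K = ∏ p ∈ pz z0, p := ⟨_, rfl⟩
  refine ⟨2 * C0 * (1 + C0) * Λ, Nat.mul_pos (Nat.mul_pos (by omega) (by omega)) (by omega), fun B U => ?_⟩
  obtain ⟨V, hV⟩ : ∃ V, V = U + V0 := ⟨_, rfl⟩
  obtain ⟨E0, hex⟩ := ex_set hsy (by omega) B U (V + 2)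
  refine ⟨E0 + 1, fun E => ?_⟩
  obtain ⟨Ne, hex⟩ := hex E
  obtain ⟨Nb, hbch⟩ := bch C1 E (V + W + 3) (1 / 8) (by norm_num)
  obtain ⟨Nv, hvi⟩ := Vz_inv_small E
  obtain ⟨N3, hN3⟩ := Filter.eventually_atTop.1 ((evt_log_ge (7 + 6 * (K : ℝ) + z0 + z1)).and
    (evt_log_pow (1 / 2) (by norm_num) (6 * ((K : ℝ) + n1)) (V + W + 3)))
  refine ⟨Nl + No + Ne + Nb + Nv + N3 + B ^ 2 + 2, fun x hx A hA1 hA2 z hz1' hz2 => ?_⟩
  obtain ⟨g1, g2⟩ := hN3 x (by omega)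
  obtain ⟨L, hLd⟩ : ∃ L, L = Real.log x := ⟨_, rfl⟩
  have hx1 : 1 ≤ x := by omega
  have hx1r : (1 : ℝ) ≤ x := by exact_mod_cast hx1
  have hx0 : (0 : ℝ) < x := by linarith
  have hKr : (0 : ℝ) ≤ K := Nat.cast_nonneg _
  have hz0r : (0 : ℝ) ≤ z0 := Nat.cast_nonneg _
  have hz1r : (0 : ℝ) ≤ z1 := Nat.cast_nonneg _
  have hL1 : 1 ≤ L := by rw [hLd]; linarith
  have hL0 : 0 < L := by linarith
  -- the set of moduli
  obtain ⟨S, hS⟩ : ∃ S : Finset ℕ, S = (Icc 1 x).filter (fun e => Squarefree e ∧ (∀ p ∈ e.primeFactors, z0 < p) ∧ e ^ Λ ≤ x) := ⟨_, rfl⟩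
  have hB0 : 0 < B := by
    rcases Nat.eq_zero_or_pos B with h | h
    · rw [h, zero_mul] at hA2
      have : 0 < x ^ f0.natDegree := by positivity
      omega
    · exact h
  have hSA : ∀ e ∈ S, Squarefree e ∧ (∀ p ∈ e.primeFactors, z0 < p) ∧ e ^ (8 * (f0.natDegree + 2)) ≤ x ∧ e ≤ A := by
    intro e he
    rw [hS, mem_filter, mem_Icc] at he
    obtain ⟨⟨he1, _⟩, he2, he3, he4⟩ := he
    refine ⟨he2, he3, by rw [← hdd, ← hΛ]; exact he4, ?_⟩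
    have h1 : e ^ 2 ≤ x := (Nat.pow_le_pow_right he1 (by omega)).trans he4
    have h2 : (B * e) ^ 2 ≤ x ^ 2 := by
      rw [mul_pow, sq x]
      exact Nat.mul_le_mul (by omega) h1
    have h3 : B * e ≤ x := (Nat.pow_le_pow_iff_left (by norm_num)).1 h2
    have h4 : x ≤ x ^ f0.natDegree := Nat.le_self_pow (by omega) x
    exact Nat.le_of_mul_le_mul_left (h3.trans (h4.trans hA2)) hB0
  have hz1L : Real.log x ^ E0 ≤ z := by
    refine le_trans ?_ hz1'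
    rw [← hLd]
    exact pow_le_pow_right₀ hL1 (by omega)
  obtain ⟨Bad, hB1, hB2, hB3⟩ := hex x (by omega) A hA1 hA2 z hz1L hz2 S hSA
  refine ⟨Bad, hB1, hB2, fun c hc hcB hadm b y hb hzy hyx => ?_⟩
  have hES := hB3 c hc hcB
  obtain ⟨b1, hb1, hb2, hb3⟩ := hbch x (by omega)
  have hzL : L ≤ z := by
    rw [← hLd] at hz1'
    refine le_trans ?_ hz1'
    have := pow_le_pow_right₀ hL1 (show 1 ≤ E0 + 1 by omega)
    rwa [pow_one] at this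
  have hzz : z0 + z1 ≤ z := by
    have h1 : ((z0 + z1 : ℕ) : ℝ) ≤ z := by
      push_cast
      rw [← hLd] at g1
      linarith
    exact_mod_cast h1
  have hCb : 1 ≤ 2 * C0 * (1 + C0) * Λ * b := Nat.mul_pos (Nat.mul_pos (Nat.mul_pos (by omega) (by omega)) (by omega)) hb
  have hyx' : y ≤ x := (Nat.le_self_pow (by omega) y).trans hyx
  have hvi' := hvi x (by omega) z (by omega) hz2
  -- the level
  obtain ⟨D, hD⟩ : ∃ D, D = (y ^ 2) ^ (C0 * (b + C0)) := ⟨_, rfl⟩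
  have hDx : D ^ Λ ≤ x := by
    refine le_trans ?_ hyx
    rw [hD, ← pow_mul, ← pow_mul]
    apply Nat.pow_le_pow_right (by omega)
    have h1 : b + C0 ≤ (1 + C0) * b := by nlinarith
    calc 2 * (C0 * (b + C0) * Λ) = 2 * C0 * Λ * (b + C0) := by ring
      _ ≤ 2 * C0 * Λ * ((1 + C0) * b) := Nat.mul_le_mul_left _ h1
      _ = 2 * C0 * (1 + C0) * Λ * b := by ring
  have h0 := hsift (Gp0 f0 c) (Hp0 f c) n1 z0 (by
      unfold Gp0
      rw [natDegree_C_add]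
      omega) (by
      intro n hn
      rw [Gp0_eval]
      have h1 := hn1 n hn
      have h2 := (mem_Icc.1 hc).1
      omega) (by omega) (fun p hp hz => ⟨hsy.omG c p hp hz, hsy.omH c p hp hz⟩) z y (by omega) (by omega) hzy (b + C0) b1
      (by omega) hb1 x
  rw [← hD] at h0
  obtain ⟨M, hM⟩ : ∃ M, M = (x : ℝ) * SS (Gp0 f0 c) (Hp0 f c) z y := ⟨_, rfl⟩
  rw [← hM] at h0 ⊢
  have hM0 : 0 ≤ M := by rw [hM]; exact mul_nonneg hx0.le (SS_nonneg _ _ _ _)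
  have hPp : ∀ p ∈ (pz y).filter (fun p => z0 < p), p.Prime ∧ z0 < p := by
    intro p hp
    rw [mem_filter, mem_pz] at hp
    exact ⟨hp.1.2, hp.2⟩
  obtain ⟨F, hF⟩ : ∃ F : ℕ → ℝ, F = fun e : ℕ => |∑ n ∈ Icc 1 x, fpI z (c + f0.eval (n : ℤ)) * psi f z0 e n c| +
    (Vz z)⁻¹ * (K * (κ : ℝ) ^ #(e.primeFactors) * ((1 / 2 : ℝ) ^ b1 * ((x : ℝ) / e) + ((z ^ (C1 * b1) : ℕ) : ℝ)) + n1) := ⟨_, rfl⟩
  have hVi0 : 0 ≤ (Vz z)⁻¹ := (inv_pos.2 (Vz_pos z)).le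
  have hFn : ∀ e ∈ S, 0 ≤ F e := by
    intro e _
    rw [hF]
    positivity
  have hsum : ∑ T ∈ ((pz y).filter (fun p => z0 < p)).powerset.filter (fun T : Finset ℕ => ∏ p ∈ T, p ≤ D),
        (DT (Gp0 f0 c) (Hp0 f c) z0 z x T + (Vz z)⁻¹ * ((∏ p ∈ pz z0, (p : ℝ)) * (κ : ℝ) ^ #T *
          ((1 / 2 : ℝ) ^ b1 * ((x : ℝ) / ∏ p ∈ T, (p : ℝ)) + (z : ℝ) ^ (C1 * b1)) + n1)) ≤ ∑ e ∈ S, F e := by
    refine le_trans (le_of_eq ?_) (pow_sum D z0 _ hPp S ?_ F hFn)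
    · apply sum_congr rfl
      intro T hT
      rw [mem_filter, mem_powerset] at hT
      have hTp : ∀ p ∈ T, p.Prime := fun p hp => (hPp p (hT.1 hp)).1
      rw [DT_eq f0 f z0 z x T hTp c, hF, hK]
      simp only
      rw [Nat.primeFactors_prod hTp]
      push_cast
      rfl
    · intro e he1 he2 he3
      rw [hS, mem_filter, mem_Icc]
      have h1 : e ^ Λ ≤ x := (Nat.pow_le_pow_left he3 Λ).trans hDx
      have h2 : 1 ≤ e := Nat.pos_of_ne_zero he1.ne_zero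
      refine ⟨⟨h2, (Nat.le_self_pow (by omega) e).trans h1⟩, he1, he2, h1⟩
  have hFs : ∑ e ∈ S, F e = ES f0 f z0 z x S c + ∑ e ∈ S, (Vz z)⁻¹ * (K * (κ : ℝ) ^ #(e.primeFactors) *
      ((1 / 2 : ℝ) ^ b1 * ((x : ℝ) / e) + ((z ^ (C1 * b1) : ℕ) : ℝ)) + n1) := by
    rw [hF]
    unfold ES
    rw [← sum_add_distrib]
  have hX8 : (1 : ℝ) ≤ (x : ℝ) ^ (1 / 8 : ℝ) := Real.one_le_rpow hx1r (by norm_num)
  have h2 := tot_err S x κ K n1 W V b1 (z ^ (C1 * b1)) (by omega) L (Vz z)⁻¹ ((x : ℝ) ^ (1 / 8 : ℝ)) (ES f0 f z0 z x S c) ((JJ y : ℝ) + 2)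
    (by rw [hLd]; linarith) hVi0 (by rw [hLd]; exact hvi') (ES_nonneg _ _ _ _ _ _ _) (by rw [hLd]; exact hES) (by rw [hLd]; exact hb2)
    (by push_cast; exact hb3 z hz2) hX8 (by
      intro e he
      have h1 := he
      rw [hS, mem_filter, mem_Icc] at h1
      refine ⟨h1.1.1, ?_⟩
      have h2 : e ^ 8 ≤ x := (Nat.pow_le_pow_right h1.1.1 (by omega)).trans h1.2.2.2
      have h3 : ((e : ℝ)) ^ 8 ≤ x := by exact_mod_cast h2
      have h4 := Real.pow_rpow_inv_natCast (x := (e : ℝ)) (Nat.cast_nonneg _) (show (8 : ℕ) ≠ 0 by norm_num)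
      rw [← h4]
      have h5 : ((8 : ℕ) : ℝ)⁻¹ = 1 / 8 := by norm_num
      rw [h5]
      exact Real.rpow_le_rpow (by positivity) h3 (by norm_num))
    (by
      rw [hLd]
      apply hom x (by omega) S
      intro e he
      rw [hS, mem_filter, mem_Icc] at he
      exact ⟨he.2.1, he.1.2⟩) (by positivity) (by
      rw [hLd]
      exact JJ_log y x (by omega) hyx' (by rw [← hLd]; exact hL1)) (by
      rw [hLd]
      calc 6 * ((K : ℝ) + n1) * Real.log x ^ (V + W + 3) * ((x : ℝ) ^ (1 / 8 : ℝ)) ^ 2 ≤ (x : ℝ) ^ (1 / 2 : ℝ) * (x : ℝ) ^ (1 / 4 : ℝ) := by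
            apply mul_le_mul g2 _ (by positivity) (by positivity)
            rw [← Real.rpow_natCast, ← Real.rpow_mul hx0.le]
            apply le_of_eq
            congr 1
            norm_num
        _ = (x : ℝ) ^ (3 / 4 : ℝ) := by rw [← Real.rpow_add hx0]; norm_num
        _ ≤ (x : ℝ) ^ (1 : ℝ) := Real.rpow_le_rpow_of_exponent_le hx1r (by norm_num)
        _ = x := Real.rpow_one _)
  have h3 := hlow x (by omega) (Gp0 f0 c) (Hp0 f c) z y (by omega) hzy hyx' (fun p hp hz => ⟨hsy.omG c p hp hz, hsy.omH c p hp hz⟩) hadm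
  rw [← hLd] at h3 ⊢
  have h4 : (x : ℝ) / L ^ V ≤ 1 / L ^ U * M := by
    have h5 : (x : ℝ) / L ^ V = 1 / L ^ U * (x * (1 / L ^ V0)) := by
      rw [hV, pow_add]
      field_simp
    rw [h5, hM]
    apply mul_le_mul_of_nonneg_left _ (by positivity)
    exact mul_le_mul_of_nonneg_left h3 hx0.le
  have h5 : ((1 / 2 : ℝ)) ^ (b + C0) * M ≤ (1 / 2 : ℝ) ^ b * M := by
    apply mul_le_mul_of_nonneg_right _ hM0
    exact pow_le_pow_of_le_one (by norm_num) (by norm_num) (by omega)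
  rw [← hFs] at h2
  calc _ ≤ _ := h0
    _ ≤ (1 / 2 : ℝ) ^ b * M + ((JJ y : ℝ) + 2) * ∑ e ∈ S, F e := by
        apply add_le_add h5
        exact mul_le_mul_of_nonneg_left hsum (by positivity)
    _ ≤ (1 / 2 : ℝ) ^ b * M + x / L ^ V := add_le_add le_rfl h2
    _ ≤ (1 / 2 : ℝ) ^ b * M + 1 / L ^ U * M := add_le_add le_rfl h4
    _ = _ := by ring

end Pool.Agent.H544.BC
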