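import Mathlib
import Pool.Agent.H544.BC.R7

/-!
Prime values with almost prime companions, for almost all shifts: the two forms of the theorem.
-/

set_option autoImplicit false

namespace Pool.Agent.H544.BC
open Finset Polynomial
open Pool.Agent.H373R2.T7 (pz Vz mem_pz Vz_pos Vz_le_one lamzI lamz lamP lamP_nonneg JJ JJ_lt JJ_le JJ_pow Vz_low Vz_inv_small cf abs_eval_le)
open Pool.Agent.H544.LD (cls om Gz Gz_nonneg Gz_le_one fac_nn fac_le_one om_fixed om_shift om_le dvd_eval_iff markov om_lt)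
open Pool.Agent.N913.MT (evt_log_pow evt_log_ge)

open Classical in
/-- the arguments whose value is prime, with companions without prime factors up to `y` -/
noncomputable def PA {k : ℕ} (f0 : ℤ[X]) (f : Fin k → ℤ[X]) (c : ℤ) (y x : ℕ) : Finset ℕ :=
  (Icc 1 x).filter (fun n : ℕ => (c + f0.eval (n : ℤ)).toNat.Prime ∧ ∀ p : ℕ, p.Prime → p ≤ y → ∀ i, ¬ (p : ℤ) ∣ c + (f i).eval (n : ℤ))

lemma SP_eq {k : ℕ} (f0 : ℤ[X]) (f : Fin k → ℤ[X]) (c : ℤ) (y x : ℕ) :
    SP (Gp0 f0 c) (Hp0 f c) y x = ∑ n ∈ PA f0 f c y x, Real.log ((c + f0.eval (n : ℤ)).toNat) := by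
  classical
  unfold SP PA lamP
  rw [← sum_filter, filter_filter]
  simp only [Gp0_eval, Hp0_eval]
  apply sum_congr _ (fun _ _ => rfl)
  apply filter_congr
  intro n _
  constructor
  · rintro ⟨h1, h2⟩
    refine ⟨h2, fun p hp hpy i hpi => ?_⟩
    exact h1 p (mem_pz.2 ⟨hpy, hp⟩) (hpi.trans (dvd_prod_of_mem _ (mem_univ i)))
  · rintro ⟨h1, h2⟩
    refine ⟨fun p hp hpd => ?_, h1⟩
    obtain ⟨i, _, hi⟩ := (Nat.prime_iff_prime_int.1 (mem_pz.1 hp).2).exists_mem_finset_dvd hpd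
    exact h2 p (mem_pz.1 hp).2 (mem_pz.1 hp).1 i hi

/-- rough numbers have few prime factors -/
lemma rough_Om (m y t : ℕ) (hm : m ≠ 0) (h : ∀ p : ℕ, p.Prime → p ∣ m → y < p) (hmt : m < (y + 1) ^ t) :
    m.primeFactorsList.length ≤ t := by
  have h1 : (y + 1) ^ m.primeFactorsList.length ≤ m.primeFactorsList.prod := by
    apply List.pow_card_le_prod
    intro p hp
    have h2 := Nat.prime_of_mem_primeFactorsList hp
    have h3 := Nat.dvd_of_mem_primeFactorsList hp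
    exact h p h2 h3
  rw [Nat.prod_primeFactorsList hm] at h1
  by_contra h4
  have h5 : (y + 1) ^ t ≤ (y + 1) ^ m.primeFactorsList.length := Nat.pow_le_pow_right (by omega) (by omega)
  omega

/-- the root -/
lemma root_ex (x C : ℕ) (hC : 1 ≤ C) (hx : 1 ≤ x) : ∃ y : ℕ, y ^ C ≤ x ∧ x < (y + 1) ^ C := by
  classical
  refine ⟨Nat.findGreatest (fun y => y ^ C ≤ x) x, ?_, ?_⟩
  · exact Nat.findGreatest_spec (P := fun y => y ^ C ≤ x) (m := 0) (Nat.zero_le _) (by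
      rw [zero_pow (by omega)]; omega)
  · by_contra h
    have h1 : (Nat.findGreatest (fun y => y ^ C ≤ x) x + 1) ^ C ≤ x := by omega
    have h2 : Nat.findGreatest (fun y => y ^ C ≤ x) x + 1 ≤ x := (Nat.le_self_pow (by omega) _).trans h1
    have h3 := Nat.le_findGreatest (P := fun y => y ^ C ≤ x) h2 h1
    omega

open Classical in
/-- the arguments whose value is prime, with companions with at most `r` prime factors -/
noncomputable def AP {k : ℕ} (f0 : ℤ[X]) (f : Fin k → ℤ[X]) (c : ℤ) (r x : ℕ) : Finset ℕ :=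
  (Icc 1 x).filter (fun n : ℕ => (c + f0.eval (n : ℤ)).toNat.Prime ∧ ∀ i, c + (f i).eval (n : ℤ) ≠ 0 ∧
    (c + (f i).eval (n : ℤ)).natAbs.primeFactorsList.length ≤ r)

theorem main_two {k : ℕ} (f0 : ℤ[X]) (f : Fin k → ℤ[X]) (hd : 1 ≤ f0.natDegree) (hl : 0 < f0.leadingCoeff)
    (hf : ∀ i, 1 ≤ (f i).natDegree) (hdf : ∀ i, 1 ≤ (f i - f0).natDegree) :
    ∃ C r : ℕ, 1 ≤ C ∧ ∀ B U : ℕ, ∃ E0 : ℕ, ∀ E : ℕ, ∃ x0 : ℕ, ∀ x : ℕ, x0 ≤ x → ∀ A : ℕ,
    A ≤ B * x ^ f0.natDegree → x ^ f0.natDegree ≤ B * A →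
    ∀ z : ℕ, Real.log x ^ E0 ≤ z → (z : ℝ) ≤ Real.log x ^ E →
    ∃ Bad ⊆ Icc 1 A, (#Bad : ℝ) ≤ A / Real.log x ^ U ∧ ∀ c ∈ Icc 1 A, c ∉ Bad →
      (∀ p : ℕ, p.Prime → om (Gp0 f0 c * Hp0 f c) p < p) →
      (∀ b y : ℕ, 1 ≤ b → z ≤ y → y ^ (C * b) ≤ x →
        |SP (Gp0 f0 c) (Hp0 f c) y x - x * SS (Gp0 f0 c) (Hp0 f c) z y| ≤
          ((1 / 2 : ℝ) ^ b + 1 / Real.log x ^ U) * (x * SS (Gp0 f0 c) (Hp0 f c) z y)) ∧
      (x : ℝ) / Real.log x ^ r ≤ #(AP f0 f c r x) := by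
  classical
  obtain ⟨C, hC, hmain⟩ := main_as f0 f hd hl hf hdf
  -- a lower bound for the singular series
  obtain ⟨d, hdd⟩ : ∃ d, d = f0.natDegree := ⟨_, rfl⟩
  obtain ⟨κ, hκ⟩ : ∃ κ, κ = d + ∑ i, (f i).natDegree + k + ∑ i, (f i - f0).natDegree + 1 := ⟨_, rfl⟩
  obtain ⟨z0, hz0⟩ : ∃ z0, z0 = 4 * κ + d * f0.leadingCoeff.natAbs + ∑ i, (f i).leadingCoeff.natAbs + ∑ i, (f i - f0).leadingCoeff.natAbs := ⟨_, rfl⟩
  have hnd : ∀ (F : ℤ[X]), 1 ≤ F.natDegree → F.leadingCoeff.natAbs ≤ z0 → ∀ p : ℕ, p.Prime → z0 < p → ¬ (p : ℤ) ∣ F.leadingCoeff := by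
    intro F hF hFz p hp hpz hdv
    have h1 := Int.natCast_dvd.1 hdv
    have h2 : F.leadingCoeff.natAbs ≠ 0 := by
      rw [Int.natAbs_ne_zero, leadingCoeff_ne_zero]
      intro h
      rw [h, natDegree_zero] at hF
      omega
    have := Nat.le_of_dvd (Nat.pos_of_ne_zero h2) h1
    omega
  have hsy : Sy f0 f κ z0 := by
    refine ⟨hd, hl, hf, hdf, by omega, by omega, by omega, by omega, ?_, ?_, ?_⟩
    · intro p hp hpz hdv
      rw [← hdd] at hdv
      have h2 : f0.leadingCoeff.natAbs ≠ 0 := by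
        rw [Int.natAbs_ne_zero]
        exact hl.ne'
      have h3 : 0 < d * f0.leadingCoeff.natAbs := Nat.mul_pos (by omega) (Nat.pos_of_ne_zero h2)
      have := Nat.le_of_dvd h3 hdv
      omega
    · intro p hp hpz i
      apply hnd (f i) (hf i) _ p hp hpz
      have := single_le_sum (f := fun i => (f i).leadingCoeff.natAbs) (fun _ _ => Nat.zero_le _) (mem_univ i)
      omega
    · intro p hp hpz i
      apply hnd (f i - f0) (hdf i) _ p hp hpz
      have := single_le_sum (f := fun i => (f i - f0).leadingCoeff.natAbs) (fun _ _ => Nat.zero_le _) (mem_univ i)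
      omega
  obtain ⟨V0, Nl, hlow⟩ := SS_low κ z0 (by omega)
  obtain ⟨Dg, hDg⟩ : ∃ Dg, Dg = d + ∑ i, (f i).natDegree := ⟨_, rfl⟩
  obtain ⟨Cf, hCf⟩ : ∃ Cf, Cf = cf f0 + ∑ i, cf (f i) := ⟨_, rfl⟩
  obtain ⟨r, hr⟩ : ∃ r, r = C * 2 * (Dg + 1) + V0 + 2 := ⟨_, rfl⟩
  refine ⟨C, r, hC, fun B U => ?_⟩
  obtain ⟨E0, hE0⟩ := hmain B (U + 1)
  refine ⟨E0 + 1, fun E => ?_⟩
  obtain ⟨x1, hx1⟩ := hE0 E
  obtain ⟨N3, hN3⟩ := Filter.eventually_atTop.1 ((evt_log_ge (z0 + 4 + 2 * (Dg + 1))).and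
    (evt_log_pow (1 / 2) (by norm_num) 1 (E * (C * 2) + 1)))
  refine ⟨x1 + N3 + Nl + B + Cf + 2, fun x hx A hA1 hA2 z hz1 hz2 => ?_⟩
  obtain ⟨g1, g2⟩ := hN3 x (by omega)
  have hz1' : Real.log x ^ E0 ≤ z := (pow_le_pow_right₀ (by
    have : (0 : ℝ) ≤ z0 := Nat.cast_nonneg _
    have : (0 : ℝ) ≤ Dg := Nat.cast_nonneg _
    linarith) (by omega)).trans hz1
  obtain ⟨Bad, hB1, hB2, hB3⟩ := hx1 x (by omega) A hA1 hA2 z hz1' hz2
  obtain ⟨L, hLd⟩ : ∃ L, L = Real.log x := ⟨_, rfl⟩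
  rw [← hLd] at g1 g2 hz1 hz2 hB2 hB3 ⊢
  have hz0r : (0 : ℝ) ≤ z0 := Nat.cast_nonneg _
  have hdr : (0 : ℝ) ≤ Dg := Nat.cast_nonneg _
  have hL4 : 4 ≤ L := by linarith
  have hL1 : 1 ≤ L := by linarith
  have hL0 : 0 < L := by linarith
  have hx1r : (1 : ℝ) ≤ x := by exact_mod_cast (by omega : 1 ≤ x)
  have hx0 : (0 : ℝ) < x := by linarith
  have hUU : 1 / L ^ (U + 1) ≤ 1 / L ^ U := one_div_le_one_div_of_le (by positivity) (pow_le_pow_right₀ hL1 (by omega))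
  refine ⟨Bad, hB1, hB2.trans (div_le_div_of_nonneg_left (Nat.cast_nonneg _) (by positivity) (pow_le_pow_right₀ hL1 (by omega))), fun c hc hcB hadm => ?_⟩
  have h1 := hB3 c hc hcB hadm
  constructor
  · intro b y hb hzy hyx
    refine (h1 b y hb hzy hyx).trans ?_
    apply mul_le_mul_of_nonneg_right _ (mul_nonneg hx0.le (SS_nonneg _ _ _ _))
    linarith
  · obtain ⟨y, hy1, hy2⟩ := root_ex x (C * 2) (by omega) (by omega)
    have hzy : z ≤ y := by
      by_contra h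
      have h2 : (y + 1) ^ (C * 2) ≤ z ^ (C * 2) := Nat.pow_le_pow_left (by omega) _
      have h3 : x < z ^ (C * 2) := by omega
      have h4 : (x : ℝ) < (z : ℝ) ^ (C * 2) := by exact_mod_cast h3
      have h5 : (z : ℝ) ^ (C * 2) ≤ L ^ (E * (C * 2)) := by
        rw [pow_mul L]
        exact pow_le_pow_left₀ (Nat.cast_nonneg _) hz2 _
      have h6 : L ^ (E * (C * 2)) ≤ L ^ (E * (C * 2) + 1) := pow_le_pow_right₀ hL1 (by omega)
      have h7 : (x : ℝ) ^ (1 / 2 : ℝ) ≤ x := by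
        calc (x : ℝ) ^ (1 / 2 : ℝ) ≤ (x : ℝ) ^ (1 : ℝ) := Real.rpow_le_rpow_of_exponent_le hx1r (by norm_num)
          _ = x := Real.rpow_one _
      linarith
    have h2 := h1 2 y (by norm_num) hzy hy1
    have hyx : y ≤ x := (Nat.le_self_pow (by omega) y).trans hy1
    have hzL : L ≤ z := by
      refine le_trans ?_ hz1
      have := pow_le_pow_right₀ hL1 (show 1 ≤ E0 + 1 by omega)
      rwa [pow_one] at this
    have hzz : z0 + 4 ≤ z := by
      have h3 : ((z0 + 4 : ℕ) : ℝ) ≤ z := by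
        push_cast
        linarith
      exact_mod_cast h3
    have hlo := hlow x (by omega) (Gp0 f0 c) (Hp0 f c) z y (by omega) hzy hyx (fun p hp hz => ⟨hsy.omG c p hp hz, hsy.omH c p hp hz⟩) hadm
    rw [← hLd] at hlo
    obtain ⟨M, hM⟩ : ∃ M, M = (x : ℝ) * SS (Gp0 f0 c) (Hp0 f c) z y := ⟨_, rfl⟩
    rw [← hM] at h2
    have hMlo : x / L ^ V0 ≤ M := by
      rw [hM, div_eq_mul_one_div]
      exact mul_le_mul_of_nonneg_left hlo hx0.le
    have hM0 : 0 ≤ M := le_trans (by positivity) hMlo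
    have hU4 : 1 / L ^ (U + 1) ≤ 1 / 4 := by
      apply one_div_le_one_div_of_le (by norm_num)
      have := pow_le_pow_right₀ hL1 (show 1 ≤ U + 1 by omega)
      rw [pow_one] at this
      linarith
    have h3 : M / 2 ≤ SP (Gp0 f0 c) (Hp0 f c) y x := by
      have h4 : ((1 / 2 : ℝ) ^ 2 + 1 / L ^ (U + 1)) * M ≤ (1 / 2) * M := by
        apply mul_le_mul_of_nonneg_right _ hM0
        have : (1 / 2 : ℝ) ^ 2 = 1 / 4 := by norm_num
        linarith
      have h5 := (abs_le.1 h2).1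
      linarith
    -- sizes
    have hval : ∀ (g : ℤ[X]) (n : ℕ), n ∈ Icc 1 x → cf g ≤ Cf → g.natDegree ≤ Dg → ((c : ℤ) + g.eval (n : ℤ)).natAbs < x ^ (Dg + 1) := by
      intro g n hn hgc hgd
      rw [mem_Icc] at hn
      have h4 := abs_eval_le g n hn.1
      have h5 : ((n : ℤ)) ^ g.natDegree ≤ (x : ℤ) ^ Dg := by
        calc ((n : ℤ)) ^ g.natDegree ≤ (x : ℤ) ^ g.natDegree := pow_le_pow_left₀ (by positivity) (by exact_mod_cast hn.2) _
          _ ≤ (x : ℤ) ^ Dg := pow_le_pow_right₀ (by exact_mod_cast (by omega : 1 ≤ x)) hgd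
      have h6 : |g.eval (n : ℤ)| ≤ (Cf : ℤ) * (x : ℤ) ^ Dg := by
        refine h4.trans ?_
        apply mul_le_mul (by exact_mod_cast hgc) h5 (by positivity) (by positivity)
      have h7 : (c : ℤ) ≤ (B : ℤ) * (x : ℤ) ^ Dg := by
        have h8 : c ≤ B * x ^ Dg := by
          refine (mem_Icc.1 hc).2.trans (hA1.trans ?_)
          apply Nat.mul_le_mul_left
          apply Nat.pow_le_pow_right (by omega)
          omega
        exact_mod_cast h8
      have h8 : |(c : ℤ) + g.eval (n : ℤ)| ≤ ((B : ℤ) + Cf) * (x : ℤ) ^ Dg := by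
        refine (abs_add_le _ _).trans ?_
        rw [abs_of_nonneg (by positivity : (0 : ℤ) ≤ c), add_mul]
        exact add_le_add h7 h6
      have h9 : ((B : ℤ) + Cf) * (x : ℤ) ^ Dg < (x : ℤ) ^ (Dg + 1) := by
        rw [pow_succ, mul_comm]
        apply mul_lt_mul_of_pos_left _ (pow_pos (by exact_mod_cast (by omega : 0 < x)) _)
        exact_mod_cast (by omega : B + Cf < x)
      have h10 : |(c : ℤ) + g.eval (n : ℤ)| < (x : ℤ) ^ (Dg + 1) := lt_of_le_of_lt h8 h9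
      rw [Int.abs_eq_natAbs] at h10
      exact_mod_cast h10
    have hcf0 : cf f0 ≤ Cf := by omega
    have hcfi : ∀ i, cf (f i) ≤ Cf := by
      intro i
      have := single_le_sum (f := fun i => cf (f i)) (fun _ _ => Nat.zero_le _) (mem_univ i)
      omega
    have hdgi : ∀ i, (f i).natDegree ≤ Dg := by
      intro i
      have := single_le_sum (f := fun i => (f i).natDegree) (fun _ _ => Nat.zero_le _) (mem_univ i)
      omega
    have hsub : PA f0 f c y x ⊆ AP f0 f c r x := by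
      intro n hn
      unfold PA at hn
      unfold AP
      rw [mem_filter] at hn ⊢
      refine ⟨hn.1, hn.2.1, fun i => ?_⟩
      have h4 : ((c : ℤ) + (f i).eval (n : ℤ)) ≠ 0 := by
        intro h5
        apply hn.2.2 2 Nat.prime_two (by omega) i
        rw [h5]
        exact dvd_zero _
      refine ⟨h4, ?_⟩
      refine (rough_Om _ y (C * 2 * (Dg + 1)) (Int.natAbs_ne_zero.2 h4) ?_ ?_).trans (by omega)
      · intro p hp hpd
        by_contra h5
        exact hn.2.2 p hp (by omega) i (Int.natCast_dvd.2 hpd)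
      · rw [pow_mul]
        refine (hval (f i) n hn.1 (hcfi i) (hdgi i)).trans ?_
        exact Nat.pow_lt_pow_left hy2 (by omega)
    have h4 : SP (Gp0 f0 c) (Hp0 f c) y x ≤ #(PA f0 f c y x) * ((Dg + 1) * L) := by
      rw [SP_eq, ← nsmul_eq_mul]
      apply sum_le_card_nsmul
      intro n hn
      unfold PA at hn
      rw [mem_filter] at hn
      have h5 := hval f0 n hn.1 hcf0 (by omega)
      have h6 : ((c : ℤ) + f0.eval (n : ℤ)).toNat ≤ x ^ (Dg + 1) := by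
        have : ((c : ℤ) + f0.eval (n : ℤ)).toNat ≤ ((c : ℤ) + f0.eval (n : ℤ)).natAbs := by omega
        omega
      have h7 : (((c : ℤ) + f0.eval (n : ℤ)).toNat : ℝ) ≤ (x : ℝ) ^ (Dg + 1) := by exact_mod_cast h6
      have h8 := Real.log_le_log (by exact_mod_cast hn.2.1.pos) h7
      rw [Real.log_pow] at h8
      rw [hLd]
      push_cast at h8
      exact h8
    have h5 : (x : ℝ) / L ^ V0 / 2 ≤ #(PA f0 f c y x) * ((Dg + 1) * L) := by linarith
    have h6 : (x : ℝ) / L ^ (V0 + 2) ≤ #(PA f0 f c y x) := by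
      have h7 : 2 * ((Dg : ℝ) + 1) ≤ L := by linarith
      have h8 : (x : ℝ) / L ^ V0 ≤ #(PA f0 f c y x) * L ^ 2 := by
        calc (x : ℝ) / L ^ V0 ≤ 2 * (#(PA f0 f c y x) * ((Dg + 1) * L)) := by linarith
          _ = #(PA f0 f c y x) * ((2 * (Dg + 1)) * L) := by ring
          _ ≤ #(PA f0 f c y x) * (L * L) := by
            apply mul_le_mul_of_nonneg_left _ (Nat.cast_nonneg _)
            exact mul_le_mul_of_nonneg_right h7 hL0.le
          _ = _ := by ring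
      rw [pow_add, ← div_div, div_le_iff₀ (by positivity)]
      exact h8
    calc (x : ℝ) / L ^ r ≤ x / L ^ (V0 + 2) := by
          apply div_le_div_of_nonneg_left hx0.le (by positivity)
          exact pow_le_pow_right₀ hL1 (by omega)
      _ ≤ #(PA f0 f c y x) := h6
      _ ≤ _ := by exact_mod_cast card_le_card hsub

end Pool.Agent.H544.BC
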