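import Mathlib
import Pool.Agent.H544.BC.Lev3

/-!
The variance of the primes in residue classes to small moduli, with multiplicative weights on the classes.
-/

set_option autoImplicit false

namespace Pool.Agent.H544.BC
open Finset Polynomial Filter
open Pool.Agent.H373R2.T7 (pz mem_pz Vz Vz_pos lamz lamz_nonneg lamz_le Vz_inv_small Vz_inv_le)
open Pool.Agent.H544.LD (cls cls_sum card_cls om Gz flcS num_pf)
open Pool.Agent.Y889.PN (PS bvmax)
open Pool.Agent.N913.MT (evt_log_pow evt_log_ge)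

/-- local weights on the classes -/
structure WV (C D : ℕ) (v : ℕ → ℤ → ℝ) : Prop where
  nn : ∀ p l, 0 ≤ v p l
  per : ∀ p, Per p (v p)
  s : ∀ p : ℕ, p.Prime → D < p → ∑ l ∈ range p, v p l ≤ C * p
  z : ∀ p : ℕ, p.Prime → D < p → v p 0 ≤ C

/-- the weight of a class -/
noncomputable def VV (v : ℕ → ℤ → ℝ) (e : ℕ) (l : ℤ) : ℝ := ∏ p ∈ e.primeFactors, v p l

/-- the weighted variance -/
noncomputable def vrV (v : ℕ → ℤ → ℝ) (z H q e : ℕ) : ℝ := ∑ κ ∈ range (q * e), VV v e κ * mx z H (q * e) κ ^ 2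

section W
variable {C D : ℕ} {v : ℕ → ℤ → ℝ} (hv : WV C D v)
include hv

lemma VV_nonneg (e : ℕ) (l : ℤ) : 0 ≤ VV v e l := prod_nonneg fun p _ => hv.nn p l

lemma VV_per (e : ℕ) : Per e (VV v e) := by
  intro a b hab
  apply prod_congr rfl
  intro p hp
  exact hv.per p a b ((Int.natCast_dvd_natCast.2 (Nat.dvd_of_mem_primeFactors hp)).trans hab)

lemma vrV_nonneg (z H q e : ℕ) : 0 ≤ vrV v z H q e := sum_nonneg fun κ _ => mul_nonneg (VV_nonneg hv e κ) (sq_nonneg _)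

lemma VV_sum (e : ℕ) (he : Squarefree e) (heD : ∀ p ∈ e.primeFactors, D < p) :
    ∑ l ∈ range e, VV v e l ≤ (C : ℝ) ^ #(e.primeFactors) * e := by
  unfold VV
  rw [crt_sqf e he v (fun p _ => hv.per p)]
  calc ∏ p ∈ e.primeFactors, ∑ b ∈ range p, v p b ≤ ∏ p ∈ e.primeFactors, ((C : ℝ) * p) :=
        prod_le_prod (fun p _ => sum_nonneg fun _ _ => hv.nn _ _) (fun p hp => hv.s p (Nat.prime_of_mem_primeFactors hp) (heD p hp))
    _ = _ := by
      rw [prod_mul_distrib, prod_const]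
      congr 1
      have := Nat.prod_primeFactors_of_squarefree he
      rw [← Nat.cast_prod, this]

lemma VV_zero (e : ℕ) (he : Squarefree e) (heD : ∀ p ∈ e.primeFactors, D < p) (p0 : ℕ) (hp0 : p0 ∈ e.primeFactors) :
    ∑ l ∈ range e, (if (p0 : ℤ) ∣ (l : ℤ) then VV v e l else 0) ≤ (C : ℝ) ^ #(e.primeFactors) * (e / p0) := by
  classical
  have hpp := Nat.prime_of_mem_primeFactors hp0
  have hp0r : (0 : ℝ) < p0 := by exact_mod_cast hpp.pos
  have e1 : ∀ l ∈ range e, (if (p0 : ℤ) ∣ (l : ℤ) then VV v e l else 0) = ∏ p ∈ e.primeFactors, (fun (p : ℕ) (a : ℤ) => if p = p0 then (if (p0 : ℤ) ∣ a then v p0 a else 0) else v p a) p l := by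
    intro l _
    unfold VV
    by_cases h : (p0 : ℤ) ∣ (l : ℤ)
    · rw [if_pos h]
      apply prod_congr rfl
      intro p _
      by_cases h2 : p = p0
      · rw [h2]
        simp only [if_true, if_pos h]
      · simp only [if_neg h2]
    · rw [if_neg h]
      symm
      apply prod_eq_zero hp0
      simp only [if_neg h, if_true]
  rw [sum_congr rfl e1, crt_sqf e he (fun (p : ℕ) (a : ℤ) => if p = p0 then (if (p0 : ℤ) ∣ a then v p0 a else 0) else v p a) (by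
    intro p _ a b hab
    by_cases h2 : p = p0
    · simp only [if_pos h2]
      rw [h2] at hab
      rw [hv.per p0 a b hab]
      have : (p0 : ℤ) ∣ a ↔ (p0 : ℤ) ∣ b := by
        constructor
        · intro h
          have := dvd_sub h hab
          simpa using this
        · intro h
          have := dvd_add hab h
          simpa using this
      simp only [this]
    · simp only [if_neg h2]
      exact hv.per p a b hab)]
  rw [← mul_prod_erase _ _ hp0]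
  have h1 : ∑ b ∈ range p0, (if p0 = p0 then (if (p0 : ℤ) ∣ (b : ℤ) then v p0 b else 0) else v p0 b) ≤ C := by
    have h2 : ∀ b ∈ range p0, (if p0 = p0 then (if (p0 : ℤ) ∣ (b : ℤ) then v p0 b else 0) else v p0 b) = if b = 0 then v p0 0 else 0 := by
      intro b hb
      rw [mem_range] at hb
      simp only [if_true]
      by_cases h3 : b = 0
      · rw [if_pos h3, h3]
        simp
      · rw [if_neg h3, if_neg]
        intro h4
        have h5 : p0 ∣ b := by exact_mod_cast h4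
        have := Nat.le_of_dvd (by omega) h5
        omega
    rw [sum_congr rfl h2, sum_ite_eq' (range p0) 0 (fun _ => v p0 0), if_pos (mem_range.2 hpp.pos)]
    exact hv.z p0 hpp (heD p0 hp0)
  have h2 : ∏ p ∈ e.primeFactors.erase p0, ∑ b ∈ range p, (if p = p0 then (if (p0 : ℤ) ∣ (b : ℤ) then v p0 b else 0) else v p b) ≤
      ∏ p ∈ e.primeFactors.erase p0, ((C : ℝ) * p) := by
    apply Finset.prod_le_prod
    · intro p _
      apply sum_nonneg
      intro b _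
      split_ifs
      · exact hv.nn _ _
      · exact le_rfl
      · exact hv.nn _ _
    · intro p hp
      rw [mem_erase] at hp
      have h3 : ∀ b ∈ range p, (if p = p0 then (if (p0 : ℤ) ∣ (b : ℤ) then v p0 b else 0) else v p b) = v p b := by
        intro b _
        rw [if_neg hp.1]
      rw [sum_congr rfl h3]
      exact hv.s p (Nat.prime_of_mem_primeFactors hp.2) (heD p hp.2)
  have h3 : (C : ℝ) * ∏ p ∈ e.primeFactors.erase p0, ((C : ℝ) * p) = (C : ℝ) ^ #(e.primeFactors) * (e / p0) := by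
    have h4 : ∏ p ∈ e.primeFactors, ((C : ℝ) * p) = (C : ℝ) ^ #(e.primeFactors) * e := by
      rw [prod_mul_distrib, prod_const]
      congr 1
      have := Nat.prod_primeFactors_of_squarefree he
      rw [← Nat.cast_prod, this]
    rw [← mul_prod_erase _ _ hp0] at h4
    have h5 : (C : ℝ) * p0 * ∏ p ∈ e.primeFactors.erase p0, ((C : ℝ) * p) = p0 * (C * ∏ p ∈ e.primeFactors.erase p0, ((C : ℝ) * p)) := by ring
    rw [h5] at h4
    rw [← mul_div_assoc, ← h4]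
    field_simp
  rw [← h3]
  apply mul_le_mul h1 h2 _ (Nat.cast_nonneg _)
  apply prod_nonneg
  intro p _
  apply sum_nonneg
  intro b _
  split_ifs
  · exact hv.nn _ _
  · exact le_rfl
  · exact hv.nn _ _

omit hv in
/-- sums over a multiple of the period -/
lemma per_mult (q e : ℕ) (he : 1 ≤ e) (G : ℤ → ℝ) (hG : Per e G) (h0 : ∀ a, 0 ≤ G a) :
    ∑ κ ∈ range (q * e), G κ ≤ q * ∑ l ∈ range e, G l := by
  rw [← sum_fiberwise_of_maps_to (s := range (q * e)) (t := range e) (g := fun κ => κ % e) (fun κ _ => mem_range.2 (Nat.mod_lt _ (by omega))), mul_sum]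
  apply sum_le_sum
  intro l hl
  have h1 : ∀ κ ∈ (range (q * e)).filter (fun κ => κ % e = l), G κ = G l := by
    intro κ hκ
    rw [mem_filter] at hκ
    apply hG
    have := Nat.modEq_iff_dvd.1 (show l ≡ κ [MOD e] by rw [Nat.ModEq, hκ.2, Nat.mod_eq_of_lt (mem_range.1 hl)])
    exact this
  rw [sum_congr rfl h1, sum_const, nsmul_eq_mul]
  apply mul_le_mul_of_nonneg_right _ (h0 _)
  exact_mod_cast card_sub_cls q e l he

/-- the weight of the classes with a large common prime -/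
lemma VV_bad (z H q e : ℕ) (he : Squarefree e) (heD : ∀ p ∈ e.primeFactors, D < p) (hz : 1 ≤ z) (hq : 1 ≤ q) (hqz : q ≤ z)
    (hqH : q * e ≤ H) (hH : 3 ≤ H) :
    ∑ κ ∈ (range (q * e)).filter (fun κ => ∃ p ∈ (q * e).primeFactors, z < p ∧ p ∣ κ), VV v e κ ≤
      2 * Real.log H * ((C : ℝ) ^ #(e.primeFactors) * ((q * e : ℕ) / z)) := by
  classical
  have hzr : (0 : ℝ) < z := by exact_mod_cast hz
  have he1 : 1 ≤ e := Nat.one_le_iff_ne_zero.2 he.ne_zero
  have h1 : ∑ κ ∈ (range (q * e)).filter (fun κ => ∃ p ∈ (q * e).primeFactors, z < p ∧ p ∣ κ), VV v e κ ≤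
      ∑ p ∈ e.primeFactors.filter (fun p => z < p), ∑ κ ∈ range (q * e), (if (p : ℤ) ∣ (κ : ℤ) then VV v e κ else 0) := by
    rw [sum_comm, sum_filter]
    apply sum_le_sum
    intro κ _
    split_ifs with h
    · obtain ⟨p, hp, hzp, hpκ⟩ := h
      have hpp := Nat.prime_of_mem_primeFactors hp
      have hpe : p ∈ e.primeFactors := by
        rw [Nat.mem_primeFactors]
        refine ⟨hpp, ?_, by omega⟩
        rcases hpp.dvd_mul.1 (Nat.dvd_of_mem_primeFactors hp) with h2 | h2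
        · have := Nat.le_of_dvd (by omega) h2
          omega
        · exact h2
      have h2 := single_le_sum (s := e.primeFactors.filter (fun p => z < p)) (f := fun p : ℕ => if (p : ℤ) ∣ (κ : ℤ) then VV v e κ else 0)
        (fun p _ => by
          split_ifs
          · exact VV_nonneg hv e κ
          · exact le_rfl) (mem_filter.2 ⟨hpe, hzp⟩)
      rw [if_pos (by exact_mod_cast hpκ)] at h2
      exact h2
    · apply sum_nonneg
      intro p _
      split_ifs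
      · exact VV_nonneg hv e κ
      · exact le_rfl
  refine h1.trans ?_
  have h2 : ∀ p ∈ e.primeFactors.filter (fun p => z < p), ∑ κ ∈ range (q * e), (if (p : ℤ) ∣ (κ : ℤ) then VV v e κ else 0) ≤
      (C : ℝ) ^ #(e.primeFactors) * ((q * e : ℕ) / z) := by
    intro p hp
    rw [mem_filter] at hp
    have hpp := Nat.prime_of_mem_primeFactors hp.1
    have h3 := per_mult q e he1 (fun κ => if (p : ℤ) ∣ κ then VV v e κ else 0) (by
      intro a b hab
      show (if (p : ℤ) ∣ a then VV v e a else 0) = (if (p : ℤ) ∣ b then VV v e b else 0)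
      rw [VV_per hv e a b hab]
      have hpab : (p : ℤ) ∣ a - b := (Int.natCast_dvd_natCast.2 (Nat.dvd_of_mem_primeFactors hp.1)).trans hab
      have : (p : ℤ) ∣ a ↔ (p : ℤ) ∣ b := by
        constructor
        · intro h
          have := dvd_sub h hpab
          simpa using this
        · intro h
          have := dvd_add hpab h
          simpa using this
      simp only [this]) (by
      intro a
      split_ifs
      · exact VV_nonneg hv e a
      · exact le_rfl)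
    have h4 := VV_zero hv e he heD p hp.1
    have hC0 : (0 : ℝ) ≤ (C : ℝ) ^ #(e.primeFactors) := by positivity
    calc ∑ κ ∈ range (q * e), (if (p : ℤ) ∣ (κ : ℤ) then VV v e κ else 0) ≤ q * ∑ l ∈ range e, (if (p : ℤ) ∣ (l : ℤ) then VV v e l else 0) := h3
      _ ≤ q * ((C : ℝ) ^ #(e.primeFactors) * (e / p)) := mul_le_mul_of_nonneg_left h4 (Nat.cast_nonneg _)
      _ = (C : ℝ) ^ #(e.primeFactors) * ((q * e : ℕ) / p) := by push_cast; ring
      _ ≤ _ := by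
        apply mul_le_mul_of_nonneg_left _ hC0
        exact div_le_div_of_nonneg_left (Nat.cast_nonneg _) hzr (by exact_mod_cast hp.2.le)
  refine (sum_le_sum h2).trans ?_
  rw [sum_const, nsmul_eq_mul]
  apply mul_le_mul_of_nonneg_right _ (by positivity)
  have h3 := num_pf e H he1 (le_trans (Nat.le_mul_of_pos_left e (by omega)) hqH) hH
  have h4 : (#(e.primeFactors.filter (fun p => z < p)) : ℝ) ≤ #(e.primeFactors) := by
    exact_mod_cast card_le_card (filter_subset _ _)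
  linarith

/-- the weighted variance to one modulus -/
lemma vrV_one (C1 z0 : ℕ) (hfl : ∀ b : ℕ, C1 ≤ b → ∀ z : ℕ, z0 ≤ z →
    ∀ (H : ℤ[X]) (q r y : ℕ), H.natDegree ≤ 1 → 1 ≤ q → r < q → Int.gcd (H.eval (r : ℤ)) q = 1 →
    |(#((cls y q r).filter (fun n : ℕ => ∀ p ∈ pz z, ¬ (p : ℤ) ∣ H.eval (n : ℤ))) : ℝ) - (y : ℝ) / q * Gz H z q| ≤
      (1 / 2 : ℝ) ^ b * ((y : ℝ) / q) + (z : ℝ) ^ (C1 * b))
    (b z H q e : ℕ) (he : Squarefree e) (heD : ∀ p ∈ e.primeFactors, D < p) (hqz : q ≤ z) (hb : C1 ≤ b) (hz : z0 ≤ z) (hz1 : 1 ≤ z) (hq : 1 ≤ q)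
    (hqH : q * e ≤ H) (hH : 3 ≤ H)
    (hV : (Vz z)⁻¹ ≤ Real.log H) (Mq : ℝ) (hM0 : 0 ≤ Mq)
    (hM : ∀ a : ℕ, a.Coprime (q * e) → ∀ y : ℕ, y ≤ H → |PS y (q * e) a - y / (Nat.totient (q * e) : ℝ)| ≤ Mq)
    (hM2 : Mq ≤ 2 * H * Real.log H / (Nat.totient (q * e) : ℝ)) :
    vrV v z H q e ≤ (C : ℝ) ^ #(e.primeFactors) * (24 * H * Real.log H ^ 2 * Mq + 16 * (q * e : ℕ) * H * Real.log H ^ 2 +
      160 * H ^ 2 * Real.log H ^ 4 / ((q * e : ℕ) * z) +
      8 * Real.log H ^ 2 * (1 / 4 : ℝ) ^ b * H ^ 2 / (q * e : ℕ) + 8 * Real.log H ^ 2 * (q * e : ℕ) * (z : ℝ) ^ (2 * (C1 * b)) + 8 * (q * e : ℕ) * Real.log H ^ 4) := by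
  obtain ⟨ℓ, hℓ⟩ : ∃ ℓ, ℓ = Real.log H := ⟨_, rfl⟩
  have he1 : 1 ≤ e := Nat.one_le_iff_ne_zero.2 he.ne_zero
  have hH3 : (3 : ℝ) ≤ H := by exact_mod_cast hH
  have hℓ1 : 1 ≤ ℓ := by
    rw [hℓ, Real.le_log_iff_exp_le (by linarith)]
    have := Real.exp_one_lt_d9
    linarith
  obtain ⟨n, hn⟩ : ∃ n, n = q * e := ⟨_, rfl⟩
  have hn1 : 1 ≤ n := by rw [hn]; exact Nat.mul_pos hq he1
  have hbadV := VV_bad hv z H q e he heD hz1 hq hqz hqH hH
  have hVs : ∑ κ ∈ range (q * e), VV v e κ ≤ (C : ℝ) ^ #(e.primeFactors) * n := by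
    refine (per_mult q e he1 (VV v e) (VV_per hv e) (VV_nonneg hv e)).trans ?_
    have := VV_sum hv e he heD
    calc (q : ℝ) * ∑ l ∈ range e, VV v e l ≤ q * ((C : ℝ) ^ #(e.primeFactors) * e) := mul_le_mul_of_nonneg_left this (Nat.cast_nonneg _)
      _ = _ := by rw [hn]; push_cast; ring
  unfold vrV
  rw [← hn] at hqH hM hM2 hbadV hVs ⊢
  obtain ⟨Cw, hCw⟩ : ∃ Cw, Cw = (C : ℝ) ^ #(e.primeFactors) := ⟨_, rfl⟩
  have hCw0 : 0 ≤ Cw := by rw [hCw]; positivity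
  rw [← hCw] at hbadV hVs ⊢
  have hqr : (0 : ℝ) < n := by exact_mod_cast hn1
  have hq1 : (1 : ℝ) ≤ n := by exact_mod_cast hn1
  have hzr : (0 : ℝ) < z := by exact_mod_cast hz1
  have hz1r : (1 : ℝ) ≤ z := by exact_mod_cast hz1
  have hHr : (0 : ℝ) < H := by linarith
  have hφ : (0 : ℝ) < Nat.totient n := by exact_mod_cast Nat.totient_pos.2 hn1
  have hφq : (Nat.totient n : ℝ) ≤ n := by exact_mod_cast Nat.totient_le n
  have hφl : (n : ℝ) ≤ Nat.totient n * (3 * ℓ) := by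
    have h1 := tot_lower n
    have h2 := num_pf n H hn1 hqH hH
    rw [← hℓ] at h2
    refine h1.trans ?_
    apply mul_le_mul_of_nonneg_left _ hφ.le
    linarith
  have hVi : 0 < (Vz z)⁻¹ := inv_pos.2 (Vz_pos z)
  rw [← hℓ] at hV hM2 hbadV ⊢
  obtain ⟨s, hs⟩ : ∃ s, s = 2 * √(H : ℝ) * ℓ := ⟨_, rfl⟩
  have hs0 : 0 ≤ s := by rw [hs]; positivity
  have hs2 : s ^ 2 = 4 * H * ℓ ^ 2 := by
    rw [hs, mul_pow, mul_pow, Real.sq_sqrt hHr.le]; ring
  obtain ⟨e1, he1'⟩ : ∃ e1, e1 = H / (Nat.totient n : ℝ) * (2 * ℓ / z) := ⟨_, rfl⟩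
  obtain ⟨e2, he2⟩ : ∃ e2, e2 = (Vz z)⁻¹ * ((1 / 2 : ℝ) ^ b * ((H : ℝ) / n) + (z : ℝ) ^ (C1 * b)) := ⟨_, rfl⟩
  have he10 : 0 ≤ e1 := by rw [he1']; positivity
  have he20 : 0 ≤ e2 := by rw [he2]; positivity
  have hcop : ∀ κ ∈ (range n).filter (fun κ => κ.Coprime n), VV v e κ * mx z H n κ ^ 2 ≤ VV v e κ * (4 * (Mq ^ 2 + s ^ 2 + e1 ^ 2 + e2 ^ 2)) := by
    intro κ hκ
    rw [mem_filter, mem_range] at hκ
    apply mul_le_mul_of_nonneg_left _ (VV_nonneg hv e κ)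
    have h1 : mx z H n κ ≤ Mq + s + e1 + e2 := by
      apply mx_le
      intro y hy
      have h2 := prime_cls H n (by omega) Mq hM κ y hκ.1 hκ.2 hy
      have h3 := model_one C1 z0 hfl b z H n κ y hb hz hz1 hn1 hqH hH hκ.1 hκ.2 hy
      rw [← hℓ] at h2 h3
      rw [← hs] at h2
      rw [← he1', ← he2] at h3
      unfold fp
      rw [sum_sub_distrib]
      have h4 := abs_le.1 h2
      have h5 := abs_le.1 h3
      rw [abs_le]
      constructor <;> linarith [h4.1, h4.2, h5.1, h5.2]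
    have h2 := pow_le_pow_left₀ (mx_nonneg z H n κ) h1 2
    nlinarith [sq_nonneg (Mq - s), sq_nonneg (Mq - e1), sq_nonneg (Mq - e2), sq_nonneg (s - e1), sq_nonneg (s - e2), sq_nonneg (e1 - e2)]
  have hncop : ∀ κ ∈ (range n).filter (fun κ => ¬ κ.Coprime n), VV v e κ * mx z H n κ ^ 2 ≤ VV v e κ * (8 * ℓ ^ 4) +
      (if ∃ p ∈ n.primeFactors, z < p ∧ p ∣ κ then VV v e κ * (2 * (ℓ * (2 * H / n)) ^ 2) else 0) := by
    intro κ hκ
    rw [mem_filter, mem_range] at hκ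
    have h0 := VV_nonneg hv e κ
    have h1 : mx z H n κ ≤ 2 * ℓ ^ 2 + (if ∃ p ∈ n.primeFactors, z < p ∧ p ∣ κ then ℓ * (2 * H / n) else 0) := by
      apply mx_le
      intro y hy
      refine (noncop z H n κ y hn1 hqH hH hκ.1 hκ.2 hy).trans ?_
      rw [← hℓ]
      apply add_le_add le_rfl
      split_ifs
      · exact mul_le_mul_of_nonneg_right hV (by positivity)
      · exact le_rfl
    have h2 := pow_le_pow_left₀ (mx_nonneg z H n κ) h1 2
    split_ifs at h2 ⊢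
    · rw [← mul_add]
      apply mul_le_mul_of_nonneg_left _ h0
      nlinarith [sq_nonneg (2 * ℓ ^ 2 - ℓ * (2 * H / n))]
    · rw [add_zero]
      apply mul_le_mul_of_nonneg_left _ h0
      nlinarith [sq_nonneg (ℓ ^ 2)]
  rw [← sum_filter_add_sum_filter_not (range n) (fun κ => κ.Coprime n)]
  have h1 : ∑ κ ∈ (range n).filter (fun κ => κ.Coprime n), VV v e κ * mx z H n κ ^ 2 ≤ Cw * (n * (4 * (Mq ^ 2 + s ^ 2 + e1 ^ 2 + e2 ^ 2))) := by
    refine (sum_le_sum hcop).trans ?_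
    have h5 : ∑ κ ∈ (range n).filter (fun κ => κ.Coprime n), VV v e κ ≤ Cw * n :=
      le_trans (sum_le_sum_of_subset_of_nonneg (filter_subset _ _) (fun κ _ _ => VV_nonneg hv e κ)) hVs
    rw [← sum_mul]
    calc _ ≤ (Cw * n) * (4 * (Mq ^ 2 + s ^ 2 + e1 ^ 2 + e2 ^ 2)) := mul_le_mul_of_nonneg_right h5 (by positivity)
      _ = _ := by ring
  have h2 : ∑ κ ∈ (range n).filter (fun κ => ¬ κ.Coprime n), VV v e κ * mx z H n κ ^ 2 ≤ Cw * (n * (8 * ℓ ^ 4)) + Cw * (2 * ℓ * (n / z) * (2 * (ℓ * (2 * H / n)) ^ 2)) := by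
    refine (sum_le_sum hncop).trans ?_
    rw [sum_add_distrib]
    apply add_le_add
    · have h5 : ∑ κ ∈ (range n).filter (fun κ => ¬ κ.Coprime n), VV v e κ ≤ Cw * n :=
        le_trans (sum_le_sum_of_subset_of_nonneg (filter_subset _ _) (fun κ _ _ => VV_nonneg hv e κ)) hVs
      rw [← sum_mul]
      calc _ ≤ (Cw * n) * (8 * ℓ ^ 4) := mul_le_mul_of_nonneg_right h5 (by positivity)
        _ = _ := by ring
    · rw [← sum_filter, ← sum_mul]
      have h5 : ∑ κ ∈ ((range n).filter (fun κ => ¬ κ.Coprime n)).filter (fun κ => ∃ p ∈ n.primeFactors, z < p ∧ p ∣ κ), VV v e κ ≤ 2 * ℓ * (Cw * (n / z)) := by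
        refine le_trans ?_ hbadV
        apply sum_le_sum_of_subset_of_nonneg
        · intro κ hκ
          rw [mem_filter, mem_filter] at hκ
          exact mem_filter.2 ⟨hκ.1.1, hκ.2⟩
        · intro κ _ _
          exact VV_nonneg hv e κ
      calc _ ≤ (2 * ℓ * (Cw * (n / z))) * (2 * (ℓ * (2 * H / n)) ^ 2) := mul_le_mul_of_nonneg_right h5 (by positivity)
        _ = _ := by ring
  refine (add_le_add h1 h2).trans ?_
  rw [← mul_add, ← mul_add]
  apply mul_le_mul_of_nonneg_left _ hCw0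
  -- the pieces
  have p1 : (n : ℝ) * (4 * Mq ^ 2) ≤ 24 * H * ℓ ^ 2 * Mq := by
    have h3 : (n : ℝ) * Mq ≤ 6 * H * ℓ ^ 2 := by
      rw [le_div_iff₀ hφ] at hM2
      calc (n : ℝ) * Mq ≤ (Nat.totient n * (3 * ℓ)) * Mq := mul_le_mul_of_nonneg_right hφl hM0
        _ = (3 * ℓ) * (Mq * Nat.totient n) := by ring
        _ ≤ (3 * ℓ) * (2 * H * ℓ) := mul_le_mul_of_nonneg_left hM2 (by positivity)
        _ = _ := by ring
    nlinarith
  have p2 : (n : ℝ) * (4 * s ^ 2) = 16 * n * H * ℓ ^ 2 := by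
    rw [hs2]; ring
  have p3 : (n : ℝ) * (4 * e1 ^ 2) ≤ 144 * H ^ 2 * ℓ ^ 4 / (n * z) := by
    have h3 : (n : ℝ) * (4 * e1 ^ 2) = 16 * H ^ 2 * ℓ ^ 2 * n / (Nat.totient n ^ 2 * z ^ 2) := by
      rw [he1']; field_simp; ring
    rw [h3, div_le_div_iff₀ (by positivity) (by positivity)]
    have h4 : (n : ℝ) ^ 2 * z ≤ (Nat.totient n * (3 * ℓ)) ^ 2 * z ^ 2 := by
      apply mul_le_mul (pow_le_pow_left₀ hqr.le hφl 2) _ hzr.le (by positivity)
      nlinarith
    calc 16 * (H : ℝ) ^ 2 * ℓ ^ 2 * n * (n * z) = 16 * (H : ℝ) ^ 2 * ℓ ^ 2 * (n ^ 2 * z) := by ring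
      _ ≤ 16 * (H : ℝ) ^ 2 * ℓ ^ 2 * ((Nat.totient n * (3 * ℓ)) ^ 2 * z ^ 2) := mul_le_mul_of_nonneg_left h4 (by positivity)
      _ = _ := by ring
  have p4 : (n : ℝ) * (4 * e2 ^ 2) ≤ 8 * ℓ ^ 2 * (1 / 4 : ℝ) ^ b * H ^ 2 / n + 8 * ℓ ^ 2 * n * (z : ℝ) ^ (2 * (C1 * b)) := by
    have h3 : e2 ^ 2 ≤ ℓ ^ 2 * (2 * (((1 / 2 : ℝ) ^ b * ((H : ℝ) / n)) ^ 2 + ((z : ℝ) ^ (C1 * b)) ^ 2)) := by
      rw [he2, mul_pow]
      apply mul_le_mul (pow_le_pow_left₀ hVi.le hV 2) _ (by positivity) (by positivity)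
      nlinarith [sq_nonneg ((1 / 2 : ℝ) ^ b * ((H : ℝ) / n) - (z : ℝ) ^ (C1 * b))]
    have h4 : (n : ℝ) * (4 * e2 ^ 2) ≤ n * (4 * (ℓ ^ 2 * (2 * (((1 / 2 : ℝ) ^ b * ((H : ℝ) / n)) ^ 2 + ((z : ℝ) ^ (C1 * b)) ^ 2)))) := by
      apply mul_le_mul_of_nonneg_left _ hqr.le
      linarith
    refine h4.trans (le_of_eq ?_)
    have h5 : ((1 / 2 : ℝ) ^ b) ^ 2 = (1 / 4 : ℝ) ^ b := by
      rw [← pow_mul, mul_comm b 2, pow_mul]; norm_num
    rw [mul_pow ((1 / 2 : ℝ) ^ b), h5, ← pow_mul, mul_comm (C1 * b) 2]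
    field_simp
    ring
  have p5 : 2 * ℓ * ((n : ℝ) / z) * (2 * (ℓ * (2 * H / n)) ^ 2) ≤ 16 * H ^ 2 * ℓ ^ 4 / (n * z) := by
    have h3 : 2 * ℓ * ((n : ℝ) / z) * (2 * (ℓ * (2 * H / n)) ^ 2) = 16 * H ^ 2 * ℓ ^ 3 / (n * z) := by
      field_simp; ring
    rw [h3]
    apply div_le_div_of_nonneg_right _ (by positivity)
    apply mul_le_mul_of_nonneg_left _ (by positivity)
    exact pow_le_pow_right₀ hℓ1 (by norm_num)
  have p6 : 160 * (H : ℝ) ^ 2 * ℓ ^ 4 / (n * z) = 144 * H ^ 2 * ℓ ^ 4 / (n * z) + 16 * H ^ 2 * ℓ ^ 4 / (n * z) := by ring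
  rw [p6]
  have p7 : (n : ℝ) * (4 * (Mq ^ 2 + s ^ 2 + e1 ^ 2 + e2 ^ 2)) =
      (n : ℝ) * (4 * Mq ^ 2) + (n : ℝ) * (4 * s ^ 2) + (n : ℝ) * (4 * e1 ^ 2) + (n : ℝ) * (4 * e2 ^ 2) := by ring
  rw [p7]
  linarith

end W

end Pool.Agent.H544.BC
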