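import Mathlib
import Pool.Agent.H544.BC.W1
import Pool.Agent.H544.BC.M13

/-!
The variance of the primes in residue classes to small moduli, with multiplicative weights on the classes: summation.
-/

set_option autoImplicit false

namespace Pool.Agent.H544.BC
open Finset Polynomial Filter
open Pool.Agent.H373R2.T7 (pz mem_pz Vz Vz_pos lamz lamz_nonneg lamz_le Vz_inv_small Vz_inv_le)
open Pool.Agent.H544.LD (cls cls_sum card_cls om Gz flcS num_pf)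
open Pool.Agent.Y889.PN (PS bvmax)
open Pool.Agent.N913.MT (evt_log_pow evt_log_ge)

/-- one term -/
lemma term_bd (Cw C2 lam M H n z s ℓ q4 zb X : ℝ) (hCw1 : 1 ≤ Cw) (hC2 : C2 = Cw ^ 2) (hlam : 0 < lam) (hM0 : 0 ≤ M)
    (hMn : M ≤ 6 * H * ℓ ^ 2 / n) (hn : 0 < n) (hz : 0 < z) (hℓ : 1 ≤ ℓ) (hH : 0 < H) (hq4 : 0 ≤ q4) (hzb0 : 0 ≤ zb) (hzb : zb ≤ s) (hns : n ^ 2 ≤ s)
    (hsH : s ≤ H) (hs1 : 1 ≤ s)
    (hX : X ≤ Cw * (24 * H * ℓ ^ 2 * M + 16 * n * H * ℓ ^ 2 + 160 * H ^ 2 * ℓ ^ 4 / (n * z) +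
      8 * ℓ ^ 2 * q4 * H ^ 2 / n + 8 * ℓ ^ 2 * n * zb + 8 * n * ℓ ^ 4)) (hℓs : ℓ ^ 4 ≤ H) :
    X ≤ 24 * H * ℓ ^ 2 * lam * M + (144 * H ^ 2 * ℓ ^ 4 / lam + 160 * H ^ 2 * ℓ ^ 4 / z + 8 * ℓ ^ 2 * q4 * H ^ 2 + 32 * s * H * ℓ ^ 4) * (C2 / n) := by
  have hCw0 : 0 < Cw := by linarith
  have hC21 : Cw ≤ C2 := by rw [hC2]; nlinarith
  have hC20 : 0 < C2 := by linarith
  have hs0 : 0 < s := by linarith
  -- the main term
  have h1 : Cw * M ≤ lam * M + C2 / lam * (6 * H * ℓ ^ 2 / n) := by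
    rcases le_total Cw lam with h | h
    · have : Cw * M ≤ lam * M := mul_le_mul_of_nonneg_right h hM0
      have : 0 ≤ C2 / lam * (6 * H * ℓ ^ 2 / n) := by positivity
      linarith
    · have h2 : Cw ≤ C2 / lam := by
        rw [le_div_iff₀ hlam, hC2]
        nlinarith
      have h3 : Cw * M ≤ C2 / lam * (6 * H * ℓ ^ 2 / n) := mul_le_mul h2 hMn hM0 (by positivity)
      have : 0 ≤ lam * M := by positivity
      linarith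
  have t1 : Cw * (24 * H * ℓ ^ 2 * M) ≤ 24 * H * ℓ ^ 2 * lam * M + 144 * H ^ 2 * ℓ ^ 4 / lam * (C2 / n) := by
    calc Cw * (24 * H * ℓ ^ 2 * M) = 24 * H * ℓ ^ 2 * (Cw * M) := by ring
      _ ≤ 24 * H * ℓ ^ 2 * (lam * M + C2 / lam * (6 * H * ℓ ^ 2 / n)) := mul_le_mul_of_nonneg_left h1 (by positivity)
      _ = _ := by field_simp; ring
  have t2 : Cw * (160 * H ^ 2 * ℓ ^ 4 / (n * z)) ≤ 160 * H ^ 2 * ℓ ^ 4 / z * (C2 / n) := by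
    calc Cw * (160 * H ^ 2 * ℓ ^ 4 / (n * z)) ≤ C2 * (160 * H ^ 2 * ℓ ^ 4 / (n * z)) := mul_le_mul_of_nonneg_right hC21 (by positivity)
      _ = _ := by field_simp
  have t3 : Cw * (8 * ℓ ^ 2 * q4 * H ^ 2 / n) ≤ 8 * ℓ ^ 2 * q4 * H ^ 2 * (C2 / n) := by
    calc Cw * (8 * ℓ ^ 2 * q4 * H ^ 2 / n) ≤ C2 * (8 * ℓ ^ 2 * q4 * H ^ 2 / n) := mul_le_mul_of_nonneg_right hC21 (by positivity)
      _ = _ := by ring
  have t4 : Cw * (16 * n * H * ℓ ^ 2 + 8 * ℓ ^ 2 * n * zb + 8 * n * ℓ ^ 4) ≤ 32 * s * H * ℓ ^ 4 * (C2 / n) := by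
    have h24 : ℓ ^ 2 ≤ ℓ ^ 4 := pow_le_pow_right₀ hℓ (by norm_num)
    have h2 : 16 * n * H * ℓ ^ 2 + 8 * ℓ ^ 2 * n * zb + 8 * n * ℓ ^ 4 ≤ 32 * n * H * ℓ ^ 4 := by
      have a1 : 16 * n * H * ℓ ^ 2 ≤ 16 * n * H * ℓ ^ 4 := mul_le_mul_of_nonneg_left h24 (by positivity)
      have a2 : 8 * ℓ ^ 2 * n * zb ≤ 8 * ℓ ^ 4 * n * H := by
        apply mul_le_mul _ (hzb.trans hsH) hzb0 (by positivity)
        apply mul_le_mul_of_nonneg_right _ hn.le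
        linarith
      have a3 : 8 * n * ℓ ^ 4 ≤ 8 * n * H * ℓ ^ 4 := by
        have : 1 ≤ H := hs1.trans hsH
        calc 8 * n * ℓ ^ 4 = 8 * n * 1 * ℓ ^ 4 := by ring
          _ ≤ 8 * n * H * ℓ ^ 4 := by gcongr
      linarith
    calc Cw * (16 * n * H * ℓ ^ 2 + 8 * ℓ ^ 2 * n * zb + 8 * n * ℓ ^ 4) ≤ C2 * (32 * n * H * ℓ ^ 4) := mul_le_mul hC21 h2 (by positivity) hC20.le
      _ = 32 * n ^ 2 * H * ℓ ^ 4 * (C2 / n) := by field_simp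
      _ ≤ 32 * s * H * ℓ ^ 4 * (C2 / n) := by gcongr
  refine hX.trans ?_
  have e : Cw * (24 * H * ℓ ^ 2 * M + 16 * n * H * ℓ ^ 2 + 160 * H ^ 2 * ℓ ^ 4 / (n * z) +
      8 * ℓ ^ 2 * q4 * H ^ 2 / n + 8 * ℓ ^ 2 * n * zb + 8 * n * ℓ ^ 4) = Cw * (24 * H * ℓ ^ 2 * M) + Cw * (160 * H ^ 2 * ℓ ^ 4 / (n * z)) +
      Cw * (8 * ℓ ^ 2 * q4 * H ^ 2 / n) + Cw * (16 * n * H * ℓ ^ 2 + 8 * ℓ ^ 2 * n * zb + 8 * n * ℓ ^ 4) := by ring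
  rw [e]
  have e2 : (144 * H ^ 2 * ℓ ^ 4 / lam + 160 * H ^ 2 * ℓ ^ 4 / z + 8 * ℓ ^ 2 * q4 * H ^ 2 + 32 * s * H * ℓ ^ 4) * (C2 / n) =
      144 * H ^ 2 * ℓ ^ 4 / lam * (C2 / n) + 160 * H ^ 2 * ℓ ^ 4 / z * (C2 / n) + 8 * ℓ ^ 2 * q4 * H ^ 2 * (C2 / n) + 32 * s * H * ℓ ^ 4 * (C2 / n) := by ring
  rw [e2]
  linarith

/-- **The weighted variance of the primes in all classes to small moduli.** -/
theorem varV (C D V γ : ℕ) (hC : 1 ≤ C) : ∃ E0 : ℕ, ∀ E : ℕ, ∃ H0 : ℕ, ∀ H : ℕ, H0 ≤ H → ∀ z : ℕ, Real.log H ^ E0 ≤ z → (z : ℝ) ≤ Real.log H ^ E →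
    ∀ v : ℕ → ℤ → ℝ, WV C D v → ∀ G : ℕ, (G : ℝ) ≤ Real.log H ^ γ →
    ∀ S : Finset ℕ, (∀ e ∈ S, Squarefree e ∧ (∀ p ∈ e.primeFactors, D < p) ∧ e ^ 16 ≤ H) →
    ∑ e ∈ S, ∑ q ∈ Icc 1 G, vrV v z H q e ≤ H ^ 2 / Real.log H ^ V := by
  classical
  obtain ⟨C1, z0, hC1, hz0, hfl⟩ := flcS 1
  obtain ⟨W, N5, hom⟩ := omsum (C ^ 2)
  obtain ⟨B, X0, hbv⟩ := bvmax (γ + 2 + (V + W + 6) + V + 1)
  refine ⟨V + W + 6 + γ, fun E => ?_⟩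
  obtain ⟨N1, hN1⟩ := Vz_inv_small E
  obtain ⟨N2, hbch⟩ := bch C1 E (V + W + 4) (1 / 8) (by norm_num)
  obtain ⟨H0, hH0⟩ := eventually_atTop.1 ((evt_log_ge (712 + z0)).and
    ((evt_log_pow (1 / 2) (by norm_num) 1 B).and ((evt_log_pow (1 / 4) (by norm_num) 1 (V + W + 6)).and
      ((evt_log_pow (1 / 16) (by norm_num) 1 γ).and ((eventually_ge_atTop (X0 + N1 + N2 + N5 + 3)))))))
  refine ⟨H0, fun H hH z hz1 hz2 v hv G hG S hS => ?_⟩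
  obtain ⟨g2, g3, g4, g5, g6⟩ := hH0 H hH
  have hH3 : (3 : ℝ) ≤ H := by exact_mod_cast (by omega : 3 ≤ H)
  have hH0 : (0 : ℝ) < H := by linarith
  obtain ⟨b, hb1, hb2, hb3⟩ := hbch H (by omega)
  obtain ⟨ℓ, hℓ⟩ : ∃ ℓ, ℓ = Real.log H := ⟨_, rfl⟩
  have hb3' := hb3 z hz2
  rw [← hℓ] at g2 g3 g4 g5 hz1 hz2 hb2 hG ⊢
  have hz00 : (0 : ℝ) ≤ z0 := Nat.cast_nonneg _
  have hℓ712 : 712 ≤ ℓ := by linarith
  have hℓ1 : 1 ≤ ℓ := by linarith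
  have hℓ0 : 0 < ℓ := by linarith
  have hℓz : ∀ j : ℕ, j ≤ V + W + 6 + γ → ℓ ^ j ≤ z := fun j hj => (pow_le_pow_right₀ hℓ1 hj).trans hz1
  have hzz : z0 ≤ z := by
    have h1 := hℓz 1 (by omega)
    rw [pow_one] at h1
    have : (z0 : ℝ) ≤ z := by linarith
    exact_mod_cast this
  have hz1' : 1 ≤ z := by omega
  have hzr : (0 : ℝ) < z := by exact_mod_cast hz1'
  have hV := hN1 H (by omega) z hz1' (by rw [← hℓ]; exact hz2)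
  rw [← hℓ] at hV
  have hGz : G ≤ z := by
    have : (G : ℝ) ≤ z := hG.trans (hℓz γ (by omega))
    exact_mod_cast this
  -- small quantities
  obtain ⟨s, hs⟩ : ∃ s, s = (H : ℝ) ^ (1 / 4 : ℝ) := ⟨_, rfl⟩
  have hs0 : 0 < s := by rw [hs]; positivity
  have hs4 : (H : ℝ) = s ^ 4 := by
    rw [hs, ← Real.rpow_natCast, ← Real.rpow_mul hH0.le]; norm_num
  have hs2 : (H : ℝ) ^ (1 / 2 : ℝ) = s ^ 2 := by
    rw [hs, ← Real.rpow_natCast, ← Real.rpow_mul hH0.le]; norm_num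
  have hs1 : 1 ≤ s := by rw [hs]; exact Real.one_le_rpow (by linarith) (by norm_num)
  have hsH : s ≤ H := by
    rw [hs4]
    calc s = s ^ 1 := (pow_one s).symm
      _ ≤ s ^ 4 := pow_le_pow_right₀ hs1 (by norm_num)
  rw [hs2, one_mul] at g3
  rw [← hs, one_mul] at g4
  rw [one_mul] at g5
  obtain ⟨Q, hQ1, hQ2⟩ : ∃ Q : ℕ, Q ^ 8 ≤ H ∧ H < (Q + 1) ^ 8 := by
    refine ⟨Nat.findGreatest (fun y => y ^ 8 ≤ H) H, ?_, ?_⟩
    · exact Nat.findGreatest_spec (P := fun y => y ^ 8 ≤ H) (m := 0) (Nat.zero_le _) (by norm_num)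
    · by_contra h
      have h1 : (Nat.findGreatest (fun y => y ^ 8 ≤ H) H + 1) ^ 8 ≤ H := by omega
      have h2 : Nat.findGreatest (fun y => y ^ 8 ≤ H) H + 1 ≤ H := (Nat.le_self_pow (by norm_num) _).trans h1
      have h3 := Nat.le_findGreatest (P := fun y => y ^ 8 ≤ H) h2 h1
      omega
  have hsmall : ∀ n : ℕ, n ^ 8 ≤ H → (n : ℝ) ^ 2 ≤ s := by
    intro n hn
    have h1 : ((n : ℝ) ^ 2) ^ 4 ≤ s ^ 4 := by
      rw [← hs4, ← pow_mul]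
      exact_mod_cast hn
    exact le_of_pow_le_pow_left₀ (by norm_num) hs0.le h1
  obtain ⟨M, m1, m2, m3, m4⟩ := hbv H (by omega) Q (by
    rw [← hℓ]
    calc (Q : ℝ) ^ 2 * ℓ ^ B ≤ s * s ^ 2 := mul_le_mul (hsmall Q hQ1) g3 (by positivity) hs0.le
      _ ≤ H := by rw [hs4]; nlinarith [pow_pos hs0 3])
  rw [← hℓ] at m3 m4
  -- sizes of q e
  have hqe : ∀ e ∈ S, ∀ q ∈ Icc 1 G, 1 ≤ q * e ∧ (q * e) ^ 8 ≤ H ∧ q * e ≤ Q ∧ q * e ≤ H := by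
    intro e he q hq
    rw [mem_Icc] at hq
    obtain ⟨h1, h2, h3⟩ := hS e he
    have he1 : 1 ≤ e := Nat.one_le_iff_ne_zero.2 h1.ne_zero
    have h4 : (q : ℝ) ≤ (H : ℝ) ^ (1 / 16 : ℝ) := by
      have : (q : ℝ) ≤ G := by exact_mod_cast hq.2
      linarith
    have h5 : ((q : ℝ)) ^ 16 ≤ H := by
      calc ((q : ℝ)) ^ 16 ≤ ((H : ℝ) ^ (1 / 16 : ℝ)) ^ 16 := pow_le_pow_left₀ (Nat.cast_nonneg _) h4 16
        _ = H := by rw [← Real.rpow_natCast, ← Real.rpow_mul hH0.le]; norm_num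
    have h6 : q ^ 16 ≤ H := by exact_mod_cast h5
    have h7 : ((q * e) ^ 8) ^ 2 ≤ H ^ 2 := by
      calc ((q * e) ^ 8) ^ 2 = q ^ 16 * e ^ 16 := by ring
        _ ≤ H * H := Nat.mul_le_mul h6 h3
        _ = H ^ 2 := by ring
    have h8 : (q * e) ^ 8 ≤ H := (Nat.pow_le_pow_iff_left (by norm_num)).1 h7
    have h9 : 1 ≤ q * e := Nat.mul_pos hq.1 he1
    refine ⟨h9, h8, ?_, (Nat.le_self_pow (by norm_num) _).trans h8⟩
    by_contra h10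
    have h11 : (Q + 1) ^ 8 ≤ (q * e) ^ 8 := Nat.pow_le_pow_left (by omega) 8
    omega
  have hlam : (0 : ℝ) < ℓ ^ (V + W + 6) := by positivity
  have hq4 : (1 / 4 : ℝ) ^ b ≤ 1 / ℓ ^ (V + W + 4) := by
    refine le_trans ?_ hb2
    exact pow_le_pow_left₀ (by norm_num) (by norm_num) b
  have hzb : (z : ℝ) ^ (2 * (C1 * b)) ≤ s := by
    rw [mul_comm 2, pow_mul]
    calc ((z : ℝ) ^ (C1 * b)) ^ 2 ≤ ((H : ℝ) ^ (1 / 8 : ℝ)) ^ 2 := pow_le_pow_left₀ (by positivity) hb3' 2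
      _ = s := by rw [hs, ← Real.rpow_natCast, ← Real.rpow_mul hH0.le]; norm_num
  have hℓs : ℓ ^ 4 ≤ H := by
    have h1 : ℓ ^ 4 ≤ ℓ ^ (V + W + 6) := pow_le_pow_right₀ hℓ1 (by omega)
    linarith
  obtain ⟨T0, hT0⟩ : ∃ T0, T0 = 144 * (H : ℝ) ^ 2 * ℓ ^ 4 / ℓ ^ (V + W + 6) + 160 * H ^ 2 * ℓ ^ 4 / z + 8 * ℓ ^ 2 * (1 / 4 : ℝ) ^ b * H ^ 2 + 32 * s * H * ℓ ^ 4 := ⟨_, rfl⟩
  have hT00 : 0 ≤ T0 := by rw [hT0]; positivity
  have hone : ∀ e ∈ S, ∀ q ∈ Icc 1 G, vrV v z H q e ≤ 24 * H * ℓ ^ 2 * ℓ ^ (V + W + 6) * M (q * e) + T0 * (((C ^ 2 : ℕ) : ℝ) ^ #(e.primeFactors) / (q * e : ℕ)) := by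
    intro e he q hq
    obtain ⟨h1, h2, h3, h4⟩ := hqe e he q hq
    obtain ⟨h5, h6, _⟩ := hS e he
    have hq' := mem_Icc.1 hq
    have h7 := vrV_one hv C1 z0 hfl b z H q e h5 h6 (by omega) hb1 hzz hz1' hq'.1 h4 (by omega) (by rw [← hℓ]; exact hV) (M (q * e)) (m1 _)
      (m2 _ h1) (by rw [← hℓ]; exact m3 _ h1 h4)
    rw [← hℓ] at h7
    have hCw : (1 : ℝ) ≤ (C : ℝ) ^ #(e.primeFactors) := one_le_pow₀ (by exact_mod_cast hC)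
    have hn : (0 : ℝ) < (q * e : ℕ) := by exact_mod_cast h1
    have hφ : (0 : ℝ) < Nat.totient (q * e) := by exact_mod_cast Nat.totient_pos.2 h1
    have hMn : M (q * e) ≤ 6 * H * ℓ ^ 2 / (q * e : ℕ) := by
      have h8 := m3 _ h1 h4
      have h9 := tot_lower (q * e)
      have h10 := num_pf (q * e) H h1 h4 (by omega)
      rw [← hℓ] at h10
      have h11 : ((q * e : ℕ) : ℝ) ≤ Nat.totient (q * e) * (3 * ℓ) := by
        refine h9.trans ?_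
        apply mul_le_mul_of_nonneg_left _ hφ.le
        linarith
      rw [le_div_iff₀ hφ] at h8
      rw [le_div_iff₀ hn]
      calc M (q * e) * ((q * e : ℕ) : ℝ) ≤ M (q * e) * (Nat.totient (q * e) * (3 * ℓ)) := mul_le_mul_of_nonneg_left h11 (m1 _)
        _ = (M (q * e) * Nat.totient (q * e)) * (3 * ℓ) := by ring
        _ ≤ (2 * H * ℓ) * (3 * ℓ) := mul_le_mul_of_nonneg_right h8 (by positivity)
        _ = _ := by ring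
    have h12 := term_bd ((C : ℝ) ^ #(e.primeFactors)) (((C ^ 2 : ℕ) : ℝ) ^ #(e.primeFactors)) (ℓ ^ (V + W + 6)) (M (q * e)) H (q * e : ℕ) z s ℓ
      ((1 / 4 : ℝ) ^ b) ((z : ℝ) ^ (2 * (C1 * b))) _ hCw (by push_cast; rw [← pow_mul, ← pow_mul, mul_comm]) hlam (m1 _) hMn hn hzr hℓ1 hH0 (by positivity) (by positivity)
      hzb (hsmall _ h2) hsH hs1 h7 hℓs
    rw [← hT0] at h12
    exact h12
  have hsum : ∑ e ∈ S, ∑ q ∈ Icc 1 G, vrV v z H q e ≤ ∑ e ∈ S, ∑ q ∈ Icc 1 G, (24 * H * ℓ ^ 2 * ℓ ^ (V + W + 6) * M (q * e) + T0 * (((C ^ 2 : ℕ) : ℝ) ^ #(e.primeFactors) / (q * e : ℕ))) :=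
    sum_le_sum fun e he => sum_le_sum fun q hq => hone e he q hq
  refine hsum.trans ?_
  simp only [sum_add_distrib, ← mul_sum]
  -- the first sum
  have hs1' : ∑ e ∈ S, ∑ q ∈ Icc 1 G, M (q * e) ≤ ℓ ^ γ * (H / ℓ ^ (γ + 2 + (V + W + 6) + V + 1)) := by
    rw [sum_comm]
    have h1 : ∀ q ∈ Icc 1 G, ∑ e ∈ S, M (q * e) ≤ ∑ n ∈ Icc 1 Q, M n := by
      intro q hq
      have hq' := mem_Icc.1 hq
      have h2 : ∑ e ∈ S, M (q * e) = ∑ n ∈ S.image (fun e => q * e), M n := by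
        rw [sum_image (fun a _ b _ hab => Nat.eq_of_mul_eq_mul_left (by omega) hab)]
      rw [h2]
      apply sum_le_sum_of_subset_of_nonneg
      · intro n hn
        rw [mem_image] at hn
        obtain ⟨e, he, rfl⟩ := hn
        obtain ⟨h1, h2, h3, h4⟩ := hqe e he q hq
        exact mem_Icc.2 ⟨h1, h3⟩
      · intro _ _ _
        exact m1 _
    refine (sum_le_sum h1).trans ?_
    rw [sum_const, Nat.card_Icc, Nat.add_sub_cancel, nsmul_eq_mul]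
    exact mul_le_mul hG m4 (sum_nonneg fun _ _ => m1 _) (by positivity)
  have hs2' : ∑ e ∈ S, ∑ q ∈ Icc 1 G, (((C ^ 2 : ℕ) : ℝ) ^ #(e.primeFactors) / (q * e : ℕ)) ≤ 2 * ℓ * ℓ ^ W := by
    have h1 : ∀ e ∈ S, ∑ q ∈ Icc 1 G, (((C ^ 2 : ℕ) : ℝ) ^ #(e.primeFactors) / (q * e : ℕ)) = (((C ^ 2 : ℕ) : ℝ) ^ #(e.primeFactors) / e) * ∑ q ∈ Icc 1 G, 1 / (q : ℝ) := by
      intro e _
      rw [mul_sum]
      apply sum_congr rfl
      intro q _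
      push_cast
      rw [mul_comm (q : ℝ), div_mul_eq_div_div, mul_one_div]
    rw [sum_congr rfl h1, ← sum_mul, mul_comm]
    have hGH : G ≤ H := by
      have h2 : (G : ℝ) ≤ H := by
        have h3 : (H : ℝ) ^ (1 / 16 : ℝ) ≤ (H : ℝ) ^ (1 : ℝ) := Real.rpow_le_rpow_of_exponent_le (by linarith) (by norm_num)
        rw [Real.rpow_one] at h3
        linarith
      exact_mod_cast h2
    have h2 := sum_inv_le G H hGH (by omega)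
    rw [← hℓ] at h2
    have h3 := hom H (by omega) S (fun e he => ⟨(hS e he).1, (Nat.le_self_pow (by norm_num) e).trans (hS e he).2.2⟩)
    rw [← hℓ] at h3
    exact mul_le_mul h2 h3 (sum_nonneg fun _ _ => by positivity) (by positivity)
  have hT0le : T0 ≤ 344 * H ^ 2 / ℓ ^ (V + W + 2) := by
    have a1 : 144 * (H : ℝ) ^ 2 * ℓ ^ 4 / ℓ ^ (V + W + 6) = 144 * H ^ 2 / ℓ ^ (V + W + 2) := by
      have : ℓ ^ (V + W + 6) = ℓ ^ (V + W + 2) * ℓ ^ 4 := by rw [← pow_add]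
      rw [this]; field_simp
    have a2 : 160 * (H : ℝ) ^ 2 * ℓ ^ 4 / z ≤ 160 * H ^ 2 / ℓ ^ (V + W + 2) := by
      rw [div_le_div_iff₀ hzr (by positivity)]
      have h1 := hℓz (V + W + 6) (by omega)
      calc 160 * (H : ℝ) ^ 2 * ℓ ^ 4 * ℓ ^ (V + W + 2) = 160 * (H : ℝ) ^ 2 * ℓ ^ (V + W + 6) := by rw [mul_assoc, ← pow_add]; ring_nf
        _ ≤ _ := mul_le_mul_of_nonneg_left h1 (by positivity)
    have a3 : 8 * ℓ ^ 2 * (1 / 4 : ℝ) ^ b * (H : ℝ) ^ 2 ≤ 8 * H ^ 2 / ℓ ^ (V + W + 2) := by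
      calc 8 * ℓ ^ 2 * (1 / 4 : ℝ) ^ b * (H : ℝ) ^ 2 ≤ 8 * ℓ ^ 2 * (1 / ℓ ^ (V + W + 4)) * (H : ℝ) ^ 2 := by gcongr
        _ = _ := by
          have : ℓ ^ (V + W + 4) = ℓ ^ (V + W + 2) * ℓ ^ 2 := by rw [← pow_add]
          rw [this]; field_simp
    have a4 : 32 * s * (H : ℝ) * ℓ ^ 4 ≤ 32 * H ^ 2 / ℓ ^ (V + W + 2) := by
      rw [le_div_iff₀ (by positivity)]
      calc 32 * s * (H : ℝ) * ℓ ^ 4 * ℓ ^ (V + W + 2) = 32 * s * H * ℓ ^ (V + W + 6) := by rw [mul_assoc, ← pow_add]; ring_nf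
        _ ≤ 32 * s * H * s := mul_le_mul_of_nonneg_left g4 (by positivity)
        _ = 32 * H * s ^ 2 := by ring
        _ ≤ 32 * H * H := by
          apply mul_le_mul_of_nonneg_left _ (by positivity)
          rw [hs4]
          exact pow_le_pow_right₀ hs1 (by norm_num)
        _ = _ := by ring
    rw [hT0, a1]
    have : 344 * (H : ℝ) ^ 2 / ℓ ^ (V + W + 2) = 144 * H ^ 2 / ℓ ^ (V + W + 2) + 160 * H ^ 2 / ℓ ^ (V + W + 2) + 8 * H ^ 2 / ℓ ^ (V + W + 2) + 32 * H ^ 2 / ℓ ^ (V + W + 2) := by ring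
    rw [this]
    linarith
  calc 24 * H * ℓ ^ 2 * ℓ ^ (V + W + 6) * ∑ e ∈ S, ∑ q ∈ Icc 1 G, M (q * e) + T0 * ∑ e ∈ S, ∑ q ∈ Icc 1 G, (((C ^ 2 : ℕ) : ℝ) ^ #(e.primeFactors) / (q * e : ℕ))
      ≤ 24 * H * ℓ ^ 2 * ℓ ^ (V + W + 6) * (ℓ ^ γ * (H / ℓ ^ (γ + 2 + (V + W + 6) + V + 1))) + (344 * H ^ 2 / ℓ ^ (V + W + 2)) * (2 * ℓ * ℓ ^ W) := by
        apply add_le_add
        · exact mul_le_mul_of_nonneg_left hs1' (by positivity)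
        · exact mul_le_mul hT0le hs2' (sum_nonneg fun _ _ => sum_nonneg fun _ _ => by positivity) (by positivity)
    _ = 712 * (H ^ 2 / ℓ ^ (V + 1)) := by
        have e1 : ℓ ^ (γ + 2 + (V + W + 6) + V + 1) = ℓ ^ γ * ℓ ^ 2 * ℓ ^ (V + W + 6) * ℓ ^ (V + 1) := by
          rw [← pow_add, ← pow_add, ← pow_add]
          congr 1
        have e2 : ℓ ^ (V + W + 2) = ℓ ^ W * ℓ * ℓ ^ (V + 1) := by
          rw [← pow_succ, ← pow_add]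
          congr 1
          omega
        rw [e1, e2]
        field_simp
        ring
    _ ≤ ℓ * (H ^ 2 / ℓ ^ (V + 1)) := mul_le_mul_of_nonneg_right hℓ712 (by positivity)
    _ = H ^ 2 / ℓ ^ V := by
        have e1 : ℓ ^ (V + 1) = ℓ ^ V * ℓ := pow_succ _ _
        rw [e1]
        field_simp

end Pool.Agent.H544.BC
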