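import Mathlib
import Pool.Agent.H544.BC.W3
import Pool.Agent.H544.BC.R1

/-!
The level of distribution with classes which depend on the shift and on the value.
-/

set_option autoImplicit false

namespace Pool.Agent.H544.BC
open Finset Polynomial Filter
open Pool.Agent.H807R2.Dav
open Pool.Agent.H373R2.T7
open Pool.Agent.N913.MT (evt_log_pow evt_log_ge)
open Pool.Agent.H544.LD (cls cls_sum card_cls Sm)

/-- the level of distribution -/
theorem levelV (P : ℤ[X]) (hd : 1 ≤ P.natDegree) (hl : 0 < P.leadingCoeff) (B : ℕ) (U : ℕ) (C D : ℕ) (hC : 1 ≤ C) :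
    ∃ E0 : ℕ, ∀ E : ℕ, ∃ N0 : ℕ, ∀ x : ℕ, N0 ≤ x → ∀ A : ℕ, A ≤ B * x ^ P.natDegree → x ^ P.natDegree ≤ B * A →
    ∀ z : ℕ, Real.log x ^ E0 ≤ z → (z : ℝ) ≤ Real.log x ^ E → ∀ y ≤ x, ∀ (k : ℕ → ℤ → ℤ → ℝ) (v : ℕ → ℤ → ℝ), KerV P C D k v → WV C D v →
    ∀ S : Finset ℕ, (∀ e ∈ S, Squarefree e ∧ (∀ p ∈ e.primeFactors, D < p ∧ ¬ p ∣ P.natDegree * P.leadingCoeff.natAbs) ∧
      e ^ (16 * (P.natDegree + 2)) ≤ x ∧ e ≤ A) →
    ∀ Ψ : ℕ → ℤ → ℤ → ℝ, (∀ e ∈ S, ∀ n c, |Ψ e n c| ≤ KK k e n c) → (∀ e ∈ S, ∀ c, Per e (fun n => Ψ e n c)) →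
    ∑ e ∈ S, (C : ℝ) ^ #(e.primeFactors) * ∑ c ∈ Icc 1 A, |∑ n ∈ Icc 1 y, fpI z (c + P.eval (n : ℤ)) * Ψ e n c| ≤
      x * A / Real.log x ^ U := by
  classical
  obtain ⟨c, m, hc, hone⟩ := one_eV P hd hl D
  set d := P.natDegree with hdd
  obtain ⟨W, N1, hW⟩ := omsum (C ^ 5 + d)
  set g : ℕ := 2 * U + 2 * W + 5 with hg
  set γ : ℕ := g * m + g * (d - 1) + 1 with hγ
  set V : ℕ := 6 * γ + W + 2 * U + 1 with hV
  obtain ⟨E0', hvar⟩ := varV C D V γ hC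
  refine ⟨E0' + 1, fun E => ?_⟩
  obtain ⟨H0, hvar⟩ := hvar (E + 1)
  obtain ⟨N2, hVi⟩ := Vz_inv_small (E + 1)
  set c2 : ℝ := B + cf P + 1 with hc2
  set c3 : ℝ := 1 + (cf P + 1) * B with hc3
  set KL : ℝ := 6 * c2 * (c * 2 ^ m) * 4 + 2 + 96 * ((d : ℝ) + 1) ^ 2 * (1 + c3) + Real.log c2 + ((d : ℝ) + 1) ^ E0' + 24 * c3 with hKL
  obtain ⟨N3, hN3⟩ := eventually_atTop.1 ((evt_log_ge KL).and ((evt_log_pow (1 / 4) (by norm_num) (c * 2 ^ m) (g * m)).and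
    ((evt_log_pow (1 / 4) (by norm_num) 1 (8 * γ)).and (eventually_ge_atTop (N1 + N2 + H0 + 3)))))
  refine ⟨N3, fun x hx A hA1 hA2 z hz1 hz2 y hy k v hk hv S hS Ψ hΨ hΨp => ?_⟩
  obtain ⟨g1, g2, g3, g4⟩ := hN3 x hx
  obtain ⟨L, hL⟩ : ∃ L, L = Real.log x := ⟨_, rfl⟩
  rw [← hL] at g1 g2 g3 hz1 hz2 ⊢
  have hx3 : 3 ≤ x := by omega
  have hx0 : (0 : ℝ) < x := by positivity
  have hx1 : (1 : ℝ) ≤ x := by exact_mod_cast (by omega : 1 ≤ x)
  have hcR : (1 : ℝ) ≤ c := by exact_mod_cast hc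
  have hB1 : 1 ≤ B := by
    rcases Nat.eq_zero_or_pos B with h | h
    · rw [h, zero_mul] at hA2
      have : 0 < x ^ d := by positivity
      omega
    · exact h
  have hA0 : 1 ≤ A := by
    rcases Nat.eq_zero_or_pos A with h | h
    · rw [h, mul_zero] at hA2
      have : 0 < x ^ d := by positivity
      omega
    · exact h
  have hAR : (0 : ℝ) < A := by exact_mod_cast hA0
  have hc20 : 1 ≤ c2 := by
    rw [hc2]
    have : (0 : ℝ) ≤ B := Nat.cast_nonneg _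
    have : (0 : ℝ) ≤ cf P := Nat.cast_nonneg _
    linarith
  have hc30 : 1 ≤ c3 := by
    rw [hc3]
    have : (0 : ℝ) ≤ (cf P + 1) * B := by positivity
    linarith
  have hlc2 : 0 ≤ Real.log c2 := Real.log_nonneg hc20
  have h2m : (1 : ℝ) ≤ c * 2 ^ m := one_le_mul_of_one_le_of_one_le hcR (one_le_pow₀ (by norm_num))
  have hKL1 : 6 * c2 * (c * 2 ^ m) * 4 + 2 ≤ L := by
    refine le_trans ?_ g1
    rw [hKL]
    have : 0 ≤ 96 * ((d : ℝ) + 1) ^ 2 * (1 + c3) := by positivity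
    have : 0 ≤ ((d : ℝ) + 1) ^ E0' := by positivity
    linarith
  have hKL2 : 96 * ((d : ℝ) + 1) ^ 2 * (1 + c3) ≤ L := by
    refine le_trans ?_ g1
    rw [hKL]
    have : 0 ≤ 6 * c2 * (c * 2 ^ m) * 4 + 2 := by positivity
    have : 0 ≤ ((d : ℝ) + 1) ^ E0' := by positivity
    linarith
  have hKL3 : Real.log c2 ≤ L := by
    refine le_trans ?_ g1
    rw [hKL]
    have : 0 ≤ 6 * c2 * (c * 2 ^ m) * 4 + 2 := by positivity
    have : 0 ≤ 96 * ((d : ℝ) + 1) ^ 2 * (1 + c3) := by positivity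
    have : 0 ≤ ((d : ℝ) + 1) ^ E0' := by positivity
    linarith
  have hKL4 : ((d : ℝ) + 1) ^ E0' ≤ L := by
    refine le_trans ?_ g1
    rw [hKL]
    have : 0 ≤ 6 * c2 * (c * 2 ^ m) * 4 + 2 := by positivity
    have : 0 ≤ 96 * ((d : ℝ) + 1) ^ 2 * (1 + c3) := by positivity
    linarith
  have hKL5 : 24 * c3 ≤ L := by
    refine le_trans ?_ g1
    rw [hKL]
    have : 0 ≤ 6 * c2 * (c * 2 ^ m) * 4 + 2 := by positivity
    have : 0 ≤ 96 * ((d : ℝ) + 1) ^ 2 * (1 + c3) := by positivity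
    have : 0 ≤ ((d : ℝ) + 1) ^ E0' := by positivity
    linarith
  have hL24 : 24 ≤ L := by linarith
  have hL0 : 0 < L := by linarith
  have hL1 : 1 ≤ L := by linarith
  -- the length
  obtain ⟨H, hH⟩ : ∃ H : ℕ, H = A + (cf P + 1) * x ^ d := ⟨_, rfl⟩
  have hxH : x ≤ H := by
    have h5 : x ≤ x ^ d := Nat.le_self_pow (by omega) x
    have h6 : x ^ d ≤ (cf P + 1) * x ^ d := Nat.le_mul_of_pos_left _ (by omega)
    rw [hH]
    exact (h5.trans h6).trans (Nat.le_add_left _ _)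
  have hHR0 : (0 : ℝ) < H := by
    have : 0 < H := by omega
    exact_mod_cast this
  have hH1 : (H : ℝ) ≤ c2 * (x : ℝ) ^ d := by
    rw [hH, hc2]
    have : (A : ℝ) ≤ B * (x : ℝ) ^ d := by exact_mod_cast hA1
    push_cast
    linarith
  have hH2 : (H : ℝ) ≤ c3 * A := by
    rw [hH, hc3]
    have : (x : ℝ) ^ d ≤ B * A := by exact_mod_cast hA2
    push_cast
    have h5 : ((cf P : ℝ) + 1) * (x : ℝ) ^ d ≤ (cf P + 1) * (B * A) := mul_le_mul_of_nonneg_left this (by positivity)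
    linarith
  obtain ⟨ℓ, hℓ⟩ : ∃ ℓ, ℓ = Real.log H := ⟨_, rfl⟩
  have hℓ1 : L ≤ ℓ := by
    rw [hL, hℓ]
    exact Real.log_le_log hx0 (by exact_mod_cast hxH)
  have hℓ2 : ℓ ≤ (d + 1) * L := by
    rw [hℓ]
    refine (Real.log_le_log hHR0 hH1).trans ?_
    rw [Real.log_mul (by linarith) (by positivity), Real.log_pow, ← hL]
    linarith
  have hℓ0 : 0 < ℓ := by linarith
  -- the parameters
  obtain ⟨u, hu⟩ : ∃ u, u = L ^ g := ⟨_, rfl⟩
  have hu1 : 1 ≤ u := by rw [hu]; exact one_le_pow₀ hL1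
  obtain ⟨Γ, hΓ⟩ : ∃ Γ, Γ = L ^ γ := ⟨_, rfl⟩
  have hΓ1 : 1 ≤ Γ := by rw [hΓ]; exact one_le_pow₀ hL1
  have h2u : (c : ℝ) * (2 * u) ^ m = c * 2 ^ m * L ^ (g * m) := by
    rw [mul_pow, hu, ← pow_mul]; ring
  have hxd : (0 : ℝ) < (x : ℝ) ^ d := by positivity
  have hxd1 : (x : ℝ) ≤ (x : ℝ) ^ d := by
    calc (x : ℝ) = x ^ 1 := (pow_one _).symm
      _ ≤ x ^ d := pow_le_pow_right₀ hx1 hd
  have hg2 : (c : ℝ) * 2 ^ m * L ^ (g * m) ≤ (x : ℝ) ^ (1 / 4 : ℝ) := g2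
  have hx14 : (x : ℝ) ^ (1 / 4 : ℝ) ≤ x := by
    calc (x : ℝ) ^ (1 / 4 : ℝ) ≤ (x : ℝ) ^ (1 : ℝ) := Real.rpow_le_rpow_of_exponent_le hx1 (by norm_num)
      _ = x := Real.rpow_one _
  have hgΓ : L ^ (g * m) * L ≤ Γ := by
    rw [hΓ, hγ, ← pow_succ]
    exact pow_le_pow_right₀ hL1 (by omega)
  have hη : (c : ℝ) * (2 * u) ^ m / (x : ℝ) ^ d ≤ 1 := by
    rw [div_le_one hxd, h2u]
    linarith
  have hcl : ∀ K : ℝ, 0 ≤ K → K * (c * 2 ^ m) + 1 ≤ L → K * (c * 2 ^ m * L ^ (g * m)) + 1 ≤ Γ := by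
    intro K hK hKL
    refine le_trans ?_ hgΓ
    have h5 : 1 ≤ L ^ (g * m) := one_le_pow₀ hL1
    calc K * (c * 2 ^ m * L ^ (g * m)) + 1 ≤ K * (c * 2 ^ m * L ^ (g * m)) + L ^ (g * m) := by linarith
      _ = L ^ (g * m) * (K * (c * 2 ^ m) + 1) := by ring
      _ ≤ L ^ (g * m) * L := mul_le_mul_of_nonneg_left hKL (by positivity)
  have hηH : c * (2 * u) ^ m / (x : ℝ) ^ d * H ≤ c2 * (c * 2 ^ m * L ^ (g * m)) := by
    rw [h2u, div_mul_eq_mul_div, div_le_iff₀ hxd]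
    calc c * 2 ^ m * L ^ (g * m) * H ≤ c * 2 ^ m * L ^ (g * m) * (c2 * (x : ℝ) ^ d) := by gcongr
      _ = _ := by ring
  obtain ⟨M, hM⟩ : ∃ M : ℕ, M = 2 * H + 1 := ⟨_, rfl⟩
  have hMR : (M : ℝ) = 2 * H + 1 := by rw [hM]; push_cast; ring
  have hH1R : (1 : ℝ) ≤ H := by exact_mod_cast (by omega : 1 ≤ H)
  have hMR0 : (0 : ℝ) < M := by rw [hMR]; linarith
  have hcond1 : 2 * (c * (2 * u) ^ m / (x : ℝ) ^ d) * M + 1 ≤ Γ := by
    have h5 : 2 * (c * (2 * u) ^ m / (x : ℝ) ^ d) * M ≤ 6 * (c2 * (c * 2 ^ m * L ^ (g * m))) := by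
      calc 2 * (c * (2 * u) ^ m / (x : ℝ) ^ d) * M ≤ 2 * (c * (2 * u) ^ m / (x : ℝ) ^ d) * (3 * H) := by
            apply mul_le_mul_of_nonneg_left _ (by positivity)
            rw [hMR]; linarith
        _ = 6 * (c * (2 * u) ^ m / (x : ℝ) ^ d * H) := by ring
        _ ≤ _ := by linarith
    have h6 := hcl (6 * c2) (by positivity) (by nlinarith)
    linarith
  have hcond2 : 1 + 2 * Real.pi * (c * (2 * u) ^ m / (x : ℝ) ^ d) * H ≤ Γ := by
    have h5 : 2 * Real.pi * (c * (2 * u) ^ m / (x : ℝ) ^ d) * H ≤ 8 * (c2 * (c * 2 ^ m * L ^ (g * m))) := by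
      have hpi := Real.pi_lt_four
      have hpi0 := Real.pi_pos
      calc 2 * Real.pi * (c * (2 * u) ^ m / (x : ℝ) ^ d) * H = 2 * Real.pi * (c * (2 * u) ^ m / (x : ℝ) ^ d * H) := by ring
        _ ≤ 8 * (c * (2 * u) ^ m / (x : ℝ) ^ d * H) := by
          apply mul_le_mul_of_nonneg_right _ (by positivity)
          linarith
        _ ≤ _ := by linarith
    have h6 := hcl (8 * c2) (by positivity) (by nlinarith)
    linarith
  have hcond3 : c * (2 * u) ^ m * u ^ (d - 1) ≤ Γ := by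
    rw [h2u, hu, ← pow_mul]
    have h5 : (c : ℝ) * 2 ^ m ≤ L := by nlinarith
    calc c * 2 ^ m * L ^ (g * m) * L ^ (g * (d - 1)) ≤ L * L ^ (g * m) * L ^ (g * (d - 1)) := by gcongr
      _ = L ^ γ := by rw [hγ]; ring
      _ = Γ := hΓ.symm
  -- the model
  have hzH1 : Real.log H ^ E0' ≤ z := by
    rw [← hℓ]
    calc ℓ ^ E0' ≤ ((d + 1) * L) ^ E0' := pow_le_pow_left₀ hℓ0.le hℓ2 _
      _ = (d + 1) ^ E0' * L ^ E0' := mul_pow _ _ _
      _ ≤ L * L ^ E0' := mul_le_mul_of_nonneg_right hKL4 (by positivity)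
      _ = L ^ (E0' + 1) := by ring
      _ ≤ z := hz1
  have hzH2 : (z : ℝ) ≤ Real.log H ^ (E + 1) := by
    rw [← hℓ]
    calc (z : ℝ) ≤ L ^ E := hz2
      _ ≤ L ^ (E + 1) := pow_le_pow_right₀ hL1 (by omega)
      _ ≤ ℓ ^ (E + 1) := pow_le_pow_left₀ hL0.le hℓ1 _
  have hz : 1 ≤ z := by
    have : (1 : ℝ) ≤ z := (one_le_pow₀ hL1).trans hz1
    exact_mod_cast this
  have hVinv : (Vz z)⁻¹ ≤ Real.log H := hVi H (by omega) z hz hzH2
  -- values
  have hval : ∀ a ∈ Icc 1 A, ∀ n ∈ Icc 1 x, |(a : ℤ) + P.eval (n : ℤ)| ≤ H := by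
    intro a ha n hn
    rw [mem_Icc] at ha hn
    have h5 := abs_eval_le P n hn.1
    have h6 : (cf P : ℤ) * (n : ℤ) ^ d ≤ cf P * (x : ℤ) ^ d := by
      apply mul_le_mul_of_nonneg_left _ (by positivity)
      exact_mod_cast Nat.pow_le_pow_left hn.2 d
    have h7 : (0 : ℤ) ≤ (x : ℤ) ^ d := by positivity
    rw [hH]
    push_cast
    calc |(a : ℤ) + P.eval (n : ℤ)| ≤ |(a : ℤ)| + |P.eval (n : ℤ)| := abs_add_le _ _
      _ ≤ A + cf P * (x : ℤ) ^ d := by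
        rw [abs_of_nonneg (by positivity)]
        have : (a : ℤ) ≤ A := by exact_mod_cast ha.2
        linarith
      _ ≤ _ := by linarith
  -- the inner sums
  set Y : ℕ → ℕ → ℝ := fun e s => ∑ a ∈ range e, KK k e a s * ‖Tc (fun n => (fp z n : ℂ)) H (fun n => P.eval (n : ℤ)) y e a s‖ ^ 2 with hY
  have hKn : ∀ e, ∀ a s : ℤ, 0 ≤ KK k e a s := fun e a s => KKV_nonneg hk e a s
  have hY0 : ∀ e s, 0 ≤ Y e s := fun e s => sum_nonneg fun a _ => mul_nonneg (hKn _ _ _) (sq_nonneg _)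
  have hin : ∀ e ∈ S, ∀ s ∈ Icc 1 A, |∑ n ∈ Icc 1 y, fpI z (s + P.eval (n : ℤ)) * Ψ e n s| ≤ √((C : ℝ) ^ #(e.primeFactors) * Y e s) := by
    intro e he s hs
    obtain ⟨he1, he2, he3, he4⟩ := hS e he
    have hepos : 1 ≤ e := Nat.one_le_iff_ne_zero.2 he1.ne_zero
    have h5 : ∑ n ∈ Icc 1 y, fpI z (s + P.eval (n : ℤ)) * Ψ e n s = ∑ a ∈ range e, Ψ e a s * ∑ n ∈ cls y e a, fpI z (s + P.eval (n : ℤ)) := by
      rw [cls_fiber y e hepos (fun n => fpI z (s + P.eval (n : ℤ)) * Ψ e n s)]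
      apply sum_congr rfl
      intro a ha
      rw [mem_range] at ha
      rw [mul_sum]
      apply sum_congr rfl
      intro n hn
      rw [mem_cls] at hn
      have h6 : Ψ e n s = Ψ e a s := by
        apply hΨp e he s
        have := Nat.modEq_iff_dvd.1 (show a ≡ n [MOD e] by rw [Nat.ModEq, hn.2, Nat.mod_eq_of_lt ha])
        exact this
      rw [h6, mul_comm]
    have h6 : ∀ a ∈ range e, |∑ n ∈ cls y e a, fpI z (s + P.eval (n : ℤ))| = ‖Tc (fun n => (fp z n : ℂ)) H (fun n => P.eval (n : ℤ)) y e a s‖ := by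
      intro a _
      rw [← Real.norm_eq_abs, ← Complex.norm_real]
      congr 1
      unfold Tc
      push_cast
      apply sum_congr rfl
      intro n hn
      rw [mem_cls] at hn
      have h7 := abs_le.1 (hval s hs n (mem_Icc.2 ⟨hn.1.1, hn.1.2.trans hy⟩))
      unfold fpI fz
      by_cases h8 : 1 ≤ (s : ℤ) + P.eval (n : ℤ)
      · rw [if_pos h8, if_pos ⟨h8, h7.2⟩]
      · rw [if_neg h8, if_neg (fun h9 => h8 h9.1), Complex.ofReal_zero]
    rw [h5]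
    refine (abs_sum_le_sum_abs _ _).trans ?_
    have h7 : ∀ a ∈ range e, |Ψ e a s * ∑ n ∈ cls y e a, fpI z (s + P.eval (n : ℤ))| ≤
        √(KK k e a s) * (√(KK k e a s) * ‖Tc (fun n => (fp z n : ℂ)) H (fun n => P.eval (n : ℤ)) y e a s‖) := by
      intro a ha
      rw [abs_mul, h6 a ha, ← mul_assoc, Real.mul_self_sqrt (hKn _ _ _)]
      exact mul_le_mul_of_nonneg_right (hΨ e he a s) (norm_nonneg _)
    refine (sum_le_sum h7).trans ?_
    apply Real.le_sqrt_of_sq_le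
    refine (sum_mul_sq_le_sq_mul_sq _ _ _).trans ?_
    apply mul_le_mul
    · refine le_trans (le_of_eq (sum_congr rfl fun a _ => Real.sq_sqrt (hKn e a s))) ?_
      exact KKV_m1 hk e he1 (fun p hp => (he2 p hp).1) s
    · apply le_of_eq
      apply sum_congr rfl
      intro a _
      rw [mul_pow, Real.sq_sqrt (hKn _ _ _)]
    · exact sum_nonneg fun _ _ => sq_nonneg _
    · positivity
  -- Cauchy
  obtain ⟨G, hG⟩ : ∃ G, G = ∑ e ∈ S, (C : ℝ) ^ #(e.primeFactors) * ∑ c ∈ Icc 1 A, |∑ n ∈ Icc 1 y, fpI z (c + P.eval (n : ℤ)) * Ψ e n c| := ⟨_, rfl⟩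
  rw [← hG]
  have hG0 : 0 ≤ G := by rw [hG]; exact sum_nonneg fun _ _ => mul_nonneg (by positivity) (sum_nonneg fun _ _ => abs_nonneg _)
  have hCR : (1 : ℝ) ≤ C := by exact_mod_cast hC
  have hGle : G ≤ ∑ i ∈ S ×ˢ Icc 1 A, √((C : ℝ) ^ (5 * #(i.1.primeFactors)) / i.1) * √(i.1 * Y i.1 i.2 / (C : ℝ) ^ #(i.1.primeFactors)) := by
    rw [hG, sum_product]
    apply sum_le_sum
    intro e he
    rw [mul_sum]
    apply sum_le_sum
    intro s hs
    have he0 : (0 : ℝ) < e := by exact_mod_cast Nat.pos_of_ne_zero (hS e he).1.ne_zero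
    obtain ⟨ω, hω⟩ : ∃ ω, ω = #(e.primeFactors) := ⟨_, rfl⟩
    have h5 := hin e he s hs
    rw [← hω] at h5 ⊢
    have hCω : 1 ≤ (C : ℝ) ^ ω := one_le_pow₀ hCR
    rw [← Real.sqrt_mul (by positivity)]
    calc (C : ℝ) ^ ω * |∑ n ∈ Icc 1 y, fpI z (s + P.eval (n : ℤ)) * Ψ e n s| ≤ (C : ℝ) ^ ω * √((C : ℝ) ^ ω * Y e s) := by gcongr
      _ = √(((C : ℝ) ^ ω) ^ 2 * ((C : ℝ) ^ ω * Y e s)) := by
        rw [Real.sqrt_mul (x := ((C : ℝ) ^ ω) ^ 2) (by positivity), Real.sqrt_sq (by positivity)]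
      _ ≤ √((C : ℝ) ^ (5 * ω) / e * (e * Y e s / (C : ℝ) ^ ω)) := by
        apply Real.sqrt_le_sqrt
        have e1 : (C : ℝ) ^ (5 * ω) / e * (e * Y e s / (C : ℝ) ^ ω) = ((C : ℝ) ^ ω) ^ 2 * ((C : ℝ) ^ ω * Y e s) * (C : ℝ) ^ ω := by
          have : (C : ℝ) ^ (5 * ω) = ((C : ℝ) ^ ω) ^ 5 := by rw [← pow_mul]; ring_nf
          rw [this]
          field_simp
        rw [e1]
        apply le_mul_of_one_le_right _ hCω
        have := hY0 e s
        positivity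
  have hG2 : G ^ 2 ≤ (∑ i ∈ S ×ˢ Icc 1 A, (C : ℝ) ^ (5 * #(i.1.primeFactors)) / i.1) * ∑ i ∈ S ×ˢ Icc 1 A, i.1 * Y i.1 i.2 / (C : ℝ) ^ #(i.1.primeFactors) := by
    refine (pow_le_pow_left₀ hG0 hGle 2).trans ?_
    refine (sum_mul_sq_le_sq_mul_sq _ _ _).trans ?_
    apply le_of_eq
    congr 1
    · apply sum_congr rfl
      intro i _
      rw [Real.sq_sqrt (by positivity)]
    · apply sum_congr rfl
      intro i _
      rw [Real.sq_sqrt (by have := hY0 i.1 i.2; positivity)]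
  have hSx : ∀ e ∈ S, Squarefree e ∧ e ≤ x := by
    intro e he
    obtain ⟨he1, he2, he3, he4⟩ := hS e he
    refine ⟨he1, le_trans (Nat.le_self_pow (by omega) e) he3⟩
  have hWs := hW x (by omega) S hSx
  rw [← hL] at hWs
  have hCd : ((C ^ 5 + d : ℕ) : ℝ) = (C : ℝ) ^ 5 + d := by push_cast; ring
  have hW1 : ∑ e ∈ S, (C : ℝ) ^ (5 * #(e.primeFactors)) / e ≤ L ^ W := by
    refine le_trans (sum_le_sum fun e he => ?_) hWs
    apply div_le_div_of_nonneg_right _ (Nat.cast_nonneg _)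
    rw [pow_mul, hCd]
    apply pow_le_pow_left₀ (by positivity)
    have : (0 : ℝ) ≤ d := Nat.cast_nonneg _
    linarith
  have hW2 : ∑ e ∈ S, (d : ℝ) ^ #(e.primeFactors) / e ≤ L ^ W := by
    refine le_trans (sum_le_sum fun e he => ?_) hWs
    apply div_le_div_of_nonneg_right _ (Nat.cast_nonneg _)
    rw [hCd]
    apply pow_le_pow_left₀ (by positivity)
    have : (0 : ℝ) ≤ (C : ℝ) ^ 5 := by positivity
    linarith
  have hW3 : ∑ e ∈ S, (C : ℝ) ^ #(e.primeFactors) / (e : ℝ) ≤ L ^ W := by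
    refine le_trans (sum_le_sum fun e he => ?_) hWs
    apply div_le_div_of_nonneg_right _ (Nat.cast_nonneg _)
    rw [hCd]
    apply pow_le_pow_left₀ (by positivity)
    have h5 : (C : ℝ) ≤ (C : ℝ) ^ 5 := le_self_pow₀ hCR (by norm_num)
    have : (0 : ℝ) ≤ d := Nat.cast_nonneg _
    linarith
  have hf1 : ∑ i ∈ S ×ˢ Icc 1 A, (C : ℝ) ^ (5 * #(i.1.primeFactors)) / i.1 ≤ A * L ^ W := by
    rw [sum_product]
    simp only [sum_const, Nat.card_Icc, Nat.add_sub_cancel, nsmul_eq_mul]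
    rw [← mul_sum]
    exact mul_le_mul_of_nonneg_left hW1 hAR.le
  have hf2 : ∑ i ∈ S ×ˢ Icc 1 A, i.1 * Y i.1 i.2 / (C : ℝ) ^ #(i.1.primeFactors) ≤
      ∑ e ∈ S, (32 * x ^ 2 * ℓ ^ 2 * A * (d : ℝ) ^ #(e.primeFactors) / (e * u) +
          8 * x ^ 2 * H * ℓ ^ 2 * (C : ℝ) ^ #(e.primeFactors) / (e * u ^ 2) + 16 * x ^ 2 * Γ ^ 5 / M * ∑ q ∈ Icc 1 ⌊Γ⌋₊, vrV v z H q e) := by
    rw [sum_product]
    apply sum_le_sum
    intro e he
    obtain ⟨he1, he2, he3, he4⟩ := hS e he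
    have he0 : (0 : ℝ) < e := by exact_mod_cast Nat.pos_of_ne_zero he1.ne_zero
    have hC0 : (0 : ℝ) < (C : ℝ) ^ #(e.primeFactors) := by positivity
    simp only
    rw [← sum_div, ← mul_sum, div_le_iff₀ hC0]
    have h5 := hone C k v hk hv z H M A x y e u u Γ he1 (fun p hp => (he2 p hp).1) (fun p hp => (he2 p hp).2) hy hu1 (by
      rw [h2u]
      have h6 : (e : ℝ) ^ (d + 1) ≤ (x : ℝ) ^ (1 / 8 : ℝ) := by
        have h7 : ((e : ℝ) ^ (d + 1)) ^ 8 ≤ x := by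
          rw [← pow_mul]
          have : e ^ ((d + 1) * 8) ≤ x := le_trans (Nat.pow_le_pow_right (Nat.pos_of_ne_zero he1.ne_zero) (by omega)) he3
          exact_mod_cast this
        have h8 := Real.pow_rpow_inv_natCast (x := (e : ℝ) ^ (d + 1)) (by positivity) (show (8 : ℕ) ≠ 0 by norm_num)
        rw [← h8]
        have h9 : ((8 : ℕ) : ℝ)⁻¹ = 1 / 8 := by norm_num
        rw [h9]
        exact Real.rpow_le_rpow (by positivity) h7 (by norm_num)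
      have hx1' : (1 : ℝ) < x := by
        have : (3 : ℝ) ≤ x := by exact_mod_cast hx3
        linarith
      calc c * 2 ^ m * L ^ (g * m) * (e : ℝ) ^ (d + 1) ≤ (x : ℝ) ^ (1 / 4 : ℝ) * (x : ℝ) ^ (1 / 8 : ℝ) := by gcongr
        _ = (x : ℝ) ^ (3 / 8 : ℝ) := by rw [← Real.rpow_add hx0]; norm_num
        _ < (x : ℝ) ^ (1 : ℝ) := Real.rpow_lt_rpow_of_exponent_lt hx1' (by norm_num)
        _ = x := Real.rpow_one _) hM hval (by omega) he4 hVinv (by omega) hcond1 hcond2 hcond3 hη hu1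
    rw [← hℓ] at h5
    have h6 : (e : ℝ) * ∑ s ∈ Icc 1 A, Y e s = e * ∑ a ∈ range e, ∑ s ∈ Icc 1 A, KK k e a s * ‖Tc (fun n => (fp z n : ℂ)) H (fun n => P.eval (n : ℤ)) y e a s‖ ^ 2 := by
      rw [hY, sum_comm]
    rw [h6]
    refine (mul_le_mul_of_nonneg_left h5 he0.le).trans (le_of_eq ?_)
    field_simp
  -- the variance
  have hvs : ∑ e ∈ S, ∑ q ∈ Icc 1 ⌊Γ⌋₊, vrV v z H q e ≤ Γ * (H ^ 2 / ℓ ^ V) := by
    have hG : ((⌊Γ⌋₊ : ℕ) : ℝ) ≤ Real.log H ^ γ := by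
      refine (Nat.floor_le (by linarith)).trans ?_
      rw [hΓ, ← hℓ]
      exact pow_le_pow_left₀ hL0.le hℓ1 _
    have hv1 := hvar H (by omega) z hzH1 hzH2 v hv ⌊Γ⌋₊ hG S (by
      intro e he
      obtain ⟨he1, he2, he3, he4⟩ := hS e he
      refine ⟨he1, fun p hp => (he2 p hp).1, ?_⟩
      exact ((Nat.pow_le_pow_right (Nat.pos_of_ne_zero he1.ne_zero) (by omega)).trans he3).trans hxH)
    rw [← hℓ] at hv1
    refine hv1.trans ?_
    exact le_mul_of_one_le_left (by positivity) hΓ1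
  have hLW : (0 : ℝ) < L ^ W := by positivity
  have hf3 : ∑ i ∈ S ×ˢ Icc 1 A, i.1 * Y i.1 i.2 / (C : ℝ) ^ #(i.1.primeFactors) ≤
      32 * x ^ 2 * ℓ ^ 2 * A * L ^ W / u + 8 * x ^ 2 * H * ℓ ^ 2 * L ^ W / u ^ 2 + 16 * x ^ 2 * Γ ^ 5 / M * (Γ * (H ^ 2 / ℓ ^ V)) := by
    refine hf2.trans ?_
    rw [sum_add_distrib, sum_add_distrib, ← mul_sum]
    apply add_le_add (add_le_add _ _) (mul_le_mul_of_nonneg_left hvs (by positivity))
    · calc ∑ e ∈ S, 32 * x ^ 2 * ℓ ^ 2 * A * (d : ℝ) ^ #(e.primeFactors) / (e * u) =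
          32 * x ^ 2 * ℓ ^ 2 * A / u * ∑ e ∈ S, (d : ℝ) ^ #(e.primeFactors) / e := by
            rw [mul_sum]
            apply sum_congr rfl
            intro e _
            ring
        _ ≤ 32 * x ^ 2 * ℓ ^ 2 * A / u * L ^ W := mul_le_mul_of_nonneg_left hW2 (by positivity)
        _ = _ := by ring
    · calc ∑ e ∈ S, 8 * x ^ 2 * H * ℓ ^ 2 * (C : ℝ) ^ #(e.primeFactors) / (e * u ^ 2) = 8 * x ^ 2 * H * ℓ ^ 2 / u ^ 2 * ∑ e ∈ S, (C : ℝ) ^ #(e.primeFactors) / (e : ℝ) := by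
            rw [mul_sum]
            apply sum_congr rfl
            intro e _
            ring
        _ ≤ 8 * x ^ 2 * H * ℓ ^ 2 / u ^ 2 * L ^ W := mul_le_mul_of_nonneg_left hW3 (by positivity)
        _ = _ := by ring
  -- the three terms
  obtain ⟨T, hT⟩ : ∃ T : ℝ, T = x ^ 2 * A / (3 * L ^ W * L ^ (2 * U)) := ⟨_, rfl⟩
  have hdL : ℓ ^ 2 ≤ (d + 1) ^ 2 * L ^ 2 := by
    rw [← mul_pow]
    exact pow_le_pow_left₀ hℓ0.le hℓ2 2
  have ht1 : 32 * x ^ 2 * ℓ ^ 2 * A * L ^ W / u ≤ T := by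
    rw [hT, div_le_div_iff₀ (by rw [hu]; positivity) (by positivity), hu]
    have h5 : L ^ g = L ^ (2 * U) * L ^ W * L ^ W * L ^ 2 * L ^ 3 := by rw [hg]; ring
    rw [h5]
    have h6 : 96 * ((d : ℝ) + 1) ^ 2 ≤ L ^ 3 := by
      have h7 : 96 * ((d : ℝ) + 1) ^ 2 ≤ 96 * ((d : ℝ) + 1) ^ 2 * (1 + c3) := le_mul_of_one_le_right (by positivity) (by linarith)
      have h8 : L ^ 1 ≤ L ^ 3 := pow_le_pow_right₀ hL1 (by norm_num)
      linarith
    calc 32 * (x : ℝ) ^ 2 * ℓ ^ 2 * A * L ^ W * (3 * L ^ W * L ^ (2 * U)) ≤ 32 * (x : ℝ) ^ 2 * ((d + 1) ^ 2 * L ^ 2) * A * L ^ W * (3 * L ^ W * L ^ (2 * U)) := by gcongr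
      _ = (x : ℝ) ^ 2 * A * (L ^ (2 * U) * L ^ W * L ^ W * L ^ 2 * (96 * (d + 1) ^ 2)) := by ring
      _ ≤ _ := by gcongr
  have ht2 : 8 * x ^ 2 * H * ℓ ^ 2 * L ^ W / u ^ 2 ≤ T := by
    rw [hT, div_le_div_iff₀ (by rw [hu]; positivity) (by positivity), hu]
    have h5 : (L ^ g) ^ 2 = L ^ (2 * U) * L ^ W * L ^ W * L ^ 2 * L ^ 3 * L ^ g := by
      have : L ^ (2 * U) * L ^ W * L ^ W * L ^ 2 * L ^ 3 = L ^ g := by rw [hg]; ring
      rw [this]; ring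
    rw [h5]
    have h6 : 24 * c3 * ((d : ℝ) + 1) ^ 2 ≤ L ^ 3 * L ^ g := by
      have h7 : 24 * c3 * ((d : ℝ) + 1) ^ 2 ≤ 96 * ((d : ℝ) + 1) ^ 2 * (1 + c3) := by
        have : 0 ≤ ((d : ℝ) + 1) ^ 2 := by positivity
        nlinarith
      have h8 : L ^ 1 ≤ L ^ 3 := pow_le_pow_right₀ hL1 (by norm_num)
      have h9 : L ^ 3 ≤ L ^ 3 * L ^ g := le_mul_of_one_le_right (by positivity) (one_le_pow₀ hL1)
      linarith
    calc 8 * (x : ℝ) ^ 2 * H * ℓ ^ 2 * L ^ W * (3 * L ^ W * L ^ (2 * U)) ≤ 8 * (x : ℝ) ^ 2 * (c3 * A) * ((d + 1) ^ 2 * L ^ 2) * L ^ W * (3 * L ^ W * L ^ (2 * U)) := by gcongr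
      _ = (x : ℝ) ^ 2 * A * (L ^ (2 * U) * L ^ W * L ^ W * L ^ 2 * (24 * c3 * (d + 1) ^ 2)) := by ring
      _ ≤ (x : ℝ) ^ 2 * A * (L ^ (2 * U) * L ^ W * L ^ W * L ^ 2 * (L ^ 3 * L ^ g)) := by gcongr
      _ = _ := by ring
  have ht3 : 16 * x ^ 2 * Γ ^ 5 / M * (Γ * (H ^ 2 / ℓ ^ V)) ≤ T := by
    have h5 : 16 * (x : ℝ) ^ 2 * Γ ^ 5 / M * (Γ * (H ^ 2 / ℓ ^ V)) ≤ 8 * x ^ 2 * Γ ^ 6 * (c3 * A) / L ^ V := by
      calc 16 * (x : ℝ) ^ 2 * Γ ^ 5 / M * (Γ * (H ^ 2 / ℓ ^ V)) = 16 * x ^ 2 * Γ ^ 6 * H ^ 2 / (M * ℓ ^ V) := by field_simp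
        _ ≤ 16 * x ^ 2 * Γ ^ 6 * H ^ 2 / (2 * H * L ^ V) := by
          apply div_le_div_of_nonneg_left (by positivity) (by positivity)
          apply mul_le_mul _ (pow_le_pow_left₀ hL0.le hℓ1 _) (by positivity) hMR0.le
          rw [hMR]; linarith
        _ = 8 * x ^ 2 * Γ ^ 6 * H / L ^ V := by field_simp; ring
        _ ≤ _ := by gcongr
    refine h5.trans ?_
    rw [hT, div_le_div_iff₀ (by positivity) (by positivity), hΓ]
    have h6 : L ^ V = (L ^ γ) ^ 6 * L ^ W * L ^ (2 * U) * L := by rw [hV, ← pow_mul]; ring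
    rw [h6]
    calc 8 * (x : ℝ) ^ 2 * (L ^ γ) ^ 6 * (c3 * A) * (3 * L ^ W * L ^ (2 * U)) = x ^ 2 * A * ((L ^ γ) ^ 6 * L ^ W * L ^ (2 * U) * (24 * c3)) := by ring
      _ ≤ _ := by gcongr
  have hfin : G ^ 2 ≤ (x * A / L ^ U) ^ 2 := by
    refine hG2.trans ?_
    calc _ ≤ (A * L ^ W) * (T + T + T) := by
          apply mul_le_mul hf1 (hf3.trans (add_le_add (add_le_add ht1 ht2) ht3)) _ (by positivity)
          exact sum_nonneg fun i _ => by have := hY0 i.1 i.2; positivity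
      _ = _ := by
        rw [hT]
        have : L ^ (2 * U) = (L ^ U) ^ 2 := by rw [← pow_mul, mul_comm]
        rw [this]
        field_simp
        ring
  exact (pow_le_pow_iff_left₀ hG0 (by positivity) (by norm_num)).1 hfin


/-- the level of distribution, with an additional fixed modulus -/
theorem levelKV (P : ℤ[X]) (hd : 1 ≤ P.natDegree) (hl : 0 < P.leadingCoeff) (B : ℕ) (U : ℕ) (C D K : ℕ) (hC : 1 ≤ C) (hK : 1 ≤ K)
    (hKD : ∀ p : ℕ, p.Prime → D < p → ¬ p ∣ K) (hPD : ∀ p : ℕ, p.Prime → D < p → ¬ p ∣ P.natDegree * P.leadingCoeff.natAbs) :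
    ∃ E0 : ℕ, ∀ E : ℕ, ∃ N0 : ℕ, ∀ x : ℕ, N0 ≤ x → ∀ A : ℕ, A ≤ B * x ^ P.natDegree → x ^ P.natDegree ≤ B * A →
    ∀ z : ℕ, Real.log x ^ E0 ≤ z → (z : ℝ) ≤ Real.log x ^ E → ∀ y ≤ x, ∀ (k : ℕ → ℤ → ℤ → ℝ) (v : ℕ → ℤ → ℝ), KerV P C D k v → WV C D v →
    ∀ S : Finset ℕ, (∀ e ∈ S, Squarefree e ∧ (∀ p ∈ e.primeFactors, D < p) ∧
      e ^ (16 * (P.natDegree + 2)) ≤ x ∧ e ≤ A) →
    ∀ Ψ : ℕ → ℤ → ℤ → ℝ, (∀ e ∈ S, ∀ n c, |Ψ e n c| ≤ KK k e n c) → (∀ e ∈ S, ∀ c, Per (K * e) (fun n => Ψ e n c)) →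
    ∑ e ∈ S, (C : ℝ) ^ #(e.primeFactors) * ∑ c ∈ Icc 1 A, |∑ n ∈ Icc 1 y, fpI z (c + P.eval (n : ℤ)) * Ψ e n c| ≤
      K * (x * A / Real.log x ^ U) := by
  classical
  have hKz : (K : ℤ) ≠ 0 := by exact_mod_cast (by omega : K ≠ 0)
  have hK0 : (0 : ℤ) < K := by exact_mod_cast hK
  obtain ⟨Pt, hPt⟩ : ∃ Pt : ℕ → ℤ[X], Pt = fun t : ℕ => P.comp (Polynomial.C (K : ℤ) * X + Polynomial.C (-(t : ℤ))) := ⟨_, rfl⟩
  have hev : ∀ t : ℕ, ∀ n : ℤ, (Pt t).eval n = P.eval (-(t : ℤ) + K * n) := by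
    intro t n
    rw [hPt]
    simp only [eval_comp, eval_add, eval_mul, eval_C, eval_X]
    rw [add_comm]
  have hn : ∀ t : ℕ, (Polynomial.C (K : ℤ) * X + Polynomial.C (-(t : ℤ))).natDegree = 1 := fun t => natDegree_linear hKz
  have hlc : ∀ t : ℕ, (Polynomial.C (K : ℤ) * X + Polynomial.C (-(t : ℤ))).leadingCoeff = (K : ℤ) := fun t => leadingCoeff_linear hKz
  have hdeg : ∀ t, (Pt t).natDegree = P.natDegree := by
    intro t
    rw [hPt]
    simp only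
    rw [natDegree_comp, hn, mul_one]
  have hlt : ∀ t, (Pt t).leadingCoeff = P.leadingCoeff * K ^ P.natDegree := by
    intro t
    rw [hPt]
    simp only
    rw [leadingCoeff_comp (by rw [hn]; norm_num), hlc]
  have hl0 : ∀ t, 0 < (Pt t).leadingCoeff := by
    intro t
    rw [hlt]
    positivity
  choose E0 hE0 using fun t : ℕ => levelV (Pt t) (by rw [hdeg]; exact hd) (hl0 t) B U C D hC
  refine ⟨∑ t ∈ range K, E0 t, fun E => ?_⟩
  choose N0 hN0 using fun t : ℕ => hE0 t E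
  obtain ⟨N1, hN1⟩ := eventually_atTop.1 (evt_log_ge 1)
  refine ⟨∑ t ∈ range K, N0 t + N1, fun x hx A hA1 hA2 z hz1 hz2 y hy k v hk hv S hS Ψ hΨ hΨp => ?_⟩
  have hlog := hN1 x (by omega)
  have key : ∀ t ∈ range K, ∑ e ∈ S, (C : ℝ) ^ #(e.primeFactors) * ∑ c ∈ Icc 1 A,
      |∑ m ∈ Icc 1 ((y + t) / K), fpI z (c + P.eval (-(t : ℤ) + K * m)) * Ψ e (-(t : ℤ) + K * m) c| ≤ x * A / Real.log x ^ U := by
    intro t ht
    have h1 : N0 t ≤ ∑ t ∈ range K, N0 t := single_le_sum (f := N0) (fun _ _ => Nat.zero_le _) ht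
    have h2 : E0 t ≤ ∑ t ∈ range K, E0 t := single_le_sum (f := E0) (fun _ _ => Nat.zero_le _) ht
    have ht' := mem_range.1 ht
    have hyt : (y + t) / K ≤ x := by
      have h3 : (y + t) / K < y + 1 := by
        rw [Nat.div_lt_iff_lt_mul (by omega)]
        have : y * 1 ≤ y * K := Nat.mul_le_mul_left _ hK
        have e : (y + 1) * K = y * K + K := by ring
        omega
      omega
    have h3 := hN0 t x (by omega) A (by rw [hdeg]; exact hA1) (by rw [hdeg]; exact hA2) z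
      ((pow_le_pow_right₀ hlog h2).trans hz1) hz2 ((y + t) / K) hyt (fun p n c => k p (-(t : ℤ) + K * n) c) v (by
        refine ⟨fun p n c => hk.nn _ _ _, ?_, ?_, ?_, ?_, ?_⟩
        · intro p c a b hab
          apply hk.per1 p c
          have e : -(t : ℤ) + K * a - (-(t : ℤ) + K * b) = K * (a - b) := by ring
          rw [e]
          exact hab.mul_left _
        · intro p n a b hab
          exact hk.per2 p (-(t : ℤ) + K * n) a b hab
        · intro p hp hD c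
          have h4 := sum_shift p K hp.one_le ((hp.coprime_iff_not_dvd.2 (hKD p hp hD)).symm) (fun n => k p n c) (hk.per1 p c) (-(t : ℤ))
          rw [h4]
          exact hk.m1 p hp hD c
        · intro p hp hD n
          exact hk.m2 p hp hD (-(t : ℤ) + K * n)
        · intro p hp hD l
          have hper : Per p (fun n => k p n (l - P.eval n)) := by
            intro a b hab
            have h1 : (p : ℤ) ∣ P.eval a - P.eval b := hab.trans (Polynomial.sub_dvd_eval_sub _ _ _)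
            show k p a (l - P.eval a) = k p b (l - P.eval b)
            have h2 : k p a (l - P.eval a) = k p b (l - P.eval a) := hk.per1 p (l - P.eval a) a b hab
            rw [h2]
            apply hk.per2 p b
            have e1 : l - P.eval a - (l - P.eval b) = -(P.eval a - P.eval b) := by ring
            rw [e1]
            exact (dvd_neg).2 h1
          have h4 := sum_shift p K hp.one_le ((hp.coprime_iff_not_dvd.2 (hKD p hp hD)).symm) (fun n => k p n (l - P.eval n)) hper (-(t : ℤ))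
          refine le_of_eq_of_le ?_ (hk.m3 p hp hD l)
          rw [← h4]
          apply sum_congr rfl
          intro n _
          show k p (-(t : ℤ) + K * n) (l - (Pt t).eval (n : ℤ)) = _
          rw [hev])
      hv S (by
        intro e he
        obtain ⟨h4, h5, h6, h7⟩ := hS e he
        refine ⟨h4, fun p hp => ⟨h5 p hp, ?_⟩, by rw [hdeg]; exact h6, h7⟩
        have hpp := Nat.prime_of_mem_primeFactors hp
        rw [hdeg, hlt, Int.natAbs_mul, Int.natAbs_pow, Int.natAbs_natCast, ← mul_assoc]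
        intro h8
        rcases hpp.dvd_mul.1 h8 with h9 | h9
        · exact hPD p hpp (h5 p hp) h9
        · exact hKD p hpp (h5 p hp) (hpp.dvd_of_dvd_pow h9))
      (fun e n c => Ψ e (-(t : ℤ) + K * n) c) (fun e he n c => hΨ e he _ c) (by
        intro e he c a b hab
        apply hΨp e he c
        have e : -(t : ℤ) + K * a - (-(t : ℤ) + K * b) = K * (a - b) := by ring
        rw [e]
        push_cast
        exact mul_dvd_mul_left _ hab)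
    refine le_of_eq_of_le ?_ h3
    apply sum_congr rfl
    intro e _
    congr 1
    apply sum_congr rfl
    intro c _
    congr 1
    apply sum_congr rfl
    intro m _
    rw [hev]
  calc ∑ e ∈ S, (C : ℝ) ^ #(e.primeFactors) * ∑ c ∈ Icc 1 A, |∑ n ∈ Icc 1 y, fpI z (c + P.eval (n : ℤ)) * Ψ e n c|
      ≤ ∑ e ∈ S, (C : ℝ) ^ #(e.primeFactors) * ∑ c ∈ Icc 1 A, ∑ t ∈ range K,
        |∑ m ∈ Icc 1 ((y + t) / K), fpI z (c + P.eval (-(t : ℤ) + K * m)) * Ψ e (-(t : ℤ) + K * m) c| := by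
        apply sum_le_sum
        intro e _
        apply mul_le_mul_of_nonneg_left _ (by positivity)
        apply sum_le_sum
        intro c _
        rw [split_K K y hK (fun n => fpI z (c + P.eval n) * Ψ e n c)]
        exact abs_sum_le_sum_abs _ _
    _ = ∑ t ∈ range K, ∑ e ∈ S, (C : ℝ) ^ #(e.primeFactors) * ∑ c ∈ Icc 1 A,
        |∑ m ∈ Icc 1 ((y + t) / K), fpI z (c + P.eval (-(t : ℤ) + K * m)) * Ψ e (-(t : ℤ) + K * m) c| := by
        rw [sum_comm]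
        apply sum_congr rfl
        intro e _
        rw [← mul_sum, sum_comm]
    _ ≤ ∑ t ∈ range K, x * A / Real.log x ^ U := sum_le_sum key
    _ = _ := by rw [sum_const, card_range, nsmul_eq_mul]


end Pool.Agent.H544.BC
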