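import Mathlib
import Pool.Agent.H544.BC.W4
import Pool.Agent.H544.BC.R7

/-!
Prime values along sifted arguments, for almost all shifts: general families of sifting polynomials.
-/

set_option autoImplicit false

namespace Pool.Agent.H544.BC
open Finset Polynomial
open Pool.Agent.H373R2.T7 (pz Vz mem_pz Vz_pos Vz_le_one lamzI lamz lamP lamP_nonneg JJ JJ_lt JJ_le JJ_pow Vz_low Vz_inv_small)
open Pool.Agent.H544.LD (cls om Gz Gz_nonneg Gz_le_one fac_nn fac_le_one om_fixed om_shift om_le dvd_eval_iff markov om_lt)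
open Pool.Agent.N913.MT (evt_log_pow evt_log_ge)

open Classical in
/-- the kernel of the sifting polynomials -/
noncomputable def kg (H : ℤ → ℤ[X]) (p : ℕ) (n c : ℤ) : ℝ := if (p : ℤ) ∣ (H c).eval n then 1 else 0

/-- the data of the family -/
structure GS (P : ℤ[X]) (H : ℤ → ℤ[X]) (κ z0 : ℕ) (v : ℕ → ℤ → ℝ) : Prop where
  hd : 1 ≤ P.natDegree
  hl : 0 < P.leadingCoeff
  b0 : P.natDegree ≤ κ
  p0 : ∀ p : ℕ, p.Prime → z0 < p → ¬ p ∣ P.natDegree * P.leadingCoeff.natAbs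
  dv : ∀ (p : ℕ) (n n' c c' : ℤ), (p : ℤ) ∣ n - n' → (p : ℤ) ∣ c - c' → ((p : ℤ) ∣ (H c).eval n ↔ (p : ℤ) ∣ (H c').eval n')
  oH : ∀ c : ℤ, ∀ p : ℕ, p.Prime → z0 < p → om (H c) p ≤ κ
  m2 : ∀ p : ℕ, p.Prime → z0 < p → ∀ n : ℤ, #((range p).filter (fun c : ℕ => (p : ℤ) ∣ (H (c : ℤ)).eval n)) ≤ κ
  m3 : ∀ p : ℕ, p.Prime → z0 < p → ∀ l : ℤ, (#((range p).filter (fun n : ℕ => (p : ℤ) ∣ (H (l - P.eval (n : ℤ))).eval (n : ℤ))) : ℝ) ≤ κ * v p l
  w : WV κ z0 v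

variable {P : ℤ[X]} {H : ℤ → ℤ[X]} {κ z0 : ℕ} {v : ℕ → ℤ → ℝ}

lemma GS.omG (h : GS P H κ z0 v) (c : ℤ) (p : ℕ) (hp : p.Prime) (hz : z0 < p) : om (Gp0 P c) p ≤ κ := by
  unfold om Gp0
  refine (roots_mod (C c + P) p hp P.natDegree ?_).trans ?_
  · have h1 := h.hd
    rw [coeff_add, coeff_C, if_neg (by omega), zero_add]
    intro h2
    apply h.p0 p hp hz
    apply Dvd.dvd.mul_left
    rw [leadingCoeff]
    exact Int.natCast_dvd.1 h2
  · rw [natDegree_C_add]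
    exact h.b0

lemma GS.ker (h : GS P H κ z0 v) : KerV P κ z0 (kg H) v := by
  classical
  have hsum : ∀ (p : ℕ) (a b : ℕ → ℤ), ∑ n ∈ range p, kg H p (a n) (b n) = (#((range p).filter (fun n : ℕ => (p : ℤ) ∣ (H (b n)).eval (a n))) : ℝ) := by
    intro p a b
    unfold kg
    rw [← sum_filter, sum_const, nsmul_eq_mul, mul_one]
  refine ⟨?_, ?_, ?_, ?_, ?_, ?_⟩
  · intro p n c
    unfold kg
    split_ifs <;> norm_num
  · intro p c a b hab
    unfold kg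
    simp only [h.dv p a b c c hab (by simp)]
  · intro p n a b hab
    unfold kg
    simp only [h.dv p n n a b (by simp) hab]
  · intro p hp hz c
    rw [hsum p (fun n => (n : ℤ)) (fun _ => c)]
    have h1 := h.oH c p hp hz
    unfold om at h1
    exact_mod_cast h1
  · intro p hp hz n
    rw [hsum p (fun _ => n) (fun c => (c : ℤ))]
    exact_mod_cast h.m2 p hp hz n
  · intro p hp hz l
    rw [hsum p (fun n => (n : ℤ)) (fun n => l - P.eval (n : ℤ))]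
    exact h.m3 p hp hz l

open Classical in
/-- the weights of the moduli -/
noncomputable def psg (H : ℤ → ℤ[X]) (z0 e : ℕ) (n c : ℤ) : ℝ :=
  if ∀ p ∈ pz z0, ¬ (p : ℤ) ∣ (H c).eval n then KK (kg H) e n c else 0

lemma psg_le (H : ℤ → ℤ[X]) (z0 e : ℕ) (n c : ℤ) : |psg H z0 e n c| ≤ KK (kg H) e n c := by
  have h0 : 0 ≤ KK (kg H) e n c := prod_nonneg fun p _ => by unfold kg; split_ifs <;> norm_num
  unfold psg
  split_ifs
  · rw [abs_of_nonneg h0]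
  · rw [abs_zero]; exact h0

lemma psg_per (H : ℤ → ℤ[X]) (hdv : ∀ (p : ℕ) (n n' c c' : ℤ), (p : ℤ) ∣ n - n' → (p : ℤ) ∣ c - c' → ((p : ℤ) ∣ (H c).eval n ↔ (p : ℤ) ∣ (H c').eval n'))
    (z0 e : ℕ) (c : ℤ) : Per ((∏ p ∈ pz z0, p) * e) (fun n => psg H z0 e n c) := by
  intro a b hab
  have h1 : ∀ p ∈ pz z0, (p : ℤ) ∣ a - b := by
    intro p hp
    refine dvd_trans ?_ hab
    apply Int.natCast_dvd_natCast.2
    exact (dvd_prod_of_mem _ hp).mul_right _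
  have h2 : ∀ p ∈ e.primeFactors, (p : ℤ) ∣ a - b := by
    intro p hp
    refine dvd_trans ?_ hab
    apply Int.natCast_dvd_natCast.2
    exact (Nat.dvd_of_mem_primeFactors hp).mul_left _
  have h3 : KK (kg H) e a c = KK (kg H) e b c := by
    unfold KK
    apply prod_congr rfl
    intro p hp
    unfold kg
    simp only [hdv p a b c c (h2 p hp) (by simp)]
  have h4 : (∀ p ∈ pz z0, ¬ (p : ℤ) ∣ (H c).eval a) ↔ (∀ p ∈ pz z0, ¬ (p : ℤ) ∣ (H c).eval b) := by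
    constructor
    · intro h p hp h5
      exact h p hp ((hdv p a b c c (h1 p hp) (by simp)).2 h5)
    · intro h p hp h5
      exact h p hp ((hdv p a b c c (h1 p hp) (by simp)).1 h5)
  show psg H z0 e a c = psg H z0 e b c
  unfold psg
  simp only [h3, h4]

/-- the differences, as sums with periodic weights -/
lemma DTg_eq (P : ℤ[X]) (H : ℤ → ℤ[X]) (z0 z x : ℕ) (T : Finset ℕ) (hT : ∀ p ∈ T, p.Prime) (c : ℤ) :
    DT (Gp0 P c) (H c) z0 z x T = |∑ n ∈ Icc 1 x, fpI z (c + P.eval (n : ℤ)) * psg H z0 (∏ p ∈ T, p) n c| := by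
  classical
  unfold DT
  rw [sum_filter]
  congr 1
  apply sum_congr rfl
  intro n _
  rw [Gp0_eval, ← fpI_eq]
  unfold psg KK
  rw [Nat.primeFactors_prod hT]
  by_cases h1 : ∀ p ∈ pz z0, ¬ (p : ℤ) ∣ (H c).eval (n : ℤ)
  · rw [if_pos h1]
    by_cases h2 : ∀ p ∈ T, (p : ℤ) ∣ (H c).eval (n : ℤ)
    · rw [if_pos ⟨h1, h2⟩]
      have : ∏ p ∈ T, kg H p n c = 1 := by
        apply prod_eq_one
        intro p hp
        unfold kg
        rw [if_pos (h2 p hp)]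
      rw [this, mul_one]
    · rw [if_neg (fun h => h2 h.2)]
      push Not at h2
      obtain ⟨p, hp, hp'⟩ := h2
      have : ∏ p ∈ T, kg H p n c = 0 := by
        apply prod_eq_zero hp
        unfold kg
        rw [if_neg hp']
      rw [this, mul_zero]
  · rw [if_neg h1, if_neg (fun h => h1 h.1), mul_zero]

/-- the sum over the moduli -/
noncomputable def EG (P : ℤ[X]) (H : ℤ → ℤ[X]) (z0 z x : ℕ) (S : Finset ℕ) (c : ℕ) : ℝ :=
  ∑ e ∈ S, |∑ n ∈ Icc 1 x, fpI z (c + P.eval (n : ℤ)) * psg H z0 e n c|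

lemma EG_nonneg (P : ℤ[X]) (H : ℤ → ℤ[X]) (z0 z x : ℕ) (S : Finset ℕ) (c : ℕ) : 0 ≤ EG P H z0 z x S c :=
  sum_nonneg fun _ _ => abs_nonneg _

/-- the exceptional set -/
theorem exg_set (h : GS P H κ z0 v) (hκ : 1 ≤ κ) (B U V : ℕ) :
    ∃ E0 : ℕ, ∀ E : ℕ, ∃ N0 : ℕ, ∀ x : ℕ, N0 ≤ x → ∀ A : ℕ, A ≤ B * x ^ P.natDegree → x ^ P.natDegree ≤ B * A →
    ∀ z : ℕ, Real.log x ^ E0 ≤ z → (z : ℝ) ≤ Real.log x ^ E →
    ∀ S : Finset ℕ, (∀ e ∈ S, Squarefree e ∧ (∀ p ∈ e.primeFactors, z0 < p) ∧ e ^ (16 * (P.natDegree + 2)) ≤ x ∧ e ≤ A) →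
    ∃ Bad ⊆ Icc 1 A, (#Bad : ℝ) ≤ A / Real.log x ^ U ∧ ∀ c ∈ Icc 1 A, c ∉ Bad → EG P H z0 z x S c ≤ x / Real.log x ^ V := by
  classical
  obtain ⟨K, hK⟩ : ∃ K, K = ∏ p ∈ pz z0, p := ⟨_, rfl⟩
  have hK1 : 1 ≤ K := by
    rw [hK]
    exact Finset.prod_pos fun p hp => (mem_pz.1 hp).2.pos
  obtain ⟨E0, hE0⟩ := levelKV P h.hd h.hl B (U + V + 1) κ z0 K hκ hK1 (by
    intro p hp hz hd
    rw [hK, hp.prime.dvd_finsetProd_iff] at hd
    obtain ⟨q, hq, hpq⟩ := hd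
    have := (Nat.prime_dvd_prime_iff_eq hp (mem_pz.1 hq).2).1 hpq
    have := (mem_pz.1 hq).1
    omega) h.p0
  refine ⟨E0, fun E => ?_⟩
  obtain ⟨N0, hN0⟩ := hE0 E
  obtain ⟨N1, hN1⟩ := Filter.eventually_atTop.1 (evt_log_ge ((K : ℝ) + 1))
  refine ⟨N0 + N1 + 1, fun x hx A hA1 hA2 z hz1 hz2 S hS => ?_⟩
  have hL := hN1 x (by omega)
  have hx0 : (0 : ℝ) < x := by exact_mod_cast (by omega : 0 < x)
  have hKr : (1 : ℝ) ≤ K := by exact_mod_cast hK1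
  obtain ⟨L, hLd⟩ : ∃ L, L = Real.log x := ⟨_, rfl⟩
  rw [← hLd] at hL
  have hL1 : 1 ≤ L := by linarith
  have hL0 : 0 < L := by linarith
  have h1 := hN0 x (by omega) A hA1 hA2 z hz1 hz2 x le_rfl (kg H) v h.ker h.w S hS (psg H z0) (fun e _ n c => psg_le H z0 e n c)
    (fun e _ c => by rw [hK]; exact psg_per H h.dv z0 e c)
  rw [← hLd] at h1 ⊢
  have h2 : ∑ c ∈ Icc 1 A, EG P H z0 z x S c ≤ K * (x * A / L ^ (U + V + 1)) := by
    refine le_trans ?_ h1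
    unfold EG
    rw [sum_comm]
    apply sum_le_sum
    intro e _
    apply le_mul_of_one_le_left (sum_nonneg fun _ _ => abs_nonneg _)
    apply one_le_pow₀
    exact_mod_cast hκ
  have h3 := markov (Icc 1 A) (fun c => EG P H z0 z x S c) (fun c => EG_nonneg P H z0 z x S c) _ (x / L ^ V) (by positivity) h2
  refine ⟨_, filter_subset _ _, h3.trans ?_, ?_⟩
  · rw [div_le_div_iff₀ (by positivity) (by positivity)]
    have h4 : (K : ℝ) * (x * A / L ^ (U + V + 1)) * L ^ U = x * A / L ^ V * (K / L) := by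
      rw [pow_add, pow_add, pow_one]
      field_simp
    rw [h4]
    have h5 : (K : ℝ) / L ≤ 1 := by
      rw [div_le_one hL0]
      linarith
    calc (x : ℝ) * A / L ^ V * (K / L) ≤ x * A / L ^ V * 1 := mul_le_mul_of_nonneg_left h5 (by positivity)
      _ = A * (x / L ^ V) := by ring
  · intro c hc hcB
    rw [mem_filter, not_and] at hcB
    exact not_lt.1 (hcB hc)

end Pool.Agent.H544.BC
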