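import Mathlib
import Pool.Agent.H544.BC.W5

/-!
Prime values along sifted arguments, for almost all shifts: the theorem for general families.
-/

set_option autoImplicit false

namespace Pool.Agent.H544.BC
open Finset Polynomial
open Pool.Agent.H373R2.T7 (pz Vz mem_pz Vz_pos Vz_le_one lamzI lamz lamP lamP_nonneg JJ JJ_lt JJ_le JJ_pow Vz_low Vz_inv_small)
open Pool.Agent.H544.LD (cls om Gz Gz_nonneg Gz_le_one fac_nn fac_le_one om_fixed om_shift om_le dvd_eval_iff markov om_lt)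
open Pool.Agent.N913.MT (evt_log_pow evt_log_ge)

lemma GS.mono {P : ℤ[X]} {H : ℤ → ℤ[X]} {κ z0 : ℕ} {v : ℕ → ℤ → ℝ} (h : GS P H κ z0 v) {z1 : ℕ} (hz : z0 ≤ z1) : GS P H κ z1 v where
  hd := h.hd
  hl := h.hl
  b0 := h.b0
  p0 := fun p hp hz' => h.p0 p hp (by omega)
  dv := h.dv
  oH := fun c p hp hz' => h.oH c p hp (by omega)
  m2 := fun p hp hz' => h.m2 p hp (by omega)
  m3 := fun p hp hz' => h.m3 p hp (by omega)
  w := ⟨h.w.nn, h.w.per, fun p hp hz' => h.w.s p hp (by omega), fun p hp hz' => h.w.z p hp (by omega)⟩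

/-- the theorem for general families -/
theorem main_asG (P : ℤ[X]) (H : ℤ → ℤ[X]) (κ z00 : ℕ) (v : ℕ → ℤ → ℝ) (hκ : 1 ≤ κ) (hg : GS P H κ z00 v) :
    ∃ C : ℕ, 1 ≤ C ∧ ∀ B U : ℕ, ∃ E0 : ℕ, ∀ E : ℕ, ∃ x0 : ℕ, ∀ x : ℕ, x0 ≤ x → ∀ A : ℕ,
    A ≤ B * x ^ P.natDegree → x ^ P.natDegree ≤ B * A →
    ∀ z : ℕ, Real.log x ^ E0 ≤ z → (z : ℝ) ≤ Real.log x ^ E →
    ∃ Bad ⊆ Icc 1 A, (#Bad : ℝ) ≤ A / Real.log x ^ U ∧ ∀ c ∈ Icc 1 A, c ∉ Bad →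
      (∀ p : ℕ, p.Prime → om (Gp0 P c * H c) p < p) → ∀ b y : ℕ, 1 ≤ b → z ≤ y → y ^ (C * b) ≤ x →
      |SP (Gp0 P c) (H c) y x - x * SS (Gp0 P c) (H c) z y| ≤
        ((1 / 2 : ℝ) ^ b + 1 / Real.log x ^ U) * (x * SS (Gp0 P c) (H c) z y) := by
  classical
  have hd := hg.hd
  have hl := hg.hl
  obtain ⟨d, hdd⟩ : ∃ d, d = P.natDegree := ⟨_, rfl⟩
  obtain ⟨C0, C1, z1, hC0, hC1, hz1, hsift⟩ := sift κ
  obtain ⟨z0, hz0⟩ : ∃ z0, z0 = C0 + 4 * κ + z00 := ⟨_, rfl⟩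
  have hsy : GS P H κ z0 v := hg.mono (by omega)
  obtain ⟨V0, Nl, hlow⟩ := SS_low κ z0 (by omega)
  obtain ⟨W, No, hom⟩ := omsum κ
  obtain ⟨n1, hn1⟩ := val_ge P hd hl
  obtain ⟨Λ, hΛ⟩ : ∃ Λ, Λ = 16 * (d + 2) := ⟨_, rfl⟩
  obtain ⟨K, hK⟩ : ∃ K, K = ∏ p ∈ pz z0, p := ⟨_, rfl⟩
  refine ⟨2 * C0 * (1 + C0) * Λ, Nat.mul_pos (Nat.mul_pos (by omega) (by omega)) (by omega), fun B U => ?_⟩
  obtain ⟨V, hV⟩ : ∃ V, V = U + V0 := ⟨_, rfl⟩
  obtain ⟨E0, hex⟩ := exg_set hsy hκ B U (V + 2)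
  refine ⟨E0 + 1, fun E => ?_⟩
  obtain ⟨Ne, hex⟩ := hex E
  obtain ⟨Nb, hbch⟩ := bch C1 E (V + W + 3) (1 / 8) (by norm_num)
  obtain ⟨Nv, hvi⟩ := Vz_inv_small E
  obtain ⟨N3, hN3⟩ := Filter.eventually_atTop.1 ((evt_log_ge (7 + 6 * (K : ℝ) + z0 + z1)).and
    (evt_log_pow (1 / 2) (by norm_num) (6 * ((K : ℝ) + n1)) (V + W + 3)))
  refine ⟨Nl + No + Ne + Nb + Nv + N3 + B ^ 2 + 2, fun x hx A hA1 hA2 z hz1' hz2 => ?_⟩
  obtain ⟨g1, g2⟩ := hN3 x (by omega)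
  obtain ⟨L, hLd⟩ : ∃ L, L = Real.log x := ⟨_, rfl⟩
  have hx1 : 1 ≤ x := by omega
  have hx1r : (1 : ℝ) ≤ x := by exact_mod_cast hx1
  have hx0 : (0 : ℝ) < x := by linarith
  have hKr : (0 : ℝ) ≤ K := Nat.cast_nonneg _
  have hz0r : (0 : ℝ) ≤ z0 := Nat.cast_nonneg _
  have hz1r : (0 : ℝ) ≤ z1 := Nat.cast_nonneg _
  have hL1 : 1 ≤ L := by rw [hLd]; linarith
  have hL0 : 0 < L := by linarith
  -- the set of moduli
  obtain ⟨S, hS⟩ : ∃ S : Finset ℕ, S = (Icc 1 x).filter (fun e => Squarefree e ∧ (∀ p ∈ e.primeFactors, z0 < p) ∧ e ^ Λ ≤ x) := ⟨_, rfl⟩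
  have hB0 : 0 < B := by
    rcases Nat.eq_zero_or_pos B with h | h
    · rw [h, zero_mul] at hA2
      have : 0 < x ^ P.natDegree := by positivity
      omega
    · exact h
  have hSA : ∀ e ∈ S, Squarefree e ∧ (∀ p ∈ e.primeFactors, z0 < p) ∧ e ^ (16 * (P.natDegree + 2)) ≤ x ∧ e ≤ A := by
    intro e he
    rw [hS, mem_filter, mem_Icc] at he
    obtain ⟨⟨he1, _⟩, he2, he3, he4⟩ := he
    refine ⟨he2, he3, by rw [← hdd, ← hΛ]; exact he4, ?_⟩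
    have h1 : e ^ 2 ≤ x := (Nat.pow_le_pow_right he1 (by omega)).trans he4
    have h2 : (B * e) ^ 2 ≤ x ^ 2 := by
      rw [mul_pow, sq x]
      exact Nat.mul_le_mul (by omega) h1
    have h3 : B * e ≤ x := (Nat.pow_le_pow_iff_left (by norm_num)).1 h2
    have h4 : x ≤ x ^ P.natDegree := Nat.le_self_pow (by omega) x
    exact Nat.le_of_mul_le_mul_left (h3.trans (h4.trans hA2)) hB0
  have hz1L : Real.log x ^ E0 ≤ z := by
    refine le_trans ?_ hz1'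
    rw [← hLd]
    exact pow_le_pow_right₀ hL1 (by omega)
  obtain ⟨Bad, hB1, hB2, hB3⟩ := hex x (by omega) A hA1 hA2 z hz1L hz2 S hSA
  refine ⟨Bad, hB1, hB2, fun c hc hcB hadm b y hb hzy hyx => ?_⟩
  have hES := hB3 c hc hcB
  obtain ⟨b1, hb1, hb2, hb3⟩ := hbch x (by omega)
  have hzL : L ≤ z := by
    rw [← hLd] at hz1'
    refine le_trans ?_ hz1'
    have := pow_le_pow_right₀ hL1 (show 1 ≤ E0 + 1 by omega)
    rwa [pow_one] at this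
  have hzz : z0 + z1 ≤ z := by
    have h1 : ((z0 + z1 : ℕ) : ℝ) ≤ z := by
      push_cast
      rw [← hLd] at g1
      linarith
    exact_mod_cast h1
  have hCb : 1 ≤ 2 * C0 * (1 + C0) * Λ * b := Nat.mul_pos (Nat.mul_pos (Nat.mul_pos (by omega) (by omega)) (by omega)) hb
  have hyx' : y ≤ x := (Nat.le_self_pow (by omega) y).trans hyx
  have hvi' := hvi x (by omega) z (by omega) hz2
  -- the level
  obtain ⟨D, hD⟩ : ∃ D, D = (y ^ 2) ^ (C0 * (b + C0)) := ⟨_, rfl⟩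
  have hDx : D ^ Λ ≤ x := by
    refine le_trans ?_ hyx
    rw [hD, ← pow_mul, ← pow_mul]
    apply Nat.pow_le_pow_right (by omega)
    have h1 : b + C0 ≤ (1 + C0) * b := by nlinarith
    calc 2 * (C0 * (b + C0) * Λ) = 2 * C0 * Λ * (b + C0) := by ring
      _ ≤ 2 * C0 * Λ * ((1 + C0) * b) := Nat.mul_le_mul_left _ h1
      _ = 2 * C0 * (1 + C0) * Λ * b := by ring
  have h0 := hsift (Gp0 P c) (H c) n1 z0 (by
      unfold Gp0
      rw [natDegree_C_add]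
      exact hg.b0) (by
      intro n hn
      rw [Gp0_eval]
      have h1 := hn1 n hn
      have h2 := (mem_Icc.1 hc).1
      omega) (by omega) (fun p hp hz => ⟨hsy.omG c p hp hz, hsy.oH c p hp hz⟩) z y (by omega) (by omega) hzy (b + C0) b1
      (by omega) hb1 x
  rw [← hD] at h0
  obtain ⟨M, hM⟩ : ∃ M, M = (x : ℝ) * SS (Gp0 P c) (H c) z y := ⟨_, rfl⟩
  rw [← hM] at h0 ⊢
  have hM0 : 0 ≤ M := by rw [hM]; exact mul_nonneg hx0.le (SS_nonneg _ _ _ _)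
  have hPp : ∀ p ∈ (pz y).filter (fun p => z0 < p), p.Prime ∧ z0 < p := by
    intro p hp
    rw [mem_filter, mem_pz] at hp
    exact ⟨hp.1.2, hp.2⟩
  obtain ⟨F, hF⟩ : ∃ F : ℕ → ℝ, F = fun e : ℕ => |∑ n ∈ Icc 1 x, fpI z (c + P.eval (n : ℤ)) * psg H z0 e n c| +
    (Vz z)⁻¹ * (K * (κ : ℝ) ^ #(e.primeFactors) * ((1 / 2 : ℝ) ^ b1 * ((x : ℝ) / e) + ((z ^ (C1 * b1) : ℕ) : ℝ)) + n1) := ⟨_, rfl⟩
  have hVi0 : 0 ≤ (Vz z)⁻¹ := (inv_pos.2 (Vz_pos z)).le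
  have hFn : ∀ e ∈ S, 0 ≤ F e := by
    intro e _
    rw [hF]
    positivity
  have hsum : ∑ T ∈ ((pz y).filter (fun p => z0 < p)).powerset.filter (fun T : Finset ℕ => ∏ p ∈ T, p ≤ D),
        (DT (Gp0 P c) (H c) z0 z x T + (Vz z)⁻¹ * ((∏ p ∈ pz z0, (p : ℝ)) * (κ : ℝ) ^ #T *
          ((1 / 2 : ℝ) ^ b1 * ((x : ℝ) / ∏ p ∈ T, (p : ℝ)) + (z : ℝ) ^ (C1 * b1)) + n1)) ≤ ∑ e ∈ S, F e := by
    refine le_trans (le_of_eq ?_) (pow_sum D z0 _ hPp S ?_ F hFn)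
    · apply sum_congr rfl
      intro T hT
      rw [mem_filter, mem_powerset] at hT
      have hTp : ∀ p ∈ T, p.Prime := fun p hp => (hPp p (hT.1 hp)).1
      rw [DTg_eq P H z0 z x T hTp c, hF, hK]
      simp only
      rw [Nat.primeFactors_prod hTp]
      push_cast
      rfl
    · intro e he1 he2 he3
      rw [hS, mem_filter, mem_Icc]
      have h1 : e ^ Λ ≤ x := (Nat.pow_le_pow_left he3 Λ).trans hDx
      have h2 : 1 ≤ e := Nat.pos_of_ne_zero he1.ne_zero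
      refine ⟨⟨h2, (Nat.le_self_pow (by omega) e).trans h1⟩, he1, he2, h1⟩
  have hFs : ∑ e ∈ S, F e = EG P H z0 z x S c + ∑ e ∈ S, (Vz z)⁻¹ * (K * (κ : ℝ) ^ #(e.primeFactors) *
      ((1 / 2 : ℝ) ^ b1 * ((x : ℝ) / e) + ((z ^ (C1 * b1) : ℕ) : ℝ)) + n1) := by
    rw [hF]
    unfold EG
    rw [← sum_add_distrib]
  have hX8 : (1 : ℝ) ≤ (x : ℝ) ^ (1 / 8 : ℝ) := Real.one_le_rpow hx1r (by norm_num)
  have h2 := tot_err S x κ K n1 W V b1 (z ^ (C1 * b1)) (by omega) L (Vz z)⁻¹ ((x : ℝ) ^ (1 / 8 : ℝ)) (EG P H z0 z x S c) ((JJ y : ℝ) + 2)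
    (by rw [hLd]; linarith) hVi0 (by rw [hLd]; exact hvi') (EG_nonneg _ _ _ _ _ _ _) (by rw [hLd]; exact hES) (by rw [hLd]; exact hb2)
    (by push_cast; exact hb3 z hz2) hX8 (by
      intro e he
      have h1 := he
      rw [hS, mem_filter, mem_Icc] at h1
      refine ⟨h1.1.1, ?_⟩
      have h2 : e ^ 8 ≤ x := (Nat.pow_le_pow_right h1.1.1 (by omega)).trans h1.2.2.2
      have h3 : ((e : ℝ)) ^ 8 ≤ x := by exact_mod_cast h2
      have h4 := Real.pow_rpow_inv_natCast (x := (e : ℝ)) (Nat.cast_nonneg _) (show (8 : ℕ) ≠ 0 by norm_num)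
      rw [← h4]
      have h5 : ((8 : ℕ) : ℝ)⁻¹ = 1 / 8 := by norm_num
      rw [h5]
      exact Real.rpow_le_rpow (by positivity) h3 (by norm_num))
    (by
      rw [hLd]
      apply hom x (by omega) S
      intro e he
      rw [hS, mem_filter, mem_Icc] at he
      exact ⟨he.2.1, he.1.2⟩) (by positivity) (by
      rw [hLd]
      exact JJ_log y x (by omega) hyx' (by rw [← hLd]; exact hL1)) (by
      rw [hLd]
      calc 6 * ((K : ℝ) + n1) * Real.log x ^ (V + W + 3) * ((x : ℝ) ^ (1 / 8 : ℝ)) ^ 2 ≤ (x : ℝ) ^ (1 / 2 : ℝ) * (x : ℝ) ^ (1 / 4 : ℝ) := by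
            apply mul_le_mul g2 _ (by positivity) (by positivity)
            rw [← Real.rpow_natCast, ← Real.rpow_mul hx0.le]
            apply le_of_eq
            congr 1
            norm_num
        _ = (x : ℝ) ^ (3 / 4 : ℝ) := by rw [← Real.rpow_add hx0]; norm_num
        _ ≤ (x : ℝ) ^ (1 : ℝ) := Real.rpow_le_rpow_of_exponent_le hx1r (by norm_num)
        _ = x := Real.rpow_one _)
  have h3 := hlow x (by omega) (Gp0 P c) (H c) z y (by omega) hzy hyx' (fun p hp hz => ⟨hsy.omG c p hp hz, hsy.oH c p hp hz⟩) hadm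
  rw [← hLd] at h3 ⊢
  have h4 : (x : ℝ) / L ^ V ≤ 1 / L ^ U * M := by
    have h5 : (x : ℝ) / L ^ V = 1 / L ^ U * (x * (1 / L ^ V0)) := by
      rw [hV, pow_add]
      field_simp
    rw [h5, hM]
    apply mul_le_mul_of_nonneg_left _ (by positivity)
    exact mul_le_mul_of_nonneg_left h3 hx0.le
  have h5 : ((1 / 2 : ℝ)) ^ (b + C0) * M ≤ (1 / 2 : ℝ) ^ b * M := by
    apply mul_le_mul_of_nonneg_right _ hM0
    exact pow_le_pow_of_le_one (by norm_num) (by norm_num) (by omega)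
  rw [← hFs] at h2
  calc _ ≤ _ := h0
    _ ≤ (1 / 2 : ℝ) ^ b * M + ((JJ y : ℝ) + 2) * ∑ e ∈ S, F e := by
        apply add_le_add h5
        exact mul_le_mul_of_nonneg_left hsum (by positivity)
    _ ≤ (1 / 2 : ℝ) ^ b * M + x / L ^ V := add_le_add le_rfl h2
    _ ≤ (1 / 2 : ℝ) ^ b * M + 1 / L ^ U * M := add_le_add le_rfl h4
    _ = _ := by ring


end Pool.Agent.H544.BC
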