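import Mathlib
import Pool.Agent.H544.BC.W6
import Pool.Agent.H544.BC.R8

/-!
Prime values `p = P(n) + c` for which the numbers `R_i(p)` are almost prime, for almost all shifts.
-/

set_option autoImplicit false

namespace Pool.Agent.H544.BC
open Finset Polynomial
open Pool.Agent.H373R2.T7 (pz Vz mem_pz Vz_pos Vz_le_one lamzI lamz lamP lamP_nonneg JJ JJ_lt JJ_le JJ_pow Vz_low Vz_inv_small cf abs_eval_le)
open Pool.Agent.H544.LD (cls om Gz Gz_nonneg Gz_le_one fac_nn fac_le_one om_fixed om_shift om_le dvd_eval_iff markov om_lt)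
open Pool.Agent.N913.MT (evt_log_pow evt_log_ge)

/-- the product of the polynomials `R_i` at the value -/
noncomputable def Hq {k : ℕ} (P : ℤ[X]) (R : Fin k → ℤ[X]) (c : ℤ) : ℤ[X] := ∏ i, (R i).comp (C c + P)

lemma Hq_eval {k : ℕ} (P : ℤ[X]) (R : Fin k → ℤ[X]) (c n : ℤ) : (Hq P R c).eval n = ∏ i, (R i).eval (c + P.eval n) := by
  unfold Hq
  rw [eval_prod]
  apply prod_congr rfl
  intro i _
  rw [eval_comp, eval_add, eval_C]

open Classical in
/-- the weight of a class of the value -/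
noncomputable def vq {k : ℕ} (R : Fin k → ℤ[X]) (p : ℕ) (l : ℤ) : ℝ := if (p : ℤ) ∣ ∏ i, (R i).eval l then p else 0

lemma Rdvd {k : ℕ} (R : Fin k → ℤ[X]) (p : ℕ) (a b : ℤ) (h : (p : ℤ) ∣ a - b) :
    (p : ℤ) ∣ ∏ i, (R i).eval a ↔ (p : ℤ) ∣ ∏ i, (R i).eval b := by
  have e : ∀ c : ℤ, (∏ i, R i).eval c = ∏ i, (R i).eval c := fun c => eval_prod _ _ _
  rw [← e, ← e]
  exact dvd_eval_iff (∏ i, R i) p a b h

/-- the number of classes in which one of the `R_i` vanishes -/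
lemma R_cnt {k : ℕ} (R : Fin k → ℤ[X]) (p : ℕ) (hp : p.Prime) (hR : ∀ i, ¬ (p : ℤ) ∣ (R i).leadingCoeff) (a : ℤ) :
    #((range p).filter (fun c : ℕ => (p : ℤ) ∣ ∏ i, (R i).eval ((c : ℤ) + a))) ≤ ∑ i, (R i).natDegree := by
  refine (un_bd p hp (fun i c => (R i).eval ((c : ℤ) + a))).trans ?_
  apply sum_le_sum
  intro i _
  have hn : (X + C a : ℤ[X]).natDegree = 1 := natDegree_X_add_C a
  have hd1 : ((R i).comp (X + C a)).natDegree = (R i).natDegree := by rw [natDegree_comp, hn, mul_one]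
  have h1 := roots_mod ((R i).comp (X + C a)) p hp ((R i).natDegree) (by
    rw [← hd1]
    have h2 : ((R i).comp (X + C a)).leadingCoeff = (R i).leadingCoeff := by
      rw [leadingCoeff_comp (by rw [hn]; norm_num), leadingCoeff_X_add_C, one_pow, mul_one]
    rw [← leadingCoeff, h2]
    exact hR i)
  rw [hd1] at h1
  refine le_trans (le_of_eq ?_) h1
  congr 1
  apply filter_congr
  intro m _
  rw [eval_comp, eval_add, eval_X, eval_C]

lemma gs_q {k : ℕ} (P : ℤ[X]) (R : Fin k → ℤ[X]) (hd : 1 ≤ P.natDegree) (hl : 0 < P.leadingCoeff)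
    (hR : ∀ i, 1 ≤ (R i).natDegree) (hR0 : ∀ i, (R i).eval 0 ≠ 0) :
    ∃ κ z0 : ℕ, 1 ≤ κ ∧ GS P (Hq P R) κ z0 (vq R) := by
  classical
  obtain ⟨d, hdd⟩ : ∃ d, d = P.natDegree := ⟨_, rfl⟩
  obtain ⟨κ, hκ⟩ : ∃ κ, κ = d + ∑ i, (R i).natDegree * d + ∑ i, (R i).natDegree + 1 := ⟨_, rfl⟩
  obtain ⟨z0, hz0⟩ : ∃ z0, z0 = d * P.leadingCoeff.natAbs + P.leadingCoeff.natAbs + ∑ i, (R i).leadingCoeff.natAbs +
    ∑ i, ((R i).eval 0).natAbs := ⟨_, rfl⟩
  have hlp : P.leadingCoeff.natAbs ≠ 0 := Int.natAbs_ne_zero.2 hl.ne'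
  have hPl : ∀ p : ℕ, p.Prime → z0 < p → ¬ (p : ℤ) ∣ P.leadingCoeff := by
    intro p hp hpz hdv
    have h1 := Nat.le_of_dvd (Nat.pos_of_ne_zero hlp) (Int.natCast_dvd.1 hdv)
    omega
  have hRl : ∀ p : ℕ, p.Prime → z0 < p → ∀ i, ¬ (p : ℤ) ∣ (R i).leadingCoeff := by
    intro p hp hpz i hdv
    have h1 := Int.natCast_dvd.1 hdv
    have h2 : (R i).leadingCoeff.natAbs ≠ 0 := by
      rw [Int.natAbs_ne_zero, leadingCoeff_ne_zero]
      intro h
      have := hR i
      rw [h, natDegree_zero] at this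
      omega
    have h3 := Nat.le_of_dvd (Nat.pos_of_ne_zero h2) h1
    have h4 := single_le_sum (f := fun i => (R i).leadingCoeff.natAbs) (fun _ _ => Nat.zero_le _) (mem_univ i)
    omega
  have hR0' : ∀ p : ℕ, p.Prime → z0 < p → ¬ (p : ℤ) ∣ ∏ i, (R i).eval 0 := by
    intro p hp hpz hdv
    obtain ⟨i, _, hi⟩ := (Nat.prime_iff_prime_int.1 hp).exists_mem_finset_dvd hdv
    have h3 := Nat.le_of_dvd (Nat.pos_of_ne_zero (Int.natAbs_ne_zero.2 (hR0 i))) (Int.natCast_dvd.1 hi)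
    have h4 := single_le_sum (f := fun i => ((R i).eval 0).natAbs) (fun _ _ => Nat.zero_le _) (mem_univ i)
    omega
  refine ⟨κ, z0, by omega, ?_⟩
  refine ⟨hd, hl, by omega, ?_, ?_, ?_, ?_, ?_, ?_⟩
  · intro p hp hpz hdv
    rw [← hdd] at hdv
    have h3 : 0 < d * P.leadingCoeff.natAbs := Nat.mul_pos (by omega) (Nat.pos_of_ne_zero hlp)
    have := Nat.le_of_dvd h3 hdv
    omega
  · intro p n n' c c' hn hc
    rw [Hq_eval, Hq_eval]
    apply Rdvd
    have h2 : (p : ℤ) ∣ P.eval n - P.eval n' := hn.trans (Polynomial.sub_dvd_eval_sub _ _ _)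
    have e : c + P.eval n - (c' + P.eval n') = (c - c') + (P.eval n - P.eval n') := by ring
    rw [e]
    exact dvd_add hc h2
  · intro c p hp hpz
    unfold om
    have h1 : (range p).filter (fun n : ℕ => (p : ℤ) ∣ (Hq P R c).eval (n : ℤ)) = (range p).filter (fun n : ℕ => (p : ℤ) ∣ ∏ i, (R i).eval (c + P.eval (n : ℤ))) := by
      apply filter_congr
      intro n _
      rw [Hq_eval]
    rw [h1]
    refine (un_bd p hp (fun i n => (R i).eval (c + P.eval (n : ℤ)))).trans (le_trans (sum_le_sum (g := fun i => (R i).natDegree * d) fun i _ => ?_) (by omega))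
    have hn : (C c + P).natDegree = d := by rw [natDegree_C_add, hdd]
    have hlc : (C c + P).leadingCoeff = P.leadingCoeff := by
      rw [leadingCoeff, natDegree_C_add, coeff_add, coeff_C, if_neg (by omega), zero_add]
      rfl
    have hd1 : ((R i).comp (C c + P)).natDegree = (R i).natDegree * d := by rw [natDegree_comp, hn]
    have h2 := roots_mod ((R i).comp (C c + P)) p hp ((R i).natDegree * d) (by
      rw [← hd1]
      have h2 : ((R i).comp (C c + P)).leadingCoeff = (R i).leadingCoeff * P.leadingCoeff ^ (R i).natDegree := by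
        rw [leadingCoeff_comp (by rw [hn]; omega), hlc]
      rw [← leadingCoeff, h2]
      intro h3
      have hpi := Nat.prime_iff_prime_int.1 hp
      rcases hpi.dvd_or_dvd h3 with h4 | h4
      · exact hRl p hp hpz i h4
      · exact hPl p hp hpz (hpi.dvd_of_dvd_pow h4))
    rw [hd1] at h2
    refine le_trans (le_of_eq ?_) h2
    congr 1
    apply filter_congr
    intro n _
    rw [eval_comp, eval_add, eval_C]
  · intro p hp hpz n
    have h1 := R_cnt R p hp (hRl p hp hpz) (P.eval n)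
    refine le_trans (le_of_eq ?_) (h1.trans (by omega))
    congr 1
    apply filter_congr
    intro c _
    rw [Hq_eval]
  · intro p hp hpz l
    have h1 : ∀ n : ℕ, (Hq P R (l - P.eval (n : ℤ))).eval (n : ℤ) = ∏ i, (R i).eval l := by
      intro n
      rw [Hq_eval]
      apply prod_congr rfl
      intro i _
      congr 1
      ring
    simp only [h1]
    unfold vq
    by_cases h : (p : ℤ) ∣ ∏ i, (R i).eval l
    · rw [if_pos h, filter_true_of_mem (fun _ _ => h), card_range]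
      have : (1 : ℝ) ≤ κ := by exact_mod_cast (by omega : 1 ≤ κ)
      exact le_mul_of_one_le_left (Nat.cast_nonneg _) this
    · rw [if_neg h, filter_false_of_mem (fun _ _ => h), card_empty]
      simp
  · refine ⟨?_, ?_, ?_, ?_⟩
    · intro p l
      unfold vq
      split_ifs
      · exact Nat.cast_nonneg _
      · exact le_rfl
    · intro p a b hab
      unfold vq
      simp only [Rdvd R p a b hab]
    · intro p hp hpz
      unfold vq
      rw [← sum_filter, sum_const, nsmul_eq_mul]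
      apply mul_le_mul_of_nonneg_right _ (Nat.cast_nonneg _)
      have h1 := R_cnt R p hp (hRl p hp hpz) 0
      simp only [add_zero] at h1
      exact_mod_cast h1.trans (by omega)
    · intro p hp hpz
      unfold vq
      rw [if_neg (hR0' p hp hpz)]
      exact Nat.cast_nonneg _

open Classical in
/-- the arguments whose value is prime, such that no `R_i` of the value has a prime factor up to `y` -/
noncomputable def PQ {k : ℕ} (P : ℤ[X]) (R : Fin k → ℤ[X]) (c : ℤ) (y x : ℕ) : Finset ℕ :=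
  (Icc 1 x).filter (fun n : ℕ => (c + P.eval (n : ℤ)).toNat.Prime ∧ ∀ p : ℕ, p.Prime → p ≤ y → ∀ i, ¬ (p : ℤ) ∣ (R i).eval (c + P.eval (n : ℤ)))

lemma SQ_eq {k : ℕ} (P : ℤ[X]) (R : Fin k → ℤ[X]) (c : ℤ) (y x : ℕ) :
    SP (Gp0 P c) (Hq P R c) y x = ∑ n ∈ PQ P R c y x, Real.log ((c + P.eval (n : ℤ)).toNat) := by
  classical
  unfold SP PQ lamP
  rw [← sum_filter, filter_filter]
  simp only [Gp0_eval, Hq_eval]
  apply sum_congr _ (fun _ _ => rfl)
  apply filter_congr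
  intro n _
  constructor
  · rintro ⟨h1, h2⟩
    refine ⟨h2, fun p hp hpy i hpi => ?_⟩
    exact h1 p (mem_pz.2 ⟨hpy, hp⟩) (hpi.trans (dvd_prod_of_mem _ (mem_univ i)))
  · rintro ⟨h1, h2⟩
    refine ⟨fun p hp hpd => ?_, h1⟩
    obtain ⟨i, _, hi⟩ := (Nat.prime_iff_prime_int.1 (mem_pz.1 hp).2).exists_mem_finset_dvd hpd
    exact h2 p (mem_pz.1 hp).2 (mem_pz.1 hp).1 i hi

open Classical in
/-- the arguments whose value is prime, such that every `R_i` of the value has at most `r` prime factors -/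
noncomputable def AQ {k : ℕ} (P : ℤ[X]) (R : Fin k → ℤ[X]) (c : ℤ) (r x : ℕ) : Finset ℕ :=
  (Icc 1 x).filter (fun n : ℕ => (c + P.eval (n : ℤ)).toNat.Prime ∧ ∀ i, (R i).eval (c + P.eval (n : ℤ)) ≠ 0 ∧
    ((R i).eval (c + P.eval (n : ℤ))).natAbs.primeFactorsList.length ≤ r)

theorem main_twoV {k : ℕ} (P : ℤ[X]) (R : Fin k → ℤ[X]) (hd : 1 ≤ P.natDegree) (hl : 0 < P.leadingCoeff)
    (hR : ∀ i, 1 ≤ (R i).natDegree) (hR0 : ∀ i, (R i).eval 0 ≠ 0) :
    ∃ C r : ℕ, 1 ≤ C ∧ ∀ B U : ℕ, ∃ E0 : ℕ, ∀ E : ℕ, ∃ x0 : ℕ, ∀ x : ℕ, x0 ≤ x → ∀ A : ℕ,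
    A ≤ B * x ^ P.natDegree → x ^ P.natDegree ≤ B * A →
    ∀ z : ℕ, Real.log x ^ E0 ≤ z → (z : ℝ) ≤ Real.log x ^ E →
    ∃ Bad ⊆ Icc 1 A, (#Bad : ℝ) ≤ A / Real.log x ^ U ∧ ∀ c ∈ Icc 1 A, c ∉ Bad →
      (∀ p : ℕ, p.Prime → om (Gp0 P c * Hq P R c) p < p) →
      (∀ b y : ℕ, 1 ≤ b → z ≤ y → y ^ (C * b) ≤ x →
        |SP (Gp0 P c) (Hq P R c) y x - x * SS (Gp0 P c) (Hq P R c) z y| ≤
          ((1 / 2 : ℝ) ^ b + 1 / Real.log x ^ U) * (x * SS (Gp0 P c) (Hq P R c) z y)) ∧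
      (x : ℝ) / Real.log x ^ r ≤ #(AQ P R c r x) := by
  classical
  obtain ⟨κ, z00, hκ, hgs⟩ := gs_q P R hd hl hR hR0
  obtain ⟨C, hC, hmain⟩ := main_asG P (Hq P R) κ z00 (vq R) hκ hgs
  -- a lower bound for the singular series
  obtain ⟨d, hdd⟩ : ∃ d, d = P.natDegree := ⟨_, rfl⟩
  obtain ⟨z0, hz0⟩ : ∃ z0, z0 = 4 * κ + z00 := ⟨_, rfl⟩
  have hsy : GS P (Hq P R) κ z0 (vq R) := hgs.mono (by omega)
  obtain ⟨V0, Nl, hlow⟩ := SS_low κ z0 (by omega)
  obtain ⟨Dg, hDg⟩ : ∃ Dg, Dg = (d + 1) * ∑ i, (R i).natDegree := ⟨_, rfl⟩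
  obtain ⟨Cf, hCf⟩ : ∃ Cf, Cf = cf P + ∑ i, cf (R i) := ⟨_, rfl⟩
  obtain ⟨r, hr⟩ : ∃ r, r = C * 2 * (Dg + 1) + V0 + 2 := ⟨_, rfl⟩
  refine ⟨C, r, hC, fun B U => ?_⟩
  obtain ⟨E0, hE0⟩ := hmain B (U + 1)
  refine ⟨E0 + 1, fun E => ?_⟩
  obtain ⟨x1, hx1⟩ := hE0 E
  obtain ⟨N3, hN3⟩ := Filter.eventually_atTop.1 ((evt_log_ge (z0 + 4 + 2 * (d + 1))).and
    (evt_log_pow (1 / 2) (by norm_num) 1 (E * (C * 2) + 1)))
  refine ⟨x1 + N3 + Nl + B + Cf + 2, fun x hx A hA1 hA2 z hz1 hz2 => ?_⟩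
  obtain ⟨g1, g2⟩ := hN3 x (by omega)
  have hz1' : Real.log x ^ E0 ≤ z := (pow_le_pow_right₀ (by
    have : (0 : ℝ) ≤ z0 := Nat.cast_nonneg _
    have : (0 : ℝ) ≤ d := Nat.cast_nonneg _
    linarith) (by omega)).trans hz1
  obtain ⟨Bad, hB1, hB2, hB3⟩ := hx1 x (by omega) A hA1 hA2 z hz1' hz2
  obtain ⟨L, hLd⟩ : ∃ L, L = Real.log x := ⟨_, rfl⟩
  rw [← hLd] at g1 g2 hz1 hz2 hB2 hB3 ⊢
  have hz0r : (0 : ℝ) ≤ z0 := Nat.cast_nonneg _
  have hdr : (0 : ℝ) ≤ d := Nat.cast_nonneg _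
  have hL4 : 4 ≤ L := by linarith
  have hL1 : 1 ≤ L := by linarith
  have hL0 : 0 < L := by linarith
  have hx1r : (1 : ℝ) ≤ x := by exact_mod_cast (by omega : 1 ≤ x)
  have hx0 : (0 : ℝ) < x := by linarith
  have hUU : 1 / L ^ (U + 1) ≤ 1 / L ^ U := one_div_le_one_div_of_le (by positivity) (pow_le_pow_right₀ hL1 (by omega))
  refine ⟨Bad, hB1, hB2.trans (div_le_div_of_nonneg_left (Nat.cast_nonneg _) (by positivity) (pow_le_pow_right₀ hL1 (by omega))), fun c hc hcB hadm => ?_⟩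
  have h1 := hB3 c hc hcB hadm
  constructor
  · intro b y hb hzy hyx
    refine (h1 b y hb hzy hyx).trans ?_
    apply mul_le_mul_of_nonneg_right _ (mul_nonneg hx0.le (SS_nonneg _ _ _ _))
    linarith
  · obtain ⟨y, hy1, hy2⟩ := root_ex x (C * 2) (by omega) (by omega)
    have hzy : z ≤ y := by
      by_contra h
      have h2 : (y + 1) ^ (C * 2) ≤ z ^ (C * 2) := Nat.pow_le_pow_left (by omega) _
      have h3 : x < z ^ (C * 2) := by omega
      have h4 : (x : ℝ) < (z : ℝ) ^ (C * 2) := by exact_mod_cast h3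
      have h5 : (z : ℝ) ^ (C * 2) ≤ L ^ (E * (C * 2)) := by
        rw [pow_mul L]
        exact pow_le_pow_left₀ (Nat.cast_nonneg _) hz2 _
      have h6 : L ^ (E * (C * 2)) ≤ L ^ (E * (C * 2) + 1) := pow_le_pow_right₀ hL1 (by omega)
      have h7 : (x : ℝ) ^ (1 / 2 : ℝ) ≤ x := by
        calc (x : ℝ) ^ (1 / 2 : ℝ) ≤ (x : ℝ) ^ (1 : ℝ) := Real.rpow_le_rpow_of_exponent_le hx1r (by norm_num)
          _ = x := Real.rpow_one _
      linarith
    have h2 := h1 2 y (by norm_num) hzy hy1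
    have hyx : y ≤ x := (Nat.le_self_pow (by omega) y).trans hy1
    have hzL : L ≤ z := by
      refine le_trans ?_ hz1
      have := pow_le_pow_right₀ hL1 (show 1 ≤ E0 + 1 by omega)
      rwa [pow_one] at this
    have hzz : z0 + 4 ≤ z := by
      have h3 : ((z0 + 4 : ℕ) : ℝ) ≤ z := by
        push_cast
        linarith
      exact_mod_cast h3
    have hlo := hlow x (by omega) (Gp0 P c) (Hq P R c) z y (by omega) hzy hyx (fun p hp hz => ⟨hsy.omG c p hp hz, hsy.oH c p hp hz⟩) hadm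
    rw [← hLd] at hlo
    obtain ⟨M, hM⟩ : ∃ M, M = (x : ℝ) * SS (Gp0 P c) (Hq P R c) z y := ⟨_, rfl⟩
    rw [← hM] at h2
    have hMlo : x / L ^ V0 ≤ M := by
      rw [hM, div_eq_mul_one_div]
      exact mul_le_mul_of_nonneg_left hlo hx0.le
    have hM0 : 0 ≤ M := le_trans (by positivity) hMlo
    have hU4 : 1 / L ^ (U + 1) ≤ 1 / 4 := by
      apply one_div_le_one_div_of_le (by norm_num)
      have := pow_le_pow_right₀ hL1 (show 1 ≤ U + 1 by omega)
      rw [pow_one] at this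
      linarith
    have h3 : M / 2 ≤ SP (Gp0 P c) (Hq P R c) y x := by
      have h4 : ((1 / 2 : ℝ) ^ 2 + 1 / L ^ (U + 1)) * M ≤ (1 / 2) * M := by
        apply mul_le_mul_of_nonneg_right _ hM0
        have : (1 / 2 : ℝ) ^ 2 = 1 / 4 := by norm_num
        linarith
      have h5 := (abs_le.1 h2).1
      linarith
    -- sizes
    have hval : ∀ n : ℕ, n ∈ Icc 1 x → ((c : ℤ) + P.eval (n : ℤ)).natAbs < x ^ (d + 1) := by
      intro n hn
      rw [mem_Icc] at hn
      have h4 := abs_eval_le P n hn.1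
      have h5 : ((n : ℤ)) ^ P.natDegree ≤ (x : ℤ) ^ d := by
        rw [hdd]
        exact pow_le_pow_left₀ (by positivity) (by exact_mod_cast hn.2) _
      have h6 : |P.eval (n : ℤ)| ≤ (Cf : ℤ) * (x : ℤ) ^ d := by
        refine h4.trans ?_
        apply mul_le_mul (by exact_mod_cast (by omega : cf P ≤ Cf)) h5 (by positivity) (by positivity)
      have h7 : (c : ℤ) ≤ (B : ℤ) * (x : ℤ) ^ d := by
        have h8 : c ≤ B * x ^ d := by
          rw [hdd]
          exact (mem_Icc.1 hc).2.trans hA1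
        exact_mod_cast h8
      have h8 : |(c : ℤ) + P.eval (n : ℤ)| ≤ ((B : ℤ) + Cf) * (x : ℤ) ^ d := by
        refine (abs_add_le _ _).trans ?_
        rw [abs_of_nonneg (by positivity : (0 : ℤ) ≤ c), add_mul]
        exact add_le_add h7 h6
      have h9 : ((B : ℤ) + Cf) * (x : ℤ) ^ d < (x : ℤ) ^ (d + 1) := by
        rw [pow_succ, mul_comm]
        apply mul_lt_mul_of_pos_left _ (pow_pos (by exact_mod_cast (by omega : 0 < x)) _)
        exact_mod_cast (by omega : B + Cf < x)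
      have h10 : |(c : ℤ) + P.eval (n : ℤ)| < (x : ℤ) ^ (d + 1) := lt_of_le_of_lt h8 h9
      rw [Int.abs_eq_natAbs] at h10
      exact_mod_cast h10
    have hcfi : ∀ i, cf (R i) ≤ Cf := by
      intro i
      have := single_le_sum (f := fun i => cf (R i)) (fun _ _ => Nat.zero_le _) (mem_univ i)
      omega
    have hdgi : ∀ i, (d + 1) * (R i).natDegree ≤ Dg := by
      intro i
      rw [hDg]
      exact Nat.mul_le_mul_left _ (single_le_sum (f := fun i => (R i).natDegree) (fun _ _ => Nat.zero_le _) (mem_univ i))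
    have hRv : ∀ n : ℕ, n ∈ Icc 1 x → (c + P.eval (n : ℤ)).toNat.Prime → ∀ i, ((R i).eval ((c : ℤ) + P.eval (n : ℤ))).natAbs < x ^ (Dg + 1) := by
      intro n hn hpr i
      obtain ⟨m, hm⟩ : ∃ m : ℕ, m = ((c : ℤ) + P.eval (n : ℤ)).toNat := ⟨_, rfl⟩
      rw [← hm] at hpr
      have hm1 := hpr.one_le
      have hmz : (c : ℤ) + P.eval (n : ℤ) = (m : ℤ) := by omega
      have hv := hval n hn
      rw [hmz, Int.natAbs_natCast] at hv
      rw [hmz]
      have h4 := abs_eval_le (R i) m hm1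
      have h5 : ((m : ℤ)) ^ (R i).natDegree ≤ (x : ℤ) ^ Dg := by
        calc ((m : ℤ)) ^ (R i).natDegree ≤ ((x : ℤ) ^ (d + 1)) ^ (R i).natDegree := pow_le_pow_left₀ (by positivity) (by exact_mod_cast hv.le) _
          _ = (x : ℤ) ^ ((d + 1) * (R i).natDegree) := by rw [← pow_mul]
          _ ≤ (x : ℤ) ^ Dg := pow_le_pow_right₀ (by exact_mod_cast (by omega : 1 ≤ x)) (hdgi i)
      have h6 : |(R i).eval (m : ℤ)| ≤ (Cf : ℤ) * (x : ℤ) ^ Dg := by
        refine h4.trans ?_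
        apply mul_le_mul (by exact_mod_cast hcfi i) h5 (by positivity) (by positivity)
      have h9 : (Cf : ℤ) * (x : ℤ) ^ Dg < (x : ℤ) ^ (Dg + 1) := by
        rw [pow_succ, mul_comm]
        apply mul_lt_mul_of_pos_left _ (pow_pos (by exact_mod_cast (by omega : 0 < x)) _)
        exact_mod_cast (by omega : Cf < x)
      have h10 := lt_of_le_of_lt h6 h9
      rw [Int.abs_eq_natAbs] at h10
      exact_mod_cast h10
    have hsub : PQ P R c y x ⊆ AQ P R c r x := by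
      intro n hn
      unfold PQ at hn
      unfold AQ
      rw [mem_filter] at hn ⊢
      refine ⟨hn.1, hn.2.1, fun i => ?_⟩
      have h4 : (R i).eval ((c : ℤ) + P.eval (n : ℤ)) ≠ 0 := by
        intro h5
        apply hn.2.2 2 Nat.prime_two (by omega) i
        rw [h5]
        exact dvd_zero _
      refine ⟨h4, ?_⟩
      refine (rough_Om _ y (C * 2 * (Dg + 1)) (Int.natAbs_ne_zero.2 h4) ?_ ?_).trans (by omega)
      · intro p hp hpd
        by_contra h5
        exact hn.2.2 p hp (by omega) i (Int.natCast_dvd.2 hpd)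
      · rw [pow_mul]
        refine (hRv n hn.1 hn.2.1 i).trans ?_
        exact Nat.pow_lt_pow_left hy2 (by omega)
    have h4 : SP (Gp0 P c) (Hq P R c) y x ≤ #(PQ P R c y x) * ((d + 1) * L) := by
      rw [SQ_eq, ← nsmul_eq_mul]
      apply sum_le_card_nsmul
      intro n hn
      unfold PQ at hn
      rw [mem_filter] at hn
      have h5 := hval n hn.1
      have h6 : ((c : ℤ) + P.eval (n : ℤ)).toNat ≤ x ^ (d + 1) := by
        have : ((c : ℤ) + P.eval (n : ℤ)).toNat ≤ ((c : ℤ) + P.eval (n : ℤ)).natAbs := by omega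
        omega
      have h7 : (((c : ℤ) + P.eval (n : ℤ)).toNat : ℝ) ≤ (x : ℝ) ^ (d + 1) := by exact_mod_cast h6
      have h8 := Real.log_le_log (by exact_mod_cast hn.2.1.pos) h7
      rw [Real.log_pow] at h8
      rw [hLd]
      push_cast at h8
      exact h8
    have h5 : (x : ℝ) / L ^ V0 / 2 ≤ #(PQ P R c y x) * ((d + 1) * L) := by linarith
    have h6 : (x : ℝ) / L ^ (V0 + 2) ≤ #(PQ P R c y x) := by
      have h7 : 2 * ((d : ℝ) + 1) ≤ L := by linarith
      have h8 : (x : ℝ) / L ^ V0 ≤ #(PQ P R c y x) * L ^ 2 := by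
        calc (x : ℝ) / L ^ V0 ≤ 2 * (#(PQ P R c y x) * ((d + 1) * L)) := by linarith
          _ = #(PQ P R c y x) * ((2 * (d + 1)) * L) := by ring
          _ ≤ #(PQ P R c y x) * (L * L) := by
            apply mul_le_mul_of_nonneg_left _ (Nat.cast_nonneg _)
            exact mul_le_mul_of_nonneg_right h7 hL0.le
          _ = _ := by ring
      rw [pow_add, ← div_div, div_le_iff₀ (by positivity)]
      exact h8
    calc (x : ℝ) / L ^ r ≤ x / L ^ (V0 + 2) := by
          apply div_le_div_of_nonneg_left hx0.le (by positivity)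
          exact pow_le_pow_right₀ hL1 (by omega)
      _ ≤ #(PQ P R c y x) := h6
      _ ≤ _ := by exact_mod_cast card_le_card hsub

end Pool.Agent.H544.BC
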